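import Mathlib

set_option autoImplicit false

namespace Pool.Agent.Lib.MP_46505f_co

open Filter Topology

variable {W : Type} [Fintype W] [DecidableEq W]

/-- d is admissible: for some C, a.a.s. every H-free subgraph of G(n,p) (only the spanning ones
if span holds) with minimum degree at least d p n is C-colourable -/
def Adm (H : SimpleGraph W) (p : ℕ → unitInterval) (span : Prop) (d : ℝ) : Prop :=
  ∃ C : ℕ, Tendsto (fun n : ℕ => (SimpleGraph.binomialRandom (Fin n) (p n)).real
    {G | ∀ G' : G.Subgraph, (span → G'.IsSpanning) → H.Free G'.coe →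
      (∀ v : G'.verts, d * p n * n ≤ (G'.coe.neighborSet v).ncard) → G'.coe.Colorable C})
    atTop (𝓝 1)

/-- H with all edges meeting I deleted -/
def outside (H : SimpleGraph W) (I : Finset W) : SimpleGraph W where
  Adj u v := H.Adj u v ∧ u ∉ I ∧ v ∉ I
  symm := ⟨fun _ _ h => ⟨h.1.symm, h.2.2, h.2.1⟩⟩
  loopless := ⟨fun _ h => H.irrefl h.1⟩

/-- I is independent, H - I is a forest, the edges from I go to leaves or isolated vertices of the
forest, and no two adjacent vertices of the forest both send edges to I -/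
def IsCloud (H : SimpleGraph W) (I : Finset W) : Prop :=
  (∀ u ∈ I, ∀ v ∈ I, ¬ H.Adj u v) ∧ (outside H I).IsAcyclic ∧
  (∀ v, (∃ z ∈ I, H.Adj v z) → ((outside H I).neighborSet v).Subsingleton) ∧
  ∀ u v, (outside H I).Adj u v → (∃ z ∈ I, H.Adj u z) → ¬ ∃ z ∈ I, H.Adj v z

/-- a cloud such that every odd cycle of H has at least two vertices in it -/
def IsThunder (H : SimpleGraph W) (I : Finset W) : Prop :=
  IsCloud H I ∧ ∀ (v : W) (c : H.Walk v v), c.IsCycle → Odd c.length →
    2 ≤ (c.support.toFinset ∩ I).card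

/-- number of edges of H inside S -/
noncomputable def eIn (H : SimpleGraph W) (S : Finset W) : ℕ :=
  {e ∈ H.edgeSet | ∀ v ∈ e, v ∈ S}.ncard

/-- number of edges of H between S \ I and S ∩ I -/
noncomputable def cross (H : SimpleGraph W) (I S : Finset W) : ℕ :=
  {x : W × W | x.1 ∈ S \ I ∧ x.2 ∈ S ∩ I ∧ H.Adj x.1 x.2}.ncard

/-- number of components of H - I that meet S -/
noncomputable def comps (H : SimpleGraph W) (I S : Finset W) : ℕ :=
  ((outside H I).connectedComponentMk '' ↑(S \ I)).ncard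

/-- the 2-density -/
noncomputable def m2 (H : SimpleGraph W) : ℝ :=
  ⨆ S : {S : Finset W // 3 ≤ S.card}, ((eIn H S : ℝ) - 1) / ((S.1.card : ℝ) - 2)

/-- the 2-density relative to the cloud I -/
noncomputable def mI (H : SimpleGraph W) (I : Finset W) : ℝ :=
  ⨆ S : {S : Finset W // 3 ≤ S.card},
    ((cross H I S : ℝ) + (S.1 \ I).card - comps H I S - 1) / ((S.1.card : ℝ) - 2)

/-- n^(-1/m) = o(p) -/
def Above (p : ℕ → unitInterval) (m : ℝ) : Prop :=
  Tendsto (fun n : ℕ => (p n : ℝ) * (n : ℝ) ^ (1 / m)) atTop atTop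

/-- p ≥ n^(ε - 1/m) for some ε > 0 and all large n -/
def PolyAbove (p : ℕ → unitInterval) (m : ℝ) : Prop :=
  ∃ ε > 0, ∀ᶠ n : ℕ in atTop, (n : ℝ) ^ (ε - 1 / m) ≤ p n

/-- p n^(1/m) comes arbitrarily close to 0 infinitely often -/
def Dips (p : ℕ → unitInterval) (m : ℝ) : Prop :=
  ∀ c > 0, ∃ᶠ n : ℕ in atTop, (p n : ℝ) * (n : ℝ) ^ (1 / m) ≤ c

/-- the maximum in mI is attained by a set that meets at least two components of H - I, one of
which is not a single vertex -/
def Soft (H : SimpleGraph W) (I : Finset W) : Prop :=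
  ∃ S : Finset W, 3 ≤ S.card ∧
    (cross H I S : ℝ) + (S \ I).card - comps H I S - 1 = mI H I * ((S.card : ℝ) - 2) ∧
    2 ≤ comps H I S ∧ ∃ u ∈ S, ∃ v, (outside H I).Adj u v

/-- p is above the threshold of the cloud I -/
def On (H : SimpleGraph W) (p : ℕ → unitInterval) (I : Finset W) : Prop :=
  Above p (mI H I) ∧ (Soft H I → PolyAbove p (mI H I))

/-- the classes 1, ..., k of c are independent sets and the class 0 spans a forest -/
def Split (H : SimpleGraph W) (k : ℕ) (c : W → ℕ) : Prop :=
  (∀ v, c v ≤ k) ∧ (∀ u v, H.Adj u v → c u = c v → c u = 0) ∧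
    (outside H (Finset.univ.filter fun v => c v ≠ 0)).IsAcyclic

/-- every odd cycle inside the classes 0 and 1 has at least two vertices in the class 1 -/
def NearAc (H : SimpleGraph W) (c : W → ℕ) : Prop :=
  ∀ (v : W) (w : H.Walk v v), w.IsCycle → Odd w.length → (∀ x ∈ w.support, c x ≤ 1) →
    2 ≤ (w.support.toFinset.filter fun x => c x = 1).card

open Classical in
/-- the chromatic threshold of H for p = 1, where r is the chromatic number -/
noncomputable def dense (H : SimpleGraph W) (r : ℕ) : ℝ :=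
  if ∃ c, Split H (r - 2) c ∧ NearAc H c then ((r : ℝ) - 3) / ((r : ℝ) - 2)
  else if ∃ c, Split H (r - 2) c then (2 * (r : ℝ) - 5) / (2 * (r : ℝ) - 3)
  else ((r : ℝ) - 2) / ((r : ℝ) - 1)

open Classical in
/-- the value of the chromatic threshold when p n is much larger than log n -/
noncomputable def val (H : SimpleGraph W) (p : ℕ → unitInterval) : ℝ :=
  if ∃ a > 0, ∀ᶠ n : ℕ in atTop, a ≤ (p n : ℝ) then dense H H.chromaticNumber.toNat
  else if ∃ I, IsThunder H I ∧ On H p I then 0
  else if ∃ I, IsCloud H I ∧ On H p I then 1 / 3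
  else if Above p (m2 H) then
    ((H.chromaticNumber.toNat : ℝ) - 2) / ((H.chromaticNumber.toNat : ℝ) - 1)
  else 1

/-- p with the values above (log n)^2 / n replaced by 0 -/
noncomputable def lo (p : ℕ → unitInterval) (n : ℕ) : unitInterval :=
  if Real.log n ^ 2 < p n * n then 0 else p n

/-- p with the values up to (log n)^2 / n replaced by 1 -/
noncomputable def hi (p : ℕ → unitInterval) (n : ℕ) : unitInterval :=
  if Real.log n ^ 2 < p n * n then p n else 1

/-- the limiting ratio of the minimum degree of G(n,p) to p n -/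
noncomputable def gam (p : ℕ → unitInterval) : ℝ :=
  sInf {x | 0 ≤ x ∧ x ≤ 1 ∧
    ∀ᶠ n : ℕ in atTop, (p n : ℝ) * n * (1 - x + x * Real.log x) ≤ Real.log n}

/-- p is outside the critical windows that decide the value -/
def Clear (H : SimpleGraph W) (p : ℕ → unitInterval) : Prop :=
  (Above p (m2 H) ∨ Dips p (m2 H)) ∧
  ((∃ I, IsCloud H I ∧ On H p I) ∨ ∀ I, IsCloud H I → ¬ Soft H I → Dips p (mI H I)) ∧
  ((∃ I, IsThunder H I ∧ On H p I) ∨ ∀ I, IsThunder H I → ¬ Soft H I → Dips p (mI H I))

open Classical in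
/-- the value of the chromatic threshold for an arbitrary sequence p -/
noncomputable def thr (H : SimpleGraph W) (p : ℕ → unitInterval) (span : Prop) : EReal :=
  if H.IsAcyclic then ⊥ else
    max (if ∃ K : ℝ, ∀ᶠ n : ℕ in atTop, (lo p n : ℝ) * n ≤ K then ⊥
        else ((if span then gam (lo p) else 1 : ℝ) : EReal))
      (if ∃ᶠ n : ℕ in atTop, Real.log n ^ 2 < p n * n then (val H (hi p) : EReal) else ⊥)

end Pool.Agent.Lib.MP_46505f_co
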