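import Pool.Agent.Lib.MP_46505f_co.Forest

set_option autoImplicit false
set_option linter.unusedSectionVars false
open Finset

namespace Pool.Agent.Lib.MP_46505f_co

/- Density boosting and counts of Zykov type configurations. -/

variable {A V I J : Type*} [Fintype A] [DecidableEq A] [Fintype V] [DecidableEq V]
  [Fintype I] [DecidableEq I] [Fintype J] [DecidableEq J]

lemma sum_le_card_of {κ : Type*} [Fintype κ] (f : κ → ℝ) (S : Finset κ)
    (h : ∀ k, f k ≤ 0 ∨ (f k ≤ 1 ∧ k ∈ S)) : ∑ k, f k ≤ S.card := by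
  classical
  have : (S.card : ℝ) = ∑ k, if k ∈ S then 1 else 0 := by simp
  rw [this]
  refine Finset.sum_le_sum fun k _ => ?_
  rcases h k with h | h
  · refine h.trans ?_; split_ifs <;> norm_num
  · rw [if_pos h.2]; exact h.1

lemma card_le_sum_of {κ : Type*} [Fintype κ] (f : κ → ℝ) (S : Finset κ) (h0 : ∀ k, 0 ≤ f k)
    (h : ∀ k ∈ S, 1 ≤ f k) : S.card ≤ ∑ k, f k := by
  have := Finset.card_nsmul_le_sum S f 1 h
  rw [nsmul_eq_mul, mul_one] at this
  exact this.trans (Finset.sum_le_sum_of_subset_of_nonneg (subset_univ _) fun _ _ _ => h0 _)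

lemma nonempty_of_not_col {F : SimpleGraph V} {X : Finset V} {t : ℕ} (h : ¬ Col F X t) :
    X.Nonempty := by
  rcases X.eq_empty_or_nonempty with rfl | h'
  · exact absurd (col_empty _ _) h
  · exact h'

open Classical in
theorem boost {α β : ℝ} (hα : 0 < α) (hβ : 0 < β) {M : ℕ}
    (hM : (Fintype.card I : ℝ) < M * (α * β / 2)) {F : SimpleGraph V} {U : V → Finset V}
    {X : Finset V} {t : ℕ} (hX : ¬ Col F X ((Fintype.card I + 1) ^ M * t))
    (hU : ∀ x ∈ X, α * Fintype.card V ≤ (U x).card) :
    ∃ X' ⊆ X, ∃ Z : I → Finset V, (∀ z, (α / 2) ^ M * Fintype.card V ≤ (Z z).card) ∧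
      ∀ S : I → Finset V, (∀ z, S z ⊆ Z z ∧ β * (Z z).card ≤ (S z).card) →
        ¬ Col F (X'.filter fun x => ∀ z, α / 2 * (S z).card ≤ (S z ∩ U x).card) t := by
  obtain ⟨x0, hx0⟩ := nonempty_of_not_col hX
  have hn : (0 : ℝ) < Fintype.card V := by exact_mod_cast Fintype.card_pos_iff.2 ⟨x0⟩
  have hα1 : α ≤ 1 := by
    have h1 : ((U x0).card : ℝ) ≤ Fintype.card V := by exact_mod_cast Finset.card_le_univ _
    have := hU x0 hx0
    nlinarith only [h1, this, hn]
  have key : ∀ s : ℕ, ∀ X' ⊆ X, ∀ (Z : I → Finset V) (a : I → ℝ) (μ : ℝ), 0 < μ →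
      (∀ z, μ ≤ (Z z).card) → (∀ z, α ≤ a z) →
      (∀ x ∈ X', ∀ z, a z * (Z z).card ≤ (Z z ∩ U x).card) →
      Fintype.card I - s * (α * β / 2) < ∑ z, a z →
      ¬ Col F X' ((Fintype.card I + 1) ^ s * t) →
      ∃ X' ⊆ X, ∃ Z : I → Finset V, (∀ z, (α / 2) ^ s * μ ≤ (Z z).card) ∧
      ∀ S : I → Finset V, (∀ z, S z ⊆ Z z ∧ β * (Z z).card ≤ (S z).card) →
        ¬ Col F (X'.filter fun x => ∀ z, α / 2 * (S z).card ≤ (S z ∩ U x).card) t := by
    intro s
    induction s with
    | zero =>
      intro X' _ Z a μ hμ hZ _ hd hs hc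
      obtain ⟨x, hx⟩ := nonempty_of_not_col hc
      have : ∀ z, a z ≤ 1 := by
        intro z
        have h1 : ((Z z ∩ U x).card : ℝ) ≤ (Z z).card := by
          exact_mod_cast Finset.card_le_card Finset.inter_subset_left
        have := hd x hx z
        have := hZ z
        nlinarith
      have := Finset.sum_le_card_nsmul univ a 1 fun z _ => this z
      simp at this hs
      linarith
    | succ s ih =>
      intro X' hX' Z a μ hμ hZ ha hd hs hc
      by_cases hst : ∀ S : I → Finset V, (∀ z, S z ⊆ Z z ∧ β * (Z z).card ≤ (S z).card) →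
          ¬ Col F (X'.filter fun x => ∀ z, α / 2 * (S z).card ≤ (S z ∩ U x).card) t
      · refine ⟨X', hX', Z, fun z => le_trans ?_ (hZ z), hst⟩
        have : (α / 2) ^ (s + 1) ≤ 1 := pow_le_one₀ (by positivity) (by linarith)
        nlinarith only [hμ, this]
      push Not at hst
      obtain ⟨S, hS, hcol⟩ := hst
      obtain ⟨z0, hz0⟩ : ∃ z, ¬ Col F (X'.filter fun x => ((S z ∩ U x).card : ℝ) < α / 2 * (S z).card)
          ((Fintype.card I + 1) ^ s * t) := by
        by_contra hcon
        push Not at hcon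
        refine hc ((hcol.union (col_biUnion univ _ fun z _ => hcon z)).mono le_rfl ?_ ?_)
        · intro x hx
          by_cases h : ∀ z, α / 2 * (S z).card ≤ (S z ∩ U x).card
          · exact Finset.mem_union_left _ (Finset.mem_filter.2 ⟨hx, h⟩)
          · push Not at h
            obtain ⟨z, hz⟩ := h
            exact Finset.mem_union_right _ (Finset.mem_biUnion.2
              ⟨z, mem_univ _, Finset.mem_filter.2 ⟨hx, hz⟩⟩)
        · rw [Finset.card_univ, pow_succ]
          have : 1 ≤ (Fintype.card I + 1) ^ s := Nat.one_le_pow _ _ (by omega)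
          nlinarith only [this]
      have hcard : ((Z z0 \ S z0).card : ℝ) = (Z z0).card - (S z0).card := by
        rw [Finset.card_sdiff_of_subset (hS z0).1, Nat.cast_sub (Finset.card_le_card (hS z0).1)]
      have hSZ : ((S z0).card : ℝ) ≤ (Z z0).card := by exact_mod_cast Finset.card_le_card (hS z0).1
      have hS0 : (0 : ℝ) ≤ (S z0).card := by positivity
      have hnew : ∀ x ∈ X'.filter fun x => ((S z0 ∩ U x).card : ℝ) < α / 2 * (S z0).card,
          a z0 * (Z z0).card - α / 2 * (S z0).card ≤ ((Z z0 \ S z0) ∩ U x).card := by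
        intro x hx
        rw [Finset.mem_filter] at hx
        have h1 : (Z z0 ∩ U x).card ≤ ((Z z0 \ S z0) ∩ U x).card + (S z0 ∩ U x).card := by
          refine le_trans (Finset.card_le_card fun v hv => ?_) (Finset.card_union_le _ _)
          simp only [Finset.mem_inter, Finset.mem_union, Finset.mem_sdiff] at hv ⊢
          tauto
        have h2 : ((Z z0 ∩ U x).card : ℝ) ≤ ((Z z0 \ S z0) ∩ U x).card + (S z0 ∩ U x).card := by
          exact_mod_cast h1
        linarith only [hx, h2, hd x hx.1 z0, hx.2]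
      refine Exists.imp (fun X'' H => ?_) (ih _ ((Finset.filter_subset _ _).trans hX')
        (Function.update Z z0 (Z z0 \ S z0)) (Function.update a z0 (a z0 + α * β / 2)) (α / 2 * μ)
        (by positivity) (fun z => ?_) (fun z => ?_) (fun x hx z => ?_) ?_ hz0)
      · obtain ⟨h1, Z', h2, h3⟩ := H
        exact ⟨h1, Z', fun z => le_trans (le_of_eq (by ring)) (h2 z), h3⟩
      · by_cases h : z = z0
        · subst h
          rw [Function.update_self]
          obtain ⟨x, hx⟩ := nonempty_of_not_col hz0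
          have h1 := hnew x hx
          have h2 : (((Z z \ S z) ∩ U x).card : ℝ) ≤ (Z z \ S z).card := by
            exact_mod_cast Finset.card_le_card Finset.inter_subset_left
          have := hZ z
          have := ha z
          nlinarith
        · rw [Function.update_of_ne h]
          have := hZ z
          nlinarith only [hμ, this, hα1, hα]
      · by_cases h : z = z0
        · subst h
          rw [Function.update_self]
          have := ha z
          have : 0 < α * β := by positivity
          linarith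
        · rw [Function.update_of_ne h]; exact ha z
      · by_cases h : z = z0
        · subst h
          rw [Function.update_self, Function.update_self, hcard]
          refine le_trans ?_ (hnew x hx)
          have h1 := mul_le_mul_of_nonneg_right (ha z) hS0
          have h2 := mul_le_mul_of_nonneg_left (hS z).2 hα.le
          have h3 : 0 ≤ α * β * (S z).card := by positivity
          nlinarith only [h1, h2, h3]
        · rw [Function.update_of_ne h, Function.update_of_ne h]
          exact hd x (Finset.mem_filter.1 hx).1 z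
      · rw [Finset.sum_update_of_mem (mem_univ z0)]
        rw [← Finset.add_sum_erase _ _ (mem_univ z0), ← Finset.sdiff_singleton_eq_erase] at hs
        push_cast at hs
        linarith
  refine key M X Subset.rfl (fun _ => univ) (fun _ => α) _ hn (fun _ => by simp) (fun _ => le_rfl)
    (fun x hx z => by simpa using hU x hx) ?_ hX
  have : 0 ≤ ∑ _z : I, α := Finset.sum_nonneg fun _ _ => hα.le
  linarith

lemma prod_factor {f g : I → ℝ} {β : ℝ} (hf : ∀ z, 0 ≤ f z) (hfg : ∀ z, f z ≤ g z)
    (hg : ∀ z, 0 < g z) (h : β * ∏ z, g z ≤ ∏ z, f z) (z0 : I) : β * g z0 ≤ f z0 := by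
  rw [← Finset.mul_prod_erase _ _ (mem_univ z0), ← Finset.mul_prod_erase _ _ (mem_univ z0)] at h
  have h1 : ∏ z ∈ univ.erase z0, f z ≤ ∏ z ∈ univ.erase z0, g z :=
    Finset.prod_le_prod (fun z _ => hf z) fun z _ => hfg z
  have h2 : 0 < ∏ z ∈ univ.erase z0, g z := Finset.prod_pos fun z _ => hg z
  have h3 := mul_le_mul_of_nonneg_left h1 (hf z0)
  exact le_of_mul_le_mul_right (by linarith) h2

open Classical in
noncomputable def cap (U : V → Finset V) (Rl : J → A → I → Prop) (θ : J → A → V) (z : I) :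
    Finset V := univ.filter fun v => ∀ j a, Rl j a z → v ∈ U (θ j a)

open Classical in
noncomputable def zgood (T : SimpleGraph A) (F : SimpleGraph V) (X : Finset V) (U : V → Finset V)
    (Rl : J → A → I → Prop) (β : ℝ) : Finset (J → A → V) :=
  univ.filter fun θ => (∀ j, θ j ∈ homs T F X) ∧ Function.Injective (Function.uncurry θ) ∧
    ∀ z, β * Fintype.card V ≤ (cap U Rl θ z).card

lemma mem_cap {U : V → Finset V} {Rl : J → A → I → Prop} {θ : J → A → V} {z : I} {v : V} :
    v ∈ cap U Rl θ z ↔ ∀ j a, Rl j a z → v ∈ U (θ j a) := by simp [cap]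

lemma mem_zgood {T : SimpleGraph A} {F : SimpleGraph V} {X : Finset V} {U : V → Finset V}
    {Rl : J → A → I → Prop} {β : ℝ} {θ : J → A → V} : θ ∈ zgood T F X U Rl β ↔
    (∀ j, θ j ∈ homs T F X) ∧ Function.Injective (Function.uncurry θ) ∧
    ∀ z, β * Fintype.card V ≤ (cap U Rl θ z).card := by simp [zgood]

lemma homs_mono {T : SimpleGraph A} {F F' : SimpleGraph V} (hF : F ≤ F') {P P' : Finset V}
    (hP : P ⊆ P') : homs T F P ⊆ homs T F' P' := fun _ h =>
  mem_homs.2 ⟨fun a => hP ((mem_homs.1 h).1 a), fun a b hab => hF ((mem_homs.1 h).2 a b hab)⟩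

noncomputable def zc (α : ℝ) (i h : ℕ) : ℝ := ((α / 2) ^ i / 4) ^ h / 3

lemma zc_pos {α : ℝ} (hα : 0 < α) (i h : ℕ) : 0 < zc α i h := by unfold zc; positivity

lemma zc_le_one {α : ℝ} (hα : 0 < α) (h1 : α ≤ 1) (i h : ℕ) : zc α i h ≤ 1 := by
  unfold zc
  have : (α / 2) ^ i ≤ 1 := pow_le_one₀ (by positivity) (by linarith)
  have : ((α / 2) ^ i / 4) ^ h ≤ 1 := pow_le_one₀ (by positivity) (by linarith)
  linarith

open Classical in
theorem zykov {T : SimpleGraph A} {r : ℕ} (R : Rooting T r) (side : A → Bool)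
    (hside : ∀ a b, T.Adj a b → side a ≠ side b) (σ : J → I → Bool) {α : ℝ} (hα : 0 < α) {M : ℕ}
    (hM : (Fintype.card I : ℝ) <
      M * (α * zc α (Fintype.card I) (Fintype.card A) ^ Fintype.card J / 2))
    {F : SimpleGraph V} {U : V → Finset V} {X : Finset V} {t : ℕ} {s δ Δ : ℝ} (hs : 0 ≤ s)
    (hδ : 0 < δ) (ht : Fintype.card J * Fintype.card A ≤ t) (hO : Oracle F X t s δ)
    (hΔ : ∀ v ∈ X, (dg F v X : ℝ) ≤ Δ)
    (hδ' : (Fintype.card A : ℝ) ^ 2 ≤ zc α (Fintype.card I) (Fintype.card A) * δ)
    (hX : ¬ Col F X ((Fintype.card I + 1) ^ M * (2 * t)))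
    (hU : ∀ x ∈ X, α * Fintype.card V ≤ (U x).card) :
    (zc α (Fintype.card I) (Fintype.card A) * ((s * δ / Δ) ^ r * δ ^ (Fintype.card A - r))) ^
        Fintype.card J ≤ (zgood T F X U (fun j a z => side a = σ j z)
          (zc α (Fintype.card I) (Fintype.card A) ^ Fintype.card J * (α / 2) ^ M)).card := by
  set β1 := zc α (Fintype.card I) (Fintype.card A) with hβ1
  have hβ0 : 0 < β1 := zc_pos hα _ _
  obtain ⟨x0, hx0⟩ := nonempty_of_not_col hX
  have : Nonempty V := ⟨x0⟩
  have hn : (0 : ℝ) < Fintype.card V := by exact_mod_cast Fintype.card_pos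
  have hα1 : α ≤ 1 := by
    have h1 : ((U x0).card : ℝ) ≤ Fintype.card V := by exact_mod_cast Finset.card_le_univ _
    have := hU x0 hx0
    nlinarith only [h1, this, hn]
  have hβ1' : β1 ≤ 1 := zc_le_one hα hα1 _ _
  have hΔ0 : 0 ≤ Δ := le_trans (by positivity) (hΔ x0 hx0)
  obtain ⟨X', hX', Z, hZ, hst⟩ := boost hα (by positivity) hM hX hU
  have hZ0 : ∀ z, (0 : ℝ) < (Z z).card := fun z => lt_of_lt_of_le (by positivity) (hZ z)
  let rk : J → ℕ := fun j => (Fintype.equivFin J j : ℕ)
  have hrk : ∀ j, rk j < Fintype.card J := fun j => (Fintype.equivFin J j).2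
  have hrki : Function.Injective rk := fun a b h => (Fintype.equivFin J).injective (Fin.ext h)
  let Sk : ℕ → (J → A → V) → I → Finset V := fun k θ z =>
    (Z z).filter fun v => ∀ j, rk j < k → ∀ a, side a = σ j z → v ∈ U (θ j a)
  let u : J → (A → V) → I → Finset V := fun j ϑ z =>
    univ.filter fun v => ∀ a, side a = σ j z → v ∈ U (ϑ a)
  let ok : J → (J → A → V) → (A → V) → Prop := fun j θ ϑ => ϑ ∈ homs T F X ∧
    Function.Injective ϑ ∧ (∀ j', rk j' < rk j → ∀ a b, θ j' a ≠ ϑ b) ∧
    ∀ z, β1 * (Sk (rk j) θ z).card ≤ (Sk (rk j) θ z ∩ u j ϑ z).card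
  have hSk : ∀ θ k, k ≤ Fintype.card J → (∀ j, rk j < k → ok j θ (θ j)) →
      ∀ z, β1 ^ k * (Z z).card ≤ (Sk k θ z).card := by
    intro θ k
    induction k with
    | zero => intro _ _ z; simp [Sk]
    | succ k ih =>
      intro hk h z
      have h1 := ih (by omega) (fun j hj => h j (by omega)) z
      obtain ⟨j, hj⟩ : ∃ j, rk j = k := ⟨(Fintype.equivFin J).symm ⟨k, hk⟩, by simp [rk]⟩
      have h2 := (h j (by omega)).2.2.2 z
      rw [hj] at h2
      have h3 : Sk k θ z ∩ u j (θ j) z ⊆ Sk (k + 1) θ z := by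
        intro v hv
        simp only [Sk, u, Finset.mem_inter, Finset.mem_filter, Finset.mem_univ, true_and] at hv ⊢
        refine ⟨hv.1.1, fun j' hj' => ?_⟩
        by_cases e : rk j' = k
        · rw [hrki (e.trans hj.symm)]; exact hv.2
        · exact hv.1.2 j' (by omega)
      calc β1 ^ (k + 1) * (Z z).card = β1 * (β1 ^ k * (Z z).card) := by ring
        _ ≤ β1 * (Sk k θ z).card := by gcongr
        _ ≤ _ := h2.trans (Nat.cast_le.2 (Finset.card_le_card h3))
  have := seq_lower (V := A → V) rk (fun j θ ϑ => if ok j θ ϑ then 1 else 0) ?_ ?_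
    (fun _ => β1 * ((s * δ / Δ) ^ r * δ ^ (Fintype.card A - r))) (fun _ => by positivity) ?_
  · rw [Finset.prod_const, Finset.card_univ] at this
    refine this.trans ?_
    refine (sum_le_card_of _ _ fun θ => ?_)
    by_cases h : ∀ j, ok j θ (θ j)
    swap
    · push Not at h
      obtain ⟨j, hj⟩ := h
      exact Or.inl (Finset.prod_eq_zero (mem_univ j) (if_neg hj)).le
    refine Or.inr ⟨(Finset.prod_eq_one fun j _ => if_pos (h j)).le, ?_⟩
    refine mem_zgood.2 ⟨fun j => (h j).1, ?_, fun z => ?_⟩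
    · rintro ⟨j, a⟩ ⟨j', b⟩ e
      simp only [Function.uncurry_apply_pair] at e
      rcases lt_trichotomy (rk j) (rk j') with h' | h' | h'
      · exact absurd e ((h j').2.2.1 j h' a b)
      · obtain rfl := hrki h'
        rw [(h j).2.1 e]
      · exact absurd e.symm ((h j).2.2.1 j' h' b a)
    · have h1 := hSk θ _ le_rfl (fun j _ => h j) z
      calc _ = β1 ^ Fintype.card J * ((α / 2) ^ M * Fintype.card V) := by ring
        _ ≤ β1 ^ Fintype.card J * (Z z).card := by gcongr; exact hZ z
        _ ≤ _ := h1.trans (Nat.cast_le.2 (Finset.card_le_card fun v hv =>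
          mem_cap.2 fun j a ha => (Finset.mem_filter.1 hv).2 j (hrk j) a ha))
  · intro j θ θ' h
    have e1 : Sk (rk j) θ = Sk (rk j) θ' := by
      funext z
      refine Finset.filter_congr fun v _ => forall_congr' fun j' => imp_congr_right fun hj' => ?_
      rw [h j' hj']
    funext ϑ
    have : ok j θ ϑ ↔ ok j θ' ϑ := by
      simp only [ok, e1]
      refine and_congr_right fun _ => and_congr_right fun _ => and_congr_left fun _ =>
        forall_congr' fun j' => imp_congr_right fun hj' => ?_
      rw [h j' hj']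
    simp only [this]
  · intro j θ ϑ; split_ifs <;> norm_num
  · intro j θ h
    have h' : ∀ j', rk j' < rk j → ok j' θ (θ j') := fun j' hj' => by
      by_contra hc; exact h j' hj' (if_neg hc)
    have h1 := hSk θ _ (hrk j).le h'
    set S := Sk (rk j) θ with hS
    have hS0 : ∀ z, (0 : ℝ) < (S z).card := fun z =>
      lt_of_lt_of_le (mul_pos (by positivity) (hZ0 z)) (h1 z)
    have h2 := hst S fun z => ⟨Finset.filter_subset _ _, le_trans (mul_le_mul_of_nonneg_right
      (pow_le_pow_of_le_one hβ0.le hβ1' (hrk j).le) (hZ0 z).le) (h1 z)⟩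
    set G := X'.filter fun x => ∀ z, α / 2 * (S z).card ≤ (S z ∩ U x).card with hG
    set Us : Finset V := univ.image (Function.uncurry θ) with hUs
    have h3 : ¬ Col F (G \ Us) t := by
      intro hc
      refine h2 ((hc.union (col_card F Us)).mono le_rfl ?_ ?_)
      · rw [Finset.sdiff_union_self_eq_union]; exact Finset.subset_union_left
      · have : Us.card ≤ Fintype.card J * Fintype.card A := by
          simpa using Finset.card_image_le (s := (univ : Finset (J × A))) (f := Function.uncurry θ)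
        omega
    have hGX : G \ Us ⊆ X := Finset.sdiff_subset.trans ((Finset.filter_subset _ _).trans hX')
    obtain ⟨Q, hQ, hne, hQs, hQd⟩ := hO _ hGX h3
    have hΩ : (Fintype.piFinset S).Nonempty := Fintype.piFinset_nonempty.2 fun z =>
      Finset.card_pos.1 (by exact_mod_cast hS0 z)
    have h4 := forest_count R side hside hδ hQd hne (Δ := Δ)
      (fun v hv => le_trans (by exact_mod_cast dg_mono le_rfl v (hQ.trans hGX)) (hΔ v (hGX (hQ hv))))
      (Fintype.piFinset S) hΩ (fun w b => univ.filter fun x => ∀ z, σ j z = b → w z ∈ U x)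
      (a := (α / 2) ^ Fintype.card I) (by positivity) ?_ (by
        simp only [hβ1, zc] at hδ'; linarith only [hδ'])
    · refine le_trans ?_ (h4.trans (card_le_sum_of _ _ (fun ϑ => by split_ifs <;> norm_num)
        fun ϑ hϑ => le_of_eq (if_pos ?_).symm))
      · simp only [hβ1, zc]; gcongr
      · rw [Finset.mem_filter] at hϑ
        obtain ⟨a1, a2, a3⟩ := hϑ
        refine ⟨homs_mono le_rfl (hQ.trans hGX) a1, a2, fun j' _ a b e => ?_, ?_⟩
        · exact (Finset.mem_sdiff.1 (hQ ((mem_homs.1 a1).1 b))).2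
            (Finset.mem_image.2 ⟨(j', a), mem_univ _, e⟩)
        · refine prod_factor (f := fun z => ((S z ∩ u j ϑ z).card : ℝ)) (fun _ => by positivity)
            (fun z => Nat.cast_le.2 (Finset.card_le_card Finset.inter_subset_left)) hS0 ?_
          rw [Fintype.card_piFinset, Nat.cast_prod] at a3
          refine a3.trans ?_
          rw [← Nat.cast_prod, ← Fintype.card_piFinset]
          refine Nat.cast_le.2 (Finset.card_le_card fun w hw => ?_)
          simp only [Finset.mem_filter, Fintype.mem_piFinset, Finset.mem_univ, true_and,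
            Finset.mem_inter, u] at hw ⊢
          exact fun z => ⟨hw.1 z, fun a ha => hw.2 a z ha.symm⟩
    · intro x hx x' hx' _
      have e1 := (Finset.mem_filter.1 (Finset.mem_sdiff.1 (hQ hx)).1).2
      have e2 := (Finset.mem_filter.1 (Finset.mem_sdiff.1 (hQ hx')).1).2
      calc _ = ∏ z, (α / 2 * (S z).card) := by
            rw [Finset.prod_mul_distrib, Fintype.card_piFinset, Finset.prod_const,
              Finset.card_univ, Nat.cast_prod]
        _ ≤ ∏ z, ((S z ∩ U (if σ j z then x' else x)).card : ℝ) := by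
            refine Finset.prod_le_prod (fun z _ => by positivity) fun z _ => ?_
            split_ifs; exacts [e2 z, e1 z]
        _ ≤ _ := by
            rw [← Nat.cast_prod, ← Fintype.card_piFinset]
            refine Nat.cast_le.2 (Finset.card_le_card fun w hw => ?_)
            simp only [Finset.mem_filter, Fintype.mem_piFinset, Finset.mem_univ, true_and,
              Finset.mem_inter] at hw ⊢
            refine ⟨fun z => (hw z).1, fun z hz => ?_, fun z hz => ?_⟩
            · simpa [hz] using (hw z).2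
            · simpa [hz] using (hw z).2

/-- disjoint union of copies of a graph -/
def copies (J : Type*) (T : SimpleGraph A) : SimpleGraph (J × A) where
  Adj x y := x.1 = y.1 ∧ T.Adj x.2 y.2
  symm := ⟨fun _ _ h => ⟨h.1.symm, h.2.symm⟩⟩
  loopless := ⟨fun _ h => T.irrefl h.2⟩

def Rooting.copies {T : SimpleGraph A} {r : ℕ} (R : Rooting T r) (J : Type*) [Fintype J]
    [DecidableEq J] : Rooting (copies J T) (Fintype.card J * r) where
  rk x := R.rk x.2
  pr x := (x.1, R.pr x.2)
  adj x h := by
    have : R.pr x.2 ≠ x.2 := fun h' => h (by rw [h'])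
    exact ⟨⟨rfl, (R.adj _ this).1⟩, (R.adj _ this).2⟩
  cover x y h := by
    rcases R.cover _ _ h.2 with e | e
    · exact Or.inl (Prod.ext h.1 e)
    · exact Or.inr (Prod.ext h.1.symm e)
  roots := by
    have : Fintype.card J * r = (univ ×ˢ univ.filter fun a => R.pr a = a : Finset (J × A)).card := by
      rw [Finset.card_product, R.roots, Finset.card_univ]
    rw [this]
    congr 1; ext ⟨j, a⟩; simp

open Classical in
theorem zykov_all {T : SimpleGraph A} {r : ℕ} (R : Rooting T r) (side : A → Bool)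
    (hside : ∀ a b, T.Adj a b → side a ≠ side b) {β : ℝ} (hβ : 0 < β)
    {F : SimpleGraph V} {U : V → Finset V} {X : Finset V} {t : ℕ} {s δ Δ : ℝ} (hs : 0 ≤ s)
    (hδ : 0 < δ) (hO : Oracle F X t s δ) (hΔ : ∀ v ∈ X, (dg F v X : ℝ) ≤ Δ)
    (hδ' : 3 * ((Fintype.card J * Fintype.card A : ℕ) : ℝ) ^ 2 ≤
      (β / 4) ^ (Fintype.card J * Fintype.card A) * δ)
    (hX : ¬ Col F X t)
    (hU : ∀ x ∈ X, ∀ x' ∈ X, F.Adj x x' → β * Fintype.card V ≤ (U x ∩ U x').card) :
    (β / 4) ^ (Fintype.card J * Fintype.card A) / 3 *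
      ((s * δ / Δ) ^ r * δ ^ (Fintype.card A - r)) ^ Fintype.card J ≤
      (zgood T F X U (fun (_ : J) _ (_ : I) => True)
        ((β / 4) ^ (Fintype.card J * Fintype.card A) / 3)).card := by
  obtain ⟨Q, hQ, hne, hQs, hQd⟩ := hO X Subset.rfl hX
  have : Nonempty V := ⟨hne.choose⟩
  have hΔ0 : 0 ≤ Δ := le_trans (by positivity) (hΔ _ (hQ hne.choose_spec))
  have h4 := forest_count (R.copies J) (fun x => side x.2) (fun x y h => hside _ _ h.2) hδ hQd hne
    (Δ := Δ) (fun v hv => le_trans (by exact_mod_cast dg_mono le_rfl v hQ) (hΔ v (hQ hv)))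
    (univ : Finset V) univ_nonempty (fun w _ => univ.filter fun x => w ∈ U x) hβ
    (fun x hx x' hx' h => by
      refine (hU x (hQ hx) x' (hQ hx') h).trans (le_of_eq ?_)
      congr 2; ext w; simp) (by rwa [Fintype.card_prod])
  rw [Fintype.card_prod] at h4
  refine le_trans ?_ (h4.trans (Nat.cast_le.2 ?_))
  · rw [← Nat.mul_sub, mul_pow, ← pow_mul, ← pow_mul, mul_comm r, mul_comm (_ - r)]
    gcongr
  · refine Finset.card_le_card_of_injOn Function.curry (fun τ hτ => ?_)
      fun _ _ _ _ h => Function.curry_injective h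
    rw [Finset.mem_coe, Finset.mem_filter, mem_homs] at hτ
    obtain ⟨a1, a2, a3⟩ := hτ
    refine mem_zgood.2 ⟨fun j => mem_homs.2 ⟨fun a => hQ (a1.1 _),
      fun a b h => a1.2 (j, a) (j, b) ⟨rfl, h⟩⟩, by simpa using a2, fun z => ?_⟩
    refine a3.trans (Nat.cast_le.2 (Finset.card_le_card fun v hv => mem_cap.2 fun j a _ => ?_))
    simpa using (Finset.mem_filter.1 hv).2 (j, a)

end Pool.Agent.Lib.MP_46505f_co
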