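import Pool.Agent.Lib.MP_46505f_co.Cont
import Pool.Agent.Lib.MP_46505f_co.Defs
import Pool.Agent.Lib.MP_46505f_co.Zykov

set_option autoImplicit false
set_option linter.unusedSectionVars false
open Finset

namespace Pool.Agent.Lib.MP_46505f_co

/- Hypergraphs of copies, blow-ups and clique counts. -/

variable {V : Type*} [Fintype V] [DecidableEq V]

def gr (D : Finset (Sym2 V)) : SimpleGraph V := SimpleGraph.fromEdgeSet (D : Set (Sym2 V))

lemma gr_adj {D : Finset (Sym2 V)} {u v : V} : (gr D).Adj u v ↔ s(u, v) ∈ D ∧ u ≠ v := by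
  simp [gr, SimpleGraph.fromEdgeSet_adj]

lemma gr_mono {D D' : Finset (Sym2 V)} (h : D ⊆ D') : gr D ≤ gr D' := fun _ _ h' =>
  gr_adj.2 ⟨h (gr_adj.1 h').1, (gr_adj.1 h').2⟩

def vts (T : Finset (Sym2 V)) : Finset V := T.biUnion fun e => univ.filter fun v => v ∈ e

lemma mem_vts {T : Finset (Sym2 V)} {v : V} : v ∈ vts T ↔ ∃ e ∈ T, v ∈ e := by simp [vts]

lemma card_vts (T : Finset (Sym2 V)) : (vts T).card ≤ 2 * T.card := by
  rw [mul_comm]
  refine Finset.card_biUnion_le_card_mul _ _ _ fun e _ => ?_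
  induction e using Sym2.ind with
  | h a b =>
    refine le_trans (Finset.card_le_card (t := {a, b}) fun v hv => ?_) Finset.card_le_two
    simpa using hv

section pattern
variable {W κ : Type*} [Fintype W] [DecidableEq W]

theorem hyp_pattern (Sg : Finset κ) (hne : Sg.Nonempty) (ψ : κ → W → V)
    (hψ : ∀ σ ∈ Sg, Function.Injective (ψ σ)) (EB : Finset (Sym2 W)) (Wb : Finset W)
    (hWb : ∀ e ∈ EB, ∀ a ∈ e, a ∈ Wb) {K τ N : ℝ} (hK : 0 ≤ K) (hτ : 0 ≤ τ) (hN : 0 ≤ N)
    (h : ∀ S ⊆ Wb, ∀ t : ℕ, 1 ≤ t → t ≤ (EB.filter fun e => ∀ a ∈ e, a ∈ S).card →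
      ∀ B : Finset V, B.card ≤ 2 * EB.card →
      ((Sg.filter fun σ => ∀ a ∈ S, ψ σ a ∈ B).card : ℝ) ≤ K * τ ^ (t - 1) * Sg.card / N) :
    ∃ w : Finset (Sym2 V) → ℝ, Hyp w EB.card (2 ^ Fintype.card W * K) τ N ∧
      ∀ e, w e ≠ 0 → ∃ σ ∈ Sg, EB.image (Sym2.map (ψ σ)) = e := by
  classical
  let w : Finset (Sym2 V) → ℝ := fun e =>
    ((Sg.filter fun σ => EB.image (Sym2.map (ψ σ)) = e).card : ℝ)
  have hw : ∀ e, w e ≠ 0 → ∃ σ ∈ Sg, EB.image (Sym2.map (ψ σ)) = e := by
    intro e he
    have : (Sg.filter fun σ => EB.image (Sym2.map (ψ σ)) = e).card ≠ 0 :=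
      fun h => he (by simp only [w, h, Nat.cast_zero])
    obtain ⟨σ, hσ⟩ := Finset.card_pos.1 (Nat.pos_of_ne_zero this)
    exact ⟨σ, Finset.mem_filter.1 hσ⟩
  have hc : ∀ σ ∈ Sg, (EB.image (Sym2.map (ψ σ))).card = EB.card := fun σ hσ =>
    Finset.card_image_of_injective _ (Sym2.map.injective (hψ σ hσ))
  have hd : ∀ T, hdeg w T = (Sg.filter fun σ => T ⊆ EB.image (Sym2.map (ψ σ))).card := by
    intro T
    unfold hdeg
    simp only [w, Finset.card_filter, Nat.cast_sum]
    have : ∀ e : Finset (Sym2 V), (if T ⊆ e then ∑ σ ∈ Sg,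
        ((if EB.image (Sym2.map (ψ σ)) = e then 1 else 0 : ℕ) : ℝ) else 0) = ∑ σ ∈ Sg,
        if EB.image (Sym2.map (ψ σ)) = e then (if T ⊆ e then 1 else 0) else 0 := by
      intro e; split_ifs <;> simp
    simp only [this]
    rw [Finset.sum_comm]
    refine Finset.sum_congr rfl fun σ _ => ?_
    simp
  have hd0 : hdeg w ∅ = Sg.card := by rw [hd]; simp
  refine ⟨w, ⟨fun e => by positivity, fun e he => ?_, ?_, fun T hT => ?_⟩, hw⟩
  · obtain ⟨σ, hσ, rfl⟩ := hw e he
    exact hc σ hσ
  · rw [hd0]; exact_mod_cast Finset.card_pos.2 hne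
  · rw [hd0, hd]
    have hpos : 0 ≤ K * τ ^ (T.card - 1) * Sg.card / N := by positivity
    by_cases hTE : T.card ≤ EB.card
    swap
    · rw [Finset.filter_eq_empty_iff.2 fun σ hσ h' => hTE (hc σ hσ ▸ Finset.card_le_card h')]
      simp only [Finset.card_empty, Nat.cast_zero]; positivity
    have h1 : (Sg.filter fun σ => T ⊆ EB.image (Sym2.map (ψ σ))) ⊆
        (Wb.powerset.filter fun S => T.card ≤ (EB.filter fun e => ∀ a ∈ e, a ∈ S).card).biUnion
          fun S => Sg.filter fun σ => ∀ a ∈ S, ψ σ a ∈ vts T := by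
      intro σ hσ
      rw [Finset.mem_filter] at hσ
      refine Finset.mem_biUnion.2 ⟨Wb.filter fun a => ψ σ a ∈ vts T, Finset.mem_filter.2
        ⟨Finset.mem_powerset.2 (Finset.filter_subset _ _), ?_⟩,
        Finset.mem_filter.2 ⟨hσ.1, fun a ha => (Finset.mem_filter.1 ha).2⟩⟩
      refine le_trans (Finset.card_le_card fun e he => ?_)
        (Finset.card_image_le (f := Sym2.map (ψ σ)))
      obtain ⟨e', he', rfl⟩ := Finset.mem_image.1 (hσ.2 he)
      refine Finset.mem_image.2 ⟨e', Finset.mem_filter.2 ⟨he', fun a ha => Finset.mem_filter.2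
        ⟨hWb e' he' a ha, mem_vts.2 ⟨_, he, Sym2.mem_map.2 ⟨a, ha, rfl⟩⟩⟩⟩, rfl⟩
    refine le_trans (Nat.cast_le.2 ((Finset.card_le_card h1).trans Finset.card_biUnion_le)) ?_
    rw [Nat.cast_sum]
    refine (Finset.sum_le_card_nsmul _ _ (K * τ ^ (T.card - 1) * Sg.card / N) fun S hS => ?_).trans ?_
    · rw [Finset.mem_filter, Finset.mem_powerset] at hS
      exact h S hS.1 _ (Finset.card_pos.2 hT) hS.2 _ ((card_vts T).trans (by omega))
    · rw [nsmul_eq_mul]
      have : (((Wb.powerset.filter fun S => T.card ≤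
          (EB.filter fun e => ∀ a ∈ e, a ∈ S).card).card : ℕ) : ℝ) ≤ 2 ^ Fintype.card W := by
        have := Finset.card_le_univ (Wb.powerset.filter fun S => T.card ≤
          (EB.filter fun e => ∀ a ∈ e, a ∈ S).card)
        rw [Fintype.card_finset] at this
        exact_mod_cast this
      calc _ ≤ 2 ^ Fintype.card W * (K * τ ^ (T.card - 1) * Sg.card / N) := by gcongr
        _ = _ := by ring

lemma card_pi_on (C : Finset W) (N : Finset V) :
    ((univ.filter fun χ : W → V => ∀ a ∈ C, χ a ∈ N).card : ℝ) * (Fintype.card V : ℝ) ^ C.card =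
      (N.card : ℝ) ^ C.card * (Fintype.card V : ℝ) ^ Fintype.card W := by
  have : (univ.filter fun χ : W → V => ∀ a ∈ C, χ a ∈ N) =
      Fintype.piFinset fun a => if a ∈ C then N else univ := by
    ext χ
    simp only [Finset.mem_filter, Finset.mem_univ, true_and, Fintype.mem_piFinset]
    refine forall_congr' fun a => ?_
    by_cases h : a ∈ C <;> simp [h]
  rw [this, Fintype.card_piFinset, Nat.cast_prod]
  simp only [apply_ite Finset.card, Nat.cast_ite]
  rw [Finset.prod_ite, Finset.prod_const, Finset.prod_const, Finset.card_univ, mul_assoc,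
    ← pow_add]
  have e1 : (univ.filter fun a => a ∈ C) = C := by ext; simp
  have e2 := Finset.card_filter_add_card_filter_not (s := (univ : Finset W)) fun a => a ∈ C
  rw [e1, Finset.card_univ] at e2
  rw [e1, add_comm, e2]

lemma blow_step [Nonempty V] (C : Finset W) {a0 : W} (ha0 : a0 ∈ C) (N : (W → V) → Finset V)
    (hN : ∀ ψ χ, N (C.piecewise χ ψ) = N ψ) {ρ : ℝ} (hρ : 0 ≤ ρ)
    (h : ρ * (Fintype.card V : ℝ) ^ Fintype.card W ≤
      (univ.filter fun ψ : W → V => ψ a0 ∈ N ψ).card) :
    ρ ^ C.card * (Fintype.card V : ℝ) ^ Fintype.card W ≤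
      (univ.filter fun ψ : W → V => ∀ a ∈ C, ψ a ∈ N ψ).card := by
  classical
  set n : ℝ := (Fintype.card V : ℝ) with hn'
  have hn : 0 < n := by rw [hn']; exact_mod_cast Fintype.card_pos
  set m := Fintype.card W
  have hm : (Fintype.card (W → V) : ℝ) = n ^ m := by rw [Fintype.card_fun]; push_cast; rfl
  have key : ∀ C' ⊆ C, ((univ.filter fun ψ : W → V => ∀ a ∈ C', ψ a ∈ N ψ).card : ℝ) =
      ∑ ψ, ((N ψ).card / n) ^ C'.card := by
    intro C' hC'
    have h1 := resample C fun ψ : W → V => if ∀ a ∈ C', ψ a ∈ N ψ then (1 : ℝ) else 0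
    rw [hm, Finset.sum_boole] at h1
    refine mul_left_cancel₀ (by positivity : n ^ m ≠ 0) (h1.trans ?_)
    rw [Finset.mul_sum]
    refine Finset.sum_congr rfl fun ψ _ => ?_
    have h2 := card_pi_on C' (N ψ)
    rw [Finset.sum_boole, div_pow, mul_div_assoc', eq_div_iff (by positivity), mul_comm (n ^ m),
      ← h2]
    congr 3
    ext χ
    simp only [Finset.mem_filter, Finset.mem_univ, true_and]
    refine forall_congr' fun a => imp_congr_right fun ha => ?_
    rw [hN, Finset.piecewise_eq_of_mem _ _ _ (hC' ha)]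
  have h1 := key {a0} (Finset.singleton_subset_iff.2 ha0)
  simp only [Finset.mem_singleton, forall_eq, Finset.card_singleton, pow_one] at h1
  rw [key C Subset.rfl]
  rw [h1] at h
  have := Real.pow_arith_mean_le_arith_mean_pow univ (fun _ : W → V => 1 / n ^ m)
    (fun ψ => (N ψ).card / n) (fun _ _ => by positivity) (by
      rw [Finset.sum_const, Finset.card_univ, nsmul_eq_mul, hm]; field_simp)
    (fun ψ _ => by positivity) C.card
  rw [← Finset.mul_sum, ← Finset.mul_sum, one_div_mul_eq_div, one_div_mul_eq_div,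
    le_div_iff₀ (by positivity)] at this
  refine le_trans ?_ this
  gcongr
  rwa [le_div_iff₀ (by positivity)]

theorem blowup [Nonempty V] (H : SimpleGraph W) {r : ℕ} (col : W → Fin r)
    (hcol : ∀ a b, H.Adj a b → col a ≠ col b) (G : SimpleGraph V) (V' : Finset V) {ρ : ℝ}
    (hρ : 0 ≤ ρ) (hρ1 : ρ ≤ 1)
    (h : ρ * (Fintype.card V : ℝ) ^ r ≤ (homs (⊤ : SimpleGraph (Fin r)) G V').card) :
    ρ ^ (Fintype.card W + r) ^ r * (Fintype.card V : ℝ) ^ Fintype.card W ≤ (homs H G V').card := by
  classical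
  set n : ℝ := (Fintype.card V : ℝ) with hn'
  have hn : 0 < n := by rw [hn']; exact_mod_cast Fintype.card_pos
  let c : W ⊕ Fin r → Fin r := Sum.elim col id
  let act : ℕ → W ⊕ Fin r → Prop := fun j a => (c a : ℕ) < j ∨ a = Sum.inr (c a)
  let Φ : ℕ → (W ⊕ Fin r → V) → Prop := fun j ψ => (∀ a, act j a → ψ a ∈ V') ∧
    ∀ a b, act j a → act j b → c a ≠ c b → G.Adj (ψ a) (ψ b)
  have hcard : Fintype.card (W ⊕ Fin r) = Fintype.card W + r := by simp
  have key : ∀ j ≤ r, ρ ^ (Fintype.card W + r) ^ j * n ^ Fintype.card (W ⊕ Fin r) ≤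
      (univ.filter (Φ j)).card := by
    intro j
    induction j with
    | zero =>
      intro _
      rw [pow_zero, pow_one, hcard, pow_add, mul_left_comm]
      have h1 : (univ ×ˢ homs (⊤ : SimpleGraph (Fin r)) G V' : Finset ((W → V) × (Fin r → V))).card ≤
          (univ.filter (Φ 0)).card := by
        refine Finset.card_le_card_of_injOn (fun x => Sum.elim x.1 x.2) (fun x hx => ?_) ?_
        · have hx := mem_homs.1 (Finset.mem_product.1 hx).2
          refine Finset.mem_filter.2 ⟨mem_univ _, fun a ha => ?_, fun a b ha hb hab => ?_⟩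
          · rw [ha.resolve_left (by omega)]; exact hx.1 _
          · rw [ha.resolve_left (by omega), hb.resolve_left (by omega)]; exact hx.2 _ _ hab
        · intro x _ y _ e
          exact Prod.ext (funext fun a => congrFun e (Sum.inl a))
            (funext fun a => congrFun e (Sum.inr a))
      rw [Finset.card_product, Finset.card_univ, Fintype.card_fun] at h1
      refine le_trans ?_ (Nat.cast_le.2 h1)
      push_cast
      gcongr
    | succ j ih =>
      intro hj
      let c0 : Fin r := ⟨j, hj⟩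
      let C := univ.filter fun a => c a = c0
      let N : (W ⊕ Fin r → V) → Finset V := fun ψ => V'.filter fun v =>
        ((∀ a, act j a → c a ≠ c0 → ψ a ∈ V') ∧
        ∀ a b, act j a → act j b → c a ≠ c0 → c b ≠ c0 → c a ≠ c b → G.Adj (ψ a) (ψ b)) ∧
        ∀ b, act j b → c b ≠ c0 → G.Adj v (ψ b)
      have hpw : ∀ (ψ χ : W ⊕ Fin r → V) a, c a ≠ c0 → C.piecewise χ ψ a = ψ a := fun ψ χ a ha =>
        Finset.piecewise_eq_of_notMem _ _ _ (by simpa [C] using ha)
      have h1 := blow_step C (a0 := Sum.inr c0) (by simp [C, c]) N (fun ψ χ => by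
        refine Finset.filter_congr fun v _ => and_congr (and_congr ?_ ?_) ?_
        · exact forall_congr' fun a => imp_congr_right fun _ => imp_congr_right fun ha => by
            rw [hpw _ _ _ ha]
        · exact forall_congr' fun a => forall_congr' fun b => imp_congr_right fun _ =>
            imp_congr_right fun _ => imp_congr_right fun ha => imp_congr_right fun hb => by
            rw [hpw _ _ _ ha, hpw _ _ _ hb]
        · exact forall_congr' fun a => imp_congr_right fun _ => imp_congr_right fun ha => by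
            rw [hpw _ _ _ ha]) (ρ := ρ ^ (Fintype.card W + r) ^ j) (by positivity)
        ((ih (by omega)).trans (Nat.cast_le.2 (Finset.card_le_card fun ψ hψ => by
          obtain ⟨a1, a2⟩ := (Finset.mem_filter.1 hψ).2
          exact Finset.mem_filter.2 ⟨mem_univ _, Finset.mem_filter.2 ⟨a1 _ (Or.inr rfl),
            ⟨fun a ha _ => a1 a ha, fun a b ha hb _ _ hab => a2 a b ha hb hab⟩,
            fun b hb hb' => a2 _ b (Or.inr rfl) hb (Ne.symm hb')⟩⟩)))
      refine le_trans ?_ (h1.trans (Nat.cast_le.2 (Finset.card_le_card fun ψ hψ => ?_)))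
      · rw [pow_succ, pow_mul]
        refine mul_le_mul_of_nonneg_right (pow_le_pow_of_le_one (by positivity)
          (pow_le_one₀ hρ hρ1) ?_) (by positivity)
        rw [← hcard]; exact Finset.card_le_univ _
      · have hψ := (Finset.mem_filter.1 hψ).2
        have hC : ∀ a, c a = c0 → ψ a ∈ N ψ := fun a ha => hψ a (by simpa [C] using ha)
        have h0 := (Finset.mem_filter.1 (hC (Sum.inr c0) rfl)).2.1
        have hact : ∀ a, act (j + 1) a → c a ≠ c0 → act j a := by
          intro a ha hne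
          rcases ha with ha | ha
          · refine Or.inl ?_
            have : (c a : ℕ) ≠ j := fun e => hne (Fin.ext e)
            omega
          · exact Or.inr ha
        refine Finset.mem_filter.2 ⟨mem_univ _, fun a ha => ?_, fun a b ha hb hab => ?_⟩
        · by_cases e : c a = c0
          · exact (Finset.mem_filter.1 (hC a e)).1
          · exact h0.1 a (hact a ha e) e
        · by_cases e : c a = c0
          · have e' : c b ≠ c0 := fun e' => hab (e.trans e'.symm)
            exact (Finset.mem_filter.1 (hC a e)).2.2 b (hact b hb e') e'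
          · by_cases e' : c b = c0
            · exact ((Finset.mem_filter.1 (hC b e')).2.2 a (hact a ha e) e).symm
            · exact h0.2 a b (hact a ha e) (hact b hb e') e e' hab
  have h1 := key r le_rfl
  have h2 : (univ.filter (Φ r)).card ≤
      (homs H G V' ×ˢ univ : Finset ((W → V) × (Fin r → V))).card := by
    refine Finset.card_le_card_of_injOn (fun ψ => (ψ ∘ Sum.inl, ψ ∘ Sum.inr)) (fun ψ hψ => ?_) ?_
    · obtain ⟨a1, a2⟩ := (Finset.mem_filter.1 hψ).2
      exact Finset.mem_product.2 ⟨mem_homs.2 ⟨fun a => a1 _ (Or.inl (c _).2), fun a b hab =>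
        a2 _ _ (Or.inl (c _).2) (Or.inl (c _).2) (hcol a b hab)⟩, mem_univ _⟩
    · intro x _ y _ e
      funext a
      rcases a with a | a
      · exact congrFun (congrArg Prod.fst e) a
      · exact congrFun (congrArg Prod.snd e) a
  rw [Finset.card_product, Finset.card_univ, Fintype.card_fun, Fintype.card_fin] at h2
  have h3 := h1.trans (Nat.cast_le.2 h2)
  rw [hcard, pow_add, ← mul_assoc] at h3
  push_cast at h3
  exact le_of_mul_le_mul_right h3 (by positivity)

lemma card_noninj [Nonempty V] (Y : W → Finset V) {m : ℝ} (hm : 0 < m)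
    (hY : ∀ a, m ≤ (Y a).card) :
    (((Fintype.piFinset Y).filter fun y => ¬ Function.Injective y).card : ℝ) ≤
      (Fintype.card W : ℝ) ^ 2 / m * ∏ a, ((Y a).card : ℝ) := by
  classical
  have h1 : ((Fintype.piFinset Y).filter fun y => ¬ Function.Injective y) ⊆
      (univ.filter fun x : W × W => x.1 ≠ x.2).biUnion fun x =>
        (Fintype.piFinset Y).filter fun y => y x.1 = y x.2 := by
    intro y hy
    rw [Finset.mem_filter] at hy
    obtain ⟨a, b, h1, h2⟩ : ∃ a b, y a = y b ∧ a ≠ b := by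
      simpa [Function.Injective] using hy.2
    exact Finset.mem_biUnion.2 ⟨(a, b), by simpa using h2, Finset.mem_filter.2 ⟨hy.1, h1⟩⟩
  refine le_trans (Nat.cast_le.2 ((Finset.card_le_card h1).trans Finset.card_biUnion_le)) ?_
  rw [Nat.cast_sum]
  have hp : 0 ≤ ∏ a, ((Y a).card : ℝ) := Finset.prod_nonneg fun _ _ => by positivity
  refine (Finset.sum_le_card_nsmul _ _ (1 / m * ∏ a, ((Y a).card : ℝ)) fun x hx => ?_).trans ?_
  · obtain ⟨a, b⟩ := x
    have hab : a ≠ b := (Finset.mem_filter.1 hx).2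
    have := seq_upper (fun c => if c = a then 1 else 0)
      (fun c (y : W → V) v => if c = a then (if v = y b then 1 else 0) else
        (if v ∈ Y c then 1 else 0)) ?_ ?_ (fun c => (if c = a then 1 / m else 1) * (Y c).card) ?_
    · rw [Finset.prod_mul_distrib, Finset.prod_ite_eq', if_pos (mem_univ _)] at this
      refine le_trans (card_le_sum_of _ _ (fun y => Finset.prod_nonneg fun c _ => by
        split_ifs <;> norm_num) fun y hy => ?_) this
      rw [Finset.mem_filter, Fintype.mem_piFinset] at hy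
      refine (Finset.prod_eq_one fun c _ => ?_).ge
      by_cases hc : c = a
      · rw [if_pos hc, hc, if_pos hy.2]
      · rw [if_neg hc, if_pos (hy.1 c)]
    · intro c y y' h
      by_cases hc : c = a
      · simp only [if_pos hc]
        rw [h b (by simp [hc, hab.symm])]
      · simp only [if_neg hc]
    · intro c y v; split_ifs <;> norm_num
    · intro c y
      by_cases hc : c = a
      · simp only [if_pos hc, Finset.sum_ite_eq', Finset.mem_univ, if_true]
        rw [one_div_mul_eq_div, le_div_iff₀ hm, one_mul]; exact hY c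
      · simp [hc]
  · rw [nsmul_eq_mul, ← mul_assoc, mul_one_div]
    have : (((univ.filter fun x : W × W => x.1 ≠ x.2).card : ℕ) : ℝ) ≤ (Fintype.card W : ℝ) ^ 2 := by
      have := Finset.card_le_univ (univ.filter fun x : W × W => x.1 ≠ x.2)
      rw [Fintype.card_prod] at this
      rw [sq]; exact_mod_cast this
    gcongr

open Classical in
noncomputable def embs (H : SimpleGraph W) (G : SimpleGraph V) (V' : Finset V) : Finset (W → V) :=
  (homs H G V').filter Function.Injective

lemma card_embs [Nonempty V] (H : SimpleGraph W) (G : SimpleGraph V) (V' : Finset V) {ρ : ℝ}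
    (h : ρ * (Fintype.card V : ℝ) ^ Fintype.card W ≤ (homs H G V').card)
    (h' : 2 * (Fintype.card W : ℝ) ^ 2 ≤ ρ * Fintype.card V) :
    ρ / 2 * (Fintype.card V : ℝ) ^ Fintype.card W ≤ (embs H G V').card := by
  classical
  have hn : (0 : ℝ) < Fintype.card V := by exact_mod_cast Fintype.card_pos
  have h1 := card_noninj (W := W) (fun _ => (univ : Finset V)) hn (by simp)
  have h2 : (homs H G V').card ≤ (embs H G V').card +
      ((Fintype.piFinset fun _ : W => (univ : Finset V)).filter
        fun y => ¬ Function.Injective y).card := by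
    refine le_trans (Finset.card_le_card fun y hy => ?_) (Finset.card_union_le _ _)
    by_cases hi : Function.Injective y
    · exact Finset.mem_union_left _ (Finset.mem_filter.2 ⟨hy, hi⟩)
    · exact Finset.mem_union_right _ (Finset.mem_filter.2 ⟨by simp, hi⟩)
  have h3 := (Nat.cast_le (α := ℝ)).2 h2
  push_cast at h3
  simp only [Finset.card_univ, Finset.prod_const] at h1
  have h4 : (Fintype.card W : ℝ) ^ 2 / Fintype.card V ≤ ρ / 2 := by
    rw [div_le_iff₀ hn]; linarith
  have h5 := mul_le_mul_of_nonneg_right h4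
    (by positivity : (0 : ℝ) ≤ (Fintype.card V : ℝ) ^ Fintype.card W)
  linarith

end pattern

lemma clique_count [Nonempty V] (G : SimpleGraph V) (V' Ex : Finset V) (r : ℕ) {d γ : ℝ}
    (hγ : 0 ≤ γ) (hd : ∀ v ∈ V', v ∉ Ex → d * Fintype.card V ≤ dg G v V')
    (h0 : γ * Fintype.card V + Ex.card ≤ V'.card)
    (h1 : ∀ j : ℕ, 1 ≤ j → j < r → γ * Fintype.card V + Ex.card ≤
      (j * d - (j - 1)) * Fintype.card V) :
    γ ^ r * (Fintype.card V : ℝ) ^ r ≤ (homs (⊤ : SimpleGraph (Fin r)) G V').card := by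
  classical
  have := seq_lower (fun i : Fin r => (i : ℕ)) (fun i (τ : Fin r → V) v =>
    if v ∈ V' ∧ v ∉ Ex ∧ ∀ j < i, G.Adj (τ j) v then 1 else 0) ?_ ?_
    (fun _ => γ * Fintype.card V) (fun _ => by positivity) ?_
  · rw [Finset.prod_const, Finset.card_univ, Fintype.card_fin, mul_pow] at this
    refine this.trans (sum_le_card_of _ _ fun τ => ?_)
    by_cases h : ∀ i, τ i ∈ V' ∧ τ i ∉ Ex ∧ ∀ j < i, G.Adj (τ j) (τ i)
    · refine Or.inr ⟨(Finset.prod_eq_one fun i _ => if_pos (h i)).le,
        mem_homs.2 ⟨fun i => (h i).1, fun a b hab => ?_⟩⟩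
      rcases lt_or_gt_of_ne hab with h' | h'
      · exact (h b).2.2 a h'
      · exact ((h a).2.2 b h').symm
    · rw [not_forall] at h
      obtain ⟨i, hi⟩ := h
      exact Or.inl (Finset.prod_eq_zero (mem_univ i) (if_neg hi)).le
  · intro i τ τ' h
    funext v
    have : (∀ j < i, G.Adj (τ j) v) ↔ ∀ j < i, G.Adj (τ' j) v :=
      forall_congr' fun j => imp_congr_right fun hj => by rw [h j hj]
    simp only [this]
  · intro i τ v; split_ifs <;> norm_num
  · intro i τ h
    have h' : ∀ j < i, τ j ∈ V' ∧ τ j ∉ Ex := fun j hj => by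
      have := h j hj
      by_contra hc
      exact this (if_neg fun h'' => hc ⟨h''.1, h''.2.1⟩)
    rw [Finset.sum_boole]
    set Gd := univ.filter fun v => v ∈ V' ∧ v ∉ Ex ∧ ∀ j < i, G.Adj (τ j) v
    have e1 : V' ⊆ Gd ∪ Ex ∪ (Finset.Iio i).biUnion fun j => V' \ nb G (τ j) V' := by
      intro v hv
      by_cases a1 : v ∈ Ex
      · exact Finset.mem_union_left _ (Finset.mem_union_right _ a1)
      by_cases a2 : ∀ j < i, G.Adj (τ j) v
      · exact Finset.mem_union_left _ (Finset.mem_union_left _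
          (Finset.mem_filter.2 ⟨mem_univ _, hv, a1, a2⟩))
      · push Not at a2
        obtain ⟨j, hj, a2⟩ := a2
        exact Finset.mem_union_right _ (Finset.mem_biUnion.2 ⟨j, Finset.mem_Iio.2 hj,
          Finset.mem_sdiff.2 ⟨hv, fun h => a2 (mem_nb.1 h).2⟩⟩)
    have e2 : (V'.card : ℝ) ≤ Gd.card + Ex.card +
        ∑ j ∈ Finset.Iio i, ((V' \ nb G (τ j) V').card : ℝ) := by
      have := (Finset.card_le_card e1).trans ((Finset.card_union_le _ _).trans
        (Nat.add_le_add (Finset.card_union_le _ _) Finset.card_biUnion_le))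
      exact_mod_cast this
    have e3 := Finset.sum_le_card_nsmul (Finset.Iio i)
      (fun j => ((V' \ nb G (τ j) V').card : ℝ)) (V'.card - d * Fintype.card V) fun j hj => by
      have := hd _ (h' j (Finset.mem_Iio.1 hj)).1 (h' j (Finset.mem_Iio.1 hj)).2
      rw [Finset.card_sdiff_of_subset fun u hu => (mem_nb.1 hu).1,
        Nat.cast_sub (Finset.card_le_card fun u hu => (mem_nb.1 hu).1)]
      unfold dg at this
      linarith
    rw [Fin.card_Iio, nsmul_eq_mul] at e3
    rcases Nat.eq_zero_or_pos i with h0' | h0'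
    · rw [h0'] at e3; simp only [Nat.cast_zero, zero_mul] at e3; linarith
    · have e4 := h1 i h0' i.2
      have e5 : (V'.card : ℝ) ≤ Fintype.card V := by exact_mod_cast Finset.card_le_univ _
      have e6 : (1 : ℝ) ≤ (i : ℕ) := by exact_mod_cast h0'
      nlinarith

section copiesH
variable {W : Type} [Fintype W] [DecidableEq W]

open Classical in
noncomputable def eF (H : SimpleGraph W) : Finset (Sym2 W) := univ.filter fun e => e ∈ H.edgeSet

lemma mem_eF {H : SimpleGraph W} {e : Sym2 W} : e ∈ eF H ↔ e ∈ H.edgeSet := by simp [eF]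

lemma eIn_eq (H : SimpleGraph W) (S : Finset W) :
    eIn H S = ((eF H).filter fun e => ∀ a ∈ e, a ∈ S).card := by
  unfold eIn
  rw [← Set.ncard_coe_finset]
  congr 1; ext e; simp [mem_eF]

theorem hyp_copies [Nonempty V] (H : SimpleGraph W) (D : Finset (Sym2 V)) (V' : Finset V) {ρ τ : ℝ}
    (hρ : 0 < ρ) (hτ : 0 < τ) (hτ1 : τ ≤ 1)
    (hS : ∀ S : Finset W, 1 ≤ eIn H S →
      (Fintype.card V : ℝ) ^ 2 ≤ τ ^ (eIn H S - 1) * (Fintype.card V : ℝ) ^ S.card)
    (h : ρ * (Fintype.card V : ℝ) ^ Fintype.card W ≤ (embs H (gr D) V').card) :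
    ∃ w : Finset (Sym2 V) → ℝ, Hyp w (eF H).card
      (2 ^ Fintype.card W * ((2 * (eF H).card + 1) ^ Fintype.card W / ρ)) τ
      ((Fintype.card V : ℝ) ^ 2) ∧ (∀ e, w e ≠ 0 → e ⊆ D) ∧
      ∀ I, embs H (gr I) V' = ∅ → Indep w I := by
  classical
  set n : ℝ := (Fintype.card V : ℝ) with hn'
  have hn : 0 < n := by rw [hn']; exact_mod_cast Fintype.card_pos
  obtain ⟨w, hw, hw'⟩ := hyp_pattern (embs H (gr D) V')
    (Finset.card_pos.1 (Nat.cast_pos.1 (lt_of_lt_of_le (by positivity) h))) (fun σ => σ)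
    (fun σ hσ => (Finset.mem_filter.1 hσ).2) (eF H) univ (fun _ _ _ _ => mem_univ _)
    (K := (2 * (eF H).card + 1) ^ Fintype.card W / ρ) (τ := τ) (N := n ^ 2) (by positivity) hτ.le
    (by positivity) fun S _ t ht htS B hB => by
      rw [← eIn_eq] at htS
      have h1 := card_pi_on S B
      have h2 : ((((embs H (gr D) V').filter fun σ => ∀ a ∈ S, σ a ∈ B).card : ℕ) : ℝ) ≤
          (univ.filter fun χ : W → V => ∀ a ∈ S, χ a ∈ B).card :=
        Nat.cast_le.2 (Finset.card_le_card fun σ hσ =>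
          Finset.mem_filter.2 ⟨mem_univ _, (Finset.mem_filter.1 hσ).2⟩)
      have h3 : (B.card : ℝ) ^ S.card ≤ (2 * (eF H).card + 1) ^ Fintype.card W := by
        have : (B.card : ℝ) ≤ 2 * (eF H).card + 1 := by exact_mod_cast hB.trans (Nat.le_succ _)
        calc _ ≤ (2 * ((eF H).card : ℝ) + 1) ^ S.card := by gcongr
          _ ≤ _ := pow_le_pow_right₀ (by linarith [(eF H).card.cast_nonneg (α := ℝ)])
            (Finset.card_le_univ _)
      have h4 : n ^ 2 ≤ τ ^ (t - 1) * n ^ S.card := (hS S (ht.trans htS)).trans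
        (mul_le_mul_of_nonneg_right (pow_le_pow_of_le_one hτ.le hτ1 (by omega)) (by positivity))
      refine h2.trans ?_
      rw [le_div_iff₀ (by positivity)]
      calc _ ≤ ((univ.filter fun χ : W → V => ∀ a ∈ S, χ a ∈ B).card : ℝ) *
            (τ ^ (t - 1) * n ^ S.card) := by gcongr
        _ = τ ^ (t - 1) * ((B.card : ℝ) ^ S.card * n ^ Fintype.card W) := by rw [← h1]; ring
        _ ≤ τ ^ (t - 1) * ((2 * (eF H).card + 1) ^ Fintype.card W * n ^ Fintype.card W) := by gcongr
        _ = (2 * (eF H).card + 1) ^ Fintype.card W / ρ * τ ^ (t - 1) * (ρ * n ^ Fintype.card W) := by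
            field_simp
        _ ≤ _ := by gcongr
  refine ⟨w, hw, fun e he => ?_, fun I hI e he hsub => ?_⟩
  · obtain ⟨σ, hσ, rfl⟩ := hw' e he
    intro x hx
    obtain ⟨e', he', rfl⟩ := Finset.mem_image.1 hx
    induction e' using Sym2.ind with
    | h a b => exact (gr_adj.1 ((mem_homs.1 (Finset.mem_filter.1 hσ).1).2 a b (mem_eF.1 he'))).1
  · obtain ⟨σ, hσ, rfl⟩ := hw' e he
    have h1 := mem_homs.1 (Finset.mem_filter.1 hσ).1
    refine Finset.notMem_empty σ (hI ▸ Finset.mem_filter.2 ⟨mem_homs.2 ⟨h1.1, fun a b hab => ?_⟩,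
      (Finset.mem_filter.1 hσ).2⟩)
    exact gr_adj.2 ⟨hsub (Finset.mem_image.2 ⟨s(a, b), mem_eF.2 hab, rfl⟩), (h1.2 a b hab).ne⟩

end copiesH

end Pool.Agent.Lib.MP_46505f_co
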