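import Pool.Agent.Lib.MP_eaf82e_pr.Bern

set_option autoImplicit false
set_option linter.unusedSectionVars false
open Finset
open Pool.Agent.Lib.MP_eaf82e_pr

namespace Pool.Agent.Lib.MP_46505f_co

/- Independence, conditioning and Chernoff bounds on the Bernoulli cube. -/

variable {ι : Type*} [Fintype ι] [DecidableEq ι]

def rs (ω : ι → Bool) : Finset ι := univ.filter fun e => ω e = true

lemma mem_rs {ω : ι → Bool} {e : ι} : e ∈ rs ω ↔ ω e = true := by simp [rs]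

/-- f depends only on the coordinates in B -/
def Dep {α : Type*} (B : Finset ι) (f : (ι → Bool) → α) : Prop :=
  ∀ ω ω', (∀ e ∈ B, ω e = ω' e) → f ω = f ω'

lemma Dep.mono {α : Type*} {B B' : Finset ι} {f : (ι → Bool) → α} (h : Dep B f) (hB : B ⊆ B') :
    Dep B' f := fun ω ω' he => h ω ω' fun e h' => he e (hB h')

lemma Dep.comp {α β : Type*} {B : Finset ι} {f : (ι → Bool) → α} (h : Dep B f) (g : α → β) :
    Dep B fun ω => g (f ω) := fun ω ω' he => by simp only [h ω ω' he]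

lemma one_and' (P Q : Prop) : one (P ∧ Q) = one P * one Q := by
  by_cases hP : P
  · by_cases hQ : Q
    · rw [one_pos' hP, one_pos' hQ, one_pos' ⟨hP, hQ⟩, mul_one]
    · rw [one_neg' hQ, one_neg' (fun h => hQ h.2), mul_zero]
  · rw [one_neg' hP, one_neg' (fun h => hP h.1), zero_mul]

lemma one_le_of' {P : Prop} {x : ℝ} (h0 : 0 ≤ x) (h : P → 1 ≤ x) : one P ≤ x := by
  by_cases hP : P
  · rw [one_pos' hP]; exact h hP
  · rw [one_neg' hP]; exact h0

lemma one_forall {κ : Type*} (s : Finset κ) (P : κ → Prop) :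
    one (∀ k ∈ s, P k) = ∏ k ∈ s, one (P k) := by
  by_cases h : ∀ k ∈ s, P k
  · rw [one_pos' h, Finset.prod_eq_one fun k hk => one_pos' (h k hk)]
  · rw [one_neg' h]
    push Not at h
    obtain ⟨k, hk, h⟩ := h
    exact (Finset.prod_eq_zero hk (one_neg' h)).symm

lemma Pr_not (q : ι → ℝ) (E : (ι → Bool) → Prop) : Pr q (fun ω => ¬ E ω) = 1 - Pr q E := by
  unfold Pr
  rw [← Ex_const q 1, ← Ex_sub]
  congr 1; funext ω
  by_cases h : E ω
  · rw [one_pos' h, one_neg' (not_not.2 h)]; norm_num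
  · rw [one_neg' h, one_pos' h]; norm_num

lemma Pr_le_Ex {q : ι → ℝ} (hq : IsP q) {E : (ι → Bool) → Prop} {f : (ι → Bool) → ℝ}
    (h0 : ∀ ω, 0 ≤ f ω) (h : ∀ ω, E ω → 1 ≤ f ω) : Pr q E ≤ Ex q f :=
  Ex_mono hq fun ω => one_le_of' (h0 ω) (h ω)

lemma Pr_false (q : ι → ℝ) {E : (ι → Bool) → Prop} (h : ∀ ω, ¬ E ω) : Pr q E = 0 := by
  unfold Pr
  rw [← Ex_const q 0]
  congr 1; funext ω; exact one_neg' (h ω)

lemma Ex_mrg (q : ι → ℝ) (A : Finset ι) (f : (ι → Bool) → ℝ) :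
    Ex q f = Ex q fun ω => Ex q fun ω' => f (mrg A ω ω') := by
  have h1 : Ex q f = ∑ p : (ι → Bool) × (ι → Bool), wt q p.1 * wt q p.2 * f p.1 := by
    unfold Ex
    rw [Fintype.sum_prod_type]
    refine Finset.sum_congr rfl fun ω _ => ?_
    simp only
    rw [← Finset.sum_mul, ← Finset.mul_sum, sum_wt, mul_one]
  rw [h1, ← (mrgEquiv A).sum_comp]
  unfold Ex
  simp_rw [Finset.mul_sum]
  rw [Fintype.sum_prod_type]
  refine Finset.sum_congr rfl fun ω _ => Finset.sum_congr rfl fun ω' _ => ?_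
  change wt q (mrg A ω ω') * wt q (mrg A ω' ω) * f (mrg A ω ω') = _
  rw [wt_mrg, mul_assoc]

lemma Pr_cond {q : ι → ℝ} (hq : IsP q) (A : Finset ι) (E Bad : (ι → Bool) → Prop) {η : ℝ}
    (hη : 0 ≤ η) (h : ∀ ω, ¬ Bad ω → Pr q (fun ω' => E (mrg A ω ω')) ≤ η) :
    Pr q E ≤ Pr q Bad + η := by
  unfold Pr
  rw [Ex_mrg q A, ← Ex_const q η, ← Ex_add]
  refine Ex_mono hq fun ω => ?_
  by_cases hb : Bad ω
  · rw [one_pos' hb]
    have := Pr_le_one hq fun ω' => E (mrg A ω ω')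
    unfold Pr at this
    linarith
  · rw [one_neg' hb, zero_add]; exact h ω hb

lemma Ex_blocks {κ : Type*} (q : ι → ℝ) (s : Finset κ) (B : κ → Finset ι)
    (hB : ∀ k ∈ s, ∀ j ∈ s, k ≠ j → Disjoint (B k) (B j)) (φ : κ → (ι → Bool) → ℝ)
    (hφ : ∀ k ∈ s, Dep (B k) (φ k)) :
    Ex q (fun ω => ∏ k ∈ s, φ k ω) = ∏ k ∈ s, Ex q (φ k) := by
  classical
  induction s using Finset.induction_on with
  | empty => simpa using Ex_const q 1
  | insert k s hk ih =>
    simp only [Finset.prod_insert hk]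
    rw [Ex_indep q (B k) (φ k) (fun ω => ∏ j ∈ s, φ j ω) (hφ k (Finset.mem_insert_self _ _)),
      ih (fun a ha b hb => hB a (Finset.mem_insert_of_mem ha) b (Finset.mem_insert_of_mem hb))
        (fun a ha => hφ a (Finset.mem_insert_of_mem ha))]
    intro ω ω' h
    refine Finset.prod_congr rfl fun j hj => hφ j (Finset.mem_insert_of_mem hj) ω ω' fun e he =>
      h e fun he' => ?_
    exact Finset.disjoint_left.1 (hB k (Finset.mem_insert_self _ _) j
      (Finset.mem_insert_of_mem hj) (by rintro rfl; exact hk hj)) he' he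

open Classical in
noncomputable def cnt {κ : Type*} (s : Finset κ) (E : κ → Prop) : ℕ := (s.filter E).card

lemma cnt_eq_sum {κ : Type*} (s : Finset κ) (E : κ → Prop) :
    (cnt s E : ℝ) = ∑ k ∈ s, one (E k) := by
  classical
  simp [cnt, one]

lemma mgf_blocks {κ : Type*} {q : ι → ℝ} (hq : IsP q) (s : Finset κ) (B : κ → Finset ι)
    (hB : ∀ k ∈ s, ∀ j ∈ s, k ≠ j → Disjoint (B k) (B j)) (E : κ → (ι → Bool) → Prop)
    (hE : ∀ k ∈ s, Dep (B k) (E k)) (l : ℝ) :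
    Ex q (fun ω => Real.exp (l * cnt s fun k => E k ω)) ≤
      Real.exp ((∑ k ∈ s, Pr q (E k)) * (Real.exp l - 1)) := by
  have h1 : ∀ ω, Real.exp (l * cnt s fun k => E k ω) =
      ∏ k ∈ s, (1 + (Real.exp l - 1) * one (E k ω)) := by
    intro ω
    rw [cnt_eq_sum, Finset.mul_sum, Real.exp_sum]
    refine Finset.prod_congr rfl fun k _ => ?_
    by_cases h : E k ω
    · rw [one_pos' h]; simp
    · rw [one_neg' h]; simp
  simp only [h1]
  rw [Ex_blocks q s B hB _ fun k hk => (hE k hk).comp fun P => 1 + (Real.exp l - 1) * one P,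
    Finset.sum_mul, Real.exp_sum]
  refine Finset.prod_le_prod (fun k _ => Ex_nonneg hq fun ω => ?_) fun k _ => ?_
  · have := one_nonneg (E k ω)
    have := one_le (E k ω)
    have := Real.exp_pos l
    nlinarith
  · rw [Ex_add, Ex_const, Ex_const_mul]
    have := Real.add_one_le_exp (Pr q (E k) * (Real.exp l - 1))
    unfold Pr at this ⊢
    linarith

lemma chern_up {κ : Type*} {q : ι → ℝ} (hq : IsP q) (s : Finset κ) (B : κ → Finset ι)
    (hB : ∀ k ∈ s, ∀ j ∈ s, k ≠ j → Disjoint (B k) (B j)) (E : κ → (ι → Bool) → Prop)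
    (hE : ∀ k ∈ s, Dep (B k) (E k)) {μ l : ℝ} (hμ : ∑ k ∈ s, Pr q (E k) ≤ μ) (hl : 0 ≤ l)
    (a : ℝ) :
    Pr q (fun ω => a ≤ cnt s fun k => E k ω) ≤ Real.exp (μ * (Real.exp l - 1) - l * a) := by
  refine (Pr_le_Ex hq (f := fun ω => Real.exp (-(l * a)) * Real.exp (l * cnt s fun k => E k ω))
    (fun ω => by positivity) fun ω h => ?_).trans ?_
  · rw [← Real.exp_add]
    apply Real.one_le_exp
    nlinarith
  · rw [Ex_const_mul, sub_eq_neg_add, Real.exp_add]
    refine mul_le_mul_of_nonneg_left ((mgf_blocks hq s B hB E hE l).trans ?_) (by positivity)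
    exact Real.exp_le_exp.2 (mul_le_mul_of_nonneg_right hμ (by linarith [Real.add_one_le_exp l]))

lemma chern_lo {κ : Type*} {q : ι → ℝ} (hq : IsP q) (s : Finset κ) (B : κ → Finset ι)
    (hB : ∀ k ∈ s, ∀ j ∈ s, k ≠ j → Disjoint (B k) (B j)) (E : κ → (ι → Bool) → Prop)
    (hE : ∀ k ∈ s, Dep (B k) (E k)) {μ l : ℝ} (hμ : μ ≤ ∑ k ∈ s, Pr q (E k)) (hl : 0 ≤ l)
    (a : ℝ) :
    Pr q (fun ω => ((cnt s fun k => E k ω : ℕ) : ℝ) ≤ a) ≤
      Real.exp (l * a + μ * (Real.exp (-l) - 1)) := by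
  refine (Pr_le_Ex hq (f := fun ω => Real.exp (l * a) * Real.exp (-l * cnt s fun k => E k ω))
    (fun ω => by positivity) fun ω h => ?_).trans ?_
  · rw [← Real.exp_add]
    apply Real.one_le_exp
    nlinarith
  · rw [Ex_const_mul, Real.exp_add]
    refine mul_le_mul_of_nonneg_left ((mgf_blocks hq s B hB E hE (-l)).trans ?_) (by positivity)
    refine Real.exp_le_exp.2 (mul_le_mul_of_nonpos_right hμ ?_)
    have := Real.exp_le_one_iff.2 (neg_nonpos.2 hl)
    linarith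

lemma exp_le_quad {x : ℝ} (hx : |x| ≤ 1) : Real.exp x ≤ 1 + x + x ^ 2 := by
  have := Real.abs_exp_sub_one_sub_id_le hx
  linarith [le_abs_self (Real.exp x - 1 - x)]

lemma chern_up' {κ : Type*} {q : ι → ℝ} (hq : IsP q) (s : Finset κ) (B : κ → Finset ι)
    (hB : ∀ k ∈ s, ∀ j ∈ s, k ≠ j → Disjoint (B k) (B j)) (E : κ → (ι → Bool) → Prop)
    (hE : ∀ k ∈ s, Dep (B k) (E k)) {μ η : ℝ} (hμ : ∑ k ∈ s, Pr q (E k) ≤ μ) (h0 : 0 ≤ η)
    (h1 : η ≤ 1) :
    Pr q (fun ω => (1 + η) * μ ≤ cnt s fun k => E k ω) ≤ Real.exp (-(η ^ 2 * μ / 4)) := by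
  refine (chern_up hq s B hB E hE hμ (l := η / 2) (by linarith) _).trans (Real.exp_le_exp.2 ?_)
  have h2 := exp_le_quad (x := η / 2) (by rw [abs_le]; constructor <;> linarith)
  have h3 : 0 ≤ μ := (Finset.sum_nonneg fun k _ => Pr_nonneg hq _).trans hμ
  nlinarith

lemma chern_lo' {κ : Type*} {q : ι → ℝ} (hq : IsP q) (s : Finset κ) (B : κ → Finset ι)
    (hB : ∀ k ∈ s, ∀ j ∈ s, k ≠ j → Disjoint (B k) (B j)) (E : κ → (ι → Bool) → Prop)
    (hE : ∀ k ∈ s, Dep (B k) (E k)) {μ η : ℝ} (hμ : μ ≤ ∑ k ∈ s, Pr q (E k)) (hμ0 : 0 ≤ μ)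
    (h0 : 0 ≤ η) (h1 : η ≤ 1) :
    Pr q (fun ω => ((cnt s fun k => E k ω : ℕ) : ℝ) ≤ (1 - η) * μ) ≤
      Real.exp (-(η ^ 2 * μ / 4)) := by
  refine (chern_lo hq s B hB E hE hμ (l := η / 2) (by linarith) _).trans (Real.exp_le_exp.2 ?_)
  have h2 := exp_le_quad (x := -(η / 2)) (by rw [abs_le]; constructor <;> linarith)
  nlinarith

lemma Pr_coord (q : ι → ℝ) (e : ι) : Pr q (fun ω => ω e = true) = q e := by
  have := Ex_prod q (fun x b => if x = e then (if b = true then (1 : ℝ) else 0) else 1)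
  simp only [Finset.prod_ite_eq', Finset.mem_univ, if_true] at this
  rw [Finset.prod_eq_single e] at this
  · unfold Pr
    simp only [if_true, mul_one, Bool.false_eq_true, if_false, mul_zero, add_zero] at this
    rw [← this]
    congr 1; funext ω; unfold one; congr
  · intro b _ hb; simp [hb]
  · simp

lemma dep_coord (e : ι) : Dep {e} (fun ω : ι → Bool => ω e = true) := fun ω ω' h => by
  simp only [h e (Finset.mem_singleton_self e)]

lemma cnt_coord (A : Finset ι) (ω : ι → Bool) :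
    cnt A (fun e => ω e = true) = (A ∩ rs ω).card := by
  unfold cnt; congr 1; ext e; simp [mem_rs]

variable {p : ℝ}

lemma isP_const (h0 : 0 ≤ p) (h1 : p ≤ 1) : IsP (fun _ : ι => p) := fun _ => ⟨h0, h1⟩

lemma sing_disj (A : Finset ι) : ∀ k ∈ A, ∀ j ∈ A, k ≠ j → Disjoint ({k} : Finset ι) {j} :=
  fun _ _ _ _ h => Finset.disjoint_singleton.2 h

lemma Pr_up (h0 : 0 ≤ p) (h1 : p ≤ 1) (A : Finset ι) {M l : ℝ} (hM : (A.card : ℝ) ≤ M)
    (hl : 0 ≤ l) (a : ℝ) :
    Pr (fun _ => p) (fun ω => a ≤ (A ∩ rs ω).card) ≤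
      Real.exp (p * M * (Real.exp l - 1) - l * a) := by
  have := chern_up (isP_const h0 h1) A (fun e => {e}) (sing_disj A) (fun e ω => ω e = true)
    (fun e _ => dep_coord e) (μ := p * M) (by
      simp only [Pr_coord, Finset.sum_const, nsmul_eq_mul]; nlinarith) hl a
  simpa only [cnt_coord] using this

lemma Pr_up' (h0 : 0 ≤ p) (h1 : p ≤ 1) (A : Finset ι) {M η : ℝ} (hM : (A.card : ℝ) ≤ M)
    (e0 : 0 ≤ η) (e1 : η ≤ 1) :
    Pr (fun _ => p) (fun ω => (1 + η) * (p * M) ≤ (A ∩ rs ω).card) ≤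
      Real.exp (-(η ^ 2 * (p * M) / 4)) := by
  have := chern_up' (isP_const h0 h1) A (fun e => {e}) (sing_disj A) (fun e ω => ω e = true)
    (fun e _ => dep_coord e) (μ := p * M) (by
      simp only [Pr_coord, Finset.sum_const, nsmul_eq_mul]; nlinarith) e0 e1
  simpa only [cnt_coord] using this

lemma Pr_lo' (h0 : 0 ≤ p) (h1 : p ≤ 1) (A : Finset ι) {M η : ℝ} (hM : M ≤ (A.card : ℝ))
    (hM0 : 0 ≤ M) (e0 : 0 ≤ η) (e1 : η ≤ 1) :
    Pr (fun _ => p) (fun ω => ((A ∩ rs ω).card : ℝ) ≤ (1 - η) * (p * M)) ≤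
      Real.exp (-(η ^ 2 * (p * M) / 4)) := by
  have := chern_lo' (isP_const h0 h1) A (fun e => {e}) (sing_disj A) (fun e ω => ω e = true)
    (fun e _ => dep_coord e) (μ := p * M) (by
      simp only [Pr_coord, Finset.sum_const, nsmul_eq_mul]; nlinarith) (by positivity) e0 e1
  simpa only [cnt_coord] using this

lemma Pr_sub (T : Finset ι) : Pr (fun _ => p) (fun ω => T ⊆ rs ω) = p ^ T.card := by
  have := Ex_blocks (fun _ : ι => p) T (fun e => {e}) (sing_disj T)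
    (fun e ω => one (ω e = true)) fun e _ => (dep_coord e).comp one
  have h2 : ∀ e, Ex (fun _ : ι => p) (fun ω => one (ω e = true)) = p := fun e => Pr_coord _ e
  simp only [h2, Finset.prod_const, ← one_forall] at this
  rw [← this]
  unfold Pr
  congr 1; funext ω; congr 1
  exact propext ⟨fun h e he => mem_rs.1 (h he), fun h e he => mem_rs.2 (h e he)⟩

lemma dep_sub (T : Finset ι) : Dep T fun ω : ι → Bool => T ⊆ rs ω := fun ω ω' h =>
  propext ⟨fun h' e he => mem_rs.2 (h e he ▸ mem_rs.1 (h' he)),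
    fun h' e he => mem_rs.2 ((h e he).symm ▸ mem_rs.1 (h' he))⟩

lemma Pr_sub_and (T : Finset ι) (E : (ι → Bool) → Prop) (B : Finset ι) (hB : Disjoint T B)
    (hE : Dep B E) :
    Pr (fun _ => p) (fun ω => T ⊆ rs ω ∧ E ω) = p ^ T.card * Pr (fun _ => p) E := by
  rw [← Pr_sub]
  unfold Pr
  simp only [one_and']
  apply Ex_indep _ T
  · exact (dep_sub T).comp one
  · intro ω ω' h
    rw [hE ω ω' fun e he => h e fun h' => Finset.disjoint_left.1 hB h' he]

lemma dep_inter (A : Finset ι) : Dep A fun ω : ι → Bool => A ∩ rs ω := by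
  intro ω ω' h
  ext e
  simp only [Finset.mem_inter, mem_rs]
  exact and_congr_right fun he => by rw [h e he]

lemma sum_small_sets (h0 : 0 ≤ p) {x N : ℝ} (hx : 0 < x) (hx1 : x ≤ 1)
    (hN : (Fintype.card ι : ℝ) ≤ N) (M : ℕ) :
    ∑ T ∈ univ.filter (fun T : Finset ι => T.card ≤ M), p ^ T.card ≤
      Real.exp (M * Real.log (1 / x) + p * x * N) := by
  have h1 : ∀ T ∈ univ.filter (fun T : Finset ι => T.card ≤ M),
      p ^ T.card ≤ (1 / x) ^ M * (p * x) ^ T.card := by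
    intro T hT
    have hT' := (Finset.mem_filter.1 hT).2
    have : (1 / x) ^ T.card ≤ (1 / x) ^ M :=
      pow_le_pow_right₀ (by rw [le_div_iff₀ hx]; linarith) hT'
    calc p ^ T.card = (1 / x) ^ T.card * (p * x) ^ T.card := by
          rw [← mul_pow]; congr 1; field_simp
      _ ≤ _ := by gcongr
  refine (Finset.sum_le_sum h1).trans ?_
  refine (Finset.sum_le_sum_of_subset_of_nonneg (Finset.filter_subset _ _)
    fun _ _ _ => by positivity).trans ?_
  rw [← Finset.mul_sum, Real.exp_add]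
  have h2 : ∑ T : Finset ι, (p * x) ^ T.card = (1 + p * x) ^ Fintype.card ι := by
    have := Finset.prod_one_add (s := (univ : Finset ι)) (f := fun _ => p * x)
    simp only [Finset.prod_const, Finset.card_univ, Finset.powerset_univ] at this
    exact this.symm
  rw [h2, ← Real.log_pow, Real.exp_log (by positivity)]
  refine mul_le_mul_of_nonneg_left ?_ (by positivity)
  calc (1 + p * x) ^ Fintype.card ι ≤ Real.exp (p * x) ^ Fintype.card ι := by
        gcongr; linarith [Real.add_one_le_exp (p * x)]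
    _ = Real.exp (Fintype.card ι * (p * x)) := by rw [Real.exp_nat_mul]
    _ ≤ _ := Real.exp_le_exp.2 (by nlinarith [mul_nonneg h0 hx.le])

/-- probability of many disjoint present members of a family -/
lemma Pr_disjoint_family (h0 : 0 ≤ p) (h1 : p ≤ 1) (𝓔 : Finset (Finset ι)) {μ : ℝ}
    (hμ : ∑ e ∈ 𝓔, p ^ e.card ≤ μ) (t : ℕ) :
    Pr (fun _ => p) (fun ω => ∃ 𝓢 ∈ 𝓔.powersetCard t,
      (∀ a ∈ 𝓢, ∀ b ∈ 𝓢, a ≠ b → Disjoint a b) ∧ ∀ a ∈ 𝓢, a ⊆ rs ω) ≤
      Real.exp (3 * μ - t) := by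
  refine (Pr_exists_le (isP_const h0 h1) _ _).trans ?_
  have h2 : ∀ 𝓢 ∈ 𝓔.powersetCard t, Pr (fun _ => p) (fun ω =>
      (∀ a ∈ 𝓢, ∀ b ∈ 𝓢, a ≠ b → Disjoint a b) ∧ ∀ a ∈ 𝓢, a ⊆ rs ω) ≤
      Real.exp (-t) * ∏ a ∈ 𝓢, (Real.exp 1 * p ^ a.card) := by
    intro 𝓢 h𝓢
    have hc := (Finset.mem_powersetCard.1 h𝓢).2
    by_cases hd : ∀ a ∈ 𝓢, ∀ b ∈ 𝓢, a ≠ b → Disjoint a b
    · have e1 : Pr (fun _ => p) (fun ω : ι → Bool => ∀ a ∈ 𝓢, a ⊆ rs ω) = ∏ a ∈ 𝓢, p ^ a.card := by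
        unfold Pr
        simp only [one_forall]
        rw [Ex_blocks _ 𝓢 (fun a => a) hd]
        · exact Finset.prod_congr rfl fun a _ => Pr_sub a
        · exact fun a _ => (dep_sub a).comp one
      refine (Pr_mono (isP_const h0 h1) fun ω h => h.2).trans (le_of_eq ?_)
      rw [e1, Finset.prod_mul_distrib, Finset.prod_const, hc, ← mul_assoc, ← Real.exp_nat_mul,
        ← Real.exp_add]
      simp
    · rw [Pr_false _ fun ω h => hd h.1]; positivity
  refine (Finset.sum_le_sum h2).trans ?_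
  rw [← Finset.mul_sum, sub_eq_neg_add, Real.exp_add]
  refine mul_le_mul_of_nonneg_left ?_ (by positivity)
  have h3 : ∑ 𝓢 ∈ 𝓔.powersetCard t, ∏ a ∈ 𝓢, (Real.exp 1 * p ^ a.card) ≤
      ∑ 𝓢 ∈ 𝓔.powerset, ∏ a ∈ 𝓢, (Real.exp 1 * p ^ a.card) :=
    Finset.sum_le_sum_of_subset_of_nonneg
      (fun _ h => Finset.mem_powerset.2 (Finset.mem_powersetCard.1 h).1)
      fun _ _ _ => by positivity
  refine h3.trans ?_
  rw [← Finset.prod_one_add]
  calc ∏ a ∈ 𝓔, (1 + Real.exp 1 * p ^ a.card) ≤ ∏ a ∈ 𝓔, Real.exp (3 * p ^ a.card) := by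
        refine Finset.prod_le_prod (fun _ _ => by positivity) fun a _ => ?_
        have := Real.add_one_le_exp (3 * p ^ a.card)
        have h4 : Real.exp 1 ≤ 3 := by linarith [Real.exp_one_lt_d9]
        have h5 : 0 ≤ p ^ a.card := by positivity
        nlinarith
    _ = Real.exp (3 * ∑ a ∈ 𝓔, p ^ a.card) := by rw [Finset.mul_sum, Real.exp_sum]
    _ ≤ _ := Real.exp_le_exp.2 (by linarith)

end Pool.Agent.Lib.MP_46505f_co
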