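import Pool.Agent.Lib.MP_46505f_co.Blow
import Pool.Agent.Lib.MP_46505f_co.Pb

set_option autoImplicit false
set_option linter.unusedSectionVars false
open Finset Filter Topology MeasureTheory
open Pool.Agent.Lib.MP_eaf82e_pr

namespace Pool.Agent.Lib.MP_46505f_co

/- From the binomial random graph measure to the Bernoulli cube. -/

variable {V : Type} [Fintype V] [DecidableEq V] {W : Type} [Fintype W] [DecidableEq W]

lemma Pr_gr_eq (p : unitInterval) (G : SimpleGraph V) :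
    Pr (fun _ => (p : ℝ)) (fun ω : Sym2 V → Bool => gr (rs ω) = G) =
      (SimpleGraph.binomialRandom V p).real {G} := by
  classical
  have h1 : ∀ ω : Sym2 V → Bool, one (gr (rs ω) = G) =
      ∏ e, one (e.IsDiag ∨ (ω e = true ↔ e ∈ G.edgeSet)) := fun ω => by
    rw [← one_forall]
    congr 1
    refine propext ⟨fun h e _ => ?_, fun h => ?_⟩
    · subst h
      by_cases he : e.IsDiag <;> simp [gr, mem_rs, he]
    · ext a b
      have := h s(a, b) (mem_univ _)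
      rw [gr_adj, mem_rs]
      by_cases e : a = b
      · simp [e]
      · simpa [e] using this
  unfold Pr
  simp only [h1]
  rw [Ex_prod _ fun e b => one (e.IsDiag ∨ (b = true ↔ e ∈ G.edgeSet))]
  have h2 : ∀ e : Sym2 V, (p : ℝ) * one (e.IsDiag ∨ (true = true ↔ e ∈ G.edgeSet)) +
      (1 - p) * one (e.IsDiag ∨ (false = true ↔ e ∈ G.edgeSet)) =
      (if e ∈ G.edgeSet then (p : ℝ) else 1) *
      if e ∈ Sym2.diagSetᶜ \ G.edgeSet then 1 - (p : ℝ) else 1 := fun e => by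
    by_cases a : e ∈ G.edgeSet
    · have := G.not_isDiag_of_mem_edgeSet a
      simp [a, this, one]
    · by_cases b : e.IsDiag <;> simp [a, b, one]
  rw [Finset.prod_congr rfl fun e _ => h2 e, Finset.prod_mul_distrib, Finset.prod_ite, Finset.prod_ite, Measure.real,
    SimpleGraph.binomialRandom_singleton, ← Sym2.ncard_diagSet_compl,
    ← Set.ncard_sdiff G.edgeSet_subset_compl_diagSet]
  simp only [Finset.prod_const, one_pow, mul_one, ENNReal.toReal_mul, ENNReal.toReal_pow,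
    ENNReal.coe_toReal, unitInterval.coe_toNNReal, unitInterval.coe_symm_eq]
  congr 2 <;> rw [← Set.ncard_coe_finset] <;> congr 1 <;> ext <;> simp

lemma real_eq_Pr (p : unitInterval) (S : Set (SimpleGraph V)) :
    (SimpleGraph.binomialRandom V p).real S =
      Pr (fun _ => (p : ℝ)) fun ω : Sym2 V → Bool => gr (rs ω) ∈ S := by
  classical
  have : MeasurableSingletonClass (SimpleGraph V) := ⟨fun G => by
    have : {G} = SimpleGraph.edgeSet ⁻¹' {G.edgeSet} := by ext; simp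
    rw [this]
    exact SimpleGraph.measurableEmbedding_edgeSet.measurable (measurableSet_singleton _)⟩
  rw [← S.toFinite.coe_toFinset, ← sum_measureReal_singleton]
  simp only [← Pr_gr_eq, Pr]
  rw [← Ex_sum]
  congr 1
  funext ω
  simp only [one]
  rw [Finset.sum_ite_eq]
  simp

lemma conv (H : SimpleGraph W) {G : SimpleGraph V} (G' : G.Subgraph) (V' : Finset V)
    (I : Finset (Sym2 V)) (hV : ∀ v, v ∈ V' ↔ v ∈ G'.verts)
    (hI : ∀ u v, (gr I).Adj u v ↔ G'.Adj u v) (C : ℕ) :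
    (H.Free G'.coe ↔ embs H (gr I) V' = ∅) ∧
    (∀ v : G'.verts, (G'.coe.neighborSet v).ncard = dg (gr I) v V') ∧
    (G'.coe.Colorable C ↔ Col (gr I) V' C) := by
  classical
  refine ⟨⟨fun h => Finset.eq_empty_of_forall_notMem fun τ hτ => h ?_, fun h ⟨f⟩ => ?_⟩,
    fun v => ?_, ?_⟩
  · obtain ⟨h1, h2⟩ := Finset.mem_filter.1 hτ
    rw [mem_homs] at h1
    exact ⟨⟨⟨fun a => ⟨τ a, (hV _).1 (h1.1 a)⟩, fun hab => (hI _ _).1 (h1.2 _ _ hab)⟩,
      fun a b e => h2 (congrArg Subtype.val e)⟩⟩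
  · exact Finset.notMem_empty (fun a => (f a : V)) (h ▸ Finset.mem_filter.2 ⟨mem_homs.2
      ⟨fun a => (hV _).2 (f a).2, fun a b hab => (hI _ _).2 (f.toHom.map_rel hab)⟩,
      Subtype.val_injective.comp f.injective⟩)
  · unfold dg
    rw [← Set.ncard_coe_finset, ← Set.ncard_image_of_injective _ Subtype.val_injective]
    congr 1
    ext u
    simp only [Set.mem_image, SimpleGraph.mem_neighborSet, SimpleGraph.Subgraph.coe_adj,
      Finset.mem_coe, mem_nb, hI, hV]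
    exact ⟨fun ⟨x, h, e⟩ => e ▸ ⟨x.2, h⟩, fun h => ⟨⟨u, h.1⟩, h.2, rfl⟩⟩
  · rw [SimpleGraph.colorable_iff_exists_bdd_nat_coloring]
    refine ⟨fun ⟨c, hc⟩ => ⟨fun v => if h : v ∈ G'.verts then c ⟨v, h⟩ else 0, fun v hv => ?_,
      fun u hu v hv h => ?_⟩, fun ⟨c, h1, h2⟩ => ⟨SimpleGraph.Coloring.mk (fun v => c v)
      fun {u v} h => h2 u ((hV _).2 u.2) v ((hV _).2 v.2) ((hI _ _).2 h),
      fun v => h1 v ((hV _).2 v.2)⟩⟩
    · simp only [dif_pos ((hV v).1 hv)]; exact hc _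
    · simp only [dif_pos ((hV v).1 hv), dif_pos ((hV u).1 hu)]
      exact c.valid ((hI _ _).1 h)

def Bad (H : SimpleGraph W) (d : ℝ) (C : ℕ) (E : Finset (Sym2 V)) : Prop :=
  ∃ V' : Finset V, ∃ I ⊆ E, embs H (gr I) V' = ∅ ∧ (∀ v ∈ V', d ≤ dg (gr I) v V') ∧
    ¬ Col (gr I) V' C

def Wit (H : SimpleGraph W) (d : ℝ) (C : ℕ) (I : Finset (Sym2 V)) : Prop :=
  embs H (gr I) univ = ∅ ∧ (∀ v, d ≤ dg (gr I) v univ) ∧ ¬ Col (gr I) univ C

variable {H : SimpleGraph W} {p : ℕ → unitInterval} {span : Prop} {d : ℝ}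

lemma isP_p (p : ℕ → unitInterval) (n : ℕ) : IsP fun _ : Sym2 (Fin n) => (p n : ℝ) :=
  isP_const (p n).2.1 (p n).2.2

theorem adm_of {C : ℕ} (h : Tendsto (fun n : ℕ => Pr (fun _ => (p n : ℝ))
    fun ω : Sym2 (Fin n) → Bool => Bad H (d * (p n * n)) C (rs ω)) atTop (𝓝 0)) :
    Adm H p span d := by
  classical
  refine ⟨C, tendsto_of_tendsto_of_tendsto_of_le_of_le (by simpa using h.const_sub 1)
    tendsto_const_nhds (fun n => ?_) fun n => measureReal_le_one⟩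
  simp only [real_eq_Pr, ← Pr_not]
  refine Pr_mono (isP_p p n) fun ω hω G' _ a1 a2 => ?_
  obtain ⟨b1, b2, b3⟩ := conv H G' (univ.filter fun v => v ∈ G'.verts)
    (univ.filter fun e => e ∈ G'.edgeSet) (by simp) (fun u v => by
      rw [gr_adj]; simpa using fun h => h.ne) C
  by_contra hc
  refine hω ⟨_, _, fun e he => ?_, b1.1 a1, fun v hv => ?_, fun h => hc (b3.2 h)⟩
  · exact (G'.edgeSet_subset (Finset.mem_filter.1 he).2 |>
      (SimpleGraph.edgeSet_fromEdgeSet _).subset).1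
  · rw [← b2 ⟨v, (Finset.mem_filter.1 hv).2⟩, ← mul_assoc]; exact a2 _

theorem not_adm_of {l : Filter ℕ} [l.NeBot] (hl : l ≤ atTop) (h : ∀ C, ∀ᶠ n : ℕ in l,
    Pr (fun _ => (p n : ℝ))
    (fun ω : Sym2 (Fin n) → Bool => ¬ ∃ I ⊆ rs ω, Wit H (d * (p n * n)) C I) ≤ 9 / 10) :
    ¬ Adm H p span d := by
  rintro ⟨C, hC⟩
  obtain ⟨n, h1, h2⟩ := ((h C).and ((hC.mono_left hl).eventually_const_lt
    (by norm_num : (9 / 10 : ℝ) < 1))).exists
  refine absurd (h2.trans_le (le_trans ?_ h1)) (lt_irrefl _)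
  rw [real_eq_Pr]
  refine Pr_mono (isP_p p n) fun ω hω ⟨I, a1, a2, a3, a4⟩ => ?_
  obtain ⟨b1, b2, b3⟩ := conv H (SimpleGraph.toSubgraph (gr I) (gr_mono a1)) univ I (by simp)
    (by simp) C
  exact a4 (b3.1 (hω _ (fun _ => SimpleGraph.toSubgraph.isSpanning _ _) (b1.2 a2) fun v => by
    rw [b2, mul_assoc]; exact a3 _))

theorem not_adm_of_bad {l : Filter ℕ} [l.NeBot] (hl : l ≤ atTop) (hs : ¬ span)
    (h : ∀ C, ∀ᶠ n : ℕ in l, Pr (fun _ => (p n : ℝ))
    (fun ω : Sym2 (Fin n) → Bool => ¬ Bad H (d * (p n * n)) C (rs ω)) ≤ 9 / 10) :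
    ¬ Adm H p span d := by
  classical
  rintro ⟨C, hC⟩
  obtain ⟨n, h1, h2⟩ := ((h C).and ((hC.mono_left hl).eventually_const_lt
    (by norm_num : (9 / 10 : ℝ) < 1))).exists
  refine absurd (h2.trans_le (le_trans ?_ h1)) (lt_irrefl _)
  rw [real_eq_Pr]
  refine Pr_mono (isP_p p n) fun ω hω ⟨V', I, a1, a2, a3, a4⟩ => ?_
  let J := I.filter fun e => ∀ v ∈ e, v ∈ V'
  have hJ : ∀ u v, (gr J).Adj u v ↔ (gr I).Adj u v ∧ u ∈ V' ∧ v ∈ V' := fun u v => by
    simp only [gr_adj, J, Finset.mem_filter, Sym2.mem_iff, forall_eq_or_imp, forall_eq]; tauto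
  obtain ⟨b1, b2, b3⟩ := conv H (G := gr (rs ω)) ⟨V', (gr J).Adj, fun h => gr_mono a1 ((hJ _ _).1 h).1,
    fun h => ((hJ _ _).1 h).2.1, (gr J).symm⟩ V' J (by simp) (by simp) C
  obtain ⟨c, c1, c2⟩ := b3.1 (hω _ (fun h => absurd h hs) (b1.2 (Finset.subset_empty.1 (a2 ▸
    Finset.filter_subset_filter _ (homs_mono (gr_mono (Finset.filter_subset _ _)) Subset.rfl))))
    fun v => by
      rw [b2, mul_assoc]
      exact (a3 _ v.2).trans (Nat.cast_le.2 (Finset.card_le_card fun u hu => mem_nb.2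
        ⟨(mem_nb.1 hu).1, (hJ _ _).2 ⟨(mem_nb.1 hu).2, v.2, (mem_nb.1 hu).1⟩⟩)))
  exact a4 ⟨c, c1, fun u hu v hv h => c2 u hu v hv ((hJ _ _).2 ⟨h, hu, hv⟩)⟩

lemma Adm.mono {d' : ℝ} (h : Adm H p span d) (hd : d ≤ d') : Adm H p span d' := by
  obtain ⟨C, hC⟩ := h
  refine ⟨C, tendsto_of_tendsto_of_tendsto_of_le_of_le hC tendsto_const_nhds (fun n => ?_)
    fun n => measureReal_le_one⟩
  refine measureReal_mono fun G hG G' a1 a2 a3 => hG G' a1 a2 fun v => le_trans ?_ (a3 v)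
  have := (p n).2.1
  gcongr

end Pool.Agent.Lib.MP_46505f_co
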