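import Pool.Agent.Lib.MP_46505f_co.Blow

set_option autoImplicit false
set_option linter.unusedSectionVars false
open Finset

namespace Pool.Agent.Lib.MP_46505f_co

/- Combinatorics of clouds and of the two densities. -/

variable {W : Type} [Fintype W] [DecidableEq W] {H : SimpleGraph W} {I : Finset W}

lemma out_adj {u v : W} : (outside H I).Adj u v ↔ H.Adj u v ∧ u ∉ I ∧ v ∉ I := Iff.rfl

noncomputable abbrev cp (H : SimpleGraph W) (I : Finset W) (a : W) :
    (outside H I).ConnectedComponent := (outside H I).connectedComponentMk a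

noncomputable def cl (H : SimpleGraph W) (I : Finset W) (a : W) : W := Quot.out (cp H I a)

lemma cl_eq_iff {a b : W} : cl H I a = cl H I b ↔ cp H I a = cp H I b :=
  ⟨fun h => by
    have e : ∀ c, Quot.mk _ (cl H I c) = cp H I c := fun c => Quot.out_eq _
    rw [← e a, ← e b, h], fun h => by unfold cl; rw [h]⟩

def Lf (H : SimpleGraph W) (I : Finset W) (a : W) : Prop := ∃ z ∈ I, H.Adj a z

open Classical in
noncomputable def par (H : SimpleGraph W) (I : Finset W) (a : W) : W :=
  if h : Lf H I a ∧ ∃ b, (outside H I).Adj a b then h.2.choose else a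

lemma par_spec (a : W) : par H I a = a ∨ (Lf H I a ∧ (outside H I).Adj a (par H I a)) := by
  unfold par
  split_ifs with h
  · exact Or.inr ⟨h.1, h.2.choose_spec⟩
  · exact Or.inl rfl

lemma par_eq (hC : IsCloud H I) {a b : W} (ha : Lf H I a) (hab : (outside H I).Adj a b) :
    par H I a = b := by
  have h : Lf H I a ∧ ∃ b, (outside H I).Adj a b := ⟨ha, b, hab⟩
  refine hC.2.2.1 a ha ?_ hab
  unfold par
  rw [dif_pos h]
  exact h.2.choose_spec

lemma cp_par (a : W) : cp H I (par H I a) = cp H I a := by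
  rcases par_spec (H := H) (I := I) a with h | h
  · rw [h]
  · exact SimpleGraph.ConnectedComponent.sound h.2.symm.reachable

lemma walk_out {u v : W} (w : (outside H I).Walk u v) (hu : u ∉ I) : ∀ a ∈ w.support, a ∉ I := by
  induction w with
  | nil => simpa using hu
  | cons h w ih =>
    intro a ha
    rw [SimpleGraph.Walk.support_cons, List.mem_cons] at ha
    rcases ha with rfl | ha
    · exact hu
    · exact ih h.2.2 a ha

lemma cp_eq_of_mem {a z : W} (hz : z ∈ I) (h : cp H I a = cp H I z) : a = z := by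
  obtain ⟨w⟩ := SimpleGraph.ConnectedComponent.exact h
  by_contra hne
  by_cases ha : a ∈ I
  · cases w with
    | nil => exact hne rfl
    | cons h w => exact h.2.1 ha
  · exact walk_out w ha z w.end_mem_support hz

lemma side_parity {T : SimpleGraph W} {side : W → Bool} (hs : ∀ a b, T.Adj a b → side a ≠ side b)
    {u v : W} (w : T.Walk u v) : Odd w.length ↔ side u ≠ side v := by
  induction w with
  | nil => simp
  | @cons a b c h w ih =>
    rw [SimpleGraph.Walk.length_cons, Nat.odd_add_one, ih]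
    have := hs _ _ h
    revert this
    cases side a <;> cases side b <;> cases side c <;> simp

lemma exists_side (hC : IsCloud H I) :
    ∃ side : W → Bool, ∀ a b, (outside H I).Adj a b → side a ≠ side b := by
  obtain ⟨c⟩ := hC.2.1.colorable_two
  exact ⟨fun a => finTwoEquiv (c a), fun a b h e => c.valid h (finTwoEquiv.injective e)⟩

def Req (H : SimpleGraph W) (I : Finset W) (j a z : W) : Prop :=
  cl H I a = j ∧ (a = z ∨ z ∈ I ∧ ∃ l, H.Adj l z ∧ par H I l = a)

lemma out_le : outside H I ≤ H := fun _ _ h => h.1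

lemma thunder_side (hT : IsThunder H I) {side : W → Bool}
    (hs : ∀ a b, (outside H I).Adj a b → side a ≠ side b) {l l' z : W} (hz : z ∈ I)
    (h : H.Adj l z) (h' : H.Adj l' z) (hc : cp H I l = cp H I l') : side l = side l' := by
  by_contra hne
  have hl : l ∉ I := fun hl => hT.1.1 l hl z hz h
  obtain ⟨w⟩ := SimpleGraph.ConnectedComponent.exact hc
  let w1 := w.bypass
  have hp : w1.IsPath := w.bypass_isPath
  have hout := walk_out w1 hl
  let w2 : H.Walk l l' := w1.mapLe out_le
  have hp2 : w2.IsPath := hp.mapLe _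
  have hsup : w2.support = w1.support := by simp [w2]
  have hz2 : z ∉ w2.support := fun e => hout z (hsup ▸ e) hz
  have hcyc : (SimpleGraph.Walk.cons h.symm (w2.concat h')).IsCycle := by
    rw [SimpleGraph.Walk.cons_isCycle_iff]
    refine ⟨hp2.concat hz2 h', fun e => ?_⟩
    rw [SimpleGraph.Walk.edges_concat, List.concat_eq_append, List.mem_append] at e
    rcases e with e | e
    · exact hz2 (w2.fst_mem_support_of_mem_edges e)
    · simp only [List.mem_singleton, Sym2.eq_iff] at e
      rcases e with ⟨e, -⟩ | ⟨-, e⟩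
      · exact h'.ne e.symm
      · exact hne (by rw [e])
  have := hT.2 z _ hcyc (by
    have := (side_parity hs w1).2 hne
    rw [SimpleGraph.Walk.length_cons, SimpleGraph.Walk.length_concat]
    have e : w2.length = w1.length := by simp [w2]
    rw [e, add_assoc]
    exact this.add_even (by decide))
  refine absurd (this.trans (Finset.card_le_card (t := {z}) fun a ha => ?_)) (by simp)
  rw [Finset.mem_inter, List.mem_toFinset, SimpleGraph.Walk.support_cons,
    SimpleGraph.Walk.support_concat] at ha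
  simp only [List.mem_cons, List.mem_append, List.not_mem_nil, or_false] at ha
  rcases ha.1 with e | e | e
  · simpa using e
  · exact absurd ha.2 (hout a (hsup ▸ e))
  · simpa using e

lemma thunder_pattern (hT : IsThunder H I) {side : W → Bool}
    (hs : ∀ a b, (outside H I).Adj a b → side a ≠ side b) :
    ∃ σ : W → W → Bool, ∀ j a z, Req H I j a z → side a = σ j z := by
  classical
  have key : ∀ j a a' z, Req H I j a z → Req H I j a' z → side a = side a' := by
    intro j a a' z ⟨h1, h2⟩ ⟨h1', h2'⟩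
    have hc : cp H I a = cp H I a' := cl_eq_iff.1 (h1.trans h1'.symm)
    rcases h2 with rfl | ⟨hz, l, hl, rfl⟩
    · rcases h2' with rfl | ⟨hz, -⟩
      · rfl
      · rw [cp_eq_of_mem hz hc.symm]
    · rcases h2' with rfl | ⟨-, l', hl', rfl⟩
      · rw [cp_eq_of_mem hz hc]
      · rw [cp_par, cp_par] at hc
        by_cases e : l = l'
        · rw [e]
        have hne := thunder_side hT hs hz hl hl' hc
        obtain ⟨w⟩ := SimpleGraph.ConnectedComponent.exact hc
        obtain ⟨b, hb⟩ : ∃ b, (outside H I).Adj l b := by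
          cases w with
          | nil => exact absurd rfl e
          | cons h w => exact ⟨_, h⟩
        obtain ⟨b', hb'⟩ : ∃ b, (outside H I).Adj l' b := by
          cases w.reverse with
          | nil => exact absurd rfl e
          | cons h w => exact ⟨_, h⟩
        rw [par_eq hT.1 ⟨z, hz, hl⟩ hb, par_eq hT.1 ⟨z, hz, hl'⟩ hb']
        have a1 := hs _ _ hb
        have a2 := hs _ _ hb'
        revert a1 a2 hne
        cases side l <;> cases side l' <;> cases side b <;> cases side b' <;> simp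
  refine ⟨fun j z => if h : ∃ a, Req H I j a z then side h.choose else false, fun j a z h => ?_⟩
  have h' : ∃ a, Req H I j a z := ⟨a, h⟩
  simp only [dif_pos h']
  exact key j _ _ z h h'.choose_spec

lemma cloud_col (hC : IsCloud H I) : ∃ col : W → Fin 3, ∀ a b, H.Adj a b → col a ≠ col b := by
  obtain ⟨side, hs⟩ := exists_side hC
  refine ⟨fun a => if a ∈ I then 0 else if side a then 1 else 2, fun a b h => ?_⟩
  by_cases ha : a ∈ I <;> by_cases hb : b ∈ I
  · exact absurd h (hC.1 a ha b hb)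
  · simp only [if_pos ha, if_neg hb]; split_ifs <;> decide
  · simp only [if_neg ha, if_pos hb]; split_ifs <;> decide
  · have := hs a b ⟨h, ha, hb⟩
    simp only [if_neg ha, if_neg hb]
    revert this
    cases side a <;> cases side b <;> simp

open Classical in
noncomputable def cE (H : SimpleGraph W) (I : Finset W) : Finset (Sym2 W) :=
  (eF H).filter fun e => ∃ z ∈ I, z ∈ e

lemma mem_cE {e : Sym2 W} : e ∈ cE H I ↔ e ∈ H.edgeSet ∧ ∃ z ∈ I, z ∈ e := by
  simp [cE, mem_eF]

lemma cE_rep (hC : IsCloud H I) {e : Sym2 W} (he : e ∈ cE H I) :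
    ∃ l z, l ∉ I ∧ z ∈ I ∧ H.Adj l z ∧ e = s(l, z) := by
  obtain ⟨h1, z, hz, h2⟩ := mem_cE.1 he
  obtain ⟨l, rfl⟩ := Sym2.mem_iff_exists.1 h2
  exact ⟨l, z, fun hl => hC.1 z hz l hl h1, hz, h1.symm, Sym2.eq_swap⟩

lemma cross_eq (hC : IsCloud H I) (S : Finset W) :
    cross H I S = ((cE H I).filter fun e => ∀ a ∈ e, a ∈ S).card := by
  unfold cross
  rw [← Set.ncard_coe_finset]
  refine Set.ncard_congr (fun x _ => s(x.1, x.2)) (fun x hx => ?_) (fun x y hx hy e => ?_)
    fun e he => ?_
  · obtain ⟨h1, h2, h3⟩ := hx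
    rw [Finset.mem_sdiff] at h1
    rw [Finset.mem_inter] at h2
    refine Finset.mem_coe.2 (Finset.mem_filter.2 ⟨mem_cE.2 ⟨h3, x.2, h2.2, by simp⟩, ?_⟩)
    simp only [Sym2.mem_iff]
    rintro a (rfl | rfl)
    exacts [h1.1, h2.1]
  · rcases Sym2.eq_iff.1 e with e | e
    · exact Prod.ext e.1 e.2
    · exact absurd (e.1 ▸ (Finset.mem_inter.1 hy.2.1).2) (Finset.mem_sdiff.1 hx.1).2
  · obtain ⟨h1, h2⟩ := Finset.mem_filter.1 (Finset.mem_coe.1 he)
    obtain ⟨l, z, a1, a2, a3, rfl⟩ := cE_rep hC h1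
    exact ⟨(l, z), ⟨Finset.mem_sdiff.2 ⟨h2 l (by simp), a1⟩,
      Finset.mem_inter.2 ⟨h2 z (by simp), a2⟩, a3⟩, rfl⟩

open Classical in
lemma comps_eq (S : Finset W) : comps H I S = ((S \ I).image (cp H I)).card := by
  unfold comps
  rw [← Set.ncard_coe_finset, Finset.coe_image]

lemma comps_eq' (S : Finset W) : comps H I S = ((S \ I).image (cl H I)).card := by
  classical
  have hi : Function.Injective fun c : (outside H I).ConnectedComponent => Quot.out c :=
    fun a b h => by
      have e : ∀ c : (outside H I).ConnectedComponent, Quot.mk _ (Quot.out c) = c :=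
        fun c => Quot.out_eq _
      rw [← e a, ← e b]; exact congrArg _ h
  rw [comps_eq, ← Finset.card_image_of_injective _ hi, Finset.image_image]
  rfl

lemma cl_par (a : W) : cl H I (par H I a) = cl H I a := cl_eq_iff.2 (cp_par a)

lemma cl_adj {a b : W} (h : (outside H I).Adj a b) : cl H I a = cl H I b :=
  cl_eq_iff.2 (SimpleGraph.ConnectedComponent.sound h.reachable)

lemma comps_le (S : Finset W) : comps H I S ≤ (S \ I).card := by
  classical
  rw [comps_eq]; exact Finset.card_image_le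

lemma eIn_le (hC : IsCloud H I) (S : Finset W) :
    eIn H S + comps H I S ≤ cross H I S + (S \ I).card := by
  classical
  rcases isEmpty_or_nonempty W with hW | ⟨⟨a0⟩⟩
  · have : eIn H S = 0 := by
      rw [eIn_eq, Finset.card_eq_zero, Finset.eq_empty_iff_forall_notMem]
      intro e
      induction e using Sym2.ind with
      | h a b => exact (hW.false a).elim
    have := comps_le (H := H) (I := I) S
    omega
  obtain ⟨R, -⟩ := exists_rooting hC.2.1 a0
  let Ch := (S \ I).filter fun a => R.pr a ∈ S \ I ∧ R.pr a ≠ a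
  have h1 : eIn H S ≤ cross H I S + Ch.card := by
    rw [eIn_eq, cross_eq hC]
    refine le_trans (Finset.card_le_card fun e he => ?_) ((Finset.card_union_le _
      (Ch.image fun a => s(a, R.pr a))).trans (Nat.add_le_add_left Finset.card_image_le _))
    rw [Finset.mem_filter, mem_eF] at he
    by_cases hz : ∃ z ∈ I, z ∈ e
    · exact Finset.mem_union_left _ (Finset.mem_filter.2 ⟨mem_cE.2 ⟨he.1, hz⟩, he.2⟩)
    push Not at hz
    refine Finset.mem_union_right _ ?_
    induction e using Sym2.ind with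
    | h a b =>
      have ha : a ∈ S \ I := Finset.mem_sdiff.2 ⟨he.2 a (by simp), fun h => hz a h (by simp)⟩
      have hb : b ∈ S \ I := Finset.mem_sdiff.2 ⟨he.2 b (by simp), fun h => hz b h (by simp)⟩
      have hab : H.Adj a b := he.1
      rcases R.cover a b ⟨hab, (Finset.mem_sdiff.1 ha).2, (Finset.mem_sdiff.1 hb).2⟩ with h | h
      · exact Finset.mem_image.2 ⟨a, Finset.mem_filter.2 ⟨ha, h ▸ hb, h ▸ hab.ne.symm⟩, by rw [h]⟩
      · exact Finset.mem_image.2 ⟨b, Finset.mem_filter.2 ⟨hb, h ▸ ha, h ▸ hab.ne⟩,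
          by rw [h, Sym2.eq_swap]⟩
  have h2 : comps H I S ≤ ((S \ I) \ Ch).card := by
    rw [comps_eq]
    refine le_trans (Finset.card_le_card fun j hj => ?_) (Finset.card_image_le (f := cp H I))
    obtain ⟨a, ha, rfl⟩ := Finset.mem_image.1 hj
    obtain ⟨b, hb, hm⟩ := Finset.exists_min_image ((S \ I).filter fun b => cp H I b = cp H I a)
      R.rk ⟨a, Finset.mem_filter.2 ⟨ha, rfl⟩⟩
    rw [Finset.mem_filter] at hb
    refine Finset.mem_image.2 ⟨b, Finset.mem_sdiff.2 ⟨hb.1, fun h => ?_⟩, hb.2⟩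
    obtain ⟨-, a1, a2⟩ := Finset.mem_filter.1 h
    have a3 := R.adj b a2
    exact absurd (hm _ (Finset.mem_filter.2 ⟨a1,
      (SimpleGraph.ConnectedComponent.sound a3.1.reachable).trans hb.2⟩)) (by omega)
  have h3 : Ch ⊆ S \ I := Finset.filter_subset _ _
  rw [Finset.card_sdiff_of_subset h3] at h2
  have := Finset.card_le_card h3
  omega

lemma exists_dense (hH : ¬ H.IsAcyclic) : ∃ S : Finset W, 3 ≤ S.card ∧ S.card ≤ eIn H S := by
  classical
  unfold SimpleGraph.IsAcyclic at hH
  push Not at hH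
  obtain ⟨v, c, hc⟩ := hH
  have h1 : c.support.tail.toFinset.card = c.length := by
    rw [List.toFinset_card_of_nodup hc.support_nodup]; simp
  refine ⟨c.support.tail.toFinset, h1 ▸ hc.three_le_length, ?_⟩
  rw [h1, eIn_eq, ← c.length_edges, ← List.toFinset_card_of_nodup hc.edges_nodup]
  refine Finset.card_le_card fun e he => ?_
  rw [List.mem_toFinset] at he
  refine Finset.mem_filter.2 ⟨mem_eF.2 (c.edges_subset_edgeSet he), fun a ha => ?_⟩
  have h2 : a ∈ c.support := SimpleGraph.Walk.mem_support_of_mem_edges he ha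
  rw [List.mem_toFinset]
  rcases (SimpleGraph.Walk.mem_support_iff _).1 h2 with rfl | h
  · exact SimpleGraph.Walk.end_mem_tail_support hc.not_nil
  · exact h

lemma le_m2 {S : Finset W} (hS : 3 ≤ S.card) : (eIn H S : ℝ) - 1 ≤ m2 H * (S.card - 2) := by
  have h3 : (3 : ℝ) ≤ S.card := by exact_mod_cast hS
  rw [← div_le_iff₀ (by linarith)]
  exact le_ciSup (f := fun S : {S : Finset W // 3 ≤ S.card} =>
    ((eIn H S : ℝ) - 1) / ((S.1.card : ℝ) - 2)) (Finite.bddAbove_range _) ⟨S, hS⟩

lemma le_mI {S : Finset W} (hS : 3 ≤ S.card) :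
    (cross H I S : ℝ) + (S \ I).card - comps H I S - 1 ≤ mI H I * (S.card - 2) := by
  have h3 : (3 : ℝ) ≤ S.card := by exact_mod_cast hS
  rw [← div_le_iff₀ (by linarith)]
  exact le_ciSup (f := fun S : {S : Finset W // 3 ≤ S.card} =>
    ((cross H I S : ℝ) + (S.1 \ I).card - comps H I S - 1) / ((S.1.card : ℝ) - 2))
    (Finite.bddAbove_range _) ⟨S, hS⟩

lemma one_lt_m2 (hH : ¬ H.IsAcyclic) : 1 < m2 H := by
  obtain ⟨S, h1, h2⟩ := exists_dense hH
  have h3 : (3 : ℝ) ≤ S.card := by exact_mod_cast h1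
  have h4 : (S.card : ℝ) ≤ eIn H S := by exact_mod_cast h2
  have := le_m2 (H := H) h1
  nlinarith

lemma exists_m2 (hH : ¬ H.IsAcyclic) :
    ∃ S : Finset W, 3 ≤ S.card ∧ (eIn H S : ℝ) - 1 = m2 H * (S.card - 2) := by
  obtain ⟨S0, h1, -⟩ := exists_dense hH
  have : Nonempty {S : Finset W // 3 ≤ S.card} := ⟨⟨S0, h1⟩⟩
  obtain ⟨S, hS⟩ := exists_eq_ciSup_of_finite (f := fun S : {S : Finset W // 3 ≤ S.card} =>
    ((eIn H S : ℝ) - 1) / ((S.1.card : ℝ) - 2))
  have h3 : (3 : ℝ) ≤ S.1.card := by exact_mod_cast S.2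
  refine ⟨S, S.2, ?_⟩
  rw [← div_eq_iff (by linarith)]; exact hS

lemma exists_mI (hH : ¬ H.IsAcyclic) (I : Finset W) : ∃ S : Finset W, 3 ≤ S.card ∧
    (cross H I S : ℝ) + (S \ I).card - comps H I S - 1 = mI H I * (S.card - 2) := by
  obtain ⟨S0, h1, -⟩ := exists_dense hH
  have : Nonempty {S : Finset W // 3 ≤ S.card} := ⟨⟨S0, h1⟩⟩
  obtain ⟨S, hS⟩ := exists_eq_ciSup_of_finite (f := fun S : {S : Finset W // 3 ≤ S.card} =>
    ((cross H I S : ℝ) + (S.1 \ I).card - comps H I S - 1) / ((S.1.card : ℝ) - 2))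
  have h3 : (3 : ℝ) ≤ S.1.card := by exact_mod_cast S.2
  refine ⟨S, S.2, ?_⟩
  rw [← div_eq_iff (by linarith)]; exact hS

lemma m2_le_mI (hH : ¬ H.IsAcyclic) (hC : IsCloud H I) : m2 H ≤ mI H I := by
  obtain ⟨S, h1, h2⟩ := exists_m2 hH
  have h3 : (3 : ℝ) ≤ S.card := by exact_mod_cast h1
  have h4 : (eIn H S : ℝ) + comps H I S ≤ cross H I S + (S \ I).card := by
    exact_mod_cast eIn_le hC S
  have := le_mI (H := H) (I := I) h1
  nlinarith

lemma eIn_small {S : Finset W} (hS : S.card ≤ 2) (h : 1 ≤ eIn H S) : S.card = 2 ∧ eIn H S = 1 := by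
  rw [eIn_eq] at h ⊢
  obtain ⟨e, he⟩ := Finset.card_pos.1 h
  induction e using Sym2.ind with
  | h a b =>
    rw [Finset.mem_filter, mem_eF] at he
    have hab : a ≠ b := (he.1 : H.Adj a b).ne
    have h1 : S = {a, b} := (Finset.eq_of_subset_of_card_le (fun x hx => he.2 x (by simpa using hx))
      (by rwa [Finset.card_pair hab])).symm
    refine ⟨by rw [h1, Finset.card_pair hab], le_antisymm ?_ h⟩
    refine le_trans (Finset.card_le_card (t := {s(a, b)}) fun e he => ?_) (by simp)
    induction e using Sym2.ind with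
    | h x y =>
      rw [Finset.mem_filter, mem_eF, h1] at he
      have hxy : x ≠ y := (he.1 : H.Adj x y).ne
      have hx := he.2 x (by simp)
      have hy := he.2 y (by simp)
      simp only [Finset.mem_insert, Finset.mem_singleton] at hx hy ⊢
      rcases hx with rfl | rfl <;> rcases hy with rfl | rfl
      · exact absurd rfl hxy
      · rfl
      · exact Sym2.eq_swap
      · exact absurd rfl hxy

lemma eIn_bound {m : ℝ} (hm : m2 H ≤ m) {S : Finset W} (h : 1 ≤ eIn H S) :
    ((eIn H S - 1 : ℕ) : ℝ) ≤ m * (S.card - 2) := by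
  by_cases hS : 3 ≤ S.card
  · have h3 : (3 : ℝ) ≤ S.card := by exact_mod_cast hS
    rw [Nat.cast_sub h, Nat.cast_one]
    exact (le_m2 hS).trans (mul_le_mul_of_nonneg_right hm (by linarith))
  · obtain ⟨h1, h2⟩ := eIn_small (by omega) h
    rw [h1, h2]; simp

lemma cross_bound (hC : IsCloud H I) {S : Finset W} (h : 1 ≤ cross H I S) :
    ((cross H I S - 1 + ((S \ I).card - comps H I S) : ℕ) : ℝ) ≤ mI H I * (S.card - 2) := by
  classical
  by_cases hS : 3 ≤ S.card
  · rw [Nat.cast_add, Nat.cast_sub h, Nat.cast_sub (comps_le S), Nat.cast_one]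
    linarith [le_mI (H := H) (I := I) hS]
  · have h0 : cross H I S ≤ eIn H S := by
      rw [cross_eq hC, eIn_eq]
      exact Finset.card_le_card (Finset.filter_subset_filter _ (Finset.filter_subset _ _))
    obtain ⟨h1, h2⟩ := eIn_small (by omega) (h.trans h0)
    have h' := h
    rw [cross_eq hC] at h'
    obtain ⟨e, he⟩ := Finset.card_pos.1 h'
    rw [Finset.mem_filter] at he
    obtain ⟨l, z, a1, a2, a3, rfl⟩ := cE_rep hC he.1
    have h3 : (S \ I).card < S.card := Finset.card_lt_card ⟨Finset.sdiff_subset, fun h =>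
      (Finset.mem_sdiff.1 (h (he.2 z (by simp)))).2 a2⟩
    have h4 : 1 ≤ comps H I S := by
      rw [comps_eq]
      exact Finset.card_pos.2 ⟨_, Finset.mem_image_of_mem _
        (Finset.mem_sdiff.2 ⟨he.2 l (by simp), a1⟩)⟩
    rw [show cross H I S - 1 + ((S \ I).card - comps H I S) = 0 by omega, h1]; simp

lemma pow_tau {n m : ℝ} (hn : 1 ≤ n) (hm : 0 < m) {k s : ℕ} (h : (k : ℝ) ≤ m * (s - 2)) :
    n ^ 2 ≤ (n ^ (-(1 / m))) ^ k * n ^ s := by
  have h0 : 0 < n := by linarith
  rw [← Real.rpow_natCast, ← Real.rpow_natCast, ← Real.rpow_natCast, ← Real.rpow_mul h0.le,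
    ← Real.rpow_add h0]
  refine Real.rpow_le_rpow_of_exponent_le hn ?_
  have : (k : ℝ) / m ≤ s - 2 := by rw [div_le_iff₀ hm]; linarith
  push_cast
  have e : -(1 / m) * k = -(k / m) := by ring
  linarith

end Pool.Agent.Lib.MP_46505f_co
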