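import Mathlib

set_option autoImplicit false
set_option linter.unusedSectionVars false
open Finset

namespace Pool.Agent.Lib.MP_46505f_co

/- Colourings of vertex sets, cores, and the scale regularisation lemma. -/

variable {V : Type*} [Fintype V] [DecidableEq V]

def Col (F : SimpleGraph V) (U : Finset V) (t : ℕ) : Prop :=
  ∃ c : V → ℕ, (∀ v ∈ U, c v < t) ∧ ∀ u ∈ U, ∀ v ∈ U, F.Adj u v → c u ≠ c v

open Classical in
noncomputable def nb (F : SimpleGraph V) (v : V) (Q : Finset V) : Finset V := Q.filter (F.Adj v)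

noncomputable def dg (F : SimpleGraph V) (v : V) (Q : Finset V) : ℕ := (nb F v Q).card

lemma mem_nb {F : SimpleGraph V} {v u : V} {Q : Finset V} : u ∈ nb F v Q ↔ u ∈ Q ∧ F.Adj v u := by
  simp [nb]

lemma nb_mono {F F' : SimpleGraph V} (h : F ≤ F') (v : V) {Q Q' : Finset V} (hQ : Q ⊆ Q') :
    nb F v Q ⊆ nb F' v Q' := fun _ hu =>
  mem_nb.2 ⟨hQ (mem_nb.1 hu).1, h (mem_nb.1 hu).2⟩

lemma dg_mono {F F' : SimpleGraph V} (h : F ≤ F') (v : V) {Q Q' : Finset V} (hQ : Q ⊆ Q') :
    dg F v Q ≤ dg F' v Q' := Finset.card_le_card (nb_mono h v hQ)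

lemma dg_lt {F : SimpleGraph V} {v : V} {Q : Finset V} (hv : v ∈ Q) : dg F v Q < Q.card := by
  apply Finset.card_lt_card
  refine ⟨fun u hu => (mem_nb.1 hu).1, fun h => ?_⟩
  exact F.irrefl (mem_nb.1 (h hv)).2

lemma dg_union_le (F : SimpleGraph V) (v : V) (Q Q' : Finset V) :
    dg F v (Q ∪ Q') ≤ dg F v Q + dg F v Q' := by
  refine le_trans (Finset.card_le_card ?_) (Finset.card_union_le _ _)
  intro u hu
  rcases Finset.mem_union.1 (mem_nb.1 hu).1 with h | h
  · exact Finset.mem_union_left _ (mem_nb.2 ⟨h, (mem_nb.1 hu).2⟩)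
  · exact Finset.mem_union_right _ (mem_nb.2 ⟨h, (mem_nb.1 hu).2⟩)

open Classical in
lemma dg_eq_sum (F : SimpleGraph V) (v : V) (Q : Finset V) :
    (dg F v Q : ℝ) = ∑ u ∈ Q, if F.Adj v u then (1 : ℝ) else 0 := by
  simp [dg, nb]

lemma sum_dg_comm (F : SimpleGraph V) (A B : Finset V) :
    ∑ a ∈ A, (dg F a B : ℝ) = ∑ b ∈ B, (dg F b A : ℝ) := by
  simp_rw [dg_eq_sum]
  rw [Finset.sum_comm]
  refine Finset.sum_congr rfl fun b _ => Finset.sum_congr rfl fun a _ => ?_
  by_cases h : F.Adj a b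
  · rw [if_pos h, if_pos h.symm]
  · rw [if_neg h, if_neg fun h' => h h'.symm]

lemma Col.mono {F F' : SimpleGraph V} {U U' : Finset V} {t t' : ℕ} (h : Col F U t) (hF : F' ≤ F)
    (hU : U' ⊆ U) (ht : t ≤ t') : Col F' U' t' := by
  obtain ⟨c, h1, h2⟩ := h
  exact ⟨c, fun v hv => (h1 v (hU hv)).trans_le ht,
    fun u hu v hv huv => h2 u (hU hu) v (hU hv) (hF huv)⟩

lemma col_empty (F : SimpleGraph V) (t : ℕ) : Col F ∅ t := ⟨fun _ => 0, by simp, by simp⟩

lemma Col.union {F : SimpleGraph V} {U U' : Finset V} {s t : ℕ} (h : Col F U s) (h' : Col F U' t) :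
    Col F (U ∪ U') (s + t) := by
  obtain ⟨c, h1, h2⟩ := h
  obtain ⟨c', h1', h2'⟩ := h'
  refine ⟨fun v => if v ∈ U then c v else s + c' v, fun v hv => ?_, fun u hu v hv huv => ?_⟩
  · by_cases h : v ∈ U
    · simp only [if_pos h]; have := h1 v h; omega
    · simp only [if_neg h]
      have := h1' v ((Finset.mem_union.1 hv).resolve_left h); omega
  · by_cases hu' : u ∈ U <;> by_cases hv' : v ∈ U
    · simp only [if_pos hu', if_pos hv']; exact h2 u hu' v hv' huv
    · simp only [if_pos hu', if_neg hv']; have := h1 u hu'; omega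
    · simp only [if_neg hu', if_pos hv']; have := h1 v hv'; omega
    · simp only [if_neg hu', if_neg hv']
      have := h2' u ((Finset.mem_union.1 hu).resolve_left hu') v
        ((Finset.mem_union.1 hv).resolve_left hv') huv
      omega

lemma col_biUnion {κ : Type*} [DecidableEq κ] {F : SimpleGraph V} (s : Finset κ)
    (U : κ → Finset V) {t : ℕ} (h : ∀ k ∈ s, Col F (U k) t) :
    Col F (s.biUnion U) (s.card * t) := by
  induction s using Finset.induction_on with
  | empty => simpa using col_empty F 0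
  | insert k s hk ih =>
    rw [Finset.biUnion_insert, Finset.card_insert_of_notMem hk]
    have := (h k (Finset.mem_insert_self _ _)).union
      (ih fun j hj => h j (Finset.mem_insert_of_mem hj))
    exact this.mono le_rfl Subset.rfl (le_of_eq (by ring))

lemma col_card (F : SimpleGraph V) (U : Finset V) : Col F U U.card := by
  have := col_biUnion (F := F) U (fun v => {v}) (t := 1) fun v _ =>
    ⟨fun _ => 0, by simp, by
      intro a ha b hb hab
      rw [Finset.mem_singleton.1 ha, Finset.mem_singleton.1 hb] at hab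
      exact absurd hab F.irrefl⟩
  simpa using this

lemma Col.sup {F F' : SimpleGraph V} {U : Finset V} {s t : ℕ} (h : Col F U s) (h' : Col F' U t) :
    Col (F ⊔ F') U (s * t) := by
  obtain ⟨c, h1, h2⟩ := h
  obtain ⟨c', h1', h2'⟩ := h'
  refine ⟨fun v => c v * t + c' v, fun v hv => ?_, fun u hu v hv huv he => ?_⟩
  · have a := h1 v hv
    have b := h1' v hv
    show c v * t + c' v < s * t
    nlinarith
  · have hu' := h1' u hu
    have hv' := h1' v hv
    have e1 : c' u = c' v := by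
      have := congrArg (· % t) he
      simpa [Nat.mod_eq_of_lt hu', Nat.mod_eq_of_lt hv'] using this
    have e2 : c u = c v := by
      simp only [e1] at he
      exact Nat.eq_of_mul_eq_mul_right (by omega) (Nat.add_right_cancel he)
    rcases huv with h | h
    · exact h2 u hu v hv h e2
    · exact h2' u hu v hv h e1

/-- no nonempty subset has minimum degree at least δ -/
def NoCore (F : SimpleGraph V) (U : Finset V) (δ : ℝ) : Prop :=
  ∀ Q ⊆ U, Q.Nonempty → ∃ v ∈ Q, (dg F v Q : ℝ) < δ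

lemma NoCore.mono {F F' : SimpleGraph V} {U U' : Finset V} {δ δ' : ℝ} (h : NoCore F U δ)
    (hF : F' ≤ F) (hU : U' ⊆ U) (hδ : δ ≤ δ') : NoCore F' U' δ' := by
  intro Q hQ hne
  obtain ⟨v, hv, h⟩ := h Q (hQ.trans hU) hne
  refine ⟨v, hv, lt_of_le_of_lt ?_ (h.trans_le hδ)⟩
  exact_mod_cast dg_mono hF v Subset.rfl

lemma col_of_noCore {F : SimpleGraph V} {t : ℕ} :
    ∀ U : Finset V, NoCore F U t → Col F U t := by
  intro U
  induction U using Finset.strongInduction with
  | H U ih =>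
    intro h
    rcases U.eq_empty_or_nonempty with rfl | hne
    · exact col_empty F t
    obtain ⟨v, hv, hlt⟩ := h U Subset.rfl hne
    obtain ⟨c, h1, h2⟩ := ih (U.erase v) (Finset.erase_ssubset hv)
      (h.mono le_rfl (Finset.erase_subset _ _) le_rfl)
    have hlt' : dg F v U < t := by exact_mod_cast hlt
    have : ∃ x ∈ Finset.range t, x ∉ (nb F v U).image c := by
      by_contra hcon
      push Not at hcon
      have := Finset.card_le_card (show Finset.range t ⊆ _ from hcon)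
      rw [Finset.card_range] at this
      have h3 := Finset.card_image_le (s := nb F v U) (f := c)
      unfold dg at hlt'
      omega
    obtain ⟨x, hx, hx'⟩ := this
    refine ⟨Function.update c v x, fun u hu => ?_, fun a ha b hb hab => ?_⟩
    · by_cases huv : u = v
      · subst huv; simpa using hx
      · simp only [Function.update_of_ne huv]; exact h1 u (Finset.mem_erase.2 ⟨huv, hu⟩)
    · by_cases hav : a = v <;> by_cases hbv : b = v
      · rw [hav, hbv] at hab; exact absurd hab F.irrefl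
      · subst hav
        simp only [Function.update_self, Function.update_of_ne hbv]
        intro he
        exact hx' (Finset.mem_image.2 ⟨b, mem_nb.2 ⟨hb, hab⟩, he.symm⟩)
      · subst hbv
        simp only [Function.update_self, Function.update_of_ne hav]
        intro he
        exact hx' (Finset.mem_image.2 ⟨a, mem_nb.2 ⟨ha, hab.symm⟩, he⟩)
      · simp only [Function.update_of_ne hav, Function.update_of_ne hbv]
        exact h2 a (Finset.mem_erase.2 ⟨hav, ha⟩) b (Finset.mem_erase.2 ⟨hbv, hb⟩) hab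

lemma sum_dg_of_noCore {F : SimpleGraph V} {δ : ℝ} :
    ∀ U : Finset V, NoCore F U δ → ∑ v ∈ U, (dg F v U : ℝ) ≤ 2 * δ * U.card := by
  intro U
  induction U using Finset.strongInduction with
  | H U ih =>
    intro h
    rcases U.eq_empty_or_nonempty with rfl | hne
    · simp
    obtain ⟨v, hv, hlt⟩ := h U Subset.rfl hne
    have h1 := ih (U.erase v) (Finset.erase_ssubset hv)
      (h.mono le_rfl (Finset.erase_subset _ _) le_rfl)
    have h2 : ∀ u, (dg F u U : ℝ) ≤ dg F u (U.erase v) + dg F u {v} := by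
      intro u
      have : U = U.erase v ∪ {v} := by
        rw [Finset.union_comm, ← Finset.insert_eq, Finset.insert_erase hv]
      have h3 := dg_union_le F u (U.erase v) {v}
      rw [← this] at h3
      exact_mod_cast h3
    have h3 : ∑ u ∈ U.erase v, (dg F u {v} : ℝ) ≤ dg F v U := by
      rw [sum_dg_comm, Finset.sum_singleton]
      exact_mod_cast dg_mono le_rfl v (Finset.erase_subset _ _)
    rw [← Finset.add_sum_erase U _ hv]
    have h4 : ∑ u ∈ U.erase v, (dg F u U : ℝ) ≤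
        ∑ u ∈ U.erase v, (dg F u (U.erase v) : ℝ) + ∑ u ∈ U.erase v, (dg F u {v} : ℝ) := by
      rw [← Finset.sum_add_distrib]; exact Finset.sum_le_sum fun u _ => h2 u
    have h5 : ((U.erase v).card : ℝ) = U.card - 1 := by
      rw [Finset.card_erase_of_mem hv, Nat.cast_sub (Finset.card_pos.2 hne)]; simp
    rw [h5] at h1
    linarith

lemma exists_maxcore (F : SimpleGraph V) (U : Finset V) (δ : ℝ) :
    ∃ Q ⊆ U, (∀ v ∈ Q, δ ≤ dg F v Q) ∧ NoCore F (U \ Q) δ := by
  classical
  obtain ⟨Q, hQ, hmax⟩ := Finset.exists_max_image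
    (U.powerset.filter fun Q => ∀ v ∈ Q, δ ≤ dg F v Q) Finset.card ⟨∅, by simp⟩
  rw [Finset.mem_filter, Finset.mem_powerset] at hQ
  refine ⟨Q, hQ.1, hQ.2, fun R hR hne => ?_⟩
  by_contra hcon
  push Not at hcon
  have h1 : Q ∪ R ∈ U.powerset.filter fun Q => ∀ v ∈ Q, δ ≤ dg F v Q := by
    rw [Finset.mem_filter, Finset.mem_powerset]
    refine ⟨Finset.union_subset hQ.1 (hR.trans Finset.sdiff_subset), fun v hv => ?_⟩
    rcases Finset.mem_union.1 hv with h | h
    · exact (hQ.2 v h).trans (by exact_mod_cast dg_mono le_rfl v Finset.subset_union_left)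
    · exact (hcon v h).trans (by exact_mod_cast dg_mono le_rfl v Finset.subset_union_right)
  have h2 := hmax _ h1
  obtain ⟨x, hx⟩ := hne
  have h3 : Q.card < (Q ∪ R).card := Finset.card_lt_card ⟨Finset.subset_union_left, fun h =>
    (Finset.mem_sdiff.1 (hR hx)).2 (h (Finset.mem_union_right _ hx))⟩
  omega

/-- every non-colourable part contains a core of given size and degree -/
def Oracle (F : SimpleGraph V) (P : Finset V) (t : ℕ) (s δ : ℝ) : Prop :=
  ∀ U ⊆ P, ¬ Col F U t → ∃ Q ⊆ U, Q.Nonempty ∧ s ≤ Q.card ∧ ∀ v ∈ Q, δ ≤ dg F v Q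

lemma oracle_basic (F : SimpleGraph V) (P : Finset V) (t : ℕ) : Oracle F P t 1 t := by
  intro U _ hU
  obtain ⟨Q, hQ, h1, h2⟩ := exists_maxcore F U t
  have hne : Q.Nonempty := by
    rcases Q.eq_empty_or_nonempty with rfl | h
    · exact absurd (col_of_noCore _ (by simpa using h2)) hU
    · exact h
  exact ⟨Q, hQ, hne, by exact_mod_cast Finset.card_pos.2 hne, h1⟩

theorem scale_regular (Λ t L : ℕ) (hΛ : 1 ≤ Λ) (ht : 1 ≤ t) (q : ℝ) (hq : 1 ≤ q)
    (hL : (Fintype.card V : ℝ) ≤ q ^ L) (F0 : SimpleGraph V) (U0 : Finset V)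
    (h : ¬ Col F0 U0 (t * (Λ + 1) ^ (2 * L + 1))) :
    ∃ (t0 : ℕ) (P : Finset V) (F : SimpleGraph V) (Δ δ : ℝ), t ≤ t0 ∧ P ⊆ U0 ∧ F ≤ F0 ∧
      ¬ Col F P (Λ * t0) ∧ (∀ v ∈ P, (dg F v P : ℝ) ≤ Δ) ∧ t0 ≤ δ ∧ Δ ≤ 2 * q ^ 2 * δ ∧
      ∀ F' ≤ F, Oracle F' P (2 * t0) (P.card / q) δ := by
  classical
  have hq0 : 0 < q := by linarith
  let E : ℕ → ℕ → Prop := fun i m => ∃ (F : SimpleGraph V) (U : Finset V) (a b : ℕ),
    a + b = m ∧ F ≤ F0 ∧ U ⊆ U0 ∧ ¬ Col F U (t * (Λ + 1) ^ i) ∧ (U.card : ℝ) ≤ q ^ a ∧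
      NoCore F U (q ^ b)
  have key : ∀ k m, m ≤ k → E (k + 1) m → ∃ i m', E (i + 1) m' ∧ ∀ m'' < m', ¬ E i m'' := by
    intro k
    induction k with
    | zero => intro m hm hE; exact ⟨0, m, hE, fun m'' h => by omega⟩
    | succ k ih =>
      intro m hm hE
      by_cases hc : ∀ m'' < m, ¬ E (k + 1) m''
      · exact ⟨k + 1, m, hE, hc⟩
      · push Not at hc
        obtain ⟨m'', h1, h2⟩ := hc
        exact ih m'' (by omega) h2
  have hcard : ∀ U : Finset V, (U.card : ℝ) ≤ q ^ L := fun U =>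
    le_trans (by exact_mod_cast Finset.card_le_univ U) hL
  obtain ⟨i, m, ⟨F, U, a, b, hab, hF, hU, hcol, hsz, hnc⟩, hmin⟩ := key (2 * L) (2 * L) le_rfl
    ⟨F0, U0, L, L, by ring, le_rfl, Subset.rfl, h, hcard _, fun Q _ hne => by
      obtain ⟨v, hv⟩ := hne
      exact ⟨v, hv, lt_of_lt_of_le (by exact_mod_cast dg_lt hv) (hcard Q)⟩⟩
  set t0 := t * (Λ + 1) ^ i with ht0
  have htt : t ≤ t0 := Nat.le_mul_of_pos_right _ (by positivity)
  have hbig : t * (Λ + 1) ^ (i + 1) = Λ * t0 + t0 := by rw [ht0]; ring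
  have h1 : 1 ≤ t * (Λ + 1) ^ (i + 1) := by rw [hbig]; omega
  have ha : 1 ≤ a := by
    by_contra hcon
    have : a = 0 := by omega
    subst this
    have : U.card ≤ 1 := by exact_mod_cast (by simpa using hsz : (U.card : ℝ) ≤ 1)
    exact hcol ((col_card F U).mono le_rfl Subset.rfl (by omega))
  have hb : 1 ≤ b := by
    by_contra hcon
    have : b = 0 := by omega
    subst this
    exact hcol ((col_of_noCore (t := 1) U (by simpa using hnc)).mono le_rfl Subset.rfl h1)
  obtain ⟨a, rfl⟩ : ∃ a', a = a' + 1 := ⟨a - 1, by omega⟩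
  obtain ⟨b, rfl⟩ : ∃ b', b = b' + 1 := ⟨b - 1, by omega⟩
  have hsmall : ∀ F' ≤ F, ∀ U' ⊆ U, (U'.card : ℝ) ≤ q ^ a → Col F' U' t0 := by
    intro F' hF' U' hU' hs
    by_contra hcon
    exact hmin (a + (b + 1)) (by omega) ⟨F', U', a, b + 1, rfl, hF'.trans hF, hU'.trans hU, hcon,
      hs, hnc.mono hF' hU' le_rfl⟩
  have hsparse : ∀ F' ≤ F, ∀ U' ⊆ U, NoCore F' U' (q ^ b) → Col F' U' t0 := by
    intro F' hF' U' hU' hs
    by_contra hcon
    exact hmin (a + 1 + b) (by omega) ⟨F', U', a + 1, b, rfl, hF'.trans hF, hU'.trans hU, hcon,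
      le_trans (by exact_mod_cast Finset.card_le_card hU') hsz, hs⟩
  set Hi := U.filter fun v => 2 * q ^ (b + 2) < (dg F v U : ℝ) with hHi
  have hHi1 : (Hi.card : ℝ) ≤ q ^ a := by
    have e1 : (Hi.card : ℝ) * (2 * q ^ (b + 2)) ≤ ∑ v ∈ Hi, (dg F v U : ℝ) := by
      rw [← nsmul_eq_mul]
      exact Finset.card_nsmul_le_sum _ _ _ fun v hv => (Finset.mem_filter.1 hv).2.le
    have e2 : ∑ v ∈ Hi, (dg F v U : ℝ) ≤ ∑ v ∈ U, (dg F v U : ℝ) :=
      Finset.sum_le_sum_of_subset_of_nonneg (Finset.filter_subset _ _) fun _ _ _ => by positivity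
    have e3 := sum_dg_of_noCore U hnc
    have e4 : 2 * q ^ (b + 1) * (U.card : ℝ) ≤ q ^ a * (2 * q ^ (b + 2)) := by
      calc _ ≤ 2 * q ^ (b + 1) * q ^ (a + 1) := by gcongr
        _ = _ := by ring
    exact le_of_mul_le_mul_right (by linarith) (by positivity : (0 : ℝ) < 2 * q ^ (b + 2))
  refine ⟨t0, U \ Hi, F, 2 * q ^ (b + 2), max (t0 : ℝ) (q ^ b), htt,
    Finset.sdiff_subset.trans hU, hF, fun hc => hcol ?_, fun v hv => ?_, le_max_left _ _, ?_, ?_⟩
  · rw [hbig]
    refine (hc.union (hsmall F le_rfl Hi (Finset.filter_subset _ _) hHi1)).mono le_rfl ?_ le_rfl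
    rw [Finset.sdiff_union_self_eq_union]; exact Finset.subset_union_left
  · rw [Finset.mem_sdiff] at hv
    have : ¬ 2 * q ^ (b + 2) < (dg F v U : ℝ) := fun h => hv.2 (Finset.mem_filter.2 ⟨hv.1, h⟩)
    exact le_trans (by exact_mod_cast dg_mono le_rfl v Finset.sdiff_subset) (not_lt.1 this)
  · calc 2 * q ^ (b + 2) = 2 * q ^ 2 * q ^ b := by ring
      _ ≤ _ := by gcongr; exact le_max_right _ _
  · intro F' hF' U' hU' hc
    have hU'' : U' ⊆ U := hU'.trans Finset.sdiff_subset
    obtain ⟨Q, hQ, h1, h2⟩ := exists_maxcore F' U' (max (t0 : ℝ) (q ^ b))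
    have h3 : Col F' (U' \ Q) t0 := by
      rcases le_total (t0 : ℝ) (q ^ b) with h | h
      · rw [max_eq_right h] at h2
        exact hsparse F' hF' _ (Finset.sdiff_subset.trans hU'') h2
      · rw [max_eq_left h] at h2
        exact col_of_noCore _ h2
    have h4 : ¬ Col F' Q t0 := fun h => hc ((h3.union h).mono le_rfl (by
      rw [Finset.sdiff_union_self_eq_union]; exact Finset.subset_union_left) (by omega))
    refine ⟨Q, hQ, ?_, ?_, h1⟩
    · rcases Q.eq_empty_or_nonempty with rfl | h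
      · exact absurd (col_empty _ _) h4
      · exact h
    · have h5 : q ^ a ≤ (Q.card : ℝ) := by
        by_contra hcon
        exact h4 (hsmall F' hF' Q (hQ.trans hU'') (not_le.1 hcon).le)
      rw [div_le_iff₀ hq0]
      calc (((U \ Hi).card : ℕ) : ℝ) ≤ U.card := by
            exact_mod_cast Finset.card_le_card Finset.sdiff_subset
        _ ≤ q ^ (a + 1) := hsz
        _ = q ^ a * q := pow_succ _ _
        _ ≤ _ := by gcongr

end Pool.Agent.Lib.MP_46505f_co
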