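import Mathlib

set_option autoImplicit false
set_option linter.unusedSectionVars false
open Finset

namespace Pool.Agent.Lib.MP_46505f_co

/- A hypergraph container theorem for weighted uniform hypergraphs. -/

variable {ι : Type*} [Fintype ι] [DecidableEq ι]

noncomputable def hdeg (w : Finset ι → ℝ) (T : Finset ι) : ℝ := ∑ e, if T ⊆ e then w e else 0

structure Hyp (w : Finset ι → ℝ) (k : ℕ) (K τ N : ℝ) : Prop where
  nonneg : ∀ e, 0 ≤ w e
  unif : ∀ e, w e ≠ 0 → e.card = k
  pos : 0 < hdeg w ∅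
  deg : ∀ T : Finset ι, T.Nonempty → hdeg w T ≤ K * τ ^ (T.card - 1) * hdeg w ∅ / N

def Indep (w : Finset ι → ℝ) (I : Finset ι) : Prop := ∀ e, w e ≠ 0 → ¬ e ⊆ I

def Cons {α : Type*} (φ : Finset ι → Finset ι × α) : Prop :=
  ∀ I, (φ I).1 ⊆ I ∧ ∀ J, (φ I).1 ⊆ J → J ⊆ I → φ J = φ I

lemma hdeg_nonneg {w : Finset ι → ℝ} (h : ∀ e, 0 ≤ w e) (T : Finset ι) : 0 ≤ hdeg w T :=
  Finset.sum_nonneg fun e _ => by split_ifs; exacts [h e, le_rfl]

lemma hdeg_empty (w : Finset ι → ℝ) : hdeg w ∅ = ∑ e, w e := by simp [hdeg]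

lemma hdeg_add (w w' : Finset ι → ℝ) (T : Finset ι) :
    hdeg (w + w') T = hdeg w T + hdeg w' T := by
  unfold hdeg
  rw [← Finset.sum_add_distrib]
  refine Finset.sum_congr rfl fun e _ => ?_
  split_ifs <;> simp

lemma hdeg_mono {w w' : Finset ι → ℝ} (h : ∀ e, w e ≤ w' e) (T : Finset ι) :
    hdeg w T ≤ hdeg w' T :=
  Finset.sum_le_sum fun e _ => by split_ifs; exacts [h e, le_rfl]

lemma sum_insert_eq (v : ι) (F : Finset ι → ℝ) :
    ∑ e', (if v ∉ e' then F (insert v e') else 0) = ∑ e, if v ∈ e then F e else 0 := by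
  rw [← Finset.sum_filter, ← Finset.sum_filter]
  refine Finset.sum_nbij' (fun e => insert v e) (fun e => e.erase v) ?_ ?_ ?_ ?_ ?_
  · intro e _; simp
  · intro e _; simp
  · intro e he
    exact Finset.erase_insert (by simpa using he)
  · intro e he
    exact Finset.insert_erase (by simpa using he)
  · intro e _; rfl

lemma sum_hdeg_le {g : Finset ι → ℝ} {k : ℕ} (h : ∀ e, g e ≠ 0 → e.card = k) :
    ∑ T, hdeg g T = 2 ^ k * hdeg g ∅ := by
  rw [hdeg_empty]
  unfold hdeg
  rw [Finset.sum_comm, Finset.mul_sum]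
  refine Finset.sum_congr rfl fun e _ => ?_
  by_cases he : g e = 0
  · simp [he]
  · rw [← Finset.sum_filter, Finset.sum_const, nsmul_eq_mul]
    have : (univ.filter fun T : Finset ι => T ⊆ e) = e.powerset := by ext; simp
    rw [this, Finset.card_powerset, h e he]; simp

section step
variable (w : Finset ι → ℝ) (K τ N : ℝ) (b : ℕ)

def avail (g : Finset ι → ℝ) (e : Finset ι) : Prop :=
  ∀ T ⊆ e, T.Nonempty → hdeg g T < K * τ ^ T.card * hdeg w ∅ / N

open Classical in
noncomputable def adeg (g : Finset ι → ℝ) (v : ι) : ℝ :=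
  ∑ e, if v ∈ e then (if avail w K τ N g e then w e else 0) else 0

open Classical in
noncomputable def link (g : Finset ι → ℝ) (v : ι) : Finset ι → ℝ := fun e' =>
  if v ∉ e' then (if avail w K τ N g (insert v e') then w (insert v e') else 0) else 0

open Classical in
noncomputable def cstep (I : Finset ι) (v : ι) (st : Finset ι × Finset ι × (Finset ι → ℝ)) :
    Finset ι × Finset ι × (Finset ι → ℝ) :=
  if st.1.card < b ∧ hdeg w ∅ / (4 * N) ≤ adeg w K τ N st.2.2 v then
    (if v ∈ I then (insert v st.1, st.2.1, st.2.2 + link w K τ N st.2.2 v)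
      else (st.1, insert v st.2.1, st.2.2))
  else st

noncomputable def crun (I : Finset ι) : List ι → Finset ι × Finset ι × (Finset ι → ℝ)
  | [] => (∅, ∅, 0)
  | v :: l => cstep w K τ N b I v (crun I l)

lemma cstep_sub (I : Finset ι) (v : ι) (st : Finset ι × Finset ι × (Finset ι → ℝ)) :
    st.1 ⊆ (cstep w K τ N b I v st).1 := by
  unfold cstep
  split_ifs
  · exact Finset.subset_insert _ _
  · exact Subset.rfl
  · exact Subset.rfl

lemma crun_cons (I J : Finset ι) (hJ : J ⊆ I) :
    ∀ l : List ι, (crun w K τ N b I l).1 ⊆ J → crun w K τ N b J l = crun w K τ N b I l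
  | [], _ => rfl
  | v :: l, h => by
    have ih := crun_cons I J hJ l ((cstep_sub w K τ N b I v _).trans h)
    simp only [crun] at h ⊢
    rw [ih]
    unfold cstep at h ⊢
    by_cases hc : (crun w K τ N b I l).1.card < b ∧
        hdeg w ∅ / (4 * N) ≤ adeg w K τ N (crun w K τ N b I l).2.2 v
    · rw [if_pos hc] at h
      rw [if_pos hc, if_pos hc]
      by_cases hv : v ∈ I
      · rw [if_pos hv] at h
        rw [if_pos hv, if_pos (h (Finset.mem_insert_self _ _))]
      · rw [if_neg hv, if_neg fun h' => hv (hJ h')]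
    · rw [if_neg hc, if_neg hc]

variable {w K τ N b}

lemma link_nonneg (h : ∀ e, 0 ≤ w e) (g : Finset ι → ℝ) (v : ι) (e : Finset ι) :
    0 ≤ link w K τ N g v e := by
  unfold link; split_ifs <;> first | exact h _ | exact le_rfl

lemma link_ne {g : Finset ι → ℝ} {v : ι} {e : Finset ι} (h : link w K τ N g v e ≠ 0) :
    v ∉ e ∧ avail w K τ N g (insert v e) ∧ w (insert v e) ≠ 0 := by
  unfold link at h
  split_ifs at h with h1 h2
  · exact absurd rfl h
  · exact ⟨h1, h2, h⟩
  · exact absurd rfl h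

lemma link_total (g : Finset ι → ℝ) (v : ι) : hdeg (link w K τ N g v) ∅ = adeg w K τ N g v := by
  classical
  rw [hdeg_empty]
  exact sum_insert_eq v fun e => if avail w K τ N g e then w e else 0

lemma adeg_anti (h : ∀ e, 0 ≤ w e) {g g' : Finset ι → ℝ} (hg : ∀ e, g e ≤ g' e) (v : ι) :
    adeg w K τ N g' v ≤ adeg w K τ N g v := by
  refine Finset.sum_le_sum fun e _ => ?_
  by_cases hv : v ∈ e
  · simp only [if_pos hv]
    by_cases ha : avail w K τ N g' e
    · have ha' : avail w K τ N g e := fun T hT hne => (hdeg_mono hg T).trans_lt (ha T hT hne)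
      rw [if_pos ha, if_pos ha']
    · rw [if_neg ha]; split_ifs; exacts [h e, le_rfl]
  · simp only [if_neg hv, le_refl]

lemma adeg_le (h : ∀ e, 0 ≤ w e) (g : Finset ι → ℝ) (v : ι) :
    adeg w K τ N g v ≤ hdeg w {v} := by
  refine Finset.sum_le_sum fun e _ => ?_
  by_cases hv : v ∈ e
  · rw [if_pos hv, if_pos (Finset.singleton_subset_iff.2 hv)]
    split_ifs; exacts [le_rfl, h e]
  · rw [if_neg hv, if_neg fun h' => hv (Finset.singleton_subset_iff.1 h')]

lemma link_deg {k : ℕ} (h : Hyp w k K τ N) (hB : ∀ t : ℕ, 0 ≤ K * τ ^ t * hdeg w ∅ / N)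
    (g : Finset ι → ℝ) (v : ι) (T : Finset ι) :
    hdeg (link w K τ N g v) T ≤ K * τ ^ T.card * hdeg w ∅ / N := by
  by_cases hv : v ∈ T
  · refine le_trans (le_of_eq (Finset.sum_eq_zero fun e _ => ?_)) (hB _)
    split_ifs with hT
    · by_contra hne; exact (link_ne hne).1 (hT hv)
    · rfl
  · have h1 := h.deg (insert v T) (Finset.insert_nonempty _ _)
    rw [Finset.card_insert_of_notMem hv, Nat.add_sub_cancel] at h1
    refine le_trans ?_ h1
    have h2 : hdeg w (insert v T) = ∑ e, if v ∈ e then (if T ⊆ e then w e else 0) else 0 := by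
      refine Finset.sum_congr rfl fun e _ => ?_
      by_cases h1 : v ∈ e <;> by_cases h2 : T ⊆ e <;> simp [Finset.insert_subset_iff, h1, h2]
    rw [h2, ← sum_insert_eq]
    refine Finset.sum_le_sum fun e _ => ?_
    by_cases hT : T ⊆ e
    · rw [if_pos hT]
      unfold link
      by_cases hve : v ∉ e
      · rw [if_pos hve, if_pos hve, if_pos (hT.trans (Finset.subset_insert _ _))]
        split_ifs; exacts [le_rfl, h.nonneg _]
      · rw [if_neg hve, if_neg hve]
    · rw [if_neg hT]
      split_ifs <;> first | exact h.nonneg _ | exact le_rfl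

structure CInv (w : Finset ι → ℝ) (K τ N : ℝ) (b k : ℕ) (I : Finset ι) (l : List ι)
    (st : Finset ι × Finset ι × (Finset ι → ℝ)) : Prop where
  sub : st.1 ⊆ I
  disj : ∀ x ∈ st.2.1, x ∉ I
  nonneg : ∀ e, 0 ≤ st.2.2 e
  src : ∀ e, st.2.2 e ≠ 0 → ∃ v ∈ I, v ∉ e ∧ w (insert v e) ≠ 0
  total : st.1.card * (hdeg w ∅ / (4 * N)) ≤ hdeg st.2.2 ∅
  deg : ∀ T : Finset ι, T.Nonempty → hdeg st.2.2 T ≤ 2 * (K * τ ^ T.card * hdeg w ∅ / N)
  light : st.1.card < b → ∀ v ∈ l, v ∈ st.1 ∨ v ∈ st.2.1 ∨
    adeg w K τ N st.2.2 v < hdeg w ∅ / (4 * N)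
  card : st.1.card ≤ b
  supp : ∀ x, x ∈ st.1 ∨ x ∈ st.2.1 → 0 < hdeg w {x}

lemma crun_inv {k : ℕ} (h : Hyp w k K τ N) (hK : 0 < K) (hτ : 0 < τ) (hN : 0 < N) (I : Finset ι) :
    ∀ l : List ι, CInv w K τ N b k I l (crun w K τ N b I l) := by
  have hE := h.pos
  have hB : ∀ t : ℕ, 0 ≤ K * τ ^ t * hdeg w ∅ / N := fun t => by positivity
  intro l
  induction l with
  | nil =>
    refine ⟨by simp [crun], by simp [crun], by simp [crun], by simp [crun], by simp [crun, hdeg],
      fun T _ => ?_, by simp, by simp [crun], by simp [crun]⟩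
    have := hB T.card
    simp only [crun, hdeg, Pi.zero_apply, ite_self, Finset.sum_const_zero] at this ⊢
    linarith
  | cons v l ih =>
    simp only [crun]
    generalize crun w K τ N b I l = st at ih
    obtain ⟨S, W, g⟩ := st
    unfold cstep
    by_cases hc : S.card < b ∧ hdeg w ∅ / (4 * N) ≤ adeg w K τ N g v
    · have hvs : 0 < hdeg w {v} :=
        lt_of_lt_of_le (by positivity) (hc.2.trans (adeg_le h.nonneg g v))
      rw [if_pos hc]
      by_cases hv : v ∈ I
      · rw [if_pos hv]
        have hle : ∀ e, g e ≤ (g + link w K τ N g v) e := fun e => by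
          have := link_nonneg (K := K) (τ := τ) (N := N) h.nonneg g v e
          simp only [Pi.add_apply]; linarith
        refine ⟨Finset.insert_subset hv ih.sub, ih.disj, fun e => (ih.nonneg e).trans (hle e),
          fun e he => ?_, ?_, fun T hT => ?_, fun hb u hu => ?_, ?_, fun x hx => ?_⟩
        · by_cases h1 : g e = 0
          · have : link w K τ N g v e ≠ 0 := by simpa [h1] using he
            exact ⟨v, hv, (link_ne this).1, (link_ne this).2.2⟩
          · exact ih.src e h1
        · simp only [hdeg_add, link_total]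
          have h1 := ih.total
          have h2 : ((insert v S).card : ℝ) ≤ S.card + 1 := by
            exact_mod_cast Finset.card_insert_le _ _
          have h3 : (0 : ℝ) ≤ hdeg w ∅ / (4 * N) := by positivity
          simp only at h1
          nlinarith [hc.2]
        · simp only [hdeg_add]
          by_cases h1 : hdeg g T < K * τ ^ T.card * hdeg w ∅ / N
          · linarith [link_deg h hB g v T]
          · have : hdeg (link w K τ N g v) T = 0 := by
              refine Finset.sum_eq_zero fun e _ => ?_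
              split_ifs with hTe
              · by_contra hne
                exact h1 ((link_ne hne).2.1 T (hTe.trans (Finset.subset_insert _ _)) hT)
              · rfl
            rw [this, add_zero]; exact ih.deg T hT
        · rcases List.mem_cons.1 hu with rfl | hu
          · exact Or.inl (Finset.mem_insert_self _ _)
          · rcases ih.light hc.1 u hu with h1 | h1 | h1
            · exact Or.inl (Finset.mem_insert_of_mem h1)
            · exact Or.inr (Or.inl h1)
            · exact Or.inr (Or.inr ((adeg_anti h.nonneg hle u).trans_lt h1))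
        · exact (Finset.card_insert_le _ _).trans hc.1
        · rcases hx with hx | hx
          · rcases Finset.mem_insert.1 hx with rfl | hx
            · exact hvs
            · exact ih.supp x (Or.inl hx)
          · exact ih.supp x (Or.inr hx)
      · rw [if_neg hv]
        refine ⟨ih.sub, fun x hx => ?_, ih.nonneg, ih.src, ih.total, ih.deg, fun hb u hu => ?_,
          ih.card, fun x hx => ?_⟩
        · rcases Finset.mem_insert.1 hx with rfl | hx
          · exact hv
          · exact ih.disj x hx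
        · rcases List.mem_cons.1 hu with rfl | hu
          · exact Or.inr (Or.inl (Finset.mem_insert_self _ _))
          · rcases ih.light hc.1 u hu with h1 | h1 | h1
            · exact Or.inl h1
            · exact Or.inr (Or.inl (Finset.mem_insert_of_mem h1))
            · exact Or.inr (Or.inr h1)
        · rcases hx with hx | hx
          · exact ih.supp x (Or.inl hx)
          · rcases Finset.mem_insert.1 hx with rfl | hx
            · exact hvs
            · exact ih.supp x (Or.inr hx)
    · rw [if_neg hc]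
      refine ⟨ih.sub, ih.disj, ih.nonneg, ih.src, ih.total, ih.deg, fun hb u hu => ?_,
        ih.card, ih.supp⟩
      rcases List.mem_cons.1 hu with rfl | hu
      · exact Or.inr (Or.inr (not_le.1 fun h' => hc ⟨hb, h'⟩))
      · exact ih.light hb u hu

lemma cinv_final {k : ℕ} (h : Hyp w (k + 1) K τ N) (hK : 0 < K) (hτ : 0 < τ) (hN : 0 < N)
    (hι : (Fintype.card ι : ℝ) ≤ N) (hb : τ * N ≤ b) {I : Finset ι} {l : List ι}
    (hl : ∀ v, v ∈ l) {st : Finset ι × Finset ι × (Finset ι → ℝ)}
    (hi : CInv w K τ N b (k + 1) I l st) (hs : hdeg st.2.2 ∅ < τ * hdeg w ∅ / 2 ^ (k + 2)) :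
    N / (2 * K) ≤ ((st.1 ∪ st.2.1).card : ℝ) := by
  classical
  obtain ⟨S, W, g⟩ := st
  have hE := h.pos
  set E := hdeg w ∅ with hEdef
  have hg : ∀ e, g e ≠ 0 → e.card = k := by
    intro e he
    obtain ⟨v, _, h1, h2⟩ := hi.src e he
    have := h.unif _ h2
    rw [Finset.card_insert_of_notMem h1] at this
    omega
  have h4 : (4 : ℝ) ≤ 2 ^ (k + 2) := by
    calc (4 : ℝ) = 2 ^ 2 := by norm_num
      _ ≤ _ := pow_le_pow_right₀ (by norm_num) (by omega)
  have hSb : S.card < b := by
    by_contra hcon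
    have h1 : (b : ℝ) ≤ S.card := by exact_mod_cast not_lt.1 hcon
    have h2 := hi.total
    simp only at h2 hs
    have h3 : τ * E / 2 ^ (k + 2) ≤ τ * E / 4 :=
      div_le_div_of_nonneg_left (by positivity) (by norm_num) h4
    have h5 : τ * E / 4 = τ * N * (E / (4 * N)) := by field_simp
    have h6 : τ * N * (E / (4 * N)) ≤ S.card * (E / (4 * N)) :=
      mul_le_mul_of_nonneg_right (hb.trans h1) (by positivity)
    linarith
  -- pointwise decomposition of the weight
  have hpt : ∀ e, w e ≤ (∑ v ∈ S ∪ W, if {v} ⊆ e then w e else 0) +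
      (∑ v ∈ univ \ (S ∪ W), if v ∈ e then (if avail w K τ N g e then w e else 0) else 0) +
      ∑ T ∈ univ.filter (fun T : Finset ι => T.Nonempty ∧ K * τ ^ T.card * E / N ≤ hdeg g T),
        if T ⊆ e then w e else 0 := by
    intro e
    have n1 : 0 ≤ ∑ v ∈ S ∪ W, if {v} ⊆ e then w e else 0 :=
      Finset.sum_nonneg fun _ _ => by split_ifs; exacts [h.nonneg e, le_rfl]
    have n2 : 0 ≤ ∑ v ∈ univ \ (S ∪ W),
        if v ∈ e then (if avail w K τ N g e then w e else 0) else 0 :=
      Finset.sum_nonneg fun _ _ => by split_ifs; exacts [h.nonneg e, le_rfl, le_rfl]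
    have n3 : 0 ≤ ∑ T ∈ univ.filter
        (fun T : Finset ι => T.Nonempty ∧ K * τ ^ T.card * E / N ≤ hdeg g T),
        if T ⊆ e then w e else 0 :=
      Finset.sum_nonneg fun _ _ => by split_ifs; exacts [h.nonneg e, le_rfl]
    by_cases hw : w e = 0
    · linarith
    by_cases ha : avail w K τ N g e
    · obtain ⟨v, hv⟩ : e.Nonempty := by rw [← Finset.card_pos, h.unif e hw]; omega
      by_cases hvs : v ∈ S ∪ W
      · have := Finset.single_le_sum (f := fun v => if {v} ⊆ e then w e else 0)
          (fun _ _ => by split_ifs; exacts [h.nonneg e, le_rfl]) hvs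
        simp only [if_pos (Finset.singleton_subset_iff.2 hv)] at this
        linarith
      · have := Finset.single_le_sum (s := univ \ (S ∪ W))
          (f := fun v => if v ∈ e then (if avail w K τ N g e then w e else 0) else 0)
          (fun _ _ => by split_ifs <;> first | exact h.nonneg e | exact le_rfl)
          (Finset.mem_sdiff.2 ⟨Finset.mem_univ v, hvs⟩)
        simp only [if_pos hv, if_pos ha] at this n2 ⊢
        linarith
    · unfold avail at ha
      push Not at ha
      obtain ⟨T, hT, hne, hle⟩ := ha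
      have := Finset.single_le_sum (s := univ.filter
        (fun T : Finset ι => T.Nonempty ∧ K * τ ^ T.card * E / N ≤ hdeg g T))
        (f := fun T => if T ⊆ e then w e else 0)
        (fun _ _ => by split_ifs; exacts [h.nonneg e, le_rfl])
        (Finset.mem_filter.2 ⟨Finset.mem_univ T, hne, hle⟩)
      simp only [if_pos hT] at this
      linarith
  have hsum := Finset.sum_le_sum fun e (_ : e ∈ univ) => hpt e
  rw [Finset.sum_add_distrib, Finset.sum_add_distrib, ← hdeg_empty, Finset.sum_comm,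
    Finset.sum_comm (s := univ) (t := univ \ (S ∪ W)), Finset.sum_comm (s := univ)
      (t := univ.filter _)] at hsum
  have b1 : ∑ v ∈ S ∪ W, ∑ e : Finset ι, (if {v} ⊆ e then w e else 0) ≤
      (S ∪ W).card * (K * E / N) := by
    rw [← nsmul_eq_mul]
    refine Finset.sum_le_card_nsmul _ _ _ fun v _ => ?_
    have := h.deg {v} (Finset.singleton_nonempty v)
    rw [Finset.card_singleton, Nat.sub_self, pow_zero, mul_one] at this
    exact this
  have b2 : ∑ v ∈ univ \ (S ∪ W), ∑ e,
      (if v ∈ e then (if avail w K τ N g e then w e else 0) else 0) ≤ E / 4 := by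
    have : ∑ v ∈ univ \ (S ∪ W), ∑ e,
        (if v ∈ e then (if avail w K τ N g e then w e else 0) else 0) ≤
        (univ \ (S ∪ W)).card * (E / (4 * N)) := by
      rw [← nsmul_eq_mul]
      refine Finset.sum_le_card_nsmul _ _ _ fun v hv => ?_
      have hv' := (Finset.mem_sdiff.1 hv).2
      rcases hi.light hSb v (hl v) with h1 | h1 | h1
      · exact absurd (Finset.mem_union_left _ h1) hv'
      · exact absurd (Finset.mem_union_right _ h1) hv'
      · exact h1.le
    refine this.trans ?_
    have h1 : ((univ \ (S ∪ W)).card : ℝ) ≤ N :=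
      le_trans (by exact_mod_cast Finset.card_le_univ _) hι
    calc _ ≤ N * (E / (4 * N)) := mul_le_mul_of_nonneg_right h1 (by positivity)
      _ = E / 4 := by field_simp
  have b3 : ∑ T ∈ univ.filter (fun T : Finset ι => T.Nonempty ∧ K * τ ^ T.card * E / N ≤ hdeg g T),
      ∑ e, (if T ⊆ e then w e else 0) ≤ E / 4 := by
    have h1 : ∀ T ∈ univ.filter
        (fun T : Finset ι => T.Nonempty ∧ K * τ ^ T.card * E / N ≤ hdeg g T),
        ∑ e, (if T ⊆ e then w e else 0) ≤ hdeg g T / τ := by
      intro T hT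
      obtain ⟨_, hne, hle⟩ := Finset.mem_filter.1 hT
      refine (h.deg T hne).trans ?_
      rw [le_div_iff₀ hτ]
      refine le_trans (le_of_eq ?_) hle
      obtain ⟨j, hj⟩ : ∃ j, T.card = j + 1 := ⟨T.card - 1, by have := Finset.card_pos.2 hne; omega⟩
      rw [hj, Nat.add_sub_cancel]; ring
    refine (Finset.sum_le_sum h1).trans ?_
    refine (Finset.sum_le_sum_of_subset_of_nonneg (Finset.filter_subset _ _) fun T _ _ =>
      div_nonneg (hdeg_nonneg hi.nonneg T) hτ.le).trans ?_
    rw [← Finset.sum_div, sum_hdeg_le hg, div_le_iff₀ hτ]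
    simp only at hs
    rw [lt_div_iff₀ (by positivity)] at hs
    have : (2 : ℝ) ^ (k + 2) = 4 * 2 ^ k := by ring
    rw [this] at hs
    nlinarith
  have h5 : E / 2 ≤ (S ∪ W).card * (K * E / N) := by linarith
  rw [div_le_iff₀ (by positivity)]
  have h6 : (S ∪ W).card * (K * E / N) = E / 2 * (((S ∪ W).card : ℝ) * (2 * K) / N) := by ring
  rw [h6] at h5
  have h7 : 1 ≤ ((S ∪ W).card : ℝ) * (2 * K) / N := by
    by_contra hcon
    push Not at hcon
    nlinarith
  rwa [le_div_iff₀ hN, one_mul] at h7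

end step

/-- the constant in the container theorem -/
def cc : ℕ → ℝ
  | 0 => 2
  | k + 1 => 2 ^ (k + 3) * cc k

lemma two_le_cc : ∀ k, 2 ≤ cc k
  | 0 => le_rfl
  | k + 1 => by
    have := two_le_cc k
    have h2 : (1 : ℝ) ≤ 2 ^ (k + 3) := one_le_pow₀ (by norm_num)
    simp only [cc]; nlinarith

lemma cc_mono : Monotone cc := monotone_nat_of_le_succ fun k => by
  have := two_le_cc k
  have h2 : (1 : ℝ) ≤ 2 ^ (k + 3) := one_le_pow₀ (by norm_num)
  simp only [cc]; nlinarith

theorem container {τ N : ℝ} (hτ : 0 < τ) (hN : 0 < N) (hι : (Fintype.card ι : ℝ) ≤ N) {b : ℕ}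
    (hb : τ * N ≤ b) : ∀ (k : ℕ) (w : Finset ι → ℝ) (K : ℝ), 0 < K → Hyp w k K τ N →
    ∃ φ : Finset ι → Finset ι × Finset ι, Cons φ ∧ ∀ I, Indep w I → (φ I).1.card ≤ k * b ∧
      (∀ x ∈ (φ I).2, x ∈ I → x ∈ (φ I).1) ∧ (∀ x ∈ (φ I).2, 0 < hdeg w {x}) ∧
      N / (cc k * K) ≤ (φ I).2.card := by
  classical
  intro k
  induction k with
  | zero =>
    intro w K _ h
    refine ⟨fun _ => (∅, ∅), fun I => ⟨by simp, fun _ _ _ => rfl⟩, fun I hI => ?_⟩
    exfalso
    have := h.pos
    rw [hdeg_empty] at this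
    obtain ⟨e, _, he⟩ := Finset.exists_ne_zero_of_sum_ne_zero this.ne'
    have h0 := Finset.card_eq_zero.1 (h.unif e he)
    exact hI e he (by rw [h0]; exact Finset.empty_subset _)
  | succ k ih =>
    intro w K hK h
    have hE := h.pos
    have hK' : 0 < 2 ^ (k + 3) * K := by positivity
    have : ∀ g : Finset ι → ℝ, ∃ φ : Finset ι → Finset ι × Finset ι, Cons φ ∧
        (Hyp g k (2 ^ (k + 3) * K) τ N → ∀ I, Indep g I → (φ I).1.card ≤ k * b ∧
        (∀ x ∈ (φ I).2, x ∈ I → x ∈ (φ I).1) ∧ (∀ x ∈ (φ I).2, 0 < hdeg g {x}) ∧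
        N / (cc k * (2 ^ (k + 3) * K)) ≤ (φ I).2.card) := by
      intro g
      by_cases hg : Hyp g k (2 ^ (k + 3) * K) τ N
      · obtain ⟨φ, h1, h2⟩ := ih g _ hK' hg
        exact ⟨φ, h1, fun _ => h2⟩
      · exact ⟨fun _ => (∅, ∅), fun I => ⟨by simp, fun _ _ _ => rfl⟩, fun h => absurd h hg⟩
    choose Φ hΦ1 hΦ2 using this
    let l := (univ : Finset ι).toList
    let r := fun I => crun w K τ N b I l
    have hinv : ∀ I, CInv w K τ N b (k + 1) I l (r I) := fun I => crun_inv h hK hτ hN I l
    refine ⟨fun I => if hdeg (r I).2.2 ∅ < τ * hdeg w ∅ / 2 ^ (k + 2) then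
      ((r I).1, (r I).1 ∪ (r I).2.1) else
      ((r I).1 ∪ (Φ (r I).2.2 I).1, (Φ (r I).2.2 I).2), fun I => ?_, fun I hI => ?_⟩
    · by_cases hc : hdeg (r I).2.2 ∅ < τ * hdeg w ∅ / 2 ^ (k + 2)
      · simp only [if_pos hc]
        refine ⟨(hinv I).sub, fun J h1 h2 => ?_⟩
        have : r J = r I := crun_cons w K τ N b I J h2 l h1
        rw [this, if_pos hc]
      · simp only [if_neg hc]
        refine ⟨Finset.union_subset (hinv I).sub (hΦ1 _ I).1, fun J h1 h2 => ?_⟩
        have : r J = r I := crun_cons w K τ N b I J h2 l (Finset.subset_union_left.trans h1)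
        rw [this, if_neg hc, (hΦ1 _ I).2 J (Finset.subset_union_right.trans h1) h2]
    · have hi := hinv I
      by_cases hc : hdeg (r I).2.2 ∅ < τ * hdeg w ∅ / 2 ^ (k + 2)
      · simp only [if_pos hc]
        refine ⟨hi.card.trans (by nlinarith), fun x hx hxI => ?_,
          fun x hx => hi.supp x (Finset.mem_union.1 hx), ?_⟩
        · exact (Finset.mem_union.1 hx).resolve_right fun h' => hi.disj x h' hxI
        · refine le_trans ?_ (cinv_final h hK hτ hN hι hb (fun v => by simp [l]) hi hc)
          exact div_le_div_of_nonneg_left hN.le (by positivity)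
            (mul_le_mul_of_nonneg_right (two_le_cc _) hK.le)
      · simp only [if_neg hc]
        push Not at hc
        have hpos : 0 < τ * hdeg w ∅ / 2 ^ (k + 2) := by positivity
        have hg : Hyp (r I).2.2 k (2 ^ (k + 3) * K) τ N := by
          refine ⟨hi.nonneg, fun e he => ?_, hpos.trans_le hc, fun T hT => (hi.deg T hT).trans ?_⟩
          · obtain ⟨v, _, h1, h2⟩ := hi.src e he
            have := h.unif _ h2
            rw [Finset.card_insert_of_notMem h1] at this
            omega
          · obtain ⟨j, hj⟩ : ∃ j, T.card = j + 1 :=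
              ⟨T.card - 1, by have := Finset.card_pos.2 hT; omega⟩
            rw [hj, Nat.add_sub_cancel]
            calc _ = 2 ^ (k + 3) * K * τ ^ j * (τ * hdeg w ∅ / 2 ^ (k + 2)) / N := by
                  field_simp; ring
              _ ≤ _ := by gcongr
        have hI' : Indep (r I).2.2 I := by
          intro e he hsub
          obtain ⟨v, hv, _, h2⟩ := hi.src e he
          exact hI _ h2 (Finset.insert_subset hv hsub)
        obtain ⟨a1, a2, a3, a4⟩ := hΦ2 _ hg I hI'
        refine ⟨(Finset.card_union_le _ _).trans ?_,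
          fun x hx hxI => Finset.mem_union_right _ (a2 x hx hxI), fun x hx => ?_, ?_⟩
        · have := hi.card; nlinarith
        · obtain ⟨e, _, he⟩ := Finset.exists_ne_zero_of_sum_ne_zero (a3 x hx).ne'
          have h1 : {x} ⊆ e := by by_contra h'; exact he (if_neg h')
          rw [if_pos h1] at he
          obtain ⟨v, _, _, h2⟩ := hi.src e he
          have h3 := Finset.single_le_sum (f := fun e => if {x} ⊆ e then w e else 0)
            (fun e _ => by split_ifs; exacts [h.nonneg e, le_rfl]) (Finset.mem_univ (insert v e))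
          simp only [if_pos (h1.trans (Finset.subset_insert _ _))] at h3
          exact lt_of_lt_of_le (lt_of_le_of_ne (h.nonneg _) (Ne.symm h2)) h3
        · refine le_trans (le_of_eq ?_) a4
          simp only [cc]; congr 1; ring

theorem container_iter {τ N K : ℝ} (hτ : 0 < τ) (hN : 0 < N) (hK : 0 < K)
    (hι : (Fintype.card ι : ℝ) ≤ N) {b k0 : ℕ} (hb : τ * N ≤ b) (Good 𝓘 : Finset ι → Prop)
    (D0 : Finset ι)
    (hsup : ∀ D ⊆ D0, Good D → ∃ k ≤ k0, ∃ w, Hyp w k K τ N ∧ (∀ e, w e ≠ 0 → e ⊆ D) ∧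
      ∀ I, 𝓘 I → Indep w I) (r : ℕ) (hr : cc k0 * K < r) :
    ∃ ψ : Finset ι → Finset ι, ∀ I, 𝓘 I → I ⊆ D0 → ∃ T ⊆ I, T.card ≤ k0 * b * r ∧
      ψ T ⊆ D0 ∧ ¬ Good (ψ T) ∧ I ⊆ T ∪ ψ T := by
  classical
  have hc0 : 0 < cc k0 := lt_of_lt_of_le two_pos (two_le_cc _)
  set δ := N / (cc k0 * K) with hδ
  have hδ0 : 0 < δ := by positivity
  have key : ∀ r : ℕ, ∀ D ⊆ D0, (D.card : ℝ) < r * δ →
      ∃ φ : Finset ι → Finset ι × Finset ι, Cons φ ∧ ∀ I, 𝓘 I → (φ I).1.card ≤ k0 * b * r ∧
        (φ I).2 ⊆ D0 ∧ ¬ Good (φ I).2 ∧ ∀ x ∈ I, x ∈ D → x ∈ (φ I).1 ∪ (φ I).2 := by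
    intro r
    induction r with
    | zero => intro D _ h; simp at h; exact absurd h (not_lt.2 (by positivity))
    | succ r ih =>
      intro D hD hcard
      by_cases hG : Good D
      · obtain ⟨k, hk, w, hw, hsub, hind⟩ := hsup D hD hG
        obtain ⟨φ, hφ1, hφ2⟩ := container hτ hN hι hb k w K hK hw
        have : ∀ D1 : Finset ι, ∃ φ : Finset ι → Finset ι × Finset ι, Cons φ ∧
            (((D \ D1).card : ℝ) < r * δ → ∀ I, 𝓘 I → (φ I).1.card ≤ k0 * b * r ∧
            (φ I).2 ⊆ D0 ∧ ¬ Good (φ I).2 ∧ ∀ x ∈ I, x ∈ D \ D1 → x ∈ (φ I).1 ∪ (φ I).2) := by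
          intro D1
          by_cases h : ((D \ D1).card : ℝ) < r * δ
          · obtain ⟨φ, h1, h2⟩ := ih _ (Finset.sdiff_subset.trans hD) h
            exact ⟨φ, h1, fun _ => h2⟩
          · exact ⟨fun _ => (∅, ∅), fun I => ⟨by simp, fun _ _ _ => rfl⟩, fun h' => absurd h' h⟩
        choose Φ hΦ1 hΦ2 using this
        refine ⟨fun I => ((φ I).1 ∪ (Φ (φ I).2 I).1, (Φ (φ I).2 I).2), fun I =>
          ⟨Finset.union_subset (hφ1 I).1 (hΦ1 _ I).1, fun J h1 h2 => ?_⟩, fun I hI => ?_⟩
        · have : φ J = φ I := (hφ1 I).2 J (Finset.subset_union_left.trans h1) h2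
          simp only [this]
          rw [(hΦ1 _ I).2 J (Finset.subset_union_right.trans h1) h2]
        · obtain ⟨a1, a2, a3, a4⟩ := hφ2 I (hind I hI)
          have hsubD : (φ I).2 ⊆ D := by
            intro x hx
            obtain ⟨e, _, he⟩ := Finset.exists_ne_zero_of_sum_ne_zero (a3 x hx).ne'
            have h1 : {x} ⊆ e := by by_contra h'; exact he (if_neg h')
            rw [if_pos h1] at he
            exact hsub e he (Finset.singleton_subset_iff.1 h1)
          have hlt : ((D \ (φ I).2).card : ℝ) < r * δ := by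
            rw [Finset.card_sdiff_of_subset hsubD, Nat.cast_sub (Finset.card_le_card hsubD)]
            have : δ ≤ N / (cc k * K) := div_le_div_of_nonneg_left hN.le
              (mul_pos (lt_of_lt_of_le two_pos (two_le_cc _)) hK)
              (mul_le_mul_of_nonneg_right (cc_mono hk) hK.le)
            push_cast at hcard
            linarith
          obtain ⟨b1, b2, b3, b4⟩ := hΦ2 _ hlt I hI
          refine ⟨(Finset.card_union_le _ _).trans ?_, b2, b3, fun x hx hxD => ?_⟩
          · have : k * b ≤ k0 * b := Nat.mul_le_mul_right _ hk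
            nlinarith
          · by_cases h : x ∈ (φ I).2
            · exact Finset.mem_union_left _ (Finset.mem_union_left _ (a2 x h hx))
            · rcases Finset.mem_union.1 (b4 x hx (Finset.mem_sdiff.2 ⟨hxD, h⟩)) with h' | h'
              · exact Finset.mem_union_left _ (Finset.mem_union_right _ h')
              · exact Finset.mem_union_right _ h'
      · exact ⟨fun _ => (∅, D), fun I => ⟨by simp, fun _ _ _ => rfl⟩, fun I _ =>
          ⟨by simp, hD, hG, fun x _ hx => by simpa using hx⟩⟩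
  obtain ⟨φ, h1, h2⟩ := key r D0 Subset.rfl (by
    calc (D0.card : ℝ) ≤ N := le_trans (by exact_mod_cast Finset.card_le_univ _) hι
      _ = cc k0 * K * δ := by rw [hδ]; field_simp
      _ < _ := by gcongr)
  refine ⟨fun T => (φ T).2, fun I hI hID => ?_⟩
  obtain ⟨a1, a2, a3, a4⟩ := h2 I hI
  have : φ (φ I).1 = φ I := (h1 I).2 _ Subset.rfl (h1 I).1
  refine ⟨(φ I).1, (h1 I).1, a1, ?_, ?_, fun x hx => ?_⟩
  · simpa only [this] using a2
  · simpa only [this] using a3
  · simpa only [this] using a4 x hx (hID hx)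

end Pool.Agent.Lib.MP_46505f_co
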