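import Pool.Agent.Lib.MP_46505f_co.Blow
import Pool.Agent.Lib.MP_46505f_co.Pb

set_option autoImplicit false
set_option linter.unusedSectionVars false
open Finset
open Pool.Agent.Lib.MP_eaf82e_pr

namespace Pool.Agent.Lib.MP_46505f_co

/- Typical properties of the random graph and the transfer lemma. -/

variable {V : Type*} [Fintype V] [DecidableEq V]

def btw (U W : Finset V) : Finset (Sym2 V) := (U ×ˢ W).image fun x => s(x.1, x.2)

lemma mem_btw {U W : Finset V} {e : Sym2 V} : e ∈ btw U W ↔ ∃ u ∈ U, ∃ w ∈ W, e = s(u, w) := by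
  simp only [btw, Finset.mem_image, Finset.mem_product, Prod.exists]
  exact ⟨fun ⟨u, w, h, e⟩ => ⟨u, h.1, w, h.2, e.symm⟩, fun ⟨u, a, w, b, e⟩ => ⟨u, w, ⟨a, b⟩, e.symm⟩⟩

lemma card_btw (U W : Finset V) : ((btw U W).card : ℝ) ≤ U.card * W.card := by
  exact_mod_cast Finset.card_image_le.trans (Finset.card_product U W).le

lemma sum_dg_sigma (G : SimpleGraph V) (U W : Finset V) :
    ∑ u ∈ U, (dg G u W : ℝ) = (U.sigma fun u => nb G u W).card := by
  rw [Finset.card_sigma, Nat.cast_sum]; rfl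

lemma sigma_maps (I : Finset (Sym2 V)) (U W : Finset V) :
    ∀ σ ∈ U.sigma fun u => nb (gr I) u W, s(σ.1, σ.2) ∈ btw U W ∩ I := fun σ hσ => by
  rw [Finset.mem_sigma, mem_nb] at hσ
  exact Finset.mem_inter.2 ⟨mem_btw.2 ⟨_, hσ.1, _, hσ.2.1, rfl⟩, (gr_adj.1 hσ.2.2).1⟩

lemma sum_dg_le_two (I : Finset (Sym2 V)) (U W : Finset V) :
    ∑ u ∈ U, (dg (gr I) u W : ℝ) ≤ 2 * (btw U W ∩ I).card := by
  rw [sum_dg_sigma]
  norm_cast
  refine Finset.card_le_mul_card_image_of_maps_to (sigma_maps I U W) 2 fun e _ => ?_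
  induction e using Sym2.ind with
  | h a b =>
    refine le_trans (Finset.card_le_card (t := {⟨a, b⟩, ⟨b, a⟩}) fun ⟨x, y⟩ hσ => ?_)
      Finset.card_le_two
    rcases Sym2.eq_iff.1 (Finset.mem_filter.1 hσ).2 with ⟨rfl, rfl⟩ | ⟨rfl, rfl⟩ <;> simp

lemma sum_dg_eq {U W : Finset V} (h : Disjoint U W) (I : Finset (Sym2 V)) :
    ∑ u ∈ U, (dg (gr I) u W : ℝ) = (btw U W ∩ I).card := by
  rw [sum_dg_sigma, Nat.cast_inj]
  refine Finset.card_bij (fun σ _ => s(σ.1, σ.2)) (sigma_maps I U W) ?_ fun e he => ?_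
  · rintro ⟨x, y⟩ hx ⟨x', y'⟩ hy e
    rw [Finset.mem_sigma, mem_nb] at hx hy
    rcases Sym2.eq_iff.1 e with ⟨rfl, rfl⟩ | ⟨rfl, rfl⟩
    · rfl
    · exact absurd hy.2.1 (Finset.disjoint_left.1 h hx.1)
  · rw [Finset.mem_inter, mem_btw] at he
    obtain ⟨⟨u, hu, w, hw, rfl⟩, he⟩ := he
    exact ⟨⟨u, w⟩, Finset.mem_sigma.2 ⟨hu, mem_nb.2 ⟨hw, gr_adj.2
      ⟨he, fun e : u = w => Finset.disjoint_left.1 h hu (e ▸ hw)⟩⟩⟩, rfl⟩

lemma card_sym2_le : (Fintype.card (Sym2 V) : ℝ) ≤ (Fintype.card V : ℝ) ^ 2 := by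
  have := card_btw (univ : Finset V) univ
  rw [Finset.card_univ, ← sq] at this
  refine le_trans (Nat.cast_le.2 (Finset.card_le_card fun e _ => ?_)) this
  induction e using Sym2.ind with
  | h a b => exact mem_btw.2 ⟨a, mem_univ _, b, mem_univ _, rfl⟩

lemma sum_pow_card {κ : Type*} (s : Finset κ) {y : ℝ} (hy : 0 ≤ y) :
    ∑ S ∈ s.powerset, y ^ S.card ≤ Real.exp (s.card * y) := by
  classical
  have := Finset.prod_one_add (f := fun _ : κ => y) s
  simp only [Finset.prod_const] at this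
  rw [← this, Real.exp_nat_mul]
  gcongr
  linarith [Real.add_one_le_exp y]

lemma Pr_union_sets {ι κ : Type*} [Fintype ι] [DecidableEq ι] [Fintype κ] [DecidableEq κ]
    {q : ι → ℝ} (hq : IsP q) (E : Finset κ → (ι → Bool) → Prop) {y : ℝ} (hy : 0 ≤ y)
    (h : ∀ S : Finset κ, S.Nonempty → Pr q (E S) ≤ y ^ S.card) :
    Pr q (fun ω => ∃ S : Finset κ, S.Nonempty ∧ E S ω) ≤ Real.exp (Fintype.card κ * y) - 1 := by
  refine (Pr_mono hq (F := fun ω => ∃ S ∈ (univ : Finset κ).powerset.erase ∅, E S ω)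
    fun ω ⟨S, a1, a2⟩ => ⟨S, by simpa using a1.ne_empty, a2⟩).trans
    ((Pr_exists_le hq _ _).trans ?_)
  have := sum_pow_card (univ : Finset κ) hy
  rw [← Finset.add_sum_erase _ _ (Finset.empty_mem_powerset _), Finset.card_univ] at this
  refine (Finset.sum_le_sum fun S hS => h S
    (Finset.nonempty_iff_ne_empty.2 (Finset.mem_erase.1 hS).1)).trans ?_
  simp only [Finset.card_empty, pow_zero] at this
  linarith

def Xp (G : SimpleGraph V) (p l : ℝ) : Prop := ∀ U W : Finset V,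
  ∑ x ∈ U, (dg G x W : ℝ) ≤ 4 * p * U.card * W.card + 4 * (U.card + W.card) * l

lemma Xp.mono {G G' : SimpleGraph V} {p l : ℝ} (h : Xp G p l) (hG : G' ≤ G) : Xp G' p l :=
  fun U W => le_trans (Finset.sum_le_sum fun x _ => Nat.cast_le.2 (dg_mono hG x Subset.rfl)) (h U W)

variable {p : ℝ}

lemma Pr_Xp (h0 : 0 ≤ p) (h1 : p ≤ 1) (l : ℝ) :
    Pr (fun _ => p) (fun ω : Sym2 V → Bool => ¬ Xp (gr (rs ω)) p l) ≤
      Real.exp (2 * Fintype.card V * Real.exp (-(2 * l))) - 1 := by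
  have := Pr_union_sets (isP_const (ι := Sym2 V) h0 h1) (fun (S : Finset (V ⊕ V)) ω =>
    2 * (p * (S.toLeft.card * S.toRight.card)) + 2 * l * S.card ≤
      (btw S.toLeft S.toRight ∩ rs ω).card) (Real.exp_pos (-(2 * l))).le fun S _ => by
    refine (Pr_up h0 h1 _ (card_btw _ _) zero_le_one _).trans ?_
    rw [← Real.exp_nat_mul, Real.exp_le_exp]
    have : 0 ≤ p * (S.toLeft.card * S.toRight.card) := by positivity
    nlinarith [Real.exp_one_lt_d9]
  rw [Fintype.card_sum, Nat.cast_add, ← two_mul] at this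
  refine (Pr_mono (isP_const h0 h1) fun ω h => ?_).trans this
  unfold Xp at h
  push Not at h
  obtain ⟨U, W, h⟩ := h
  have h2 := sum_dg_le_two (rs ω) U W
  refine ⟨U.disjSum W, ?_, ?_⟩
  · rw [Finset.nonempty_iff_ne_empty]
    intro e
    rw [Finset.disjSum_eq_empty] at e
    simp [e.1, e.2] at h
  · rw [Finset.toLeft_disjSum, Finset.toRight_disjSum, Finset.card_disjSum, Nat.cast_add]
    linarith

def Sp (G : SimpleGraph V) (x : ℝ) (C : ℕ) : Prop := ∀ U : Finset V, x * U.card ≤ 1 → Col G U C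

lemma Pr_Sp (h0 : 0 ≤ p) (h1 : p ≤ 1) {q : ℝ} (hq : 1 ≤ q) (C : ℕ) :
    Pr (fun _ => p) (fun ω : Sym2 V → Bool => ¬ Sp (gr (rs ω)) (q * p) C) ≤
      Real.exp (Fintype.card V * Real.exp (1 - C * Real.log q / 2)) - 1 := by
  refine (Pr_mono (isP_const h0 h1) fun ω h => ?_).trans (Pr_union_sets
    (isP_const (ι := Sym2 V) h0 h1) (fun (S : Finset V) ω => q * p * S.card ≤ 1 ∧
      C * S.card / 2 ≤ ((btw S S ∩ rs ω).card : ℝ)) (Real.exp_pos _).le fun S _ => ?_)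
  · by_contra hc
    push Not at hc
    refine h fun U hU => col_of_noCore U fun Q hQ hne => ?_
    by_contra hc'
    push Not at hc'
    have a1 := Finset.card_nsmul_le_sum _ _ _ hc'
    have a2 := sum_dg_le_two (rs ω) Q Q
    have a3 := hc Q hne (le_trans (by gcongr) hU)
    rw [nsmul_eq_mul] at a1
    linarith
  · by_cases hS : q * p * S.card ≤ 1
    · refine (Pr_mono (isP_const h0 h1) fun ω h => h.2).trans
        ((Pr_up h0 h1 _ (card_btw _ _) (Real.log_nonneg hq) _).trans ?_)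
      rw [← Real.exp_nat_mul, Real.exp_le_exp, Real.exp_log (by linarith)]
      have : 0 ≤ p * (S.card * S.card) := by positivity
      nlinarith [mul_le_mul_of_nonneg_right hS (S.card.cast_nonneg (α := ℝ))]
    · rw [Pr_false _ fun ω h => hS h.1]; positivity

lemma dg_eq_card {v : V} {W : Finset V} (h : v ∉ W) (I : Finset (Sym2 V)) :
    (dg (gr I) v W : ℝ) = (btw {v} W ∩ I).card := by
  rw [← sum_dg_eq (Finset.disjoint_singleton_left.2 h), Finset.sum_singleton]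

lemma dg_erase (G : SimpleGraph V) (v : V) (W : Finset V) : dg G v (W.erase v) = dg G v W := by
  unfold dg
  congr 1; ext u
  rw [mem_nb, mem_nb, Finset.mem_erase]
  exact ⟨fun h => ⟨h.1.2, h.2⟩, fun h => ⟨⟨h.2.ne.symm, h.1⟩, h.2⟩⟩

lemma Pr_max (h0 : 0 ≤ p) (h1 : p ≤ 1) {η : ℝ} (e0 : 0 ≤ η) (e1 : η ≤ 1) :
    Pr (fun _ => p) (fun ω : Sym2 V → Bool => ∃ v, (1 + η) * (p * Fintype.card V) ≤
      dg (gr (rs ω)) v univ) ≤
      Fintype.card V * Real.exp (-(η ^ 2 * (p * Fintype.card V) / 4)) := by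
  refine (Pr_mono (isP_const h0 h1) (F := fun ω => ∃ v ∈ (univ : Finset V),
    (1 + η) * (p * Fintype.card V) ≤ (btw {v} (univ.erase v) ∩ rs ω).card)
    fun ω ⟨v, h⟩ => ⟨v, mem_univ _, by
      rwa [← dg_eq_card (Finset.notMem_erase _ _), dg_erase]⟩).trans
    ((Pr_exists_le (isP_const h0 h1) _ _).trans ?_)
  rw [← nsmul_eq_mul, ← Finset.card_univ]
  refine Finset.sum_le_card_nsmul _ _ _ fun v _ => Pr_up' h0 h1 _ ((card_btw _ _).trans ?_) e0 e1
  rw [Finset.card_singleton, Nat.cast_one, one_mul]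
  exact Nat.cast_le.2 Finset.card_erase_le

theorem core [Nonempty V] (h0 : 0 ≤ p) (h1 : p ≤ 1) (Z : Finset V) {E0 D0 : Finset (Sym2 V)}
    (hd : Disjoint E0 D0) (𝓘 : Finset (Sym2 V) → Prop) {w k0 b r : ℕ} {a d K τ x η : ℝ}
    (hτ : 0 < τ) (hK : 0 < K) (hb : τ * (Fintype.card V : ℝ) ^ 2 ≤ b) (hr : cc k0 * K < r)
    (hx : 0 < x) (hx1 : x ≤ 1) (e0 : 0 ≤ η) (e1 : η ≤ 1)
    (hsup : ∀ D ⊆ D0, (Z.filter fun v => (dg (gr D) v Z : ℝ) < a).card < w →
      ∃ k ≤ k0, ∃ u, Hyp u k K τ ((Fintype.card V : ℝ) ^ 2) ∧ (∀ e, u e ≠ 0 → e ⊆ D) ∧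
      ∀ I, 𝓘 I → Indep u I)
    (hT : (k0 * b * r : ℕ) + (1 + η) * (p * (a * w)) ≤ d * w) :
    Pr (fun _ => p) (fun ω => E0 ⊆ rs ω ∧ ∃ I, 𝓘 I ∧ I ⊆ D0 ∧ I ⊆ rs ω ∧
      ∀ X ⊆ Z, X.card = w → d * w ≤ ∑ v ∈ X, (dg (gr I) v (Z \ X) : ℝ)) ≤
      p ^ E0.card * Real.exp ((k0 * b * r : ℕ) * Real.log (1 / x) +
        p * x * (Fintype.card V : ℝ) ^ 2 - η ^ 2 * (p * (a * w)) / 4) := by
  classical
  have hn : (0 : ℝ) < Fintype.card V := by exact_mod_cast Fintype.card_pos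
  obtain ⟨ψ, hψ⟩ := container_iter hτ (by positivity) hK card_sym2_le hb _ 𝓘 D0 hsup r hr
  have key : ∀ T, ∃ X : Finset V, ¬ (Z.filter fun v => (dg (gr (ψ T)) v Z : ℝ) < a).card < w →
      X ⊆ (Z.filter fun v => (dg (gr (ψ T)) v Z : ℝ) < a) ∧ X.card = w := fun T => by
    by_cases h : (Z.filter fun v => (dg (gr (ψ T)) v Z : ℝ) < a).card < w
    · exact ⟨∅, fun h' => absurd h h'⟩
    · obtain ⟨X, hX⟩ := Finset.exists_subset_card_eq (not_lt.1 h)
      exact ⟨X, fun _ => hX⟩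
  choose X hX using key
  let A := fun T => (btw (X T) (Z \ X T) ∩ ψ T) \ T
  let 𝓣 := univ.filter fun T : Finset (Sym2 V) => T.card ≤ k0 * b * r ∧ T ⊆ D0 ∧ ψ T ⊆ D0 ∧
    ¬ (Z.filter fun v => (dg (gr (ψ T)) v Z : ℝ) < a).card < w
  refine (Pr_mono (isP_const h0 h1) (F := fun ω => ∃ T ∈ 𝓣, E0 ∪ T ⊆ rs ω ∧
    (1 + η) * (p * (a * w)) ≤ (A T ∩ rs ω).card) fun ω hω => ?_).trans
    ((Pr_exists_le (isP_const h0 h1) _ _).trans ?_)
  · obtain ⟨a1, I, a2, a3, a4, a5⟩ := hω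
    obtain ⟨T, b1, b2, b3, b4, b5⟩ := hψ I a2 a3
    refine ⟨T, Finset.mem_filter.2 ⟨mem_univ _, b2, b1.trans a3, b3, b4⟩,
      Finset.union_subset a1 (b1.trans a4), ?_⟩
    obtain ⟨c1, c2⟩ := hX T b4
    have c3 := a5 _ (c1.trans (Finset.filter_subset _ _)) c2
    rw [sum_dg_eq Finset.disjoint_sdiff] at c3
    have c4 : (btw (X T) (Z \ X T) ∩ I).card ≤ T.card + (A T ∩ rs ω).card := by
      refine le_trans (Finset.card_le_card fun e he => ?_) (Finset.card_union_le _ _)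
      rw [Finset.mem_inter] at he
      by_cases h : e ∈ T
      · exact Finset.mem_union_left _ h
      · exact Finset.mem_union_right _ (Finset.mem_inter.2 ⟨Finset.mem_sdiff.2
          ⟨Finset.mem_inter.2 ⟨he.1, (Finset.mem_union.1 (b5 he.2)).resolve_left h⟩, h⟩, a4 he.2⟩)
    have c5 := (Nat.cast_le (α := ℝ)).2 (c4.trans (Nat.add_le_add_right b2 _))
    rw [Nat.cast_add] at c5
    linarith
  · refine le_trans (Finset.sum_le_sum (g := fun T : Finset (Sym2 V) => p ^ E0.card *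
      Real.exp (-(η ^ 2 * (p * (a * w)) / 4)) * p ^ T.card) fun T hT => ?_) ?_
    · obtain ⟨-, b1, b2, b3, b4⟩ := Finset.mem_filter.1 hT
      obtain ⟨c1, c2⟩ := hX T b4
      rw [Pr_sub_and _ _ (A T) (Finset.disjoint_union_left.2 ⟨hd.mono_right
        (Finset.sdiff_subset.trans (Finset.inter_subset_right.trans b3)), Finset.disjoint_sdiff⟩)
        ((dep_inter (A T)).comp fun S => (1 + η) * (p * (a * w)) ≤ S.card),
        Finset.card_union_of_disjoint (hd.mono_right b2), pow_add, mul_right_comm]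
      gcongr
      refine Pr_up' h0 h1 _ (le_trans (Nat.cast_le.2 (Finset.card_le_card Finset.sdiff_subset)) ?_)
        e0 e1
      rw [← sum_dg_eq Finset.disjoint_sdiff, ← c2, mul_comm, ← nsmul_eq_mul]
      exact Finset.sum_le_card_nsmul _ _ _ fun v hv => le_trans
        (Nat.cast_le.2 (dg_mono le_rfl v Finset.sdiff_subset)) (Finset.mem_filter.1 (c1 hv)).2.le
    · rw [← Finset.mul_sum, sub_eq_add_neg, Real.exp_add, mul_assoc, mul_comm (Real.exp _)]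
      gcongr
      refine le_trans (Finset.sum_le_sum_of_subset_of_nonneg (fun T hT => ?_)
        fun _ _ _ => by positivity) (sum_small_sets h0 hx hx1 card_sym2_le _)
      exact Finset.mem_filter.2 ⟨mem_univ _, (Finset.mem_filter.1 hT).2.1⟩

end Pool.Agent.Lib.MP_46505f_co
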