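import Pool.Agent.Lib.MP_46505f_co.Pb

set_option autoImplicit false
set_option linter.unusedSectionVars false
open Finset
open Pool.Agent.Lib.MP_eaf82e_pr

namespace Pool.Agent.Lib.MP_46505f_co

/- Sprinkling and the choice of a first good candidate. -/

variable {ι : Type*} [Fintype ι] [DecidableEq ι] {q : ι → ℝ}

lemma sprinkle (hq : IsP q) (A : Finset ι) (R Q : Finset ι → Prop) {η1 η2 : ℝ} (h2 : 0 ≤ η2)
    (h1 : Pr q (fun ω => ¬ ∃ E ⊆ rs ω, E ⊆ A ∧ R E) ≤ η1)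
    (h : ∀ E ⊆ A, R E → Pr q (fun ω => ¬ ∃ E' ⊆ rs ω, Disjoint E' A ∧ Q (E ∪ E')) ≤ η2) :
    Pr q (fun ω => ¬ ∃ E ⊆ rs ω, Q E) ≤ η1 + η2 := by
  refine (Pr_cond hq A _ _ h2 fun ω hω => ?_).trans (add_le_add h1 le_rfl)
  obtain ⟨E, a1, a2, a3⟩ := not_not.1 hω
  refine (Pr_mono hq fun ω' hω' ⟨E', b1, b2, b3⟩ => hω' ⟨_, fun e he => ?_, b3⟩).trans (h E a2 a3)
  rw [mem_rs, mrg]
  rcases Finset.mem_union.1 he with he | he
  · rw [if_pos (a2 he)]; exact mem_rs.1 (a1 he)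
  · rw [if_neg (Finset.disjoint_left.1 b2 he)]; exact mem_rs.1 (b1 he)

lemma Pr_markov (hq : IsP q) {E : (ι → Bool) → Prop} {f : (ι → Bool) → ℝ} {a : ℝ} (ha : 0 < a)
    (h0 : ∀ ω, 0 ≤ f ω) (h : ∀ ω, E ω → a ≤ f ω) : Pr q E ≤ Ex q f / a := by
  rw [div_eq_inv_mul, ← Ex_const_mul]
  exact Pr_le_Ex hq (fun ω => mul_nonneg (by positivity) (h0 ω)) fun ω hω => by
    rw [← div_eq_inv_mul, le_div_iff₀ ha, one_mul]; exact h ω hω

lemma Ex_prod_inj {κ : Type*} (p : ℝ) (s : Finset κ) (e : κ → ι) (he : Set.InjOn e s)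
    (f : κ → Bool → ℝ) : Ex (fun _ => p) (fun ω => ∏ k ∈ s, f k (ω (e k))) =
      ∏ k ∈ s, (p * f k true + (1 - p) * f k false) := by
  rw [Ex_blocks _ s (fun k => {e k}) (fun k hk j hj hne => Finset.disjoint_singleton.2
    fun h => hne (he hk hj h)) _ fun k _ ω ω' h => by rw [h _ (Finset.mem_singleton_self _)]]
  refine Finset.prod_congr rfl fun k _ => ?_
  have : ∀ ω : ι → Bool, f k (ω (e k)) = (f k true - f k false) * one (ω (e k) = true) +
      f k false := fun ω => by cases ω (e k) <;> simp [one]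
  simp only [this]
  rw [Ex_add, Ex_const_mul, Ex_const]
  have h1 : (Ex (fun _ => p) fun ω : ι → Bool => one (ω (e k) = true)) = p :=
    Pr_coord (fun _ => p) (e k)
  rw [h1]
  ring

lemma Pr_miss {κ : Type*} (p : ℝ) (s : Finset κ) (e : κ → ι) (he : Set.InjOn e s) :
    Pr (fun _ => p) (fun ω => ∀ k ∈ s, ¬ ω (e k) = true) = (1 - p) ^ s.card := by
  unfold Pr
  simp only [one_forall]
  rw [Ex_prod_inj p s e he fun _ b => one (¬ b = true)]
  simp [one]

def Fst {R : ℕ} (P : Fin R → Prop) (k : Fin R) : Prop := P k ∧ ∀ j < k, ¬ P j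

open Classical in
noncomputable def sel {R : ℕ} (k0 : Fin R) (P : Fin R → Prop) : Fin R :=
  if h : ∃ k, Fst P k then h.choose else k0

lemma sel_spec {R : ℕ} (k0 : Fin R) {P : Fin R → Prop} (h : ∃ k, P k) : Fst P (sel k0 P) := by
  classical
  have : ∃ k, Fst P k := by
    obtain ⟨k, hk, hm⟩ := Finset.exists_min_image (univ.filter P) id
      (h.imp fun k hk => Finset.mem_filter.2 ⟨mem_univ _, hk⟩)
    exact ⟨k, (Finset.mem_filter.1 hk).2, fun j hj c =>
      absurd (hm j (Finset.mem_filter.2 ⟨mem_univ _, c⟩)) (not_le.2 hj)⟩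
  unfold sel
  rw [dif_pos this]
  exact this.choose_spec

lemma sel_one (hq : IsP q) {R : ℕ} (k0 : Fin R) (B : Fin R → Finset ι)
    (hB : ∀ k j, k ≠ j → Disjoint (B k) (B j)) (P : Fin R → (ι → Bool) → Prop)
    (φ : Fin R → (ι → Bool) → ℝ) (hP : ∀ k, Dep (B k) (P k)) (hφ : ∀ k, Dep (B k) (φ k))
    (h0 : ∀ k ω, 0 ≤ φ k ω) {l : ℝ} (hl : 0 ≤ l)
    (h : ∀ k, Ex q (fun ω => one (P k ω) * φ k ω) ≤ l * Pr q (P k)) :
    Ex q (fun ω => one (∃ k, P k ω) * φ (sel k0 fun k => P k ω) ω) ≤ l := by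
  classical
  have ind : ∀ k (f : (ι → Bool) → ℝ), Dep (B k) f →
      Ex q (fun ω => f ω * one (∀ j < k, ¬ P j ω)) =
      Ex q f * Ex q fun ω => one (∀ j < k, ¬ P j ω) := fun k f hf =>
    Ex_indep q (B k) _ _ hf fun ω ω' h => by
      congr 1
      refine propext (forall_congr' fun j => imp_congr_right fun hj => ?_)
      rw [hP j ω ω' fun e he => h e (Finset.disjoint_left.1 (hB j k hj.ne) he)]
  calc _ ≤ Ex q fun ω => ∑ k, one (P k ω) * φ k ω * one (∀ j < k, ¬ P j ω) := by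
        refine Ex_mono hq fun ω => ?_
        have h1 : ∀ k ∈ univ, 0 ≤ one (P k ω) * φ k ω * one (∀ j < k, ¬ P j ω) := fun k _ =>
          mul_nonneg (mul_nonneg (one_nonneg _) (h0 _ _)) (one_nonneg _)
        by_cases c : ∃ k, P k ω
        · have := sel_spec k0 c
          refine le_trans (le_of_eq ?_) (Finset.single_le_sum h1 (mem_univ (sel k0 fun k => P k ω)))
          rw [one_pos' c, one_pos' this.1, one_pos' this.2, mul_one]
        · rw [one_neg' c, zero_mul]; exact Finset.sum_nonneg h1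
    _ ≤ ∑ k, l * Ex q fun ω => one (P k ω) * one (∀ j < k, ¬ P j ω) := by
        rw [Ex_sum]
        refine Finset.sum_le_sum fun k _ => ?_
        rw [ind k _ fun ω ω' h => by rw [hP k ω ω' h, hφ k ω ω' h], ind k _ ((hP k).comp one),
          ← mul_assoc]
        exact mul_le_mul_of_nonneg_right (h k) (Ex_nonneg hq fun _ => one_nonneg _)
    _ ≤ l := by
        rw [← Finset.mul_sum, ← Ex_sum]
        refine mul_le_of_le_one_right hl ((Ex_mono hq fun ω => ?_).trans (Ex_const q 1).le)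
        simp only [← one_and']
        rw [← cnt_eq_sum]
        exact_mod_cast Finset.card_le_one.2 fun a ha b hb => by
          simp only [Finset.mem_filter] at ha hb
          exact le_antisymm (not_lt.1 fun c => ha.2.2 b c hb.2.1)
            (not_lt.1 fun c => hb.2.2 a c ha.2.1)

lemma sel_prod (hq : IsP q) {T : Type*} {R : ℕ} (k0 : Fin R) (B : T → Fin R → Finset ι)
    (hB : ∀ t k t' k', t ≠ t' ∨ k ≠ k' → Disjoint (B t k) (B t' k'))
    (P : T → Fin R → (ι → Bool) → Prop) (φ : T → Fin R → (ι → Bool) → ℝ)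
    (hP : ∀ t k, Dep (B t k) (P t k)) (hφ : ∀ t k, Dep (B t k) (φ t k))
    (h0 : ∀ t k ω, 0 ≤ φ t k ω) {l : ℝ} (hl : 0 ≤ l)
    (h : ∀ t k, Ex q (fun ω => one (P t k ω) * φ t k ω) ≤ l * Pr q (P t k)) (s : Finset T) :
    Ex q (fun ω => ∏ t ∈ s, one (∃ k, P t k ω) * φ t (sel k0 fun k => P t k ω) ω) ≤
      l ^ s.card := by
  rw [Ex_blocks q s (fun t => univ.biUnion (B t)) (fun t _ t' _ hne =>
    (Finset.disjoint_biUnion_left _ _ _).2 fun k _ => (Finset.disjoint_biUnion_right _ _ _).2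
      fun k' _ => hB t k t' k' (Or.inl hne)) _ fun t _ ω ω' he => by
    have e : ∀ k, ∀ e ∈ B t k, ω e = ω' e := fun k e h =>
      he e (Finset.mem_biUnion.2 ⟨k, mem_univ _, h⟩)
    have : (fun k => P t k ω) = fun k => P t k ω' := funext fun k => hP t k ω ω' (e k)
    rw [hφ t _ ω ω' (e _), this],
    ← Finset.prod_const]
  exact Finset.prod_le_prod (fun t _ => Ex_nonneg hq fun ω => mul_nonneg (one_nonneg _) (h0 _ _ _))
    fun t _ => sel_one hq k0 (B t) (fun k j hne => hB t k t j (Or.inr hne)) (P t) (φ t) (hP t)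
      (hφ t) (h0 t) hl (h t)

lemma Pr_none (hq : IsP q) {R : ℕ} (B : Fin R → Finset ι)
    (hB : ∀ k j, k ≠ j → Disjoint (B k) (B j)) (P : Fin R → (ι → Bool) → Prop)
    (hP : ∀ k, Dep (B k) (P k)) {x : ℝ} (h : ∀ k, x ≤ Pr q (P k)) :
    Pr q (fun ω => ∀ k ∈ (univ : Finset (Fin R)), ¬ P k ω) ≤ Real.exp (-(x * R)) := by
  unfold Pr
  simp only [one_forall]
  rw [Ex_blocks q univ B (fun k _ j _ => hB k j) _ fun k _ => (hP k).comp fun y => one (¬ y)]
  refine (Finset.prod_le_prod (g := fun _ => Real.exp (-x))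
    (fun k _ => Ex_nonneg hq fun _ => one_nonneg _) fun k _ => ?_).trans_eq ?_
  · refine (Pr_not q (P k)).trans_le ?_
    linarith [h k, Real.add_one_le_exp (-x)]
  · rw [Finset.prod_const, Finset.card_univ, Fintype.card_fin, ← Real.exp_nat_mul]; ring_nf

lemma half_le_hit {p : ℝ} (h0 : 0 ≤ p) (h1 : p ≤ 1) {s : ℕ} (h : p * s ≤ 1) :
    p * s / 2 ≤ 1 - (1 - p) ^ s := by
  have a1 : (1 - p) ^ s * (1 + s * p) ≤ 1 := by
    calc _ ≤ (1 - p) ^ s * (1 + p) ^ s := by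
          gcongr; exact one_add_mul_le_pow (by linarith) s
      _ = (1 - p ^ 2) ^ s := by rw [← mul_pow]; congr 1; ring
      _ ≤ 1 := pow_le_one₀ (by nlinarith) (by nlinarith)
  have a2 : 0 ≤ p * s := by positivity
  by_contra c
  nlinarith [mul_nonneg a2 (sub_nonneg.2 h)]

lemma hit_le {p : ℝ} (h1 : p ≤ 1) (s : ℕ) : 1 - (1 - p) ^ s ≤ p * s := by
  have := one_add_mul_le_pow (by linarith : -2 ≤ -p) s
  rw [← sub_eq_add_neg] at this
  linarith

lemma block_bound {p : ℝ} (h0 : 0 ≤ p) (h1 : p ≤ 1) {b : ℕ} (hb0 : 0 < b) (hb : p * b ≤ 1)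
    (e : Fin b → ι) (he : Function.Injective e) (S : Finset (Fin b)) :
    p * b / 2 ≤ Pr (fun _ => p) (fun ω => ∃ i, ω (e i) = true) ∧
    Pr (fun _ => p) (fun ω => (∃ i, ω (e i) = true) ∧ ∀ i ∈ S, ¬ ω (e i) = true) ≤
      Real.exp (-(S.card / (2 * b))) * Pr (fun _ => p) (fun ω => ∃ i, ω (e i) = true) := by
  have a1 := Pr_miss p univ e he.injOn
  have a2 := Pr_miss p S e he.injOn
  rw [Finset.card_univ, Fintype.card_fin] at a1
  have a3 : Pr (fun _ => p) (fun ω : ι → Bool => ∃ i, ω (e i) = true) = 1 - (1 - p) ^ b := by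
    rw [← a1, ← Pr_not]; congr 1; ext; simp
  have a4 : Pr (fun _ => p) (fun ω : ι → Bool => (∃ i, ω (e i) = true) ∧
      ∀ i ∈ S, ¬ ω (e i) = true) = (1 - p) ^ S.card - (1 - p) ^ b := by
    rw [← a1, ← a2, Pr, Pr, Pr, ← Ex_sub]
    congr 1; funext ω
    by_cases c : ∃ i, ω (e i) = true
    · rw [one_and', one_pos' c, one_neg' (P := ∀ k ∈ univ, ¬ ω (e k) = true)
        fun h => h _ (mem_univ _) c.choose_spec]
      ring
    · rw [one_neg' fun h => c h.1, one_pos' fun k _ h => c ⟨k, h⟩, one_pos' fun k _ h => c ⟨k, h⟩,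
        sub_self]
  have hS : (S.card : ℝ) ≤ b := by exact_mod_cast (Finset.card_le_univ S).trans_eq (Fintype.card_fin b)
  have b1 := half_le_hit h0 h1 hb
  have b2 := half_le_hit h0 h1 (s := S.card) (le_trans (by gcongr) hb)
  have b3 := hit_le h1 b
  have b4 : (0 : ℝ) < b := by exact_mod_cast hb0
  have b5 := Real.add_one_le_exp (-(S.card / (2 * b) : ℝ))
  have b6 : (S.card / (2 * b) : ℝ) * (p * b) = p * S.card / 2 := by field_simp
  rw [a3, a4]
  refine ⟨b1, ?_⟩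
  have b7 : 0 ≤ 1 - (1 - p) ^ b := le_trans (by positivity) b1
  nlinarith [mul_le_mul_of_nonneg_right b5 b7,
    mul_le_mul_of_nonneg_left b3 (by positivity : (0 : ℝ) ≤ S.card / (2 * b))]

end Pool.Agent.Lib.MP_46505f_co
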