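import Pool.Agent.Lib.MP_46505f_co.Core
import Pool.Agent.Lib.MP_46505f_co.Sel

set_option autoImplicit false
set_option linter.unusedSectionVars false
open Finset
open Pool.Agent.Lib.MP_eaf82e_pr

namespace Pool.Agent.Lib.MP_46505f_co

/- Private neighbourhoods and the deletion method. -/

variable {V : Type} [Fintype V] [DecidableEq V] {p : ℝ}

lemma stage2 (h0 : 0 ≤ p) (h1 : p ≤ 1) {X W1 : Finset V} (hd : Disjoint X W1) {ζ η M : ℝ}
    (hζ : p * X.card ≤ ζ) (hζ1 : ζ ≤ 1) (hM0 : 0 ≤ M) (hM : M ≤ W1.card) (e0 : 0 ≤ η) (e1 : η ≤ 1)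
    {k : ℕ} (hk : k ≤ (1 - η) * (p * (1 - ζ) * M) + 1) :
    Pr (fun _ => p) (fun ω => ¬ ∃ N : V → Finset V, (∀ x ∈ X, N x ⊆ W1 ∧
      (∀ y ∈ N x, s(x, y) ∈ rs ω) ∧ (N x).card = k) ∧
      ∀ x ∈ X, ∀ x' ∈ X, ∀ y ∈ N x, y ∈ N x' → x = x') ≤
      Fintype.card V * Real.exp (-(η ^ 2 * (p * (1 - ζ) * M) / 4)) := by
  classical
  have hP := isP_const (ι := Sym2 V) h0 h1
  have hinj : ∀ y ∈ W1, ∀ y' ∈ W1, ∀ x ∈ X, ∀ x' ∈ X, s(x, y) = s(x', y') → x = x' ∧ y = y' :=
    fun y _ y' hy' x hx x' _ e => (Sym2.eq_iff.1 e).resolve_right fun e =>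
      Finset.disjoint_left.1 hd hx (e.1 ▸ hy')
  let Ev := fun x y (ω : Sym2 V → Bool) => ∀ x' ∈ X, (ω s(x', y) = true ↔ x' = x)
  refine (Pr_mono hP (F := fun ω => ∃ x ∈ X, ((cnt W1 fun y => Ev x y ω : ℕ) : ℝ) ≤
    (1 - η) * (p * (1 - ζ) * M)) fun ω hω => ?_).trans ((Pr_exists_le hP _ _).trans
    ((Finset.sum_le_card_nsmul _ _ _ fun x hx => chern_lo' hP W1 (fun y => X.image fun x => s(x, y))
      (fun y hy y' hy' hne => Finset.disjoint_left.2 fun e a1 a2 => ?_) (Ev x)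
      (fun y _ ω ω' h => propext (forall₂_congr fun x' hx' => by
        rw [h _ (Finset.mem_image_of_mem _ hx')])) ?_
      (mul_nonneg (mul_nonneg h0 (by linarith)) hM0) e0 e1).trans ?_))
  · by_contra hc
    push Not at hc
    have key : ∀ x, ∃ N : Finset V, x ∈ X → N ⊆ W1.filter (fun y => Ev x y ω) ∧ N.card = k :=
      fun x => by
        by_cases hx : x ∈ X
        · have : (k : ℝ) < (cnt W1 fun y => Ev x y ω : ℕ) + 1 := by linarith [hc x hx]
          obtain ⟨N, hN⟩ := Finset.exists_subset_card_eq (s := W1.filter fun y => Ev x y ω) (n := k)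
            (by unfold cnt at this; norm_cast at this; convert Nat.lt_succ_iff.1 this)
          exact ⟨N, fun _ => hN⟩
        · exact ⟨∅, fun h => absurd h hx⟩
    choose N hN using key
    have hE : ∀ x ∈ X, ∀ y ∈ N x, Ev x y ω := fun x hx y hy =>
      (Finset.mem_filter.1 ((hN x hx).1 hy)).2
    exact hω ⟨N, fun x hx => ⟨(hN x hx).1.trans (Finset.filter_subset _ _), fun y hy =>
      mem_rs.2 ((hE x hx y hy x hx).2 rfl), (hN x hx).2⟩, fun x hx x' hx' y a1 a2 =>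
      (hE x' hx' y a2 x hx).1 ((hE x hx y a1 x hx).2 rfl)⟩
  · obtain ⟨u, b1, rfl⟩ := Finset.mem_image.1 a1
    obtain ⟨u', b2, e⟩ := Finset.mem_image.1 a2
    exact hne (hinj _ hy' _ hy _ b2 _ b1 e).2.symm
  · refine le_trans (mul_le_mul_of_nonneg_left hM (mul_nonneg h0 (by linarith))) ?_
    rw [mul_comm, ← nsmul_eq_mul]
    refine Finset.card_nsmul_le_sum _ _ _ fun y hy => ?_
    unfold Pr
    simp only [Ev, one_forall]
    rw [Ex_prod_inj p X (fun x => s(x, y)) (fun u hu u' hu' e => (hinj _ hy _ hy _ hu _ hu' e).1)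
      fun x' b => one (b = true ↔ x' = x), ← Finset.mul_prod_erase _ _ hx,
      Finset.prod_congr rfl (g := fun _ => 1 - p) fun u hu => by
        simp [one, (Finset.mem_erase.1 hu).1], Finset.prod_const]
    have := hit_le h1 (X.erase x).card
    have : p * (X.erase x).card ≤ p * X.card := by gcongr; exact Finset.erase_subset _ _
    simp only [one, iff_true, if_true, Bool.false_eq_true, if_false, mul_one, mul_zero, add_zero]
    gcongr
    linarith
  · rw [nsmul_eq_mul]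
    gcongr
    exact Finset.card_le_univ _

def Fam (𝓔 : Finset (Finset (Sym2 V))) (t : ℕ) (E : Finset (Sym2 V)) : Prop :=
  ∃ v ∈ (univ : Finset V), ∃ 𝓢 ∈ (𝓔.filter fun e => v ∈ vts e).powersetCard t,
    (∀ a ∈ 𝓢, ∀ b ∈ 𝓢, a ≠ b → Disjoint a b) ∧ ∀ a ∈ 𝓢, a ⊆ E

lemma Pr_Fam (h0 : 0 ≤ p) (h1 : p ≤ 1) (𝓔 : Finset (Finset (Sym2 V))) {μ : ℝ}
    (hμ : ∀ v, ∑ e ∈ 𝓔.filter fun e => v ∈ vts e, p ^ e.card ≤ μ) (t : ℕ) :
    Pr (fun _ => p) (fun ω => Fam 𝓔 t (rs ω)) ≤ Fintype.card V * Real.exp (3 * μ - t) := by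
  refine (Pr_exists_le (isP_const h0 h1) _ _).trans ?_
  rw [← nsmul_eq_mul, ← Finset.card_univ]
  exact Finset.sum_le_card_nsmul _ _ _ fun v _ => Pr_disjoint_family h0 h1 _ (hμ v) t

lemma del {𝓔 : Finset (Finset (Sym2 V))} {k t : ℕ} (h𝓔 : ∀ e ∈ 𝓔, e.Nonempty ∧ e.card ≤ k)
    {G G1 : Finset (Sym2 V)} (hG : G1 ⊆ G) (h : ¬ Fam 𝓔 t G) :
    ∃ E ⊆ G1, (∀ e ∈ 𝓔, ¬ e ⊆ E) ∧ ∀ v Q, dg (gr G1) v Q ≤ dg (gr E) v Q + t * k := by
  classical
  obtain ⟨𝓢, a1, a2⟩ := Finset.exists_max_image (𝓔.powerset.filter fun 𝓢 =>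
    (∀ a ∈ 𝓢, ∀ b ∈ 𝓢, a ≠ b → Disjoint a b) ∧ ∀ a ∈ 𝓢, a ⊆ G) Finset.card ⟨∅, by simp⟩
  rw [Finset.mem_filter, Finset.mem_powerset] at a1
  refine ⟨G1 \ 𝓢.biUnion id, Finset.sdiff_subset, fun e he hs => ?_, fun v Q => ?_⟩
  · have b1 : ∀ a ∈ 𝓢, Disjoint e a := fun a ha => Finset.disjoint_left.2 fun x hx hx' =>
      (Finset.mem_sdiff.1 (hs hx)).2 (Finset.mem_biUnion.2 ⟨a, ha, hx'⟩)
    have b2 : e ∉ 𝓢 := fun h' => (h𝓔 e he).1.ne_empty (disjoint_self.1 (b1 e h'))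
    have := a2 (insert e 𝓢) (Finset.mem_filter.2 ⟨Finset.mem_powerset.2
      (Finset.insert_subset he a1.1), fun a ha b hb hab => ?_, fun a ha => ?_⟩)
    · rw [Finset.card_insert_of_notMem b2] at this; omega
    · rcases Finset.mem_insert.1 ha with rfl | ha' <;> rcases Finset.mem_insert.1 hb with rfl | hb'
      exacts [absurd rfl hab, b1 b hb', (b1 a ha').symm, a1.2.1 a ha' b hb' hab]
    · rcases Finset.mem_insert.1 ha with rfl | ha
      exacts [hs.trans (Finset.sdiff_subset.trans hG), a1.2.2 a ha]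
  · have b1 : (𝓢.filter fun e => v ∈ vts e).card ≤ t := by
      by_contra c
      obtain ⟨𝓣, c1, c2⟩ := Finset.exists_subset_card_eq (not_le.1 c).le
      have c3 := c1.trans (Finset.filter_subset _ _)
      exact h ⟨v, mem_univ _, 𝓣, Finset.mem_powersetCard.2 ⟨c1.trans
        (Finset.filter_subset_filter _ a1.1), c2⟩, fun a ha b hb => a1.2.1 a (c3 ha) b (c3 hb),
        fun a ha => a1.2.2 a (c3 ha)⟩
    have b2 := (Finset.card_biUnion_le_card_mul (𝓢.filter fun e => v ∈ vts e) id k fun e he =>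
      (h𝓔 e (a1.1 (Finset.mem_filter.1 he).1)).2).trans (Nat.mul_le_mul_right _ b1)
    refine le_trans (Finset.card_le_card fun u hu => ?_) ((Finset.card_union_le _ (univ.filter
      fun u => s(v, u) ∈ (𝓢.filter fun e => v ∈ vts e).biUnion id)).trans (Nat.add_le_add_left
      (le_trans (Finset.card_le_card_of_injOn (fun u => s(v, u)) (fun u hu =>
        (Finset.mem_filter.1 hu).2) fun _ _ _ _ e => Sym2.congr_right.1 e) b2) _))
    rw [mem_nb, gr_adj] at hu
    by_cases c : s(v, u) ∈ 𝓢.biUnion id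
    · obtain ⟨e, c1, c2⟩ := Finset.mem_biUnion.1 c
      exact Finset.mem_union_right _ (Finset.mem_filter.2 ⟨mem_univ _, Finset.mem_biUnion.2
        ⟨e, Finset.mem_filter.2 ⟨c1, mem_vts.2 ⟨_, c2, by simp⟩⟩, c2⟩⟩)
    · exact Finset.mem_union_left _ (mem_nb.2 ⟨hu.1, gr_adj.2
        ⟨Finset.mem_sdiff.2 ⟨hu.2.1, c⟩, hu.2.2⟩⟩)

lemma card_btw_eq {U W : Finset V} (h : Disjoint U W) :
    ((btw U W).card : ℝ) = U.card * W.card := by
  have := sum_dg_eq h univ
  rw [Finset.inter_univ] at this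
  rw [← this, ← nsmul_eq_mul, ← Finset.sum_const]
  refine Finset.sum_congr rfl fun u hu => ?_
  unfold dg
  congr 2; ext w
  rw [mem_nb, gr_adj]
  exact ⟨fun h => h.1, fun h' => ⟨h', mem_univ _, fun e => Finset.disjoint_left.1 h hu (e ▸ h')⟩⟩

lemma Pr_min (h0 : 0 ≤ p) (h1 : p ≤ 1) (Γ : SimpleGraph V) (Z : Finset V) {M η : ℝ} (hM0 : 0 ≤ M)
    (hM : ∀ v ∈ Z, M ≤ dg Γ v univ) (e0 : 0 ≤ η) (e1 : η ≤ 1) :
    Pr (fun _ => p) (fun ω => ∃ v ∈ Z, (dg (gr (rs ω ∩ eF Γ)) v univ : ℝ) ≤ (1 - η) * (p * M)) ≤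
      Fintype.card V * Real.exp (-(η ^ 2 * (p * M) / 4)) := by
  have hv : ∀ v, v ∉ nb Γ v univ := fun v h => (mem_nb.1 h).2.ne rfl
  refine (Pr_exists_le (isP_const h0 h1) _ _).trans ((Finset.sum_le_card_nsmul _ _ _ fun v h =>
    (Pr_mono (isP_const h0 h1) fun ω hω => ?_).trans (Pr_lo' h0 h1 (btw {v} (nb Γ v univ)) ?_
    hM0 e0 e1)).trans ?_)
  · rw [← dg_eq_card (hv v)]
    refine le_trans (Nat.cast_le.2 (Finset.card_le_card fun u hu => ?_)) hω
    rw [mem_nb, mem_nb, gr_adj] at hu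
    exact mem_nb.2 ⟨mem_univ _, gr_adj.2 ⟨Finset.mem_inter.2 ⟨hu.2.1, mem_eF.2 hu.1.2⟩, hu.2.2⟩⟩
  · rw [card_btw_eq (Finset.disjoint_singleton_left.2 (hv v)), Finset.card_singleton, Nat.cast_one,
      one_mul]
    exact hM v h
  · rw [nsmul_eq_mul]
    gcongr
    exact Finset.card_le_univ _

lemma Pr_den (h0 : 0 ≤ p) (h1 : p ≤ 1) (s : ℕ) :
    Pr (fun _ => p) (fun ω : Sym2 V → Bool => ∃ z ∈ univ.filter fun z : Finset V × Finset V =>
      Disjoint z.1 z.2 ∧ z.1.card = s ∧ z.2.card = s,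
      ∑ u ∈ z.1, (dg (gr (rs ω)) u z.2 : ℝ) ≤ p * (s * s) / 2) ≤
      Real.exp (2 * Fintype.card V - p * (s * s) / 16) := by
  refine (Pr_exists_le (isP_const h0 h1) _ _).trans ((Finset.sum_le_card_nsmul _ _
    (Real.exp (-(p * (s * s) / 16))) fun z hz => ?_).trans ?_)
  · obtain ⟨-, a1, a2, a3⟩ := Finset.mem_filter.1 hz
    refine (Pr_mono (isP_const h0 h1) fun ω hω => ?_).trans ((Pr_lo' h0 h1 (btw z.1 z.2)
      (M := s * s) (η := 1 / 2) (by rw [card_btw_eq a1, a2, a3]) (by positivity) (by norm_num)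
      (by norm_num)).trans_eq (by congr 1; ring))
    rw [← sum_dg_eq a1]; linarith
  · rw [nsmul_eq_mul, sub_eq_add_neg, Real.exp_add, two_mul, Real.exp_add]
    have : ((2 ^ Fintype.card V : ℕ) : ℝ) ≤ Real.exp (Fintype.card V) := by
      rw [← mul_one (Fintype.card V : ℝ), Real.exp_nat_mul]
      push_cast
      gcongr
      linarith [Real.add_one_le_exp 1]
    refine mul_le_mul_of_nonneg_right ((Nat.cast_le.2 (Finset.card_le_univ _)).trans ?_)
      (Real.exp_pos _).le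
    rw [Fintype.card_prod, Fintype.card_finset, Nat.cast_mul]
    gcongr

variable {W : Type} [Fintype W] [DecidableEq W]

open Classical in
noncomputable def pats (S : Finset W) (EB : Finset (Sym2 W)) (c : W → W) (Nr : V → V → Prop)
    (v0 : V) : Finset (Finset (Sym2 V)) :=
  (univ.filter fun φ : W → V => Set.InjOn φ S ∧ (∀ a ∉ S, φ a = v0) ∧
    ∀ a ∈ S, ∀ b ∈ S, a ≠ b → c a = c b → Nr (φ a) (φ b)).image fun φ => EB.image (Sym2.map φ)

lemma mem_pats {S : Finset W} {EB : Finset (Sym2 W)} (hS : ∀ e ∈ EB, ∀ a ∈ e, a ∈ S) {c : W → W}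
    {Nr : V → V → Prop} (v0 : V) {φ : W → V} (h1 : Function.Injective φ)
    (h2 : ∀ a ∈ S, ∀ b ∈ S, a ≠ b → c a = c b → Nr (φ a) (φ b)) :
    EB.image (Sym2.map φ) ∈ pats S EB c Nr v0 := by
  classical
  refine Finset.mem_image.2 ⟨fun a => if a ∈ S then φ a else v0, Finset.mem_filter.2 ⟨mem_univ _,
    fun a ha b hb e => ?_, fun a ha => if_neg ha, fun a ha b hb => ?_⟩,
    Finset.image_congr fun e he => Sym2.map_congr fun a ha => if_pos (hS e he a ha)⟩
  · simp only [if_pos (Finset.mem_coe.1 ha), if_pos (Finset.mem_coe.1 hb)] at e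
    exact h1 e
  · simp only [if_pos ha, if_pos hb]; exact h2 a ha b hb

lemma card_pats {S : Finset W} {EB : Finset (Sym2 W)} (hS : ∀ e ∈ EB, ∀ a ∈ e, a ∈ S) {c : W → W}
    {Nr : V → V → Prop} {v0 : V} {e : Finset (Sym2 V)} (he : e ∈ pats S EB c Nr v0) :
    e.card = EB.card := by
  classical
  obtain ⟨φ, h, rfl⟩ := Finset.mem_image.1 he
  have h1 := (Finset.mem_filter.1 h).2.1
  refine Finset.card_image_of_injOn fun e he e' he' h => ?_
  induction e using Sym2.ind with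
  | h a b =>
    induction e' using Sym2.ind with
    | h a' b' =>
      have a1 := hS _ he a (by simp)
      have a2 := hS _ he b (by simp)
      have a3 := hS _ he' a' (by simp)
      have a4 := hS _ he' b' (by simp)
      rcases Sym2.eq_iff.1 h with h | h
      · rw [h1 a1 a3 h.1, h1 a2 a4 h.2]
      · rw [h1 a1 a4 h.1, h1 a2 a3 h.2, Sym2.eq_swap]

lemma sum_one_eq (v : V) : ∑ u, one (u = v) ≤ 1 := by
  rw [Finset.sum_eq_single v (fun u _ h => one_neg' h) (by simp)]; exact one_le _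

lemma weight_pats (h0 : 0 ≤ p) {S : Finset W} {EB : Finset (Sym2 W)}
    (hS : ∀ e ∈ EB, ∀ a ∈ e, a ∈ S) (c : W → W) (Nr : V → V → Prop) (v0 : V) {M : ℝ} (hM0 : 0 ≤ M)
    (hM : ∀ u, ∀ B : Finset V, (∀ v ∈ B, Nr u v) → B.card ≤ M) {k : ℕ}
    (hk : S.card = (S.image c).card + k) (v : V) :
    (∑ e ∈ (pats S EB c Nr v0).filter fun e => v ∈ vts e, p ^ e.card) * Fintype.card V ≤
      S.card * ((Fintype.card V : ℝ) ^ (S.image c).card * M ^ k) * p ^ EB.card := by
  classical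
  have : Nonempty V := ⟨v⟩
  let Φ := univ.filter fun φ : W → V => Set.InjOn φ S ∧ (∀ a ∉ S, φ a = v0) ∧
    ∀ a ∈ S, ∀ b ∈ S, a ≠ b → c a = c b → Nr (φ a) (φ b)
  rw [Finset.sum_congr rfl fun e he => by rw [card_pats hS (Finset.mem_filter.1 he).1],
    Finset.sum_const, nsmul_eq_mul, mul_right_comm]
  refine mul_le_mul_of_nonneg_right ?_ (by positivity)
  have a1 : ((pats S EB c Nr v0).filter fun e => v ∈ vts e).card ≤
      ∑ a ∈ S, (Φ.filter fun φ => φ a = v).card := by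
    refine le_trans (Finset.card_le_card fun e he => ?_) ((Finset.card_image_le
      (f := fun φ => EB.image (Sym2.map φ))).trans Finset.card_biUnion_le)
    rw [Finset.mem_filter] at he
    obtain ⟨φ, b1, rfl⟩ := Finset.mem_image.1 he.1
    obtain ⟨_, b2, b3⟩ := mem_vts.1 he.2
    obtain ⟨e, b4, rfl⟩ := Finset.mem_image.1 b2
    obtain ⟨a, b5, b6⟩ := Sym2.mem_map.1 b3
    exact Finset.mem_image_of_mem _ (Finset.mem_biUnion.2 ⟨a, hS e b4 a b5,
      Finset.mem_filter.2 ⟨by convert b1, b6⟩⟩)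
  refine le_trans (mul_le_mul_of_nonneg_right (Nat.cast_le.2 a1) (by positivity)) ?_
  rw [Nat.cast_sum, Finset.sum_mul, ← nsmul_eq_mul]
  refine Finset.sum_le_card_nsmul _ _ _ fun a0 ha0 => ?_
  obtain ⟨ρ, r1, r2⟩ : ∃ ρ : W → W, (∀ a ∈ S, ρ (c a) ∈ S ∧ c (ρ (c a)) = c a) ∧ ρ (c a0) = a0 :=
    ⟨fun j => if j = c a0 then a0 else if h : ∃ b ∈ S, c b = j then h.choose else a0,
      fun a ha => by
        have h : ∃ b ∈ S, c b = c a := ⟨a, ha, rfl⟩
        dsimp only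
        split_ifs with e
        exacts [⟨ha0, e.symm⟩, h.choose_spec], if_pos rfl⟩
  have a2 := seq_upper (fun a => if ρ (c a) = a then 0 else 1) (fun a (τ : W → V) u =>
    if a ∈ S then if ρ (c a) = a then if a = a0 then one (u = v) else 1
      else one (Nr (τ (ρ (c a))) u) else one (u = v0)) (fun a τ τ' h => by
      funext u
      by_cases e : a ∈ S ∧ ρ (c a) ≠ a
      · simp only [h (ρ (c a)) (by simp [e.2, (r1 a e.1).2])]
      · rw [not_and_or, not_not] at e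
        rcases e with e | e <;> simp [e])
    (fun a τ u => by split_ifs <;> first | exact one_nonneg _ | exact zero_le_one)
    (fun a => if a ∈ S then if ρ (c a) = a then if a = a0 then 1 else Fintype.card V else M else 1)
    fun a τ => by
      split_ifs
      · exact sum_one_eq v
      · simp
      · rw [← cnt_eq_sum]; exact hM _ _ fun v hv => by simpa using hv
      · exact sum_one_eq v0
  refine le_trans (mul_le_mul_of_nonneg_right ((card_le_sum_of _ _ (fun τ => Finset.prod_nonneg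
    fun a _ => by split_ifs <;> first | exact one_nonneg _ | exact zero_le_one)
    fun τ hτ => (Finset.prod_eq_one fun a _ => ?_).ge).trans a2) (by positivity)) (le_of_eq ?_)
  · simp only [Φ, Finset.mem_filter] at hτ
    split_ifs with b1 b2 b3
    · exact one_pos' (b3 ▸ hτ.2)
    · rfl
    · exact one_pos' (hτ.1.2.2.2 _ (r1 a b1).1 _ b1 b2 (r1 a b1).2)
    · exact one_pos' (hτ.1.2.2.1 a b1)
  · have b1 : (S.filter fun a => ρ (c a) = a).card = (S.image c).card :=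
      Finset.card_bij (fun a _ => c a) (fun a ha => Finset.mem_image_of_mem _
        (Finset.mem_filter.1 ha).1) (fun a ha b hb e => by
          rw [← (Finset.mem_filter.1 ha).2, ← (Finset.mem_filter.1 hb).2, e]) fun j hj => by
        obtain ⟨a, ha, rfl⟩ := Finset.mem_image.1 hj
        exact ⟨_, Finset.mem_filter.2 ⟨(r1 a ha).1, by rw [(r1 a ha).2]⟩, (r1 a ha).2⟩
    have b2 := Finset.card_filter_add_card_filter_not (s := S) fun a => ρ (c a) = a
    have b3 : a0 ∈ S.filter fun a => ρ (c a) = a := Finset.mem_filter.2 ⟨ha0, r2⟩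
    rw [Finset.prod_ite_mem, Finset.univ_inter, Finset.prod_ite, Finset.prod_const,
      ← Finset.mul_prod_erase _ _ b3, if_pos rfl, Finset.prod_congr rfl fun a ha =>
      if_neg (Finset.mem_erase.1 ha).1, Finset.prod_const, ← b1, ← Finset.card_erase_add_one b3,
      show (S.filter fun a => ¬ ρ (c a) = a).card = k by omega]
    ring

end Pool.Agent.Lib.MP_46505f_co
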