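import Pool.Agent.Lib.MP_46505f_co.Zyk2

set_option autoImplicit false
set_option linter.unusedSectionVars false
open Finset Filter Topology

namespace Pool.Agent.Lib.MP_46505f_co

/- Tools for the dense case. -/

variable {V : Type} [Fintype V] [DecidableEq V] {W : Type} [Fintype W] [DecidableEq W]
  {H : SimpleGraph W}

open Classical in
theorem demb [Nonempty W] {I : Finset W} (hT : (outside H I).IsAcyclic) {side : W → Bool}
    (hside : ∀ a b, (outside H I).Adj a b → side a ≠ side b) (σ : W → W → Bool) (Vt : W → Prop)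
    (hσ : ∀ a ∉ I, ∀ z ∈ I, H.Adj a z → Vt z → side a = σ (cl H I a) z) {α α' : ℝ} (hα : 0 < α)
    (hα1 : α ≤ 1) (h0 : 0 < α') (h1 : α' ≤ 1) : ∃ ε > (0 : ℝ), ∃ C : ℕ, ∀ (V : Type) [Fintype V]
    [DecidableEq V] (G F : SimpleGraph V) (X V' : Finset V) (Z : W → Finset V), ¬ Col F X C →
    X ⊆ V' → (∀ a b x y, (outside H I).Adj a b → F.Adj x y → G.Adj x y) →
    (∀ z ∈ I, Z z ⊆ V' ∧ Disjoint X (Z z) ∧ C ≤ (Z z).card ∧ ∀ x ∈ X, ∀ y ∈ X, F.Adj x y →
      α * (Z z).card ≤ (nb G x (Z z) ∩ if Vt z then univ else nb G y (Z z)).card) →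
    (∀ a ∈ I, ∀ b ∈ I, H.Adj a b → LR G α' (ε * (Z a).card) (ε * (Z b).card) (Z a) (Z b)) →
    (embs H G V').Nonempty := by
  obtain ⟨R, -⟩ := exists_rooting hT (Classical.arbitrary W)
  obtain ⟨β, hβ, C, hz⟩ := zyk2 R side hside σ Vt hα hα1
  obtain ⟨b, hb⟩ : ∃ x, x = α' ^ Fintype.card W * β := ⟨_, rfl⟩
  have b0 : 0 < b := by rw [hb]; positivity
  obtain ⟨ε, e1, e0⟩ := ((ev_small (2 * (Fintype.card W + 1)) b0).and self_mem_nhdsWithin).exists
  replace e0 : 0 < ε := e0
  obtain ⟨C', c1, c2⟩ := ((tendsto_natCast_atTop_atTop.eventually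
    (ev_large (2 * (Fintype.card W + 1)) b0)).and (eventually_ge_atTop (C + 1))).exists
  refine ⟨ε, e0, C', fun V _ _ G F X V' Z hc hX hF hZ hL => ?_⟩
  have : Nonempty V := ⟨(nonempty_of_not_col hc).choose⟩
  obtain ⟨θ, a1, a2, a3⟩ := hz V F X (fun z x => if z ∈ I then nb G x (Z z) else univ)
    (fun z => if z ∈ I then Z z else univ) (fun c => hc (c.mono le_rfl Subset.rfl (by omega)))
    (fun z => by
      split_ifs with e
      exacts [Finset.card_pos.1 (lt_of_lt_of_le (by omega) (hZ z e).2.2.1), univ_nonempty])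
    fun x hx y hy e z => by
      by_cases f : z ∈ I
      · simp only [if_pos f]
        exact ((hZ z f).2.2.2 x hx y hy e).trans (Nat.cast_le.2 (Finset.card_le_card fun v hv =>
          Finset.mem_inter.2 ⟨(mem_nb.1 (Finset.mem_inter.1 hv).1).1, hv⟩))
      · simpa [f] using mul_le_of_le_one_left (by positivity) hα1
  obtain ⟨D, hD⟩ : ∃ D : W → Finset V, D = fun z => (Z z).filter fun v => ∀ j a,
    (Vt z → side a = σ j z) → v ∈ nb G (θ j a) (Z z) := ⟨_, rfl⟩
  have d1 : ∀ z ∈ I, b * (Z z).card ≤ α' ^ Fintype.card W * (D z).card := fun z hz => by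
    have := a3 z
    simp only [if_pos hz] at this
    rw [hb, mul_assoc, hD]; gcongr
  have d2 : ∀ z, D z ⊆ Z z := fun z => hD ▸ Finset.filter_subset _ _
  have hh := (Fintype.card W).cast_nonneg (α := ℝ)
  have := lr_count (G := G) (R := outside H Iᶜ) (C := D) h0.le h1 (e := fun a => ε * (Z a).card)
    (c := fun _ => 1) I (fun a ha l e => by
      have hl : l ∈ I := by simpa using e.2.2
      exact (hL a ha l hl e.1).mono (fun _ _ _ _ h => h) le_rfl le_rfl (le_trans (by
        gcongr; nlinarith) (d1 l hl)) (d2 a) (d2 l)) fun a ha => by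
      have f1 : (C' : ℝ) ≤ (Z a).card := Nat.cast_le.2 (hZ a ha).2.2.1
      have f2 := mul_le_mul_of_nonneg_right e1 ((Z a).card.cast_nonneg (α := ℝ))
      have f3 := mul_le_mul_of_nonneg_left f1 b0.le
      have f4 : 0 ≤ ε * (Z a).card := by positivity
      exact ⟨zero_le_one, f4, by linarith [d1 a ha]⟩
  have n0 : (0 : ℝ) < Fintype.card V := by exact_mod_cast Fintype.card_pos
  obtain ⟨ψ, hψ⟩ := Finset.card_pos.1 (Nat.cast_pos.1 ((mul_pos_iff_of_pos_left
    (by positivity)).1 (lt_of_lt_of_le (by simp only [Finset.prod_const_one]; positivity) this)))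
  obtain ⟨p1, p2, -⟩ := (Finset.mem_filter.1 hψ).2
  simp only [mem_cand] at p1
  have p3 : ∀ j a, θ j a ∈ X := fun j => (mem_homs.1 (a1 j)).1
  have p4 : ∀ a ∉ I, ∀ z ∈ I, H.Adj a z → G.Adj (θ (cl H I a) a) (ψ z) := fun a ha z hz e =>
    (mem_nb.1 ((Finset.mem_filter.1 (hD ▸ (p1 z hz).1 :)).2 _ a (hσ a ha z hz e))).2
  have p5 : ∀ j a, ∀ z ∈ I, θ j a ≠ ψ z := fun j a z hz e =>
    Finset.disjoint_left.1 (hZ z hz).2.1 (p3 j a) (e ▸ d2 z (p1 z hz).1)
  refine ⟨fun a => if a ∈ I then ψ a else θ (cl H I a) a, Finset.mem_filter.2 ⟨mem_homs.2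
    ⟨fun a => ?_, fun a b e => ?_⟩, fun a b e => ?_⟩⟩
  · split_ifs with f
    exacts [(hZ a f).1 (d2 a (p1 a f).1), hX (p3 _ _)]
  · split_ifs with f g g
    · exact (p1 b g).2 a f ⟨e, by simpa using f, by simpa using g⟩
    · exact (p4 b g a f e.symm).symm
    · exact p4 a f b g e
    · rw [cl_adj (show (outside H I).Adj a b from ⟨e, f, g⟩)]
      exact hF a b _ _ ⟨e, f, g⟩ ((mem_homs.1 (a1 _)).2 a b ⟨e, f, g⟩)
  · dsimp only at e
    split_ifs at e with f g g
    exacts [p2 f g e, absurd e.symm (p5 _ _ a f), absurd e (p5 _ _ b g),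
      (Prod.ext_iff.1 (@a2 (_, a) (_, b) e)).2]

lemma edge_col {G G0 : SimpleGraph V} (hG : G ≤ G0) {p η M m γ β : ℝ} {t : ℕ} (hU : UU G0 p η M)
    (hL : LU G0 p η M) {X C : Finset V} (hd : Disjoint X C) (hp : 0 < p) (hm : 0 < m) (e0 : 0 ≤ η)
    (e1 : 20 * η ≤ γ) (h0 : 0 < γ) (h1 : γ ≤ 1) (hβ : β ≤ γ * p ^ 2) (ht : 0 < t)
    (hM : M ≤ η * (t * (p * m)))
    (hx : ∀ x ∈ X, (1 / 2 + γ) * (p * m) ≤ dg G x C ∧ dg G0 x C ≤ (1 + 5 * η) * (p * m)) :
    Col (egr G fun x y => ((nb G x C ∩ nb G y C).card : ℝ) < β * m) X t := by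
  refine col_of_noCore _ fun Q hQ hne => by_contra fun c => ?_
  push Not at c
  set F := egr G fun x y => ((nb G x C ∩ nb G y C).card : ℝ) < β * m
  have hpm := mul_pos hp hm
  have d0 : ∀ (G' : SimpleGraph V) x, Disjoint (nb F x Q) (nb G' x C) := fun G' x =>
    hd.mono (fun _ h => hQ (mem_nb.1 h).1) fun _ h => (mem_nb.1 h).1
  have a1 : ∀ x ∈ Q, (1 - η) * ((1 / 2 + γ) * (p * (p * m))) * dg F x Q ≤
      eb G0 (nb F x Q) (nb G x C) := fun x h => by
    have b1 := (hx x (hQ h)).1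
    refine le_trans ?_ (hL _ _ (d0 G x) (hM.trans ?_))
    · calc _ = (1 - η) * (p * (dg F x Q * ((1 / 2 + γ) * (p * m)))) := by ring
        _ ≤ _ := by unfold dg at b1 ⊢; gcongr; linarith
    · calc _ ≤ t * ((1 / 2 + γ) * (p * m)) := by rw [mul_left_comm]; gcongr; linarith
        _ ≤ _ := mul_le_mul (c x h) b1 (by positivity) (by positivity)
  have a2 : ∀ x ∈ Q, eb G0 (nb F x Q) (nb G0 x C) ≤
      (1 + η) * ((1 + 6 * η) * (p * (p * m))) * dg F x Q := fun x h => by
    refine (hU _ _ (d0 G0 x)).trans ?_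
    have b1 := mul_le_mul_of_nonneg_left (hx x (hQ h)).2 (dg F x Q).cast_nonneg
    have b2 := mul_le_mul_of_nonneg_left (c x h) (by positivity : 0 ≤ η * (p * m))
    calc _ ≤ (1 + η) * (p * ((1 + 6 * η) * (p * m) * dg F x Q)) := by
          unfold dg at b1 b2 ⊢; gcongr; linarith
      _ = _ := by ring
  have a3 : ∀ x ∈ Q, eb G0 (nb F x Q) (nb G x C) + ∑ y ∈ nb F x Q, (dg G0 x (nb G y C) : ℝ) ≤
      β * m * dg F x Q + eb G0 (nb F x Q) (nb G0 x C) := fun x _ => by
    rw [eb, eb, dg, mul_comm, ← nsmul_eq_mul, ← Finset.sum_const, ← Finset.sum_add_distrib,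
      ← Finset.sum_add_distrib]
    refine Finset.sum_le_sum fun y hy => le_trans ?_ (add_le_add (mem_nb.1 hy).2.2.1.le le_rfl)
    norm_cast
    rw [dg, dg, ← Finset.card_inter_add_card_union]
    refine add_le_add (Finset.card_le_card fun v hv => ?_) (Finset.card_le_card fun v hv => ?_)
    · simp only [Finset.mem_inter, mem_nb] at hv ⊢
      exact ⟨hv.1.1, hv.2.1⟩
    · simp only [Finset.mem_union, mem_nb] at hv ⊢
      exact hv.elim (fun h => ⟨⟨h.1.1, hG h.1.2⟩, h.2⟩) fun h => ⟨⟨h.1.1, h.2⟩, hG h.1.2⟩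
  have a4 : ∑ x ∈ Q, ∑ y ∈ nb F x Q, (dg G0 x (nb G y C) : ℝ) =
      ∑ x ∈ Q, eb G0 (nb F x Q) (nb G x C) :=
    Finset.sum_comm' fun x y => by simp only [mem_nb, F.adj_comm x]; tauto
  have b1 := Finset.sum_le_sum a1
  have b2 := Finset.sum_le_sum a2
  have b3 := Finset.sum_le_sum a3
  have b4 : 0 < ∑ x ∈ Q, (dg F x Q : ℝ) := Finset.sum_pos (fun x h => lt_of_lt_of_le
    (by exact_mod_cast ht) (c x h)) hne
  simp only [Finset.sum_add_distrib, ← Finset.mul_sum, a4] at b1 b2 b3
  have b5 := mul_le_mul_of_nonneg_right hβ (mul_pos hm b4).le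
  have b6 : γ + (1 + η) * (1 + 6 * η) < 2 * ((1 - η) * (1 / 2 + γ)) := by nlinarith
  have b7 := mul_lt_mul_of_pos_right b6 (mul_pos (mul_pos hp hpm) b4)
  linarith

open Classical in
lemma greedy {κ : Type} [Fintype κ] [Nonempty κ] (R : SimpleGraph κ) {x : ℝ} (S : ℕ → Finset κ)
    (h : ∀ t, ∀ v ∈ S t, ((univ.filter fun u => ¬ R.Adj v u).card : ℝ) ≤ x) : ∀ s : ℕ,
    (∀ t < s, t * x < (S t).card) →
    ∃ φ : ℕ → κ, (∀ t < s, φ t ∈ S t) ∧ ∀ t < s, ∀ u < s, t ≠ u → R.Adj (φ t) (φ u)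
  | 0, _ => ⟨Classical.arbitrary _, by simp, by simp⟩
  | s + 1, hs => by
    obtain ⟨φ, h1, h2⟩ := greedy R S h s fun t ht => hs t (by omega)
    obtain ⟨v, v1, v2⟩ := Finset.exists_mem_notMem_of_card_lt_card (s := (range s).biUnion fun t =>
      univ.filter fun u => ¬ R.Adj (φ t) u) (t := S s) (by
        rw [← Nat.cast_lt (α := ℝ)]
        refine lt_of_le_of_lt ((Nat.cast_le.2 Finset.card_biUnion_le).trans ?_) (hs s (by omega))
        rw [Nat.cast_sum]
        simpa using Finset.sum_le_card_nsmul _ _ x fun t ht => h t _ (h1 t (Finset.mem_range.1 ht)))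
    have v3 : ∀ t < s, R.Adj (φ t) v := by simpa using v2
    refine ⟨Function.update φ s v, fun t ht => ?_, fun t ht u hu e => ?_⟩
    · rcases (by omega : t = s ∨ t < s) with rfl | f
      · rwa [Function.update_self]
      · rw [Function.update_of_ne f.ne]; exact h1 t f
    · rcases (by omega : t = s ∨ t < s) with f | f <;>
        rcases (by omega : u = s ∨ u < s) with g | g
      · exact absurd (f.trans g.symm) e
      · rw [f, Function.update_self, Function.update_of_ne g.ne]; exact (v3 u g).symm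
      · rw [g, Function.update_self, Function.update_of_ne f.ne]; exact v3 t f
      · rw [Function.update_of_ne f.ne, Function.update_of_ne g.ne]; exact h2 t f u g e

lemma near_side {c : W → ℕ} (hN : NearAc H c) {side : W → Bool}
    (hs : ∀ a b, (outside H (univ.filter fun v => c v ≠ 0)).Adj a b → side a ≠ side b) :
    ∃ σ : W → W → Bool, ∀ a ∉ univ.filter fun v => c v ≠ 0, ∀ z ∈ univ.filter fun v => c v ≠ 0,
      H.Adj a z → c z = 1 → side a = σ (cl H (univ.filter fun v => c v ≠ 0) a) z := by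
  classical
  set I := univ.filter fun v => c v ≠ 0 with hI
  have key : ∀ l ∉ I, ∀ l' z, c z = 1 → H.Adj l z → H.Adj l' z → cp H I l = cp H I l' →
      side l = side l' := fun l hl l' z hz h h' hc => by
    by_contra hne
    obtain ⟨w⟩ := SimpleGraph.ConnectedComponent.exact hc
    let w1 := w.bypass
    have hp : w1.IsPath := w.bypass_isPath
    have hout : ∀ a ∈ w1.support, c a = 0 := by simpa [hI] using walk_out w1 hl
    let w2 : H.Walk l l' := w1.mapLe out_le
    have hp2 : w2.IsPath := hp.mapLe _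
    have hsup : w2.support = w1.support := by simp [w2]
    have hz2 : z ∉ w2.support := fun e => by simpa [hz] using hout z (hsup ▸ e)
    have hcyc : (SimpleGraph.Walk.cons h.symm (w2.concat h')).IsCycle := by
      rw [SimpleGraph.Walk.cons_isCycle_iff]
      refine ⟨hp2.concat hz2 h', fun e => ?_⟩
      rw [SimpleGraph.Walk.edges_concat, List.concat_eq_append, List.mem_append] at e
      rcases e with e | e
      · exact hz2 (w2.fst_mem_support_of_mem_edges e)
      · simp only [List.mem_singleton, Sym2.eq_iff] at e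
        rcases e with ⟨e, -⟩ | ⟨-, e⟩
        · exact h'.ne e.symm
        · exact hne (by rw [e])
    have hm : ∀ a ∈ (SimpleGraph.Walk.cons h.symm (w2.concat h')).support, a = z ∨ c a = 0 :=
      fun a ha => by
      rw [SimpleGraph.Walk.support_cons, SimpleGraph.Walk.support_concat] at ha
      simp only [List.mem_cons, List.mem_append, List.not_mem_nil, or_false] at ha
      exact ha.elim .inl fun e => e.elim (fun e => .inr (hout a (hsup ▸ e))) .inl
    have := hN z _ hcyc (by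
      have := (side_parity hs w1).2 hne
      rw [SimpleGraph.Walk.length_cons, SimpleGraph.Walk.length_concat]
      have e : w2.length = w1.length := by simp [w2]
      rw [e, add_assoc]
      exact this.add_even (by decide)) fun a ha => (hm a ha).elim (fun e => (e ▸ hz).le)
      fun e => e ▸ zero_le_one
    refine absurd (this.trans (Finset.card_le_card (t := {z}) fun a ha => ?_)) (by simp)
    rw [Finset.mem_filter, List.mem_toFinset] at ha
    exact Finset.mem_singleton.2 ((hm a ha.1).resolve_right (by omega))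
  refine ⟨fun j z => if h : ∃ a, cl H I a = j ∧ H.Adj a z then side h.choose else false,
    fun a ha z _ e f => ?_⟩
  have h' : ∃ b, cl H I b = cl H I a ∧ H.Adj b z := ⟨a, rfl, e⟩
  simp only [dif_pos h']
  exact key a ha _ z f e h'.choose_spec.2 (cl_eq_iff.1 h'.choose_spec.1.symm)

end Pool.Agent.Lib.MP_46505f_co
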