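import Pool.Agent.Lib.MP_46505f_co.Hard3

set_option autoImplicit false
set_option linter.unusedSectionVars false
open Finset Filter Topology

namespace Pool.Agent.Lib.MP_46505f_co

/- The upper bounds in the dense case. -/

variable {V : Type} [Fintype V] [DecidableEq V] {W : Type} [Fintype W] [DecidableEq W]
  {H : SimpleGraph W} {κ : Type} [Fintype κ] [DecidableEq κ]

def fib (cls : V → κ) (i : κ) : Finset V := univ.filter fun v => cls v = i

lemma mem_fib {cls : V → κ} {i : κ} {v : V} : v ∈ fib cls i ↔ cls v = i := by simp [fib]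

lemma eb_dens (G : SimpleGraph V) [DecidableRel G.Adj] (s t : Finset V) :
    (G.edgeDensity s t : ℝ) = eb G s t / (s.card * t.card) := by
  rw [SimpleGraph.edgeDensity_def, SimpleGraph.interedges_def, Finset.card_filter,
    Finset.sum_product]
  push_cast
  simp only [eb, dg_eq_sum]
  congr 1
  exact Finset.sum_congr rfl fun _ _ => Finset.sum_congr rfl fun _ _ => by split_ifs <;> simp

def NU (G : SimpleGraph V) (cls : V → κ) (α ε : ℝ) (i j : κ) : Prop :=
  i ≠ j ∧ ¬ LR G α (ε * (fib cls i).card) (ε * (fib cls j).card) (fib cls i) (fib cls j) ∧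
    (α + ε) * ((fib cls i).card * (fib cls j).card) ≤ eb G (fib cls i) (fib cls j)

theorem reg {ε : ℝ} (hε : 0 < ε) (l : ℕ) : ∃ K : ℕ, ∀ (V : Type) [Fintype V] [DecidableEq V]
    (G : SimpleGraph V), l ≤ Fintype.card V → ∃ (κ : Type) (_ : Fintype κ) (_ : DecidableEq κ)
    (cls : V → κ), l ≤ Fintype.card κ ∧ Fintype.card κ ≤ K ∧
      (∀ i, ((fib cls i).card : ℝ) ≤ Fintype.card V / Fintype.card κ + 1) ∧
      ∀ α, cnt univ (fun x : κ × κ => NU G cls α ε x.1 x.2) ≤ ε * (Fintype.card κ : ℝ) ^ 2 := by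
  classical
  refine ⟨SzemerediRegularity.bound ε l, fun V _ _ G hl => ?_⟩
  obtain ⟨P, h1, h2, h3, h4⟩ := szemeredi_regularity G hε hl
  have a1 : ∀ i : P.parts, fib (fun v => (⟨P.part v, P.part_mem.2 (mem_univ v)⟩ : P.parts)) i = i :=
    fun i => Finset.ext fun v => by rw [mem_fib, Subtype.ext_iff]; exact P.part_eq_iff_mem i.2
  refine ⟨P.parts, inferInstance, inferInstance, fun v => ⟨P.part v, P.part_mem.2 (mem_univ v)⟩,
    by simpa, by simpa using h3, fun i => ?_, fun α => le_trans (Nat.cast_le.2 ?_) (h4.trans ?_)⟩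
  · rw [a1, Fintype.card_coe]
    refine (Nat.cast_le.2 (h1.card_part_le_average_add_one i.2)).trans ?_
    push_cast
    gcongr
    exact Nat.cast_div_le
  · refine Finset.card_le_card_of_injOn (fun x => (x.1.1, x.2.1)) (fun x hx => ?_)
      fun x _ y _ e => Prod.ext (Subtype.ext (Prod.ext_iff.1 e).1) (Subtype.ext (Prod.ext_iff.1 e).2)
    obtain ⟨b1, b2, b3⟩ := (Finset.mem_filter.1 hx).2
    rw [a1, a1] at b2 b3
    refine (Finpartition.mk_mem_nonUniforms _ _).2 ⟨x.1.2, x.2.2, fun e => b1 (Subtype.ext e),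
      fun e => b2 fun s c1 t c2 c3 c4 => ?_⟩
    have d1 : (0 : ℝ) < x.1.1.card := by exact_mod_cast (P.nonempty_of_mem_parts x.1.2).card_pos
    have d2 : (0 : ℝ) < x.2.1.card := by exact_mod_cast (P.nonempty_of_mem_parts x.2.2).card_pos
    have d3 := (abs_lt.1 (e c1 c2 (mul_comm ε _ ▸ c3) (mul_comm ε _ ▸ c4))).1
    rw [eb_dens, eb_dens] at d3
    rw [← le_div_iff₀ (by positivity)] at b3
    rw [← le_div_iff₀ (mul_pos (lt_of_lt_of_le (by positivity) c3)
      (lt_of_lt_of_le (by positivity) c4))]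
    linarith
  · rw [Fintype.card_coe, mul_comm, sq]
    gcongr
    exact_mod_cast Nat.mul_le_mul_left _ (Nat.sub_le _ _)

lemma dg_fib (G : SimpleGraph V) (cls : V → κ) (x : V) (U : Finset V) :
    (dg G x U : ℝ) ≤ ∑ i, (dg G x (fib cls i ∩ U) : ℝ) := by
  exact_mod_cast le_trans (Finset.card_le_card fun v hv => Finset.mem_biUnion.2 ⟨cls v, mem_univ _,
    mem_nb.2 ⟨Finset.mem_inter.2 ⟨mem_fib.2 rfl, (mem_nb.1 hv).1⟩, (mem_nb.1 hv).2⟩⟩)
    Finset.card_biUnion_le

lemma sum_ind (S : Finset κ) (y : ℝ) : ∑ i, (if i ∈ S then y else 0) = S.card * y := by simp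

lemma dg_le_card (G : SimpleGraph V) (x : V) (U : Finset V) : (dg G x U : ℝ) ≤ U.card :=
  Nat.cast_le.2 (Finset.card_le_card fun _ h => (mem_nb.1 h).1)

open Classical in
noncomputable def Ix (G : SimpleGraph V) (cls : V → κ) (U : Finset V) (B : Finset κ) (y : ℝ)
    (x : V) : Finset κ := univ.filter fun i => i ∉ B ∧ i ≠ cls x ∧ y ≤ dg G x (fib cls i ∩ U)

lemma mem_Ix {G : SimpleGraph V} {cls : V → κ} {U : Finset V} {B : Finset κ} {y : ℝ} {x : V}
    {i : κ} : i ∈ Ix G cls U B y x ↔ i ∉ B ∧ i ≠ cls x ∧ y ≤ dg G x (fib cls i ∩ U) := by simp [Ix]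

variable {G G0 : SimpleGraph V} {cls : V → κ} {U : Finset V} {B : Finset κ} {d p m g : ℝ}

lemma vert (hp : 0 < p) (hm : 0 < m) (hg : 0 < g) (hg1 : g ≤ 1) {y : ℝ}
    (hy : y ≤ g * (p * m)) (hK : 2 ≤ g * p * Fintype.card κ) (hB : B.card ≤ g * Fintype.card κ)
    (hs : ∀ i, (fib cls i).card ≤ 2 * m) {x : V} (h1 : d * (p * (Fintype.card κ * m)) ≤ dg G x U)
    (h2 : ∀ i ≠ cls x, dg G x (fib cls i ∩ U) ≤ (1 + g) * (p * m)) :
    2 * ((d - 6 * g) * Fintype.card κ) ≤
      (Ix G cls U B y x).card + (Ix G cls U B ((1 / 2 + g) * (p * m)) x).card := by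
  have hpm := mul_pos hp hm
  have a1 := h1.trans ((dg_fib G cls x U).trans (Finset.sum_le_sum (g := fun i =>
    (if i ∈ ({cls x} : Finset κ) then 2 * m else 0) + (if i ∈ B then 2 * (p * m) else 0) +
    (if i ∈ Ix G cls U B y x then 1 / 2 * (p * m) else 0) +
    (if i ∈ Ix G cls U B ((1 / 2 + g) * (p * m)) x then 1 / 2 * (p * m) else 0) + g * (p * m))
    fun i _ => ?_))
  · simp only [Finset.sum_add_distrib, sum_ind, Finset.sum_const, Finset.card_univ, nsmul_eq_mul,
      Finset.card_singleton, Nat.cast_one] at a1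
    refine le_of_mul_le_mul_right ?_ hpm
    have := mul_le_mul_of_nonneg_right hK hm.le
    have := mul_le_mul_of_nonneg_right hB hpm.le
    have : 0 ≤ g * (p * m) * Fintype.card κ := by positivity
    linarith
  · have a2 := (dg_le_card G x (fib cls i ∩ U)).trans ((Nat.cast_le.2
      (Finset.card_le_card Finset.inter_subset_left)).trans (hs i))
    have a3 := mul_pos hg hpm
    have a4 := mul_le_mul_of_nonneg_right hg1 hpm.le
    simp only [mem_Ix, Finset.mem_singleton]
    by_cases e1 : i = cls x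
    · simp only [e1, if_true, ne_eq, not_true, false_and, and_false, if_false] at a2 ⊢
      split_ifs <;> linarith
    have := h2 i e1
    by_cases e2 : i ∈ B
    · simp only [e1, e2, if_true, not_true, false_and, if_false]; linarith
    simp only [e1, e2, ne_eq, not_false_iff, true_and, if_false]
    split_ifs <;> linarith

open Classical in
lemma clus (hG : G ≤ G0) {η M α α' ε : ℝ} (hU : UU G0 p η M) (hp : 0 < p) (hm : 0 < m) (hg : 0 < g)
    (hg1 : g ≤ 1) (e0 : 0 ≤ η) (e1 : 5 * η ≤ g) (hα : 0 < α) (hM : M ≤ η * (α * m * m))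
    (h0 : 0 ≤ α' + ε) (h1 : 4 * (α' + ε) ≤ g * p * α) (hK : 2 ≤ g * p * Fintype.card κ)
    (hs : ∀ i, (fib cls i).card ≤ (1 + η) * m)
    (hd : ∀ v ∈ U, d * (p * (Fintype.card κ * m)) ≤ dg G v U) {i : κ}
    (hi : α * m ≤ (fib cls i ∩ U).card) (hB : cnt univ (NU G cls α' ε i) ≤ g * Fintype.card κ) :
    (univ.filter fun j => ¬ (i ≠ j ∧ LR G α' (ε * (fib cls i).card) (ε * (fib cls j).card)
      (fib cls i) (fib cls j))).card ≤ (1 - d + 6 * g) * Fintype.card κ := by
  obtain ⟨A, hA⟩ : ∃ x, x = fib cls i ∩ U := ⟨_, rfl⟩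
  obtain ⟨N, hN⟩ : ∃ x, x = univ.filter fun j => i ≠ j ∧ LR G α' (ε * (fib cls i).card)
    (ε * (fib cls j).card) (fib cls i) (fib cls j) := ⟨_, rfl⟩
  rw [← hA] at hi
  rw [cnt_eq_card] at hB
  have A0 : (0 : ℝ) < A.card := lt_of_lt_of_le (by positivity) hi
  have hpm := mul_pos (mul_pos hp hm) A0
  have s2 : ∀ i, (fib cls i).card ≤ 2 * m := fun i => (hs i).trans (by gcongr; linarith)
  have a1 := (Finset.card_nsmul_le_sum A _ _ fun v hv => (hd v (Finset.mem_inter.1 (hA ▸ hv)).2).trans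
    (dg_fib G cls v U)).trans (Finset.sum_comm.trans_le (Finset.sum_le_sum (g := fun j =>
    (if j ∈ ({i} : Finset κ) then 2 * m * A.card else 0) +
    (if j ∈ N then (1 + g) * (p * m * A.card) else 0) +
    (if j ∈ univ.filter (NU G cls α' ε i) then 2 * (p * m * A.card) else 0) + g * (p * m * A.card))
    fun j _ => ?_))
  · simp only [Finset.sum_add_distrib, sum_ind, Finset.sum_const, Finset.card_univ, nsmul_eq_mul,
      Finset.card_singleton, Nat.cast_one] at a1
    have a2 := (Nat.cast_inj (R := ℝ)).2 (Finset.card_filter_add_card_filter_not (s := univ)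
      fun j => i ≠ j ∧ LR G α' (ε * (fib cls i).card) (ε * (fib cls j).card) (fib cls i) (fib cls j))
    rw [← hN, Finset.card_univ, Nat.cast_add] at a2
    have a3 : (N.card : ℝ) ≤ Fintype.card κ := Nat.cast_le.2 (Finset.card_le_univ _)
    have : (d - 6 * g) * Fintype.card κ ≤ N.card := by
      refine le_of_mul_le_mul_right ?_ hpm
      have := mul_le_mul_of_nonneg_right hK (mul_pos hm A0).le
      have := mul_le_mul_of_nonneg_right hB hpm.le
      have := mul_le_mul_of_nonneg_right a3 (mul_pos hg hpm).le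
      have : 0 ≤ g * (p * m * A.card) * Fintype.card κ := by positivity
      linarith
    linarith
  · have a2 : ∑ v ∈ A, (dg G v (fib cls j ∩ U) : ℝ) ≤ eb G A (fib cls j) :=
      Finset.sum_le_sum fun v _ => Nat.cast_le.2 (dg_mono le_rfl v Finset.inter_subset_left)
    have a3 := mul_pos hg hpm
    refine a2.trans ?_
    by_cases f1 : j = i
    · have := Finset.sum_le_card_nsmul A _ _ fun v _ => (dg_le_card G v (fib cls j)).trans (s2 j)
      rw [nsmul_eq_mul] at this
      simp only [f1, Finset.mem_singleton, if_true] at this ⊢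
      split_ifs <;> nlinarith
    have a4 : eb G A (fib cls j) ≤ (1 + g) * (p * m * A.card) := by
      refine (hU.anti hG A _ (Finset.disjoint_left.2 fun v h h' => f1 ((mem_fib.1 h').symm.trans
        (mem_fib.1 (Finset.mem_inter.1 (hA ▸ h)).1)))).trans ?_
      have b1 := mul_le_mul_of_nonneg_left (hs j) A0.le
      have b2 := mul_le_mul_of_nonneg_left hi (mul_nonneg e0 hm.le)
      calc _ ≤ (1 + η) * (p * ((1 + 2 * η) * (m * A.card))) := by gcongr; linarith
        _ = (1 + η) * (1 + 2 * η) * (p * m * A.card) := by ring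
        _ ≤ _ := by gcongr; nlinarith
    have a5 := mul_le_mul_of_nonneg_right hg1 hpm.le
    simp only [Finset.mem_singleton, f1, if_false]
    split_ifs with f2 f3 f3
    · linarith
    · linarith
    · linarith
    simp only [hN, Finset.mem_filter, mem_univ, true_and, NU, not_and, not_le] at f2 f3
    have b1 := f3 (Ne.symm f1) (f2 (Ne.symm f1))
    have b2 : eb G A (fib cls j) ≤ eb G (fib cls i) (fib cls j) :=
      Finset.sum_le_sum_of_subset_of_nonneg (hA ▸ Finset.inter_subset_left) fun _ _ _ => by positivity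
    have b3 := mul_le_mul_of_nonneg_left (mul_le_mul (s2 i) (s2 j) (by positivity)
      (by positivity)) h0
    have b4 := mul_le_mul_of_nonneg_right h1 (mul_pos hm hm).le
    have b5 := mul_le_mul_of_nonneg_left hi (mul_pos hg (mul_pos hp hm)).le
    linarith

lemma few_ex {η M : ℝ} (hU : UU G0 p η M) (hp : 0 < p) (hm : 0 < m) (e0 : 0 < η) (e1 : η ≤ 1)
    {C : Finset V} (hs : C.card ≤ (1 + η) * m) {t : ℝ} (hM : M ≤ t * (η * m)) :
    ((univ.filter fun x => x ∉ C ∧ (1 + 5 * η) * (p * m) < dg G0 x C).card : ℝ) ≤ t := by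
  obtain ⟨E, hE⟩ : ∃ x, x = univ.filter fun x => x ∉ C ∧ (1 + 5 * η) * (p * m) < dg G0 x C :=
    ⟨_, rfl⟩
  have a1 := (Finset.card_nsmul_le_sum E _ _ fun v hv => (Finset.mem_filter.1 (hE ▸ hv)).2.2.le).trans
    (hU E C (Finset.disjoint_left.2 fun v hv => (Finset.mem_filter.1 (hE ▸ hv)).2.1))
  rw [← hE]
  rw [nsmul_eq_mul] at a1
  have a2 : (1 + η) * (p * (E.card * C.card + M)) ≤
      (1 + η) * (p * (E.card * ((1 + η) * m) + t * (η * m))) := by gcongr
  refine le_of_mul_le_mul_right ?_ (by positivity : 0 < (1 + η) * (p * (η * m)))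
  have a3 := mul_le_mul_of_nonneg_right e1 (by positivity : 0 ≤ η * (p * m) * E.card)
  linarith

end Pool.Agent.Lib.MP_46505f_co
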