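import Pool.Agent.Lib.MP_46505f_co.Del

set_option autoImplicit false
set_option linter.unusedSectionVars false
open Finset
open Pool.Agent.Lib.MP_eaf82e_pr

namespace Pool.Agent.Lib.MP_46505f_co

/- High moments of pattern counts and deletion of designated edges. -/

variable {V : Type} [Fintype V] [DecidableEq V] {p : ℝ}

lemma moment {ι κ : Type*} [Fintype ι] [DecidableEq ι] (h0 : 0 ≤ p) (Φ : Finset κ)
    (e : κ → Finset ι) {k R : ℕ} {μ : ℝ} (hk : ∀ φ ∈ Φ, (e φ).card ≤ k)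
    (hμ : ∀ E : Finset ι, E.card ≤ R * k → ∑ φ ∈ Φ, p ^ (e φ \ E).card ≤ μ) :
    ∀ (r : ℕ) (E : Finset ι), E.card + r * k ≤ R * k → Ex (fun _ => p) (fun ω =>
      (∑ φ ∈ Φ, one (e φ ⊆ rs ω)) ^ r * one (E ⊆ rs ω)) ≤ μ ^ r * p ^ E.card := by
  have hμ0 : 0 ≤ μ := le_trans (Finset.sum_nonneg fun _ _ => by positivity) (hμ ∅ (by simp))
  intro r
  induction r with
  | zero => intro E _; simpa [Pr] using (Pr_sub (p := p) E).le
  | succ r ih =>
    intro E hE
    have e1 : ∀ ω : ι → Bool, (∑ φ ∈ Φ, one (e φ ⊆ rs ω)) ^ (r + 1) * one (E ⊆ rs ω) =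
        ∑ ψ ∈ Φ, (∑ φ ∈ Φ, one (e φ ⊆ rs ω)) ^ r * one (e ψ ∪ E ⊆ rs ω) := fun ω => by
      simp only [Finset.union_subset_iff, one_and']
      rw [← Finset.mul_sum, ← Finset.sum_mul]; ring
    simp only [e1]
    rw [Ex_sum]
    refine (Finset.sum_le_sum (g := fun ψ => μ ^ r * p ^ E.card * p ^ (e ψ \ E).card)
      fun ψ hψ => (ih _ ?_).trans_eq ?_).trans ?_
    · have := Finset.card_union_le (e ψ) E
      have := hk ψ hψ
      rw [add_mul] at hE; omega
    · rw [← Finset.card_sdiff_add_card, pow_add]; ring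
    · rw [← Finset.mul_sum, pow_succ, mul_right_comm]
      have := hμ E (by omega)
      gcongr

lemma moment_tail {ι κ : Type*} [Fintype ι] [DecidableEq ι] (h0 : 0 ≤ p) (h1 : p ≤ 1)
    (Φ : Finset κ) (e : κ → Finset ι) {k R : ℕ} {μ a : ℝ} (ha : 0 < a)
    (hk : ∀ φ ∈ Φ, (e φ).card ≤ k)
    (hμ : ∀ E : Finset ι, E.card ≤ R * k → ∑ φ ∈ Φ, p ^ (e φ \ E).card ≤ μ) :
    Pr (fun _ => p) (fun ω => a ≤ ∑ φ ∈ Φ, one (e φ ⊆ rs ω)) ≤ (μ / a) ^ R := by
  have := moment h0 Φ e hk hμ R ∅ (by simp)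
  simp only [Finset.empty_subset, one_pos' trivial, mul_one, Finset.card_empty, pow_zero] at this
  rw [div_pow]
  refine (Pr_markov (isP_const h0 h1) (a := a ^ R) (by positivity) (fun ω => pow_nonneg
    (Finset.sum_nonneg fun _ _ => one_nonneg _) R) fun ω h => by gcongr).trans ?_
  gcongr

lemma del2 {κ : Type*} (Φ : Finset κ) (e : κ → Finset (Sym2 V)) (d : κ → Sym2 V)
    (hd : ∀ φ ∈ Φ, d φ ∈ e φ) {G G1 : Finset (Sym2 V)} (hG : G1 ⊆ G) :
    ∃ E ⊆ G1, (∀ φ ∈ Φ, ¬ e φ ⊆ E) ∧ ∀ v, (dg (gr G1) v univ : ℝ) ≤ dg (gr E) v univ +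
      ∑ φ ∈ Φ.filter fun φ => v ∈ d φ, one (e φ ⊆ G) := by
  classical
  refine ⟨G1 \ (Φ.filter fun φ => e φ ⊆ G).image d, Finset.sdiff_subset, fun φ hφ h =>
    (Finset.mem_sdiff.1 (h (hd φ hφ))).2 (Finset.mem_image_of_mem _ (Finset.mem_filter.2
      ⟨hφ, h.trans (Finset.sdiff_subset.trans hG)⟩)), fun v => ?_⟩
  rw [← cnt_eq_sum]
  norm_cast
  refine le_trans (Finset.card_le_card fun u hu => ?_) ((Finset.card_union_le _ (univ.filter
    fun u => s(v, u) ∈ ((Φ.filter fun φ => v ∈ d φ).filter fun φ => e φ ⊆ G).image d)).trans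
    (Nat.add_le_add_left (le_trans (Finset.card_le_card_of_injOn (fun u => s(v, u)) (fun u hu =>
      (Finset.mem_filter.1 hu).2) fun _ _ _ _ e => Sym2.congr_right.1 e)
      (Finset.card_image_le.trans (le_of_eq (by unfold cnt; congr)))) _))
  rw [mem_nb, gr_adj] at hu
  by_cases c : s(v, u) ∈ (Φ.filter fun φ => e φ ⊆ G).image d
  · obtain ⟨φ, c1, c2⟩ := Finset.mem_image.1 c
    rw [Finset.mem_filter] at c1
    exact Finset.mem_union_right _ (Finset.mem_filter.2 ⟨mem_univ _, Finset.mem_image.2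
      ⟨φ, Finset.mem_filter.2 ⟨Finset.mem_filter.2 ⟨c1.1, by simp [c2]⟩, c1.2⟩, c2⟩⟩)
  · exact Finset.mem_union_left _ (mem_nb.2 ⟨hu.1, gr_adj.2
      ⟨Finset.mem_sdiff.2 ⟨hu.2.1, c⟩, hu.2.2⟩⟩)

variable {W : Type} [Fintype W] [DecidableEq W]

open Classical in
noncomputable def pat (S : Finset W) (c : W → W) (Nr : V → V → Prop) (v0 : V) (u : W)
    (A : Finset V) : Finset (W → V) :=
  univ.filter fun φ => Set.InjOn φ S ∧ (∀ a ∉ S, φ a = v0) ∧
    (∀ a ∈ S, ∀ b ∈ S, a ≠ b → c a = c b → Nr (φ a) (φ b)) ∧ φ u ∈ A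

lemma mem_pat {S : Finset W} {c : W → W} {Nr : V → V → Prop} {v0 : V} {u : W} {A : Finset V}
    {τ : W → V} (h1 : Function.Injective τ) (h2 : ∀ a b, c a = c b → Nr (τ a) (τ b))
    (h3 : A = univ ∨ u ∈ S ∧ τ u ∈ A) : (fun a => if a ∈ S then τ a else v0) ∈ pat S c Nr v0 u A := by
  classical
  refine Finset.mem_filter.2 ⟨mem_univ _, fun a ha b hb e => ?_, fun a ha => if_neg ha,
    fun a ha b hb _ e => ?_, ?_⟩
  · simp only [if_pos (Finset.mem_coe.1 ha), if_pos (Finset.mem_coe.1 hb)] at e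
    exact h1 e
  · simp only [if_pos ha, if_pos hb]; exact h2 a b e
  · exact h3.elim (fun h => h ▸ mem_univ _) fun h => by simpa only [if_pos h.1] using h.2

lemma sum_one_mem (B : Finset V) : ∑ u, one (u ∈ B) = B.card := by
  classical
  rw [← cnt_eq_sum, cnt]; congr 2; ext; simp

lemma count_pat {S S' : Finset W} (hS : S' ⊆ S) (c : W → W) (Nr : V → V → Prop) (v0 : V) (u : W)
    (A B : Finset V) {M b θ : ℝ}
    (hM : ∀ u, ∀ B : Finset V, (∀ v ∈ B, Nr u v) → B.card ≤ M) (hb : B.card ≤ b)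
    (hθ : θ = 1 ∨ u ∈ S ∧ c u ∉ S'.image c ∧ A.card ≤ θ * Fintype.card V) {f k : ℕ}
    (hf : (S.image c).card = (S'.image c).card + f) (hk : S.card = S'.card + f + k) :
    (((pat S c Nr v0 u A).filter fun φ => ∀ a ∈ S', φ a ∈ B).card : ℝ) ≤
      θ * (b ^ S'.card * (Fintype.card V : ℝ) ^ f * M ^ k) := by
  classical
  have : Nonempty V := ⟨v0⟩
  obtain ⟨ρ, r1, r2, r3⟩ : ∃ ρ : W → W, (∀ a ∈ S, ρ (c a) ∈ S ∧ c (ρ (c a)) = c a) ∧
      (∀ a ∈ S', ρ (c a) ∈ S') ∧ (u ∈ S → c u ∉ S'.image c → ρ (c u) = u) := by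
    refine ⟨fun j => if h : ∃ b ∈ S', c b = j then h.choose else if u ∈ S ∧ c u = j then u else
      if h : ∃ b ∈ S, c b = j then h.choose else j, fun a ha => ?_, fun a ha => ?_,
      fun h1 h2 => ?_⟩
    · have h : ∃ b ∈ S, c b = c a := ⟨a, ha, rfl⟩
      dsimp only
      split_ifs with e1 e2
      exacts [⟨hS e1.choose_spec.1, e1.choose_spec.2⟩, e2, h.choose_spec]
    · have h : ∃ b ∈ S', c b = c a := ⟨a, ha, rfl⟩
      simp only [dif_pos h]; exact h.choose_spec.1
    · dsimp only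
      rw [dif_neg fun h => h2 (Finset.mem_image.2 h), if_pos ⟨h1, rfl⟩]
  have hA : (A.card : ℝ) ≤ θ * Fintype.card V := hθ.elim (fun h => by
    rw [h, one_mul]; exact_mod_cast Finset.card_le_univ _) fun h => h.2.2
  have a2 := seq_upper (fun a => if ρ (c a) = a then 0 else 1) (fun a (τ : W → V) x =>
    if a ∈ S then if a ∈ S' then one (x ∈ B) else if ρ (c a) = a then
      if a = u then one (x ∈ A) else 1 else one (Nr (τ (ρ (c a))) x) else one (x = v0))
    (fun a τ τ' h => by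
      funext x
      by_cases e : a ∈ S ∧ ρ (c a) ≠ a
      · simp only [h (ρ (c a)) (by simp [e.2, (r1 a e.1).2])]
      · rw [not_and_or, not_not] at e
        rcases e with e | e <;> simp [e])
    (fun a τ u => by split_ifs <;> first | exact one_nonneg _ | exact zero_le_one)
    (fun a => if a ∈ S then if a ∈ S' then b else if ρ (c a) = a then
      if a = u then θ * Fintype.card V else Fintype.card V else M else 1)
    fun a τ => by
      split_ifs
      · rwa [sum_one_mem]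
      · rwa [sum_one_mem]
      · simp
      · rw [← cnt_eq_sum]; exact hM _ _ fun v hv => by simpa using hv
      · exact sum_one_eq v0
  refine le_trans ((card_le_sum_of _ _ (fun τ => Finset.prod_nonneg
    fun a _ => by split_ifs <;> first | exact one_nonneg _ | exact zero_le_one)
    fun τ hτ => (Finset.prod_eq_one fun a _ => ?_).ge).trans a2) (le_of_eq ?_)
  · simp only [pat, Finset.mem_filter] at hτ
    split_ifs with b1 b2 b3 b4
    · exact one_pos' (hτ.2 a b2)
    · exact one_pos' (b4 ▸ hτ.1.2.2.2.2)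
    · rfl
    · exact one_pos' (hτ.1.2.2.2.1 _ (r1 a b1).1 _ b1 b3 (r1 a b1).2)
    · exact one_pos' (hτ.1.2.2.1 a b1)
  · obtain ⟨Rt, hRt⟩ : ∃ x, x = (S.filter fun a => a ∉ S').filter fun a => ρ (c a) = a := ⟨_, rfl⟩
    have hm : ∀ a, a ∈ Rt ↔ (a ∈ S ∧ a ∉ S') ∧ ρ (c a) = a := by simp [hRt]
    have b1 : Rt.card = (S.image c \ S'.image c).card :=
      Finset.card_bij (fun a _ => c a) (fun a ha => Finset.mem_sdiff.2 ⟨Finset.mem_image_of_mem _
        ((hm a).1 ha).1.1, fun h => by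
          obtain ⟨a', h1, h2⟩ := Finset.mem_image.1 h
          exact ((hm a).1 ha).1.2 (((hm a).1 ha).2 ▸ h2 ▸ r2 a' h1)⟩) (fun a ha b hb e => by
          rw [← ((hm a).1 ha).2, ← ((hm b).1 hb).2, e]) fun j hj => by
        rw [Finset.mem_sdiff] at hj
        obtain ⟨a, ha, rfl⟩ := Finset.mem_image.1 hj.1
        exact ⟨_, (hm _).2 ⟨⟨(r1 a ha).1, fun h => hj.2 (Finset.mem_image.2
          ⟨_, h, (r1 a ha).2⟩)⟩, by rw [(r1 a ha).2]⟩, (r1 a ha).2⟩
    rw [Finset.card_sdiff_of_subset (Finset.image_subset_image hS), hf,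
      Nat.add_sub_cancel_left] at b1
    have b2 := Finset.card_filter_add_card_filter_not (s := S.filter fun a => a ∉ S')
      fun a => ρ (c a) = a
    have b3 := Finset.card_filter_add_card_filter_not (s := S) fun a => a ∈ S'
    have b4 : S.filter (fun a => a ∈ S') = S' := by
      rw [Finset.filter_mem_eq_inter, Finset.inter_eq_right.2 hS]
    have b5 : ∏ a ∈ Rt, (if a = u then θ * Fintype.card V else (Fintype.card V : ℝ)) =
        θ * (Fintype.card V : ℝ) ^ f := by
      rcases hθ with rfl | h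
      · simp [b1]
      · have hu : u ∈ Rt := (hm u).2 ⟨⟨h.1, fun e => h.2.1 (Finset.mem_image_of_mem _ e)⟩,
          r3 h.1 h.2.1⟩
        rw [← Finset.mul_prod_erase _ _ hu, if_pos rfl, Finset.prod_congr rfl fun a ha =>
          if_neg (Finset.mem_erase.1 ha).1, Finset.prod_const, ← b1,
          ← Finset.card_erase_add_one hu]
        ring
    rw [← hRt] at b2
    rw [Finset.prod_ite_mem, Finset.univ_inter, Finset.prod_ite, Finset.prod_const,
      Finset.prod_ite, ← hRt, b5, Finset.prod_const, b4,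
      show ((S.filter fun a => a ∉ S').filter fun a => ¬ ρ (c a) = a).card = k by
        rw [b4] at b3; omega]
    ring

lemma card_img {S : Finset W} {EB : Finset (Sym2 W)} (hS : ∀ e ∈ EB, ∀ a ∈ e, a ∈ S) {φ : W → V}
    (h1 : Set.InjOn φ S) : (EB.image (Sym2.map φ)).card = EB.card := by
  refine Finset.card_image_of_injOn fun e he e' he' h => ?_
  induction e using Sym2.ind with
  | h a b =>
    induction e' using Sym2.ind with
    | h a' b' =>
      have a1 := hS _ he a (by simp)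
      have a2 := hS _ he b (by simp)
      have a3 := hS _ he' a' (by simp)
      have a4 := hS _ he' b' (by simp)
      rcases Sym2.eq_iff.1 h with h | h
      · rw [h1 a1 a3 h.1, h1 a2 a4 h.2]
      · rw [h1 a1 a4 h.1, h1 a2 a3 h.2, Sym2.eq_swap]

lemma weight_pat (h0 : 0 ≤ p) (h1 : p ≤ 1) {S : Finset W} {EB : Finset (Sym2 W)}
    (hS : ∀ e ∈ EB, ∀ a ∈ e, a ∈ S) (c : W → W) (Nr : V → V → Prop) (v0 : V) (u : W)
    (A : Finset V) {C b θ y lam : ℝ} (hC : 1 ≤ C) (hb : 1 ≤ b) (hy : 0 ≤ y) (hl0 : 0 ≤ lam)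
    (hM : ∀ u, ∀ B : Finset V, (∀ v ∈ B, Nr u v) → B.card ≤ C * y) {a z : W} (ha : a ∈ S)
    (hz : z ∈ S) (hθ : θ = 1 ∨ u ∈ S ∧ c u ≠ c a ∧ c u ≠ c z ∧ A.card ≤ θ * Fintype.card V)
    {f k : ℕ} (hf : (S.image c).card = 1 + f) (hk : S.card = 1 + f + k)
    (hl : ∀ S' ⊆ S, ∀ f k j : ℕ, (S.image c).card = (S'.image c).card + f →
      S.card = S'.card + f + k → 1 ≤ (EB.filter fun e => ∀ a ∈ e, a ∈ S').card →
      EB.card = (EB.filter fun e => ∀ a ∈ e, a ∈ S').card + j →
      (Fintype.card V : ℝ) ^ f * y ^ k * p ^ j ≤ lam) (v : V) {E : Finset (Sym2 V)}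
    (hE : 2 * (E.card : ℝ) ≤ b) :
    ∑ φ ∈ (pat S c Nr v0 u A).filter fun φ => v ∈ s(φ a, φ z),
      p ^ (EB.image (Sym2.map φ) \ E).card ≤
      2 * θ * C ^ Fintype.card W * ((Fintype.card V : ℝ) ^ f * y ^ k * p ^ EB.card) +
      (2 * b * C) ^ Fintype.card W * lam := by
  classical
  let 𝓢 := S.powerset.filter fun S' => 1 ≤ (EB.filter fun e => ∀ a ∈ e, a ∈ S').card
  let jj := fun S' : Finset W => EB.card - (EB.filter fun e => ∀ a ∈ e, a ∈ S').card
  have hSW := Finset.card_le_univ S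
  have hθ0 : 0 ≤ θ := hθ.elim (fun h => h ▸ zero_le_one) fun h => by
    have : (0 : ℝ) < Fintype.card V := by exact_mod_cast Fintype.card_pos_iff.2 ⟨v⟩
    exact nonneg_of_mul_nonneg_left (le_trans (by positivity) h.2.2.2) this
  refine (Finset.sum_le_sum (g := fun φ => p ^ EB.card + ∑ S' ∈ 𝓢,
    one (∀ a ∈ S', φ a ∈ vts E) * p ^ jj S') fun φ hφ => ?_).trans ?_
  · have hi : Set.InjOn φ S := by
      simp only [pat, Finset.mem_filter] at hφ; exact hφ.1.2.1
    let S' := S.filter fun a => φ a ∈ vts E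
    have a1 : (EB.image (Sym2.map φ) ∩ E).card ≤ (EB.filter fun e => ∀ a ∈ e, a ∈ S').card := by
      refine le_trans (Finset.card_le_card fun e he => ?_)
        (Finset.card_image_le (f := Sym2.map φ))
      rw [Finset.mem_inter] at he
      obtain ⟨e', he', rfl⟩ := Finset.mem_image.1 he.1
      exact Finset.mem_image.2 ⟨e', Finset.mem_filter.2 ⟨he', fun a ha => Finset.mem_filter.2
        ⟨hS e' he' a ha, mem_vts.2 ⟨_, he.2, Sym2.mem_map.2 ⟨a, ha, rfl⟩⟩⟩⟩, rfl⟩
    have a2 := Finset.card_sdiff_add_card_inter (EB.image (Sym2.map φ)) E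
    rw [card_img hS hi] at a2
    have n1 : ∀ S' ∈ 𝓢, 0 ≤ one (∀ a ∈ S', φ a ∈ vts E) * p ^ jj S' := fun _ _ =>
      mul_nonneg (one_nonneg _) (by positivity)
    by_cases e : S' ∈ 𝓢
    · refine le_add_of_nonneg_of_le (by positivity) (le_trans ?_ (Finset.single_le_sum n1 e))
      rw [one_pos' fun a ha => (Finset.mem_filter.1 ha).2, one_mul]
      exact pow_le_pow_of_le_one h0 h1 (by simp only [jj]; omega)
    · refine le_add_of_le_of_nonneg (le_of_eq ?_) (Finset.sum_nonneg n1)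
      simp only [𝓢, Finset.mem_filter, Finset.mem_powerset, not_and, not_le] at e
      have := e (Finset.filter_subset _ _)
      congr 1; omega
  rw [Finset.sum_add_distrib, Finset.sum_const, nsmul_eq_mul, Finset.sum_comm]
  refine add_le_add ?_ ?_
  · have key : ∀ x ∈ S, (θ = 1 ∨ u ∈ S ∧ c u ≠ c x ∧ A.card ≤ θ * Fintype.card V) →
        (((pat S c Nr v0 u A).filter fun φ => φ x = v).card : ℝ) ≤
        θ * C ^ Fintype.card W * ((Fintype.card V : ℝ) ^ f * y ^ k) := fun x hx h => by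
      have := count_pat (S' := {x}) (Finset.singleton_subset_iff.2 hx) c Nr v0 u A {v} (b := 1)
        hM (by simp) (θ := θ) (by simpa using h) (f := f) (k := k) (by simpa using hf)
        (by simpa using hk)
      simp only [Finset.mem_singleton, forall_eq, one_pow, one_mul, mul_pow] at this
      refine this.trans ?_
      have : C ^ k ≤ C ^ Fintype.card W := pow_le_pow_right₀ hC (by omega)
      calc _ = θ * C ^ k * ((Fintype.card V : ℝ) ^ f * y ^ k) := by ring
        _ ≤ _ := by gcongr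
    have a1 := key a ha (hθ.imp_right fun h => ⟨h.1, h.2.1, h.2.2.2⟩)
    have a2 := key z hz (hθ.imp_right fun h => ⟨h.1, h.2.2⟩)
    have a3 : ((pat S c Nr v0 u A).filter fun φ => v ∈ s(φ a, φ z)).card ≤ _ :=
      (Finset.card_le_card fun φ hφ => by
        rw [Finset.mem_filter, Sym2.mem_iff] at hφ
        rw [Finset.mem_union, Finset.mem_filter, Finset.mem_filter]
        exact hφ.2.imp (fun h => ⟨hφ.1, h.symm⟩) fun h => ⟨hφ.1, h.symm⟩).trans
        (Finset.card_union_le ((pat S c Nr v0 u A).filter fun φ => φ a = v)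
          ((pat S c Nr v0 u A).filter fun φ => φ z = v))
    have a4 := (Nat.cast_le (α := ℝ)).2 a3
    rw [Nat.cast_add] at a4
    have a5 := mul_le_mul_of_nonneg_right (a4.trans (add_le_add a1 a2))
      (by positivity : 0 ≤ p ^ EB.card)
    linarith
  · have hl1 : ∀ S' ∈ 𝓢, ∑ φ ∈ (pat S c Nr v0 u A).filter fun φ => v ∈ s(φ a, φ z),
        one (∀ a ∈ S', φ a ∈ vts E) * p ^ jj S' ≤ (b * C) ^ Fintype.card W * lam := fun S' h => by
      rw [Finset.mem_filter, Finset.mem_powerset] at h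
      obtain ⟨f', hf'⟩ := Nat.exists_eq_add_of_le (Finset.card_le_card
        (Finset.image_subset_image (f := c) h.1))
      have b1 : S'.card + f' ≤ S.card := by
        have e1 : S.image c ⊆ S'.image c ∪ (S \ S').image c := by
          rw [← Finset.image_union, Finset.union_sdiff_of_subset h.1]
        have e2 := (Finset.card_le_card e1).trans (Finset.card_union_le _ _)
        have e3 := Finset.card_image_le (s := S \ S') (f := c)
        have e4 := Finset.card_sdiff_add_card_eq_card h.1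
        omega
      obtain ⟨k', hk'⟩ := Nat.exists_eq_add_of_le b1
      have b2 := count_pat h.1 c Nr v0 u A (vts E) (b := b) hM (le_trans (by
        exact_mod_cast card_vts E) hE) (.inl rfl) hf' hk'
      have b3 := hl S' h.1 f' k' (jj S') hf' hk' h.2 (by
        have := Finset.card_filter_le EB fun e => ∀ a ∈ e, a ∈ S'
        simp only [jj]; omega)
      rw [← Finset.sum_mul, ← cnt_eq_sum]
      refine le_trans (mul_le_mul_of_nonneg_right (le_trans (Nat.cast_le.2 (Finset.card_le_card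
        fun φ hφ => ?_)) b2) (by positivity)) ?_
      · simp only [Finset.mem_filter] at hφ ⊢
        exact ⟨hφ.1.1, hφ.2⟩
      · have e1 : b ^ S'.card ≤ b ^ Fintype.card W := pow_le_pow_right₀ hb (by omega)
        have e2 : C ^ k' ≤ C ^ Fintype.card W := pow_le_pow_right₀ hC (by omega)
        calc _ = b ^ S'.card * C ^ k' * ((Fintype.card V : ℝ) ^ f' * y ^ k' * p ^ jj S') := by
              rw [mul_pow]; ring
          _ ≤ _ := by rw [mul_pow]; gcongr
    refine (Finset.sum_le_card_nsmul _ _ _ hl1).trans ?_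
    have := Finset.card_le_univ 𝓢
    rw [Fintype.card_finset, ← Nat.cast_le (α := ℝ)] at this
    push_cast at this
    rw [nsmul_eq_mul, mul_assoc 2, mul_pow 2, mul_assoc]
    gcongr

end Pool.Agent.Lib.MP_46505f_co
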