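import Pool.Agent.Lib.MP_46505f_co.Zykov

set_option autoImplicit false
set_option linter.unusedSectionVars false
open Finset

namespace Pool.Agent.Lib.MP_46505f_co

/- The averaging argument behind the value one third. -/

lemma half_pow_le {j l k : ℕ} {g : ℝ} (hl : 0 < l) (hj : j ≤ l) (hk : (1 / 2 : ℝ) ^ k ≤ g)
    (hkl : (k : ℝ) ≤ g * l) : (1 / 2 : ℝ) ^ j ≤ 1 - j / l + 2 * g := by
  have hl' : (0 : ℝ) < l := by exact_mod_cast hl
  have hg : 0 ≤ g := le_trans (by positivity) hk
  rcases le_total j k with h | h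
  · have h1 : (1 / 2 : ℝ) ^ j ≤ 1 := pow_le_one₀ (by norm_num) (by norm_num)
    have h2 : (j : ℝ) / l ≤ g := by
      rw [div_le_iff₀ hl']; exact le_trans (by exact_mod_cast h) hkl
    linarith
  · have h1 : (1 / 2 : ℝ) ^ j ≤ (1 / 2) ^ k := pow_le_pow_of_le_one (by norm_num) (by norm_num) h
    have h2 : (j : ℝ) / l ≤ 1 := div_le_one_of_le₀ (by exact_mod_cast hj) hl'.le
    linarith

lemma third_avg {V : Type*} [Fintype V] [DecidableEq V] [Nonempty V] (E : SimpleGraph V) {l k : ℕ}
    {g d d' β β' : ℝ} (hl : 0 < l) (hk : (1 / 2 : ℝ) ^ k ≤ g) (hkl : (k : ℝ) ≤ g * l) (hβ : 0 < β)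
    (hβ' : 2 * l * β' ≤ g * β) (U : Fin l → Bool → Finset V) (S : (Fin l → Bool) → Finset V)
    (hS : ∀ σ, β * Fintype.card V ≤ (S σ).card) (hSU : ∀ σ i, S σ ⊆ U i (σ i))
    (h1 : ∀ i b, d' * Fintype.card V ≤ (U i b).card)
    (h2 : ∀ i b, ∀ s ∈ U i b, d * Fintype.card V ≤ dg E s univ)
    (h3 : ∀ i b, ∑ w ∈ U i b, (dg E w (U i b) : ℝ) ≤ β' * (Fintype.card V : ℝ) ^ 2)
    (h4 : ∀ i, ((U i false ∩ U i true).card : ℝ) ≤ g * Fintype.card V) :
    d + 2 * d' ≤ 1 + 4 * g := by
  classical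
  set n : ℝ := (Fintype.card V : ℝ) with hn'
  have hn : 0 < n := by rw [hn']; exact_mod_cast Fintype.card_pos
  have hl' : (0 : ℝ) < l := by exact_mod_cast hl
  have hS0 : ∀ σ, (0 : ℝ) < (S σ).card := fun σ => lt_of_lt_of_le (by positivity) (hS σ)
  have e1 : 2 ^ l * (d * n) ≤ ∑ w, ∑ σ, (dg E w (S σ) : ℝ) / (S σ).card := by
    rw [Finset.sum_comm]
    have := Finset.card_nsmul_le_sum univ
      (fun σ => ∑ w, (dg E w (S σ) : ℝ) / (S σ).card) (d * n) fun σ _ => by
      rw [← Finset.sum_div, le_div_iff₀ (hS0 σ), sum_dg_comm, mul_comm, ← nsmul_eq_mul]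
      exact Finset.card_nsmul_le_sum _ _ _ fun s hs => h2 ⟨0, hl⟩ _ s (hSU σ _ hs)
    simpa using this
  let Jw : V → Finset (Fin l) := fun w => univ.filter fun i => w ∈ U i false ∪ U i true
  let err : V → ℝ := fun w =>
    (∑ i, ∑ b, if w ∈ U i b then (dg E w (U i b) : ℝ) else 0) / (β * n)
  have e2 : ∀ w, ∑ σ, (dg E w (S σ) : ℝ) / (S σ).card ≤
      2 ^ l * (1 - (Jw w).card / l + 2 * g + err w) := by
    intro w
    let b : Fin l → Bool := fun i => if w ∈ U i false then false else true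
    have hb : ∀ i ∈ Jw w, w ∈ U i (b i) := by
      intro i hi
      have := Finset.mem_union.1 (Finset.mem_filter.1 hi).2
      by_cases h : w ∈ U i false
      · simp only [b, if_pos h]; exact h
      · simp only [b, if_neg h]; exact this.resolve_left h
    have hnn : ∀ i b, (0 : ℝ) ≤ if w ∈ U i b then (dg E w (U i b) : ℝ) else 0 := fun i b => by
      split_ifs <;> positivity
    have herr : 0 ≤ err w := div_nonneg (Finset.sum_nonneg fun i _ =>
      Finset.sum_nonneg fun b _ => hnn i b) (by positivity)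
    let P := Fintype.piFinset fun i => if i ∈ Jw w then ({!b i} : Finset Bool) else univ
    have f1 : ∀ σ, (dg E w (S σ) : ℝ) / (S σ).card ≤ (if σ ∈ P then 1 else 0) + err w := by
      intro σ
      by_cases h : σ ∈ P
      · rw [if_pos h]
        have : (dg E w (S σ) : ℝ) / (S σ).card ≤ 1 := div_le_one_of_le₀
          (Nat.cast_le.2 (Finset.card_le_card fun u hu => (mem_nb.1 hu).1)) (hS0 σ).le
        linarith
      · rw [if_neg h, zero_add]
        simp only [P, Fintype.mem_piFinset, not_forall] at h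
        obtain ⟨i, hi⟩ := h
        have hi1 : i ∈ Jw w := by by_contra h'; simp [h'] at hi
        have hi2 : σ i = b i := by
          rw [if_pos hi1, Finset.mem_singleton] at hi
          revert hi; cases σ i <;> cases b i <;> simp
        refine div_le_div₀ (Finset.sum_nonneg fun i _ => Finset.sum_nonneg fun b _ => hnn i b) ?_
          (by positivity) (hS σ)
        refine le_trans ?_ (Finset.single_le_sum (f := fun i => ∑ b,
          if w ∈ U i b then (dg E w (U i b) : ℝ) else 0)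
          (fun i _ => Finset.sum_nonneg fun b _ => hnn i b) (mem_univ i))
        refine le_trans ?_ (Finset.single_le_sum (f := fun b =>
          if w ∈ U i b then (dg E w (U i b) : ℝ) else 0) (fun b _ => hnn i b) (mem_univ (b i)))
        rw [if_pos (hb i hi1), ← hi2]
        exact_mod_cast dg_mono le_rfl w (hSU σ i)
    refine (Finset.sum_le_sum fun σ _ => f1 σ).trans ?_
    have f2 : (P.card : ℝ) = 2 ^ l * (1 / 2) ^ (Jw w).card := by
      rw [Fintype.card_piFinset, Nat.cast_prod]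
      have : ∀ i, (((if i ∈ Jw w then ({!b i} : Finset Bool) else univ).card : ℕ) : ℝ) =
          2 * if i ∈ Jw w then 1 / 2 else 1 := fun i => by split_ifs <;> simp
      simp only [this, Finset.prod_mul_distrib, Finset.prod_ite_mem, Finset.univ_inter,
        Finset.prod_const, Finset.card_univ, Fintype.card_fin]
    have f3 := half_pow_le hl (j := (Jw w).card) (by simpa using Finset.card_le_univ (Jw w)) hk hkl
    rw [Finset.sum_add_distrib, Finset.sum_ite_mem, Finset.univ_inter, Finset.sum_const,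
      Finset.sum_const, nsmul_eq_mul, mul_one, f2, nsmul_eq_mul]
    have f4 : (((univ : Finset (Fin l → Bool)).card : ℕ) : ℝ) = 2 ^ l := by simp
    rw [f4, ← mul_add]
    gcongr
  have e3 : l * ((2 * d' - g) * n) ≤ ∑ w, ((Jw w).card : ℝ) := by
    have : ∑ w, ((Jw w).card : ℝ) = ∑ i, ((U i false ∪ U i true).card : ℝ) := by
      simp only [Jw, Finset.card_filter, Nat.cast_sum]
      rw [Finset.sum_comm]
      refine Finset.sum_congr rfl fun i _ => ?_
      simp only [Nat.cast_ite, Nat.cast_one, Nat.cast_zero, Finset.sum_ite_mem, Finset.univ_inter,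
        Finset.sum_const, nsmul_eq_mul, mul_one]
    rw [this]
    have := Finset.card_nsmul_le_sum univ (fun i => ((U i false ∪ U i true).card : ℝ))
      ((2 * d' - g) * n) fun i _ => by
      have a1 := Finset.card_union_add_card_inter (U i false) (U i true)
      have a2 : ((U i false ∪ U i true).card : ℝ) + (U i false ∩ U i true).card =
        (U i false).card + (U i true).card := by exact_mod_cast a1
      linarith [h1 i false, h1 i true, h4 i]
    simpa using this
  have e4 : ∑ w, err w ≤ g * n := by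
    simp only [err]
    rw [← Finset.sum_div, div_le_iff₀ (by positivity), Finset.sum_comm]
    have := Finset.sum_le_card_nsmul univ (fun i => ∑ w, ∑ b,
      if w ∈ U i b then (dg E w (U i b) : ℝ) else 0) (2 * (β' * n ^ 2)) fun i _ => by
      rw [Finset.sum_comm]
      have := Finset.sum_le_card_nsmul univ (fun b => ∑ w,
        if w ∈ U i b then (dg E w (U i b) : ℝ) else 0) (β' * n ^ 2) fun b _ => by
        rw [Finset.sum_ite_mem, Finset.univ_inter]; exact h3 i b
      simpa using this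
    simp only [Finset.card_univ, Fintype.card_fin, nsmul_eq_mul] at this
    have := mul_le_mul_of_nonneg_right hβ' (sq_nonneg n)
    nlinarith
  have e5 := e1.trans (Finset.sum_le_sum fun w _ => e2 w)
  rw [← Finset.mul_sum] at e5
  have e6 := le_of_mul_le_mul_left e5 (by positivity)
  simp only [Finset.sum_add_distrib, Finset.sum_sub_distrib, Finset.sum_const, Finset.card_univ,
    nsmul_eq_mul, mul_one, ← Finset.sum_div, ← hn'] at e6
  have e7 : (2 * d' - g) * n ≤ (∑ w, ((Jw w).card : ℝ)) / l := by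
    rw [le_div_iff₀ hl']; linarith
  have : (d + 2 * d') * n ≤ (1 + 4 * g) * n := by linarith
  exact le_of_mul_le_mul_right this hn

theorem third {g : ℝ} (hg : 0 < g) : ∃ β' > 0, ∃ C : ℕ, ∀ (V : Type) [Fintype V] [DecidableEq V]
    (F E : SimpleGraph V) (X : Finset V) (U : V → Finset V) (d d' : ℝ), 1 + 5 * g ≤ d + 2 * d' →
    g ≤ d' → (∀ x ∈ X, d' * Fintype.card V ≤ (U x).card) →
    (∀ x ∈ X, ∀ s ∈ U x, d * Fintype.card V ≤ dg E s univ) →
    (∀ x ∈ X, ∑ w ∈ U x, (dg E w (U x) : ℝ) ≤ β' * (Fintype.card V : ℝ) ^ 2) →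
    (∀ x ∈ X, ∀ x' ∈ X, F.Adj x x' → ((U x ∩ U x').card : ℝ) ≤ g * Fintype.card V) →
    Col F X C := by
  obtain ⟨k, hk⟩ := exists_pow_lt_of_lt_one hg (by norm_num : (1 / 2 : ℝ) < 1)
  obtain ⟨l, hl⟩ := exists_nat_gt (k / g)
  have hl0 : 0 < l := by exact_mod_cast lt_of_le_of_lt (by positivity : (0 : ℝ) ≤ k / g) hl
  have hl' : (0 : ℝ) < l := by exact_mod_cast hl0
  have hkl : (k : ℝ) ≤ g * l := by rw [div_lt_iff₀ hg] at hl; linarith
  set β1 := zc g (Fintype.card (Fin l → Bool)) (Fintype.card Bool) with hβ1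
  have hβ0 : 0 < β1 := zc_pos hg _ _
  obtain ⟨M, hM⟩ := exists_nat_gt
    ((Fintype.card (Fin l → Bool) : ℝ) / (g * β1 ^ Fintype.card (Fin l) / 2))
  rw [div_lt_iff₀ (by positivity)] at hM
  obtain ⟨t, ht⟩ := exists_nat_gt
    ((Fintype.card Bool : ℝ) ^ 2 / β1 + (Fintype.card (Fin l) * Fintype.card Bool : ℕ))
  set β := β1 ^ Fintype.card (Fin l) * (g / 2) ^ M with hβ
  have hβp : 0 < β := by positivity
  refine ⟨g * β / (2 * l), by positivity, (Fintype.card (Fin l → Bool) + 1) ^ M * (2 * t), ?_⟩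
  intro V _ _ F E X U d d' hd hd' h1 h2 h3 h4
  by_contra hc
  obtain ⟨x0, hx0⟩ := nonempty_of_not_col hc
  have : Nonempty V := ⟨x0⟩
  have hn : (0 : ℝ) < Fintype.card V := by exact_mod_cast Fintype.card_pos
  have ht1 : (0 : ℝ) ≤ (Fintype.card Bool : ℝ) ^ 2 / β1 := by positivity
  have ht2 : (0 : ℝ) ≤ (Fintype.card (Fin l) * Fintype.card Bool : ℕ) := by positivity
  have ht0 : (0 : ℝ) < t := by linarith
  obtain ⟨R, _⟩ := exists_rooting (T := (⊤ : SimpleGraph Bool))
    (SimpleGraph.IsAcyclic.of_card_le_two (by simp)) true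
  have hz := zykov R id (fun a b h => h) (fun (j : Fin l) (z : Fin l → Bool) => z j) hg hM
    (F := F) (U := U) (X := X) (t := t) (s := 1) (δ := t) (Δ := Fintype.card V) zero_le_one ht0
    (by exact_mod_cast (by linarith : ((Fintype.card (Fin l) * Fintype.card Bool : ℕ) : ℝ) ≤ t))
    (oracle_basic F X t)
    (fun v hv => Nat.cast_le.2 ((dg_lt hv).le.trans (Finset.card_le_univ _)))
    (by rw [← div_le_iff₀' hβ0]; linarith) hc
    (fun x hx => le_trans (by gcongr) (h1 x hx))
  obtain ⟨θ, hθ⟩ := Finset.card_pos.1 (Nat.cast_pos.1 (lt_of_lt_of_le (by positivity) hz))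
  obtain ⟨a1, _, a3⟩ := mem_zgood.1 hθ
  have hX : ∀ i b, θ i b ∈ X := fun i b => (mem_homs.1 (a1 i)).1 b
  have := third_avg E hl0 hk.le hkl hβp (β' := g * β / (2 * l)) (le_of_eq (by field_simp))
    (fun i b => U (θ i b)) _ a3 (fun σ i v hv => mem_cap.1 hv i (σ i) rfl)
    (fun i b => h1 _ (hX i b)) (fun i b => h2 _ (hX i b)) (fun i b => h3 _ (hX i b))
    fun i => h4 _ (hX i _) _ (hX i _) ((mem_homs.1 (a1 i)).2 _ _ (by simp))
  linarith

end Pool.Agent.Lib.MP_46505f_co
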