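import Pool.Agent.Lib.MP_46505f_co.Rep
import Pool.Agent.Lib.MP_46505f_co.Third

set_option autoImplicit false
set_option linter.unusedSectionVars false
open Finset Filter Topology

namespace Pool.Agent.Lib.MP_46505f_co

/- Supersaturation for cloud and thundercloud graphs. -/

variable {V : Type} [Fintype V] [DecidableEq V]

lemma Hyp.mono {ι : Type*} [Fintype ι] [DecidableEq ι] {w : Finset ι → ℝ} {k : ℕ}
    {K K' τ N : ℝ} (h : Hyp w k K τ N) (hK : K ≤ K') (hτ : 0 ≤ τ) (hN : 0 ≤ N) :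
    Hyp w k K' τ N :=
  ⟨h.nonneg, h.unif, h.pos, fun T hT => (h.deg T hT).trans (by have := h.pos.le; gcongr)⟩

lemma ev_small (A : ℝ) {B : ℝ} (hB : 0 < B) : ∀ᶠ ε in 𝓝[>] (0 : ℝ), A * ε ≤ B := by
  have : Tendsto (fun ε : ℝ => A * ε) (𝓝[>] 0) (𝓝 (A * 0)) :=
    (tendsto_id.const_mul A).mono_left nhdsWithin_le_nhds
  exact this.eventually_le_const (by simpa using hB)

lemma ev_large (A : ℝ) {B : ℝ} (hB : 0 < B) : ∀ᶠ m in atTop, A ≤ B * m :=
  (tendsto_id.const_mul_atTop hB).eventually_ge_atTop A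

structure Prep (V' X Z Low : Finset V) (F : SimpleGraph V) (E0 D : Finset (Sym2 V))
    (N : V → Finset V) (p q a g c0 s δ Δ : ℝ) (t0 : ℕ) : Prop where
  hX : X ⊆ V'
  hZ : Z ⊆ V'
  hXZ : Disjoint X Z
  hF : ∀ u ∈ X, ∀ v ∈ X, F.Adj u v → s(u, v) ∈ E0
  hΔ : ∀ v ∈ X, (dg F v X : ℝ) ≤ Δ
  ht : (t0 : ℝ) ≤ δ
  hδ : Δ ≤ 2 * q ^ 2 * δ
  hO : ∀ F' ≤ F, Oracle F' X (2 * t0) s δ
  hs : X.card ≤ q * s
  hN : ∀ x ∈ X, N x ⊆ Z \ Low ∧ (∀ y ∈ N x, s(x, y) ∈ E0) ∧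
    c0 * (p * Fintype.card V) ≤ (N x).card ∧ (N x).card ≤ p * Fintype.card V
  hκ : ∀ y, ((X.filter fun x => y ∈ N x).card : ℝ) ≤ q ^ 6 * p * s
  hL : Low.card ≤ g * Fintype.card V
  hD : ∀ v ∈ Z \ Low, a * Fintype.card V ≤ dg (gr D) v Z

variable {V' X Z Low : Finset V} {F : SimpleGraph V} {E0 D : Finset (Sym2 V)}
  {N : V → Finset V} {p q a g c0 s δ Δ : ℝ} {t0 : ℕ}

def YU (X Z Low : Finset V) (D : Finset (Sym2 V)) (N Y U : V → Finset V) (y α g ε : ℝ) : Prop :=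
  ∀ x ∈ X, Y x ⊆ N x ∧ y ≤ (Y x).card ∧ Homog (Dm D) (Y x) ε ∧ U x ⊆ Z \ Low ∧
    (∀ z ∈ U x, g ≤ fY (Dm D) (Y x) z) ∧ α ≤ (U x).card

lemma Prep.exists_YU (h : Prep V' X Z Low F E0 D N p q a g c0 s δ Δ t0) (hg : 0 ≤ g) {ε : ℝ}
    (hε : 0 < ε) (hε1 : ε ≤ 1) {k : ℕ} (hk : 1 < k * ε ^ 2)
    (hp : 0 < c0 * (p * Fintype.card V)) : ∃ Y U, YU X Z Low D N Y U
      (ε ^ k * c0 * (p * Fintype.card V)) ((a - 2 * g) * Fintype.card V) g ε := by
  classical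
  have key : ∀ x, ∃ YU : Finset V × Finset V, x ∈ X → YU.1 ⊆ N x ∧
      ε ^ k * c0 * (p * Fintype.card V) ≤ YU.1.card ∧ Homog (Dm D) YU.1 ε ∧ YU.2 ⊆ Z \ Low ∧
      (∀ z ∈ YU.2, g ≤ fY (Dm D) YU.1 z) ∧ (a - 2 * g) * Fintype.card V ≤ YU.2.card := by
    intro x
    by_cases hx : x ∈ X
    swap
    · exact ⟨(∅, ∅), fun h => absurd h hx⟩
    obtain ⟨a1, -, a2, -⟩ := h.hN x hx
    obtain ⟨Y, b1, b2, b3, b4⟩ := exists_homog (Dm_mem D) hε hε1 hk
      (Finset.card_pos.1 (Nat.cast_pos.1 (hp.trans_le a2)))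
    refine ⟨(Y, (Z \ Low).filter fun z => g ≤ fY (Dm D) Y z), fun _ => ⟨b1, le_trans ?_ b3, b4,
      Finset.filter_subset _ _, fun z hz => (Finset.mem_filter.1 hz).2, ?_⟩⟩
    · rw [mul_assoc]; gcongr
    have hY : (0 : ℝ) < Y.card := by exact_mod_cast b2.card_pos
    have c1 : a * Fintype.card V ≤ ∑ z ∈ Z, fY (Dm D) Y z := by
      refine le_of_mul_le_mul_left ?_ hY
      rw [Finset.mul_sum]
      simp only [card_mul_fY b2]
      rw [Finset.sum_comm, ← nsmul_eq_mul]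
      refine Finset.card_nsmul_le_sum _ _ _ fun y hy => (h.hD y (a1 (b1 hy))).trans ?_
      rw [dg_eq_sum]; rfl
    have c2 : ∑ z ∈ Z, fY (Dm D) Y z ≤ ∑ z, ((if z ∈ (Z \ Low).filter
        fun z => g ≤ fY (Dm D) Y z then 1 else 0) + (if z ∈ Low then 1 else 0) + g) := by
      refine le_trans (Finset.sum_le_sum fun z hz => ?_) (Finset.sum_le_univ_sum_of_nonneg
        fun z => by split_ifs <;> positivity)
      have := (fY_mem (Dm_mem D) Y z).2
      split_ifs with d1 d2 d2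
      · linarith
      · linarith
      · linarith
      · rw [Finset.mem_filter, Finset.mem_sdiff, not_and, not_le] at d1
        linarith [d1 ⟨hz, d2⟩]
    simp only [Finset.sum_add_distrib, Finset.sum_ite_mem, Finset.univ_inter, Finset.sum_const,
      nsmul_eq_mul, mul_one, Finset.card_univ] at c2
    have := h.hL
    simp only
    linarith
  choose f hf using key
  exact ⟨fun x => (f x).1, fun x => (f x).2, hf⟩

variable {W : Type} [Fintype W] [DecidableEq W] {H : SimpleGraph W} {I : Finset W}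

def Sat (H : SimpleGraph W) (V' : Finset V) (E0 D : Finset (Sym2 V)) (K τ : ℝ) : Prop :=
  ∃ k ≤ (eF H).card, ∃ w : Finset (Sym2 V) → ℝ, Hyp w k K τ ((Fintype.card V : ℝ) ^ 2) ∧
    (∀ e, w e ≠ 0 → e ⊆ D) ∧ ∀ I', embs H (gr (E0 ∪ I')) V' = ∅ → Indep w I'

lemma Sat.mono {K K' τ : ℝ} (h : Sat H V' E0 D K τ) (hK : K ≤ K') (hτ : 0 ≤ τ) :
    Sat H V' E0 D K' τ :=
  let ⟨k, a1, w, a2, a3⟩ := h
  ⟨k, a1, w, a2.mono hK hτ (by positivity), a3⟩

lemma Prep.sub (h : Prep V' X Z Low F E0 D N p q a g c0 s δ Δ t0) (ht : 1 ≤ t0) {X' : Finset V}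
    (hX' : X' ⊆ X) {F' : SimpleGraph V} (hF' : F' ≤ F) (hc : ¬ Col F' X' (2 * t0)) :
    X'.Nonempty ∧ s ≤ X'.card ∧ 0 < δ ∧ 0 < Δ := by
  obtain ⟨Q, a1, ⟨v, hv⟩, a2, a3⟩ := h.hO F' hF' X' hX' hc
  have : 0 < δ := lt_of_lt_of_le (by exact_mod_cast ht) h.ht
  exact ⟨⟨v, a1 hv⟩, a2.trans (Nat.cast_le.2 (Finset.card_le_card a1)), this,
    this.trans_le ((a3 v hv).trans (le_trans (Nat.cast_le.2 (dg_mono hF' v (a1.trans hX')))
      (h.hΔ v (hX' (a1 hv)))))⟩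

noncomputable def K1 (h e : ℕ) (c β g y0 : ℝ) : ℝ :=
  2 ^ h * ((2 * e + 1) ^ 2) ^ h * (2 ^ h) ^ h / (c * (β ^ h * g ^ (h * h) / 2 * y0 ^ h))

lemma Prep.sat_of_count [Nonempty V] [Nonempty W]
    (h : Prep V' X Z Low F E0 D N p q a g c0 s δ Δ t0) (ht : 1 ≤ t0) (hC : IsCloud H I)
    {X' : Finset V} (hX' : X' ⊆ X) {F' : SimpleGraph V} (hF' : F' ≤ F)
    (hc : ¬ Col F' X' (2 * t0)) {Y U : V → Finset V} {y0 α ε τ c β : ℝ}
    (hYU : YU X Z Low D N Y U (y0 * (p * Fintype.card V)) α g ε) (hp1 : p ≤ 1) (hτ : 0 < τ)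
    (hτp : τ ≤ p) (hq : 1 ≤ q) (hc0 : 0 < c) (hβ : 0 < β) (hg : 0 < g) (hg1 : g ≤ 1) (hε : 0 ≤ ε)
    (hy0 : 0 < y0) {Rl : W → W → W → Prop} (hRl : ∀ j a z, Req H I j a z → Rl j a z)
    (hΘ : c * ((s * δ / Δ) ^ Nat.card (outside H I).ConnectedComponent *
      δ ^ (Fintype.card W - Nat.card (outside H I).ConnectedComponent)) ^ Fintype.card W ≤
      (zgood (outside H I) F' X' U Rl β).card)
    (h1 : Fintype.card W * Fintype.card W * ε ≤
      β ^ Fintype.card W * g ^ (Fintype.card W * Fintype.card W) / 4)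
    (h2 : ((Fintype.card W + Fintype.card W : ℕ) : ℝ) ^ 2 ≤ β ^ Fintype.card W *
      g ^ (Fintype.card W * Fintype.card W) / 4 * (y0 * (p * Fintype.card V)))
    (hS : ∀ S : Finset W, 1 ≤ cross H I S → (Fintype.card V : ℝ) ^ 2 ≤
      τ ^ (cross H I S - 1 + ((S \ I).card - comps H I S)) * (Fintype.card V : ℝ) ^ S.card) :
    Sat H V' E0 D (K1 (Fintype.card W) (cE H I).card c β g y0 *
      q ^ (6 * (Fintype.card W + 3) ^ 3)) τ := by
  obtain ⟨a1, a2, a3, a4⟩ := h.sub ht hX' hF' hc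
  have hp : 0 < p := hτ.trans_le hτp
  have hq0 : 0 < q := by linarith
  obtain ⟨r, hr⟩ : ∃ r, r = Nat.card (outside H I).ConnectedComponent := ⟨_, rfl⟩
  have hr' : ∀ a0, ∃ R : Rooting (outside H I) r, R.pr a0 = a0 := hr ▸ exists_rooting hC.2.1
  rw [← hr] at hΘ
  obtain ⟨R, -⟩ := hr' (Classical.arbitrary W)
  obtain ⟨k, hk⟩ : ∃ k, Fintype.card W = r + k :=
    Nat.exists_eq_add_of_le (R.roots ▸ Finset.card_le_univ _)
  obtain ⟨w, b1, b2⟩ := rep_hyp hC hr' (hX'.trans h.hX) h.hZ (h.hXZ.mono_left hX') a1 (F := F')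
    (E0 := E0) (D := D) (Y := Y) (U := U) (Q := q ^ 6)
    (c := c / ((2 * q ^ 3) ^ Fintype.card W) ^ Fintype.card W) hp1 hτ hτp (one_le_pow₀ hq) a4
    (by positivity) hβ hg hg1 hε hy0 (fun u hu v hv e => h.hF u (hX' hu) v (hX' hv) (hF' e))
    (fun v hv => le_trans (Nat.cast_le.2 (dg_mono hF' v hX')) (h.hΔ v (hX' hv)))
    (fun x hx => by
      obtain ⟨c1, c2, c3, -⟩ := hYU x (hX' hx)
      obtain ⟨d1, d2, -, d3⟩ := h.hN x (hX' hx)
      exact ⟨c1.trans (d1.trans Finset.sdiff_subset), fun y hy => d2 y (c1 hy), c2,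
        le_trans (Nat.cast_le.2 (Finset.card_le_card c1)) d3, c3⟩)
    (fun x hx => ⟨(hYU x (hX' hx)).2.2.2.1.trans Finset.sdiff_subset, (hYU x (hX' hx)).2.2.2.2.1⟩)
    (fun y => le_trans (Nat.cast_le.2 (Finset.card_le_card fun x hx => by
      rw [Finset.mem_filter] at hx
      exact Finset.mem_filter.2 ⟨hX' hx.1, (hYU x (hX' hx.1)).1 hx.2⟩))
      ((h.hκ y).trans (by gcongr))) hRl (le_trans (by
        rw [div_mul_eq_mul_div, mul_div_assoc, ← div_pow]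
        refine mul_le_mul_of_nonneg_left (pow_le_pow_left₀ (by positivity) ?_ _) hc0.le
        rw [hk, Nat.add_sub_cancel_left, pow_add, mul_div_mul_comm, ← div_pow, ← div_pow]
        have c1 : (X'.card : ℝ) ≤ q * s := le_trans (Nat.cast_le.2 (Finset.card_le_card hX')) h.hs
        have c2 := h.hδ
        have c3 : q ^ 2 ≤ q ^ 3 := pow_le_pow_right₀ hq (by norm_num)
        have c4 : 0 ≤ q * s := le_trans (by positivity) c1
        have c5 : (X'.card : ℝ) / (2 * q ^ 3) ≤ s * δ / Δ := by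
          rw [div_le_div_iff₀ (by positivity) a4]
          calc _ ≤ q * s * (2 * q ^ 2 * δ) := by gcongr
            _ = _ := by ring
        exact mul_le_mul (pow_le_pow_left₀ (by positivity) c5 _) (pow_le_pow_left₀ (by positivity)
          (by rw [div_le_iff₀ (by positivity)]; nlinarith only [c2, hq, a4]) _) (by positivity)
          (pow_nonneg (le_trans (by positivity) c5) _)) hΘ) h1 h2 hS
  refine ⟨_, Finset.card_le_card (Finset.filter_subset _ _), w,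
    b1.mono ?_ hτ.le (by positivity), b2⟩
  have c1 : q ^ (6 * Fintype.card W + 3 * Fintype.card W * Fintype.card W) ≤
      q ^ (6 * (Fintype.card W + 3) ^ 3) := pow_le_pow_right₀ hq (by nlinarith only [Nat.zero_le (Fintype.card W ^ 3)])
  refine le_trans (le_of_eq ?_) (mul_le_mul_of_nonneg_left c1 (by unfold K1; positivity))
  unfold K1
  simp only [mul_pow, pow_add, pow_mul]
  field_simp

lemma Prep.sat_of_tri [Nonempty V] (h : Prep V' X Z Low F E0 D N p q a g c0 s δ Δ t0)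
    (ht : 1 ≤ t0) (hC : IsCloud H I) {X' : Finset V} (hX' : X' ⊆ X) (hc : ¬ Col F X' (2 * t0))
    {Y U : V → Finset V} {y0 α ε τ β c : ℝ}
    (hYU : YU X Z Low D N Y U (y0 * (p * Fintype.card V)) α g ε) (hp : 0 < p) (hτ : 0 < τ)
    (hτ1 : τ ≤ 1) (hq : 1 ≤ q) (hg : 0 < g) (hg1 : g ≤ 1) (hε : 0 ≤ ε) (hy0 : 0 < y0)
    (hc0 : 0 < c) (hc1 : c ≤ 1) (hc2 : c ≤ β * g ^ 2 / 2 * y0)
    (hU : ∀ x ∈ X', β * (Fintype.card V : ℝ) ^ 2 ≤ ∑ w ∈ U x, (dg (gr D) w (U x) : ℝ))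
    (h1 : 2 * ε ≤ β * g ^ 2 / 4) (h2 : 9 ≤ β * g ^ 2 / 4 * (y0 * (p * Fintype.card V)))
    (h3 : 2 * (Fintype.card W : ℝ) ^ 2 * q ^ (6 * (Fintype.card W + 3) ^ 3) ≤
      c ^ (Fintype.card W + 3) ^ 3 * Fintype.card V)
    (hS : ∀ S : Finset W, 1 ≤ eIn H S →
      (Fintype.card V : ℝ) ^ 2 ≤ τ ^ (eIn H S - 1) * (Fintype.card V : ℝ) ^ S.card) :
    Sat H V' E0 D (2 ^ Fintype.card W * (2 * (eF H).card + 1) ^ Fintype.card W * 2 /
      c ^ (Fintype.card W + 3) ^ 3 * q ^ (6 * (Fintype.card W + 3) ^ 3)) τ := by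
  classical
  obtain ⟨a1, a2, -, -⟩ := h.sub ht hX' le_rfl hc
  have hq0 : 0 < q := by linarith
  have hn : (0 : ℝ) < Fintype.card V := by exact_mod_cast Fintype.card_pos
  have hXc : (0 : ℝ) < X'.card := by exact_mod_cast a1.card_pos
  obtain ⟨Tr, hTr⟩ : ∃ Tr : Finset (Unit ⊕ Bool → V), ∀ u, u ∈ Tr ↔
      ![u (.inl ()), u (.inr false), u (.inr true)] ∈ homs (⊤ : SimpleGraph (Fin 3)) (gr D) Z :=
    ⟨univ.filter _, fun u => Finset.mem_filter.trans (and_iff_right (mem_univ _))⟩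
  have b1 : ∀ x ∈ X', β * g ^ 2 / 2 * (y0 * (p * Fintype.card V) * (Fintype.card V : ℝ) ^ 2) ≤
      (Tr.filter fun u => u (.inl ()) ∈ Y x).card := fun x hx => by
    obtain ⟨c1, c2, c3, c4, c5, -⟩ := hYU x (hX' hx)
    have := fibre_lower (L := Unit) (I := Bool) D (fun _ => Y x) (fun _ => univ)
      (univ.filter fun z => z false ∈ U x ∧ z true ∈ U x ∧ (gr D).Adj (z false) (z true))
      (Tr.filter fun u => u (.inl ()) ∈ Y x) (m := y0 * (p * Fintype.card V)) (ε := ε) (γ := g)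
      (ρ := β) (by positivity) (c2.trans (by exact_mod_cast Finset.card_le_univ _)) hε hg.le hg1
      (fun _ => ⟨c2, c3⟩) ?_ (fun z hz _ i _ => ?_) (by simpa using h1)
      (by simpa [show (3 : ℝ) ^ 2 = 9 by norm_num] using h2) fun u d1 d2 _ d3 => ?_
    · simpa using this
    · rw [Fintype.card_bool]
      refine (hU x hx).trans ?_
      unfold dg
      rw [← Nat.cast_sum, ← Finset.card_sigma, Nat.cast_le]
      refine Finset.card_le_card_of_injOn (fun σ b => cond b σ.2 σ.1) (fun σ hσ => ?_)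
        fun σ _ σ' _ e => Sigma.ext (congrFun e false) (heq_of_eq (congrFun e true))
      have := Finset.mem_sigma.1 hσ
      exact Finset.mem_filter.2 ⟨mem_univ _, this.1, (mem_nb.1 this.2).1, (mem_nb.1 this.2).2⟩
    · obtain ⟨-, d1, d2, -⟩ := Finset.mem_filter.1 hz
      cases i
      exacts [c5 _ d1, c5 _ d2]
    · obtain ⟨-, e1, e2, e3⟩ := Finset.mem_filter.1 d2
      have e4 := d3 () false (mem_univ _)
      have e5 := d3 () true (mem_univ _)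
      refine Finset.mem_filter.2 ⟨(hTr u).2 (mem_homs.2 ⟨fun i => ?_, fun i j hij => ?_⟩), d1 ()⟩
      · fin_cases i
        exacts [(Finset.mem_sdiff.1 ((h.hN x (hX' hx)).1 (c1 (d1 ())))).1,
          (Finset.mem_sdiff.1 (c4 e1)).1, (Finset.mem_sdiff.1 (c4 e2)).1]
      · fin_cases i <;> fin_cases j
        exacts [absurd rfl hij, e4, e5, e4.symm, absurd rfl hij, e3, e5.symm, e3.symm,
          absurd rfl hij]
  have b2 : ∑ x ∈ X', ((Tr.filter fun u => u (.inl ()) ∈ Y x).card : ℝ) ≤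
      Tr.card * (q ^ 6 * p * X'.card) := by
    simp only [Finset.card_filter, Nat.cast_sum]
    rw [Finset.sum_comm, ← nsmul_eq_mul]
    refine Finset.sum_le_card_nsmul _ _ _ fun u _ => ?_
    rw [← Nat.cast_sum, ← Finset.card_filter]
    refine le_trans (Nat.cast_le.2 (Finset.card_le_card fun x hx => ?_))
      ((h.hκ (u (.inl ()))).trans (by gcongr))
    rw [Finset.mem_filter] at hx
    exact Finset.mem_filter.2 ⟨hX' hx.1, (hYU x (hX' hx.1)).1 hx.2⟩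
  have b3 : Tr.card ≤ (homs (⊤ : SimpleGraph (Fin 3)) (gr D) Z).card :=
    Finset.card_le_card_of_injOn _ (fun u hu => (hTr u).1 hu) fun u _ u' _ e => by
      funext i
      rcases i with _ | _ | _
      exacts [congrFun e 0, congrFun e 1, congrFun e 2]
  have b4 : c / q ^ 6 * (Fintype.card V : ℝ) ^ 3 ≤
      (homs (⊤ : SimpleGraph (Fin 3)) (gr D) Z).card := by
    refine le_trans ?_ (Nat.cast_le.2 b3)
    have := ((nsmul_eq_mul _ _).symm.trans_le (Finset.card_nsmul_le_sum _ _ _ b1)).trans b2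
    rw [div_mul_eq_mul_div, div_le_iff₀ (by positivity)]
    refine le_of_mul_le_mul_right ?_ (by positivity : 0 < p * X'.card)
    calc _ ≤ β * g ^ 2 / 2 * y0 * (Fintype.card V : ℝ) ^ 3 * (p * X'.card) := by gcongr
      _ = _ := by ring
      _ ≤ _ := this
      _ = _ := by ring
  obtain ⟨col, hcol⟩ := cloud_col hC
  have b5 := card_embs H (gr D) Z (blowup H col hcol (gr D) Z (by positivity)
    ((div_le_one (by positivity)).2 (hc1.trans (one_le_pow₀ hq))) b4) (by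
      rwa [div_pow, ← pow_mul, div_mul_eq_mul_div, le_div_iff₀ (by positivity)])
  obtain ⟨w, d1, d2, d3⟩ := hyp_copies H D Z (by positivity) hτ hτ1 hS b5
  refine ⟨_, le_rfl, w, d1.mono (le_of_eq ?_) hτ.le (by positivity), d2, fun I' hI => d3 I' ?_⟩
  · rw [div_pow, ← pow_mul]; field_simp
  · exact Finset.subset_empty.1 (hI ▸ Finset.filter_subset_filter _
      (homs_mono (gr_mono Finset.subset_union_right) h.hZ))

lemma Oracle.mono {P P' : Finset V} {t : ℕ} (h : Oracle F P t s δ) (hP : P' ⊆ P) :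
    Oracle F P' t s δ := fun U hU => h U (hU.trans hP)

theorem sup_cloud [Nonempty W] (hC : IsCloud H I) {a g c0 : ℝ} (hg : 0 < g) (hg1 : g ≤ 1)
    (hc0 : 0 < c0) (ha : 3 * g ≤ a) (hT : IsThunder H I ∨ 1 + 9 * g ≤ 3 * a) :
    ∃ (Λ t : ℕ) (K m0 : ℝ), 0 < K ∧ ∀ (V : Type) [Fintype V] [DecidableEq V] [Nonempty V]
      (V' X Z Low : Finset V) (F : SimpleGraph V) (E0 D : Finset (Sym2 V)) (N : V → Finset V)
      (p q s δ Δ τ : ℝ) (t0 : ℕ), Prep V' X Z Low F E0 D N p q a g c0 s δ Δ t0 → t ≤ t0 →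
      ¬ Col F X (Λ * t0) → p ≤ 1 → 0 < τ → τ ≤ p → 1 ≤ q →
      m0 * q ^ (6 * (Fintype.card W + 3) ^ 3) ≤ p * Fintype.card V →
      (∀ S : Finset W, 1 ≤ cross H I S → (Fintype.card V : ℝ) ^ 2 ≤
        τ ^ (cross H I S - 1 + ((S \ I).card - comps H I S)) * (Fintype.card V : ℝ) ^ S.card) →
      (∀ S : Finset W, 1 ≤ eIn H S →
        (Fintype.card V : ℝ) ^ 2 ≤ τ ^ (eIn H S - 1) * (Fintype.card V : ℝ) ^ S.card) →
      Sat H V' E0 D (K * q ^ (6 * (Fintype.card W + 3) ^ 3)) τ := by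
  classical
  obtain ⟨side, hside⟩ := exists_side hC
  obtain ⟨R, -⟩ := exists_rooting hC.2.1 (Classical.arbitrary W)
  obtain ⟨β', hβ', C, hth⟩ := third hg
  set h := Fintype.card W with hh
  have hz := zc_pos hg h h
  obtain ⟨M, hM⟩ := (tendsto_natCast_atTop_atTop.eventually
    (ev_large (h + 1 : ℝ) (by positivity : 0 < g * zc g h h ^ h / 2))).exists
  obtain ⟨β1, hβ1⟩ : ∃ x, x = zc g h h ^ h * (g / 2) ^ M := ⟨_, rfl⟩
  obtain ⟨β2, hβ2⟩ : ∃ x, x = (g / 4) ^ (h * h) / 3 := ⟨_, rfl⟩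
  have b1 : 0 < β1 := by rw [hβ1]; positivity
  have b2 : 0 < β2 := by rw [hβ2]; positivity
  obtain ⟨ε, ⟨⟨⟨e1, e2⟩, e3⟩, e4⟩, hε⟩ :=
    (((((ev_small (h * h) (by positivity : 0 < β1 ^ h * g ^ (h * h) / 4)).and
    (ev_small (h * h) (by positivity : 0 < β2 ^ h * g ^ (h * h) / 4))).and
    (ev_small 2 (by positivity : 0 < β' * g ^ 2 / 4))).and (ev_small 1 one_pos)).and
    self_mem_nhdsWithin).exists
  replace hε : 0 < ε := hε
  obtain ⟨k, hk⟩ := (tendsto_natCast_atTop_atTop.eventually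
    (ev_large 2 (by positivity : 0 < ε ^ 2))).exists
  obtain ⟨y0, hy0'⟩ : ∃ x, x = ε ^ k * c0 := ⟨_, rfl⟩
  have hy0 : 0 < y0 := by rw [hy0']; positivity
  obtain ⟨c, hc'⟩ : ∃ x, x = min 1 (β' * g ^ 2 / 2 * y0) := ⟨_, rfl⟩
  have hc : 0 < c := by rw [hc']; positivity
  obtain ⟨m0, ⟨⟨⟨m1, m2⟩, m3⟩, m4⟩, m5⟩ :=
    (((((ev_large (((h + h : ℕ) : ℝ) ^ 2) (by positivity : 0 < β1 ^ h * g ^ (h * h) / 4 * y0)).and
    (ev_large (((h + h : ℕ) : ℝ) ^ 2) (by positivity : 0 < β2 ^ h * g ^ (h * h) / 4 * y0))).and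
    (ev_large 9 (by positivity : 0 < β' * g ^ 2 / 4 * y0))).and
    (ev_large (2 * (h : ℝ) ^ 2) (by positivity : 0 < c ^ (h + 3) ^ 3))).and
    (eventually_gt_atTop 0)).exists
  obtain ⟨t, ⟨⟨t1, t2⟩, t3⟩⟩ := (((tendsto_natCast_atTop_atTop.eventually
    (ev_large ((h : ℝ) ^ 2) hz)).and (tendsto_natCast_atTop_atTop.eventually
    (ev_large (3 * ((h * h : ℕ) : ℝ) ^ 2) (by positivity : 0 < (g / 4) ^ (h * h))))).and
    (eventually_ge_atTop (h * h + 1))).exists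
  obtain ⟨Ka, hKa⟩ : ∃ x, x = K1 h (cE H I).card (zc g h h ^ h) β1 g y0 := ⟨_, rfl⟩
  obtain ⟨Kb, hKb⟩ : ∃ x, x = K1 h (cE H I).card β2 β2 g y0 := ⟨_, rfl⟩
  obtain ⟨Kc, hKc⟩ : ∃ x, x = 2 ^ h * (2 * ((eF H).card : ℝ) + 1) ^ h * 2 / c ^ (h + 3) ^ 3 :=
    ⟨_, rfl⟩
  have k1 : 0 < Ka := by rw [hKa]; unfold K1; positivity
  have k2 : 0 < Kb := by rw [hKb]; unfold K1; positivity
  have k3 : 0 < Kc := by rw [hKc]; positivity
  refine ⟨4 * (h + 1) ^ M + 2 + 2 * C, t, Ka + Kb + Kc, m0, by positivity, ?_⟩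
  intro V _ _ _ V' X Z Low F E0 D N p q s δ Δ τ t0 hP ht hX hp1 hτ hτp hq hm hS hS'
  have hp : 0 < p := hτ.trans_le hτp
  have hn : (0 : ℝ) < Fintype.card V := by exact_mod_cast Fintype.card_pos
  have hqA : 1 ≤ q ^ (6 * (h + 3) ^ 3) := one_le_pow₀ hq
  have hm' : m0 ≤ p * Fintype.card V := le_trans (by nlinarith only [m5, hqA]) hm
  have ht1 : 1 ≤ t0 := by omega
  have htδ : (t : ℝ) ≤ δ := le_trans (by exact_mod_cast ht) hP.ht
  obtain ⟨Y, U, hYU⟩ := hP.exists_YU hg.le hε (by linarith) (k := k) (by linarith) (by positivity)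
  rw [← hy0'] at hYU
  have hX2 : ¬ Col F X (2 * t0) := fun h => hX (h.mono le_rfl Subset.rfl (by gcongr; omega))
  obtain ⟨a1, -, a3, -⟩ := hP.sub ht1 Subset.rfl le_rfl hX2
  have hs : 0 ≤ s := by
    have := hP.hs
    have : (0 : ℝ) ≤ q * s := le_trans (by positivity) this
    exact nonneg_of_mul_nonneg_right this (by linarith)
  have hUg : ∀ x ∈ X, g * Fintype.card V ≤ (U x).card := fun x hx =>
    le_trans (by gcongr; linarith) (hYU x hx).2.2.2.2.2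
  rcases hT with hT | hT
  · obtain ⟨σ, hσ⟩ := thunder_pattern hT hside
    have := zykov R side hside σ hg (M := M) (by rw [← hh]; linarith) hs a3
      (by rw [← hh]; omega)
      (hP.hO F le_rfl) hP.hΔ (t1.trans (by gcongr))
      (fun h' => hX (h'.mono le_rfl Subset.rfl
        ((Nat.le_add_right _ ((2 + 2 * C) * t0)).trans_eq (by rw [← hh]; ring)))) hUg
    rw [mul_pow, ← hh, ← hβ1] at this
    refine (hP.sat_of_count ht1 hC Subset.rfl le_rfl hX2 hYU hp1 hτ hτp hq (by positivity) b1 hg hg1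
      hε.le hy0 hσ this e1 (m1.trans (by rw [mul_assoc]; gcongr)) hS).mono ?_ hτ.le
    rw [← hKa]; gcongr; linarith
  let X1 := X.filter fun x =>
    β' * (Fintype.card V : ℝ) ^ 2 ≤ ∑ w ∈ U x, (dg (gr D) w (U x) : ℝ)
  by_cases c1 : Col F X1 (2 * t0)
  swap
  · refine (hP.sat_of_tri ht1 hC (Finset.filter_subset _ _) c1 hYU hp hτ (hτp.trans hp1) hq hg hg1
      hε.le hy0 hc (hc' ▸ min_le_left _ _) (hc' ▸ min_le_right _ _)
      (fun x hx => (Finset.mem_filter.1 hx).2) e3 (m3.trans (by rw [mul_assoc]; gcongr)) ?_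
      hS').mono ?_ hτ.le
    · calc _ ≤ c ^ (h + 3) ^ 3 * m0 * q ^ (6 * (h + 3) ^ 3) := by gcongr
        _ ≤ c ^ (h + 3) ^ 3 * (p * Fintype.card V) := by rw [mul_assoc]; gcongr
        _ ≤ _ := by gcongr; nlinarith only [hp1]
    · rw [← hKc]; gcongr; linarith
  let Lg : SimpleGraph V := SimpleGraph.fromRel fun x x' =>
    g * Fintype.card V ≤ (U x ∩ U x').card
  have hLg : ∀ x x', x ≠ x' → (Lg.Adj x x' ↔ g * Fintype.card V ≤ (U x ∩ U x').card) :=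
    fun x x' hne => by
      simp only [Lg, SimpleGraph.fromRel_adj, ne_eq, hne, not_false_eq_true, true_and]
      rw [Finset.inter_comm (U x'), or_self]
  have hsd : X \ X1 ⊆ X := Finset.sdiff_subset
  by_cases c2 : Col (F ⊓ Lg) (X \ X1) (2 * t0)
  · have c3 := hth V (F \ Lg) (gr D) (X \ X1) U a (a - 2 * g) (by linarith) (by linarith)
      (fun x hx => (hYU x (hsd hx)).2.2.2.2.2)
      (fun x hx u hu => (hP.hD u ((hYU x (hsd hx)).2.2.2.1 hu)).trans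
        (Nat.cast_le.2 (dg_mono le_rfl u (subset_univ _))))
      (fun x hx => by
        rw [Finset.mem_sdiff, Finset.mem_filter, not_and, not_le] at hx
        exact (hx.2 hx.1).le)
      fun x _ x' _ e => (not_le.1 fun h => e.2 ((hLg x x' e.1.ne).2 h)).le
    have c4 := c2.sup c3
    rw [sup_inf_sdiff] at c4
    refine absurd ((c1.union c4).mono le_rfl (fun x hx => ?_)
      ((Nat.le_add_left _ (4 * (h + 1) ^ M * t0)).trans_eq (by ring))) hX
    rw [Finset.union_sdiff_self_eq_union]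
    exact Finset.mem_union_right _ hx
  have := zykov_all (I := W) (J := W) R side hside hg hs a3 ((hP.hO _ inf_le_left).mono hsd)
    (Δ := Δ) (fun v hv => le_trans (Nat.cast_le.2 (dg_mono inf_le_left v hsd)) (hP.hΔ v (hsd hv)))
    (t2.trans (by gcongr)) c2 fun x _ x' _ e => (hLg x x' e.1.ne).1 e.2
  rw [← hh, ← hβ2] at this
  refine (hP.sat_of_count ht1 hC hsd inf_le_left c2 hYU hp1 hτ hτp hq b2 b2 hg hg1
    hε.le hy0 (fun _ _ _ _ => trivial) this e2 (m2.trans (by rw [mul_assoc]; gcongr)) hS).mono ?_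
    hτ.le
  rw [← hKb]; gcongr; linarith only [k1, k3]

end Pool.Agent.Lib.MP_46505f_co
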