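import Pool.Agent.Lib.MP_46505f_co.Reg
import Pool.Agent.Lib.MP_46505f_co.Sup

set_option autoImplicit false
set_option linter.unusedSectionVars false
open Finset Filter Topology

namespace Pool.Agent.Lib.MP_46505f_co

/- The local structure inside a graph of large chromatic number. -/

variable {V : Type} [Fintype V] [DecidableEq V]

lemma col_class {κ : Type*} [Fintype κ] {F : SimpleGraph V} {X : Finset V} {t : ℕ}
    (P : κ → V → Prop) [∀ k, DecidablePred (P k)] (h : ∀ x ∈ X, ∃ k, P k x)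
    (hX : ¬ Col F X (Fintype.card κ * t)) : ∃ k, ¬ Col F (X.filter (P k)) t := by
  classical
  by_contra c
  push Not at c
  exact hX ((col_biUnion univ _ fun k _ => c k).mono le_rfl (fun x hx => (h x hx).elim fun k hk =>
    Finset.mem_biUnion.2 ⟨k, mem_univ _, Finset.mem_filter.2 ⟨hx, hk⟩⟩) le_rfl)

lemma col_sup_fin {κ : Type*} {F : κ → SimpleGraph V} {X : Finset V} {t : ℕ} (s : Finset κ)
    (h : ∀ k ∈ s, Col (F k) X t) : Col (s.sup F) X (t ^ s.card) := by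
  classical
  induction s using Finset.induction with
  | empty => exact ⟨fun _ => 0, by simp, by simp⟩
  | insert k s hk ih =>
    rw [Finset.sup_insert, Finset.card_insert_of_notMem hk, pow_succ']
    exact (h k (Finset.mem_insert_self _ _)).sup (ih fun j hj => h j (Finset.mem_insert_of_mem hj))

lemma Col.sdiff {F : SimpleGraph V} {X R : Finset V} {s t : ℕ} (h : ¬ Col F X (s + t))
    (hR : Col F (X ∩ R) t) : ¬ Col F (X \ R) s := fun c =>
  h ((c.union hR).mono le_rfl (by rw [Finset.sdiff_union_inter]) le_rfl)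

lemma size_regular (Λ : ℕ → ℕ) (hΛ : ∀ t, t ≤ Λ t) {q : ℝ} (hq : 0 < q) (F : SimpleGraph V)
    (t : ℕ) : ∀ (L : ℕ) (U : Finset V), U.card < q ^ L → ¬ Col F U (Λ^[L] t) →
    ∃ t0 ≥ t, ∃ P ⊆ U, ¬ Col F P (Λ t0) ∧ ∀ X ⊆ P, q * X.card ≤ P.card → Col F X t0
  | 0, U, h1, h2 => by
    have := (nonempty_of_not_col h2).card_pos
    norm_num at h1
    simp [h1] at this
  | L + 1, U, h1, h2 => by
    rw [Function.iterate_succ_apply'] at h2
    by_cases h : ∀ X ⊆ U, q * X.card ≤ U.card → Col F X (Λ^[L] t)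
    · exact ⟨_, Function.id_le_iterate_of_id_le hΛ L t, U, Subset.rfl, h2, h⟩
    push Not at h
    obtain ⟨X, a1, a2, a3⟩ := h
    obtain ⟨t0, b1, P, b2, b3⟩ := size_regular Λ hΛ hq F t L X
      (lt_of_mul_lt_mul_left (a2.trans_lt (by rwa [pow_succ'] at h1)) hq.le) a3
    exact ⟨t0, b1, P, b2.trans a1, b3⟩

lemma xp_few {G : SimpleGraph V} {p l x : ℝ} (h : Xp G p l) {X N : Finset V}
    (hx : ∀ v ∈ X, x ≤ dg G v N) (h1 : 16 * p * N.card ≤ x) (h2 : 16 * l ≤ x) :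
    X.card * x ≤ 8 * N.card * l := by
  have a1 := (Finset.card_nsmul_le_sum _ _ _ hx).trans (h X N)
  rw [nsmul_eq_mul] at a1
  nlinarith [X.card.cast_nonneg (α := ℝ)]

lemma cover (Bd : Finset V → Prop) {γ x : ℝ} (hγ : 0 ≤ γ) (hx : 0 ≤ x) (Z : Finset V)
    (h : ∀ c ⊆ Z, x ≤ c.card → ∃ A ⊆ c, γ * c.card ≤ A.card ∧ Bd A) : ∀ k : ℕ,
    ∃ A : Fin k → Finset V, (∀ i, A i ⊆ Z ∧ (A i = ∅ ∨ Bd (A i))) ∧
      (((Z \ univ.biUnion A).card : ℝ) ≤ x ∨ (Z \ univ.biUnion A).card + k * (γ * x) ≤ Z.card)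
  | 0 => ⟨Fin.elim0, fun i => i.elim0, .inr (by simp)⟩
  | k + 1 => by
    obtain ⟨A, a1, a2⟩ := cover Bd hγ hx Z h k
    have e : ∀ B, Z \ univ.biUnion (Fin.cons B A : Fin (k + 1) → Finset V) =
        (Z \ univ.biUnion A) \ B := fun B => by
      ext v; simp [Fin.exists_fin_succ]; tauto
    by_cases c : ((Z \ univ.biUnion A).card : ℝ) ≤ x
    · exact ⟨Fin.cons ∅ A, Fin.forall_fin_succ.2 ⟨by simp, a1⟩, .inl (by rwa [e, sdiff_empty])⟩
    obtain ⟨B, b1, b2, b3⟩ := h _ Finset.sdiff_subset (not_le.1 c).le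
    refine ⟨Fin.cons B A, Fin.forall_fin_succ.2 ⟨⟨b1.trans Finset.sdiff_subset, .inr b3⟩, a1⟩,
      .inr ?_⟩
    rw [e, Finset.card_sdiff_of_subset b1, Nat.cast_sub (Finset.card_le_card b1)]
    have := mul_le_mul_of_nonneg_left (not_le.1 c).le hγ
    have := a2.resolve_left c
    push_cast; linarith

open Classical in
theorem greedy_match {A : Type} [Fintype A] (X : Finset V) (Y : V → Finset V)
    (Cp : (A → V) → Prop) {s y y1 : ℝ} {M : ℕ} (hy : 0 < y) (hy1 : 0 ≤ y1)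
    (hY : ∀ x ∈ X, 2 * y ≤ (Y x).card ∧ (Y x).card ≤ y1)
    (priv : ∀ N : Finset V, N.card ≤ M * (Fintype.card A * y1) →
      (X.filter fun x => y ≤ (Y x ∩ N).card).card ≤ s)
    (hex : ∀ R : Finset V, R.card ≤ s → ∃ θ, Cp θ ∧ ∀ a, θ a ∈ X \ R) : ∀ m ≤ M,
    ∃ (θ : Fin m → A → V) (Y' : Fin m → A → Finset V), (∀ i, Cp (θ i) ∧ ∀ a, θ i a ∈ X ∧
      Y' i a ⊆ Y (θ i a) ∧ ((Y (θ i a)).card : ℝ) ≤ 2 * (Y' i a).card) ∧
      ∀ i i', i ≠ i' → ∀ a b, Disjoint (Y' i a) (Y' i' b) ∧ θ i a ≠ θ i' b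
  | 0, _ => ⟨Fin.elim0, Fin.elim0, fun i => i.elim0, fun i => i.elim0⟩
  | m + 1, hm => by
    obtain ⟨θ, Y', a1, a2⟩ := greedy_match X Y Cp hy hy1 hY priv hex m (by omega)
    let N := (univ : Finset (Fin m × A)).biUnion fun z => Y (θ z.1 z.2)
    have hN : ∀ i a, Y (θ i a) ⊆ N := fun i a => Finset.subset_biUnion_of_mem
      (fun z : Fin m × A => Y (θ z.1 z.2)) (mem_univ (i, a))
    obtain ⟨ϑ, b1, b2⟩ := hex _ (priv N (by
      refine (Nat.cast_le.2 Finset.card_biUnion_le).trans ?_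
      rw [Nat.cast_sum]
      refine (Finset.sum_le_card_nsmul _ _ y1 fun z _ => (hY _ ((a1 z.1).2 z.2).1).2).trans ?_
      rw [nsmul_eq_mul, Finset.card_univ, Fintype.card_prod, Fintype.card_fin, Nat.cast_mul,
        mul_assoc]
      gcongr; omega))
    have b3 : ∀ a, ϑ a ∈ X ∧ ((Y (ϑ a) ∩ N).card : ℝ) < y := fun a => by
      have := b2 a
      simp only [Finset.mem_sdiff, Finset.mem_filter, not_and, not_le] at this
      exact ⟨this.1, this.2 this.1⟩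
    have b4 : ∀ i a b, Disjoint (Y (ϑ a) \ N) (Y' i b) ∧ ϑ a ≠ θ i b := fun i a b =>
      ⟨Finset.sdiff_disjoint.mono_right (((a1 i).2 b).2.1.trans (hN i b)), fun e => by
        have := (b3 a).2
        rw [Finset.inter_eq_left.2 (e ▸ hN i b)] at this
        linarith [(hY _ (b3 a).1).1]⟩
    refine ⟨Fin.cons ϑ θ, Fin.cons (fun a => Y (ϑ a) \ N) Y', Fin.forall_fin_succ.2
      ⟨⟨b1, fun a => ⟨(b3 a).1, Finset.sdiff_subset, ?_⟩⟩, a1⟩, Fin.forall_fin_succ.2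
      ⟨Fin.forall_fin_succ.2 ⟨fun h => absurd rfl h, fun i _ => b4 i⟩, fun i =>
      Fin.forall_fin_succ.2 ⟨fun _ a b => ⟨(b4 i b a).1.symm, (b4 i b a).2.symm⟩,
      fun i' h => a2 i i' fun e => h (e ▸ rfl)⟩⟩⟩
    have := (Nat.cast_inj (R := ℝ)).2 (Finset.card_sdiff_add_card_inter (Y (ϑ a)) N)
    simp only [Fin.cons_zero]
    push_cast at this
    linarith [(hY _ (b3 a).1).1, (b3 a).2]

section ex
variable {A I J : Type} [Fintype A] [DecidableEq A] [Fintype I] [DecidableEq I] [Fintype J]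
  [DecidableEq J] {T : SimpleGraph A} {r : ℕ}

theorem zykov_ex (R : Rooting T r) (side : A → Bool) (hside : ∀ a b, T.Adj a b → side a ≠ side b)
    (σ : J → I → Bool) {α : ℝ} (hα : 0 < α) : ∃ β > 0, ∃ C : ℕ, ∀ (V : Type) [Fintype V]
    [DecidableEq V] (F : SimpleGraph V) (X : Finset V) (U : V → Finset V), ¬ Col F X C →
    (∀ x ∈ X, α * Fintype.card V ≤ (U x).card) →
    (zgood T F X U (fun j a z => side a = σ j z) β).Nonempty := by
  have hβ := zc_pos hα (Fintype.card I) (Fintype.card A)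
  obtain ⟨M, hM⟩ := (tendsto_natCast_atTop_atTop.eventually (ev_large (Fintype.card I + 1 : ℝ)
    (by positivity : 0 < α * zc α (Fintype.card I) (Fintype.card A) ^ Fintype.card J / 2))).exists
  obtain ⟨t, t1, t2⟩ := ((tendsto_natCast_atTop_atTop.eventually
    (ev_large ((Fintype.card A : ℝ) ^ 2) hβ)).and
    (eventually_ge_atTop (Fintype.card J * Fintype.card A + 1))).exists
  refine ⟨_, by positivity, _, fun V _ _ F X U hc h => Finset.card_pos.1 (Nat.cast_pos.1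
    (lt_of_lt_of_le ?_ (zykov R side hside σ hα (M := M) (by linarith) zero_le_one
    (δ := t) (Δ := Fintype.card V) (by exact_mod_cast (by omega : 0 < t)) (by omega)
    (oracle_basic F X t) (fun v hv => Nat.cast_le.2 ((dg_lt hv).le.trans (Finset.card_le_univ _)))
    t1 hc h)))⟩
  have : Nonempty V := ⟨(nonempty_of_not_col hc).choose⟩
  have : (0 : ℝ) < Fintype.card V := by exact_mod_cast Fintype.card_pos
  have : (0 : ℝ) < t := by exact_mod_cast (by omega : 0 < t)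
  positivity

theorem zykov_all_ex (I J : Type) [Fintype I] [DecidableEq I] [Fintype J] [DecidableEq J]
    (R : Rooting T r) (side : A → Bool) (hside : ∀ a b, T.Adj a b → side a ≠ side b) {α : ℝ}
    (hα : 0 < α) : ∃ β > 0, ∃ C : ℕ, ∀ (V : Type) [Fintype V] [DecidableEq V] (F : SimpleGraph V)
    (X : Finset V) (U : V → Finset V), ¬ Col F X C →
    (∀ x ∈ X, ∀ x' ∈ X, F.Adj x x' → α * Fintype.card V ≤ (U x ∩ U x').card) →
    (zgood T F X U (fun (_ : J) _ (_ : I) => True) β).Nonempty := by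
  obtain ⟨t, t1, t2⟩ := ((tendsto_natCast_atTop_atTop.eventually
    (ev_large (3 * ((Fintype.card J * Fintype.card A : ℕ) : ℝ) ^ 2)
    (by positivity : 0 < (α / 4) ^ (Fintype.card J * Fintype.card A)))).and
    (eventually_ge_atTop 1)).exists
  refine ⟨_, by positivity, t, fun V _ _ F X U hc h => Finset.card_pos.1 (Nat.cast_pos.1
    (lt_of_lt_of_le ?_ (zykov_all R side hside hα zero_le_one
    (δ := t) (Δ := Fintype.card V) (by exact_mod_cast t2)
    (oracle_basic F X t) (fun v hv => Nat.cast_le.2 ((dg_lt hv).le.trans (Finset.card_le_univ _)))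
    t1 hc h)))⟩
  have : Nonempty V := ⟨(nonempty_of_not_col hc).choose⟩
  have : (0 : ℝ) < Fintype.card V := by exact_mod_cast Fintype.card_pos
  have : (0 : ℝ) < t := by exact_mod_cast t2
  positivity

end ex

lemma avg_block {l k : ℕ} {g d' : ℝ} (hl : 0 < l) (hk : (1 / 2 : ℝ) ^ k ≤ g)
    (hkl : (k : ℝ) ≤ g * l) (U : Fin l → Bool → Finset V)
    (h1 : ∀ i b, d' * Fintype.card V ≤ (U i b).card)
    (h4 : ∀ i, ((U i false ∩ U i true).card : ℝ) ≤ g * Fintype.card V) :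
    ∃ σ : Fin l → Bool, ((univ.filter fun w => ∀ i, w ∉ U i (σ i)).card : ℝ) ≤
      (1 - 2 * d' + 3 * g) * Fintype.card V := by
  classical
  have hl' : (0 : ℝ) < l := by exact_mod_cast hl
  let Jw : V → Finset (Fin l) := fun w => univ.filter fun i => w ∈ U i false ∪ U i true
  have e2 : ∀ w, ∑ σ : Fin l → Bool, (if ∀ i, w ∉ U i (σ i) then (1 : ℝ) else 0) ≤
      2 ^ l * (1 - (Jw w).card / l + 2 * g) := fun w => by
    rw [Finset.sum_boole]
    have f1 : (univ.filter fun σ : Fin l → Bool => ∀ i, w ∉ U i (σ i)) =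
        Fintype.piFinset fun i => univ.filter fun b => w ∉ U i b := by ext; simp
    rw [f1, Fintype.card_piFinset, Nat.cast_prod]
    refine (Finset.prod_le_prod (g := fun i => 2 * if i ∈ Jw w then 1 / 2 else 1)
      (fun _ _ => by positivity) fun i _ => ?_).trans ?_
    · split_ifs with h
      · have : (univ.filter fun b => w ∉ U i b).card < (univ : Finset Bool).card :=
          Finset.card_lt_card (Finset.filter_ssubset.2 (by
            simpa [Jw, or_comm] using h))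
        rw [mul_one_div, div_self two_ne_zero]
        exact_mod_cast Nat.lt_succ_iff.1 this
      · rw [mul_one]; exact_mod_cast Finset.card_le_univ (α := Bool) _
    · simp only [Finset.prod_mul_distrib, Finset.prod_ite_mem, Finset.univ_inter,
        Finset.prod_const, Finset.card_univ, Fintype.card_fin]
      gcongr
      exact half_pow_le hl (by simpa using Finset.card_le_univ (Jw w)) hk hkl
  have e3 : l * ((2 * d' - g) * Fintype.card V) ≤ ∑ w, ((Jw w).card : ℝ) := by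
    have : ∑ w, ((Jw w).card : ℝ) = ∑ i, ((U i false ∪ U i true).card : ℝ) := by
      simp only [Jw, Finset.card_filter, Nat.cast_sum]
      rw [Finset.sum_comm]
      refine Finset.sum_congr rfl fun i _ => ?_
      simp only [Nat.cast_ite, Nat.cast_one, Nat.cast_zero, Finset.sum_ite_mem, Finset.univ_inter,
        Finset.sum_const, nsmul_eq_mul, mul_one]
    rw [this]
    simpa using Finset.card_nsmul_le_sum univ (fun i => ((U i false ∪ U i true).card : ℝ))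
      ((2 * d' - g) * Fintype.card V) fun i _ => by
      have := (Nat.cast_inj (R := ℝ)).2 (Finset.card_union_add_card_inter (U i false) (U i true))
      push_cast at this
      linarith [h1 i false, h1 i true, h4 i]
  have e5 := Finset.sum_le_sum fun w (_ : w ∈ univ) => e2 w
  rw [Finset.sum_comm, ← Finset.mul_sum] at e5
  simp only [Finset.sum_add_distrib, Finset.sum_sub_distrib, Finset.sum_const, Finset.card_univ,
    nsmul_eq_mul, mul_one, ← Finset.sum_div, Finset.sum_boole] at e5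
  rw [← le_div_iff₀' hl'] at e3
  obtain ⟨σ, -, h⟩ := Finset.exists_le_of_sum_le (g := fun _ =>
    (1 - 2 * d' + 3 * g) * Fintype.card V) Finset.univ_nonempty (e5.trans (by
      simp only [Finset.sum_const, Finset.card_univ, nsmul_eq_mul, Fintype.card_fun,
        Fintype.card_bool, Fintype.card_fin, Nat.cast_pow, Nat.cast_ofNat]
      gcongr; linarith))
  exact ⟨σ, h⟩

theorem third2 {g α : ℝ} (hg : 0 < g) (hα : 0 < α) : ∃ β > 0, ∃ C : ℕ, ∀ (V : Type) [Fintype V]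
    [DecidableEq V] (F G : SimpleGraph V) (X Z : Finset V) (A U : V → Finset V) (ρ M d d' : ℝ),
    0 < ρ → g ≤ 1 → UU G ρ g M → M ≤ β * (Fintype.card V : ℝ) ^ 2 → 1 + 8 * g ≤ d + 2 * d' →
    (∀ x ∈ X, α * Fintype.card V ≤ (A x).card ∧ d' * Fintype.card V ≤ (U x).card ∧
      Disjoint (A x) Z ∧ (∀ s ∈ A x, d * Fintype.card V * ρ ≤ dg G s Z) ∧
      eb G (A x) (U x) ≤ β * (Fintype.card V : ℝ) ^ 2 * ρ) →
    (∀ x ∈ X, ∀ x' ∈ X, F.Adj x x' → ((U x ∩ U x').card : ℝ) ≤ g * Fintype.card V) →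
    Col F X C := by
  classical
  obtain ⟨k, hk⟩ := exists_pow_lt_of_lt_one hg (by norm_num : (1 / 2 : ℝ) < 1)
  obtain ⟨l, hkl, hl⟩ := ((tendsto_natCast_atTop_atTop.eventually (ev_large (k : ℝ) hg)).and
    (eventually_ge_atTop 1)).exists
  have hl' : (1 : ℝ) ≤ l := by exact_mod_cast hl
  obtain ⟨R, -⟩ := exists_rooting (T := (⊤ : SimpleGraph Bool))
    (SimpleGraph.IsAcyclic.of_card_le_two (by simp)) true
  obtain ⟨β, hβ, C, hz⟩ := zykov_ex R id (fun a b h => h)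
    (fun (j : Fin l) (z : Fin l → Bool) => z j) hα
  refine ⟨g * β / l, by positivity, C, fun V _ _ F G X Z A U ρ M d d' hρ hg1 hU hM hd h h4 => ?_⟩
  by_contra hc
  have : Nonempty V := ⟨(nonempty_of_not_col hc).choose⟩
  obtain ⟨n, hn'⟩ : ∃ x : ℝ, x = Fintype.card V := ⟨_, rfl⟩
  have hn : 0 < n := by rw [hn']; exact_mod_cast Fintype.card_pos
  obtain ⟨θ, hθ⟩ := hz V F X A hc fun x hx => (h x hx).1
  obtain ⟨a1, -, a3⟩ := mem_zgood.1 hθ
  have hX : ∀ i b, θ i b ∈ X := fun i b => (mem_homs.1 (a1 i)).1 b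
  obtain ⟨σ, hσ⟩ := avg_block hl hk.le hkl (fun i b => U (θ i b)) (fun i b => (h _ (hX i b)).2.1)
    fun i => h4 _ (hX i _) _ (hX i _) ((mem_homs.1 (a1 i)).2 _ _ (by simp))
  have a4 := a3 σ
  set S := cap A (fun (j : Fin l) a (z : Fin l → Bool) => id a = z j) θ σ
  have hS : ∀ i, S ⊆ A (θ i (σ i)) := fun i v hv => mem_cap.1 hv i (σ i) rfl
  let B := Z.filter fun w => ∀ i, w ∉ U (θ i (σ i))
  have b1 : ∀ s ∈ S, d * n * ρ ≤ dg G s B + ∑ i, (dg G s (U (θ i (σ i))) : ℝ) := fun s hs => by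
    refine (hn' ▸ (h _ (hX ⟨0, hl⟩ _)).2.2.2.1 s (hS _ hs)).trans ?_
    norm_cast
    refine le_trans (Finset.card_le_card fun v hv => ?_) ((Finset.card_union_le _ _).trans
      (Nat.add_le_add_left Finset.card_biUnion_le _))
    simp only [mem_nb, B, Finset.mem_union, Finset.mem_filter, Finset.mem_biUnion] at hv ⊢
    by_cases c : ∀ i, v ∉ U (θ i (σ i))
    · exact .inl ⟨⟨hv.1, c⟩, hv.2⟩
    · push Not at c
      exact .inr (c.imp fun i c => ⟨mem_univ _, c, hv.2⟩)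
  have b2 := Finset.card_nsmul_le_sum _ _ _ b1
  rw [Finset.sum_add_distrib, Finset.sum_comm, nsmul_eq_mul] at b2
  have b3 := Finset.sum_le_card_nsmul univ (fun i => eb G S (U (θ i (σ i)))) _ fun i _ =>
    (Finset.sum_le_sum_of_subset_of_nonneg (hS i) fun _ _ _ => by positivity).trans
    (h _ (hX i _)).2.2.2.2
  have b4 := hU S B (((h _ (hX ⟨0, hl⟩ _)).2.2.1.mono_left (hS _)).mono_right
    (Finset.filter_subset _ _))
  have b5 : (B.card : ℝ) ≤ (1 - 2 * d' + 3 * g) * n := hn' ▸ le_trans (Nat.cast_le.2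
    (Finset.card_le_card (Finset.filter_subset_filter _ (subset_univ _)))) hσ
  have b6 : (B.card : ℝ) ≤ n := hn' ▸ Nat.cast_le.2 (Finset.card_le_univ _)
  rw [nsmul_eq_mul, Finset.card_univ, Fintype.card_fin, ← hn'] at b3
  rw [← hn'] at hM a4
  have b7 : g * β * n ^ 2 ≤ S.card * (g * n) := by nlinarith only [a4, hg, hn, mul_pos hg hn]
  have b8 : M ≤ S.card * (g * n) := (hM.trans (by gcongr; exact div_le_self (by positivity) hl')).trans b7
  have b9 : l * (g * β / l * n ^ 2 * ρ) = g * β * n ^ 2 * ρ := by field_simp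
  have hS0 : (0 : ℝ) < S.card := lt_of_lt_of_le (by positivity) a4
  have c1 : (1 + g) * (ρ * (S.card * B.card + M)) ≤ (1 + g) * (ρ * (S.card * B.card +
    S.card * (g * n))) := by gcongr
  have c2 := mul_le_mul_of_nonneg_right b7 hρ.le
  have c3 : d * n ≤ (1 + g) * (B.card + g * n) + g * n :=
    le_of_mul_le_mul_left (by unfold eb at b3; linarith) (mul_pos hS0 hρ)
  nlinarith only [b5, c3, hg, hn, hd, b6, hg1, hn', mul_pos hg hn]

variable {W : Type} [Fintype W] [DecidableEq W]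

/-- copies of the forest with private leaf sets -/
structure CS (H : SimpleGraph W) (I : Finset W) (F G : SimpleGraph V) (α ε β y y1 : ℝ)
    (X R Z : Finset V) {κ : Type} (J : Finset κ) (θ : κ → W → V) (Y U : κ → W → Finset V) :
    Prop where
  hom : ∀ i ∈ J, θ i ∈ homs (outside H I) F X
  inj : ∀ i ∈ J, ∀ i' ∈ J, ∀ a b, θ i a = θ i' b → a = b
  hY : ∀ i ∈ J, ∀ a, Y i a ⊆ R ∧ (∀ v ∈ Y i a, F.Adj (θ i a) v) ∧ y ≤ (Y i a).card ∧
    (Y i a).card ≤ y1 ∧ U i a ⊆ Z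
  priv : ∀ i ∈ J, ∀ i' ∈ J, i ≠ i' → ∀ a b, Disjoint (Y i a) (Y i' b)
  cap : ∀ i ∈ J, ∀ z, ∃ C ⊆ Z, β * Fintype.card V ≤ C.card ∧
    ∀ l, z ∈ I → H.Adj l z → C ⊆ U i (par H I l)
  lr : ∀ i ∈ J, ∀ a, LR G α (ε * (Y i a).card) (ε * Fintype.card V) (Y i a) (U i a)

/-- lower regular triples -/
structure TS (G : SimpleGraph V) (α ε ε' β β' y : ℝ) (R A Z : Finset V) {κ : Type} (J : Finset κ)
    (Y U U' : κ → Finset V) : Prop where
  hY : ∀ i ∈ J, Y i ⊆ R ∧ y ≤ (Y i).card ∧ U i ⊆ A ∧ U' i ⊆ Z ∧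
    β * Fintype.card V ≤ (U i).card ∧ β' * Fintype.card V ≤ (U' i).card
  priv : ∀ i ∈ J, ∀ i' ∈ J, i ≠ i' → Disjoint (Y i) (Y i')
  lr : ∀ i ∈ J, LR G α (ε * (Y i).card) (ε * Fintype.card V) (Y i) (U i ∪ U' i) ∧
    LR G α (ε' * (U i).card) (ε' * Fintype.card V) (U i) (U' i)

open Classical in
structure Pre (F G : SimpleGraph V) (X R A Lo : Finset V) {k : ℕ} (Z : Fin k → Finset V)
    (N : V → Finset V) (ρ y s M0 a a1 c0 g δ : ℝ) (h M t0 : ℕ) : Prop where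
  hρ : 0 < ρ
  hy : 0 < y ∧ y ≤ Fintype.card V
  dj : Disjoint R A ∧ Disjoint R (univ.biUnion Z) ∧ Disjoint A (univ.biUnion Z)
  hN : ∀ x ∈ X, N x ⊆ R \ Lo ∧ (∀ v ∈ N x, F.Adj x v) ∧ c0 * y ≤ (N x).card ∧ (N x).card ≤ 2 * y
  hA : ∀ v ∈ R \ Lo, a1 * Fintype.card V * ρ ≤ dg G v A
  hZ : ∀ v ∈ (R ∪ A) \ Lo, a * Fintype.card V * ρ ≤ dg G v (univ.biUnion Z)
  hL : Lo.card ≤ a1 / 16 * Fintype.card V
  hU : UU G ρ g M0
  hM : M0 ≤ δ * Fintype.card V * (δ * y)
  small : ∀ X' ⊆ X, X'.card ≤ s → Col F X' t0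
  priv : ∀ B : Finset V, B.card ≤ M * (h * (2 * y)) →
    (X.filter fun x => δ * y ≤ (N x ∩ B).card).card ≤ s

variable {F G : SimpleGraph V} {X R A Lo : Finset V} {k : ℕ} {Z : Fin k → Finset V}
  {N Y U : V → Finset V} {ρ y s M0 a a1 c0 g δ α ε : ℝ} {h M t0 : ℕ}

def YU2 (G : SimpleGraph V) (X B : Finset V) (N Y U : V → Finset V) (α ε y : ℝ) : Prop :=
  ∀ x ∈ X, Y x ⊆ N x ∧ 2 * y ≤ (Y x).card ∧ U x ⊆ B ∧
    LR G α (ε / 2 * (Y x).card) (ε * Fintype.card V) (Y x) (U x)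

lemma Pre.yu [Nonempty V] (hP : Pre F G X R A Lo Z N ρ y s M0 a a1 c0 g δ h M t0) (hα : 0 ≤ α)
    (hε : 0 < ε) (hε1 : ε ≤ 1) {r : ℕ} (hr : 1 ≤ r * (ε / 2)) (hδ : 0 < δ) (hg : 0 ≤ g)
    (hg1 : g ≤ 1) (h1 : 2 * δ ≤ (ε / 2 / 2) ^ r * c0) (h2 : 4 * α ≤ g) (h3 : 2 * δ ≤ g)
    (h4 : 32 * α ≤ a1) (h5 : 16 * δ ≤ a1) :
    ∃ Y U, YU2 G X (A \ Lo ∪ univ.biUnion Z) N Y U (2 * α * ρ) ε (δ * y) ∧ ∀ x ∈ X,
      a1 / 4 * Fintype.card V ≤ (U x ∩ A).card ∧
      (a - 3 * g) * Fintype.card V ≤ (U x ∩ univ.biUnion Z).card := by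
  have hρ := hP.hρ
  have hy := hP.hy.1
  obtain ⟨n, hn'⟩ : ∃ x : ℝ, x = Fintype.card V := ⟨_, rfl⟩
  have hn : 0 < n := by rw [hn']; exact_mod_cast Fintype.card_pos
  choose Y a1' U a2 a3 a4 a5 using fun x => lr G (α := 2 * α * ρ) (by positivity) (half_pos hε)
    (by linarith) hr (N x) (A \ Lo ∪ univ.biUnion Z)
  have b : ∀ x ∈ X, 2 * (δ * y) ≤ (Y x).card := fun x hx => le_trans (by
    have := mul_le_mul_of_nonneg_left (hP.hN x hx).2.2.1 (by positivity : 0 ≤ (ε / 2 / 2) ^ r)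
    nlinarith only [this, h1, hy]) (a3 x)
  refine ⟨Y, U, fun x hx => ⟨a1' x, b x hx, a2 x, (a4 x).mono (fun _ _ _ _ => id) le_rfl le_rfl
    (by gcongr; linarith) Subset.rfl Subset.rfl⟩, fun x hx => ?_⟩
  have b1 := b x hx
  have b2 : Y x ⊆ R \ Lo := (a1' x).trans (hP.hN x hx).1
  have b3 : Y x ⊆ R := b2.trans Finset.sdiff_subset
  have b4 : M0 ≤ δ * n * (Y x).card := hP.hM.trans (by rw [← hn']; gcongr; nlinarith only [b1])
  have b5 : (0 : ℝ) < (Y x).card := lt_of_lt_of_le (by positivity) b1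
  have c1 := uu_size hP.hU hρ hg (U := U x ∩ A ∪ Lo ∩ A) (x := (a1 - 4 * α) * n)
    ((hP.dj.1.mono_left b3).mono_right (Finset.union_subset Finset.inter_subset_right
    Finset.inter_subset_right)) b5 b4 fun v hv => by
      have := dg_le_add G v (Q := A) (A := U x ∩ A ∪ Lo ∩ A)
        (B := (A \ Lo ∪ univ.biUnion Z) \ U x) fun u hu => by
        simp only [Finset.mem_union, Finset.mem_inter, Finset.mem_sdiff]; tauto
      have := hP.hA v (b2 hv)
      have := a5 x v hv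
      rw [← hn'] at *; linarith
  have c2 := uu_size hP.hU hρ hg (U := U x ∩ univ.biUnion Z) (x := (a - 4 * α) * n)
    ((hP.dj.2.1.mono_left b3).mono_right Finset.inter_subset_right) b5 b4 fun v hv => by
      have := dg_le_add G v (Q := univ.biUnion Z) (A := U x ∩ univ.biUnion Z)
        (B := (A \ Lo ∪ univ.biUnion Z) \ U x) fun u hu => by
        simp only [Finset.mem_union, Finset.mem_inter, Finset.mem_sdiff]; tauto
      have := hP.hZ v (Finset.sdiff_subset_sdiff Finset.subset_union_left Subset.rfl (b2 hv))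
      have := a5 x v hv
      rw [← hn'] at *; linarith
  have c3 := (Nat.cast_le (α := ℝ)).2 ((Finset.card_union_le (U x ∩ A) (Lo ∩ A)).trans
    (Nat.add_le_add_left (Finset.card_le_card Finset.inter_subset_left) _))
  have c4 : ((U x ∩ univ.biUnion Z).card : ℝ) ≤ n := hn' ▸ Nat.cast_le.2 (Finset.card_le_univ _)
  have c5 := hP.hL
  have c6 : (1 + g) * (((U x ∩ A ∪ Lo ∩ A).card : ℝ) + δ * n) ≤
    2 * ((U x ∩ A ∪ Lo ∩ A).card + δ * n) := by gcongr; linarith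
  have c7 : g * (δ * n) ≤ δ * n := mul_le_of_le_one_left (by positivity) hg1
  push_cast at c3
  rw [← hn'] at *
  exact ⟨by nlinarith only [c1, c5, c6, c3, hδ, hn, hg1, h3, h4, h5], by nlinarith only [c2, c7, hg, c4, h2, hn, h3]⟩

lemma Pre.mtch (hP : Pre F G X R A Lo Z N ρ y s M0 a a1 c0 g δ (Fintype.card W) M t0)
    (hδ : 0 < δ) (hε : 0 ≤ ε) {B X' : Finset V} (hY : YU2 G X B N Y U α ε (δ * y)) (hX : X' ⊆ X)
    (Cp : (W → V) → Prop)
    (hex : ∀ S, Col F (X' ∩ S) t0 → ∃ θ, Cp θ ∧ ∀ a, θ a ∈ X' \ S) :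
    ∃ (θ : Fin M → W → V) (Y' : Fin M → W → Finset V), (∀ i, Cp (θ i) ∧ ∀ a, θ i a ∈ X' ∧
      Y' i a ⊆ R ∧ (∀ v ∈ Y' i a, F.Adj (θ i a) v) ∧ δ * y ≤ (Y' i a).card ∧
      (Y' i a).card ≤ 2 * y ∧
      LR G α (ε * (Y' i a).card) (ε * Fintype.card V) (Y' i a) (U (θ i a))) ∧
      ∀ i i', i ≠ i' → ∀ a b, Disjoint (Y' i a) (Y' i' b) ∧ θ i a ≠ θ i' b := by
  classical
  have hy := hP.hy.1
  have hc : ∀ {A B : Finset V}, A ⊆ B → (A.card : ℝ) ≤ B.card := fun h =>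
    Nat.cast_le.2 (Finset.card_le_card h)
  obtain ⟨θ, Y', a1, a2⟩ := greedy_match X' Y Cp (s := s) (M := M) (mul_pos hδ hy)
    (by positivity : 0 ≤ 2 * y) (fun x hx => ⟨(hY x (hX hx)).2.1,
      (hc (hY x (hX hx)).1).trans (hP.hN x (hX hx)).2.2.2⟩)
    (fun B hB => le_trans (hc fun x hx => by
      rw [Finset.mem_filter] at hx ⊢
      exact ⟨hX hx.1, hx.2.trans (hc (Finset.inter_subset_inter_right (hY x (hX hx.1)).1))⟩)
      (hP.priv B hB))
    (fun S hS => hex S (hP.small _ (Finset.inter_subset_left.trans hX)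
      ((hc Finset.inter_subset_right).trans hS))) M le_rfl
  refine ⟨θ, Y', fun i => ⟨(a1 i).1, fun a => ?_⟩, a2⟩
  obtain ⟨b1, b2, b3⟩ := (a1 i).2 a
  obtain ⟨c1, c2, -, c4⟩ := hY _ (hX b1)
  obtain ⟨d1, d2, -, d4⟩ := hP.hN _ (hX b1)
  exact ⟨b1, b2.trans (c1.trans (d1.trans Finset.sdiff_subset)), fun v hv => d2 v (c1 (b2 hv)),
    by linarith, (hc (b2.trans c1)).trans d4,
    c4.mono (fun _ _ _ _ => id) le_rfl (by nlinarith only [hε, b3]) le_rfl b2 Subset.rfl⟩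

variable {H : SimpleGraph W} {I : Finset W}

lemma Pre.cs (hP : Pre F G X R A Lo Z N ρ y s M0 a a1 c0 g δ (Fintype.card W) M t0)
    (hδ : 0 < δ) (hε : 0 ≤ ε) {B X' Z0 : Finset V} (hY : YU2 G X B N Y U α ε (δ * y))
    (hX : X' ⊆ X) {F' : SimpleGraph V} (hF : F' ≤ F) {Rl : W → W → W → Prop}
    (hRl : ∀ j a z, Req H I j a z → Rl j a z) {β β' : ℝ} (hβ : β ≤ β')
    (hex : ∀ S, Col F (X' ∩ S) t0 →
      (zgood (outside H I) F' (X' \ S) (fun x => U x ∩ Z0) Rl β').Nonempty) :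
    ∃ (θ : Fin M → W → V) (Y' U' : Fin M → W → Finset V),
      CS H I F G α ε β (δ * y) (2 * y) X R Z0 univ θ Y' U' := by
  obtain ⟨θ, Y', a1, a2⟩ := hP.mtch hδ hε hY hX (fun θ => θ ∈ homs (outside H I) F X ∧
    Function.Injective θ ∧ ∀ z, ∃ C ⊆ Z0, β * Fintype.card V ≤ C.card ∧
    ∀ l, z ∈ I → H.Adj l z → C ⊆ U (θ (par H I l)) ∩ Z0) fun S hS => by
      obtain ⟨ϑ, b⟩ := hex S hS
      obtain ⟨b1, b2, b3⟩ := mem_zgood.1 b
      have b4 := fun j => mem_homs.1 (b1 j)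
      refine ⟨fun a => ϑ (cl H I a) a, ⟨mem_homs.2 ⟨fun a => hX (Finset.sdiff_subset
        ((b4 _).1 a)), fun a b e => ?_⟩, fun a b e => congrArg Prod.snd (@b2 (_, a) (_, b) e),
        fun z => ⟨_, fun v hv => (Finset.mem_inter.1 (mem_cap.1 hv _ z
        (hRl _ _ _ ⟨rfl, .inl rfl⟩))).2, le_trans (by gcongr) (b3 z), fun l hz e v hv =>
        mem_cap.1 hv _ _ (hRl _ _ _ ⟨rfl, .inr ⟨hz, l, e, rfl⟩⟩)⟩⟩, fun a => (b4 _).1 a⟩
      rw [cl_adj e]; exact hF ((b4 _).2 a b e)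
  refine ⟨θ, Y', fun i a => U (θ i a) ∩ Z0, fun i _ => (a1 i).1.1, fun i _ i' _ a b e => ?_,
    fun i _ a => ?_, fun i _ i' _ e a b => (a2 i i' e a b).1, fun i _ => (a1 i).1.2.2,
    fun i _ a => ((a1 i).2 a).2.2.2.2.2.mono (fun _ _ _ _ => id) le_rfl le_rfl le_rfl Subset.rfl
      Finset.inter_subset_left⟩
  · by_cases c : i = i'
    · exact (a1 i).1.2.1 (c ▸ e)
    · exact absurd e (a2 i i' c a b).2
  · obtain ⟨-, b1, b2, b3, b4, -⟩ := (a1 i).2 a
    exact ⟨b1, b2, b3, b4, Finset.inter_subset_right⟩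

lemma Pre.ts [Nonempty V] [Nonempty W]
    (hP : Pre F G X R A Lo Z N ρ y s M0 a a1 c0 g δ (Fintype.card W) M t0)
    (hδ : 0 < δ) (hε : 0 ≤ ε) {B X' : Finset V} (hY : YU2 G X B N Y U (2 * α * ρ) ε (δ * y))
    (hX : X' ⊆ X) (hc : ¬ Col F X' (t0 + t0)) (j : Fin k) {ε' β β' : ℝ} (hα : 0 ≤ α) (hg : 0 ≤ g)
    (hg1 : g ≤ 1) (hε' : 0 < ε') (hε1 : ε' ≤ 1) {r : ℕ} (hr : 1 ≤ r * ε') (h1 : α ≤ β')
    (h2 : δ ≤ β) (h3 : β ≤ β') (h4 : β' ≤ 1) (h5 : β ≤ (ε' / 2) ^ r * (2 * β'))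
    (hU : ∀ x ∈ X', 16 * β' * (Fintype.card V : ℝ) ^ 2 * ρ ≤ eb G (U x ∩ A) (U x ∩ Z j)) :
    ∃ Y' U1 U2 : Fin M → Finset V,
      TS G (2 * α * ρ) ε ε' β β' (δ * y) R A (Z j) univ Y' U1 U2 := by
  classical
  have hρ := hP.hρ
  have hy := hP.hy
  obtain ⟨n, hn'⟩ : ∃ x : ℝ, x = Fintype.card V := ⟨_, rfl⟩
  have hn : 0 < n := by rw [hn']; exact_mod_cast Fintype.card_pos
  have hcn : ∀ S : Finset V, (S.card : ℝ) ≤ n := fun S =>
    hn' ▸ Nat.cast_le.2 (Finset.card_le_univ _)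
  have hM : M0 ≤ δ * n * (β * n) := hP.hM.trans (by
    rw [← hn'] at hy ⊢
    exact mul_le_mul_of_nonneg_left (mul_le_mul h2 hy.2 hy.1.le (by linarith)) (by positivity))
  have dj : Disjoint A (Z j) := hP.dj.2.2.mono_right (Finset.subset_biUnion_of_mem Z (mem_univ j))
  let Y0 := fun x => (U x ∩ A).filter fun u => 8 * β' * n * ρ ≤ dg G u (U x ∩ Z j)
  choose U1 a1 U2 a2 a3 a4 a5 using fun x => lr G (α := 2 * α * ρ) (by positivity) hε' hε1 hr
    (Y0 x) (U x ∩ Z j)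
  have a6 : ∀ x, U1 x ⊆ U x ∩ A := fun x => (a1 x).trans (Finset.filter_subset _ _)
  have b : ∀ x ∈ X', β * n ≤ (U1 x).card ∧ β' * n ≤ (U2 x).card := fun x hx => by
    have b1 := hU x hx
    have b2 := hP.hU (Y0 x) (U x ∩ Z j) (dj.mono ((Finset.filter_subset _ _).trans
      Finset.inter_subset_right) Finset.inter_subset_right)
    have b3 := Finset.sum_le_card_nsmul ((U x ∩ A).filter fun u =>
      ¬ 8 * β' * n * ρ ≤ dg G u (U x ∩ Z j)) _ _ fun u hu => (not_le.1 (Finset.mem_filter.1 hu).2).le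
    rw [eb, ← Finset.sum_filter_add_sum_filter_not _ fun u => 8 * β' * n * ρ ≤ dg G u (U x ∩ Z j),
      ← hn'] at b1
    rw [nsmul_eq_mul] at b3
    have b4 := mul_le_mul_of_nonneg_right (hcn ((U x ∩ A).filter fun u =>
      ¬ 8 * β' * n * ρ ≤ dg G u (U x ∩ Z j))) (by nlinarith only [hα, hn, hρ, h1, mul_pos hn hρ] : 0 ≤ 8 * β' * n * ρ)
    have b5 : (1 + g) * (ρ * (((Y0 x).card : ℝ) * (U x ∩ Z j).card + M0)) ≤
        2 * (ρ * ((Y0 x).card * n + β' * n * n)) := by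
      refine le_trans (mul_le_mul_of_nonneg_left (mul_le_mul_of_nonneg_left (add_le_add
        (mul_le_mul_of_nonneg_left (hcn _) (by positivity)) (hM.trans (b := δ * n * (β * n))
        (c := β' * n * n) ?_)) hρ.le) (by linarith)) (mul_le_mul_of_nonneg_right (by linarith) ?_)
      · gcongr; exacts [by nlinarith only [h2, hδ, hy, hn'], by nlinarith only [h2, h3, hδ, hy, hα, hn', h1], by linarith, by nlinarith only [hn', h3, h4, hδ, h2]]
      · have : 0 ≤ β' := by linarith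
        positivity
    have b6 : 2 * β' * n ≤ (Y0 x).card := le_of_mul_le_mul_right (by nlinarith only [b1, b2, b3, b4, b5, hn, hρ, mul_pos hn hρ])
      (mul_pos hn hρ)
    have b7 : β * n ≤ (U1 x).card := le_trans (by
      have := mul_le_mul_of_nonneg_left b6 (by positivity : 0 ≤ (ε' / 2) ^ r)
      nlinarith only [h5, hδ, b6, h2, h3]) (a3 x)
    have b8 := uu_size hP.hU hρ hg (Y := U1 x) (U := U2 x) (x := 4 * β' * n) (y := δ * n)
      (dj.mono ((a6 x).trans Finset.inter_subset_right) ((a2 x).trans Finset.inter_subset_right))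
      (lt_of_lt_of_le (by nlinarith only [h2, hδ, hy, hn']) b7) (hM.trans (by gcongr)) fun v hv => by
        have t1 := dg_le_add G v (Finset.subset_union_right.trans_eq
          (Finset.union_sdiff_self_eq_union (s := U2 x) (t := U x ∩ Z j)).symm)
        have t2 := (Finset.mem_filter.1 (a1 x hv)).2
        have := a5 x v hv
        rw [← hn'] at this
        nlinarith only [t1, t2, this, h1, mul_pos hn hρ]
    have b9 : (1 + g) * (((U2 x).card : ℝ) + δ * n) ≤ 2 * ((U2 x).card + δ * n) := by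
      gcongr; linarith
    exact ⟨b7, by nlinarith only [b8, b9, h2, h3, hδ, hn', hα, h1]⟩
  obtain ⟨θ, Y', c1, c2⟩ := hP.mtch hδ hε hY hX (fun _ => True) fun S hS =>
    let ⟨x, hx⟩ := nonempty_of_not_col (Col.sdiff hc hS)
    ⟨fun _ => x, trivial, fun _ => hx⟩
  let w := Classical.arbitrary W
  refine ⟨fun i => Y' i w, fun i => U1 (θ i w), fun i => U2 (θ i w), fun i _ => ?_,
    fun i _ i' _ e => (c2 i i' e w w).1, fun i _ => ⟨((c1 i).2 w).2.2.2.2.2.mono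
    (fun _ _ _ _ => id) le_rfl le_rfl le_rfl Subset.rfl (Finset.union_subset
    ((a6 _).trans Finset.inter_subset_left) ((a2 _).trans Finset.inter_subset_left)), a4 _⟩⟩
  obtain ⟨d1, d2, -, d3, -⟩ := (c1 i).2 w
  exact ⟨d2, d3, (a6 _).trans Finset.inter_subset_right, (a2 _).trans Finset.inter_subset_right,
    hn' ▸ b _ d1⟩

structure Par (h : ℕ) (α ε ε' β β' : ℝ) : Prop where
  pos : 0 < α ∧ 0 < ε ∧ 0 < ε' ∧ 0 < β
  le : α ≤ 1 ∧ β ≤ β' ∧ β' ≤ 1
  e1 : 4 * (h + 1) * ε' ≤ α ^ (h + 1) * β'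
  e2 : 4 * (h + 1) * ε ≤ α ^ (h + 1) * β

lemma exists_class {κ : Type*} [Fintype κ] [Nonempty κ] {f : κ → ℝ} {x : ℝ} (h : x ≤ ∑ j, f j) :
    ∃ j, x / Fintype.card κ ≤ f j := by
  have : (0 : ℝ) < Fintype.card κ := by exact_mod_cast Fintype.card_pos
  obtain ⟨j, -, b⟩ := Finset.exists_le_of_sum_le (f := fun _ => x / Fintype.card κ) (g := f)
    Finset.univ_nonempty (by
      rw [Finset.sum_const, nsmul_eq_mul, Finset.card_univ, mul_div_cancel₀ _ this.ne']; exact h)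
  exact ⟨j, b⟩

lemma card_inter_bi (S : Finset V) (Z : Fin k → Finset V) :
    ((S ∩ univ.biUnion Z).card : ℝ) ≤ ∑ j, ((S ∩ Z j).card : ℝ) := by
  rw [Finset.inter_biUnion]; exact_mod_cast Finset.card_biUnion_le

theorem struct [Nonempty W] (hC : IsCloud H I) (hk : 0 < k) (hg : 0 < g) (hg1 : g ≤ 1)
    (ha1 : 0 < a1) (hc0 : 0 < c0) (ha : 4 * g ≤ a) (hT : IsThunder H I ∨ 1 + 14 * g ≤ 3 * a) :
    ∃ α ε ε' β β' δ : ℝ, Par (Fintype.card W) α ε ε' β β' ∧ 0 < δ ∧ δ ≤ 1 ∧ ∃ (Λ : ℕ → ℕ) (t : ℕ),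
      (∀ t, t ≤ Λ t) ∧ ∀ (V : Type) [Fintype V] [DecidableEq V] (F G : SimpleGraph V)
      (X R A Lo : Finset V) (Z : Fin k → Finset V) (N : V → Finset V) (ρ y s M0 : ℝ) (M t0 : ℕ),
      Pre F G X R A Lo Z N ρ y s M0 a a1 c0 g δ (Fintype.card W) M t0 → t ≤ t0 →
      ¬ Col F X (Λ t0) → ∃ j, (∃ (θ : Fin M → W → V) (Y U : Fin M → W → Finset V),
        CS H I F G (2 * α * ρ) ε β (δ * y) (2 * y) X R (Z j) univ θ Y U) ∨
        ∃ Y U U' : Fin M → Finset V,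
        TS G (2 * α * ρ) ε ε' β β' (δ * y) R A (Z j) univ Y U U' := by
  classical
  have : Nonempty (Fin k) := ⟨⟨0, hk⟩⟩
  have hk' : (0 : ℝ) < k := by exact_mod_cast hk
  obtain ⟨side, hside⟩ := exists_side hC
  obtain ⟨Rt, -⟩ := exists_rooting hC.2.1 (Classical.arbitrary W)
  obtain ⟨σ, hσ⟩ : ∃ σ : W → W → Bool, IsThunder H I → ∀ j a z, Req H I j a z → side a = σ j z := by
    by_cases e : IsThunder H I
    · exact (thunder_pattern e hside).imp fun _ h _ => h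
    · exact ⟨fun _ _ => true, fun h => absurd h e⟩
  obtain ⟨β1, b1, C1, z1⟩ := zykov_ex Rt side hside σ (div_pos hg hk')
  obtain ⟨β2, b2, C2, z2⟩ := zykov_all_ex W W Rt side hside (div_pos hg hk')
  obtain ⟨β3, b3, C3, z3⟩ := third2 hg (by positivity : 0 < a1 / 4)
  obtain ⟨β', ⟨p1, p2⟩, p0⟩ := (((ev_small 16 (div_pos b3 hk')).and (ev_small 1 one_pos)).and
    self_mem_nhdsWithin).exists
  replace p0 : 0 < β' := p0
  obtain ⟨α, ⟨⟨q1, q2⟩, q3⟩, q0⟩ := ((((ev_small 4 hg).and (ev_small 32 ha1)).and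
    (ev_small 1 p0)).and self_mem_nhdsWithin).exists
  replace q0 : 0 < α := q0
  obtain ⟨ε', ⟨r1, r2⟩, r0⟩ := (((ev_small (4 * (Fintype.card W + 1))
    (by positivity : 0 < α ^ (Fintype.card W + 1) * β')).and (ev_small 1 one_pos)).and
    self_mem_nhdsWithin).exists
  replace r0 : 0 < ε' := r0
  obtain ⟨r', hr'⟩ := (tendsto_natCast_atTop_atTop.eventually (ev_large 1 r0)).exists
  obtain ⟨β, ⟨⟨⟨s1, s2⟩, s3⟩, s4⟩, s0⟩ := (((((ev_small 1 b1).and (ev_small 1 b2)).and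
    (ev_small 1 p0)).and (ev_small 1 (by positivity : 0 < (ε' / 2) ^ r' * (2 * β')))).and
    self_mem_nhdsWithin).exists
  replace s0 : 0 < β := s0
  obtain ⟨ε, ⟨u1, u2⟩, u0⟩ := (((ev_small (4 * (Fintype.card W + 1))
    (by positivity : 0 < α ^ (Fintype.card W + 1) * β)).and (ev_small 1 one_pos)).and
    self_mem_nhdsWithin).exists
  replace u0 : 0 < ε := u0
  obtain ⟨r, hr⟩ := (tendsto_natCast_atTop_atTop.eventually (ev_large 1 (half_pos u0))).exists
  obtain ⟨δ, ⟨⟨⟨⟨v1, v2⟩, v3⟩, v4⟩, v5⟩, v0⟩ := ((((((ev_small 2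
    (by positivity : 0 < (ε / 2 / 2) ^ r * c0)).and (ev_small 2 hg)).and (ev_small 16 ha1)).and
    (ev_small 1 s0)).and (ev_small 1 b3)).and self_mem_nhdsWithin).exists
  replace v0 : 0 < δ := v0
  rw [one_mul] at p2 q3 r2 s1 s2 s3 s4 u2 v4 v5
  refine ⟨α, ε, ε', β, β', δ, ⟨⟨q0, u0, r0, s0⟩, ⟨by linarith, s3, p2⟩, r1, u1⟩, v0, by linarith,
    fun t => k * (t + t) + (t + t) ^ k * C3, C1 + C2, fun t =>
    le_add_right (by nlinarith only [hk]), fun V _ _ F G X R A Lo Z N ρ y s M0 M t0 hP ht hX => ?_⟩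
  have : Nonempty V := ⟨(nonempty_of_not_col hX).choose⟩
  have hn : (0 : ℝ) < Fintype.card V := by exact_mod_cast Fintype.card_pos
  have hρ := hP.hρ
  obtain ⟨Y, U, hY, hU⟩ := hP.yu q0.le u0 u2 (mul_comm _ (r : ℝ) ▸ hr) v0 hg.le hg1 v1 q1 v2 q2 v3
  rcases hT with hT | hT
  · obtain ⟨j, hj⟩ := col_class (t := t0 + t0) (fun j x => g / k * Fintype.card V ≤ (U x ∩ Z j).card)
      (fun x hx => by
        simpa [div_mul_eq_mul_div] using exists_class (le_trans (by gcongr; linarith)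
          ((hU x hx).2.trans (card_inter_bi _ _)) : g * Fintype.card V ≤ _))
      fun c => hX (c.mono le_rfl Subset.rfl (by simp))
    exact ⟨j, .inl (hP.cs v0 u0.le hY (Finset.filter_subset _ _) le_rfl (hσ hT) s1 fun S hS =>
      z1 V F _ _ (fun c => Col.sdiff hj hS (c.mono le_rfl Subset.rfl (by omega)))
      fun x hx => (Finset.mem_filter.1 (Finset.mem_sdiff.1 hx).1).2)⟩
  let X1 := X.filter fun x => β3 * (Fintype.card V : ℝ) ^ 2 * ρ ≤
    eb G (U x ∩ A) (U x ∩ univ.biUnion Z)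
  by_cases c1 : Col F X1 (Fintype.card (Fin k) * (t0 + t0))
  swap
  · obtain ⟨j, hj⟩ := col_class (fun j x => 16 * β' * (Fintype.card V : ℝ) ^ 2 * ρ ≤
      eb G (U x ∩ A) (U x ∩ Z j)) (fun x hx => (exists_class (x := β3 * (Fintype.card V : ℝ) ^ 2 * ρ)
      (f := fun j => eb G (U x ∩ A) (U x ∩ Z j)) ((Finset.mem_filter.1 hx).2.trans (by
        rw [Finset.sum_comm]
        refine Finset.sum_le_sum fun u _ => le_trans (le_of_eq ?_) ((card_inter_bi
          (nb G u (U x)) Z).trans_eq (Finset.sum_congr rfl fun j _ => ?_)) <;>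
        · unfold dg; congr 2; ext; simp only [mem_nb, Finset.mem_inter]; tauto))).imp fun j b =>
        le_trans (by
          rw [Fintype.card_fin, mul_assoc β3, ← div_mul_eq_mul_div, mul_assoc]; gcongr) b) c1
    exact ⟨j, .inr (hP.ts v0 u0.le hY ((Finset.filter_subset _ _).trans (Finset.filter_subset _ _))
      hj j q0.le hg.le hg1 r0 r2 (mul_comm _ (r' : ℝ) ▸ hr') q3 v4 s3 p2 s4
      fun x hx => (Finset.mem_filter.1 hx).2)⟩
  let Lg : Fin k → SimpleGraph V := fun j => F ⊓ SimpleGraph.fromRel fun x x' =>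
    g / k * Fintype.card V ≤ (U x ∩ Z j ∩ (U x' ∩ Z j)).card
  have hsd : X \ X1 ⊆ X := Finset.sdiff_subset
  by_cases c2 : ∀ j, Col (Lg j) (X \ X1) (t0 + t0)
  · have c3 := z3 V (F \ univ.sup Lg) G (X \ X1) (univ.biUnion Z) (fun x => U x ∩ A)
      (fun x => U x ∩ univ.biUnion Z) ρ M0 a (a - 3 * g) hρ hg1 hP.hU (hP.hM.trans (by
        have := mul_le_mul (by linarith : δ ≤ 1) hP.hy.2 hP.hy.1.le zero_le_one
        rw [sq, ← mul_assoc β3]; gcongr; exacts [mul_nonneg v0.le hP.hy.1.le, by linarith]))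
      (by linarith) (fun x hx => ⟨(hU x (hsd hx)).1, (hU x (hsd hx)).2,
        hP.dj.2.2.mono_left Finset.inter_subset_right, fun v hv => hP.hZ v ?_, ?_⟩)
      fun x _ x' _ e => ?_
    · refine absurd ((c1.union (((col_sup_fin univ fun j _ => c2 j).sup c3).mono le_sup_sdiff
        Subset.rfl le_rfl)).mono le_rfl (fun x hx => ?_) (by simp)) hX
      rw [Finset.union_sdiff_self_eq_union]
      exact Finset.mem_union_right _ hx
    · rw [Finset.mem_inter] at hv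
      rcases Finset.mem_union.1 ((hY x (hsd hx)).2.2.1 hv.1) with b | b
      · exact Finset.sdiff_subset_sdiff Finset.subset_union_right Subset.rfl b
      · exact absurd b (Finset.disjoint_left.1 hP.dj.2.2 hv.2)
    · rw [Finset.mem_sdiff, Finset.mem_filter, not_and, not_le] at hx
      exact (hx.2 hx.1).le
    · by_contra c
      rw [Finset.inter_inter_inter_comm, Finset.inter_self] at c
      obtain ⟨j, b⟩ := exists_class ((not_le.1 c).le.trans (card_inter_bi _ _))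
      refine e.2 (Finset.le_sup (f := Lg) (mem_univ j) ⟨e.1, (SimpleGraph.fromRel_adj ..).2
        ⟨e.1.ne, .inl ?_⟩⟩)
      rwa [Finset.inter_inter_inter_comm, Finset.inter_self, div_mul_eq_mul_div,
        ← Fintype.card_fin k]
  obtain ⟨j, hj⟩ := not_forall.1 c2
  refine ⟨j, .inl (hP.cs v0 u0.le hY hsd (inf_le_left : Lg j ≤ F) (fun _ _ _ _ => trivial) s2
    fun S hS => z2 V _ _ _ (fun c => Col.sdiff hj (hS.mono inf_le_left Subset.rfl le_rfl)
    (c.mono le_rfl Subset.rfl (by omega))) fun x _ x' _ e => ?_)⟩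
  rcases ((SimpleGraph.fromRel_adj ..).1 e.2).2 with b | b
  exacts [b, by rwa [Finset.inter_comm]]

end Pool.Agent.Lib.MP_46505f_co
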