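import Pool.Agent.Lib.MP_46505f_co.LCont
import Pool.Agent.Lib.MP_46505f_co.Mom
import Pool.Agent.Lib.MP_46505f_co.Str

set_option autoImplicit false
set_option linter.unusedSectionVars false
open Finset
open Pool.Agent.Lib.MP_eaf82e_pr

namespace Pool.Agent.Lib.MP_46505f_co

/- Labelled hypergraphs of partial copies. -/

lemma cnt_eq_card {κ : Type*} (s : Finset κ) (P : κ → Prop) [DecidablePred P] :
    cnt s P = (s.filter P).card := by unfold cnt; congr

lemma cnt_le_card {κ : Type*} {s t : Finset κ} {P : κ → Prop} (h : ∀ a ∈ s, P a → a ∈ t) :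
    cnt s P ≤ t.card := by
  classical
  rw [cnt_eq_card]
  exact Finset.card_le_card fun a ha => h a (Finset.mem_filter.1 ha).1 (Finset.mem_filter.1 ha).2

section cnt
variable {A B : Type} [Fintype A] [Fintype B]

lemma cnt_prod (P : A × B → Prop) : (cnt univ P : ℝ) = ∑ a, (cnt univ fun b => P (a, b) : ℝ) := by
  simp only [cnt_eq_sum, Fintype.sum_prod_type]

lemma cnt_mono {P Q : A → Prop} (h : ∀ a, P a → Q a) : (cnt univ P : ℝ) ≤ cnt univ Q := by
  unfold cnt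
  exact Nat.cast_le.2 (Finset.card_le_card fun a ha => by
    simp only [Finset.mem_filter] at ha ⊢; exact ⟨ha.1, h a ha.2⟩)

lemma cnt_lower {P : A × B → Prop} {Q : A → Prop} {c : ℝ}
    (h : ∀ a, Q a → c ≤ cnt univ fun b => P (a, b)) : cnt univ Q * c ≤ cnt univ P := by
  rw [cnt_prod, cnt_eq_sum, Finset.sum_mul]
  refine Finset.sum_le_sum fun a _ => ?_
  by_cases e : Q a
  · rw [one_pos' e, one_mul]; exact h a e
  · rw [one_neg' e, zero_mul]; positivity

lemma cnt_upper {P : A × B → Prop} {Q : A → Prop} {c : ℝ}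
    (h : ∀ a b, P (a, b) → Q a) (h' : ∀ a, Q a → (cnt univ fun b => P (a, b)) ≤ c) :
    cnt univ P ≤ cnt univ Q * c := by
  rw [cnt_prod, cnt_eq_sum, Finset.sum_mul]
  refine Finset.sum_le_sum fun a _ => ?_
  by_cases e : Q a
  · rw [one_pos' e, one_mul]; exact h' a e
  · rw [one_neg' e, zero_mul]
    exact_mod_cast cnt_le_card (t := ∅) fun b _ f => (e (h a b f)).elim

lemma cnt_markov {P : A → B → Prop} {J : Finset A} {c : ℝ} (hc : 0 ≤ c) (hJ : J.Nonempty)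
    (h : ∀ a ∈ J, c * Fintype.card B ≤ cnt univ (P a)) :
    c / 2 * Fintype.card B ≤ cnt univ fun b => c / 2 * J.card ≤ cnt J fun a => P a b := by
  classical
  have a1 := card_filter_ge univ (fun b => (cnt J fun a => P a b : ℝ)) (x := c / 2 * J.card)
    (y := J.card) (by positivity) fun b _ => Nat.cast_le.2 (Finset.card_filter_le _ _)
  have a2 := Finset.card_nsmul_le_sum _ _ _ h
  simp only [cnt_eq_sum] at a1 a2
  rw [Finset.sum_comm] at a2
  simp only [← cnt_eq_sum, nsmul_eq_mul, Finset.card_univ] at a1 a2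
  refine le_of_mul_le_mul_right ?_ (Nat.cast_pos.2 hJ.card_pos : (0 : ℝ) < J.card)
  rw [cnt_eq_card]; linarith only [a1, a2]

variable [DecidableEq A] [DecidableEq B]

lemma cnt_le_prod (N : A → Finset B) (u : A → ℝ) (h : ∀ a, (N a).card ≤ u a)
    {P : (A → B) → Prop} (hP : ∀ f, P f → ∀ a, f a ∈ N a) : (cnt univ P : ℝ) ≤ ∏ a, u a := by
  refine le_trans (Nat.cast_le.2 (cnt_le_card (t := Fintype.piFinset N) fun f _ hf =>
    Fintype.mem_piFinset.2 (hP f hf))) ?_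
  rw [Fintype.card_piFinset, Nat.cast_prod]
  exact Finset.prod_le_prod (fun _ _ => by positivity) fun a _ => h a

lemma cnt_pi (N : Finset B) :
    (cnt univ fun f : A → B => ∀ a, f a ∈ N : ℝ) = (N.card : ℝ) ^ Fintype.card A := by
  rw [cnt_eq_card, show (univ.filter fun f : A → B => ∀ a, f a ∈ N) =
    Fintype.piFinset fun _ => N by ext; simp]
  simp

lemma prod_two {S L : Finset A} (h : S ⊆ L) (b : ℝ) {y n : ℝ} (hy : y ≠ 0) (hn : n ≠ 0) :
    ∏ a, (if a ∈ S then b else if a ∈ L then y else n) =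
      (b / y) ^ S.card * ((y / n) ^ L.card * n ^ Fintype.card A) := by
  rw [← prod_ite_div L y hn, ← Finset.prod_const, ← Finset.univ_inter S, ← Finset.prod_ite_mem,
    ← Finset.prod_mul_distrib]
  refine Finset.prod_congr rfl fun a _ => ?_
  by_cases e : a ∈ S
  · simp [e, h e, hy]
  · simp [e]

end cnt

variable {V : Type} [Fintype V] [DecidableEq V] {W : Type} [Fintype W] [DecidableEq W]

lemma inj_count [Nonempty V] (C : W → Finset V) (L : Finset W) {c : ℝ} (hc : 0 ≤ c)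
    (h : ∀ l ∈ L, c + Fintype.card W ≤ (C l).card) :
    (c / Fintype.card V) ^ L.card * (Fintype.card V : ℝ) ^ Fintype.card W ≤
      cnt univ fun χ : W → V => (∀ l ∈ L, χ l ∈ C l) ∧ Set.InjOn χ L := by
  have := lr_count (G := ⊥) (R := ⊥) (C := C) zero_le_one le_rfl (e := fun _ => 0)
    (c := fun _ => c) L (fun _ _ _ h => h.elim) fun l hl => ⟨hc, le_rfl, by simpa using h l hl⟩
  have hn : (0 : ℝ) < Fintype.card V := by exact_mod_cast Fintype.card_pos
  rw [div_pow, div_mul_eq_mul_div, div_le_iff₀' (by positivity), ← Finset.prod_const]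
  exact this.trans (mul_le_mul_of_nonneg_left (cnt_mono fun χ hχ =>
    ⟨fun l hl => (mem_cand.1 (hχ.1 l hl)).1, hχ.2.1⟩) (by positivity))

theorem lhyp_pattern {Λ O κ : Type} [Fintype Λ] [Fintype O] [Fintype κ] (𝒯 : Tests Λ O)
    (ω : κ → ℝ) (hω : ∀ σ, 0 ≤ ω σ) (pos : 0 < ∑ σ, ω σ) (ψ : κ → W → V) (lab : κ → Λ)
    (EB : Finset (Sym2 W)) (Wb : Finset W) (hWb : ∀ e ∈ EB, ∀ a ∈ e, a ∈ Wb)
    {D : Finset (Sym2 V)}
    (hψ : ∀ σ, ω σ ≠ 0 → Set.InjOn (ψ σ) Wb ∧ EB.image (Sym2.map (ψ σ)) ⊆ D) {K τ : ℝ}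
    (hK : 0 ≤ K) (hτ : 0 ≤ τ)
    (h : ∀ S ⊆ Wb, ∀ t ≤ (EB.filter fun e => ∀ a ∈ e, a ∈ S).card, (t = 0 → S = ∅) → ∀ o,
      1 ≤ t ∨ o ≠ 𝒯.o0 → ∀ B : Finset V, B.card ≤ 2 * EB.card →
      ∑ σ, one ((∀ a ∈ S, ψ σ a ∈ B) ∧ 𝒯.hit o (lab σ)) * ω σ ≤ K * τ ^ t * 𝒯.κ o * ∑ σ, ω σ) :
    ∃ w, LHyp 𝒯 w EB.card (2 ^ Fintype.card W * K) τ D ∧
      ∀ x, w x ≠ 0 → ∃ σ, ω σ ≠ 0 ∧ (EB.image (Sym2.map (ψ σ)), lab σ) = x := by
  classical
  let w : Finset (Sym2 V) × Λ → ℝ := fun x =>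
    ∑ σ, if (EB.image (Sym2.map (ψ σ)), lab σ) = x then ω σ else 0
  have hw : ∀ x, w x ≠ 0 → ∃ σ, ω σ ≠ 0 ∧ (EB.image (Sym2.map (ψ σ)), lab σ) = x := fun x hx => by
    obtain ⟨σ, -, b⟩ := Finset.exists_ne_zero_of_sum_ne_zero hx
    rw [ne_eq, ite_eq_right_iff, not_forall] at b
    exact ⟨σ, b.2, b.1⟩
  have hd : ∀ T o, ldeg 𝒯 w T o =
      ∑ σ, one (T ⊆ EB.image (Sym2.map (ψ σ)) ∧ 𝒯.hit o (lab σ)) * ω σ := fun T o => by
    have : ∀ x : Finset (Sym2 V) × Λ, (if T ⊆ x.1 ∧ 𝒯.hit o x.2 then w x else 0) = ∑ σ,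
        if (EB.image (Sym2.map (ψ σ)), lab σ) = x then one (T ⊆ x.1 ∧ 𝒯.hit o x.2) * ω σ else 0 :=
      fun x => by split_ifs with e <;> simp [one, e, w]
    simp only [ldeg, this]
    rw [Finset.sum_comm]
    simp
  have hd0 : ∑ x, w x = ∑ σ, ω σ := by rw [Finset.sum_comm]; simp
  refine ⟨w, ⟨fun x => Finset.sum_nonneg fun σ _ => by split_ifs; exacts [hω σ, le_rfl],
    fun x hx => ?_, hd0 ▸ pos, fun T o hT => ?_⟩, hw⟩
  · obtain ⟨σ, b, rfl⟩ := hw x hx
    exact ⟨card_img hWb (hψ σ b).1, (hψ σ b).2⟩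
  rw [hd0, hd]
  have := 𝒯.pos o
  let 𝒮 := Wb.powerset.filter fun S => T.card ≤ (EB.filter fun e => ∀ a ∈ e, a ∈ S).card ∧
    (T.card = 0 → S = ∅)
  have h1 : ∀ σ, one (T ⊆ EB.image (Sym2.map (ψ σ)) ∧ 𝒯.hit o (lab σ)) * ω σ ≤
      ∑ S ∈ 𝒮, one ((∀ a ∈ S, ψ σ a ∈ vts T) ∧ 𝒯.hit o (lab σ)) * ω σ := fun σ => by
    rw [← Finset.sum_mul]
    refine mul_le_mul_of_nonneg_right (one_le_of' (Finset.sum_nonneg fun _ _ => one_nonneg _)
      fun hσ => le_trans (one_pos' ⟨fun a ha => (Finset.mem_filter.1 ha).2, hσ.2⟩).ge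
      (Finset.single_le_sum (f := fun S => one ((∀ a ∈ S, ψ σ a ∈ vts T) ∧ 𝒯.hit o (lab σ)))
      (fun _ _ => one_nonneg _) (a := Wb.filter fun a => ψ σ a ∈ vts T) (Finset.mem_filter.2
      ⟨Finset.mem_powerset.2 (Finset.filter_subset _ _), ?_, fun e => ?_⟩))) (hω σ)
    · refine le_trans (Finset.card_le_card fun e he => ?_)
        (Finset.card_image_le (f := Sym2.map (ψ σ)))
      obtain ⟨e', he', rfl⟩ := Finset.mem_image.1 (hσ.1 he)
      exact Finset.mem_image.2 ⟨e', Finset.mem_filter.2 ⟨he', fun a ha => Finset.mem_filter.2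
        ⟨hWb e' he' a ha, mem_vts.2 ⟨_, he, Sym2.mem_map.2 ⟨a, ha, rfl⟩⟩⟩⟩, rfl⟩
    · simp [Finset.card_eq_zero.1 e, vts]
  refine (Finset.sum_le_sum fun σ _ => h1 σ).trans ?_
  rw [Finset.sum_comm]
  refine (Finset.sum_le_card_nsmul _ _ (K * τ ^ T.card * 𝒯.κ o * ∑ σ, ω σ) fun S hS => ?_).trans ?_
  · rw [Finset.mem_filter, Finset.mem_powerset] at hS
    exact h S hS.1 _ hS.2.1 hS.2.2 o (hT.imp_left fun e => Finset.card_pos.2
      (Finset.nonempty_iff_ne_empty.2 e)) _ ((card_vts T).trans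
      (Nat.mul_le_mul_left _ (hS.2.1.trans (Finset.card_filter_le _ _))))
  · have a : (𝒮.card : ℝ) ≤ 2 ^ Fintype.card W := by
      exact_mod_cast (Finset.card_le_univ 𝒮).trans_eq Fintype.card_finset
    rw [nsmul_eq_mul, mul_assoc (2 ^ _), mul_assoc (2 ^ _), mul_assoc (2 ^ _)]
    gcongr

attribute [local irreducible] cnt

/-- a is not isolated in the forest -/
def NI (H : SimpleGraph W) (I : Finset W) (a : W) : Prop := ∃ b, (outside H I).Adj a b

open Classical in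
noncomputable def tests (H : SimpleGraph W) (I : Finset W) (V : Type) [Fintype V] [Nonempty V]
    {τ κ0 : ℝ} (hτ : 0 < τ) (hκ : 0 < κ0) : Tests (W → V) (Option (Finset W × (W → Option V))) where
  hit o l := ∀ y, o = some y → (∀ a ∈ y.1, ¬ NI H I a) ∧ 1 ≤ cross H I y.1 ∧
    y.2 = fun a => if a ∈ y.1 ∩ I then some (l a) else none
  o0 := none
  κ o := o.elim κ0 fun y => τ ^ (cross H I y.1 - 1) * (Fintype.card V : ℝ) ^ (y.1 \ I).card /
    (Fintype.card V : ℝ) ^ 2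
  a := 2 ^ Fintype.card W + 1
  hit0 _ _ h := absurd h (by simp)
  pos o := by
    have : (0 : ℝ) < Fintype.card V := by exact_mod_cast Fintype.card_pos
    cases o
    · exact hκ
    · simp only [Option.elim_some]; positivity
  card l := by
    refine le_trans (cnt_le_card (t := insert none (univ.image fun S : Finset W =>
      some (S, fun a => if a ∈ S ∩ I then some (l a) else none))) fun o _ ho => ?_)
      ((Finset.card_insert_le _ _).trans (Nat.add_le_add_right (Finset.card_image_le.trans_eq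
      (by simp)) _))
    cases o with
    | none => exact Finset.mem_insert_self _ _
    | some y => exact Finset.mem_insert_of_mem (Finset.mem_image.2 ⟨y.1, mem_univ _, by
        rw [← (ho y rfl).2.2]⟩)

/-- l embeds H minus the isolated vertices of the forest -/
def Comp (H : SimpleGraph W) (I : Finset W) (E : Finset (Sym2 V)) (P Z : Finset V) (l : W → V) :
    Prop := (∀ z ∈ I, l z ∈ Z) ∧ (∀ a, NI H I a → l a ∈ P) ∧ Set.InjOn l {a | a ∈ I ∨ NI H I a} ∧
  ∀ a b, H.Adj a b → a ∈ I ∨ NI H I a → b ∈ I ∨ NI H I b → (gr E).Adj (l a) (l b)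

variable {H : SimpleGraph W} {I : Finset W}

lemma NI.notMem {a : W} (h : NI H I a) : a ∉ I := h.choose_spec.2.1

lemma Comp.mono {E E' : Finset (Sym2 V)} {P P' Z : Finset V} {l : W → V} (h : Comp H I E P Z l)
    (hC : IsCloud H I) (hE : E ∩ btw P univ ⊆ E') (hP : P ⊆ P') : Comp H I E' P' Z l := by
  refine ⟨h.1, fun a ha => hP (h.2.1 a ha), h.2.2.1, fun a b e ha hb => ?_⟩
  have := gr_adj.1 (h.2.2.2 a b e ha hb)
  refine gr_adj.2 ⟨hE (Finset.mem_inter.2 ⟨this.1, mem_btw.2 ?_⟩), this.2⟩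
  rcases ha with ha | ha
  · exact ⟨_, h.2.1 b (hb.resolve_left fun hb => hC.1 a ha b hb e), _, mem_univ _, Sym2.eq_swap⟩
  · exact ⟨_, h.2.1 a ha, _, mem_univ _, rfl⟩

lemma Spr.kappa [Nonempty V] {τ κ0 κ1 K : ℝ} {hτ : 0 < τ} {h0 : 0 < κ0} (h1 : 0 < κ1)
    {P : (W → V) → Prop} (h : Spr (tests H I V hτ h0) P K) : Spr (tests H I V hτ h1) P K :=
  let ⟨μ, a1, a2, a3, a4⟩ := h
  ⟨μ, a1, a2, a3, fun o ho => by
    cases o with
    | none => exact absurd rfl ho
    | some y => exact a4 (some y) (by simp [tests])⟩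

lemma cnt_fix [Nonempty V] {S S' : Finset W} {B : Finset V} {b : ℝ} (hb : 1 ≤ b) (hB : B.card ≤ b)
    (t : W → V) : (cnt univ fun ζ : W → V => (∀ a ∈ S, ζ a ∈ B) ∧ ∀ a ∈ S', ζ a = t a : ℝ) ≤
      (b / Fintype.card V) ^ (S ∪ S').card * (Fintype.card V : ℝ) ^ Fintype.card W := by
  rw [← prod_ite_div _ _ (by exact_mod_cast Fintype.card_ne_zero)]
  refine cnt_le_prod (fun a => if a ∈ S' then {t a} else if a ∈ S then B else univ) _
    (fun a => ?_) fun ζ h a => ?_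
  · by_cases e : a ∈ S' <;> by_cases e' : a ∈ S <;> simp [e, e', hb, hB]
  · split_ifs with e e'
    exacts [Finset.mem_singleton.2 (h.2 a e), h.1 a e', mem_univ _]

theorem lsat_of [Nonempty V] {κ : Type} [Fintype κ] {Sg : κ → Prop} (pos : (0 : ℝ) < cnt univ Sg)
    (ψ : κ → W → V) (EB : Finset (Sym2 W)) (hE : EB ⊆ eF H) (Wb : Finset W)
    (hWb : ∀ e ∈ EB, ∀ a ∈ e, a ∈ Wb) {D : Finset (Sym2 V)} {P : Finset (Sym2 V) → (W → V) → Prop}
    (hψ : ∀ σ, Sg σ → Set.InjOn (ψ σ) Wb ∧ EB.image (Sym2.map (ψ σ)) ⊆ D ∧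
      P (EB.image (Sym2.map (ψ σ))) (ψ σ)) {K τ τ' κ0 : ℝ} (hK : 0 ≤ K) (hτ : 0 < τ)
    (hτ' : 0 ≤ τ') (hκ : 0 < κ0) (f : Finset W → Finset W → ℝ)
    (h : ∀ S ⊆ Wb, ∀ (S' : Finset W) (t : W → V) (B : Finset V), B.card ≤ 2 * EB.card →
      (cnt univ fun σ => Sg σ ∧ (∀ a ∈ S, ψ σ a ∈ B) ∧ ∀ a ∈ S' ∩ I, ψ σ a = t a) ≤
      K * f S S' * cnt univ Sg)
    (h0 : ∀ S ⊆ Wb, ∀ t ≤ (EB.filter fun e => ∀ a ∈ e, a ∈ S).card, 1 ≤ t → f S ∅ ≤ τ' ^ t * κ0)
    (h1 : ∀ S ⊆ Wb, ∀ t ≤ (EB.filter fun e => ∀ a ∈ e, a ∈ S).card, (t = 0 → S = ∅) → ∀ S',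
      (∀ a ∈ S', ¬ NI H I a) → 1 ≤ cross H I S' → f S S' ≤ τ' ^ t * (τ ^ (cross H I S' - 1) *
        (Fintype.card V : ℝ) ^ (S' \ I).card / (Fintype.card V : ℝ) ^ 2)) :
    LSat (tests H I V hτ hκ) P (eF H).card (2 ^ Fintype.card W * K) τ' D := by
  obtain ⟨w, a1, a2⟩ := lhyp_pattern (tests H I V hτ hκ) (fun σ => one (Sg σ))
    (fun _ => one_nonneg _) (by rwa [← cnt_eq_sum]) ψ ψ EB Wb hWb (D := D) (fun σ e =>
      have := hψ σ (by_contra fun c => e (one_neg' c))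
      ⟨this.1, this.2.1⟩) hK hτ' fun S hS t ht e o ho B hB => by
    simp only [← one_and', ← cnt_eq_sum]
    rw [mul_assoc K]
    cases o with
    | none =>
      exact le_trans (cnt_mono fun σ c => ⟨c.2, c.1.1, by simp⟩)
        ((h S hS ∅ (fun _ => Classical.arbitrary V) B hB).trans (by
          gcongr; exact h0 S hS t ht (ho.resolve_right fun c => c rfl)))
    | some y =>
      by_cases c : (∀ a ∈ y.1, ¬ NI H I a) ∧ 1 ≤ cross H I y.1
      · refine le_trans (cnt_mono fun σ c => ⟨c.2, c.1.1, fun a ha => ?_⟩) ((h S hS y.1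
          (fun a => (y.2 a).getD (Classical.arbitrary V)) B hB).trans (by
          gcongr; exact h1 S hS t ht e _ c.1 c.2))
        simp only [(c.1.2 y rfl).2.2, if_pos ha, Option.getD_some]
      · have := (tests H I V hτ hκ).pos (some y)
        exact le_trans (Nat.cast_le.2 (cnt_le_card (t := ∅) fun σ _ d =>
          (c ⟨(d.1.2 y rfl).1, (d.1.2 y rfl).2.1⟩).elim)) (by rw [card_empty, Nat.cast_zero]; positivity)
  exact ⟨_, Finset.card_le_card hE, w, a1, fun x hx =>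
    let ⟨σ, b, e⟩ := a2 x hx
    e ▸ (hψ σ (by_contra fun c => b (one_neg' c))).2.2⟩

def Nm (H : SimpleGraph W) (I : Finset W) (τ n Q : ℝ) (S : Finset W) : Prop :=
  Q * n ^ 2 ≤ τ ^ (cross H I S - 1 + ((S \ I).card - comps H I S)) * n ^ S.card

lemma cross_pos (hC : IsCloud H I) {S : Finset W} (h : 1 ≤ cross H I S) :
    ∃ l ∈ S, l ∉ I ∧ ∃ z ∈ S, z ∈ I ∧ H.Adj l z := by
  rw [cross_eq hC] at h
  obtain ⟨e, he⟩ := Finset.card_pos.1 h
  obtain ⟨h1, h2⟩ := Finset.mem_filter.1 he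
  obtain ⟨l, z, a1, a2, a3, rfl⟩ := cE_rep hC h1
  exact ⟨l, h2 l (by simp), a1, z, h2 z (by simp), a2, a3⟩

lemma cross_add (hC : IsCloud H I) {S S' : Finset W} (h : ∀ a ∈ S, a ∈ I ∨ NI H I a)
    (h' : ∀ a ∈ S', ¬ NI H I a) {E : Finset (Sym2 W)} (hE : cE H I ⊆ E) :
    (E.filter fun e => ∀ a ∈ e, a ∈ S).card + cross H I S' ≤
      (E.filter fun e => ∀ a ∈ e, a ∈ S ∪ S').card := by
  rw [cross_eq hC, ← Finset.card_union_of_disjoint (Finset.disjoint_left.2 fun e h1 h2 => by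
    obtain ⟨l, z, a1, -, -, rfl⟩ := cE_rep hC (Finset.mem_filter.1 h2).1
    exact h' l ((Finset.mem_filter.1 h2).2 l (by simp))
      ((h l ((Finset.mem_filter.1 h1).2 l (by simp))).resolve_left a1))]
  refine Finset.card_le_card fun e he => ?_
  simp only [Finset.mem_union, Finset.mem_filter] at he ⊢
  rcases he with he | he
  exacts [⟨he.1, fun a ha => .inl (he.2 a ha)⟩, ⟨hE he.1, fun a ha => .inr (he.2 a ha)⟩]

lemma card_split {S S' : Finset W} (h : ∀ a ∈ S, a ∈ I ∨ NI H I a) (h' : ∀ a ∈ S', ¬ NI H I a) :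
    ((S ∪ S') \ I).card = (S \ I).card + (S' \ I).card := by
  rw [Finset.union_sdiff_distrib, Finset.card_union_of_disjoint (Finset.disjoint_left.2
    fun a h1 h2 => h' a (Finset.mem_sdiff.1 h2).1
      ((h a (Finset.mem_sdiff.1 h1).1).resolve_left (Finset.mem_sdiff.1 h1).2))]

lemma comps_union (S S' : Finset W) : comps H I (S ∪ S') ≤ comps H I S + (S' \ I).card := by
  rw [comps_eq', comps_eq', Finset.union_sdiff_distrib, Finset.image_union]
  exact (Finset.card_union_le _ _).trans (Nat.add_le_add_left Finset.card_image_le _)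

lemma two_le_comps {S : Finset W} {a b : W} (ha : a ∈ S) (hb : b ∈ S \ I) (h1 : NI H I a)
    (h2 : ¬ NI H I b) : 2 ≤ comps H I S := by
  rw [comps_eq']
  refine Finset.one_lt_card.2 ⟨_, Finset.mem_image_of_mem _ (Finset.mem_sdiff.2 ⟨ha, h1.notMem⟩),
    _, Finset.mem_image_of_mem _ hb, fun e => ?_⟩
  obtain ⟨w⟩ := SimpleGraph.ConnectedComponent.exact (cl_eq_iff.1 e.symm)
  cases w with
  | nil => exact h2 h1
  | cons h _ => exact h2 ⟨_, h⟩

noncomputable def gv (h : ℕ) (α β δ : ℝ) : ℝ := (α ^ (h + 1) * β * δ / 8) ^ (h + 1) / 4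

noncomputable def Kv (h e : ℕ) (g : ℝ) : ℝ := 2 ^ h * ((2 * e + 1) ^ (3 * h) / g ^ (2 * h + 1))

lemma Par.gv {h : ℕ} {α ε ε' β β' δ : ℝ} (hP : Par h α ε ε' β β') (h0 : 0 < δ) (h1 : δ ≤ 1) :
    ∃ γ, 0 < γ ∧ γ ≤ 1 ∧ 8 * γ ≤ α ^ (h + 1) * β ∧ 8 * γ ≤ α ^ h * δ ∧ 0 < gv h α β δ ∧
      gv h α β δ ≤ γ ∧ gv h α β δ = γ ^ h * γ / 4 ∧ α ^ (h + 1) ≤ α ^ h ∧ α ^ h ≤ 1 := by
  obtain ⟨a1, -, -, a2⟩ := hP.pos
  obtain ⟨b1, b2, b3⟩ := hP.le
  have c1 : α ^ (h + 1) ≤ α ^ h := pow_le_pow_of_le_one a1.le b1 (by omega)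
  have c2 : α ^ h ≤ 1 := pow_le_one₀ a1.le b1
  have c3 : α ^ (h + 1) * β ≤ α ^ h := (mul_le_of_le_one_right (by positivity) (b2.trans b3)).trans c1
  have c4 : α ^ (h + 1) * β * δ ≤ α ^ (h + 1) * β := mul_le_of_le_one_right (by positivity) h1
  have c5 : (α ^ (h + 1) * β * δ / 8) ^ h ≤ 1 := pow_le_one₀ (by positivity) (by linarith)
  refine ⟨α ^ (h + 1) * β * δ / 8, by positivity, by linarith, by linarith, by nlinarith only [h0, c3],
    by unfold MP_46505f_co.gv; positivity, ?_, by rw [← pow_succ]; rfl, c1, c2⟩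
  unfold MP_46505f_co.gv
  rw [pow_succ (α ^ (h + 1) * β * δ / 8)]
  nlinarith only [a1, a2, h0, c5, show 0 < α ^ (h + 1) * β * δ by positivity]

lemma lr_count' [Nonempty V] {G : SimpleGraph V} {R : SimpleGraph W} {C : W → Finset V} {α γ : ℝ}
    (h0 : 0 ≤ α) (h1 : α ≤ 1) (g0 : 0 ≤ γ) (g1 : γ ≤ 1) {e : W → ℝ} (J0 : Finset W)
    (hreg : ∀ a ∈ J0, ∀ l, R.Adj a l → LR G α (e a) (α ^ Fintype.card W * (C l).card) (C a) (C l))
    (hc : ∀ a ∈ J0, 0 ≤ e a ∧
      γ * Fintype.card V + Fintype.card W * (e a + 1) ≤ α ^ Fintype.card W * (C a).card) :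
    γ ^ Fintype.card W * Fintype.card (W → V) ≤ cnt univ (Emb G R C α J0) := by
  have := lr_count h0 h1 (c := fun _ => γ * Fintype.card V) J0 hreg
    fun a ha => ⟨by positivity, hc a ha⟩
  have hn : (0 : ℝ) < Fintype.card V := by exact_mod_cast Fintype.card_pos
  rw [Finset.prod_const, mul_pow, mul_right_comm, mul_comm] at this
  rw [Fintype.card_fun, Nat.cast_pow]
  exact le_trans (mul_le_mul_of_nonneg_right (pow_le_pow_of_le_one g0 g1 (Finset.card_le_univ J0))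
    (by positivity)) (le_of_mul_le_mul_left (by linarith) (pow_pos hn J0.card))

lemma num_cloud {b n m Q p τ : ℝ} {j c k h : ℕ} (hb : 1 ≤ b) (hn : 0 < n) (hm : 0 < m)
    (hQ : 1 ≤ Q * p * m) (hQ0 : 0 ≤ Q) (hτ : 0 < τ) (hp : τ ≤ p) (hj : j ≤ h) (hc : c + k ≤ h) :
    (b / n) ^ j * (b / m) ^ c * (b / (2 * (p * n))) ^ (c + k) ≤
      b ^ (3 * h) * (Q ^ c / (τ ^ k * n ^ (c + k + j))) := by
  have := hτ.trans_le hp
  calc _ ≤ (b / n) ^ j * (b * (Q * p)) ^ c * (b / (p * n)) ^ (c + k) := by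
        have e1 : b / m ≤ b * (Q * p) := by rw [div_le_iff₀ hm]; nlinarith only [hQ, hb]
        have e2 : b / (2 * (p * n)) ≤ b / (p * n) :=
          div_le_div_of_nonneg_left (by linarith) (mul_pos this hn) (by linarith [mul_pos this hn])
        gcongr
    _ = b ^ (j + c + (c + k)) * (Q ^ c / (p ^ k * n ^ (c + k + j))) := by
        simp only [div_pow, mul_pow, pow_add]; field_simp
    _ ≤ _ := by gcongr; omega

open Classical in
noncomputable def Lv (H : SimpleGraph W) (I : Finset W) : Finset W :=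
  univ.filter fun a => Lf H I a ∧ NI H I a

lemma mem_Lv {a : W} : a ∈ Lv H I ↔ Lf H I a ∧ NI H I a := by simp [Lv]

lemma of_mem_Lv {a : W} (h : a ∈ I ∪ Lv H I) : a ∈ I ∨ NI H I a :=
  (Finset.mem_union.1 h).imp_right fun h => (mem_Lv.1 h).2

lemma num0 (hC : IsCloud H I) {τ n Q : ℝ} (hτ : 0 < τ) (h1 : τ ≤ 1) (hn : 0 < n) (hQ : 1 ≤ Q)
    (s1 : ∀ S, 1 ≤ cross H I S → (∃ u ∈ S, NI H I u) → Nm H I τ n 1 S)
    (s2 : ∀ S, 1 ≤ cross H I S → (∃ u ∈ S, NI H I u) → 2 ≤ comps H I S →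
      Nm H I τ n (Q ^ Fintype.card W) S) {S : Finset W} (hS : S ⊆ I ∪ Lv H I) {t : ℕ}
    (ht : t ≤ cross H I S) (t1 : 1 ≤ t) : Q ^ comps H I S / (τ ^ ((S \ I).card - comps H I S) *
      n ^ ((S \ I).card + (S ∩ I ∪ ∅ ∩ I).card)) ≤ τ ^ t * (Q / (τ * n ^ 2)) := by
  have b1 := t1.trans ht
  obtain ⟨l, b2, b3, -⟩ := cross_pos hC b1
  have b4 : ∃ u ∈ S, NI H I u := ⟨l, b2, (of_mem_Lv (hS b2)).resolve_left b3⟩
  have b5 : Q ^ comps H I S * n ^ 2 ≤ Q * (τ ^ (cross H I S - 1 + ((S \ I).card - comps H I S)) *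
      n ^ S.card) := by
    by_cases c : 2 ≤ comps H I S
    · exact le_trans (mul_le_mul_of_nonneg_right (pow_le_pow_right₀ hQ ((comps_le _).trans
        (Finset.card_le_univ _))) (by positivity))
        ((s2 S b1 b4 c).trans (le_mul_of_one_le_left (by positivity) hQ))
    · exact mul_le_mul ((pow_le_pow_right₀ hQ (by omega)).trans_eq (pow_one Q))
        (by simpa [Nm] using s1 S b1 b4) (by positivity) (by linarith)
  obtain ⟨t, rfl⟩ := Nat.exists_eq_add_of_le t1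
  rw [Finset.empty_inter, Finset.union_empty, Finset.card_sdiff_add_card_inter,
    div_le_iff₀ (by positivity), show τ ^ (1 + t) * (Q / (τ * n ^ 2)) = Q * τ ^ t / n ^ 2 by
      rw [pow_add]; field_simp, div_mul_eq_mul_div, le_div_iff₀ (by positivity)]
  refine b5.trans ?_
  have := pow_le_pow_of_le_one hτ.le h1 (by omega : t ≤ cross H I S - 1)
  rw [pow_add, mul_assoc, mul_assoc]
  gcongr

lemma num1 (hC : IsCloud H I) {τ τ' n Q : ℝ} (hτ : 0 < τ') (h0 : τ' ≤ τ) (h1 : τ ≤ 1) (hn : 0 < n)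
    (hQ : 1 ≤ Q) (s0 : ∀ S, 1 ≤ cross H I S → Nm H I τ n 1 S)
    (s2 : ∀ S, 1 ≤ cross H I S → (∃ u ∈ S, NI H I u) → 2 ≤ comps H I S →
      Nm H I τ' n (Q ^ Fintype.card W) S) {S : Finset W} (hS : S ⊆ I ∪ Lv H I) {t : ℕ}
    (ht : t ≤ cross H I S) (t0 : t = 0 → S = ∅) {S' : Finset W} (b1 : ∀ a ∈ S', ¬ NI H I a)
    (b2 : 1 ≤ cross H I S') : Q ^ comps H I S / (τ' ^ ((S \ I).card - comps H I S) *
      n ^ ((S \ I).card + (S ∩ I ∪ S' ∩ I).card)) ≤
      τ' ^ t * (τ ^ (cross H I S' - 1) * n ^ (S' \ I).card / n ^ 2) := by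
  have := hτ.trans_le h0
  rw [mul_div_assoc', div_le_div_iff₀ (by positivity) (by positivity)]
  rcases Nat.eq_zero_or_pos t with rfl | t1
  · have c : comps H I (∅ : Finset W) = 0 := by simp [comps_eq']
    simp only [t0 rfl, c, pow_zero, one_mul, Finset.empty_sdiff, Finset.card_empty,
      Finset.empty_inter, Finset.empty_union, zero_add, Nat.sub_self]
    refine (one_mul _).ge.trans ((s0 S' b2).trans ?_)
    rw [mul_assoc, ← pow_add n, Finset.card_sdiff_add_card_inter]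
    exact mul_le_mul_of_nonneg_right (pow_le_pow_of_le_one this.le h1 (by omega)) (by positivity)
  obtain ⟨l, c2, c3, -⟩ := cross_pos hC (t1.trans_le ht)
  obtain ⟨l', c4, c5, -⟩ := cross_pos hC b2
  have c6 := (of_mem_Lv (hS c2)).resolve_left c3
  have c7 := cross_add hC (fun a ha => of_mem_Lv (hS ha)) b1 Subset.rfl
  rw [← cross_eq hC, ← cross_eq hC] at c7
  have c8 := card_split (fun a ha => of_mem_Lv (hS ha)) b1
  have c9 := comps_union (H := H) (I := I) S S'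
  have d1 := s2 (S ∪ S') (by omega) ⟨l, Finset.mem_union_left _ c2, c6⟩ (two_le_comps
    (Finset.mem_union_left _ c2) (Finset.mem_sdiff.2 ⟨Finset.mem_union_right _ c4, c5⟩) c6 (b1 _ c4))
  have d2 := Finset.card_sdiff_add_card_inter (S ∪ S') I
  rw [Finset.union_inter_distrib_right] at d2
  refine le_trans (mul_le_mul_of_nonneg_right (pow_le_pow_right₀ hQ ((comps_le _).trans
    (Finset.card_le_univ _))) (by positivity)) (d1.trans ?_)
  calc _ ≤ τ' ^ (t + (cross H I S' - 1) + ((S \ I).card - comps H I S)) * n ^ (S ∪ S').card :=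
        mul_le_mul_of_nonneg_right (pow_le_pow_of_le_one hτ.le (h0.trans h1) (by omega))
          (by positivity)
    _ = τ' ^ t * (τ' ^ (cross H I S' - 1) * n ^ (S' \ I).card) *
        (τ' ^ ((S \ I).card - comps H I S) * n ^ ((S \ I).card + (S ∩ I ∪ S' ∩ I).card)) := by
        rw [← d2, c8]; ring
    _ ≤ _ := by gcongr

section cloud
variable {κ : Type} [Fintype κ] [DecidableEq κ] {J : Finset κ} {θ : κ → W → V}
  {Y U C : κ → W → Finset V} {E0 D : Finset (Sym2 V)} {α ε ε' β β' δ y y1 : ℝ} {X R Z P : Finset V}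

open Classical in
def CSg (H : SimpleGraph W) (I : Finset W) (D : Finset (Sym2 V)) (α : ℝ) (J : Finset κ)
    (C : κ → W → Finset V) (σ : (W → V) × (W → κ) × (W → V)) : Prop :=
  (∀ j, σ.2.1 j ∈ J.filter fun i => Emb (gr D) H (C i) α I σ.1) ∧
  (∀ l ∈ Lv H I, σ.2.2 l ∈ cand (gr D) H (C (σ.2.1 (cl H I l))) I σ.1 l) ∧ Set.InjOn σ.2.2 (Lv H I)

open Classical in
noncomputable def cψ (H : SimpleGraph W) (I : Finset W) (θ : κ → W → V)
    (σ : (W → V) × (W → κ) × (W → V)) (a : W) : V :=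
  if a ∈ I then σ.1 a else if a ∈ Lv H I then σ.2.2 a else θ (σ.2.1 (cl H I a)) a

lemma cψI {σ : (W → V) × (W → κ) × (W → V)} {a : W} (h : a ∈ I) : cψ H I θ σ a = σ.1 a := if_pos h

lemma cψL {σ : (W → V) × (W → κ) × (W → V)} {a : W} (h : a ∈ Lv H I) : cψ H I θ σ a = σ.2.2 a :=
  (if_neg (mem_Lv.1 h).2.notMem).trans (if_pos h)

lemma cψX {σ : (W → V) × (W → κ) × (W → V)} {a : W} (h : NI H I a) (h' : a ∉ Lv H I) :
    cψ H I θ σ a = θ (σ.2.1 (cl H I a)) a := (if_neg h.notMem).trans (if_neg h')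

lemma CSg.idx {σ : (W → V) × (W → κ) × (W → V)} (h : CSg H I D α J C σ) (j : W) :
    σ.2.1 j ∈ J ∧ Emb (gr D) H (C (σ.2.1 j)) α I σ.1 := by simpa using h.1 j

lemma CSg.leaf {σ : (W → V) × (W → κ) × (W → V)} (h : CSg H I D α J C σ)
    (hY : ∀ i, ∀ a ∉ I, C i a = Y i (par H I a)) {l : W} (hl : l ∈ Lv H I) :
    σ.2.2 l ∈ Y (σ.2.1 (cl H I l)) (par H I l) :=
  hY _ l (mem_Lv.1 hl).2.notMem ▸ (mem_cand.1 (h.2.1 l hl)).1

lemma cs_emb (hC : IsCloud H I) (hS : CS H I (gr E0) (gr D) α ε β y y1 X R Z J θ Y U)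
    (d1 : Disjoint X R) (d2 : Disjoint X Z) (d3 : Disjoint R Z) (hX : X ⊆ P) (hR : R ⊆ P)
    (hY : ∀ i, ∀ a ∉ I, C i a = Y i (par H I a)) (c1 : ∀ i ∈ J, ∀ z ∈ I, C i z ⊆ Z)
    {σ : (W → V) × (W → κ) × (W → V)} (hσ : CSg H I D α J C σ) :
    Set.InjOn (cψ H I θ σ) (I ∪ Lv H I : Finset W) ∧ ((cE H I).filter fun e =>
      ∀ a ∈ e, a ∈ I ∪ Lv H I).image (Sym2.map (cψ H I θ σ)) ⊆ D ∧ Comp H I (E0 ∪ ((cE H I).filter
      fun e => ∀ a ∈ e, a ∈ I ∪ Lv H I).image (Sym2.map (cψ H I θ σ))) P Z (cψ H I θ σ) := by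
  have hJ := hσ.idx
  have f1 : ∀ z ∈ I, cψ H I θ σ z ∈ Z := fun z hz =>
    c1 _ (hJ z).1 z hz (cψI (θ := θ) hz ▸ (mem_cand.1 ((hJ z).2.1 z hz)).1)
  have f2 : ∀ l ∈ Lv H I, cψ H I θ σ l ∈ R := fun l hl =>
    cψL (θ := θ) hl ▸ (hS.hY _ (hJ _).1 _).1 (hσ.leaf hY hl)
  have f3 : ∀ a, NI H I a → a ∉ Lv H I → cψ H I θ σ a ∈ X := fun a h h' =>
    cψX (θ := θ) h h' ▸ (mem_homs.1 (hS.hom _ (hJ _).1)).1 a
  have f4 : ∀ l ∈ Lv H I, ∀ z ∈ I, H.Adj z l → (gr D).Adj (cψ H I θ σ z) (cψ H I θ σ l) :=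
    fun l hl z hz e => by rw [cψI hz, cψL hl]; exact (mem_cand.1 (hσ.2.1 l hl)).2 z hz e
  have f5 : Set.InjOn (cψ H I θ σ) {a | a ∈ I ∨ NI H I a} := fun a ha b hb e => by
    have dj := fun {A B : Finset V} (h : Disjoint A B) {u v : V} (e : u = v) (hu : u ∈ A)
      (hv : v ∈ B) => Finset.disjoint_left.1 h hu (e ▸ hv)
    rcases ha with ha | ha <;> rcases hb with hb | hb
    · exact (hJ a).2.2.1 ha hb (by rwa [cψI ha, cψI hb] at e)
    · by_cases c : b ∈ Lv H I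
      exacts [(dj d3 e.symm (f2 b c) (f1 a ha)).elim, (dj d2 e.symm (f3 b hb c) (f1 a ha)).elim]
    · by_cases c : a ∈ Lv H I
      exacts [(dj d3 e (f2 a c) (f1 b hb)).elim, (dj d2 e (f3 a ha c) (f1 b hb)).elim]
    · by_cases c : a ∈ Lv H I <;> by_cases c' : b ∈ Lv H I
      · exact hσ.2.2 c c' (by rwa [cψL c, cψL c'] at e)
      · exact (dj d1 e.symm (f3 b hb c') (f2 a c)).elim
      · exact (dj d1 e (f3 a ha c) (f2 b c')).elim
      · exact hS.inj _ (hJ _).1 _ (hJ _).1 a b (by rwa [cψX ha c, cψX hb c'] at e)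
  have f6 : ∀ a b, (outside H I).Adj a b → a ∈ Lv H I →
      (gr E0).Adj (cψ H I θ σ b) (cψ H I θ σ a) := fun a b e ha => by
    have := (hS.hY _ (hJ _).1 _).2.1 _ (hσ.leaf hY ha)
    rwa [par_eq hC (mem_Lv.1 ha).1 e, cl_adj e, ← cψL (θ := θ) ha, ← cψX (θ := θ) (σ := σ) ⟨a, e.symm⟩
      fun hb => hC.2.2.2 a b e (mem_Lv.1 ha).1 (mem_Lv.1 hb).1] at this
  have f7 : ∀ z ∈ I, ∀ l, H.Adj z l → l ∈ I ∨ NI H I l → (gr (E0 ∪ ((cE H I).filter fun e =>
      ∀ a ∈ e, a ∈ I ∪ Lv H I).image (Sym2.map (cψ H I θ σ)))).Adj (cψ H I θ σ z) (cψ H I θ σ l) :=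
    fun z hz l e hl => by
    have hl' : l ∈ Lv H I := mem_Lv.2 ⟨⟨z, hz, e.symm⟩, hl.resolve_left fun c => hC.1 z hz l c e⟩
    exact gr_adj.2 ⟨Finset.mem_union_right _ (Finset.mem_image.2 ⟨s(z, l), Finset.mem_filter.2
      ⟨mem_cE.2 ⟨e, z, hz, by simp⟩, by simp [hz, hl']⟩, rfl⟩), (f4 l hl' z hz e).ne⟩
  refine ⟨f5.mono fun a ha => of_mem_Lv ha, fun x hx => ?_, f1, fun a ha => (em (a ∈ Lv H I)).elim
    (fun c => hR (f2 a c)) fun c => hX (f3 a ha c), f5, fun a b e ha hb => ?_⟩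
  · obtain ⟨e, he, rfl⟩ := Finset.mem_image.1 hx
    rw [Finset.mem_filter] at he
    obtain ⟨l, z, b1, b2, b3, rfl⟩ := cE_rep hC he.1
    exact (gr_adj.1 (f4 l ((Finset.mem_union.1 (he.2 l (by simp))).resolve_left b1) z b2
      b3.symm).symm).1
  by_cases a0 : a ∈ I
  · exact f7 a a0 b e hb
  by_cases b0 : b ∈ I
  · exact (f7 b b0 a e.symm ha).symm
  have e' : (outside H I).Adj a b := ⟨e, a0, b0⟩
  refine gr_mono Finset.subset_union_left ?_
  by_cases c : a ∈ Lv H I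
  · exact (f6 a b e' c).symm
  by_cases c' : b ∈ Lv H I
  · exact f6 b a e'.symm c'
  rw [cψX ⟨b, e'⟩ c, cψX ⟨a, e'.symm⟩ c', ← cl_adj e']
  exact (mem_homs.1 (hS.hom _ (hJ _).1)).2 a b e'

lemma cs_upper [Nonempty V] (hS : CS H I (gr E0) (gr D) α ε β y y1 X R Z J θ Y U) (h1 : 0 < y1)
    (m0 : (0 : ℝ) < J.card) (hY : ∀ i, ∀ a ∉ I, C i a = Y i (par H I a)) {S : Finset W}
    (hS' : S ⊆ I ∪ Lv H I) (S' : Finset W) (t : W → V) {B : Finset V} {b : ℝ} (b1 : 1 ≤ b)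
    (b2 : B.card ≤ b) : (cnt univ fun σ => CSg H I D α J C σ ∧ (∀ a ∈ S, cψ H I θ σ a ∈ B) ∧
      ∀ a ∈ S' ∩ I, cψ H I θ σ a = t a) ≤ (b / Fintype.card V) ^ (S ∩ I ∪ S' ∩ I).card *
      (Fintype.card V : ℝ) ^ Fintype.card W * ((b / J.card) ^ comps H I S *
      (J.card : ℝ) ^ Fintype.card W * ((b / y1) ^ (S \ I).card * ((y1 / Fintype.card V) ^
      (Lv H I).card * (Fintype.card V : ℝ) ^ Fintype.card W))) := by
  classical
  have n0 : (0 : ℝ) < Fintype.card V := by exact_mod_cast Fintype.card_pos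
  have hSL : S \ I ⊆ Lv H I := fun a ha =>
    (Finset.mem_union.1 (hS' (Finset.mem_sdiff.1 ha).1)).resolve_left (Finset.mem_sdiff.1 ha).2
  obtain ⟨Nι, hN⟩ : ∃ N : W → Finset κ, N = fun j => if j ∈ (S \ I).image (cl H I) then
    B.biUnion fun v => J.filter fun i => ∃ a, v ∈ Y i a else J := ⟨_, rfl⟩
  have u1 := cnt_le_prod Nι (fun j => if j ∈ (S \ I).image (cl H I) then b else J.card)
    (fun j => by
      simp only [hN]
      split_ifs
      · refine le_trans (Nat.cast_le.2 (Finset.card_biUnion_le_card_mul _ _ 1 fun v _ =>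
          Finset.card_le_one.2 fun i hi i' hi' => by_contra fun e => ?_)) (by simpa using b2)
        obtain ⟨hi, a, ha⟩ := Finset.mem_filter.1 hi
        obtain ⟨hi', a', ha'⟩ := Finset.mem_filter.1 hi'
        exact Finset.disjoint_left.1 (hS.priv i hi i' hi' e a a') ha ha'
      · rfl) (P := fun ι => ∀ j, ι j ∈ Nι j ∧ ι j ∈ J) fun ι h j => (h j).1
  rw [prod_ite_div _ _ m0.ne', ← comps_eq'] at u1
  refine (cnt_upper (Q := fun ζ => (∀ a ∈ S ∩ I, ζ a ∈ B) ∧ ∀ a ∈ S' ∩ I, ζ a = t a)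
    (fun ζ σ h => ⟨fun a ha => ?_, fun a ha => ?_⟩) fun ζ _ => ?_).trans
    (mul_le_mul_of_nonneg_right (cnt_fix b1 b2 t) (by positivity))
  · have := h.2.1 a (Finset.mem_inter.1 ha).1
    rwa [cψI (Finset.mem_inter.1 ha).2] at this
  · have := h.2.2 a ha
    rwa [cψI (Finset.mem_inter.1 ha).2] at this
  refine (cnt_upper (Q := fun ι => ∀ j, ι j ∈ Nι j ∧ ι j ∈ J) (fun ι χ h j => ?_)
    fun ι hι => ?_).trans (mul_le_mul_of_nonneg_right u1 (by positivity))
  · have := (h.1.idx j).1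
    refine ⟨?_, this⟩
    simp only [hN]
    split_ifs with e
    · obtain ⟨a, ha, rfl⟩ := Finset.mem_image.1 e
      have c := h.2.1 a (Finset.mem_sdiff.1 ha).1
      rw [cψL (hSL ha)] at c
      exact Finset.mem_biUnion.2 ⟨_, c, Finset.mem_filter.2 ⟨this, _, h.1.leaf hY (hSL ha)⟩⟩
    · exact this
  rw [← prod_two hSL _ h1.ne' n0.ne']
  refine cnt_le_prod (fun a => if a ∈ S \ I then B else if a ∈ Lv H I then
    Y (ι (cl H I a)) (par H I a) else univ) _ (fun a => ?_) fun χ h a => ?_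
  · split_ifs
    exacts [b2, (hS.hY _ (hι _).2 _).2.2.2.1, le_rfl]
  · split_ifs with e e'
    · have c := h.2.1 a (Finset.mem_sdiff.1 e).1
      rwa [cψL (hSL e)] at c
    exacts [h.1.leaf hY e', mem_univ _]

lemma cs_total [Nonempty V] (hC : IsCloud H I) (hP : Par (Fintype.card W) α ε ε' β β')
    (hS : CS H I (gr E0) (gr D) α ε β (δ * y) y1 X R Z J θ Y U) (m0 : (0 : ℝ) < J.card) {γ : ℝ}
    (g0 : 0 < γ) (g1 : γ ≤ 1) (g2 : 8 * γ ≤ α ^ (Fintype.card W + 1) * β)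
    (g3 : 8 * γ ≤ α ^ Fintype.card W * δ) (hy : 0 < y) (hy' : y ≤ Fintype.card V)
    (hh : Fintype.card W ≤ γ * y) : ∃ C : κ → W → Finset V,
      (∀ i, ∀ a ∉ I, C i a = Y i (par H I a)) ∧ (∀ i ∈ J, ∀ z ∈ I, C i z ⊆ Z) ∧
      γ ^ Fintype.card W / 2 * Fintype.card (W → V) * ((γ ^ Fintype.card W / 2 * J.card) ^
      Fintype.card W * ((γ * (2 * y) / Fintype.card V) ^ (Lv H I).card *
      (Fintype.card V : ℝ) ^ Fintype.card W)) ≤ cnt univ (CSg H I D α J C) := by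
  classical
  have n0 : (0 : ℝ) < Fintype.card V := by exact_mod_cast Fintype.card_pos
  obtain ⟨e0, e1, -, e3⟩ := hP.pos
  have e2 := hP.e2
  have g7 : α ^ (Fintype.card W + 1) ≤ α ^ Fintype.card W :=
    pow_le_pow_of_le_one e0.le hP.le.1 (by omega)
  have hδ : 0 < δ := (mul_pos_iff_of_pos_left (by positivity)).1 (lt_of_lt_of_le (by positivity) g3)
  choose! Cz c1 c2 c3 using hS.cap
  obtain ⟨C, hC'⟩ : ∃ C : κ → W → Finset V,
    C = fun i a => if a ∈ I then Cz i a else Y i (par H I a) := ⟨_, rfl⟩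
  have CI : ∀ i, ∀ a ∈ I, C i a = Cz i a := fun i a h => by rw [hC']; exact if_pos h
  have CL : ∀ i, ∀ a ∉ I, C i a = Y i (par H I a) := fun i a h => by rw [hC']; exact if_neg h
  have a1 := cnt_markov (P := fun i => Emb (gr D) H (C i) α I) (by positivity)
    (Finset.card_pos.1 (Nat.cast_pos.1 m0)) fun i hi => lr_count' e0.le hP.le.1 g0.le g1
    (e := fun _ => ε * Fintype.card V) I (fun z hz l e => by
      rw [CI i z hz, CL i l fun hl => hC.1 z hz l hl e]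
      refine (hS.lr i hi _).symm.mono (fun _ _ _ _ => id) le_rfl le_rfl ?_ (c3 i hi z l hz e.symm)
        Subset.rfl
      gcongr
      nlinarith only [g0, g2, e2, e1, e3, g7, hP.le, (Fintype.card W).cast_nonneg (α := ℝ), pow_pos e0 (Fintype.card W + 1)])
    fun z hz => ⟨by positivity, by
      have b1 := mul_le_mul g7 (c2 i hi z) (by positivity) (pow_pos e0 _).le
      rw [CI i z hz]
      nlinarith only [hh, b1, e1, n0, g2, e2, g0, hy', mul_pos e1 n0]⟩
  refine ⟨C, CL, fun i hi z hz => CI i z hz ▸ c1 i hi z, le_trans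
    (mul_le_mul_of_nonneg_right a1 (by positivity)) (cnt_lower fun ζ hζ => le_trans ?_
    (cnt_lower (Q := fun ι => ∀ j, ι j ∈ J.filter fun i => Emb (gr D) H (C i) α I ζ)
    fun ι hι => le_trans (inj_count (fun l => cand (gr D) H (C (ι (cl H I l))) I ζ l) (Lv H I)
    (c := γ * (2 * y)) (by positivity) fun l hl => ?_) (cnt_mono fun χ b => ⟨hι, b⟩)))⟩
  · rw [cnt_pi, ← cnt_eq_card]; gcongr
  · have b := Finset.mem_filter.1 (hι (cl H I l))
    refine le_trans ?_ (b.2.2.2 l (mem_Lv.1 hl).2.notMem)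
    have b1 := mul_le_mul (pow_le_pow_of_le_one e0.le hP.le.1 (Finset.card_le_univ I))
      (hS.hY _ b.1 (par H I l)).2.2.1 (by positivity) (pow_pos e0 _).le
    rw [CL _ _ (mem_Lv.1 hl).2.notMem]
    nlinarith only [hh, b1, g0, hy, g3]

theorem val_cloud [Nonempty V] (hC : IsCloud H I) {p τ τ' Q κ0 : ℝ}
    (hP : Par (Fintype.card W) α ε ε' β β')
    (hS : CS H I (gr E0) (gr D) α ε β (δ * (p * Fintype.card V)) (2 * (p * Fintype.card V))
      X R Z J θ Y U) (d1 : Disjoint X R) (d2 : Disjoint X Z) (d3 : Disjoint R Z) (hX : X ⊆ P)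
    (hR : R ⊆ P) (hδ : 0 < δ) (hδ1 : δ ≤ 1) (hτ : 0 < τ) (hτ' : 0 < τ') (t1 : τ' ≤ τ)
    (t2 : τ ≤ p) (hp1 : p ≤ 1) (hQ : 1 ≤ Q) (hJ : 1 ≤ Q * p * J.card) (hκ : 0 < κ0)
    (hκ' : Q / (τ' * (Fintype.card V : ℝ) ^ 2) ≤ κ0)
    (hn : Fintype.card W * Q ≤ gv (Fintype.card W) α β δ * (p * Fintype.card V))
    (s0 : ∀ S, 1 ≤ cross H I S → Nm H I τ (Fintype.card V) 1 S)
    (s1 : ∀ S, 1 ≤ cross H I S → (∃ u ∈ S, NI H I u) → Nm H I τ' (Fintype.card V) 1 S)
    (s2 : ∀ S, 1 ≤ cross H I S → (∃ u ∈ S, NI H I u) → 2 ≤ comps H I S →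
      Nm H I τ' (Fintype.card V) (Q ^ Fintype.card W) S) :
    LSat (tests H I V hτ hκ) (fun e => Comp H I (E0 ∪ e) P Z) (eF H).card
      (Kv (Fintype.card W) (eF H).card (gv (Fintype.card W) α β δ)) τ' D := by
  obtain ⟨γ, g0, g1, g2, g3, g4, g5, g6, -⟩ := hP.gv hδ hδ1
  obtain ⟨g, hg⟩ : ∃ x, x = gv (Fintype.card W) α β δ := ⟨_, rfl⟩
  rw [← hg] at g4 g5 g6 hn ⊢
  have n0 : (0 : ℝ) < Fintype.card V := by exact_mod_cast Fintype.card_pos
  have hp := hτ.trans_le t2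
  have m0 : (0 : ℝ) < J.card := (mul_pos_iff_of_pos_left (by positivity)).1 (one_pos.trans_le hJ)
  obtain ⟨C, CL, CI, tot⟩ := cs_total hC hP hS m0 g0 g1 g2 g3 (by positivity)
    (mul_le_of_le_one_left n0.le hp1) ((le_mul_of_one_le_right (by positivity) hQ).trans
    (hn.trans (by gcongr)))
  have hle : ∀ S, (((cE H I).filter fun e => ∀ a ∈ e, a ∈ I ∪ Lv H I).filter
      fun e => ∀ a ∈ e, a ∈ S).card ≤ cross H I S := fun S => cross_eq hC S ▸
    Finset.card_le_card (Finset.filter_subset_filter _ (Finset.filter_subset _ _))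
  have hE : ((cE H I).filter fun e => ∀ a ∈ e, a ∈ I ∪ Lv H I) ⊆ eF H :=
    fun e he => mem_eF.2 (mem_cE.1 (Finset.mem_filter.1 he).1).1
  refine lsat_of (lt_of_lt_of_le (by
      have : (0 : ℝ) < Fintype.card (W → V) := by exact_mod_cast Fintype.card_pos
      positivity) tot) (cψ H I θ) _ hE (I ∪ Lv H I) (fun e he => (Finset.mem_filter.1 he).2)
    (fun σ hσ => cs_emb hC hS d1 d2 d3 hX hR CL CI hσ) (by positivity) hτ hτ'.le hκ _
    (fun S hS' S' t B hB => ?_) (fun S hS' t ht t0 => (num0 hC hτ' (by linarith) n0 hQ s1 s2 hS'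
    (ht.trans (hle S)) t0).trans (by gcongr)) fun S hS' t ht t0 S' b1 b2 =>
    num1 hC hτ' t1 (by linarith) n0 hQ s0 s2 hS' (ht.trans (hle S)) t0 b1 b2
  obtain ⟨b, hb⟩ : ∃ x : ℝ, x = 2 * (eF H).card + 1 := ⟨_, rfl⟩
  have b1 : 1 ≤ b := by rw [hb]; linarith [(eF H).card.cast_nonneg (α := ℝ)]
  refine (cs_upper hS (by positivity) m0 CL hS' S' t b1 (by
    rw [hb]; exact_mod_cast hB.trans ((Nat.mul_le_mul_left _ (Finset.card_le_card hE)).trans
      (Nat.le_succ _)))).trans ?_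
  obtain ⟨k, hk⟩ := Nat.exists_eq_add_of_le (comps_le (H := H) (I := I) S)
  have u2 := num_cloud (j := (S ∩ I ∪ S' ∩ I).card) (c := comps H I S) (k := k) b1 n0 m0 hJ
    (by linarith) hτ' (t1.trans t2) (Finset.card_le_univ _) (hk ▸ Finset.card_le_univ _)
  rw [hk, Nat.add_sub_cancel_left, ← hb]
  rw [Fintype.card_fun, Nat.cast_pow, mul_div_assoc, mul_pow γ, mul_pow] at tot
  have u3 : g ≤ γ ^ Fintype.card W / 2 := by nlinarith only [g6, g4, g0, g1, pow_pos g0 (Fintype.card W)]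
  have u4 : g ^ Fintype.card W ≤ γ ^ (Lv H I).card := (pow_le_pow_left₀ g4.le g5 _).trans
    (pow_le_pow_of_le_one g0.le g1 (Finset.card_le_univ _))
  generalize (Fintype.card V : ℝ) = n at *
  calc _ = (b / n) ^ (S ∩ I ∪ S' ∩ I).card * (b / J.card) ^ comps H I S *
        (b / (2 * (p * n))) ^ (comps H I S + k) / g ^ (2 * Fintype.card W + 1) *
        (g * n ^ Fintype.card W * (g ^ Fintype.card W * J.card ^ Fintype.card W *
        (g ^ Fintype.card W * (2 * (p * n) / n) ^ (Lv H I).card * n ^ Fintype.card W))) := by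
        rw [pow_succ, two_mul (Fintype.card W), pow_add g]; field_simp
    _ ≤ _ := by
        rw [div_mul_eq_mul_div (b ^ _)]
        exact mul_le_mul (by gcongr) (le_trans (by gcongr) tot) (by positivity) (by positivity)

end cloud

lemma LR.few {G : SimpleGraph V} {α e1 e2 : ℝ} {Y U U' : Finset V} (h : LR G α e1 e2 Y U)
    (hU : U' ⊆ U) (h2 : e2 ≤ U'.card) (h1 : 0 ≤ e1) :
    ((Y.filter fun y => (dg G y U' : ℝ) < α * U'.card).card : ℝ) ≤ e1 := by
  by_contra f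
  push Not at f
  have f3 := h _ (Finset.filter_subset _ _) U' hU f.le h2
  have f4 := Finset.sum_lt_sum_of_nonempty (Finset.card_pos.1 (Nat.cast_pos.1 (h1.trans_lt f)))
    fun u hu => (Finset.mem_filter.1 hu).2
  rw [Finset.sum_const, nsmul_eq_mul] at f4
  linarith

section tri
variable {κ : Type} {J : Finset κ} {Y U U' : κ → Finset V} {D : Finset (Sym2 V)}
  {α ε ε' β β' y : ℝ} {R A Z P : Finset V}

def TB (H : SimpleGraph W) (I L : Finset W) (D : Finset (Sym2 V)) (A Z : Finset V) (ζ : W → V) :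
    Prop := (∀ a ∈ I, ζ a ∈ Z) ∧ (∀ a ∈ L, ζ a ∈ A) ∧ Set.InjOn ζ (I ∪ L : Finset W) ∧
  ∀ a ∈ I ∪ L, ∀ b ∈ I ∪ L, H.Adj a b → (gr D).Adj (ζ a) (ζ b)

lemma ts_link [Nonempty V] (hC : IsCloud H I) (hP : Par (Fintype.card W) α ε ε' β β')
    (hS : TS (gr D) α ε ε' β β' y R A Z J Y U U') {L : Finset W} (hL : ∀ a ∈ L, a ∉ I)
    (hL' : ∀ a ∈ L, ∀ b ∈ L, ¬ H.Adj a b) {γ : ℝ} (g0 : 0 < γ) (g1 : γ ≤ 1)
    (g2 : 8 * γ ≤ α ^ (Fintype.card W + 1) * β) (hh : Fintype.card W ≤ γ * Fintype.card V) :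
    ∃ T ⊆ R, J.card * y ≤ 2 * T.card ∧ ∀ v ∈ T, γ ^ Fintype.card W * Fintype.card (W → V) ≤
      cnt univ fun ζ => TB H I L D A Z ζ ∧ ∀ a ∈ I ∪ L, (gr D).Adj v (ζ a) := by
  classical
  have n0 : (0 : ℝ) < Fintype.card V := by exact_mod_cast Fintype.card_pos
  obtain ⟨e0, e1, e2, e3⟩ := hP.pos
  obtain ⟨l1, l2, l3⟩ := hP.le
  have h0 := (Fintype.card W).cast_nonneg (α := ℝ)
  have p0 := pow_pos e0 (Fintype.card W)
  have p1 : α ^ (Fintype.card W + 1) ≤ 1 := pow_le_one₀ e0.le l1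
  have e4 := hP.e1
  have e5 := hP.e2
  have e6 : 4 * ε ≤ β := by nlinarith only [e5, e1, e3, p1, mul_pos e1 e3]
  refine ⟨J.biUnion fun i => (Y i).filter fun v => α * (U i).card ≤ dg (gr D) v (U i) ∧
    α * (U' i).card ≤ dg (gr D) v (U' i), Finset.biUnion_subset.2 fun i hi =>
    (Finset.filter_subset _ _).trans (hS.hY i hi).1, ?_, fun v hv => ?_⟩
  · rw [Finset.card_biUnion fun i hi j hj e => (hS.priv i hi j hj e).mono
      (Finset.filter_subset _ _) (Finset.filter_subset _ _), Nat.cast_sum, Finset.mul_sum,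
      ← nsmul_eq_mul]
    refine Finset.card_nsmul_le_sum _ _ _ fun i hi => ?_
    obtain ⟨-, b2, -, -, b5, b6⟩ := hS.hY i hi
    have c1 := (hS.lr i hi).1.few Finset.subset_union_left (le_trans (by gcongr; linarith) b5)
      (by positivity)
    have c2 := (hS.lr i hi).1.few Finset.subset_union_right (le_trans (by gcongr; linarith) b6)
      (by positivity)
    have c3 := (Nat.cast_le (α := ℝ)).2 ((Finset.card_le_card (s := Y i) fun v hv => by
      simp only [Finset.mem_union, Finset.mem_filter, hv, true_and, ← not_le]; tauto).trans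
      ((Finset.card_union_le ((Y i).filter fun v => α * (U i).card ≤ dg (gr D) v (U i) ∧
      α * (U' i).card ≤ dg (gr D) v (U' i)) _).trans (Nat.add_le_add_left (Finset.card_union_le
      ((Y i).filter fun y => (dg (gr D) y (U i) : ℝ) < α * (U i).card)
      ((Y i).filter fun y => (dg (gr D) y (U' i) : ℝ) < α * (U' i).card)) _)))
    push_cast at c3
    nlinarith only [b2, c1, c2, c3, l2, l3, e6, (Y i).card.cast_nonneg (α := ℝ)]
  obtain ⟨i, hi, hv⟩ := Finset.mem_biUnion.1 hv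
  obtain ⟨-, v1, v2⟩ := Finset.mem_filter.1 hv
  obtain ⟨-, -, b3, b4, b5, b6⟩ := hS.hY i hi
  have s1 : nb (gr D) v (U i) ⊆ U i := fun u hu => (mem_nb.1 hu).1
  have s2 : nb (gr D) v (U' i) ⊆ U' i := fun u hu => (mem_nb.1 hu).1
  have w1 := mul_le_mul_of_nonneg_left v1 p0.le
  have w2 := mul_le_mul_of_nonneg_left ((mul_le_mul_of_nonneg_left b6 e0.le).trans v2) p0.le
  have w3 := mul_le_mul_of_nonneg_left b5 (pow_pos e0 (Fintype.card W + 1)).le
  have u0 := (U i).card.cast_nonneg (α := ℝ)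
  have e7 : 4 * (Fintype.card W + 1) * ε' ≤ α ^ (Fintype.card W + 1) :=
    e4.trans (mul_le_of_le_one_right (by positivity) l3)
  have w4 := mul_le_mul_of_nonneg_right e7 u0
  have w5 := mul_le_mul_of_nonneg_right e4 n0.le
  have w6 := mul_le_mul_of_nonneg_right (g2.trans (mul_le_mul_of_nonneg_left l2 (by positivity))) n0.le
  have w7 := mul_le_mul_of_nonneg_right g2 n0.le
  rw [pow_succ] at w3 w4 w5 w6 w7
  unfold dg at w1 w2
  refine (lr_count' (G := gr D) (R := outside H (I ∪ L)ᶜ) (C := fun a => if a ∈ I then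
    nb (gr D) v (U' i) else nb (gr D) v (U i)) e0.le l1 g0.le g1 (e := fun a => if a ∈ I then
    ε' * Fintype.card V else ε' * (U i).card) (I ∪ L) (fun a ha l e => ?_) fun a ha => ?_).trans
    (cnt_mono fun ζ h => ?_)
  · have hl : l ∈ I ∪ L := by_contra fun c => e.2.2 (Finset.mem_compl.2 c)
    by_cases c : a ∈ I
    · simp only [if_pos c, if_neg fun c' => hC.1 a c l c' e.1]
      exact (hS.lr i hi).2.symm.mono (fun _ _ _ _ => id) le_rfl le_rfl (by nlinarith only [hh, w1, w3, w4, w7]) s2 s1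
    · simp only [if_neg c, if_pos ((Finset.mem_union.1 hl).resolve_right fun c' =>
        hL' a ((Finset.mem_union.1 ha).resolve_left c) l c' e.1)]
      exact (hS.lr i hi).2.mono (fun _ _ _ _ => id) le_rfl le_rfl (by nlinarith only [hh, w2, w5, w6]) s1 s2
  · split_ifs
    exacts [⟨by positivity, by nlinarith only [hh, w2, w6, w5]⟩, ⟨by positivity, by nlinarith only [hh, w1, w3, w7, w4]⟩]
  · have := fun a ha => mem_cand.1 (h.1 a ha)
    refine ⟨⟨fun a ha => ?_, fun a ha => ?_, h.2.1, fun a ha b hb e =>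
      (this b hb).2 a ha ⟨e, Finset.notMem_compl.2 ha, Finset.notMem_compl.2 hb⟩⟩, fun a ha => ?_⟩
    · exact b4 (s2 (by simpa [ha] using (this a (Finset.mem_union_left _ ha)).1))
    · exact b3 (s1 (by simpa [hL a ha] using (this a (Finset.mem_union_right _ ha)).1))
    · have := (this a ha).1
      split_ifs at this <;> exact (mem_nb.1 this).2

lemma num2 {τ n Q : ℝ} (hτ : 0 < τ) (h1 : τ ≤ 1) (hn : 1 ≤ n) {S : Finset W} {t u j e : ℕ}
    (h : Q * n ^ 2 ≤ τ ^ e * n ^ S.card) (ht : t ≤ e) (hS : S.card ≤ u + j) :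
    Q / n ^ u ≤ τ ^ t * n ^ j / n ^ 2 := by
  rw [div_le_div_iff₀ (by positivity) (by positivity), mul_assoc, ← pow_add n, add_comm j]
  exact h.trans (mul_le_mul (pow_le_pow_of_le_one hτ.le h1 ht) (pow_le_pow_right₀ hn hS)
    (by positivity) (by positivity))

theorem val_tri [Nonempty V] (hC : IsCloud H I) {δ p τ τ' Q κ0 : ℝ}
    (hP : Par (Fintype.card W) α ε ε' β β')
    (hS : TS (gr D) α ε ε' β β' (δ * (p * Fintype.card V)) R A Z J Y U U')
    (hR : R ⊆ P) (hA : A ⊆ P) (hδ : 0 < δ) (hδ1 : δ ≤ 1) (hτ : 0 < τ)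
    (hτ' : 0 < τ') (t1 : τ' ≤ τ) (t2 : τ ≤ p) (hp1 : p ≤ 1) (hQ : 1 ≤ Q)
    (hJ : 1 ≤ Q * p * J.card) (hκ : 0 < κ0)
    (hκ' : Q ^ Fintype.card W / (τ' * (Fintype.card V : ℝ) ^ 2) ≤ κ0)
    (hn : Fintype.card W * Q ≤ gv (Fintype.card W) α β δ * (p * Fintype.card V))
    (s0 : ∀ S, 1 ≤ cross H I S → Nm H I τ (Fintype.card V) 1 S)
    (s4 : ∀ S : Finset W, 3 ≤ S.card → (∃ u ∈ S, NI H I u) → Q ^ Fintype.card W *
      (Fintype.card V : ℝ) ^ 2 ≤ τ' ^ (eIn H S - 1) * (Fintype.card V : ℝ) ^ S.card)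
    (E0 : Finset (Sym2 V)) :
    LSat (tests H I V hτ hκ) (fun e => Comp H I (E0 ∪ e) P Z) (eF H).card
      (Kv (Fintype.card W) (eF H).card (gv (Fintype.card W) α β δ)) τ' D := by
  classical
  obtain ⟨γ, g0, g1, g2, g3, g4, g5, g6, -, g8⟩ := hP.gv hδ hδ1
  obtain ⟨g, hg⟩ : ∃ x, x = gv (Fintype.card W) α β δ := ⟨_, rfl⟩
  rw [← hg] at g4 g5 g6 hn ⊢
  have n1 : (1 : ℝ) ≤ Fintype.card V := by exact_mod_cast Fintype.card_pos
  have n0 : (0 : ℝ) < Fintype.card V := by linarith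
  have hp := hτ.trans_le t2
  have hpn := mul_le_of_le_one_left n0.le hp1
  have p0 := pow_pos g0 (Fintype.card W)
  have hQh : 1 ≤ Q ^ Fintype.card W := one_le_pow₀ hQ
  obtain ⟨side, hs⟩ := exists_side hC
  obtain ⟨L, hL⟩ : ∃ L : Bool → Finset W, ∀ b a, a ∈ L b ↔ NI H I a ∧ side a = b :=
    ⟨fun b => univ.filter _, fun _ _ => by simp only [Finset.mem_filter, mem_univ, true_and]; rfl⟩
  have hL' : ∀ c, ∀ a ∈ L c, ∀ b ∈ L c, ¬ H.Adj a b := fun c a ha b hb e => by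
    rw [hL] at ha hb
    exact hs a b ⟨e, ha.1.notMem, hb.1.notMem⟩ (ha.2.trans hb.2.symm)
  have hW : ∀ a, a ∈ I ∪ L false ∪ L true ↔ a ∈ I ∨ NI H I a := fun a => by
    simp only [Finset.mem_union, hL]; cases side a <;> simp
  have hW' : ∀ a, a ∈ I ∨ NI H I a → a ∉ L true → a ∈ I ∪ L false := fun a h h' =>
    (Finset.mem_union.1 ((hW a).2 h)).resolve_right h'
  obtain ⟨T, a1, a2, a3⟩ := ts_link hC hP hS (fun a h => ((hL false a).1 h).1.notMem) (hL' false)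
    g0 g1 g2 ((le_mul_of_one_le_right (by positivity) hQ).trans (hn.trans (by gcongr)))
  have a4 : 4 * γ * Fintype.card V ≤ Q * T.card := by
    have := mul_le_mul_of_nonneg_left a2 (by linarith : 0 ≤ Q)
    have := mul_le_mul_of_nonneg_right hJ (by positivity : 0 ≤ δ * Fintype.card V)
    have := mul_le_mul_of_nonneg_right (g3.trans (mul_le_of_le_one_left hδ.le g8)) n0.le
    linarith
  have m0 : (0 : ℝ) < T.card := (mul_pos_iff_of_pos_left (by linarith)).1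
    (lt_of_lt_of_le (by positivity) a4)
  obtain ⟨Sg, hSg⟩ : ∃ Sg : (W → V) × (W → V) → Prop, ∀ σ, Sg σ ↔ TB H I (L false) D A Z σ.1 ∧
    (∀ l ∈ L true, σ.2 l ∈ T.filter fun v => TB H I (L false) D A Z σ.1 ∧
      ∀ a ∈ I ∪ L false, (gr D).Adj v (σ.1 a)) ∧ Set.InjOn σ.2 (L true) := ⟨_, fun _ => Iff.rfl⟩
  have u3 : g ≤ γ ^ Fintype.card W / 4 := by nlinarith only [g6, g0, g1, g4]
  have tot : g * (Fintype.card V : ℝ) ^ Fintype.card W * (g ^ Fintype.card W *
      ((T.card / Fintype.card V : ℝ) ^ (L true).card * (Fintype.card V : ℝ) ^ Fintype.card W)) ≤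
      cnt univ Sg := by
    have := cnt_markov p0.le (Finset.card_pos.1 (Nat.cast_pos.1 m0)) a3
    rw [Fintype.card_fun, Nat.cast_pow] at this
    refine le_trans (mul_le_mul_of_nonneg_right (le_trans (by gcongr; linarith only [g4, u3]) this)
      (by positivity)) (cnt_lower fun ζ hζ => ?_)
    rw [cnt_eq_card] at hζ
    obtain ⟨v, hv⟩ := Finset.card_pos.1 (Nat.cast_pos.1 (lt_of_lt_of_le (by positivity) hζ))
    refine le_trans ?_ ((inj_count _ (L true) (c := g * T.card) (by positivity) fun _ _ =>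
      le_trans ?_ hζ).trans (cnt_mono fun χ b => (hSg _).2 ⟨(Finset.mem_filter.1 hv).2.1, b⟩))
    · rw [mul_div_assoc, mul_pow, mul_assoc]
      exact mul_le_mul_of_nonneg_right (pow_le_pow_of_le_one g4.le (g5.trans g1)
        (Finset.card_le_univ _)) (by positivity)
    · have : Fintype.card W * Q ≤ γ ^ Fintype.card W / 4 * T.card * Q := by
        have := mul_le_mul_of_nonneg_left a4 p0.le
        have := mul_le_mul_of_nonneg_left hpn g4.le
        have : 0 ≤ γ ^ Fintype.card W * γ * Fintype.card V := by positivity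
        have : g * Fintype.card V = γ ^ Fintype.card W * γ / 4 * Fintype.card V := by rw [g6]
        linarith
      have := le_of_mul_le_mul_right this (by linarith only [hQ])
      nlinarith only [this, u3]
  have hE := Finset.filter_subset (fun e => ∀ a ∈ e, a ∈ I ∪ L false ∪ L true) (eF H)
  have hle : ∀ S, (((eF H).filter fun e => ∀ a ∈ e, a ∈ I ∪ L false ∪ L true).filter
      fun e => ∀ a ∈ e, a ∈ S).card ≤ eIn H S := fun S => eIn_eq H S ▸
    Finset.card_le_card (Finset.filter_subset_filter _ hE)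
  have hNI : ∀ S ⊆ I ∪ L false ∪ L true, 1 ≤ eIn H S → ∃ u ∈ S, NI H I u := fun S h e => by
    rw [eIn_eq] at e
    obtain ⟨e, he⟩ := Finset.card_pos.1 e
    induction e using Sym2.ind with
    | h a b =>
      obtain ⟨c1, c2⟩ := Finset.mem_filter.1 he
      by_contra c
      push Not at c
      exact hC.1 a (((hW a).1 (h (c2 a (by simp)))).resolve_right (c a (c2 a (by simp)))) b
        (((hW b).1 (h (c2 b (by simp)))).resolve_right (c b (c2 b (by simp)))) (mem_eF.1 c1)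
  refine lsat_of (lt_of_lt_of_le (by positivity) tot) (fun σ => (L true).piecewise σ.2 σ.1) _ hE _
    (fun e he => (Finset.mem_filter.1 he).2) (fun σ hσ => ?_) (by positivity) hτ hτ'.le hκ
    (fun S S' => Q ^ (S ∩ L true).card / (Fintype.card V : ℝ) ^ ((S ∩ L true).card +
      (S \ L true ∪ S' ∩ I).card)) (fun S hS' S' t B hB => ?_) (fun S hS' t ht t0 => ?_)
    fun S hS' t ht t0 S' b1 b2 => ?_
  · obtain ⟨⟨b1, b2, b3, b4⟩, b5, b6⟩ := (hSg σ).1 hσ
    have e1 := fun a h => (L true).piecewise_eq_of_mem σ.2 σ.1 (i := a) h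
    have e2 := fun a h => (L true).piecewise_eq_of_notMem σ.2 σ.1 (i := a) h
    have f0 := fun a h => Finset.mem_filter.1 (b5 a h)
    have f1 : ∀ a, a ∈ I ∨ NI H I a → ∀ b, b ∈ I ∨ NI H I b → H.Adj a b → (gr D).Adj
        ((L true).piecewise σ.2 σ.1 a) ((L true).piecewise σ.2 σ.1 b) := fun a ha b hb e => by
      by_cases c : a ∈ L true <;> by_cases c' : b ∈ L true
      · exact absurd e (hL' _ a c b c')
      · rw [e1 a c, e2 b c']; exact (f0 a c).2.2 b (hW' b hb c')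
      · rw [e1 b c', e2 a c]; exact ((f0 b c').2.2 a (hW' a ha c)).symm
      · rw [e2 a c, e2 b c']; exact b4 a (hW' a ha c) b (hW' b hb c') e
    have f2 : Set.InjOn ((L true).piecewise σ.2 σ.1) {a | a ∈ I ∨ NI H I a} := fun a ha b hb e => by
      by_cases c : a ∈ L true <;> by_cases c' : b ∈ L true
      · exact b6 c c' (by rwa [e1 a c, e1 b c'] at e)
      · exact absurd (by rwa [e1 a c, e2 b c'] at e) ((f0 a c).2.2 b (hW' b hb c')).ne
      · exact absurd (by rwa [e1 b c', e2 a c] at e) ((f0 b c').2.2 a (hW' a ha c)).ne'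
      · exact b3 (hW' a ha c) (hW' b hb c') (by rwa [e2 a c, e2 b c'] at e)
    refine ⟨f2.mono fun a ha => (hW a).1 ha, fun x hx => ?_, fun z hz => ?_, fun a ha => ?_, f2,
      fun a b e ha hb => gr_adj.2 ⟨Finset.mem_union_right _ (Finset.mem_image.2 ⟨s(a, b),
      Finset.mem_filter.2 ⟨mem_eF.2 e, by simp only [Sym2.mem_iff, hW]; rintro _ (rfl | rfl) <;>
      assumption⟩, rfl⟩), (f1 a ha b hb e).ne⟩⟩
    · obtain ⟨e, he, rfl⟩ := Finset.mem_image.1 hx
      induction e using Sym2.ind with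
      | h a b =>
        obtain ⟨c1, c2⟩ := Finset.mem_filter.1 he
        exact (gr_adj.1 (f1 a ((hW a).1 (c2 a (by simp))) b ((hW b).1 (c2 b (by simp)))
          (mem_eF.1 c1))).1
    · rw [e2 z fun c => ((hL _ _).1 c).1.notMem hz]; exact b1 z hz
    · by_cases c : a ∈ L true
      · rw [e1 a c]; exact hR (a1 (f0 a c).1)
      · rw [e2 a c]
        exact hA (b2 a ((Finset.mem_union.1 (hW' a (.inr ha) c)).resolve_left ha.notMem))
  · obtain ⟨b, hb⟩ : ∃ x : ℝ, x = 2 * (eF H).card + 1 := ⟨_, rfl⟩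
    have b1 : 1 ≤ b := by rw [hb]; linarith [(eF H).card.cast_nonneg (α := ℝ)]
    have b2 : B.card ≤ b := by
      rw [hb]; exact_mod_cast hB.trans ((Nat.mul_le_mul_left _ (Finset.card_le_card hE)).trans
        (Nat.le_succ _))
    refine (cnt_upper (Q := fun ζ => (∀ a ∈ S \ L true, ζ a ∈ B) ∧ ∀ a ∈ S' ∩ I, ζ a = t a)
      (fun ζ χ h => ⟨fun a ha => ?_, fun a ha => ?_⟩) fun ζ _ => cnt_le_prod (fun a =>
      if a ∈ S ∩ L true then B else if a ∈ L true then T else univ) (fun a => if a ∈ S ∩ L true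
      then b else if a ∈ L true then T.card else Fintype.card V) (fun a => ?_)
      fun χ h a => ?_).trans ?_
    · have := h.2.1 a (Finset.mem_sdiff.1 ha).1
      rwa [Finset.piecewise_eq_of_notMem _ _ _ (Finset.mem_sdiff.1 ha).2] at this
    · have := h.2.2 a ha
      rwa [Finset.piecewise_eq_of_notMem _ _ _ fun c =>
        ((hL _ _).1 c).1.notMem (Finset.mem_inter.1 ha).2] at this
    · split_ifs
      exacts [b2, le_rfl, le_rfl]
    · split_ifs with e e'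
      · have := h.2.1 a (Finset.mem_inter.1 e).1
        rwa [Finset.piecewise_eq_of_mem _ _ _ (Finset.mem_inter.1 e).2] at this
      exacts [(Finset.mem_filter.1 (((hSg _).1 h.1).2.1 a e')).1, mem_univ _]
    rw [prod_two Finset.inter_subset_right _ m0.ne' n0.ne', ← hb]
    have c1 := cnt_fix (S := S \ L true) (S' := S' ∩ I) b1 b2 t
    have c2 := Finset.card_le_univ (S ∩ L true)
    have c3 := Finset.card_le_univ (S \ L true ∪ S' ∩ I)
    generalize (S ∩ L true).card = u at *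
    generalize (S \ L true ∪ S' ∩ I).card = j at *
    generalize (Fintype.card V : ℝ) = n at *
    have c4 : b / T.card ≤ b * Q / (g * n) := by
      rw [div_le_div_iff₀ m0 (by positivity), mul_assoc]
      exact mul_le_mul_of_nonneg_left (by nlinarith only [g0, g5, a4, n1]) (by linarith)
    have c5 := pow_le_pow_of_le_one g4.le (g5.trans g1) c2
    calc _ ≤ (b / n) ^ j * n ^ Fintype.card W * ((b * Q / (g * n)) ^ u *
          ((T.card / n) ^ (L true).card * n ^ Fintype.card W)) := by gcongr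
      _ = b ^ (j + u) / (g ^ u * g ^ (Fintype.card W + 1)) * (Q ^ u / n ^ (u + j)) *
          (g * n ^ Fintype.card W * (g ^ Fintype.card W * ((T.card / n) ^ (L true).card *
          n ^ Fintype.card W))) := by simp only [div_pow, mul_pow, pow_add]; field_simp
      _ ≤ _ := by
          rw [show 2 * Fintype.card W + 1 = Fintype.card W + (Fintype.card W + 1) by ring,
            pow_add g (Fintype.card W) (Fintype.card W + 1)]
          gcongr; omega
  · refine le_trans ?_ (mul_le_mul_of_nonneg_left hκ' (by positivity))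
    have c1 := t0.trans (ht.trans (hle S))
    obtain ⟨t, rfl⟩ := Nat.exists_eq_add_of_le t0
    have c2 : 1 * (Fintype.card V : ℝ) ^ 2 ≤ τ' ^ (eIn H S - 1) * (Fintype.card V : ℝ) ^ S.card := by
      by_cases c : 3 ≤ S.card
      · exact le_trans (by gcongr) (s4 S c (hNI S hS' c1))
      · simp [eIn_small (H := H) (S := S) (by omega) c1]
    have c3 := num2 hτ' (by linarith) n1 (t := t) (j := 0) (u := S.card) c2
      (by have := ht.trans (hle S); omega) le_rfl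
    rw [Finset.empty_inter, Finset.union_empty, Finset.card_inter_add_card_sdiff, div_eq_mul_one_div]
    refine (mul_le_mul (pow_le_pow_right₀ hQ (Finset.card_le_univ _)) c3 (by positivity)
      (by positivity)).trans_eq ?_
    rw [pow_add]; field_simp
  · rw [mul_div_assoc', ← mul_assoc]
    rcases Nat.eq_zero_or_pos t with rfl | t1'
    · simp only [t0 rfl, Finset.empty_inter, Finset.card_empty, pow_zero, Finset.empty_sdiff,
        Finset.empty_union, zero_add, one_mul]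
      exact num2 hτ (by linarith) n1 (s0 S' b2) (by omega)
        (Finset.card_inter_add_card_sdiff _ _).ge
    obtain ⟨u, c1, c2⟩ := hNI S hS' (t1'.trans_le (ht.trans (hle S)))
    obtain ⟨l, c3, c4, z, c5, c6, -⟩ := cross_pos hC b2
    have c7 := cross_add hC (fun a ha => (hW a).1 (hS' ha)) b1
      (fun e he => mem_eF.2 (mem_cE.1 he).1)
    rw [← eIn_eq, ← eIn_eq] at c7
    refine le_trans (by gcongr; exact Finset.card_le_univ _) ((num2 hτ' (by linarith) n1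
      (t := t + (cross H I S' - 1)) (j := (S' \ I).card) (s4 (S ∪ S') (Finset.two_lt_card_iff.2
      ⟨u, l, z, by simp [c1], by simp [c3], by simp [c5], fun e => b1 l c3 (e ▸ c2),
      fun e => c2.notMem (e ▸ c6), fun e => c4 (e ▸ c6)⟩) ⟨u, by simp [c1], c2⟩)
      (by have := ht.trans (hle S); omega) ?_).trans (by rw [pow_add]; gcongr))
    refine le_trans (Finset.card_le_card fun a => ?_) ((Finset.card_union_le _ _).trans
      (Nat.add_le_add_right (Finset.card_union_le _ _) _))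
    simp only [Finset.mem_union, Finset.mem_inter, Finset.mem_sdiff]; tauto

end tri

def tests0 {κ0 : ℝ} (h : 0 < κ0) : Tests Unit Unit :=
  ⟨fun _ _ => True, (), fun _ => κ0, 1, fun _ => trivial, fun _ => h,
    fun _ => cnt_le_card (t := univ) fun _ _ _ => mem_univ _⟩

lemma LHyp.hyp {ι : Type} [Fintype ι] [DecidableEq ι] {τ N K : ℝ} (hτ : 0 < τ) (hN : 0 < N)
    {w : Finset ι × Unit → ℝ} {k : ℕ} {D : Finset ι}
    (h : LHyp (tests0 (by positivity : 0 < 1 / (τ * N))) w k K τ D) :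
    Hyp (fun e => w (e, ())) k K τ N := by
  have e : ∀ T, hdeg (fun e => w (e, ())) T = ldeg (tests0 (by positivity : 0 < 1 / (τ * N))) w T () :=
    fun T => by simp [hdeg, ldeg, tests0, Fintype.sum_prod_type]
  have e0 : hdeg (fun e => w (e, ())) ∅ = ∑ x, w x := by simp [hdeg, Fintype.sum_prod_type]
  refine ⟨fun _ => h.nonneg _, fun _ c => (h.unif _ c).1, e0 ▸ h.pos, fun T hT => ?_⟩
  rw [e, e0]
  refine (h.deg T () (.inl hT.ne_empty)).trans_eq ?_
  obtain ⟨t, ht⟩ := Nat.exists_eq_add_one_of_ne_zero hT.card_pos.ne'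
  simp only [tests0, ht, Nat.add_sub_cancel, pow_succ]
  field_simp

theorem sat_of_spread [Nonempty V] (hC : IsCloud H I) {V' P c : Finset V} {E0 D : Finset (Sym2 V)}
    {a K τ κ0 : ℝ} (hτ : 0 < τ) (hτ1 : τ ≤ 1) (hκ : 0 < κ0) (hc : c ⊆ V' \ P) (hne : c.Nonempty)
    (hD : ∀ z ∈ c, a * Fintype.card V ≤ dg (gr D) z (V' \ P)) (ha : 0 < a) (hK : 0 ≤ K)
    (hn : 2 * (Fintype.card W : ℝ) ≤ a * Fintype.card V)
    (h : ∀ Z ⊆ c, (a / 2) ^ Fintype.card W / 2 * c.card ≤ Z.card →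
      Spr (tests H I V hτ hκ) (Comp H I E0 (V' ∩ P) Z) K) :
    Sat H V' E0 D (2 ^ Fintype.card W * ((2 * (eF H).card + 1) ^ (2 * Fintype.card W) * K /
      ((a / 2) ^ Fintype.card W / 2))) τ := by
  classical
  have n0 : (0 : ℝ) < Fintype.card V := by exact_mod_cast Fintype.card_pos
  obtain ⟨γ, hγ⟩ : ∃ x, x = (a / 2) ^ Fintype.card W / 2 := ⟨_, rfl⟩
  have g0 : 0 < γ := by rw [hγ]; positivity
  let Zv := fun v : W → V => c.filter fun z =>
    (∀ l ∈ (univ : Finset W), v l ∈ nb (gr D) z (V' \ P)) ∧ Set.InjOn v (univ : Finset W)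
  have a1 := cnt_markov (B := W → V) (c := (a / 2) ^ Fintype.card W) (by positivity) hne
    fun z hz => le_trans (by
    rw [Fintype.card_fun, Nat.cast_pow, mul_div_assoc, div_self n0.ne', mul_one]; rfl)
    (inj_count (W := W) (fun _ => nb (gr D) z (V' \ P)) univ (c := a / 2 * Fintype.card V)
    (by positivity) fun _ _ => le_trans (by linarith) (hD z hz))
  simp only [cnt_eq_card c] at a1
  rw [← hγ, Fintype.card_fun, Nat.cast_pow] at a1
  rw [← hγ] at h ⊢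
  choose! μ m1 m2 m3 m4 using fun v (hv : γ * c.card ≤ (Zv v).card) =>
    h (Zv v) (Finset.filter_subset _ _) hv
  let ω : (W → V) × (W → V) → ℝ := fun σ =>
    one (γ * c.card ≤ (Zv σ.1).card) * (μ σ.1 σ.2 / ∑ l, μ σ.1 l)
  have hω : ∀ σ, ω σ ≠ 0 → γ * c.card ≤ (Zv σ.1).card ∧ μ σ.1 σ.2 ≠ 0 := fun σ e =>
    ⟨by_contra fun c => e (by simp only [ω, one_neg' c, zero_mul]),
      fun c => e (by simp only [ω, c, zero_div, mul_zero])⟩
  have tot : ∑ σ, ω σ = cnt univ fun v => γ * c.card ≤ (Zv v).card := by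
    rw [Fintype.sum_prod_type, cnt_eq_sum]
    refine Finset.sum_congr rfl fun v _ => ?_
    by_cases e : γ * c.card ≤ (Zv v).card
    · simp only [ω, ← Finset.mul_sum, ← Finset.sum_div, div_self (m2 v e).ne', mul_one]
    · simp only [ω, one_neg' e, zero_mul, Finset.sum_const_zero]
  have hE : ((cE H I).filter fun e => ∀ a ∈ e, a ∈ univ.filter fun a => ¬ NI H I a) ⊆ eF H :=
    fun e he => mem_eF.2 (mem_cE.1 (Finset.mem_filter.1 he).1).1
  have key : ∀ σ, ω σ ≠ 0 → Comp H I E0 (V' ∩ P) (Zv σ.1) σ.2 ∧ Function.Injective σ.1 ∧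
      (∀ a, σ.1 a ∈ V' \ P) ∧ ∀ z ∈ I, ∀ a, (gr D).Adj (σ.2 z) (σ.1 a) := fun σ e => by
    obtain ⟨b1, b2⟩ := hω σ e
    obtain ⟨z, hz⟩ := Finset.card_pos.1 (Nat.cast_pos.1 (lt_of_lt_of_le
      (mul_pos g0 (Nat.cast_pos.2 hne.card_pos)) b1))
    have b3 := (Finset.mem_filter.1 hz).2
    exact ⟨m3 _ b1 _ b2, fun x y e => b3.2 (by simp) (by simp) e,
      fun a => (mem_nb.1 (b3.1 a (mem_univ _))).1, fun z hz a =>
      (mem_nb.1 ((Finset.mem_filter.1 ((m3 _ b1 _ b2).1 z hz)).2.1 a (mem_univ _))).2⟩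
  have e1 := fun (σ : (W → V) × (W → V)) a h => I.piecewise_eq_of_mem σ.2 σ.1 (i := a) h
  have e2 := fun (σ : (W → V) × (W → V)) a h => I.piecewise_eq_of_notMem σ.2 σ.1 (i := a) h
  have main := lhyp_pattern (tests0 (by positivity : 0 < 1 / (τ *
    (Fintype.card V : ℝ) ^ 2))) ω (fun σ => by
      by_cases e : γ * c.card ≤ (Zv σ.1).card
      · exact mul_nonneg (one_nonneg _) (div_nonneg (m1 _ e _) (m2 _ e).le)
      · simp only [ω, one_neg' e, zero_mul, le_refl])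
    (tot ▸ lt_of_lt_of_le (by positivity) a1) (fun σ => I.piecewise σ.2 σ.1) (fun _ => ()) _ _
    (fun e (he : e ∈ (cE H I).filter fun e => ∀ a ∈ e, a ∈ univ.filter fun a => ¬ NI H I a) =>
    (Finset.mem_filter.1 he).2) (D := D) (fun σ e => ⟨fun a _ b _ f => ?_, fun x hx => ?_⟩)
    (K := (2 * (eF H).card + 1) ^ (2 * Fintype.card W) * K / γ) (by positivity) hτ.le
    fun S hS t ht _ o ho B hB => ?_
  · obtain ⟨w, w1, w2⟩ := main
    refine ⟨_, Finset.card_le_card hE, _, w1.hyp hτ (by positivity), fun e he => (w1.unif _ he).2,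
      fun I' hI e he hsub => ?_⟩
    obtain ⟨σ, b, ⟨⟩⟩ := w2 _ he
    obtain ⟨⟨b1, b2, b3, b4⟩, b5, b6, b7⟩ := key σ b
    have b8 : ∀ z ∈ I, ∀ l, H.Adj z l → ¬ NI H I l → (gr (E0 ∪ I')).Adj (σ.2 z) (σ.1 l) :=
      fun z hz l f' hl => gr_adj.2 ⟨Finset.mem_union_right _ (hsub (
      Finset.mem_image.2 ⟨s(z, l), Finset.mem_filter.2 ⟨mem_cE.2 ⟨f', z, hz, by simp⟩, by
        simpa [hl] using fun c : NI H I z => c.notMem hz⟩, by
        rw [Sym2.map_mk, e1 σ z hz, e2 σ l fun c => hC.1 z hz l c f']⟩)), (b7 z hz l).ne⟩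
    refine Finset.notMem_empty (fun a => if a ∈ I ∨ NI H I a then σ.2 a else σ.1 a) (hI ▸
      Finset.mem_filter.2 ⟨mem_homs.2 ⟨fun a => ?_, fun a b e => ?_⟩, fun a b e => ?_⟩)
    · split_ifs with c
      · exact c.elim (fun c => (Finset.mem_sdiff.1 (hc (Finset.mem_filter.1 (b1 a c)).1)).1)
          fun c => (Finset.mem_inter.1 (b2 a c)).1
      · exact (Finset.mem_sdiff.1 (b6 a)).1
    · have f : ∀ a b, H.Adj a b → ¬ (b ∈ I ∨ NI H I b) → a ∈ I := fun a b e c =>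
        by_contra fun c' => c (.inr ⟨a, e.symm, fun d => c (.inl d), c'⟩)
      split_ifs with c c' c'
      · exact gr_mono Finset.subset_union_left (b4 a b e c c')
      · exact b8 a (f a b e c') b e fun d => c' (.inr d)
      · exact (b8 b (f b a e.symm c) a e.symm fun d => c (.inr d)).symm
      · exact absurd (.inl (f a b e c')) c
    · have f : ∀ a b, a ∈ I ∨ NI H I a → σ.2 a ≠ σ.1 b := fun a b c => c.elim
        (fun c => (b7 a c b).ne) fun c e => (Finset.mem_sdiff.1 (b6 b)).2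
        (e ▸ (Finset.mem_inter.1 (b2 a c)).2)
      simp only at e
      split_ifs at e with c c' c'
      exacts [b3 c c' e, absurd e (f a b c), absurd e.symm (f b a c'), b5 e]
  · obtain ⟨⟨-, -, b3, -⟩, b5, -, b7⟩ := key σ e
    by_cases c : a ∈ I <;> by_cases c' : b ∈ I
    · exact b3 (.inl c) (.inl c') (by rwa [e1 σ a c, e1 σ b c'] at f)
    · exact absurd (by rwa [e1 σ a c, e2 σ b c'] at f) (b7 a c b).ne
    · exact absurd (by rwa [e2 σ a c, e1 σ b c'] at f) (b7 b c' a).ne'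
    · exact b5 (by rwa [e2 σ a c, e2 σ b c'] at f)
  · obtain ⟨x, hx', rfl⟩ := Finset.mem_image.1 hx
    obtain ⟨l, z, b1, b2, -, rfl⟩ := cE_rep hC (Finset.mem_filter.1 hx').1
    rw [Sym2.map_mk, e1 σ z b2, e2 σ l b1]
    exact (gr_adj.1 ((key σ e).2.2.2 z b2 l).symm).1
  obtain ⟨b, hb⟩ : ∃ x : ℝ, x = 2 * (eF H).card + 1 := ⟨_, rfl⟩
  have b1 : 1 ≤ b := by rw [hb]; linarith [(eF H).card.cast_nonneg (α := ℝ)]
  have b2 : B.card ≤ b := by
    rw [hb]; exact_mod_cast hB.trans ((Nat.mul_le_mul_left _ (Finset.card_le_card hE)).trans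
      (Nat.le_succ _))
  have t1 := ho.resolve_right fun c => c rfl
  have t2 : t ≤ cross H I S := ht.trans (cross_eq hC S ▸
    Finset.card_le_card (Finset.filter_subset_filter _ (Finset.filter_subset _ _)))
  obtain ⟨k, hk⟩ : ∃ x, x = τ ^ (cross H I S - 1) * (Fintype.card V : ℝ) ^ (S \ I).card /
    (Fintype.card V : ℝ) ^ 2 := ⟨_, rfl⟩
  have k0 : 0 ≤ k := by rw [hk]; positivity
  let 𝒯 := Fintype.piFinset fun a => if a ∈ S ∩ I then B.image some else {none}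
  have c1 : (𝒯.card : ℝ) ≤ b ^ Fintype.card W := by
    rw [Fintype.card_piFinset, Nat.cast_prod, ← Finset.card_univ, ← Finset.prod_const]
    refine Finset.prod_le_prod (fun _ _ => by positivity) fun a _ => ?_
    split_ifs
    exacts [(Nat.cast_le.2 Finset.card_image_le).trans b2, by simpa using b1]
  have c2 : ∀ v, ∑ l, one ((∀ a ∈ S, I.piecewise l v a ∈ B) ∧ True) * ω (v, l) ≤
      one (∀ a ∈ S \ I, v a ∈ B) * (b ^ Fintype.card W * (K * k)) := fun v => by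
    by_cases e : γ * c.card ≤ (Zv v).card ∧ ∀ a ∈ S \ I, v a ∈ B
    swap
    · refine (Finset.sum_eq_zero fun l _ => ?_).trans_le (mul_nonneg (one_nonneg _) (by positivity))
      by_contra f
      refine e ⟨(hω _ (right_ne_zero_of_mul f)).1, fun a ha => by_contra fun g =>
        left_ne_zero_of_mul f (one_neg' fun d => g ?_)⟩
      rw [Finset.mem_sdiff] at ha
      exact I.piecewise_eq_of_notMem l v ha.2 ▸ d.1 a ha.1
    simp only [ω, one_pos' e.1, one_pos' e.2, one_mul, ← mul_div_assoc, ← Finset.sum_div]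
    rw [div_le_iff₀ (m2 v e.1), mul_assoc]
    refine le_trans (Finset.sum_le_sum (g := fun l => ∑ y ∈ 𝒯,
      if (tests H I V hτ hκ).hit (some (S, y)) l then μ v l else 0) fun l _ => ?_) ?_
    · have f : ∀ y ∈ 𝒯, 0 ≤ if (tests H I V hτ hκ).hit (some (S, y)) l then μ v l else 0 :=
        fun _ _ => by split_ifs; exacts [m1 v e.1 l, le_rfl]
      by_cases d : (∀ a ∈ S, I.piecewise l v a ∈ B) ∧ True
      · rw [one_pos' d, one_mul]
        refine le_trans (if_pos ?_).ge (Finset.single_le_sum f (a := fun a =>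
          if a ∈ S ∩ I then some (l a) else none) (Fintype.mem_piFinset.2 fun a => ?_))
        · rintro _ ⟨⟩
          exact ⟨fun a ha => (Finset.mem_filter.1 (hS ha)).2, t1.trans t2, rfl⟩
        · split_ifs with f
          · rw [Finset.mem_inter] at f
            exact Finset.mem_image_of_mem _ (I.piecewise_eq_of_mem l v f.2 ▸ d.1 a f.1)
          · simp
      · rw [one_neg' d, zero_mul]; exact Finset.sum_nonneg f
    · rw [Finset.sum_comm]
      refine (Finset.sum_le_card_nsmul _ _ (K * k * ∑ l, μ v l) fun y _ =>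
        hk ▸ m4 v e.1 (some (S, y)) (by simp [tests])).trans ?_
      rw [nsmul_eq_mul]
      exact mul_le_mul_of_nonneg_right c1 (by have := m2 v e.1; positivity)
  rw [Fintype.sum_prod_type, tot, ← hb]
  refine (Finset.sum_le_sum fun v _ => c2 v).trans ?_
  rw [← Finset.sum_mul, ← cnt_eq_sum]
  have c3 := cnt_fix (S := S \ I) (S' := ∅) b1 b2 fun _ => Classical.arbitrary V
  simp only [Finset.notMem_empty, false_imp_iff, implies_true, and_true, Finset.union_empty] at c3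
  obtain ⟨t, rfl⟩ := Nat.exists_eq_add_of_le t1
  have c4 := pow_le_pow_of_le_one hτ.le hτ1 (by omega : t ≤ cross H I S - 1)
  have c5 := pow_le_pow_right₀ b1 (Finset.card_le_univ (S \ I))
  calc _ ≤ (b / Fintype.card V) ^ (S \ I).card * (Fintype.card V : ℝ) ^ Fintype.card W *
        (b ^ Fintype.card W * (K * k)) := by gcongr
    _ = b ^ (S \ I).card * b ^ Fintype.card W * K / γ * (τ * τ ^ (cross H I S - 1)) *
        (1 / (τ * (Fintype.card V : ℝ) ^ 2)) * (γ * (Fintype.card V : ℝ) ^ Fintype.card W) := by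
        rw [hk, div_pow]; field_simp
    _ ≤ _ := by
        rw [two_mul (Fintype.card W), pow_add b, pow_add τ, pow_one]
        simp only [tests0]
        gcongr

end Pool.Agent.Lib.MP_46505f_co
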