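import Pool.Agent.Lib.MP_46505f_co.Lower
import Pool.Agent.Lib.MP_46505f_co.Val

set_option autoImplicit false
set_option linter.unusedSectionVars false
open Finset Filter Topology
open Pool.Agent.Lib.MP_eaf82e_pr

namespace Pool.Agent.Lib.MP_46505f_co

/- Forests, very small p, and subgraphs that need not be spanning. -/

variable {W : Type} [Fintype W] [DecidableEq W] {H : SimpleGraph W} {p : ℕ → unitInterval}
  {span : Prop} {d : ℝ}

lemma acyc_side (hH : H.IsAcyclic) : ∃ side : W → Bool, ∀ a b, H.Adj a b → side a ≠ side b := by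
  obtain ⟨c⟩ := hH.colorable_two
  exact ⟨fun a => finTwoEquiv (c a), fun a b h e => c.valid h (finTwoEquiv.injective e)⟩

theorem adm_forest (hH : H.IsAcyclic) : Adm H p span d := by
  suffices h : ∃ C, ∀ (V : Type) [Fintype V] [DecidableEq V] (F : SimpleGraph V) (X : Finset V),
      ¬ Col F X C → (embs H F X).Nonempty by
    obtain ⟨C, h⟩ := h
    refine adm_of (C := C) (tendsto_const_nhds.congr fun n => (Pr_false _ ?_).symm)
    rintro ω ⟨V', E, -, a1, -, a2⟩
    exact (h _ _ _ a2).ne_empty a1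
  rcases isEmpty_or_nonempty W with hW | ⟨⟨a0⟩⟩
  · exact ⟨0, fun V _ _ F X _ => ⟨isEmptyElim, by simp [embs, mem_homs, Function.Injective]⟩⟩
  obtain ⟨R, -⟩ := exists_rooting hH a0
  obtain ⟨side, hs⟩ := acyc_side hH
  obtain ⟨β, -, C, h⟩ := zykov_ex R side hs (fun (_ _ : Unit) => true) one_pos
  refine ⟨C, fun V _ _ F X hc => ?_⟩
  obtain ⟨θ, hθ⟩ := h V F X (fun _ => univ) hc (by simp)
  obtain ⟨a1, a2, -⟩ := mem_zgood.1 hθ
  exact ⟨θ (), Finset.mem_filter.2 ⟨a1 (), fun a b e => (Prod.ext_iff.1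
    (@a2 ((), a) ((), b) e)).2⟩⟩

lemma adm_core {ε : ℝ} (e0 : 0 < ε) (e1 : ε ≤ 1) {C : ℕ} (h : ∀ᶠ n : ℕ in atTop,
    (1 + ε) * (p n * n) + (2 + 20 / ε) ≤ max (d * (p n * n)) C) : Adm H p span d := by
  refine adm_of (C := C) (squeeze_zero' (Eventually.of_forall fun n => Pr_nonneg (isP_p p n) _) ?_
    tendsto_one_div_atTop_nhds_zero_nat)
  filter_upwards [h, ev_rpow le_rfl 16 1 one_pos one_pos] with n a1 a2
  have := Pr_core (V := Fin n) (p n).2.1 (p n).2.2 e0 e1 (by simpa using a2)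
  rw [Fintype.card_fin] at this
  refine (Pr_mono (isP_p p n) fun ω ⟨V', E, b1, _, b2, b3⟩ c => ?_).trans this
  rcases le_max_iff.1 a1 with e | e
  · obtain ⟨v, hv, c1⟩ := c.mono (gr_mono b1) Subset.rfl e V' (subset_univ _)
      (nonempty_of_not_col b3)
    exact absurd (b2 v hv) (not_le.2 c1)
  · exact b3 (col_of_noCore _ (c.mono (gr_mono b1) (subset_univ _) e))

theorem adm_bdd {K : ℝ} (h : ∀ᶠ n : ℕ in atTop, (p n : ℝ) * n ≤ K) : Adm H p span d :=
  adm_core one_pos le_rfl (C := ⌈2 * K + 22⌉₊) (h.mono fun n hn => le_max_of_le_right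
    (le_trans (by linarith) (Nat.le_ceil _)))

theorem adm_one' (hd : 1 < d) : Adm H p span d := by
  obtain ⟨ε, ⟨e1, e2⟩, e0⟩ := (((ev_small 2 (sub_pos.2 hd)).and (ev_small 1 one_pos)).and
    self_mem_nhdsWithin).exists
  replace e0 : 0 < ε := e0
  refine adm_core e0 (by linarith) (C := ⌈2 * ((2 + 20 / ε) / ε) + (2 + 20 / ε)⌉₊)
    (Eventually.of_forall fun n => ?_)
  have := pn_nonneg p n
  rcases le_total ((p n : ℝ) * n) ((2 + 20 / ε) / ε) with h | h
  · exact le_max_of_le_right (le_trans (by nlinarith only [h, e2, this]) (Nat.le_ceil _))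
  · rw [div_le_iff₀ e0] at h
    exact le_max_of_le_left (by nlinarith)

variable {V : Type} [Fintype V] [DecidableEq V]

lemma peel (F : SimpleGraph V) (δ : ℝ) : ∀ s : ℕ, ∃ X : Finset V, X.card ≤ s ∧
    eb F X (univ \ X) ≤ X.card * δ ∧ (X.card = s ∨ ∀ v ∈ univ \ X, δ ≤ dg F v (univ \ X))
  | 0 => ⟨∅, by simp, by simp, Or.inl rfl⟩
  | s + 1 => by
    obtain ⟨X, h1, h2, h3⟩ := peel F δ s
    by_cases c : ∀ v ∈ univ \ X, δ ≤ dg F v (univ \ X)
    · exact ⟨X, by omega, h2, Or.inr c⟩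
    push Not at c
    obtain ⟨v, hv, c⟩ := c
    have a1 := (Finset.mem_sdiff.1 hv).2
    have a2 : ∀ u, (dg F u (univ \ insert v X) : ℝ) ≤ dg F u (univ \ X) := fun u => Nat.cast_le.2
      (dg_mono le_rfl u (Finset.sdiff_subset_sdiff Subset.rfl (Finset.subset_insert _ _)))
    refine ⟨insert v X, by rw [Finset.card_insert_of_notMem a1]; omega, ?_, Or.inl ?_⟩
    · have := Finset.sum_le_sum fun u (_ : u ∈ X) => a2 u
      rw [eb, Finset.sum_insert a1, Finset.card_insert_of_notMem a1]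
      push_cast
      linarith [a2 v]
    · rw [Finset.card_insert_of_notMem a1, h3.resolve_right fun h => absurd (h v hv) (not_le.2 c)]

lemma eb_sdiff {U B : Finset V} (h : Disjoint U B) (E D : Finset (Sym2 V)) :
    eb (gr E) U B ≤ eb (gr (E \ D)) U B + (E ∩ D).card := by
  rw [eb, eb, sum_dg_eq h, sum_dg_eq h]
  exact_mod_cast le_trans (Finset.card_le_card fun e he => by
    simp only [Finset.mem_inter, Finset.mem_union, Finset.mem_sdiff] at he ⊢; tauto)
    (Finset.card_union_le _ _)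

lemma two_sets {F : SimpleGraph V} {U : Finset V} {C s : ℕ} (h : Col F U C)
    (hs : (C + 1) * (2 * s) ≤ U.card) : ∃ U1 U2 : Finset V, Disjoint U1 U2 ∧ U1.card = s ∧
      U2.card = s ∧ U1 ⊆ U ∧ U2 ⊆ U ∧ eb F U1 U2 = 0 := by
  obtain ⟨col, c1, c2⟩ := h
  obtain ⟨a, -, d1⟩ := Finset.exists_le_card_fiber_of_mul_le_card_of_maps_to (s := U)
    (t := range (C + 1)) (f := col) (fun v hv => Finset.mem_range.2 ((c1 v hv).trans (by omega)))
    ⟨0, by simp⟩ (n := 2 * s) (by simpa using hs)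
  obtain ⟨U1, d2, d3⟩ := Finset.exists_subset_card_eq (n := s) (le_trans (by omega) d1)
  obtain ⟨U2, d4, d5⟩ := Finset.exists_subset_card_eq (n := s)
    (s := (U.filter fun v => col v = a) \ U1) (by rw [Finset.card_sdiff_of_subset d2]; omega)
  have e2 := d4.trans Finset.sdiff_subset
  refine ⟨U1, U2, Finset.disjoint_sdiff.mono_right d4, d3, d5, d2.trans (Finset.filter_subset _ _),
    e2.trans (Finset.filter_subset _ _), Finset.sum_eq_zero fun u hu => Nat.cast_eq_zero.2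
    (Finset.card_eq_zero.2 (Finset.eq_empty_of_forall_notMem fun v hv => ?_))⟩
  have a1 := Finset.mem_filter.1 (d2 hu)
  have a2 := Finset.mem_filter.1 (e2 (mem_nb.1 hv).1)
  exact c2 u a1.1 v a2.1 (mem_nb.1 hv).2 (a1.2.trans a2.2.symm)

theorem low_core {l : Filter ℕ} (hl : l ≤ atTop) (hH : ¬ H.IsAcyclic)
    (hL : Tendsto (fun n : ℕ => (p n : ℝ) * n) l atTop) (hB : BelowL l p (m2 H))
    (hd' : d < 1) (C : ℕ) : ∀ᶠ n : ℕ in l, Pr (fun _ => (p n : ℝ)) (fun ω : Sym2 (Fin n) → Bool =>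
      ¬ ∃ I ⊆ rs ω, embs H (gr I) univ = ∅ ∧ ∃ V', (∀ v ∈ V', d * (p n * n) ≤ dg (gr I) v V') ∧
        ¬ Col (gr I) V' C) ≤ 9 / 10 := by
  classical
  obtain ⟨S, a4, hS⟩ := hB.small' hH
  obtain ⟨ε, ⟨e1, e2⟩, e0⟩ := (((ev_small 5 (sub_pos.2 hd')).and (ev_small (8 * (C + 1) : ℝ)
    one_pos)).and self_mem_nhdsWithin).exists
  replace e0 : 0 < ε := e0
  have hC0 := C.cast_nonneg (α := ℝ)
  have e3 : ε ≤ 1 / 8 := by nlinarith only [e2, e0]
  obtain ⟨k, hk⟩ : ∃ x : ℝ, x = (Fintype.card W ^ 2 : ℕ) + 1 := ⟨_, rfl⟩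
  have k0 : 0 < k := by rw [hk]; positivity
  filter_upwards [hS _ (by positivity : 0 < ε ^ 2 / (4 * k)), hL.eventually_ge_atTop
    (12 / ε ^ 4), hl ((tend_neg.eventually_le_const (by norm_num : (0 : ℝ) < 1 / 10)).and
    (tendsto_natCast_atTop_atTop.eventually (ev_large 1 e0)))] with n b3 b4 ⟨b6, b7⟩
  have hn : (0 : ℝ) < n := (mul_pos_iff_of_pos_left e0).1 (by linarith)
  have b8 : 0 < n := by exact_mod_cast hn
  have p1 : (0 : ℝ) < p n := (mul_pos_iff_of_pos_right hn).1 (lt_of_lt_of_le (by positivity) b4)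
  have hP := isP_p p n
  have p0 := (p n).2.1
  have pn : 0 < (p n : ℝ) * n := lt_of_lt_of_le (by positivity) b4
  let EB := (eF H).filter fun e => ∀ a ∈ e, a ∈ S
  have hEB : ∀ e ∈ EB, ∀ a ∈ e, a ∈ S := fun e he => (Finset.mem_filter.1 he).2
  obtain ⟨𝓔, h𝓔⟩ : ∃ x, x = pats S EB id (fun _ _ : Fin n => False) ⟨0, b8⟩ := ⟨_, rfl⟩
  have c0 : ∀ e ∈ 𝓔, e.card = eIn H S := fun e he => (card_pats hEB (h𝓔 ▸ he)).trans
    (eIn_eq H S).symm
  obtain ⟨s, hs⟩ : ∃ x, x = ⌈ε * n⌉₊ := ⟨_, rfl⟩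
  have s1 : ε * n ≤ s := hs ▸ Nat.le_ceil _
  have s2 : s ≤ 2 * (ε * n) := by
    have := (Nat.ceil_lt_add_one (by positivity : 0 ≤ ε * n)).le
    rw [hs]; linarith only [b7, this]
  have f1 := Pr_LU (V := Fin n) p0 (p n).2.2 e0.le (by linarith) (M := ε ^ 2 * n ^ 2)
  have f2 : ∑ e ∈ 𝓔, (p n : ℝ) ^ e.card ≤ n * (ε ^ 2 / (4 * k) * (p n * n)) := by
    have := Finset.sum_le_card_nsmul univ (fun v : Fin n => ∑ e ∈ 𝓔.filter fun e => v ∈ vts e,
      (p n : ℝ) ^ e.card) _ fun v _ => by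
        have := weight_pats p0 hEB id (fun _ _ : Fin n => False) ⟨0, b8⟩ le_rfl (fun u B h => by
          rw [Finset.eq_empty_of_forall_notMem h]; simp) (k := 0) (by simp) v
        rw [Fintype.card_fin, Finset.image_id, ← eIn_eq, pow_zero, mul_one, mul_assoc, ← h𝓔] at this
        exact le_of_mul_le_mul_right (this.trans b3) hn
    rw [Finset.card_fin, nsmul_eq_mul] at this
    refine le_trans ?_ this
    simp only [Finset.sum_filter]
    rw [Finset.sum_comm]
    refine Finset.sum_le_sum fun e he => ?_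
    obtain ⟨x, hx⟩ := Finset.card_pos.1 ((c0 e he).symm ▸ a4 : 0 < e.card)
    refine le_trans (le_of_eq (if_pos (mem_vts.2 ⟨x, hx, x.out_fst_mem⟩)).symm)
      (Finset.single_le_sum (f := fun v => if v ∈ vts e then (p n : ℝ) ^ e.card else 0)
      (fun v _ => by positivity) (mem_univ _))
  have f3 := Pr_le_Ex hP (E := fun ω => ε ^ 2 * (p n * n * n) / (2 * k) ≤ ∑ e ∈ 𝓔, one (e ⊆ rs ω))
    (f := fun ω => 2 * k / (ε ^ 2 * (p n * n * n)) * ∑ e ∈ 𝓔, one (e ⊆ rs ω))
    (fun ω => mul_nonneg (by positivity) (Finset.sum_nonneg fun _ _ => one_nonneg _)) fun ω h => by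
      rwa [div_mul_eq_mul_div, one_le_div (by positivity), ← div_le_iff₀' (by positivity)]
  rw [Ex_const_mul, Ex_sum] at f3
  erw [Finset.sum_congr rfl fun e _ => Pr_sub (p := p n) e] at f3
  rw [Fintype.card_fin] at f1
  refine (Pr_mono hP fun ω hω => ?_).trans ((Pr_or_le hP _ _).trans ((add_le_add
    (f1.trans (le_trans (Real.exp_le_exp.2 ?_) b6)) (f3.trans ((mul_le_mul_of_nonneg_left f2
    (by positivity)).trans_eq (c := 1 / 2) (by field_simp; norm_num)))).trans (by norm_num)))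
  · by_contra hcon
    rw [not_or, not_not, not_le] at hcon
    obtain ⟨D, hD⟩ : ∃ x, x = (𝓔.filter fun e => e ⊆ rs ω).biUnion id := ⟨_, rfl⟩
    have g1 : ((rs ω ∩ D).card : ℝ) ≤ ε ^ 2 * (p n * n * n) / 2 := by
      have := Finset.card_biUnion_le_card_mul (𝓔.filter fun e => e ⊆ rs ω) id (Fintype.card W ^ 2)
        fun e he => (c0 e (Finset.mem_filter.1 he).1).trans_le (eIn_eq H S ▸ card_sub_sq _)
      rw [← hD] at this
      have := (Nat.cast_le (α := ℝ)).2 ((Finset.card_le_card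
        (Finset.inter_subset_right (s₁ := rs ω))).trans this)
      have g0 := hcon.2
      rw [← cnt_eq_sum, cnt_eq_card, lt_div_iff₀ (by positivity), hk] at g0
      rw [Nat.cast_mul] at this
      nlinarith only [this, g0, (𝓔.filter fun e => e ⊆ rs ω).card.cast_nonneg (α := ℝ)]
    have g2 : ∀ U B : Finset (Fin n), Disjoint U B → U.card = s → ∀ x : ℝ, ε * n ≤ x → x ≤ B.card →
        (1 - ε) * (p n * (s * x)) ≤ eb (gr (rs ω \ D)) U B + ε ^ 2 * (p n * n * n) / 2 :=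
      fun U B h1 h2 x h3 h4 => by
        have := hcon.1 U B h1 (by rw [h2, ← mul_pow, sq]; gcongr; linarith)
        have := eb_sdiff h1 (rs ω) D
        have : (1 - ε) * (p n * (s * x)) ≤ (1 - ε) * (p n * (U.card * B.card)) := by
          rw [h2]; gcongr; linarith only [e0, e3]
        linarith
    have g3 := mul_le_mul_of_nonneg_left s1 (by positivity : 0 ≤ ε * (p n * n))
    obtain ⟨X, x1, x2, x3⟩ := peel (gr (rs ω \ D)) (d * (p n * n)) s
    have x4 : n - 2 * (ε * n) ≤ (univ \ X).card := by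
      rw [Finset.card_univ_sdiff, Fintype.card_fin, Nat.cast_sub (by simpa using X.card_le_univ)]
      linarith only [s2, x1, (Nat.cast_le (α := ℝ)).2 x1]
    refine hω ⟨rs ω \ D, Finset.sdiff_subset, Finset.eq_empty_of_forall_notMem
      fun τ hτ => ?_, univ \ X, x3.resolve_left fun h => ?_, fun c => ?_⟩
    · simp only [embs, Finset.mem_filter, mem_homs] at hτ
      have h1 : EB.image (Sym2.map τ) ∈ 𝓔 := h𝓔 ▸ mem_pats hEB _ hτ.2 fun a _ b _ h e => h e
      have h2 : EB.image (Sym2.map τ) ⊆ rs ω \ D := fun e he => by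
        obtain ⟨e', he', rfl⟩ := Finset.mem_image.1 he
        induction e' using Sym2.ind with
        | h a b => exact (gr_adj.1 (hτ.1.2 a b (mem_eF.1 (Finset.mem_filter.1 he').1))).1
      obtain ⟨x, hx⟩ := Finset.card_pos.1 ((c0 _ h1).symm ▸ a4 : 0 < _)
      exact (Finset.mem_sdiff.1 (h2 hx)).2 (hD ▸ Finset.mem_biUnion.2 ⟨_, Finset.mem_filter.2
        ⟨h1, h2.trans Finset.sdiff_subset⟩, hx⟩)
    · have := g2 X _ Finset.disjoint_sdiff h _ (by nlinarith only [e0, e3, b7, e2]) x4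
      rw [h] at x2
      have h1 : (0 : ℝ) < s * (p n * n) := mul_pos (by nlinarith only [e0, e3, b7, s1]) pn
      have h2 := mul_le_mul_of_nonneg_right (by nlinarith only [e1, e0] : d + ε ≤ (1 - ε) * (1 - 2 * ε)) h1.le
      nlinarith only [g3, x2, this, h2, e0, pn, hn, mul_pos (mul_pos e0 e0) (mul_pos pn hn)]
    · obtain ⟨U1, U2, h1, h2, h3, -, -, h4⟩ := two_sets c (s := s) (by
        rw [← Nat.cast_le (α := ℝ)]; push_cast; nlinarith only [e0, e3, b7, s2, x4, e2])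
      have := g2 U1 U2 h1 h2 _ le_rfl (h3 ▸ s1)
      rw [h4] at this
      nlinarith only [g3, this, e0, pn, hn, e3, p1, b8, mul_pos (mul_pos e0 e0) (mul_pos pn hn), mul_le_mul_of_nonneg_right e3
        (by positivity : 0 ≤ ε * (p n * n) * s)]
  · rw [div_le_iff₀ (by positivity)] at b4
    nlinarith only [b4, hn, mul_le_mul_of_nonneg_right b4 hn.le]

theorem low_one' {l : Filter ℕ} [l.NeBot] (hl : l ≤ atTop) (hH : ¬ H.IsAcyclic)
    (hL : Tendsto (fun n : ℕ => (p n : ℝ) * n) l atTop) (hB : BelowL l p (m2 H)) (hs : ¬ span)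
    (hd' : d < 1) : ¬ Adm H p span d :=
  not_adm_of_bad hl hs fun C => (low_core hl hH hL hB hd' C).mono fun n h =>
    (Pr_mono (isP_p p n) fun _ f ⟨I, a, b, V', c⟩ => f ⟨V', I, a, Finset.subset_empty.1
      (b ▸ Finset.filter_subset_filter _ (homs_mono le_rfl (subset_univ _))), c⟩).trans h

theorem low_neg {l : Filter ℕ} [l.NeBot] (hl : l ≤ atTop) (hH : ¬ H.IsAcyclic)
    (hL : Tendsto (fun n : ℕ => (p n : ℝ) * n) l atTop) (hB : BelowL l p (m2 H)) (hd : d ≤ 0) :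
    ¬ Adm H p span d :=
  not_adm_of hl fun C => (low_core hl hH hL hB zero_lt_one C).mono fun n h =>
    (Pr_mono (isP_p p n) fun _ f ⟨I, a, b, _, c⟩ => f ⟨I, a, b, fun _ =>
      (mul_nonpos_of_nonpos_of_nonneg hd (pn_nonneg p n)).trans (Nat.cast_nonneg _),
      fun e => c.2 (e.mono le_rfl (subset_univ _) le_rfl)⟩).trans h

end Pool.Agent.Lib.MP_46505f_co
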