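import Pool.Agent.Lib.MP_46505f_co.Dense1
import Pool.Agent.Lib.MP_46505f_co.Dense2
import Pool.Agent.Lib.MP_46505f_co.Extra

set_option autoImplicit false
set_option linter.unusedSectionVars false
open Finset Filter Topology

namespace Pool.Agent.Lib.MP_46505f_co

/- The upper bounds in the dense case, part three. -/

variable {W : Type} [Fintype W] [DecidableEq W] {H : SimpleGraph W}

def rgr {V κ : Type} [Fintype V] [DecidableEq V] [DecidableEq κ] (G : SimpleGraph V) (cls : V → κ)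
    (α ε : ℝ) : SimpleGraph κ where
  Adj i j := i ≠ j ∧ LR G α (ε * (fib cls i).card) (ε * (fib cls j).card) (fib cls i) (fib cls j)
  symm := ⟨fun _ _ h => ⟨h.1.symm, h.2.symm⟩⟩
  loopless := ⟨fun _ h => h.1 rfl⟩

open Classical in
theorem dense_core {g a ε' α' : ℝ} (C : ℕ) (hg : 0 < g) (hg1 : g ≤ 1) (ha : 0 < a) (hε' : 0 < ε')
    (h0 : 0 < α') (h1 : 8 * α' ≤ g * a * (g * a)) : ∃ C' n0 : ℕ, ∀ (V : Type) [Fintype V]
    [DecidableEq V] (G0 G : SimpleGraph V) (V' : Finset V) (p d : ℝ), n0 ≤ Fintype.card V →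
    a ≤ p → p ≤ 1 → UU G0 p (g / 20) (12 * Fintype.card V / ((g / 20) ^ 2 * a)) →
    LU G0 p (g / 20) (12 * Fintype.card V / ((g / 20) ^ 2 * a)) → G ≤ G0 →
    (∀ v ∈ V', d * (p * Fintype.card V) ≤ dg G v V') → ¬ Col G V' C' →
    ∃ (κ : Type) (_ : Fintype κ) (_ : Nonempty κ) (D : κ → Finset V) (R : SimpleGraph κ)
      (I J : Finset κ), ∃ X ⊆ V', ∃ F ≤ G, ¬ Col F X C ∧ J ⊆ I ∧
      2 * ((d - 6 * g) * Fintype.card κ) ≤ I.card + J.card ∧
      (∀ i ∈ I, (univ.filter fun j => ¬ R.Adj i j).card ≤ (1 - d + 6 * g) * Fintype.card κ) ∧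
      (∀ i ∈ I, D i ⊆ V' ∧ Disjoint X (D i) ∧ C ≤ (D i).card ∧ ∀ x ∈ X, ∀ y ∈ X, F.Adj x y →
        g * a ^ 2 / 2 * (D i).card ≤ (nb G x (D i)).card ∧
        (i ∈ J → g * a ^ 2 / 2 * (D i).card ≤ (nb G x (D i) ∩ nb G y (D i)).card)) ∧
      ∀ i ∈ I, ∀ j ∈ I, R.Adj i j → LR G α' (ε' * (D i).card) (ε' * (D j).card) (D i) (D j) := by
  obtain ⟨η, hη⟩ : ∃ x, x = g / 20 := ⟨_, rfl⟩
  obtain ⟨α, hα⟩ : ∃ x, x = g * a := ⟨_, rfl⟩
  have η0 : 0 < η := by rw [hη]; positivity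
  have α0 : 0 < α := by rw [hα]; positivity
  obtain ⟨ε, ε0, ε1, ε2, ε3⟩ : ∃ ε > (0 : ℝ), ε ≤ g * g ∧ 8 * ε ≤ α * α ∧ 2 * ε ≤ ε' * α :=
    ⟨min (g * g) (min (α * α / 8) (ε' * α / 2)), by positivity, min_le_left _ _,
      by linarith [min_le_right (g * g) (min (α * α / 8) (ε' * α / 2)), min_le_left (α * α / 8) (ε' * α / 2)],
      by linarith [min_le_right (g * g) (min (α * α / 8) (ε' * α / 2)), min_le_right (α * α / 8) (ε' * α / 2)]⟩
  obtain ⟨l, hl⟩ := exists_nat_ge (2 / α)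
  obtain ⟨K, hK⟩ := reg ε0 l
  obtain ⟨t, ht⟩ := exists_nat_gt (12 * K / (η ^ 3 * a ^ 2))
  have t0 : 0 < t := Nat.cast_pos.1 (lt_of_le_of_lt (by positivity) ht)
  obtain ⟨n0, hn⟩ := exists_nat_ge (l + K / η + K * C / α + 12 * K ^ 2 / (η ^ 3 * a * α))
  refine ⟨K * (2 ^ K * 2 ^ K) * (C * t ^ K) + K * t, n0,
    fun V _ _ G0 G V' p d n1 p0 p1 hU hL hG hd hc => ?_⟩
  rw [← hη] at hU hL
  rw [← hα] at h1
  have n2 := hn.trans (Nat.cast_le.2 n1)
  have q1 : (0 : ℝ) ≤ K / η := by positivity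
  have q2 : (0 : ℝ) ≤ K * C / α := by positivity
  have q3 : (0 : ℝ) ≤ 12 * K ^ 2 / (η ^ 3 * a * α) := by positivity
  have q4 : (0 : ℝ) ≤ l := by positivity
  obtain ⟨κ, _, _, cls, k1, k2, k3, k4⟩ := hK V G (Nat.cast_le.1 (by linarith : (l : ℝ) ≤ _))
  replace k4 := k4 α'
  obtain ⟨n, hn'⟩ : ∃ x : ℝ, x = Fintype.card V := ⟨_, rfl⟩
  rw [← hn'] at n2 hU hL hd k3
  have hp := ha.trans_le p0
  have k1' : 2 / α ≤ Fintype.card κ := hl.trans (Nat.cast_le.2 k1)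
  have k0 : (0 : ℝ) < Fintype.card κ := lt_of_lt_of_le (by positivity) k1'
  have k2' : (Fintype.card κ : ℝ) ≤ K := Nat.cast_le.2 k2
  have K0 := k0.trans_le k2'
  have N0 : 0 < n := lt_of_lt_of_le (by positivity) ((by linarith : K / η ≤ n))
  obtain ⟨m, hm⟩ : ∃ x, x = n / Fintype.card κ := ⟨_, rfl⟩
  have m0 : 0 < m := by rw [hm]; positivity
  have m1 : Fintype.card κ * m = n := by rw [hm]; field_simp
  have m2 : n ≤ K * m := m1 ▸ mul_le_mul_of_nonneg_right k2' m0.le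
  have m3 : 1 ≤ η * m := by
    have := (div_le_iff₀ η0).1 (by linarith only [q2, q3, n2] : K / η ≤ n)
    refine le_of_mul_le_mul_left ?_ K0
    linarith [mul_le_mul_of_nonneg_right m2 η0.le]
  have m4 : (C : ℝ) ≤ α * m := by
    have := (div_le_iff₀ α0).1 (by linarith : K * C / α ≤ n)
    refine le_of_mul_le_mul_left ?_ K0
    linarith [mul_le_mul_of_nonneg_right m2 α0.le]
  have m5 : 12 * n / (η ^ 2 * a) ≤ η * (α * m * m) := by
    have := (div_le_iff₀ (by positivity)).1 (by linarith : 12 * K ^ 2 / (η ^ 3 * a * α) ≤ n)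
    rw [div_le_iff₀ (by positivity)]
    refine le_of_mul_le_mul_left ?_ (pow_pos K0 2)
    have b1 := mul_le_mul_of_nonneg_right this N0.le
    have b2 := mul_le_mul_of_nonneg_left (mul_self_le_mul_self N0.le m2)
      (by positivity : 0 ≤ η ^ 3 * a * α)
    linarith
  have m6 : 12 * n / (η ^ 2 * a) ≤ η * (t * (p * m)) := by
    have := (div_lt_iff₀ (by positivity)).1 ht
    rw [div_le_iff₀ (by positivity)]
    have b1 := mul_le_mul_of_nonneg_right this.le m0.le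
    have b2 := mul_le_mul_of_nonneg_left p0 (by positivity : 0 ≤ η ^ 3 * a * t * m)
    linarith only [m2, b1, b2]
  have m7 : 12 * n / (η ^ 2 * a) ≤ t * (η * m) :=
    m6.trans (by linarith [mul_le_mul_of_nonneg_left p1 (by positivity : 0 ≤ η * t * m)])
  have s1 : ∀ i, ((fib cls i).card : ℝ) ≤ (1 + η) * m := fun i => by linarith only [hm, m3, k3 i]
  have s2 : ∀ i, ((fib cls i).card : ℝ) ≤ 2 * m := fun i => (s1 i).trans (by gcongr; linarith only [hg1, hη])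
  have s3 : ∀ i, ((fib cls i ∩ V').card : ℝ) ≤ 2 * m := fun i =>
    (Nat.cast_le.2 (Finset.card_le_card Finset.inter_subset_left)).trans (s2 i)
  have αp : α ≤ g * p := hα ▸ mul_le_mul_of_nonneg_left p0 hg.le
  have hK2 : 2 ≤ g * p * Fintype.card κ := by
    linarith only [α0, k1', αp, k0, (div_le_iff₀ α0).1 k1', mul_le_mul_of_nonneg_right αp k0.le]
  obtain ⟨B, hB⟩ : ∃ x, x = univ.filter fun i =>
    ¬ cnt univ (NU G cls α' ε i) ≤ g * Fintype.card κ := ⟨_, rfl⟩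
  have B1 : B.card ≤ g * Fintype.card κ := by
    have b1 := cnt_lower (P := fun x : κ × κ => NU G cls α' ε x.1 x.2)
      (Q := fun i => ¬ cnt univ (NU G cls α' ε i) ≤ g * Fintype.card κ) fun i h => (not_le.1 h).le
    rw [cnt_eq_card, ← hB] at b1
    refine le_of_mul_le_mul_right ?_ (mul_pos hg k0)
    linarith only [k4, b1, ε1, k0, mul_le_mul_of_nonneg_right ε1 (pow_pos k0 2).le]
  obtain ⟨E, hE⟩ : ∃ x, x = univ.biUnion fun i => univ.filter fun x => x ∉ fib cls i ∧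
    (1 + 5 * η) * (p * m) < dg G0 x (fib cls i) := ⟨_, rfl⟩
  have E1 : E.card ≤ K * t := by
    rw [hE]
    refine (Finset.card_biUnion_le_card_mul _ _ t fun i _ => ?_).trans (Nat.mul_le_mul_right _ k2)
    exact_mod_cast few_ex hU hp m0 η0 (by linarith only [hg1, hη]) (s1 i) m7
  have E2 : ∀ x ∉ E, ∀ i ≠ cls x, dg G0 x (fib cls i ∩ V') ≤ (1 + 5 * η) * (p * m) :=
    fun x hx i hi => (Nat.cast_le.2 (dg_mono le_rfl x Finset.inter_subset_left)).trans
      (not_lt.1 fun h => hx (hE ▸ Finset.mem_biUnion.2 ⟨i, mem_univ _, Finset.mem_filter.2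
        ⟨mem_univ _, fun e => hi (mem_fib.1 e).symm, h⟩⟩))
  have c1 := Col.sdiff hc ((col_card G _).mono le_rfl Subset.rfl
    ((Finset.card_le_card Finset.inter_subset_right).trans E1))
  obtain ⟨⟨i0, I, J⟩, c2⟩ := col_class (t := C * t ^ K) (fun (k : κ × Finset κ × Finset κ) x =>
    cls x = k.1 ∧ Ix G cls V' B (α * m) x = k.2.1 ∧ Ix G cls V' B ((1 / 2 + g) * (p * m)) x = k.2.2)
    (fun x _ => ⟨⟨_, _, _⟩, rfl, rfl, rfl⟩) fun h => c1 (h.mono le_rfl Subset.rfl (by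
      rw [Fintype.card_prod, Fintype.card_prod, Fintype.card_finset]; gcongr <;> norm_num))
  obtain ⟨X, hX⟩ : ∃ X, X = (V' \ E).filter fun x => cls x = i0 ∧ Ix G cls V' B (α * m) x = I ∧
    Ix G cls V' B ((1 / 2 + g) * (p * m)) x = J := ⟨_, rfl⟩
  replace c2 : ¬ Col G X (C * t ^ K) := hX ▸ c2
  have X1 : ∀ x ∈ X, (x ∈ V' ∧ x ∉ E) ∧ cls x = i0 ∧ Ix G cls V' B (α * m) x = I ∧
      Ix G cls V' B ((1 / 2 + g) * (p * m)) x = J := fun x hx => by
    simpa only [hX, Finset.mem_filter, Finset.mem_sdiff] using hx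
  obtain ⟨x0, hx0⟩ : X.Nonempty := Finset.nonempty_iff_ne_empty.2 fun e => c2 (e ▸ col_empty _ _)
  have I1 : ∀ x ∈ X, ∀ i ∈ I, i ∉ B ∧ i ≠ cls x ∧ α * m ≤ dg G x (fib cls i ∩ V') :=
    fun x hx i hi => mem_Ix.1 ((X1 x hx).2.2.1 ▸ hi)
  have J1 : ∀ x ∈ X, ∀ i ∈ J, i ∉ B ∧ i ≠ cls x ∧
      (1 / 2 + g) * (p * m) ≤ dg G x (fib cls i ∩ V') :=
    fun x hx i hi => mem_Ix.1 ((X1 x hx).2.2.2 ▸ hi)
  have I2 : ∀ i ∈ I, α * m ≤ (fib cls i ∩ V').card := fun i hi =>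
    (I1 x0 hx0 i hi).2.2.trans (dg_le_card _ _ _)
  have αm := mul_le_mul_of_nonneg_right αp m0.le
  have JI : J ⊆ I := fun j hj => (X1 x0 hx0).2.2.1 ▸ mem_Ix.2 ⟨(J1 x0 hx0 j hj).1,
    (J1 x0 hx0 j hj).2.1, by linarith only [αm, hp, m0, (J1 x0 hx0 j hj).2.2, mul_pos hp m0]⟩
  have dj : ∀ i ∈ I, Disjoint X (fib cls i ∩ V') := fun i hi => Finset.disjoint_left.2
    fun x hx h => (I1 x hx i hi).2.1 (mem_fib.1 (Finset.mem_inter.1 h).1).symm
  rw [← m1] at hd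
  have a2 : a ^ 2 ≤ a := by nlinarith only [ha, p0, p1]
  refine ⟨κ, inferInstance, ⟨i0⟩, fun i => fib cls i ∩ V', rgr G cls α' ε, I, J, X,
    fun x hx => (X1 x hx).1.1, egr G fun x y => ∀ j ∈ J, g * a ^ 2 * m ≤
      (nb G x (fib cls j ∩ V') ∩ nb G y (fib cls j ∩ V')).card, fun _ _ h => h.1, fun h => c2 ?_,
    JI, ?_, fun i hi => ?_, fun i hi => ⟨Finset.inter_subset_right, dj i hi, ?_,
      fun x hx y hy h => ⟨?_, fun hj => ?_⟩⟩, fun i hi j hj h => ?_⟩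
  · refine (h.sup (col_sup_fin J fun j hj => edge_col hG hU hL (dj j (JI hj)) hp m0 η0.le
      (γ := g) (β := g * a ^ 2) (by linarith) hg hg1 (by gcongr) t0 m6 fun x hx =>
      ⟨(J1 x hx j hj).2.2, E2 x (X1 x hx).1.2 j (J1 x hx j hj).2.1⟩)).mono (fun x y e => ?_)
      Subset.rfl (Nat.mul_le_mul_left _ (Nat.pow_le_pow_right t0 ((Finset.card_le_univ _).trans k2)))
    by_cases f : ∀ j ∈ J, g * a ^ 2 * m ≤ (nb G x (fib cls j ∩ V') ∩ nb G y (fib cls j ∩ V')).card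
    · exact .inl ⟨e, f, fun j hj => Finset.inter_comm (nb G x _) _ ▸ f j hj⟩
    · simp only [not_forall, not_le] at f
      obtain ⟨j, hj, f⟩ := f
      exact .inr (Finset.le_sup (f := fun j => egr G fun x y => ((nb G x (fib cls j ∩ V') ∩
        nb G y (fib cls j ∩ V')).card : ℝ) < g * a ^ 2 * m) hj
        ⟨e, f, by rw [Finset.inter_comm] at f; exact f⟩)
  · rw [← (X1 x0 hx0).2.2.1, ← (X1 x0 hx0).2.2.2]
    refine vert hp m0 hg hg1 (by linarith) hK2 B1 s2 (hd x0 (X1 x0 hx0).1.1) fun i hi => ?_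
    refine (Nat.cast_le.2 (dg_mono hG _ Subset.rfl)).trans ((E2 x0 (X1 x0 hx0).1.2 i hi).trans ?_)
    gcongr; linarith
  · have := clus hG hU hp m0 hg hg1 η0.le (by linarith) α0 (m1 ▸ m5) (α' := α') (ε := ε)
      (by positivity) (by linarith [mul_le_mul_of_nonneg_right αp α0.le]) hK2 s1 hd (I2 i hi)
      (by simpa [hB] using (I1 x0 hx0 i hi).1)
    convert this using 5
    rfl
  · exact_mod_cast m4.trans (I2 i hi)
  · have := mul_le_mul (mul_le_mul_of_nonneg_left a2 hg.le) (s3 i) (by positivity) (by positivity)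
    have := (I1 x hx i hi).2.2
    rw [hα, dg] at this
    linarith
  · linarith only [hg, ha, h.2.1 i hj, mul_le_mul_of_nonneg_left (s3 i) (by positivity : 0 ≤ g * a ^ 2)]
  · have b : ∀ i ∈ I, ε * (fib cls i).card ≤ ε' * (fib cls i ∩ V').card := fun i hi => by
      linarith [mul_le_mul_of_nonneg_left (s2 i) ε0.le, mul_le_mul_of_nonneg_left (I2 i hi) hε'.le,
        mul_le_mul_of_nonneg_right ε3 m0.le]
    exact h.2.mono (fun _ _ _ _ h => h) le_rfl (b i hi) (b j hj) Finset.inter_subset_left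
      Finset.inter_subset_left

lemma out_bot {c : W → ℕ} (h : ∀ u v, H.Adj u v → c u ≠ c v) (u v : W) :
    ¬ (outside H (univ.filter fun v => c v ≠ 0)).Adj u v := fun e => h u v e.1 (by
  have := e.2; simp only [Finset.mem_filter, mem_univ, true_and, not_not] at this
  rw [this.1, this.2])

open Classical in
theorem up_dense [Nonempty W] {k : ℕ} {c0 c : W → ℕ} (h0 : ∀ v, c0 v ≤ k + 2)
    (h1 : ∀ u v, H.Adj u v → c0 u ≠ c0 v) (hS : Split H (k + 1) c) {a d : ℝ} (ha : 0 < a)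
    (ha1 : a ≤ 1) (hd : NearAc H c ∧ (k : ℝ) / (k + 1) < d ∨ (2 * k + 1 : ℝ) / (2 * k + 3) < d) :
    ∃ η > (0 : ℝ), η ≤ 1 ∧ ∃ C n0 : ℕ, ∀ (V : Type) [Fintype V]
    [DecidableEq V] (G0 G : SimpleGraph V) (V' : Finset V) (p : ℝ), n0 ≤ Fintype.card V →
    a ≤ p → p ≤ 1 → UU G0 p η (12 * Fintype.card V / (η ^ 2 * a)) →
    LU G0 p η (12 * Fintype.card V / (η ^ 2 * a)) → G ≤ G0 →
    (∀ v ∈ V', d * (p * Fintype.card V) ≤ dg G v V') → embs H G V' = ∅ → Col G V' C := by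
  obtain ⟨T, hT⟩ : ∃ T : Prop, T ↔ NearAc H c ∧ (k : ℝ) / (k + 1) < d := ⟨_, Iff.rfl⟩
  have k0 : (0 : ℝ) ≤ k := by positivity
  obtain ⟨g, hg, g1, g2, g3⟩ : ∃ g > (0 : ℝ), g ≤ 1 ∧ (T → (k + 1) * (1 - d + 6 * g) < 1) ∧
      (¬ T → (2 * k + 3) * (1 - d + 6 * g) < 2) := by
    have e : ∀ x y : ℝ, 0 < x → x * (1 - d) < y → ∃ g > (0 : ℝ), g ≤ 1 ∧ x * (1 - d + 6 * g) < y :=
      fun x y hx h => ⟨min 1 ((y - x * (1 - d)) / (12 * x)), lt_min one_pos (by
        have := sub_pos.2 h; positivity), min_le_left _ _, by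
        have := (le_div_iff₀ (by positivity)).1 (min_le_right 1 ((y - x * (1 - d)) / (12 * x)))
        linarith⟩
    by_cases f : T
    · obtain ⟨g, b1, b2, b3⟩ := e (k + 1) 1 (by positivity) (by
        linarith [(div_lt_iff₀ (by positivity)).1 (hT.1 f).2])
      exact ⟨g, b1, b2, fun _ => b3, fun h => (h f).elim⟩
    · obtain ⟨g, b1, b2, b3⟩ := e (2 * k + 3) 2 (by positivity) (by
        linarith [(div_lt_iff₀ (by positivity)).1 (hd.resolve_left (mt hT.2 f))])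
      exact ⟨g, b1, b2, fun h => (f h).elim, fun _ => b3⟩
  obtain ⟨side, hs⟩ := acyc_side hS.2.2
  obtain ⟨σ, hσ⟩ : ∃ σ : W → W → Bool, ∀ a ∉ univ.filter fun v => c v ≠ 0,
      ∀ z ∈ univ.filter fun v => c v ≠ 0, H.Adj a z → T ∧ c z = 1 →
      side a = σ (cl H (univ.filter fun v => c v ≠ 0) a) z := by
    by_cases f : T
    · obtain ⟨σ, h⟩ := near_side (hT.1 f).1 hs
      exact ⟨σ, fun a b z e f g => h a b z e f g.2⟩
    · exact ⟨fun _ _ => true, fun _ _ _ _ _ g => (f g.1).elim⟩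
  have b0 : g * a ≤ 1 := by nlinarith
  have b1 : g * a ^ 2 / 2 ≤ 1 := by nlinarith [mul_pos hg ha]
  have b2 : g * a * (g * a) / 8 ≤ 1 := by nlinarith [mul_pos hg ha]
  obtain ⟨ε1, e1, C1, d1⟩ := demb hS.2.2 hs σ _ hσ (by positivity) b1 (by positivity) b2
  obtain ⟨ε2, e2, C2, d2⟩ := demb (H := H) (I := univ.filter fun v => c0 v ≠ 0) (side := fun _ => true)
    (fun v w e => by cases w with | nil => simp at e | cons h _ => exact out_bot h1 _ _ h) (fun a b h => (out_bot h1 a b h).elim)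
    (fun _ _ => true) (fun _ => True) (fun _ _ _ _ _ _ => rfl) (by positivity) b1 (by positivity) b2
  obtain ⟨C, n0, hC⟩ := dense_core (C1 + C2) hg g1 ha (lt_min e1 e2)
    (by positivity : 0 < g * a * (g * a) / 8) (by linarith)
  refine ⟨g / 20, by positivity, by linarith, C, n0, fun V _ _ G0 G V' p n1 p0 p1 hU hL hG hd he =>
    by_contra fun hc => ?_⟩
  obtain ⟨κ, _, _, D, R, I, J, X, x1, F, x2, x3, x4, x5, x6, x7, x8⟩ :=
    hC V G0 G V' p d n1 p0 p1 hU hL hG hd hc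
  have K0 : (0 : ℝ) < Fintype.card κ := Nat.cast_pos.2 Fintype.card_pos
  obtain ⟨x, hx⟩ : ∃ x, x = (1 - d + 6 * g) * Fintype.card κ := ⟨_, rfl⟩
  rw [← hx] at x6
  have x9 : (J.card : ℝ) ≤ I.card := Nat.cast_le.2 (Finset.card_le_card x4)
  have l1 : ∀ ε ≥ min ε1 ε2, ∀ i ∈ I, ∀ j ∈ I, R.Adj i j → LR G (g * a * (g * a) / 8)
      (ε * (D i).card) (ε * (D j).card) (D i) (D j) := fun ε h i hi j hj e =>
    (x8 i hi j hj e).mono (fun _ _ _ _ h => h) le_rfl (by gcongr) (by gcongr) Subset.rfl Subset.rfl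
  have tx : ∀ t s : ℕ, t ≤ s → ∀ y : ℝ, 0 < y → s * x < y → t * x < y := fun t s h y hy e => by
    have : (t : ℝ) ≤ s := Nat.cast_le.2 h
    rcases le_total 0 x with f | f
    · nlinarith only [e, this, f]
    · exact lt_of_le_of_lt (mul_nonpos_of_nonneg_of_nonpos (by positivity) f) hy
  have I0 : (0 : ℝ) < I.card := by
    by_cases f : T
    · nlinarith only [x5, x9, K0, mul_lt_mul_of_pos_right (g2 f) K0]
    · nlinarith only [x5, K0, x9, f, mul_lt_mul_of_pos_right (g3 f) K0]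
  refine Finset.not_nonempty_iff_eq_empty.2 he ?_
  by_cases hI : (k + 1 : ℕ) * x < I.card
  · obtain ⟨φ, f1, f2⟩ := greedy R (fun _ => I) (fun _ => x6) (k + 2) fun t h =>
      tx t _ (by omega) _ I0 hI
    have f3 : ∀ z, φ (c0 z - 1) ∈ I := fun z => f1 _ (by have := h0 z; omega)
    refine d2 V G F X V' (fun w => D (φ (c0 w - 1))) (fun h => x3 (h.mono le_rfl Subset.rfl
      (by omega))) x1 (fun a b _ _ h => (out_bot h1 a b h).elim) (fun z hz => ?_) fun u hu v hv e =>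
      l1 _ (min_le_right _ _) _ (f3 u) _ (f3 v) (f2 _ (by have := h0 u; omega) _
        (by have := h0 v; omega) ?_)
    · obtain ⟨y1, y2, y3, y4⟩ := x7 _ (f3 z)
      exact ⟨y1, y2, by omega, fun x hx y hy e => by simpa using (y4 x hx y hy e).1⟩
    · have := h1 u v e
      simp only [Finset.mem_filter, mem_univ, true_and] at hu hv
      omega
  · push_cast at hI
    have x0 : 0 ≤ x := le_of_mul_le_mul_left (a := (k : ℝ) + 1) (by linarith) (by positivity)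
    obtain ⟨φ, f1, f2⟩ := greedy R (fun t => if T ∧ t = k then I else J)
      (fun t v hv => x6 v (by split_ifs at hv; exacts [hv, x4 hv])) (k + 1) fun t h => by
      by_cases f : T
      · have := mul_lt_mul_of_pos_right (g2 f) K0
        split_ifs with e
        · rw [e.2]; nlinarith only [x5, x9, this, hx]
        · have : (t : ℝ) + 1 ≤ k := by exact_mod_cast (by have := not_and.1 e f; omega : t + 1 ≤ k)
          nlinarith [mul_le_mul_of_nonneg_right this x0]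
      · have := mul_lt_mul_of_pos_right (g3 f) K0
        rw [if_neg fun e => f e.1]
        have : (t : ℝ) ≤ k := by exact_mod_cast (by omega : t ≤ k)
        nlinarith [mul_le_mul_of_nonneg_right this x0]
    have f4 : ∀ z ∈ univ.filter fun v => c v ≠ 0, 1 ≤ c z ∧ c z ≤ k + 1 := fun z hz =>
      ⟨Nat.pos_of_ne_zero (Finset.mem_filter.1 hz).2, hS.1 z⟩
    have f3 : ∀ z ∈ univ.filter fun v => c v ≠ 0, φ (k + 1 - c z) ∈ I := fun z hz => by
      have := f1 (k + 1 - c z) (by have := f4 z hz; omega)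
      split_ifs at this; exacts [this, x4 this]
    refine d1 V G F X V' (fun w => D (φ (k + 1 - c w))) (fun h => x3 (h.mono le_rfl Subset.rfl
      (by omega))) x1 (fun _ _ _ _ _ h => x2 h) (fun z hz => ?_) fun u hu v hv e =>
      l1 _ (min_le_left _ _) _ (f3 u hu) _ (f3 v hv) (f2 _ (by have := f4 u hu; omega) _
        (by have := f4 v hv; omega) ?_)
    · obtain ⟨y1, y2, y3, y4⟩ := x7 _ (f3 z hz)
      refine ⟨y1, y2, by omega, fun x hx y hy e => ?_⟩
      split_ifs with f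
      · simpa using (y4 x hx y hy e).1
      · refine (y4 x hx y hy e).2 ?_
        have := f1 (k + 1 - c z) (by have := f4 z hz; omega)
        rwa [if_neg fun e => f ⟨e.1, by have := f4 z hz; omega⟩] at this
    · have := hS.2.1 u v e
      have := f4 u hu
      have := f4 v hv
      omega

end Pool.Agent.Lib.MP_46505f_co
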