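import Pool.Agent.Lib.MP_46505f_co.Upper

set_option autoImplicit false
set_option linter.unusedSectionVars false
open Finset Filter Topology
open Pool.Agent.Lib.MP_eaf82e_pr

namespace Pool.Agent.Lib.MP_46505f_co

/- Upper bounds on the chromatic threshold. -/

variable {W : Type} [Fintype W] [DecidableEq W] {H : SimpleGraph W} {p : ℕ → unitInterval}
  {span : Prop} {d : ℝ}

def Lg (p : ℕ → unitInterval) : Prop := ∀ K : ℝ, ∀ᶠ n : ℕ in atTop, K * Real.log n ≤ p n * n

lemma lg_of (h : Tendsto (fun n : ℕ => (p n : ℝ) * n / Real.log n) atTop atTop) : Lg p := fun K => by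
  filter_upwards [h.eventually_ge_atTop K, eventually_gt_atTop 1] with n h1 h2
  rwa [le_div_iff₀ (Real.log_pos (by exact_mod_cast h2))] at h1

lemma tend_log : Tendsto (fun n : ℕ => n * Real.exp (-(2 * Real.log n))) atTop (𝓝 0) := by
  refine tendsto_inv_atTop_nhds_zero_nat.congr' ?_
  filter_upwards [eventually_gt_atTop 0] with n hn
  have : (0 : ℝ) < n := by exact_mod_cast hn
  rw [Real.exp_neg, two_mul, Real.exp_add, Real.exp_log this]
  field_simp

lemma tend_exp {f : ℕ → ℝ} (h : Tendsto f atTop (𝓝 0)) :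
    Tendsto (fun n => Real.exp (f n) - 1) atTop (𝓝 0) := by
  simpa using ((Real.continuous_exp.tendsto 0).comp h).sub_const 1

lemma tend_neg : Tendsto (fun n : ℕ => Real.exp (-n)) atTop (𝓝 0) :=
  Real.tendsto_exp_neg_atTop_nhds_zero.comp tendsto_natCast_atTop_atTop

lemma Lg.tend (h : Lg p) {c : ℝ} (hc : 0 < c) :
    Tendsto (fun n : ℕ => n * Real.exp (-(c * (p n * n)))) atTop (𝓝 0) := by
  refine squeeze_zero' (Eventually.of_forall fun n => by positivity) ?_ tend_log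
  filter_upwards [h (2 / c)] with n hn
  rw [div_mul_eq_mul_div, div_le_iff₀ hc] at hn
  exact mul_le_mul_of_nonneg_left (Real.exp_le_exp.2 (by linarith)) n.cast_nonneg

lemma tend_Xp : Tendsto (fun n : ℕ => Pr (fun _ => (p n : ℝ)) fun ω : Sym2 (Fin n) → Bool =>
    ¬ Xp (gr (rs ω)) (p n) (Real.log n)) atTop (𝓝 0) := by
  refine squeeze_zero (fun n => Pr_nonneg (isP_p p n) _) (fun n => Pr_Xp (p n).2.1 (p n).2.2 _) ?_
  simpa [mul_assoc] using tend_exp (by simpa using tend_log.const_mul 2)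

lemma Bad.mono {V : Type} [Fintype V] [DecidableEq V] {d d' : ℝ} {C : ℕ} {E : Finset (Sym2 V)}
    (h : Bad H d C E) (hd : d' ≤ d) : Bad H d' C E :=
  let ⟨V', I, a1, a2, a3, a4⟩ := h
  ⟨V', I, a1, a2, fun v hv => hd.trans (a3 v hv), a4⟩

lemma pn_nonneg (p : ℕ → unitInterval) (n : ℕ) : 0 ≤ (p n : ℝ) * n :=
  mul_nonneg (p n).2.1 n.cast_nonneg

theorem adm_one (h : Lg p) (hd : 1 < d) : Adm H p span d := by
  obtain ⟨η, h0, h1, h2⟩ : ∃ η : ℝ, 0 < η ∧ η ≤ 1 ∧ 1 + η ≤ d :=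
    ⟨min 1 (d - 1), lt_min one_pos (by linarith), min_le_left _ _, by
      linarith [min_le_right 1 (d - 1)]⟩
  refine adm_of (C := 0) (squeeze_zero (fun n => Pr_nonneg (isP_p p n) _) (fun n => ?_)
    (h.tend (by positivity : 0 < η ^ 2 / 4)))
  have := Pr_max (V := Fin n) (p n).2.1 (p n).2.2 h0.le h1
  rw [Fintype.card_fin] at this
  refine ((Pr_mono (isP_p p n) fun ω ⟨V', I, a1, _, a3, a4⟩ => ?_).trans this).trans_eq
    (by congr 3; ring)
  obtain ⟨v, hv⟩ := nonempty_of_not_col a4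
  exact ⟨v, (mul_le_mul_of_nonneg_right h2 (pn_nonneg p n)).trans ((a3 v hv).trans
    (Nat.cast_le.2 (dg_mono (gr_mono a1) v (subset_univ _))))⟩

lemma one_le_tau {n m : ℝ} (hn : 1 ≤ n) (hm : 1 ≤ m) : 1 ≤ n ^ (-(1 / m)) * n := by
  rw [← Real.rpow_add_one (by linarith)]
  refine Real.one_le_rpow hn ?_
  have : 1 / m ≤ 1 := (div_le_one (by linarith)).2 hm
  linarith

theorem adm_pi (hH : ¬ H.IsAcyclic) (h : Lg p) (hA : Above p (m2 H)) {r : ℕ} (hr : 2 ≤ r)
    (col : W → Fin r) (hcol : ∀ a b, H.Adj a b → col a ≠ col b)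
    (hd : ((r : ℝ) - 2) / (r - 1) < d) : Adm H p span d := by
  have hr' : (2 : ℝ) ≤ r := by exact_mod_cast hr
  obtain ⟨π, hπ⟩ : ∃ x, x = ((r : ℝ) - 2) / (r - 1) := ⟨_, rfl⟩
  have h0 : 0 ≤ π := by rw [hπ]; exact div_nonneg (by linarith) (by linarith)
  have h1 : π * (r - 1) = r - 2 := by rw [hπ, div_mul_cancel₀ _ (by linarith)]
  obtain ⟨d', d1, d2, d3⟩ : ∃ d', d' ≤ d ∧ d' ≤ 1 ∧ π < d' := ⟨min d 1, min_le_left _ _,
    min_le_right _ _, lt_min (hπ ▸ hd) (by nlinarith)⟩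
  obtain ⟨c, hc, key⟩ := up_pi col hcol (a := (π + d') / 2) (d := d') (g := (d' - π) / 100)
    (by linarith) (by linarith) (by linarith) (by linarith) fun j j1 j2 => by
      have : (j : ℝ) + 1 ≤ r := by exact_mod_cast j2
      nlinarith [mul_nonneg (by linarith : 0 ≤ r - 1 - (j : ℝ)) (by linarith : 0 ≤ 2 - π - d'),
        mul_nonneg (by linarith : 0 ≤ (r : ℝ) - 2) (by linarith : 0 ≤ d' - π)]
  have hm := one_lt_m2 hH
  refine adm_of (C := 0) (squeeze_zero' (Eventually.of_forall fun n => Pr_nonneg (isP_p p n) _) ?_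
    (by simpa using tend_neg.add (tend_Xp (p := p))))
  filter_upwards [hA.eventually_ge_atTop (1 / c), h (1 / c), eventually_ge_atTop 1] with n a1 a2 a3
  have hn : (1 : ℝ) ≤ n := by exact_mod_cast a3
  have hn0 : (0 : ℝ) < n := by linarith
  have := key (Fin n) (p n) ((n : ℝ) ^ (-(1 / m2 H))) (Real.log n) (p n).2.2 (by positivity) ?_
    (by simpa using one_le_tau hn hm.le) (Real.log_nonneg hn) ?_ fun S hS => by
      simpa using pow_tau hn (by linarith) (eIn_bound le_rfl hS)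
  · rw [Fintype.card_fin] at this
    refine le_trans (Pr_mono (isP_p p n) fun ω hω => ?_) ((Pr_or_le (isP_p p n) _ _).trans
      (add_le_add this le_rfl))
    exact (em _).imp (fun h => ⟨hω.mono (mul_le_mul_of_nonneg_right d1 (pn_nonneg p n)), h⟩) id
  · rw [Real.rpow_neg hn0.le, inv_le_iff_one_le_mul₀ (by positivity)]
    rw [div_le_iff₀ hc] at a1
    linarith
  · rw [Fintype.card_fin]
    rw [one_div_mul_eq_div, div_le_iff₀ hc] at a2
    linarith

theorem adm_cloud (hH : ¬ H.IsAcyclic) {I : Finset W} (hC : IsCloud H I)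
    (hA : PolyAbove p (mI H I)) (hd : IsThunder H I ∧ 0 < d ∨ 1 / 3 < d) : Adm H p span d := by
  obtain ⟨S0, hS0, -⟩ := exists_dense hH
  have : Nonempty W := ⟨(Finset.card_pos.1 (by omega : 0 < S0.card)).choose⟩
  obtain ⟨d', a, g, d1, d2, d3, d4, d5, d6⟩ : ∃ d' a g : ℝ, d' ≤ d ∧ 0 < g ∧ 3 * g ≤ a ∧
      a + 3 * g ≤ d' ∧ d' ≤ 1 ∧ (IsThunder H I ∨ 1 + 9 * g ≤ 3 * a) := by
    have e1 := min_le_left d 1
    have e2 := min_le_right d 1
    rcases hd with hd | hd
    · have := lt_min hd.2 one_pos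
      exact ⟨_, min d 1 / 2, min d 1 / 10, e1, by linarith, by linarith, by linarith, e2, .inl hd.1⟩
    · have := lt_min hd (by norm_num : (1 / 3 : ℝ) < 1)
      exact ⟨_, (min d 1 + 1 / 3) / 2, (min d 1 - 1 / 3) / 10, e1, by linarith, by linarith,
        by linarith, e2, .inr (by linarith)⟩
  obtain ⟨ε, hε, hp⟩ := hA
  obtain ⟨A, hA⟩ : ∃ x, x = 6 * (Fintype.card W + 3) ^ 3 + 6 := ⟨_, rfl⟩
  have hA0 : (0 : ℝ) < A := by rw [hA]; positivity
  have he : 0 < ε / A := by positivity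
  obtain ⟨L, hL⟩ := exists_nat_ge (1 / (ε / A))
  rw [div_le_iff₀ he] at hL
  obtain ⟨C, q0, key⟩ := up_cloud hC d2 d3 d4 d5 d6 L (4 * L)
  rw [← hA] at key
  have hm := m2_le_mI hH hC
  have hm1 := one_lt_m2 hH
  have t1 : Tendsto (fun n : ℕ => (n : ℝ) ^ (ε / A)) atTop atTop :=
    (tendsto_rpow_atTop he).comp tendsto_natCast_atTop_atTop
  have t2 := tendsto_natCast_atTop_atTop.eventually
    (((isLittleO_log_rpow_atTop he).const_mul_left q0).bound one_pos)
  have t3 := (tend_neg.add (tend_Xp (p := p))).add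
    (tend_exp (mul_zero (Real.exp 1) ▸ tend_log.const_mul (Real.exp 1)))
  rw [add_zero, add_zero] at t3
  refine adm_of (C := C) (squeeze_zero' (Eventually.of_forall fun n => Pr_nonneg (isP_p p n) _) ?_
    t3)
  filter_upwards [hp, t1.eventually_ge_atTop q0, t2, eventually_ge_atTop 1] with n a1 a2 a3 a4
  have hn : (1 : ℝ) ≤ n := by exact_mod_cast a4
  have hn0 : (0 : ℝ) < n := by linarith
  have hl := Real.log_nonneg hn
  have := key (Fin n) (p n) ((n : ℝ) ^ (-(1 / mI H I))) (Real.log n) ((n : ℝ) ^ (ε / A)) (p n).2.2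
    (by positivity) a2 ?_ (by simpa using one_le_tau hn (by linarith)) hl ?_ ?_
    (fun S hS => by simpa using pow_tau hn (by linarith) (cross_bound hC hS)) fun S hS => by
      simpa using pow_tau hn (by linarith) (eIn_bound hm hS)
  · rw [Fintype.card_fin] at this
    have b := Pr_Sp (V := Fin n) (p n).2.1 (p n).2.2 (Real.one_le_rpow hn he.le) (4 * L)
    refine le_trans (Pr_mono (isP_p p n) fun ω hω => ?_) ((Pr_or_le (isP_p p n) _ _).trans
      (add_le_add ((Pr_or_le (isP_p p n) _ _).trans (add_le_add this le_rfl)) (b.trans ?_)))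
    · have := hω.mono (mul_le_mul_of_nonneg_right d1 (pn_nonneg p n))
      tauto
    · rw [Fintype.card_fin, mul_left_comm, ← Real.exp_add, Real.log_rpow hn0]
      gcongr
      push_cast
      nlinarith
  · rw [← Real.rpow_natCast, ← Real.rpow_mul hn0.le, div_mul_cancel₀ _ hA0.ne',
      ← Real.rpow_add hn0]
    exact a1
  · rw [one_mul, Real.norm_of_nonneg (by positivity : 0 ≤ (n : ℝ) ^ (ε / A))] at a3
    exact (le_abs_self _).trans a3
  · rw [← Real.rpow_natCast, ← Real.rpow_mul hn0.le, Fintype.card_fin]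
    simpa using Real.rpow_le_rpow_of_exponent_le hn (by linarith : 1 ≤ ε / A * L)

end Pool.Agent.Lib.MP_46505f_co
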