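import Pool.Agent.Lib.MP_46505f_co.KO
import Pool.Agent.Lib.MP_46505f_co.UpAsym

set_option autoImplicit false
set_option linter.unusedSectionVars false
open Finset Filter Topology
open Pool.Agent.Lib.MP_eaf82e_pr

namespace Pool.Agent.Lib.MP_46505f_co

/- The small subgraph of large chromatic number and large girth. -/

variable {g : ℕ} {V : Type} [Fintype V] [DecidableEq V]

structure KO (G0 : SimpleGraph (Fin g)) (h Δ C : ℕ) (E : Finset (Sym2 V)) (X : Finset V)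
    (lab : V → Fin g) : Prop where
  sub : ∀ u v, (gr E).Adj u v → u ∈ X ∧ G0.Adj (lab u) (lab v)
  deg : ∀ v, dg (gr E) v univ ≤ Δ
  core : ∀ Q : Finset V, Q.card ≤ h → NoCore (gr E) Q 2
  ncol : ¬ Col (gr E) X C

lemma ko_final {T : Type} [Fintype T] [DecidableEq T] [Nonempty T] {R : ℕ}
    {c : (Fin g × T) × Fin R → V} (hc : Function.Injective c) {G0 : SimpleGraph (Fin g)}
    {h Δ C : ℕ} (hG : ¬ G0.Colorable C) {A : ℝ} (h2 : 2 ≤ h) (hΔ : 8 * A < Δ)
    (hA : 4 * h * A ≤ Fintype.card T) {E : Finset (Sym2 V)} (hI : Inv c h C A g E) :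
    ∃ E' ⊆ E, ∃ X lab, X ⊆ pool c g ∧ X.card ≤ g * Fintype.card T ∧ KO G0 h Δ C E' X lab := by
  classical
  obtain ⟨κ, ν, a1, a2, a3⟩ := hI
  have hlay : ∀ s, s ∈ lay T g g := fun s => mem_lay.2 s.1.2
  replace a1 := fun s => a1 s (hlay s)
  obtain ⟨m, hm'⟩ : ∃ x : ℝ, x = Fintype.card T := ⟨_, rfl⟩
  have hm : 0 < m := by rw [hm']; exact_mod_cast Fintype.card_pos
  rw [← hm'] at a2 hA
  have hw := wgt_nonneg (g := g) (T := T) hm.le ν
  have hpot : ∀ 𝓢 : Finset (Finset (Fin g × T)), (∀ S ∈ 𝓢, S.card ≤ h) →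
      ∑ S ∈ 𝓢, wgt m ν S ≤ A := fun 𝓢 hS => le_trans (Finset.sum_le_sum_of_subset_of_nonneg
    (fun S h => Finset.mem_filter.2 ⟨Finset.mem_powerset.2 fun s _ => hlay s, hS S h⟩)
    fun _ _ _ => hw _) a2
  have hA0 : 0 ≤ A := by simpa using hpot ∅ (by simp)
  let Γ : SimpleGraph (Fin g × T) := SimpleGraph.fromRel fun s s' => s' ∈ ν s
  have hΓ : ∀ s s', s' ∈ ν s → Γ.Adj s s' := fun s s' h =>
    ⟨fun e => (a1 s s' h).1.ne (by rw [e]), Or.inl h⟩
  have hsum : ∀ Q, ∑ s ∈ Q, dg Γ s Q ≤ 2 * ∑ s ∈ Q, (ν s ∩ Q).card := fun Q => by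
    have e : ∑ s ∈ Q, (Q.filter fun s' => s ∈ ν s').card = ∑ s ∈ Q, (ν s ∩ Q).card := by
      simp only [Finset.card_filter]
      rw [Finset.sum_comm]
      refine Finset.sum_congr rfl fun s _ => ?_
      rw [← Finset.card_filter, Finset.filter_mem_eq_inter, Finset.inter_comm]
    rw [two_mul]
    nth_rewrite 1 [← e]
    rw [← Finset.sum_add_distrib]
    refine Finset.sum_le_sum fun s _ => le_trans (Finset.card_le_card fun s' hs' => ?_)
      (Finset.card_union_le _ _)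
    rw [mem_nb] at hs'
    rcases hs'.2.2 with e | e
    · exact Finset.mem_union_right _ (Finset.mem_inter.2 ⟨e, hs'.1⟩)
    · exact Finset.mem_union_left _ (Finset.mem_filter.2 ⟨hs'.1, e⟩)
  let 𝓓 := univ.filter fun S : Finset (Fin g × T) => S.card ≤ h ∧ S.card ≤ ∑ s ∈ S, (ν s ∩ S).card
  have b1 : ((𝓓.biUnion id).card : ℝ) ≤ m / 4 := by
    have c1 := (Nat.cast_le (α := ℝ)).2 (Finset.card_biUnion_le_card_mul 𝓓 id h
      fun S hS => (Finset.mem_filter.1 hS).2.1)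
    have c2 := (Finset.card_nsmul_le_sum 𝓓 _ (1 : ℝ) fun S hS => by
      unfold wgt
      rw [Finset.prod_div_distrib, Finset.prod_pow_eq_pow_sum, Finset.prod_const,
        le_div_iff₀ (by positivity), one_mul]
      exact le_trans (by gcongr; linarith) (pow_le_pow_right₀ (by linarith)
        (Finset.mem_filter.1 hS).2.2)).trans (hpot 𝓓 fun S hS => (Finset.mem_filter.1 hS).2.1)
    rw [nsmul_eq_mul, mul_one] at c2
    push_cast at c1
    nlinarith only [hA, c1, c2, h.cast_nonneg (α := ℝ)]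
  have b2 : ((∑ s, (ν s ∩ univ).card : ℕ) : ℝ) ≤ A * m := by
    simp only [Finset.inter_univ]
    rw [← Finset.card_sigma, ← div_le_iff₀ hm, div_eq_mul_inv, ← nsmul_eq_mul]
    refine (Finset.card_nsmul_le_sum _ (fun z => wgt m ν {z.1, z.2}) _ fun z hz => ?_).trans
      (le_trans (le_of_eq (Finset.sum_image ?_).symm) (hpot _ fun S hS => ?_))
    · have c1 := (Finset.mem_sigma.1 hz).2
      unfold wgt
      rw [Finset.prod_pair (hΓ _ _ c1).ne]
      have c2 : 1 ≤ (ν z.1 ∩ {z.1, z.2}).card := Finset.card_pos.2 ⟨z.2, by simp [c1]⟩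
      calc m⁻¹ = m / m * (1 / m) := by field_simp
        _ ≤ _ := by
          gcongr
          · exact le_trans (by linarith) (le_self_pow₀ (by linarith) (by omega))
          · exact one_le_pow₀ (by linarith)
    · rintro ⟨s, t⟩ hz ⟨s', t'⟩ hz' e
      have c1 := (a1 _ _ (Finset.mem_sigma.1 hz).2).1
      have c2 := (a1 _ _ (Finset.mem_sigma.1 hz').2).1
      have e' : ({s, t} : Set (Fin g × T)) = {s', t'} := by
        simpa using congrArg (fun S : Finset (Fin g × T) => (S : Set (Fin g × T))) e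
      rcases Set.pair_eq_pair_iff.1 e' with ⟨rfl, rfl⟩ | ⟨rfl, rfl⟩
      · rfl
      · exact absurd c1 (not_lt.2 c2.le)
    · obtain ⟨z, -, rfl⟩ := Finset.mem_image.1 hS
      exact Finset.card_le_two.trans h2
  let B2 := univ.filter fun s => Δ < dg Γ s univ
  have b3 : (B2.card : ℝ) ≤ m / 4 := by
    have c1 := ((Finset.card_nsmul_le_sum B2 _ Δ fun s hs => (Finset.mem_filter.1 hs).2.le).trans
      (Finset.sum_le_sum_of_subset (subset_univ _))).trans (hsum univ)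
    have c2 := (Nat.cast_le (α := ℝ)).2 c1
    rw [smul_eq_mul, Nat.cast_mul, Nat.cast_mul, Nat.cast_ofNat] at c2
    by_contra c3
    nlinarith only [b2, c2, c3, hΔ, hm]
  obtain ⟨Gd, hGd⟩ : ∃ x : Finset (Fin g × T), ∀ s, s ∈ x ↔ s ∉ 𝓓.biUnion id ∪ B2 :=
    ⟨univ \ (𝓓.biUnion id ∪ B2), fun s => Finset.mem_sdiff.trans (and_iff_right (mem_univ _))⟩
  let x := fun s => c (s, κ s)
  have hx : Function.Injective x := fun s s' e => congrArg Prod.fst (hc e)
  let E' := (univ.filter fun z : (Fin g × T) × Fin g × T => z.1 ∈ Gd ∧ z.2 ∈ Gd ∧ Γ.Adj z.1 z.2 ∧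
    G0.Adj z.1.1 z.2.1).image fun z => s(x z.1, x z.2)
  have hE' : ∀ u v, (gr E').Adj u v ↔ ∃ s s', u = x s ∧ v = x s' ∧ s ∈ Gd ∧ s' ∈ Gd ∧
      Γ.Adj s s' ∧ G0.Adj s.1 s'.1 := fun u v => by
    rw [gr_adj]
    refine ⟨fun h => ?_, ?_⟩
    · obtain ⟨z, c1, c2⟩ := Finset.mem_image.1 h.1
      obtain ⟨-, d1, d2, d3, d4⟩ := Finset.mem_filter.1 c1
      rcases Sym2.eq_iff.1 c2 with e | e
      exacts [⟨_, _, e.1.symm, e.2.symm, d1, d2, d3, d4⟩,
        ⟨_, _, e.2.symm, e.1.symm, d2, d1, d3.symm, d4.symm⟩]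
    · rintro ⟨s, s', rfl, rfl, d⟩
      exact ⟨Finset.mem_image.2 ⟨(s, s'), Finset.mem_filter.2 ⟨mem_univ _, d⟩, rfl⟩,
        fun e => d.2.2.1.ne (hx e)⟩
  have hdg : ∀ v Q, dg (gr E') v Q = 0 ∨ ∃ s ∈ Gd, v = x s ∧
      dg (gr E') v Q ≤ dg Γ s (Gd.filter fun s => x s ∈ Q) := fun v Q => by
    rcases (nb (gr E') v Q).eq_empty_or_nonempty with e | ⟨u, hu⟩
    · exact Or.inl (Finset.card_eq_zero.2 e)
    obtain ⟨s, -, rfl, -, c1, -⟩ := (hE' _ _).1 (mem_nb.1 hu).2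
    refine Or.inr ⟨s, c1, rfl, le_trans (Finset.card_le_card fun u hu => ?_)
      (Finset.card_image_le (f := x))⟩
    obtain ⟨s1, s', e, rfl, -, d1, d2, -⟩ := (hE' _ _).1 (mem_nb.1 hu).2
    exact Finset.mem_image_of_mem _ (mem_nb.2 ⟨Finset.mem_filter.2 ⟨d1, (mem_nb.1 hu).1⟩,
      hx e ▸ d2⟩)
  have : Nonempty (Fin g) := by
    by_contra e
    rw [not_nonempty_iff] at e
    exact hG (SimpleGraph.Colorable.of_isEmpty _)
  have : Nonempty (Fin g × T) := inferInstance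
  refine ⟨E', fun e he => ?_, Gd.image x, fun v => (Function.invFun x v).1, fun v hv => ?_,
    Finset.card_image_le.trans ((Finset.card_le_univ _).trans_eq (by simp)), fun u v h => ?_,
    fun v => ?_, fun Q hQ Q' hQ' hne => ?_, fun ⟨col, c1, c2⟩ => hG ?_⟩
  · obtain ⟨z, c1, rfl⟩ := Finset.mem_image.1 he
    rcases (Finset.mem_filter.1 c1).2.2.2.1.2 with e | e
    exacts [(a1 _ _ e).2, Sym2.eq_swap ▸ (a1 _ _ e).2]
  · obtain ⟨s, -, rfl⟩ := Finset.mem_image.1 hv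
    exact Finset.mem_image_of_mem _ (Finset.mem_product.2 ⟨hlay _, mem_univ _⟩)
  · obtain ⟨s, s', rfl, rfl, d1, -, -, d2⟩ := (hE' _ _).1 h
    simp only [Function.leftInverse_invFun hx _]
    exact ⟨Finset.mem_image_of_mem _ d1, d2⟩
  · rcases hdg v univ with e | ⟨s, c1, -, c2⟩
    · omega
    · refine c2.trans ((dg_mono le_rfl s (subset_univ _)).trans (not_lt.1 fun e => ?_))
      exact (hGd s).1 c1
        (Finset.mem_union_right _ (Finset.mem_filter.2 ⟨mem_univ _, e⟩))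
  · by_contra c0
    push Not at c0
    have c1 : ∀ v ∈ Q', ∃ s ∈ Gd, v = x s ∧ 2 ≤ dg Γ s (Gd.filter fun s => x s ∈ Q') :=
      fun v hv => by
        have : 2 ≤ dg (gr E') v Q' := by exact_mod_cast c0 v hv
        obtain ⟨s, d1, d2, d3⟩ := (hdg v Q').resolve_left (by omega)
        exact ⟨s, d1, d2, this.trans d3⟩
    obtain ⟨v, hv⟩ := hne
    obtain ⟨s, d1, rfl, -⟩ := c1 v hv
    have c2 := (Finset.card_nsmul_le_sum (Gd.filter fun s => x s ∈ Q')
      (fun s => dg Γ s (Gd.filter fun s => x s ∈ Q')) 2 fun s hs => by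
      obtain ⟨s', -, e, d⟩ := c1 _ (Finset.mem_filter.1 hs).2
      rwa [hx e]).trans (hsum _)
    refine (hGd s).1 d1 (Finset.mem_union_left _ (Finset.mem_biUnion.2
      ⟨Gd.filter fun s => x s ∈ Q', Finset.mem_filter.2 ⟨mem_univ _, ?_, ?_⟩,
      Finset.mem_filter.2 ⟨d1, hv⟩⟩))
    · exact (Finset.card_le_card_of_injOn x (fun s hs => hQ' (Finset.mem_filter.1 hs).2)
        hx.injOn).trans hQ
    · rw [smul_eq_mul] at c2; omega
  · have key : ∀ u : Fin g, ∃ a < C, Fintype.card T ≤ 2 * C *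
        ((univ.filter fun t => (u, t) ∈ Gd).filter fun t => col (x (u, t)) = a).card := fun u => by
      have d1 : Fintype.card T ≤ 2 * (univ.filter fun t => (u, t) ∈ Gd).card := by
        have e1 := Finset.card_filter_add_card_filter_not (s := univ) fun t => (u, t) ∈ Gd
        have e2 := (Finset.card_le_card_of_injOn (s := univ.filter fun t => (u, t) ∉ Gd)
          (fun t => (u, t)) (fun t ht => not_not.1 fun e => (Finset.mem_filter.1 ht).2 ((hGd _).2 e))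
          fun _ _ _ _ e => congrArg Prod.snd e).trans (Finset.card_union_le (𝓓.biUnion id) B2)
        rw [Finset.card_univ] at e1
        rw [← Nat.cast_inj (R := ℝ)] at e1
        rw [← Nat.cast_le (α := ℝ)] at e2 ⊢
        push_cast at e1 e2 ⊢
        linarith
      have d2 : ∀ t ∈ univ.filter fun t => (u, t) ∈ Gd, col (x (u, t)) ∈ range C := fun t ht =>
        Finset.mem_range.2 (c1 _ (Finset.mem_image_of_mem _ (Finset.mem_filter.1 ht).2))
      by_contra d3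
      push Not at d3
      obtain ⟨t, ht⟩ := Finset.card_pos.1 (lt_of_mul_lt_mul_left
        (lt_of_lt_of_le Fintype.card_pos d1) (Nat.zero_le 2))
      have d4 := Finset.sum_lt_sum_of_nonempty ⟨_, d2 t ht⟩ fun a ha => d3 a (Finset.mem_range.1 ha)
      rw [← Finset.mul_sum, ← Finset.card_eq_sum_card_fiberwise d2, Finset.sum_const,
        Finset.card_range, smul_eq_mul] at d4
      nlinarith only [d4, d1]
    choose a d1 d2 using key
    have key : ∀ u u', u < u' → G0.Adj u u' → a u ≠ a u' := fun u u' h h' e => by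
      obtain ⟨t, e1, t', e2, e3⟩ := a3 u u' h u'.2 _ _ (d2 u) (d2 u')
      simp only [Finset.mem_filter, Finset.mem_univ, true_and] at e1 e2
      exact c2 _ (Finset.mem_image_of_mem _ e1.1) _ (Finset.mem_image_of_mem _ e2.1)
        ((hE' _ _).2 ⟨_, _, rfl, rfl, e1.1, e2.1, (hΓ _ _ e3).symm, h'⟩) (by rw [e1.2, e2.2, e])
    exact (SimpleGraph.colorable_iff_exists_bdd_nat_coloring _).2 ⟨SimpleGraph.Coloring.mk a
      fun {u u'} h => (lt_or_gt_of_ne h.ne).elim (fun e => key _ _ e h)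
        fun e => (key _ _ e h.symm).symm, d1⟩

lemma ko_iter {K b R : ℕ} {p : ℝ} (h0 : 0 ≤ p) (h1 : p ≤ 1) (hb0 : 0 < b) (hK0 : 0 < K)
    (k0 : Fin R) (hm : p * (K * b : ℕ) ≤ 1) {c : (Fin g × Fin K × Fin b) × Fin R → V}
    (hc : Function.Injective c) {h C : ℕ} (hK : 24 * C ^ 2 ≤ K) {π c1 η : ℝ}
    (hη : 0 < η) (hπ : π ≤ (p * b / 2) ^ (g * K)) (hc1 : (1 + 4 * (K : ℝ)) ^ h ≤ c1) :
    ∀ j ≤ g, Pr (fun _ => p) (fun ω => ¬ ∃ E ⊆ rs ω, E ⊆ btw (pool c j) (pool c j) ∧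
      Inv c h C ((Real.exp c1 / η) ^ j) j E) ≤
      j * (η + (K * b : ℕ) * Real.exp (-(π * R)) + g * Real.exp (-(K * b : ℕ))) := by
  intro j
  induction j with
  | zero =>
    intro _
    rw [Pr_false _ fun ω hω => hω ⟨∅, Finset.empty_subset _, Finset.empty_subset _, fun _ => k0,
      fun _ => ∅, by simp, by simp [pot, lay, wgt, Finset.filter_singleton], by simp⟩]
    simp
  | succ j ih =>
    intro hj
    rw [Nat.cast_succ, add_mul, one_mul, pow_succ]
    exact sprinkle (isP_const h0 h1) _ _ _ (by positivity) (ih (by omega)) fun E a1 a2 =>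
      ko_step h0 h1 hb0 hK0 k0 hm hc hK (by positivity) hη hπ hc1 ⟨j, hj⟩ a1 a2

theorem ko {p : ℕ → unitInterval} {l : Filter ℕ} (hl : l ≤ atTop) {ζ : ℕ → ℝ}
    (hζ : ∀ᶠ n in l, 0 < ζ n ∧ ζ n ≤ 1) (h0 : Tendsto (fun n => (p n : ℝ) / ζ n) l (𝓝 0))
    (hL : Lg p) {G0 : SimpleGraph (Fin g)} {C : ℕ} (hG : ¬ G0.Colorable C)
    (hZ : ∀ c > 0, Tendsto (fun n : ℕ => n * Real.exp
      (-(c * (ζ n ^ (g * (24 * C ^ 2 + 1)) * (p n * n))))) l (𝓝 0)) (h : ℕ) {η : ℝ}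
    (hη : 0 < η) (hη1 : η ≤ 1) : ∃ Δ : ℕ, ∀ᶠ n : ℕ in l, ∃ W0 : Finset (Fin n), W0.card ≤ η * n ∧
      Pr (fun _ => (p n : ℝ)) (fun ω => ¬ ∃ E ⊆ rs ω, E ⊆ btw W0 W0 ∧ ∃ X lab, X ⊆ W0 ∧
        (p n : ℝ) * X.card ≤ ζ n ∧ KO G0 h Δ C E X lab) ≤ 1 / 2 := by
  have hg : 0 < g := by
    refine Nat.pos_of_ne_zero fun e => hG ?_
    subst e
    exact SimpleGraph.Colorable.of_isEmpty _
  have hg' : (1 : ℝ) ≤ g := by exact_mod_cast hg
  obtain ⟨K, hK⟩ : ∃ x, x = 24 * C ^ 2 + 1 := ⟨_, rfl⟩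
  rw [← hK] at hZ
  have hK0 : 0 < K := by omega
  have hK1 : (0 : ℝ) < K := by exact_mod_cast hK0
  obtain ⟨z0, hz0'⟩ : ∃ x : ℝ, x = 1 / (g * K) := ⟨_, rfl⟩
  have hz0 : 0 < z0 := by rw [hz0']; positivity
  obtain ⟨A, hA⟩ : ∃ x, x = (Real.exp ((1 + 4 * (K : ℝ)) ^ (h + 2)) / (1 / (4 * g))) ^ g := ⟨_, rfl⟩
  obtain ⟨Δ, hΔ⟩ := exists_nat_gt (8 * A)
  obtain ⟨M, hM⟩ := ((Real.tendsto_exp_neg_atTop_nhds_zero.eventually_le_const
    (by positivity : 0 < 1 / (8 * (g : ℝ) ^ 2))).and ((eventually_ge_atTop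
    (4 * (h + 2 : ℕ) * A)).and (eventually_gt_atTop 0))).exists
  refine ⟨Δ, ?_⟩
  filter_upwards [h0.eventually_le_const (by have := hM.2.2; positivity : 0 < z0 / (M + 2)),
    hl (hL (2 / η)), (hZ _ (by positivity : 0 < (z0 / 4) ^ (g * K) * (η / 2))).eventually_le_const
    (by positivity : 0 < 1 / (8 * (g : ℝ))), hl (eventually_ge_atTop 3), hζ] with n a1 a2 a3 a4 a5
  obtain ⟨z, hz'⟩ : ∃ x, x = ζ n * z0 := ⟨_, rfl⟩
  have hz : 0 < z := by rw [hz']; exact mul_pos a5.1 hz0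
  have hz1 : z * (g * K) = ζ n := by rw [hz', hz0']; field_simp
  obtain ⟨π, hπ'⟩ : ∃ x, x = (z / 4) ^ (g * K) := ⟨_, rfl⟩
  have hπ : 0 < π := by rw [hπ']; positivity
  replace a1 : (p n : ℝ) ≤ z / (M + 2) := by
    rw [div_le_iff₀ a5.1] at a1; rw [hz']; exact a1.trans_eq (by ring)
  replace a3 : n * Real.exp (-(π * (η / 2) * (p n * n))) ≤ 1 / (8 * (g : ℝ)) := by
    refine le_trans (le_of_eq ?_) a3
    rw [hπ', hz', mul_div_assoc, mul_pow]; ring_nf
  replace a2 : 2 / η * Real.log n ≤ p n * n := a2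
  replace a4 : 3 ≤ n := a4
  have hn : (3 : ℝ) ≤ n := by exact_mod_cast a4
  have hl : 1 ≤ Real.log n := by
    rw [Real.le_log_iff_exp_le (by linarith)]; linarith only [hn, Real.exp_one_lt_d9]
  have b0 : 2 ≤ η * (p n * n) := by
    rw [div_mul_eq_mul_div, div_le_iff₀ hη] at a2; linarith
  have hp : (0 : ℝ) < p n := by
    rcases (p n).2.1.eq_or_lt with e | e
    · rw [← e] at b0; norm_num at b0
    · exact e
  obtain ⟨b, hb⟩ : ∃ x, x = ⌊z / p n⌋₊ := ⟨_, rfl⟩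
  have b1 : (p n : ℝ) * b ≤ z := by
    rw [mul_comm, ← le_div_iff₀ hp, hb]; exact Nat.floor_le (by positivity)
  have b2 : z < p n * (b + 1) := by
    rw [mul_comm, ← div_lt_iff₀ hp, hb]; exact Nat.lt_floor_add_one _
  rw [le_div_iff₀ (by linarith [hM.2.2])] at a1
  have b3 : M + 1 ≤ b := by
    by_contra e; nlinarith only [a1, b2, hM, hz, e]
  have hb1 : (1 : ℝ) ≤ b := by linarith [hM.2.2]
  have hb0 : 0 < b := by exact_mod_cast (by linarith : (0 : ℝ) < b)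
  have b4 : M ≤ (K * b : ℕ) := by
    have : (1 : ℝ) ≤ K := by exact_mod_cast hK0
    push_cast; nlinarith only [b3, this]
  have b5 : (p n : ℝ) * (g * (K * b : ℕ)) ≤ ζ n := by
    rw [← hz1]; push_cast
    nlinarith only [b1, hg, hK0, mul_le_mul_of_nonneg_right b1 (by positivity : (0 : ℝ) ≤ g * K)]
  have hm0 : (0 : ℝ) < (K * b : ℕ) := by positivity
  have b6 : (p n : ℝ) * (g * (K * b : ℕ)) ≤ 1 := b5.trans a5.2
  obtain ⟨R, hR⟩ : ∃ x, x = ⌊η * n / (g * (K * b : ℕ))⌋₊ := ⟨_, rfl⟩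
  have c1 : (R : ℝ) * (g * (K * b : ℕ)) ≤ η * n := by
    rw [← le_div_iff₀ (by positivity), hR]; exact Nat.floor_le (by positivity)
  have c2 : η / 2 * (p n * n) ≤ R := by
    have d1 : η * n < (R + 1) * (g * (K * b : ℕ)) := by
      rw [← div_lt_iff₀ (by positivity), hR]; exact Nat.lt_floor_add_one _
    have d2 := mul_le_mul_of_nonneg_left d1.le hp.le
    have d3 := mul_le_mul_of_nonneg_left b6 (by positivity : (0 : ℝ) ≤ R + 1)
    linarith
  have hR0 : 0 < R := by exact_mod_cast (by linarith : (0 : ℝ) < R)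
  have hR1 : (1 : ℝ) ≤ R := by exact_mod_cast hR0
  have c3 : (R : ℝ) * (g * (K * b : ℕ)) ≤ n := c1.trans (by nlinarith only [hη1])
  have hcard : Fintype.card ((Fin g × Fin K × Fin b) × Fin R) = R * (g * (K * b)) := by
    simp [mul_comm]
  obtain ⟨c⟩ := Function.Embedding.nonempty_of_card_le (α := (Fin g × Fin K × Fin b) × Fin R)
    (β := Fin n) (by rw [hcard, Fintype.card_fin]; exact_mod_cast c3)
  have : Nonempty (Fin K × Fin b) := ⟨⟨0, hK0⟩, ⟨0, hb0⟩⟩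
  have hT : Fintype.card (Fin K × Fin b) = K * b := by simp
  refine ⟨pool c g, le_trans (Nat.cast_le.2 (Finset.card_image_le.trans
    (Finset.card_le_univ _))) (by rw [hcard]; exact_mod_cast c1), ?_⟩
  refine (Pr_mono (isP_p p n) fun ω hω => ?_).trans ((ko_iter (p n).2.1 (p n).2.2
    hb0 hK0 ⟨0, hR0⟩ (le_trans (by gcongr; nlinarith only [hg']) b6) c.injective (h := h + 2) (C := C)
    (by omega) (π := π) (η := 1 / (4 * g)) (by positivity) ?_ le_rfl g le_rfl).trans ?_)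
  · rintro ⟨E, d1, d2, d3⟩
    rw [← hA] at d3
    obtain ⟨E', e1, X, lab, e2, e3, e4⟩ := ko_final c.injective hG (by omega) hΔ
      (by rw [hT]; exact hM.2.1.trans b4) d3
    refine hω ⟨E', e1.trans d1, e1.trans d2, X, lab, e2, le_trans ?_ b5,
      e4.sub, e4.deg, fun Q hQ => e4.core Q (by omega), e4.ncol⟩
    rw [hT] at e3
    gcongr
    exact_mod_cast e3
  · rw [hπ']
    exact pow_le_pow_left₀ (by positivity) (by linarith [mul_le_mul_of_nonneg_left hb1 hp.le]) _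
  · have d1 : ((K * b : ℕ) : ℝ) * Real.exp (-(π * R)) ≤ 1 / (8 * g) := by
      refine le_trans ?_ a3
      have : π * (η / 2) * (p n * n) ≤ π * R := by rw [mul_assoc]; gcongr
      exact mul_le_mul ((le_mul_of_one_le_left hm0.le hg').trans
        ((le_mul_of_one_le_left (by positivity) hR1).trans c3)) (Real.exp_le_exp.2 (by linarith))
        (by positivity) (by positivity)
    have d2 : Real.exp (-(K * b : ℕ)) ≤ 1 / (8 * (g : ℝ) ^ 2) :=
      le_trans (Real.exp_le_exp.2 (by linarith only [b4])) hM.1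
    calc _ ≤ (g : ℝ) * (1 / (4 * g) + 1 / (8 * g) + g * (1 / (8 * (g : ℝ) ^ 2))) := by gcongr
      _ = _ := by field_simp; ring

end Pool.Agent.Lib.MP_46505f_co
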