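import Pool.Agent.Lib.MP_46505f_co.Del
import Pool.Agent.Lib.MP_46505f_co.KO2

set_option autoImplicit false
set_option linter.unusedSectionVars false
open Finset Filter Topology
open Pool.Agent.Lib.MP_eaf82e_pr

namespace Pool.Agent.Lib.MP_46505f_co

/- The three round exposure behind the lower bounds. -/

variable {V : Type} [Fintype V] [DecidableEq V] {W : Type} [Fintype W] [DecidableEq W]
  {H : SimpleGraph W} {g : ℕ}

lemma core_of_cycle (hH : ¬ H.IsAcyclic) : ∃ S : Finset W, S.Nonempty ∧ ∀ v ∈ S, 2 ≤ dg H v S := by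
  unfold SimpleGraph.IsAcyclic at hH
  push Not at hH
  obtain ⟨v, c, hc⟩ := hH
  refine ⟨c.support.toFinset, ⟨v, by simp⟩, fun u hu => ?_⟩
  rw [← hc.ncard_neighborSet_toSubgraph_eq_two (List.mem_toFinset.1 hu), dg,
    ← Set.ncard_coe_finset]
  exact Set.ncard_le_ncard (fun x hx => mem_nb.2 ⟨List.mem_toFinset.2
    (c.mem_verts_toSubgraph.1 (c.toSubgraph.edge_vert hx.symm)), c.toSubgraph.adj_sub hx⟩)

lemma no_cycle {F : SimpleGraph V} (hF : ∀ Q : Finset V, Q.card ≤ Fintype.card W → NoCore F Q 2)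
    {τ : W → V} (hτ : Function.Injective τ) {S : Finset W} (hS : S.Nonempty)
    (h2 : ∀ v ∈ S, 2 ≤ dg H v S) (h : ∀ a ∈ S, ∀ b ∈ S, H.Adj a b → F.Adj (τ a) (τ b)) : False := by
  obtain ⟨v, hv, h1⟩ := hF (S.image τ) (Finset.card_image_le.trans (Finset.card_le_univ _)) _
    Subset.rfl (hS.image τ)
  obtain ⟨a, ha, rfl⟩ := Finset.mem_image.1 hv
  have := (h2 a ha).trans (Finset.card_le_card_of_injOn (t := nb F (τ a) (S.image τ)) τ
    (fun b hb => mem_nb.2 ⟨Finset.mem_image_of_mem _ (mem_nb.1 hb).1,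
      h a ha b (mem_nb.1 hb).1 (mem_nb.1 hb).2⟩) hτ.injOn)
  exact absurd this (not_le.2 (by exact_mod_cast h1))

def stars (X : Finset V) (N : V → Finset V) : Finset (Sym2 V) :=
  X.biUnion fun x => (N x).image fun y => s(x, y)

lemma mem_stars {X : Finset V} {N : V → Finset V} {u v : V} :
    s(u, v) ∈ stars X N ↔ u ∈ X ∧ v ∈ N u ∨ v ∈ X ∧ u ∈ N v := by
  simp only [stars, Finset.mem_biUnion, Finset.mem_image, Sym2.eq_iff]
  refine ⟨?_, fun h => h.elim (fun h => ⟨u, h.1, v, h.2, .inl ⟨rfl, rfl⟩⟩)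
    fun h => ⟨v, h.1, u, h.2, .inr ⟨rfl, rfl⟩⟩⟩
  rintro ⟨x, a1, y, a2, ⟨rfl, rfl⟩ | ⟨rfl, rfl⟩⟩
  exacts [.inl ⟨a1, a2⟩, .inr ⟨a1, a2⟩]

structure Base (G0 : SimpleGraph (Fin g)) (h Δ C : ℕ) (y m : ℝ) (Y0 X : Finset V)
    (E1 : Finset (Sym2 V)) (lab : V → Fin g) (N : V → Finset V) : Prop where
  ko : KO G0 h Δ C E1 X lab
  hX : X ⊆ Y0
  hN : ∀ x ∈ X, Disjoint (N x) X ∧ N x ⊆ Y0 ∧ (N x).card ≤ m
  priv : ∀ x ∈ X, ∀ x' ∈ X, ∀ y ∈ N x, y ∈ N x' → x = x'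
  small : Y0.card ≤ y

def Ext (H : SimpleGraph W) (p a μ : ℝ) (Y0 X : Finset V) (E1 : Finset (Sym2 V))
    (N : V → Finset V) : Prop :=
  ∃ (Γ : SimpleGraph V) (𝓔 : Finset (Finset (Sym2 V))),
    (∀ u v, Γ.Adj u v → u ∉ X ∧ (u ∉ Y0 ∨ v ∉ Y0)) ∧ (∀ v ∉ X, a ≤ dg Γ v univ) ∧
    (∀ e ∈ 𝓔, e.Nonempty ∧ e.card ≤ Fintype.card W ^ 2) ∧
    (∀ v, ∑ e ∈ 𝓔.filter fun e => v ∈ vts e, p ^ e.card ≤ μ) ∧
    ∀ E ⊆ eF Γ, (∀ e ∈ 𝓔, ¬ e ⊆ E) → embs H (gr (E1 ∪ (stars X N ∪ E))) univ = ∅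

def Ext2 (H : SimpleGraph W) (p a ε : ℝ) (Y0 X : Finset V) (E1 : Finset (Sym2 V))
    (N : V → Finset V) : Prop :=
  ∃ Γ : SimpleGraph V,
    (∀ u v, Γ.Adj u v → u ∉ X ∧ (u ∉ Y0 ∨ v ∉ Y0)) ∧ (∀ v ∉ X, a ≤ dg Γ v univ) ∧
    Pr (fun _ => p) (fun ω => ¬ ∃ E ⊆ rs ω ∩ eF Γ,
      embs H (gr (E1 ∪ (stars X N ∪ E))) univ = ∅ ∧
      ∀ v, (dg (gr (rs ω ∩ eF Γ)) v univ : ℝ) ≤ dg (gr E) v univ + ε) ≤ 1 / 10

variable {p : ℕ → unitInterval}

lemma Lg.large (h : Lg p) (K : ℝ) : ∀ᶠ n : ℕ in atTop, K ≤ p n * n := by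
  filter_upwards [h (max K 0), eventually_ge_atTop 3] with n a1 a2
  have hn : (3 : ℝ) ≤ n := by exact_mod_cast a2
  have hl : 1 ≤ Real.log n := by
    rw [Real.le_log_iff_exp_le (by linarith)]; linarith [Real.exp_one_lt_d9]
  nlinarith [le_max_left K 0, le_max_right K 0]

lemma Lg.small (h : Lg p) {c : ℝ} (hc : 0 < c) :
    ∀ᶠ n : ℕ in atTop, n * Real.exp (-(c * (p n * n))) ≤ 1 / 10 :=
  (h.tend hc).eventually_le_const (by norm_num)

lemma Lg.fam (h : Lg p) (k : ℕ) {ε : ℝ} (hε : 0 < ε) : ∃ c > 0, ∀ᶠ n : ℕ in atTop, ∃ t : ℕ,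
    (t * k : ℕ) ≤ ε * (p n * n) ∧ n * Real.exp (3 * (c * (p n * n)) - t) ≤ 1 / 10 := by
  refine ⟨ε / (2 * (k + 1)) / 6, by positivity, ?_⟩
  filter_upwards [h.large (2 * k / ε), h.small (by positivity : 0 < ε / (2 * (k + 1)) / 2)]
    with n a1 a2
  have a0 := pn_nonneg p n
  refine ⟨⌈ε / (2 * (k + 1)) * (p n * n)⌉₊, ?_, le_trans ?_ a2⟩
  · have a3 := (Nat.ceil_lt_add_one (by positivity : 0 ≤ ε / (2 * (k + 1)) * (p n * n))).le
    have a4 : ε / (2 * (k + 1)) * k ≤ ε / 2 := by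
      rw [div_mul_eq_mul_div, div_le_div_iff₀ (by positivity) (by positivity)]; nlinarith only [hε]
    rw [div_le_iff₀ hε] at a1
    push_cast
    nlinarith only [a1, a3, a4, a0, mul_le_mul_of_nonneg_right a3 (k.cast_nonneg (α := ℝ)),
      mul_le_mul_of_nonneg_right a4 a0]
  · have := Nat.le_ceil (ε / (2 * (k + 1)) * (p n * n))
    exact mul_le_mul_of_nonneg_left (Real.exp_le_exp.2 (by linarith only [this])) n.cast_nonneg

theorem pipe2 {l : Filter ℕ} (hl : l ≤ atTop) {ζ : ℕ → ℝ} (hζ : ∀ᶠ n in l, 0 < ζ n ∧ ζ n ≤ 1)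
    (h0 : Tendsto (fun n => (p n : ℝ) / ζ n) l (𝓝 0)) (hL : Lg p)
    {G0 : SimpleGraph (Fin g)} {C : ℕ} (hG : ¬ G0.Colorable C)
    (hZ : ∀ c > 0, Tendsto (fun n : ℕ => n * Real.exp
      (-(c * (ζ n ^ (g * (24 * C ^ 2 + 1)) * (p n * n))))) l (𝓝 0)) {d a y : ℝ} (hd : 0 ≤ d)
    (hda : d < a) (ha : a ≤ 1) (hy : 0 < y)
    (hE : ∀ Δ : ℕ, ∀ ε > 0, ∀ᶠ n : ℕ in l, ∀ (Y0 X : Finset (Fin n)) E1 lab N,
      Base G0 (Fintype.card W) Δ C (y * n) (2 * (p n * n)) Y0 X E1 lab N →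
      (p n : ℝ) * X.card ≤ ζ n → Ext2 H (p n) (a * n) (ε * (p n * n)) Y0 X E1 N) :
    ∀ᶠ n : ℕ in l, Pr (fun _ => (p n : ℝ)) (fun ω : Sym2 (Fin n) → Bool =>
      ¬ ∃ I ⊆ rs ω, Wit H (d * (p n * n)) C I) ≤ 9 / 10 := by
  obtain ⟨ε, e0, e1, e2⟩ : ∃ ε : ℝ, 0 < ε ∧ 3 * ε ≤ a - d ∧ 3 * ε ≤ y :=
    ⟨min (a - d) y / 3, by have := lt_min (sub_pos.2 hda) hy; positivity,
      by linarith [min_le_left (a - d) y], by linarith [min_le_right (a - d) y]⟩
  have e3 : ε ≤ 1 / 3 := by linarith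
  obtain ⟨Δ, hΔ⟩ := ko hl (ζ := fun n => ε * ζ n) (hζ.mono fun n h =>
    ⟨mul_pos e0 h.1, by nlinarith only [hd, ha, e1, hda, e0, h, h.1, h.2]⟩) (by
      simpa [div_mul_eq_div_div_swap] using h0.div_const ε) hL hG (fun c hc => by
      simpa only [mul_pow, mul_assoc] using hZ _ (by positivity :
        0 < c * ε ^ (g * (24 * C ^ 2 + 1)))) (Fintype.card W) e0 (by linarith)
  have ha0 : 0 < a := by linarith
  filter_upwards [hΔ, hE Δ ε e0, hl (hL.large 1), hl (hL.small (by positivity : 0 < ε ^ 2 / 16)),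
    hl (hL.small (by positivity : 0 < ε ^ 2 * a / 4)), hζ] with n ⟨W0, a1, a2⟩ a5 a6 a7 a8 a9
  replace a6 : (1 : ℝ) ≤ p n * n := a6
  replace a7 : n * Real.exp (-(ε ^ 2 / 16 * (p n * n))) ≤ 1 / 10 := a7
  replace a8 : n * Real.exp (-(ε ^ 2 * a / 4 * (p n * n))) ≤ 1 / 10 := a8
  have hP := isP_p p n
  have p0 := (p n).2.1
  have hn0 : (0 : ℝ) ≤ n := n.cast_nonneg
  refine (sprinkle hP _ _ _ (η2 := 1 / 10 + (1 / 10 + 1 / 10)) (by norm_num) a2 ?_).trans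
    (by norm_num)
  rintro E1 - ⟨X, lab, b1, b2', b3⟩
  have b2 : (p n : ℝ) * X.card ≤ ε := b2'.trans (mul_le_of_le_one_right e0.le a9.2)
  have b4 := stage2 p0 (p n).2.2 (X := X) (W1 := univ \ W0) (Finset.disjoint_sdiff.mono_left b1) b2
    (by linarith) (M := (1 - ε) * n) (by nlinarith only [hd, ha, e1]) (by
      rw [Finset.card_univ_sdiff, Nat.cast_sub (Finset.card_le_univ _), Fintype.card_fin]; linarith)
    e0.le (by linarith) (k := ⌈d * (p n * n)⌉₊) ((Nat.ceil_lt_add_one (by positivity)).le.trans (by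
      have : d ≤ (1 - ε) * (1 - ε) * (1 - ε) := by nlinarith only [ha, e1, hd, mul_nonneg e0.le e0.le]
      nlinarith only [this, hd, ha, e0, e1, a6, mul_le_mul_of_nonneg_right this (by linarith : 0 ≤ (p n : ℝ) * n)]))
  refine sprinkle hP (btw X univ) (fun E2 => ∃ N, ((∀ x ∈ X, N x ⊆ univ \ W0 ∧
    (N x).card = ⌈d * (p n * n)⌉₊) ∧ ∀ x ∈ X, ∀ x' ∈ X, ∀ y ∈ N x, y ∈ N x' → x = x') ∧
    E2 = stars X N) _ (by norm_num) ((Pr_mono hP fun ω hω => ?_).trans (b4.trans (le_trans ?_ a7)))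
    ?_
  · rintro ⟨N, c1, c2⟩
    refine hω ⟨stars X N, fun e he => ?_, fun e he => ?_, N,
      ⟨fun x hx => ⟨(c1 x hx).1, (c1 x hx).2.2⟩, c2⟩, rfl⟩
    all_goals
      obtain ⟨x, d1, d2⟩ := Finset.mem_biUnion.1 he
      obtain ⟨y, d3, rfl⟩ := Finset.mem_image.1 d2
    exacts [(c1 x d1).2.1 y d3, mem_btw.2 ⟨x, d1, y, mem_univ _, rfl⟩]
  · rw [Fintype.card_fin]
    refine mul_le_mul_of_nonneg_left (Real.exp_le_exp.2 ?_) hn0
    have : 1 / 4 ≤ (1 - ε) * (1 - ε) := by nlinarith only [hd, ha, e0, e1]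
    nlinarith only [this, e0, a6, mul_le_mul_of_nonneg_right this (by positivity : 0 ≤ ε ^ 2 * ((p n : ℝ) * n))]
  rintro - - ⟨N, ⟨c1, c2⟩, rfl⟩
  have c3 : ((⌈d * (p n * n)⌉₊ : ℕ) : ℝ) ≤ 2 * (p n * n) := by
    have := (Nat.ceil_lt_add_one (by positivity : 0 ≤ d * (p n * n))).le
    nlinarith only [a6, this, hda, ha, hd]
  have c4 : ∀ x ∈ X, ∀ y ∈ N x, y ∉ W0 := fun x hx y hy => (Finset.mem_sdiff.1 ((c1 x hx).1 hy)).2
  obtain ⟨Γ, d1, d2, f2⟩ := a5 (W0 ∪ X.biUnion N) X E1 lab N ⟨b3,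
    b1.trans Finset.subset_union_left, fun x hx => ⟨Finset.disjoint_left.2 fun y h h' =>
      c4 x hx y h (b1 h'), (Finset.subset_biUnion_of_mem N hx).trans Finset.subset_union_right,
      (c1 x hx).2 ▸ c3⟩, c2, by
    have f1 := (Nat.cast_le (α := ℝ)).2 ((Finset.card_union_le W0 _).trans (Nat.add_le_add_left
      (Finset.card_biUnion_le_card_mul X N _ fun x hx => (c1 x hx).2.le) _))
    push_cast at f1
    have f2 := mul_le_mul_of_nonneg_left c3 (X.card.cast_nonneg (α := ℝ))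
    nlinarith only [a1, f1, f2, b2, hn0, e2, mul_le_mul_of_nonneg_right b2 hn0, mul_le_mul_of_nonneg_right e2 hn0]⟩
    (b2'.trans (mul_le_of_le_one_left a9.1.le (by linarith)))
  have f1 := Pr_min p0 (p n).2.2 Γ (univ \ X) (M := a * n) (by positivity)
    (fun v hv => d2 v (Finset.mem_sdiff.1 hv).2) e0.le (by linarith only [hd, ha, e0, e1])
  rw [Fintype.card_fin] at f1
  refine (Pr_mono hP fun ω hω => ?_).trans ((Pr_or_le hP _ _).trans
    (add_le_add (f1.trans (le_trans (le_of_eq (by congr 3; ring)) a8)) f2))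
  by_contra hcon
  rw [not_or, not_not] at hcon
  obtain ⟨E, g1, g2, g3⟩ := hcon.2
  have g4 := g1.trans Finset.inter_subset_right
  have g5 : ∀ u v, s(u, v) ∈ E → Γ.Adj u v := fun u v h => mem_eF.1 (g4 h)
  refine hω ⟨E, g1.trans Finset.inter_subset_left, Finset.disjoint_left.2 fun e he h => ?_,
    Finset.disjoint_left.2 fun e he h => ?_, g2, fun v => ?_, fun h => b3.ncol
      (h.mono (gr_mono Finset.subset_union_left) (subset_univ _) le_rfl)⟩
  · obtain ⟨u, hu, v, -, rfl⟩ := mem_btw.1 h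
    exact (d1 u v (g5 u v he)).1 hu
  · obtain ⟨u, hu, v, hv, rfl⟩ := mem_btw.1 h
    rcases Finset.mem_union.1 he with he | he
    · exact (mem_stars.1 he).elim (fun h => c4 u h.1 v h.2 hv) fun h => c4 v h.1 u h.2 hu
    · exact (d1 u v (g5 u v he)).2.elim (fun h => h (Finset.mem_union_left _ hu))
        fun h => h (Finset.mem_union_left _ hv)
  · by_cases hv : v ∈ X
    · refine (Nat.le_ceil _).trans (Nat.cast_le.2 ((c1 v hv).2.ge.trans
        (Finset.card_le_card fun y hy => mem_nb.2 ⟨mem_univ _, gr_adj.2 ⟨?_, fun e => ?_⟩⟩)))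
      · exact Finset.mem_union_right _ (Finset.mem_union_left _ (mem_stars.2 (.inl ⟨hv, hy⟩)))
      · exact c4 v hv y hy (e ▸ b1 hv)
    · have h1 := not_le.1 fun h => hcon.1 ⟨v, Finset.mem_sdiff.2 ⟨mem_univ _, hv⟩, h⟩
      have h2 := (g3 v).trans (add_le_add (Nat.cast_le.2 (dg_mono (gr_mono
        (Finset.subset_union_right.trans (Finset.subset_union_right (s₁ := E1)
          (s₂ := stars X N ∪ E)))) v Subset.rfl)) le_rfl)
      have : d + ε ≤ (1 - ε) * a := by nlinarith only [e0, e1, hd, hda, ha]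
      nlinarith only [h1, h2, this, hd, ha, e0, e1, a6, mul_le_mul_of_nonneg_right this (by linarith : 0 ≤ (p n : ℝ) * n)]

theorem pipe {l : Filter ℕ} (hl : l ≤ atTop) (h0 : Tendsto (fun n => (p n : ℝ)) l (𝓝 0))
    (hL : Lg p) {G0 : SimpleGraph (Fin g)} {C : ℕ} (hG : ¬ G0.Colorable C) {d a y : ℝ} (hd : 0 ≤ d)
    (hda : d < a) (ha : a ≤ 1) (hy : 0 < y)
    (hE : ∀ Δ : ℕ, ∀ c > 0, ∀ᶠ n : ℕ in l, ∀ (Y0 X : Finset (Fin n)) E1 lab N,
      Base G0 (Fintype.card W) Δ C (y * n) (2 * (p n * n)) Y0 X E1 lab N →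
      Ext H (p n) (a * n) (c * (p n * n)) Y0 X E1 N) :
    ∀ᶠ n : ℕ in l, Pr (fun _ => (p n : ℝ)) (fun ω : Sym2 (Fin n) → Bool =>
      ¬ ∃ I ⊆ rs ω, Wit H (d * (p n * n)) C I) ≤ 9 / 10 := by
  refine pipe2 hl (ζ := fun _ => 1) (by simp) (by simpa using h0) hL hG
    (fun c hc => by simpa using (hL.tend hc).mono_left hl) hd hda ha hy fun Δ ε e0 => ?_
  obtain ⟨c, hc, hc'⟩ := hL.fam (Fintype.card W ^ 2) e0
  filter_upwards [hl hc', hE Δ c hc] with n ⟨t, a3, a4⟩ a5 Y0 X E1 lab N hB _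
  obtain ⟨Γ, 𝓔, d1, d2, d3, d4, d5⟩ := a5 Y0 X E1 lab N hB
  have f2 := Pr_Fam (p n).2.1 (p n).2.2 𝓔 d4 t
  rw [Fintype.card_fin] at f2
  refine ⟨Γ, d1, d2, (Pr_mono (isP_p p n) fun ω hω => ?_).trans (f2.trans a4)⟩
  by_contra hcon
  obtain ⟨E, g1, g2, g3⟩ := del d3 (Finset.inter_subset_left (s₂ := eF Γ)) hcon
  exact hω ⟨E, g1, d5 E (g1.trans Finset.inter_subset_right) g2, fun v =>
    le_trans (by exact_mod_cast g3 v univ) (add_le_add le_rfl a3)⟩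

lemma top_not_col (C : ℕ) : ¬ (⊤ : SimpleGraph (Fin (C + 1))).Colorable C := fun h => by
  have := h.chromaticNumber_le
  rw [SimpleGraph.chromaticNumber_top, Fintype.card_fin, Nat.cast_le] at this
  omega

theorem low_zero {l : Filter ℕ} [l.NeBot] (hl : l ≤ atTop) (hH : ¬ H.IsAcyclic)
    (h0 : Tendsto (fun n => (p n : ℝ)) l (𝓝 0)) (hL : Lg p)
    {span : Prop} {d : ℝ} (hd : d ≤ 0) : ¬ Adm H p span d := by
  refine not_adm_of hl fun C => ?_
  obtain ⟨Δ, hΔ⟩ := ko hl (ζ := fun _ => 1) (by simp) (by simpa using h0) hL (top_not_col C)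
    (fun c hc => by simpa using (hL.tend hc).mono_left hl) (Fintype.card W) one_pos le_rfl
  obtain ⟨S, h1, h2⟩ := core_of_cycle hH
  filter_upwards [hΔ] with n ⟨W0, _, a2⟩
  refine (Pr_mono (isP_p p n) fun ω hω => ?_).trans (a2.trans (by norm_num))
  rintro ⟨E, b1, -, X, lab, -, -, b2⟩
  refine hω ⟨E, b1, Finset.eq_empty_of_forall_notMem fun τ hτ => ?_, fun v => le_trans
    (mul_nonpos_of_nonpos_of_nonneg hd (pn_nonneg p n)) (by positivity),
    fun h => b2.ncol (h.mono le_rfl (subset_univ _) le_rfl)⟩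
  simp only [embs, Finset.mem_filter, mem_homs] at hτ
  exact no_cycle b2.core hτ.2 h1 h2 fun a _ b _ => hτ.1.2 a b

lemma card_mod_class {n s : ℕ} (hs : 0 < s) (j : ℕ) :
    ((univ.filter fun v : Fin n => (v : ℕ) % s = j).card : ℝ) ≤ n / s + 1 := by
  have := Finset.card_le_card_of_injOn (s := univ.filter fun v : Fin n => (v : ℕ) % s = j)
    (t := range (n / s + 1)) (fun v => (v : ℕ) / s) (fun v _ => Finset.mem_range.2
      (Nat.lt_succ_of_le (Nat.div_le_div_right v.2.le))) fun u hu v hv e => Fin.ext (by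
        rw [← Nat.div_add_mod u s, ← Nat.div_add_mod v s, (Finset.mem_filter.1 hu).2,
          (Finset.mem_filter.1 hv).2, show (u : ℕ) / s = v / s from e])
  rw [Finset.card_range, ← Nat.cast_le (α := ℝ)] at this
  push_cast at this
  linarith [Nat.cast_div_le (α := ℝ) (m := n) (n := s)]

theorem low_multi {l : Filter ℕ} [l.NeBot] (hl : l ≤ atTop)
    (h0 : Tendsto (fun n => (p n : ℝ)) l (𝓝 0)) (hL : Lg p) {s : ℕ} (hs : 3 ≤ s)
    (hH : ¬ H.Colorable s) {span : Prop} {d : ℝ} (hd : 0 ≤ d) (hd' : d < 1 - 1 / s) :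
    ¬ Adm H p span d := by
  classical
  obtain ⟨y, hy'⟩ : ∃ x, x = (1 - 1 / s - d) / 3 := ⟨_, rfl⟩
  have hy : 0 < y := by linarith
  have hs' : (0 : ℝ) < 1 / s := by positivity
  refine not_adm_of hl fun C => pipe hl h0 hL (top_not_col C) hd (a := d + y) (by linarith)
    (by linarith) hy fun Δ c hc => ?_
  filter_upwards [hl (tendsto_natCast_atTop_atTop.eventually (ev_large 1 hy))]
    with n hn Y0 X E1 lab N hB
  replace hn : 1 ≤ y * n := hn
  let pt : Fin n → ℕ := fun v => if v ∈ Y0 then 0 else v % s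
  have hpt : ∀ v, pt v < s := fun v => by
    simp only [pt]; split_ifs
    exacts [by omega, Nat.mod_lt _ (by omega)]
  let Γ : SimpleGraph (Fin n) := ⟨fun u v => u ∉ X ∧ v ∉ X ∧ pt u ≠ pt v,
    ⟨fun _ _ h => ⟨h.2.1, h.1, h.2.2.symm⟩⟩, ⟨fun _ h => h.2.2 rfl⟩⟩
  refine ⟨Γ, ∅, fun u v h => ⟨h.1, ?_⟩, fun v hv => ?_, by simp, fun v => by
    simpa using mul_nonneg hc.le (pn_nonneg p n), fun E hE _ =>
    Finset.eq_empty_of_forall_notMem fun τ hτ => hH ?_⟩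
  · by_contra e
    push Not at e
    exact h.2.2 (by simp only [pt, if_pos e.1, if_pos e.2])
  · have a1 : (univ : Finset (Fin n)) ⊆ nb Γ v univ ∪ (Y0 ∪ univ.filter fun u : Fin n =>
        (u : ℕ) % s = pt v) := fun u _ => by
      by_cases e : u ∈ Y0
      · simp [e]
      by_cases e' : (u : ℕ) % s = pt v
      · simp [e']
      exact Finset.mem_union_left _ (mem_nb.2 ⟨mem_univ _, hv, fun h => e (hB.hX h),
        fun h => e' (by simpa only [pt, if_neg e] using h.symm)⟩)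
    have a2 := (Nat.cast_le (α := ℝ)).2 ((Finset.card_le_card a1).trans ((Finset.card_union_le _ _).trans
      (Nat.add_le_add_left (Finset.card_union_le _ _) _)))
    have a3 := card_mod_class (n := n) (s := s) (by omega) (pt v)
    have a4 := hB.small
    rw [Finset.card_univ, Fintype.card_fin] at a2
    push_cast at a2
    have a5 : (n : ℝ) / s = (1 - d - 3 * y) * n := by rw [hy']; ring
    unfold dg
    linarith
  · simp only [embs, Finset.mem_filter, mem_homs] at hτ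
    obtain ⟨col, c1, c2⟩ := col_of_noCore (t := 2) (univ.image τ) (hB.ko.core _
      (Finset.card_image_le.trans (Finset.card_le_univ _)))
    have c0 : ∀ a, τ a ∈ univ.image τ := fun a => Finset.mem_image_of_mem _ (mem_univ a)
    refine (SimpleGraph.colorable_iff_exists_bdd_nat_coloring _).2 ⟨SimpleGraph.Coloring.mk
      (fun a => if τ a ∈ X then col (τ a) + 1 else pt (τ a)) fun {a b} h => ?_, fun a => ?_⟩
    · obtain ⟨d1, d2⟩ := gr_adj.1 (hτ.1.2 a b h)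
      have key : ∀ u v, u ∈ X → v ∈ N u →
          (if u ∈ X then col u + 1 else pt u) ≠ if v ∈ X then col v + 1 else pt v :=
        fun u v hu hv => by
          rw [if_pos hu, if_neg (Finset.disjoint_left.1 (hB.hN u hu).1 hv)]
          simp [pt, (hB.hN u hu).2.1 hv]
      rcases Finset.mem_union.1 d1 with d1 | d1
      · have e := gr_adj.2 ⟨d1, d2⟩
        simp only [if_pos (hB.ko.sub _ _ e).1, if_pos (hB.ko.sub _ _ e.symm).1]
        simpa using c2 _ (c0 a) _ (c0 b) e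
      rcases Finset.mem_union.1 d1 with d1 | d1
      · exact (mem_stars.1 d1).elim (fun h => key _ _ h.1 h.2) fun h => (key _ _ h.1 h.2).symm
      · have e : Γ.Adj (τ a) (τ b) := mem_eF.1 (hE d1)
        simp only [if_neg e.1, if_neg e.2.1]
        exact e.2.2
    · have := c1 _ (c0 a)
      have := hpt (τ a)
      show (if τ a ∈ X then col (τ a) + 1 else pt (τ a)) < s
      split_ifs <;> omega

end Pool.Agent.Lib.MP_46505f_co
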