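import Mathlib

set_option autoImplicit false
open Finset

namespace Pool.Agent.Lib.MP_46505f_co

/- Shift graphs with a system of nearly half sets that are disjoint along short odd walks. -/

variable {N : ℕ}

def Arc (a a' : Finset (Fin N)) : Prop :=
  ∃ x y, x ∈ a ∧ (∀ z ∈ a, x ≤ z) ∧ (∀ z ∈ a, z < y) ∧ a' = insert y (a.erase x)

lemma Arc.card {a a' : Finset (Fin N)} (h : Arc a a') : a'.card = a.card := by
  obtain ⟨x, y, h1, -, h2, rfl⟩ := h
  rw [Finset.card_insert_of_notMem fun e => lt_irrefl _ (h2 y (Finset.mem_of_mem_erase e)),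
    Finset.card_erase_add_one h1]

lemma shift_col (k : ℕ) : ∀ (κ : Type) [Fintype κ], ∃ N, ∀ c : Finset (Fin N) → κ,
    ∃ a a', a.card = k + 1 ∧ Arc a a' ∧ a ≠ a' ∧ c a = c a' := by
  induction k with
  | zero =>
    intro κ _
    refine ⟨Fintype.card κ + 1, fun c => ?_⟩
    obtain ⟨i, j, h1, h2⟩ := Fintype.exists_ne_map_eq_of_card_lt
      (fun i : Fin (Fintype.card κ + 1) => c {i}) (by simp)
    rcases lt_or_gt_of_ne h1 with h | h
    · exact ⟨{i}, {j}, rfl, ⟨i, j, by simp, by simp, by simpa, by simp⟩, by simpa, h2⟩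
    · exact ⟨{j}, {i}, rfl, ⟨j, i, by simp, by simp, by simpa, by simp⟩, by simpa using h1.symm,
        h2.symm⟩
  | succ k ih =>
    intro κ _
    obtain ⟨N, hN⟩ := ih (Set κ)
    refine ⟨N, fun c => ?_⟩
    obtain ⟨a, -, h1, ⟨x, y, h2, h3, h4, rfl⟩, -, h5⟩ :=
      hN fun a => {t | ∃ y, (∀ z ∈ a, z < y) ∧ c (insert y a) = t}
    obtain ⟨y', h6, h7⟩ : c (insert y a) ∈ {t | ∃ y', (∀ z ∈ insert y (a.erase x), z < y') ∧
      c (insert y' (insert y (a.erase x))) = t} := h5 ▸ ⟨y, h4, rfl⟩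
    have h8 := h6 y (Finset.mem_insert_self _ _)
    have h9 : ∀ z ∈ insert y a, z < y' := fun z hz => by
      rcases Finset.mem_insert.1 hz with rfl | hz
      exacts [h8, (h4 z hz).trans h8]
    refine ⟨insert y a, _, ?_, ⟨x, y', Finset.mem_insert_of_mem h2, fun z hz => ?_, h9, ?_⟩,
      fun e => lt_irrefl _ (h9 y' (e ▸ Finset.mem_insert_self _ _)), h7.symm⟩
    · rw [Finset.card_insert_of_notMem fun e => lt_irrefl _ (h4 y e), h1]
    · rcases Finset.mem_insert.1 hz with rfl | hz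
      exacts [(h4 x h2).le, h3 z hz]
    · rw [Finset.erase_insert_of_ne (h4 x h2).ne']

def rk (a : Finset (Fin N)) (x : Fin N) : ℕ := (a.filter (· < x)).card

lemma rk_lt_rk {a : Finset (Fin N)} {x y : Fin N} (hx : x ∈ a) (h : x < y) : rk a x < rk a y :=
  Finset.card_lt_card ⟨fun z hz => by
    rw [Finset.mem_filter] at hz ⊢; exact ⟨hz.1, hz.2.trans h⟩,
    fun e => lt_irrefl _ (Finset.mem_filter.1 (e (Finset.mem_filter.2 ⟨hx, h⟩))).2⟩

lemma rk_inj (a : Finset (Fin N)) : Set.InjOn (rk a) a := fun _ hx _ hy e =>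
  le_antisymm (not_lt.1 fun h => (rk_lt_rk hy h).ne' e) (not_lt.1 fun h => (rk_lt_rk hx h).ne e)

lemma rk_lt {a : Finset (Fin N)} {x : Fin N} (hx : x ∈ a) : rk a x < a.card :=
  Finset.card_lt_card ⟨Finset.filter_subset _ _,
    fun e => lt_irrefl _ (Finset.mem_filter.1 (e hx)).2⟩

lemma Arc.rk {a a' : Finset (Fin N)} (h : Arc a a') (x : Fin N) :
    (x ∈ a → 1 ≤ rk a x → x ∈ a' ∧ rk a' x + 1 = rk a x) ∧
    (x ∈ a' → rk a' x + 1 < a'.card → x ∈ a ∧ rk a' x + 1 = rk a x) := by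
  obtain ⟨u, y, h1, h2, h3, rfl⟩ := h
  have key : x ∈ a → u < x → Pool.Agent.Lib.MP_46505f_co.rk (insert y (a.erase u)) x + 1 =
      Pool.Agent.Lib.MP_46505f_co.rk a x := fun hx hu => by
    unfold Pool.Agent.Lib.MP_46505f_co.rk
    rw [Finset.filter_insert, if_neg (h3 x hx).not_gt, Finset.filter_erase,
      Finset.card_erase_add_one (Finset.mem_filter.2 ⟨h1, hu⟩)]
  refine ⟨fun hx h => ?_, fun hx h => ?_⟩
  · obtain ⟨z, hz⟩ := Finset.card_pos.1 h
    rw [Finset.mem_filter] at hz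
    have hu := (h2 z hz.1).trans_lt hz.2
    exact ⟨Finset.mem_insert_of_mem (Finset.mem_erase.2 ⟨hu.ne', hx⟩), key hx hu⟩
  · rcases Finset.mem_insert.1 hx with rfl | hx
    · refine absurd h (not_lt.2 ((Finset.card_insert_le _ _).trans (Nat.succ_le_succ
        (Finset.card_le_card fun z hz => Finset.mem_filter.2 ⟨Finset.mem_insert_of_mem hz,
          h3 z (Finset.mem_of_mem_erase hz)⟩))))
    · rw [Finset.mem_erase] at hx
      exact ⟨hx.2, key hx.2 (lt_of_le_of_ne (h2 x hx.2) hx.1.symm)⟩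

lemma walk_rk {α : Type} {G : SimpleGraph α} (f : α → Finset (Fin N)) {k : ℕ}
    (hk : ∀ u, (f u).card = k) (hG : ∀ u v, G.Adj u v → Arc (f u) (f v) ∨ Arc (f v) (f u))
    {u v : α} (w : G.Walk u v) (x : Fin N) : x ∈ f u → w.length ≤ rk (f u) x →
    rk (f u) x + w.length < k → x ∈ f v ∧ (rk (f u) x + rk (f v) x + w.length) % 2 = 0 := by
  induction w with
  | nil => intro h _ _; exact ⟨h, by simp; omega⟩
  | cons h w ih =>
    intro h1 h2 h3
    rw [SimpleGraph.Walk.length_cons] at *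
    rcases hG _ _ h with e | e
    · obtain ⟨a1, a2⟩ := (e.rk x).1 h1 (by omega)
      exact (ih a1 (by omega) (by omega)).imp_right fun _ => by omega
    · obtain ⟨a1, a2⟩ := (e.rk x).2 h1 (by rw [hk]; omega)
      exact (ih a1 (by omega) (by omega)).imp_right fun _ => by omega

def Pv (a : Finset (Fin N)) (x : Fin N) : Finset (Equiv.Perm (Fin N)) :=
  univ.filter fun π => ∀ z ∈ a, π x ≤ π z

lemma card_Pv {a : Finset (Fin N)} {x : Fin N} (hx : x ∈ a) :
    Fintype.card (Equiv.Perm (Fin N)) ≤ a.card * (Pv a x).card := by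
  refine le_trans (Finset.card_le_card (t := a.biUnion (Pv a)) fun π _ => ?_)
    (Finset.card_biUnion_le_card_mul _ _ _ fun y hy => Finset.card_le_card_of_injOn
      (fun π => π * Equiv.swap x y) (fun π hπ => Finset.mem_filter.2 ⟨mem_univ _, fun z hz => ?_⟩)
      (mul_left_injective _).injOn)
  · obtain ⟨y, h1, h2⟩ := a.exists_min_image π ⟨x, hx⟩
    exact Finset.mem_biUnion.2 ⟨y, h1, Finset.mem_filter.2 ⟨mem_univ _, h2⟩⟩
  · rw [Equiv.Perm.mul_apply, Equiv.swap_apply_left]
    refine (Finset.mem_filter.1 hπ).2 _ ?_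
    rw [Equiv.swap_apply_def]
    split_ifs
    exacts [hy, hx, hz]

theorem shift (h C : ℕ) {ζ : ℝ} (hζ : 0 < ζ) : ∃ (g : ℕ) (G0 : SimpleGraph (Fin g)) (Ω : Type)
    (_ : Fintype Ω) (_ : DecidableEq Ω) (_ : Nonempty Ω) (U : Fin g → Finset Ω), ¬ G0.Colorable C ∧
    (∀ u, (1 / 2 - ζ) * Fintype.card Ω ≤ (U u).card) ∧
    ∀ u u' (w : G0.Walk u u'), Odd w.length → w.length ≤ h → Disjoint (U u) (U u') := by
  obtain ⟨k, hk⟩ := exists_nat_ge (h / ζ)
  rw [div_le_iff₀ hζ] at hk
  obtain ⟨N, hN⟩ := shift_col k (Option (Fin C))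
  let e := (Fintype.equivFin {a : Finset (Fin N) // a.card = k + 1}).symm
  let mid := fun a : Finset (Fin N) => a.filter fun x => h ≤ rk a x ∧ rk a x + h < k + 1
  let U := fun a : Finset (Fin N) =>
    ((mid a).sigma (Pv a)).image fun z => (z.2, decide (rk a z.1 % 2 = 0))
  have hG : ∀ u v, (SimpleGraph.fromRel fun u v => Arc (e u).1 (e v).1).Adj u v →
      Arc (e u).1 (e v).1 ∨ Arc (e v).1 (e u).1 := fun u v h => h.2
  refine ⟨_, SimpleGraph.fromRel fun u v => Arc (e u).1 (e v).1, Equiv.Perm (Fin N) × Bool,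
    inferInstance, inferInstance, inferInstance, fun u => U (e u).1, fun ⟨c⟩ => ?_, fun u => ?_,
    fun u u' w h1 h2 => Finset.disjoint_left.2 fun z a1 a2 => ?_⟩
  · obtain ⟨a, a', a1, a2, a3, a4⟩ := hN fun a =>
      if h : a.card = k + 1 then some (c (e.symm ⟨a, h⟩)) else none
    rw [dif_pos a1, dif_pos (a2.card.trans a1), Option.some_inj] at a4
    exact c.valid ⟨by simpa using a3, Or.inl (by simpa using a2)⟩ a4
  · show _ ≤ ((U (e u).1).card : ℝ)
    obtain ⟨a, ha⟩ := e u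
    have a1 : a.card ≤ (mid a).card + h + h := by
      have b1 : (a.filter fun x => rk a x < h).card ≤ (range h).card :=
        Finset.card_le_card_of_injOn (rk a) (fun x hx => by
          simpa using (Finset.mem_filter.1 hx).2) ((rk_inj a).mono (Finset.coe_subset.2 (Finset.filter_subset _ _)))
      have b2 : (a.filter fun x => k + 1 ≤ rk a x + h).card ≤ (Ico (k + 1 - h) (k + 1)).card :=
        Finset.card_le_card_of_injOn (rk a) (fun x hx => by
          have := Finset.mem_filter.1 hx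
          have := rk_lt this.1
          simp only [Finset.coe_Ico, Set.mem_Ico]; omega) ((rk_inj a).mono (Finset.coe_subset.2 (Finset.filter_subset _ _)))
      have b3 := (Finset.card_le_card (s := a) fun x hx => by
        simp only [mid, Finset.mem_union, Finset.mem_filter, hx, true_and]; omega).trans
        ((Finset.card_union_le _ (a.filter fun x => k + 1 ≤ rk a x + h)).trans
        (Nat.add_le_add_right (Finset.card_union_le (mid a) (a.filter fun x => rk a x < h)) _))
      rw [Nat.card_Ico] at b2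
      rw [Finset.card_range] at b1
      omega
    have a2 : (mid a).card * Fintype.card (Equiv.Perm (Fin N)) ≤ (k + 1) * (U a).card := by
      rw [Finset.card_image_of_injOn, Finset.card_sigma, Finset.mul_sum]
      · exact Finset.card_nsmul_le_sum _ _ _ fun x hx => ha ▸ card_Pv (Finset.mem_filter.1 hx).1
      · rintro ⟨x, π⟩ hx ⟨y, π'⟩ hy e
        obtain rfl : π = π' := congrArg Prod.fst e
        rw [Finset.mem_coe, Finset.mem_sigma, Finset.mem_filter] at hx hy
        obtain rfl : x = y := π.injective (le_antisymm ((Finset.mem_filter.1 hx.2).2 y hy.1.1)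
          ((Finset.mem_filter.1 hy.2).2 x hx.1.1))
        rfl
    rw [ha, ← Nat.cast_le (α := ℝ)] at a1
    rw [← Nat.cast_le (α := ℝ)] at a2
    rw [Fintype.card_prod, Fintype.card_bool]
    push_cast at a1 a2 ⊢
    refine le_of_mul_le_mul_left (le_trans ?_ a2) (by positivity)
    rw [mul_comm _ (2 : ℝ), ← mul_assoc, ← mul_assoc]
    gcongr
    nlinarith
  · obtain ⟨⟨x, π⟩, b1, rfl⟩ := Finset.mem_image.1 a1
    obtain ⟨⟨y, π'⟩, b2, b3⟩ := Finset.mem_image.1 a2
    simp only [Prod.mk.injEq, decide_eq_decide] at b3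
    obtain ⟨rfl, b3⟩ := b3
    simp only [Finset.mem_sigma, mid, Pv, Finset.mem_filter, Finset.mem_univ, true_and] at b1 b2
    obtain ⟨c1, c2⟩ := walk_rk _ (fun u => (e u).2) hG w x b1.1.1 (by omega) (by omega)
    obtain ⟨c3, -⟩ := walk_rk _ (fun u => (e u).2) hG w.reverse y b2.1.1
      (by rw [SimpleGraph.Walk.length_reverse]; omega) (by rw [SimpleGraph.Walk.length_reverse]; omega)
    obtain rfl := π'.injective (le_antisymm (b1.2 y c3) (b2.2 x c1))
    rw [Nat.odd_iff] at h1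
    omega

end Pool.Agent.Lib.MP_46505f_co
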