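import Pool.Agent.Lib.MP_46505f_co.Mom
import Pool.Agent.Lib.MP_46505f_co.Pipe
import Pool.Agent.Lib.MP_46505f_co.Shift

set_option autoImplicit false
set_option linter.unusedSectionVars false
open Finset Filter Topology
open Pool.Agent.Lib.MP_eaf82e_pr

namespace Pool.Agent.Lib.MP_46505f_co

/- The lower bounds one third, one half and one. -/

variable {V : Type} [Fintype V] [DecidableEq V] {W : Type} [Fintype W] [DecidableEq W]
  {H : SimpleGraph W} {g : ℕ} {I : Finset W}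

lemma transfer_out {a b : W} (w : H.Walk a b) (h : ∀ x ∈ w.support, x ∉ I) :
    ∀ e ∈ w.edges, e ∈ (outside H I).edgeSet := fun e he => by
  induction e using Sym2.ind with
  | h x y => exact ⟨w.edges_subset_edgeSet he, h x (w.fst_mem_support_of_mem_edges he),
      h y (w.snd_mem_support_of_mem_edges he)⟩

lemma thunder_of (hC : IsCloud H I) (h : ∀ z ∈ I, ∀ l l', H.Adj l z → H.Adj l' z →
    ∀ w : (outside H I).Walk l l', w.length ≤ Fintype.card W → ¬ Odd w.length) :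
    IsThunder H I := by
  refine ⟨hC, fun v c hc ho => not_lt.1 fun h2 => ?_⟩
  by_cases e : ∀ x ∈ c.support, x ∉ I
  · exact hC.2.1 _ (hc.transfer (transfer_out c e))
  push Not at e
  obtain ⟨z, h3, h4⟩ := e
  have h5 : ∀ x ∈ (c.rotate z h3).support, x ∈ I → x = z := fun x hx hx' =>
    Finset.card_le_one.1 (Nat.lt_succ_iff.1 h2) x (Finset.mem_inter.2 ⟨List.mem_toFinset.2
      ((c.mem_support_rotate_iff z h3).1 hx), hx'⟩) z
      (Finset.mem_inter.2 ⟨List.mem_toFinset.2 h3, h4⟩)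
  rw [← c.length_rotate z h3] at ho
  have hc' := hc.rotate h3
  generalize c.rotate z h3 = c' at h5 ho hc'
  cases c' with
  | nil => exact hc'.ne_nil rfl
  | cons a w =>
    have hp := ((SimpleGraph.Walk.cons_isCycle_iff _ _).1 hc').1.reverse
    rw [SimpleGraph.Walk.length_cons, ← w.length_reverse] at ho
    replace h5 : ∀ x ∈ w.reverse.support, x ∈ I → x = z := fun x hx => h5 x (by
      rw [SimpleGraph.Walk.support_reverse, List.mem_reverse] at hx; simp [hx])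
    generalize w.reverse = w' at h5 ho hp
    cases w' with
    | nil => exact a.ne rfl
    | cons a' w'' =>
      rw [SimpleGraph.Walk.cons_isPath_iff] at hp
      refine h z h4 _ _ a'.symm a.symm (w''.transfer _ (transfer_out w'' fun x hx hx' =>
        hp.2 (h5 x (by simp [hx]) hx' ▸ hx))) ?_ ?_
      all_goals rw [SimpleGraph.Walk.length_transfer]
      · exact hp.1.length_lt.le
      · rw [SimpleGraph.Walk.length_cons, Nat.odd_iff] at ho
        rw [Nat.odd_iff]; omega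

lemma card_image_cl (S : Finset W) : (S.image (cl H I)).card = comps H I S + (S ∩ I).card := by
  nth_rewrite 1 [← Finset.sdiff_union_inter S I]
  rw [Finset.image_union, Finset.card_union_of_disjoint, comps_eq',
    Finset.card_image_of_injOn (s := S ∩ I)]
  · exact fun a _ b hb e => cp_eq_of_mem (Finset.mem_inter.1 (Finset.mem_coe.1 hb)).2
      (cl_eq_iff.1 e)
  · refine Finset.disjoint_left.2 fun x h1 h2 => ?_
    obtain ⟨a, ha, rfl⟩ := Finset.mem_image.1 h1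
    obtain ⟨b, hb, e⟩ := Finset.mem_image.1 h2
    have hb' := (Finset.mem_inter.1 hb).2
    exact (Finset.mem_sdiff.1 ha).2 (cp_eq_of_mem hb' (cl_eq_iff.1 e.symm) ▸ hb')

noncomputable def ball (F : SimpleGraph V) (x : V) : ℕ → Finset V
  | 0 => {x}
  | j + 1 => insert x ((nb F x univ).biUnion fun y => ball F y j)

lemma self_mem_ball (F : SimpleGraph V) (x : V) : ∀ j, x ∈ ball F x j
  | 0 => Finset.mem_singleton_self _
  | _ + 1 => Finset.mem_insert_self _ _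

lemma ball_succ (F : SimpleGraph V) : ∀ j x, ball F x j ⊆ ball F x (j + 1)
  | 0, x => Finset.singleton_subset_iff.2 (self_mem_ball F x 1)
  | j + 1, _ => Finset.insert_subset_insert _ (Finset.biUnion_mono fun y _ => ball_succ F j y)

lemma card_ball {F : SimpleGraph V} {Δ : ℕ} (h : ∀ v, dg F v univ ≤ Δ) :
    ∀ j x, (ball F x j).card ≤ (Δ + 1) ^ j
  | 0, _ => le_rfl
  | j + 1, x => by
    have h1 := (Finset.card_biUnion_le_card_mul (nb F x univ) _ _ fun y _ => card_ball h j y).trans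
      (Nat.mul_le_mul_right _ (h x))
    have h2 : 1 ≤ (Δ + 1) ^ j := Nat.one_le_pow _ _ (by omega)
    exact (Finset.card_insert_le _ _).trans (by rw [pow_succ]; nlinarith only [h1, h2])

open Classical in
noncomputable def bs (X : Finset V) (N : V → Finset V) (v : V) : V :=
  if h : ∃ x ∈ X, v ∈ N x then h.choose else v

section
variable {G0 : SimpleGraph (Fin g)} {h Δ C : ℕ} {y m : ℝ} {Y0 X : Finset V}
  {E1 : Finset (Sym2 V)} {lab : V → Fin g} {N : V → Finset V}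

lemma Base.bs_eq (hB : Base G0 h Δ C y m Y0 X E1 lab N) {x v : V} (hx : x ∈ X) (hv : v ∈ N x) :
    bs X N v = x := by
  have h : ∃ x ∈ X, v ∈ N x := ⟨x, hx, hv⟩
  unfold bs
  rw [dif_pos h]
  exact hB.priv _ h.choose_spec.1 _ hx v h.choose_spec.2 hv

lemma Base.bs_self (hB : Base G0 h Δ C y m Y0 X E1 lab N) {x : V} (hx : x ∈ X) : bs X N x = x :=
  dif_neg fun ⟨u, h1, h2⟩ => Finset.disjoint_left.1 (hB.hN u h1).1 h2 hx

lemma Base.near (hB : Base G0 h Δ C y m Y0 X E1 lab N) (hm : 0 ≤ m) (j : ℕ) (u : V)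
    (B : Finset V) (hb : ∀ v ∈ B, bs X N v ∈ ball (gr E1) u j) :
    B.card ≤ (Δ + 1) ^ j * (m + 1) := by
  have h1 : B ⊆ (ball (gr E1) u j).biUnion fun x => insert x (if x ∈ X then N x else ∅) :=
    fun v hv => Finset.mem_biUnion.2 ⟨_, hb v hv, by
      by_cases e : ∃ x ∈ X, v ∈ N x
      · obtain ⟨x, e1, e2⟩ := e
        rw [hB.bs_eq e1 e2, if_pos e1]; exact Finset.mem_insert_of_mem e2
      · rw [bs, dif_neg e]; exact Finset.mem_insert_self _ _⟩
  refine (Nat.cast_le.2 ((Finset.card_le_card h1).trans Finset.card_biUnion_le)).trans ?_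
  rw [Nat.cast_sum]
  refine (Finset.sum_le_card_nsmul _ _ (m + 1) fun x _ => ?_).trans ?_
  · refine (Nat.cast_le.2 (Finset.card_insert_le _ _)).trans ?_
    push_cast
    split_ifs with e
    · linarith [(hB.hN x e).2.2]
    · simpa
  · rw [nsmul_eq_mul]
    gcongr
    exact_mod_cast card_ball hB.ko.deg j u

lemma Base.walk (hB : Base G0 h Δ C y m Y0 X E1 lab N) {T : SimpleGraph W} {τ : W → V}
    (hT : ∀ a b, T.Adj a b → (gr E1).Adj (τ a) (τ b) ∨ s(τ a, τ b) ∈ stars X N) {a b : W}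
    (w : T.Walk a b) : bs X N (τ b) ∈ ball (gr E1) (bs X N (τ a)) w.length ∧
      ∃ w' : G0.Walk (lab (bs X N (τ a))) (lab (bs X N (τ b))), w'.length ≤ w.length ∧
      (w'.length + w.length + (if τ a ∈ X then 1 else 0) + if τ b ∈ X then 1 else 0) % 2 = 0 := by
  induction w with
  | nil => exact ⟨self_mem_ball _ _ _, .nil, le_rfl, by split_ifs <;> simp⟩
  | @cons a c b e w ih =>
    obtain ⟨a1, w', a2, a3⟩ := ih
    rw [SimpleGraph.Walk.length_cons]
    rcases hT a c e with e | e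
    · have b1 := hB.ko.sub _ _ e
      have b2 := (hB.ko.sub _ _ e.symm).1
      rw [hB.bs_self b1.1, if_pos b1.1]
      rw [if_pos b2] at a3
      revert a1 w'
      rw [hB.bs_self b2]
      exact fun a1 w' a2 a3 => ⟨Finset.mem_insert_of_mem (Finset.mem_biUnion.2
        ⟨_, mem_nb.2 ⟨mem_univ _, e⟩, a1⟩), .cons b1.2 w', by simpa, by
          rw [SimpleGraph.Walk.length_cons]; omega⟩
    · have key : bs X N (τ a) = bs X N (τ c) ∧
          (if τ a ∈ X then 1 else 0) + (if τ c ∈ X then 1 else 0) = 1 := by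
        rcases mem_stars.1 e with e | e
        · rw [hB.bs_self e.1, hB.bs_eq e.1 e.2, if_pos e.1,
            if_neg (Finset.disjoint_left.1 (hB.hN _ e.1).1 e.2)]
          exact ⟨rfl, rfl⟩
        · rw [hB.bs_self e.1, hB.bs_eq e.1 e.2, if_pos e.1,
            if_neg (Finset.disjoint_left.1 (hB.hN _ e.1).1 e.2)]
          exact ⟨rfl, rfl⟩
      rw [key.1]
      exact ⟨ball_succ _ _ _ a1, w', by omega, by omega⟩

lemma Base.cloud (hB : Base G0 (Fintype.card W) Δ C y m Y0 X E1 lab N) {B : Finset V}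
    (hB0 : Disjoint B Y0) (U : Fin g → Finset V) {Γ : SimpleGraph V}
    (hΓ : ∀ u v, Γ.Adj u v → u ∉ X ∧ (u ∈ B ↔ v ∉ B) ∧
      (v ∈ B → ∀ x ∈ X, u ∈ N x → v ∈ U (lab x))) {E : Finset (Sym2 V)} (hE : E ⊆ eF Γ)
    {τ : W → V} (hτ : τ ∈ embs H (gr (E1 ∪ (stars X N ∪ E))) univ) :
    ∃ I, IsCloud H I ∧ ((∀ u u' (w : G0.Walk u u'), Odd w.length → w.length ≤ Fintype.card W →
      Disjoint (U u) (U u')) → IsThunder H I) ∧ (cE H I).image (Sym2.map τ) ⊆ E ∧
      Function.Injective τ ∧ (∀ a b, cl H I a = cl H I b →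
        bs X N (τ b) ∈ ball (gr E1) (bs X N (τ a)) (Fintype.card W)) ∧
      ∀ a b, Lf H I a → (outside H I).Adj a b → τ a ∈ X.biUnion N := by
  simp only [embs, Finset.mem_filter, mem_homs] at hτ
  obtain ⟨I, hI⟩ : ∃ I : Finset W, ∀ a, a ∈ I ↔ τ a ∈ B :=
    ⟨univ.filter fun a => τ a ∈ B, by simp⟩
  have hY : ∀ v ∈ Y0, v ∉ B := fun v hv => Finset.disjoint_right.1 hB0 hv
  have c0 : ∀ a b, H.Adj a b → ((gr E1).Adj (τ a) (τ b) ∨ s(τ a, τ b) ∈ stars X N) ∧ a ∉ I ∨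
      s(τ a, τ b) ∈ E ∧ Γ.Adj (τ a) (τ b) := fun a b h => by
    obtain ⟨d1, d2⟩ := gr_adj.1 (hτ.1.2 a b h)
    rw [hI]
    rcases Finset.mem_union.1 d1 with d1 | d1
    · exact .inl ⟨.inl (gr_adj.2 ⟨d1, d2⟩), hY _ (hB.hX (hB.ko.sub _ _ (gr_adj.2 ⟨d1, d2⟩)).1)⟩
    rcases Finset.mem_union.1 d1 with d1 | d1
    · exact .inl ⟨.inr d1, hY _ ((mem_stars.1 d1).elim (fun h => hB.hX h.1)
        fun h => (hB.hN _ h.1).2.1 h.2)⟩
    · exact .inr ⟨d1, mem_eF.1 (hE d1)⟩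
  have c1 : ∀ a b, (outside H I).Adj a b →
      (gr E1).Adj (τ a) (τ b) ∨ s(τ a, τ b) ∈ stars X N := fun a b h =>
    ((c0 a b h.1).resolve_right fun e => (hI a).not.1 h.2.1
      ((hΓ _ _ e.2).2.1.2 ((hI b).not.1 h.2.2))).1
  have c2 : ∀ z ∈ I, ∀ a, H.Adj a z → s(τ a, τ z) ∈ E ∧ Γ.Adj (τ a) (τ z) := fun z hz a h =>
    let e := (c0 z a h.symm).resolve_left fun e => e.2 hz
    ⟨Sym2.eq_swap ▸ e.1, e.2.symm⟩
  have c3 : ∀ a b, τ a ∉ X → (outside H I).Adj a b → τ b ∈ X ∧ τ a ∈ N (τ b) := fun a b ha h =>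
    (mem_stars.1 ((c1 a b h).resolve_left fun e => ha (hB.ko.sub _ _ e).1)).resolve_left
      fun e => ha e.1
  have c4 : ∀ a, τ a ∉ X → ((outside H I).neighborSet a).Subsingleton := fun a ha b hb b' hb' =>
    hτ.2 (hB.priv _ (c3 a b ha hb).1 _ (c3 a b' ha hb').1 _ (c3 a b ha hb).2 (c3 a b' ha hb').2)
  have c5 : ∀ a, (∃ z ∈ I, H.Adj a z) → τ a ∉ X := fun a ⟨z, hz, h⟩ => (hΓ _ _ (c2 z hz a h).2).1
  have hC : IsCloud H I := by
    refine ⟨fun u hu v hv h => (hΓ _ _ (c2 v hv u h).2).2.1.1 ((hI u).1 hu) ((hI v).1 hv), ?_,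
      fun v h => c4 v (c5 v h), fun u v h hu hv => c5 v hv (c3 u v (c5 u hu) h).1⟩
    by_contra hc
    obtain ⟨S, d1, d2⟩ := core_of_cycle hc
    have d3 : ∀ a ∈ S, τ a ∈ X := fun a ha => not_not.1 fun e => absurd (d2 a ha) (not_le.2
      (Nat.lt_succ_of_le (Finset.card_le_one.2 fun b hb b' hb' =>
        c4 a e (mem_nb.1 hb).2 (mem_nb.1 hb').2)))
    exact no_cycle hB.ko.core hτ.2 d1 d2 fun a ha b hb h => (c1 a b h).resolve_right fun e =>
      (mem_stars.1 e).elim (fun e => Finset.disjoint_left.1 (hB.hN _ e.1).1 e.2 (d3 b hb))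
        fun e => Finset.disjoint_left.1 (hB.hN _ e.1).1 e.2 (d3 a ha)
  refine ⟨I, hC, fun hU => thunder_of hC fun z hz l l' a1 a2 w a3 a4 => ?_, fun e he => ?_, hτ.2,
    fun a b e => ?_, fun a b h1 h2 => Finset.mem_biUnion.2 ⟨_, c3 a b (c5 a h1) h2⟩⟩
  · obtain ⟨-, w', b1, b2⟩ := hB.walk c1 w
    have key : ∀ l l', H.Adj l z → ∀ w : (outside H I).Walk l l', Odd w.length →
        τ z ∈ U (lab (bs X N (τ l))) := fun l l' h w hw => by
      cases w with
      | nil => simp at hw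
      | cons e w =>
        obtain ⟨d1, d2⟩ := c3 _ _ (c5 l ⟨z, hz, h⟩) e
        rw [hB.bs_eq d1 d2]
        exact (hΓ _ _ (c2 z hz l h).2).2.2 ((hI z).1 hz) _ d1 d2
    rw [if_neg (c5 l ⟨z, hz, a1⟩), if_neg (c5 l' ⟨z, hz, a2⟩)] at b2
    exact Finset.disjoint_left.1 (hU _ _ w' (by rw [Nat.odd_iff] at a4 ⊢; omega) (b1.trans a3))
      (key l l' a1 w a4) (key l' l a2 w.reverse (by simpa using a4))
  · obtain ⟨e', b1, rfl⟩ := Finset.mem_image.1 he
    obtain ⟨l, z, -, b2, b3, rfl⟩ := cE_rep hC b1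
    exact (c2 z b2 l b3).1
  · obtain ⟨w⟩ := SimpleGraph.ConnectedComponent.exact (cl_eq_iff.1 e)
    exact monotone_nat_of_le_succ (f := ball (gr E1) _) (fun j => ball_succ _ j _)
      w.bypass_isPath.length_lt.le (hB.walk c1 w.bypass).1

end

variable {p : ℕ → unitInterval}

def BelowL (l : Filter ℕ) (p : ℕ → unitInterval) (m : ℝ) : Prop :=
  Tendsto (fun n : ℕ => (p n : ℝ) * (n : ℝ) ^ (1 / m)) l (𝓝 0)

def Near (l : Filter ℕ) (p : ℕ → unitInterval) (m : ℝ) : Prop :=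
  ∀ ε > 0, ∀ᶠ n : ℕ in l, (p n : ℝ) ≤ (n : ℝ) ^ (ε - 1 / m)

variable {l : Filter ℕ}

lemma BelowL.near {m : ℝ} (hl : l ≤ atTop) (h : BelowL l p m) : Near l p m := fun ε hε => by
  filter_upwards [h.eventually_le_const one_pos, hl (eventually_ge_atTop 1)] with n a1 a2
  have hn : (1 : ℝ) ≤ n := by exact_mod_cast a2
  rw [Real.rpow_sub (by linarith), le_div_iff₀ (by positivity)]
  exact a1.trans (Real.one_le_rpow hn hε.le)

lemma Near.pow {m : ℝ} (hl : l ≤ atTop) (h : Near l p m) (hm : 0 < m) {δ : ℝ} (hδ : 0 < δ)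
    (k : ℕ) : ∀ᶠ n : ℕ in l, ∀ s ≤ k, ∀ e : ℕ, m * s ≤ e →
      (n : ℝ) ^ s * (p n : ℝ) ^ e ≤ (n : ℝ) ^ δ := by
  filter_upwards [h (δ / (m * (k + 1))) (by positivity), hl (eventually_ge_atTop 1)]
    with n a1 a2 s hs e he
  have hn : (1 : ℝ) ≤ n := by exact_mod_cast a2
  have p0 := (p n).2.1
  have b1 : (p n : ℝ) ^ e ≤ (n : ℝ) ^ ((δ / (m * (k + 1)) - 1 / m) * (m * s)) := by
    rw [Real.rpow_mul (by linarith), ← Real.rpow_natCast]
    exact (Real.rpow_le_rpow_of_exponent_ge' p0 (p n).2.2 (by positivity) he).trans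
      (Real.rpow_le_rpow p0 a1 (by positivity))
  refine (mul_le_mul_of_nonneg_left b1 (by positivity)).trans ?_
  rw [← Real.rpow_natCast, ← Real.rpow_add (by linarith)]
  refine Real.rpow_le_rpow_of_exponent_le hn ?_
  have : (s : ℝ) ≤ k + 1 := by exact_mod_cast hs.trans k.le_succ
  have e1 : s + (δ / (m * (k + 1)) - 1 / m) * (m * s) = δ * (s / (k + 1)) := by field_simp; ring
  rw [e1]
  exact mul_le_of_le_one_right hδ.le ((div_le_one (by positivity)).2 this)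

lemma BelowL.small {m : ℝ} (h : BelowL l p m) (hm : 0 < m) {j s : ℕ} (hs : 1 ≤ s)
    (hj : (j : ℝ) = m * s) {c : ℝ} (hc : 0 < c) :
    ∀ᶠ n : ℕ in l, (n : ℝ) ^ s * (p n : ℝ) ^ j ≤ c := by
  have h3 : (1 : ℝ) ≤ s := by exact_mod_cast hs
  have hj0 : j ≠ 0 := by
    rintro rfl
    exact absurd hj (by rw [Nat.cast_zero]; exact (mul_pos hm (by linarith)).ne)
  have := h.pow j
  rw [zero_pow hj0] at this
  filter_upwards [this.eventually_le_const hc] with n a1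
  have e : (n : ℝ) ^ s = ((n : ℝ) ^ (1 / m)) ^ j := by
    rw [← Real.rpow_natCast, ← Real.rpow_natCast, ← Real.rpow_mul n.cast_nonneg, hj]
    congr 1; field_simp
  rwa [e, ← mul_pow, mul_comm]

lemma ev_rpow (hl : l ≤ atTop) (A : ℝ) (k : ℕ) {δ c : ℝ} (hδ : 0 < δ) (hc : 0 < c) :
    ∀ᶠ n : ℕ in l, A * Real.log n ^ k ≤ c * (n : ℝ) ^ δ := by
  have := ((isLittleO_log_rpow_rpow_atTop k hδ).const_mul_left A).comp_tendsto
    (tendsto_natCast_atTop_atTop.mono_left hl)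
  filter_upwards [this.def hc] with n hn
  simp only [Function.comp, Real.norm_eq_abs, Real.rpow_natCast] at hn
  exact (le_abs_self _).trans (hn.trans_eq (by rw [abs_of_nonneg (by positivity)]))

lemma Above.pn {m : ℝ} (h : Above p m) : ∀ᶠ n : ℕ in atTop, (n : ℝ) ^ (1 - 1 / m) ≤ p n * n := by
  filter_upwards [h.eventually_ge_atTop 1, eventually_gt_atTop 0] with n a1 a2
  have hn : (0 : ℝ) < n := by exact_mod_cast a2
  rw [Real.rpow_sub hn, Real.rpow_one, div_le_iff₀ (by positivity)]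
  nlinarith

lemma Above.lg {m : ℝ} (h : Above p m) (hm : 1 < m) : Lg p := fun K => by
  filter_upwards [h.pn, ev_rpow le_rfl K 1 (δ := 1 - 1 / m) (by
    rw [sub_pos, div_lt_one (by linarith)]; exact hm) one_pos] with n a1 a2
  rw [pow_one, one_mul] at a2
  exact a2.trans a1

lemma one_le_cross (hH : ¬ H.IsAcyclic) (hC : IsCloud H I) {S : Finset W} (hS : 3 ≤ S.card)
    (h : (cross H I S : ℝ) + (S \ I).card - comps H I S - 1 = mI H I * (S.card - 2)) :
    1 ≤ cross H I S := by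
  have a1 := (one_lt_m2 hH).trans_le (m2_le_mI hH hC)
  have a3 : (3 : ℝ) ≤ S.card := by exact_mod_cast hS
  by_contra e
  have e1 : (S \ I).card ≤ S.card := Finset.card_le_card Finset.sdiff_subset
  have e2 : (S \ I).card + 1 ≤ S.card + comps H I S := by
    rcases (S \ I).eq_empty_or_nonempty with e3 | e3
    · rw [e3]; simp; omega
    · have : 0 < comps H I S := comps_eq' S ▸ (e3.image _).card_pos
      omega
  rw [show cross H I S = 0 by omega] at h
  rw [← Nat.cast_le (α := ℝ)] at e2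
  push_cast at e2 h
  nlinarith only [a1, e2, h, a3]

lemma max_cross (hH : ¬ H.IsAcyclic) (hC : IsCloud H I) {S : Finset W} (hS : 3 ≤ S.card)
    (h : (cross H I S : ℝ) + (S \ I).card - comps H I S - 1 = mI H I * (S.card - 2)) {a : W}
    (ha : a ∈ S \ I) : ∃ z ∈ S ∩ I, H.Adj a z := by
  by_contra e
  have a1 := (one_lt_m2 hH).trans_le (m2_le_mI hH hC)
  have a2 : cross H I (S.erase a) = cross H I S := by
    rw [cross_eq hC, cross_eq hC]
    refine congrArg _ (Finset.filter_congr fun x hx => ⟨fun h b hb =>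
      Finset.mem_of_mem_erase (h b hb), fun h b hb => Finset.mem_erase.2 ⟨?_, h b hb⟩⟩)
    rintro rfl
    obtain ⟨l, z, b1, b2, b3, rfl⟩ := cE_rep hC hx
    rcases Sym2.mem_iff.1 hb with rfl | rfl
    · exact e ⟨z, Finset.mem_inter.2 ⟨h z (by simp), b2⟩, b3⟩
    · exact (Finset.mem_sdiff.1 ha).2 b2
  have a3 := one_le_cross hH hC hS h
  have a4 := cross_bound hC (a2 ▸ a3)
  have a5 : comps H I (S.erase a) ≤ comps H I S := by
    rw [comps_eq', comps_eq']
    exact Finset.card_le_card (Finset.image_subset_image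
      (Finset.sdiff_subset_sdiff (Finset.erase_subset _ _) Subset.rfl))
  have a6 : (S.erase a \ I).card + 1 = (S \ I).card := by
    rw [Finset.erase_sdiff_comm, Finset.card_erase_add_one ha]
  have a7 := Finset.card_erase_add_one (Finset.mem_sdiff.1 ha).1
  rw [a2, Nat.cast_add, Nat.cast_sub a3, Nat.cast_sub (comps_le _)] at a4
  rw [← a6, ← a7] at h
  rw [← Nat.cast_le (α := ℝ)] at a5
  push_cast at h a4
  linarith only [a1, a5, h, a4]

lemma exists_spec (hH : ¬ H.IsAcyclic) (hC : IsCloud H I) : ∃ (S : Finset W) (u a z : W),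
    3 ≤ S.card ∧ (cross H I S : ℝ) + (S \ I).card - comps H I S - 1 = mI H I * (S.card - 2) ∧
    a ∈ S ∧ z ∈ S ∩ I ∧ H.Adj a z ∧ (Soft H I → u ∈ S ∧ Lf H I u ∧ (∃ v, (outside H I).Adj u v) ∧
      cl H I u ≠ cl H I a ∧ cl H I u ≠ cl H I z) := by
  by_cases hs : Soft H I
  · obtain ⟨S, a1, a2, a3, u, a4, v, a5⟩ := hs
    rw [comps_eq'] at a3
    obtain ⟨j, b1, b2⟩ := Finset.exists_mem_ne a3 (cl H I u)
    obtain ⟨a, b3, rfl⟩ := Finset.mem_image.1 b1
    obtain ⟨z, b4, b5⟩ := max_cross hH hC a1 a2 b3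
    obtain ⟨z', b6, b7⟩ := max_cross hH hC a1 a2 (Finset.mem_sdiff.2 ⟨a4, a5.2.1⟩)
    exact ⟨S, u, a, z, a1, a2, (Finset.mem_sdiff.1 b3).1, b4, b5, fun _ => ⟨a4,
      ⟨z', (Finset.mem_inter.1 b6).2, b7⟩, ⟨v, a5⟩, b2.symm, fun e => a5.2.1
      (cp_eq_of_mem (Finset.mem_inter.1 b4).2 (cl_eq_iff.1 e) ▸ (Finset.mem_inter.1 b4).2)⟩⟩
  · obtain ⟨S, a1, a2⟩ := exists_mI hH I
    have a3 := one_le_cross hH hC a1 a2
    rw [cross_eq hC] at a3
    obtain ⟨e, he⟩ := Finset.card_pos.1 a3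
    rw [Finset.mem_filter] at he
    obtain ⟨a, z, -, b2, b3, rfl⟩ := cE_rep hC he.1
    exact ⟨S, a, a, z, a1, a2, he.2 a (by simp), Finset.mem_inter.2 ⟨he.2 z (by simp), b2⟩, b3,
      fun h => absurd h hs⟩

lemma exists_zeta (hl : l ≤ atTop) (h0 : Tendsto (fun n => (p n : ℝ)) l (𝓝 0)) {δ0 : ℝ}
    (hδ : 0 < δ0) (hA : ∀ᶠ n : ℕ in l, (n : ℝ) ^ δ0 ≤ p n * n) (G : ℕ) (P : Prop)
    (hP : P → ∃ m > 0, Near l p m) : ∃ ζ : ℕ → ℝ, (∀ᶠ n in l, 0 < ζ n ∧ ζ n ≤ 1) ∧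
      Tendsto (fun n => (p n : ℝ) / ζ n) l (𝓝 0) ∧ (∀ c > 0, Tendsto (fun n : ℕ => n * Real.exp
        (-(c * (ζ n ^ G * (p n * n))))) l (𝓝 0)) ∧
      (P → ∃ δ > 0, ∀ n, ζ n = (n : ℝ) ^ (-δ : ℝ)) := by
  obtain ⟨δ, d0, d1, d2, d3⟩ : ∃ δ : ℝ, 0 ≤ δ ∧ δ * G ≤ δ0 / 2 ∧ (P → 0 < δ) ∧
      Tendsto (fun n : ℕ => (p n : ℝ) / (n : ℝ) ^ (-δ)) l (𝓝 0) := by
    by_cases e : P
    swap
    · exact ⟨0, le_rfl, by simpa using (half_pos hδ).le, fun h => absurd h e, by simpa using h0⟩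
    obtain ⟨m, hm, h⟩ := hP e
    have a0 : 0 < min (1 / m / 4) (δ0 / 2 / (G + 1)) := by positivity
    refine ⟨_, a0.le, ?_, fun _ => a0, squeeze_zero' (Eventually.of_forall fun n =>
      div_nonneg (p n).2.1 (by positivity)) ?_ ((tendsto_rpow_neg_atTop
      (by positivity : 0 < 1 / m / 4)).comp (tendsto_natCast_atTop_atTop.mono_left hl))⟩
    · have := min_le_right (1 / m / 4) (δ0 / 2 / (G + 1))
      rw [le_div_iff₀ (by positivity)] at this
      nlinarith only [a0, this]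
    · filter_upwards [h (1 / m / 2) (by positivity), hl (eventually_ge_atTop 1)] with n a1 a2
      have hn : (1 : ℝ) ≤ n := by exact_mod_cast a2
      rw [div_le_iff₀ (by positivity), Function.comp, ← Real.rpow_add (by linarith)]
      refine a1.trans (Real.rpow_le_rpow_of_exponent_le hn ?_)
      linarith [min_le_left (1 / m / 4) (δ0 / 2 / (G + 1))]
  refine ⟨fun n => (n : ℝ) ^ (-δ), ?_, d3, fun c hc => squeeze_zero' (Eventually.of_forall
    fun n => by positivity) ?_ (tend_log.mono_left hl), fun h => ⟨δ, d2 h, fun _ => rfl⟩⟩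
  · filter_upwards [hl (eventually_ge_atTop 1)] with n a2
    have hn : (1 : ℝ) ≤ n := by exact_mod_cast a2
    exact ⟨by positivity, Real.rpow_le_one_of_one_le_of_nonpos hn (by linarith)⟩
  · filter_upwards [hA, ev_rpow hl 2 1 (half_pos hδ) hc, hl (eventually_ge_atTop 1)] with n a1 a2 a3
    have hn : (1 : ℝ) ≤ n := by exact_mod_cast a3
    refine mul_le_mul_of_nonneg_left (Real.exp_le_exp.2 (neg_le_neg ?_)) (by positivity)
    rw [pow_one] at a2
    refine a2.trans (mul_le_mul_of_nonneg_left (le_trans ?_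
      (mul_le_mul_of_nonneg_left a1 (by positivity))) hc.le)
    rw [← Real.rpow_natCast, ← Real.rpow_mul (by linarith), ← Real.rpow_add (by linarith)]
    exact Real.rpow_le_rpow_of_exponent_le hn (by linarith)

lemma card_sub_sq (EB : Finset (Sym2 W)) : EB.card ≤ Fintype.card W ^ 2 :=
  (Finset.card_le_univ _).trans (by exact_mod_cast card_sym2_le (V := W))

lemma gamma {G0 : SimpleGraph (Fin g)} {Δ C : ℕ} {m : ℝ} {Y0 X : Finset V} {E1 : Finset (Sym2 V)}
    {lab : V → Fin g} {N : V → Finset V} {y : ℝ}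
    (hb : Base G0 (Fintype.card W) Δ C (y * Fintype.card V) m Y0 X E1 lab N) (u0 : Fin g)
    {Ω : Type} [Fintype Ω] [DecidableEq Ω] [Nonempty Ω] (U : Fin g → Finset Ω) {σ β d : ℝ}
    (hσ0 : 0 ≤ σ) (hσ : σ ≤ 1) (hβ : 0 ≤ β) (hU : ∀ u, σ * Fintype.card Ω ≤ (U u).card)
    (hd : 0 ≤ d) (hy : 0 < y) (y1 : d + 3 * y ≤ σ * β) (y2 : d + 3 * y ≤ 1 - β)
    (a3 : (Fintype.card Ω : ℝ) ≤ y * Fintype.card V) :
    ∃ (Γ : SimpleGraph V) (B : Finset V) (U' : Fin g → Finset V),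
      (∀ u v, Γ.Adj u v → u ∉ X ∧ (u ∉ Y0 ∨ v ∉ Y0)) ∧
      (∀ v ∉ X, (d + y) * Fintype.card V ≤ dg Γ v univ) ∧ Disjoint B Y0 ∧
      (∀ u v, Γ.Adj u v → u ∉ X ∧ (u ∈ B ↔ v ∉ B) ∧
        (v ∈ B → ∀ x ∈ X, u ∈ N x → v ∈ U' (lab x))) ∧
      ∀ u u', Disjoint (U u) (U u') → Disjoint (U' u) (U' u') := by
  classical
  obtain ⟨n, hn'⟩ : ∃ x : ℝ, x = Fintype.card V := ⟨_, rfl⟩
  have small := hb.small
  rw [← hn'] at a3 small ⊢
  have hn : 0 ≤ n := by rw [hn']; positivity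
  have hΩ : (0 : ℝ) < Fintype.card Ω := by exact_mod_cast Fintype.card_pos
  obtain ⟨M, hM⟩ : ∃ x, x = ⌊β * n / Fintype.card Ω⌋₊ := ⟨_, rfl⟩
  have b1 : (M : ℝ) * Fintype.card Ω ≤ β * n := by
    rw [← le_div_iff₀ hΩ, hM]; exact Nat.floor_le (by positivity)
  have b2 : β * n < (M + 1) * Fintype.card Ω := by
    rw [← div_lt_iff₀ hΩ, hM]; exact Nat.lt_floor_add_one _
  obtain ⟨ι⟩ := Function.Embedding.nonempty_of_card_le (α := Ω × Fin M) (β := V) (by
    rw [Fintype.card_prod, Fintype.card_fin, ← Nat.cast_le (α := ℝ), ← hn']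
    push_cast; nlinarith only [hn', b1, hd, hy, y2, hβ])
  let U' := fun u => (U u ×ˢ (univ : Finset (Fin M))).map ι
  let B := univ.map ι \ Y0
  have b3 : ∀ A : Finset V, (A.card : ℝ) ≤ (A \ Y0).card + y * n := fun A => by
    have := (Nat.cast_le (α := ℝ)).2 (Finset.le_card_sdiff Y0 A |> Nat.sub_le_iff_le_add.1)
    push_cast at this; linarith
  have b4 : ∀ u, (d + y) * n ≤ (U' u \ Y0).card := fun u => by
    have c1 := b3 (U' u)
    rw [Finset.card_map, Finset.card_product, Finset.card_univ, Fintype.card_fin, Nat.cast_mul] at c1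
    have c2 := mul_le_mul_of_nonneg_right (hU u) (M.cast_nonneg (α := ℝ))
    nlinarith only [a3, c1, c2, b2, hσ0, y1, hn, hσ, hΩ, mul_le_mul_of_nonneg_left b2.le hσ0, mul_le_mul_of_nonneg_right y1 hn,
      mul_le_mul_of_nonneg_right hσ hΩ.le]
  have b5 : ∀ u, U' u \ Y0 ⊆ B := fun u =>
    Finset.sdiff_subset_sdiff (Finset.map_subset_map.2 (subset_univ _)) Subset.rfl
  let r := fun u v => u ∉ X ∧ u ∉ B ∧ v ∈ B ∧ ∀ x ∈ X, u ∈ N x → v ∈ U' (lab x)
  have hBX : ∀ v ∈ B, v ∉ X := fun v hv h => (Finset.mem_sdiff.1 hv).2 (hb.hX h)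
  have hr : ∀ u v, r u v → (SimpleGraph.fromRel r).Adj u v := fun u v h =>
    ⟨fun e => h.2.1 (e ▸ h.2.2.1), .inl h⟩
  refine ⟨SimpleGraph.fromRel r, B, U', fun u v h => ?_, fun v hv => ?_, Finset.sdiff_disjoint,
    fun u v h => h.2.elim (fun h => ⟨h.1, iff_of_false h.2.1 (not_not.2 h.2.2.1), fun _ => h.2.2.2⟩)
    fun h => ⟨hBX _ h.2.2.1, iff_of_true h.2.2.1 h.2.1, fun e => absurd e h.2.1⟩, fun u u' h =>
    (Finset.disjoint_map _).2 (Finset.disjoint_product.2 (.inl h))⟩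
  · exact h.2.elim (fun h => ⟨h.1, .inr (Finset.mem_sdiff.1 h.2.2.1).2⟩)
      fun h => ⟨hBX _ h.2.2.1, .inl (Finset.mem_sdiff.1 h.2.2.1).2⟩
  · by_cases e : v ∈ B
    · have c1 := b3 (univ \ univ.map ι)
      rw [Finset.card_univ_sdiff, Nat.cast_sub (Finset.card_le_univ _), ← hn',
        Finset.card_map, Finset.card_univ, Fintype.card_prod, Fintype.card_fin, Nat.cast_mul] at c1
      refine le_trans (by nlinarith only [a3, hn', hΩ, b1, c1, y2, hβ, hd, hy]) (Nat.cast_le.2 (Finset.card_le_card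
        (s := (univ \ univ.map ι) \ Y0) fun u hu => mem_nb.2 ⟨mem_univ _, (hr u v ?_).symm⟩))
      rw [Finset.mem_sdiff, Finset.mem_sdiff] at hu
      exact ⟨fun h => hu.2 (hb.hX h), fun h => hu.1.2 (Finset.mem_sdiff.1 h).1, e,
        fun x hx h => absurd ((hb.hN x hx).2.1 h) hu.2⟩
    by_cases e' : ∃ x ∈ X, v ∈ N x
    · obtain ⟨x, c1, c2⟩ := e'
      exact (b4 (lab x)).trans (Nat.cast_le.2 (Finset.card_le_card fun u hu => mem_nb.2
        ⟨mem_univ _, hr v u ⟨hv, e, b5 _ hu, fun x' c3 c4 =>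
          hb.priv x c1 x' c3 v c2 c4 ▸ (Finset.mem_sdiff.1 hu).1⟩⟩))
    · exact (b4 u0).trans (Nat.cast_le.2 (Finset.card_le_card fun u hu => mem_nb.2
        ⟨mem_univ _, hr v u ⟨hv, e, b5 _ hu, fun x c3 c4 => absurd ⟨x, c3, c4⟩ e'⟩⟩))

lemma weight_spec {p : ℝ} (p0 : 0 ≤ p) (p1 : p ≤ 1) (hC : IsCloud H I) {S : Finset W} {u a z : W}
    {k j s : ℕ} (e1 : (S \ I).card = comps H I S + k) (e2 : k + cross H I S = j + 1)
    (e3 : S.card = s + 2) (j4 : (j : ℝ) = mI H I * s) (ha : a ∈ S) (hz : z ∈ S ∩ I)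
    (Nr : V → V → Prop) (v0 : V) (A : Finset V) {Cc b θ lam c : ℝ} (hC1 : 1 ≤ Cc) (hb : 1 ≤ b)
    (hl0 : 0 ≤ lam) (hM : ∀ u, ∀ B : Finset V, (∀ v ∈ B, Nr u v) →
      B.card ≤ Cc * (p * Fintype.card V))
    (hθ : θ = 1 ∨ u ∈ S ∧ cl H I u ≠ cl H I a ∧ cl H I u ≠ cl H I z ∧
      A.card ≤ θ * Fintype.card V)
    (a1 : 2 * θ * Cc ^ Fintype.card W * ((Fintype.card V : ℝ) ^ s * p ^ j) ≤ c)
    (a5 : ∀ s ≤ Fintype.card W, ∀ e : ℕ, mI H I * s ≤ e → (Fintype.card V : ℝ) ^ s * p ^ e ≤ lam)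
    (a6 : (2 * b * Cc) ^ Fintype.card W * lam ≤ c * (p * Fintype.card V)) (v : V)
    {E : Finset (Sym2 V)} (hE : 2 * (E.card : ℝ) ≤ b) :
    ∑ φ ∈ (pat S (cl H I) Nr v0 u A).filter fun φ => v ∈ s(φ a, φ z),
      p ^ (((cE H I).filter fun e => ∀ a ∈ e, a ∈ S).image (Sym2.map φ) \ E).card ≤
      2 * c * (p * Fintype.card V) := by
  have e0 := Finset.card_sdiff_add_card_inter S I
  have e4 : 1 ≤ (S ∩ I).card := Finset.card_pos.2 ⟨_, hz⟩
  obtain ⟨f, hf⟩ : ∃ f, comps H I S + (S ∩ I).card = 1 + f :=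
    Nat.exists_eq_add_of_le (by omega)
  have c1 := weight_pat p0 p1 (EB := (cE H I).filter fun e => ∀ a ∈ e, a ∈ S)
    (fun e he => (Finset.mem_filter.1 he).2) (cl H I) Nr v0 u A hC1 hb (by positivity) hl0 hM ha
    (Finset.mem_inter.1 hz).1 hθ (f := f) (k := k) (by rwa [card_image_cl]) (by omega)
    (fun S' d1 f' k' j' d2 d3 d4 d5 => by
      have d6 : (((cE H I).filter fun e => ∀ a ∈ e, a ∈ S).filter
          fun e => ∀ a ∈ e, a ∈ S').card = cross H I S' := by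
        rw [cross_eq hC, Finset.filter_filter]
        exact congrArg _ (Finset.filter_congr fun e _ =>
          ⟨And.right, fun h => ⟨fun a ha => d1 (h a ha), h⟩⟩)
      rw [d6] at d4 d5
      rw [← cross_eq hC] at d5
      rw [card_image_cl, card_image_cl] at d2
      have d7 := cross_bound hC d4
      have d8 := Finset.card_sdiff_add_card_inter S' I
      have d9 := comps_le (H := H) (I := I) S'
      have d10 := Finset.card_le_univ S
      rw [show cross H I S' - 1 + ((S' \ I).card - comps H I S') = j - (k' + j') by omega,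
        Nat.cast_sub (by omega), j4, show S'.card = s + 2 - (f' + k') by omega,
        Nat.cast_sub (by omega)] at d7
      refine le_trans (le_of_eq ?_) (a5 (f' + k') (by omega) (k' + j') (by
        push_cast at d7 ⊢; linarith only [d7]))
      ring) v hE
  rw [← cross_eq hC] at c1
  refine c1.trans ?_
  have c2 : (Fintype.card V : ℝ) ^ f * (p * Fintype.card V) ^ k * p ^ cross H I S =
      (Fintype.card V : ℝ) ^ s * p ^ j * (p * Fintype.card V) := by
    calc _ = (Fintype.card V : ℝ) ^ (f + k) * p ^ (k + cross H I S) := by ring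
      _ = _ := by rw [e2, show f + k = s + 1 by omega]; ring
  rw [c2, ← mul_assoc]
  linarith only [a6, a1, p0, mul_le_mul_of_nonneg_right a1 (by positivity : 0 ≤ p * Fintype.card V)]

lemma del_prob {p : ℝ} (p0 : 0 ≤ p) (p1 : p ≤ 1) {κ : Type} (Φ : Finset κ)
    (e : κ → Finset (Sym2 V)) (d : κ → Sym2 V) (hd : ∀ φ ∈ Φ, d φ ∈ e φ) {k R : ℕ} {a : ℝ}
    (ha : 0 < a) (hk : ∀ φ ∈ Φ, (e φ).card ≤ k) (hR : 10 * (Fintype.card V : ℝ) ≤ 3 ^ R)
    (hμ : ∀ v, ∀ E : Finset (Sym2 V), E.card ≤ R * k →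
      ∑ φ ∈ Φ.filter fun φ => v ∈ d φ, p ^ (e φ \ E).card ≤ a / 3) (D : Finset (Sym2 V)) :
    Pr (fun _ => p) (fun ω => ¬ ∃ E ⊆ rs ω ∩ D, (∀ φ ∈ Φ, ¬ e φ ⊆ E) ∧
      ∀ v, (dg (gr (rs ω ∩ D)) v univ : ℝ) ≤ dg (gr E) v univ + a) ≤ 1 / 10 := by
  have hP := isP_const (ι := Sym2 V) p0 p1
  refine (Pr_mono hP fun ω hω => ?_).trans ((Pr_exists_le hP univ _).trans
    ((Finset.sum_le_card_nsmul _ _ _ fun v _ => moment_tail p0 p1 _ e ha
      (fun φ h => hk φ (Finset.mem_filter.1 h).1) (hμ v)).trans ?_))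
  · by_contra hcon
    push Not at hcon
    obtain ⟨E, c1, c2, c3⟩ := del2 Φ e d hd (Finset.inter_subset_left (s₁ := rs ω) (s₂ := D))
    exact hω ⟨E, c1, c2, fun v => (c3 v).trans (add_le_add le_rfl (hcon v (mem_univ _)).le)⟩
  · rw [nsmul_eq_mul, Finset.card_univ, div_right_comm, div_self ha.ne', one_div, inv_pow,
      ← div_eq_mul_inv, div_le_iff₀ (by positivity)]
    linarith

lemma exists_R {n : ℝ} (hn : 3 ≤ n) :
    1 ≤ Real.log n ∧ ∃ R : ℕ, 10 * n ≤ 3 ^ R ∧ R ≤ 5 * Real.log n := by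
  have l1 : 1 ≤ Real.log n := by
    rw [Real.le_log_iff_exp_le (by linarith)]; linarith [Real.exp_one_lt_d9]
  refine ⟨l1, ⌈Real.log (10 * n)⌉₊, ?_, ?_⟩
  · rw [← Real.exp_log (by positivity : (0 : ℝ) < 10 * n), Real.log_exp]
    refine (Real.exp_le_exp.2 (Nat.le_ceil _)).trans ?_
    rw [← mul_one (⌈Real.log (10 * n)⌉₊ : ℝ), Real.exp_nat_mul]
    gcongr; linarith [Real.exp_one_lt_d9]
  · have e1 := (Nat.ceil_lt_add_one (Real.log_nonneg (by linarith : (1 : ℝ) ≤ 10 * n))).le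
    have e2 : Real.log 10 ≤ 3 := by
      rw [Real.log_le_iff_le_exp (by norm_num), show (3 : ℝ) = (3 : ℕ) * 1 by norm_num,
        Real.exp_nat_mul]
      exact le_trans (by norm_num) (pow_le_pow_left₀ (by norm_num) Real.exp_one_gt_d9.le 3)
    have e3 := Real.log_mul (by norm_num : (10 : ℝ) ≠ 0) (by linarith : n ≠ 0)
    linarith

theorem low_cloud (hl : l ≤ atTop) (hH : ¬ H.IsAcyclic)
    (h0 : Tendsto (fun n => (p n : ℝ)) l (𝓝 0)) (hA : Above p (m2 H))
    {G0 : SimpleGraph (Fin g)} {C : ℕ} (hG : ¬ G0.Colorable C) {Ω : Type} [Fintype Ω]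
    [DecidableEq Ω] [Nonempty Ω] (U : Fin g → Finset Ω) {σ β d : ℝ} (hσ : σ ≤ 1) (hβ : 0 ≤ β)
    (hU : ∀ u, σ * Fintype.card Ω ≤ (U u).card) (Th : Prop)
    (hTh : Th → ∀ u u' (w : G0.Walk u u'), Odd w.length → w.length ≤ Fintype.card W →
      Disjoint (U u) (U u'))
    (hB : ∀ I, IsCloud H I → (Th → IsThunder H I) →
      BelowL l p (mI H I) ∨ Soft H I ∧ Near l p (mI H I)) (hd : 0 ≤ d)
    (hd1 : d < σ * β) (hd2 : d < 1 - β) :
    ∀ᶠ n : ℕ in l, Pr (fun _ => (p n : ℝ)) (fun ω : Sym2 (Fin n) → Bool =>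
      ¬ ∃ I ⊆ rs ω, Wit H (d * (p n * n)) C I) ≤ 9 / 10 := by
  classical
  obtain ⟨y, hy, y1, y2⟩ : ∃ y : ℝ, 0 < y ∧ d + 3 * y ≤ σ * β ∧ d + 3 * y ≤ 1 - β :=
    ⟨min (σ * β - d) (1 - β - d) / 3, by
      have := lt_min (sub_pos.2 hd1) (sub_pos.2 hd2); positivity,
      by linarith [min_le_left (σ * β - d) (1 - β - d)],
      by linarith [min_le_right (σ * β - d) (1 - β - d)]⟩
  have hσ0 : 0 ≤ σ := by
    by_contra e; nlinarith
  obtain ⟨u0⟩ : Nonempty (Fin g) := by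
    by_contra e
    rw [not_nonempty_iff] at e
    exact hG (SimpleGraph.Colorable.of_isEmpty _)
  obtain ⟨κ, _, J, hC, hB', hJ⟩ : ∃ (κ : Type) (_ : Fintype κ) (J : κ → Finset W),
      (∀ i, IsCloud H (J i)) ∧ (∀ i, BelowL l p (mI H (J i)) ∨ Soft H (J i) ∧
        Near l p (mI H (J i))) ∧ ∀ I, IsCloud H I → (Th → IsThunder H I) → ∃ i, J i = I :=
    ⟨{I // IsCloud H I ∧ (Th → IsThunder H I)}, inferInstance, Subtype.val, fun i => i.2.1,
      fun i => hB _ i.2.1 i.2.2, fun I h1 h2 => ⟨⟨I, h1, h2⟩, rfl⟩⟩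
  choose S uu aa zz hS hS' haa hzz haz hso using fun i => exists_spec hH (hC i)
  have hm2 := one_lt_m2 hH
  have hm : ∀ i, 0 < mI H (J i) := fun i => by linarith [m2_le_mI hH (hC i)]
  have hN : ∀ i, Near l p (mI H (J i)) := fun i => (hB' i).elim (BelowL.near hl) And.right
  obtain ⟨δ0, hδ0'⟩ : ∃ x, x = 1 - 1 / m2 H := ⟨_, rfl⟩
  have hδ0 : 0 < δ0 := by rw [hδ0', sub_pos, div_lt_one (by linarith)]; exact hm2
  have hpn : ∀ᶠ n : ℕ in l, (n : ℝ) ^ δ0 ≤ p n * n := hδ0' ▸ hl hA.pn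
  obtain ⟨ζ, z1, z2, z3, z4⟩ := exists_zeta hl h0 hδ0 hpn (g * (24 * C ^ 2 + 1)) (Nonempty κ)
    fun ⟨i⟩ => ⟨_, hm i, hN i⟩
  have hj : ∀ i, ∃ k j s : ℕ, (S i \ J i).card = comps H (J i) (S i) + k ∧
      k + cross H (J i) (S i) = j + 1 ∧ (S i).card = s + 2 ∧ (j : ℝ) = mI H (J i) * s := fun i => by
    obtain ⟨k, hk⟩ := Nat.exists_eq_add_of_le (comps_le (H := H) (I := J i) (S i))
    obtain ⟨s, hs⟩ := Nat.exists_eq_add_of_le' ((Nat.le_succ 2).trans (hS i))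
    obtain ⟨j, hj⟩ := Nat.exists_eq_add_of_le' (one_le_cross hH (hC i) (hS i) (hS' i))
    have := hS' i
    rw [hk, hs, hj] at this
    exact ⟨k, k + j, s, hk, by omega, hs, by push_cast at this ⊢; linarith only [this]⟩
  choose kk jj ss j1 j2 j3 j4 using hj
  refine pipe2 hl z1 z2 (hA.lg hm2) hG z3 hd (a := d + y) (by linarith) (by linarith) hy
    fun Δ ε hε => ?_
  obtain ⟨h, hh⟩ : ∃ x, x = Fintype.card W := ⟨_, rfl⟩
  obtain ⟨Cc, hCc⟩ : ∃ x : ℝ, x = (Δ + 1) ^ h * 3 := ⟨_, rfl⟩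
  have hC1 : 1 ≤ Cc := by
    have : (1 : ℝ) ≤ (Δ + 1) ^ h := one_le_pow₀ (by linarith [Δ.cast_nonneg (α := ℝ)])
    linarith
  obtain ⟨c, hc'⟩ : ∃ x : ℝ, x = ε / (6 * (Fintype.card κ + 1)) := ⟨_, rfl⟩
  have hc : 0 < c := by rw [hc']; positivity
  let θ : κ → ℕ → ℝ := fun i n => if Soft H (J i) then 2 * ζ n else 1
  have hw : ∀ᶠ n : ℕ in l, ∀ i,
      2 * θ i n * Cc ^ h * ((n : ℝ) ^ ss i * (p n : ℝ) ^ jj i) ≤ c := eventually_all.2 fun i => by
    by_cases e : Soft H (J i)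
    · obtain ⟨δ, d1, d2⟩ := z4 ⟨i⟩
      filter_upwards [(hN i).pow hl (hm i) (half_pos d1) (ss i),
        ev_rpow hl (4 * Cc ^ h) 0 (half_pos d1) hc, hl (eventually_gt_atTop 0)] with n a1 a2 a3
      have hn : (0 : ℝ) < n := by exact_mod_cast a3
      have e1 : (n : ℝ) ^ (-δ) * (n ^ (δ / 2) * n ^ (δ / 2)) = 1 := by
        rw [← Real.rpow_add hn, ← Real.rpow_add hn]; simp
      simp only [θ, if_pos e, d2]
      rw [pow_zero, mul_one] at a2
      calc _ = n ^ (-δ) * (4 * Cc ^ h * (n ^ ss i * (p n : ℝ) ^ jj i)) := by ring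
        _ ≤ n ^ (-δ) * (c * n ^ (δ / 2) * n ^ (δ / 2)) := by
          have := a1 _ le_rfl _ (j4 i).ge
          have := (p n).2.1
          gcongr
        _ = c := by rw [mul_assoc, mul_left_comm, e1, mul_one]
    · filter_upwards [((hB' i).resolve_right fun h => e h.1).small (hm i) (by
        have := hS i; have := j3 i; omega) (j4 i) (by positivity : 0 < c / (2 * Cc ^ h))]
        with n a1
      simp only [θ, if_neg e]
      rwa [mul_one, ← le_div_iff₀' (by positivity)]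
  filter_upwards [hw, eventually_all.2 fun i => (hN i).pow hl (hm i) (half_pos hδ0) h, hpn,
    ev_rpow hl ((2 * (10 * h ^ 2 + 1) * Cc) ^ h) h (half_pos hδ0) hc,
    hl ((hA.lg hm2).large 1), hl (tendsto_natCast_atTop_atTop.eventually
    (ev_large (Fintype.card Ω) hy)), hl (eventually_ge_atTop 3)]
    with n a1 a5 a6 a7 a2 a3 a8 Y0 X E1 lab N hb hX
  replace a2 : (1 : ℝ) ≤ p n * n := a2
  have n3 : (3 : ℝ) ≤ n := by exact_mod_cast a8
  have hn : (0 : ℝ) < n := by linarith only [hβ, hd, hy, y2, n3]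
  have v0 : Fin n := ⟨0, by exact_mod_cast hn⟩
  obtain ⟨l1, R, R0, R1⟩ := exists_R n3
  obtain ⟨Γ, B, U', g1, g2, g3, g4, g5⟩ := gamma (W := W) (V := Fin n) (y := y)
    (by simpa only [Fintype.card_fin] using hb) u0 U hσ0 hσ hβ hU hd
    hy y1 y2 (by rwa [Fintype.card_fin])
  rw [Fintype.card_fin] at g2
  let Nr := fun u v => bs X N v ∈ ball (gr E1) (bs X N u) (Fintype.card W)
  let A : κ → Finset (Fin n) := fun i => if Soft H (J i) then X.biUnion N else univ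
  have c3 : (2 * ((10 * h ^ 2 + 1) * Real.log n) * Cc) ^ h * (n : ℝ) ^ (δ0 / 2) ≤
      c * (p n * n) := by
    calc _ = (2 * (10 * h ^ 2 + 1) * Cc) ^ h * Real.log n ^ h * (n : ℝ) ^ (δ0 / 2) := by
          rw [← mul_pow]; ring
      _ ≤ c * n ^ (δ0 / 2) * n ^ (δ0 / 2) := by gcongr
      _ ≤ _ := by rw [mul_assoc, ← Real.rpow_add hn, add_halves]; gcongr
  have main := del_prob (p n).2.1 (p n).2.2
    (univ.sigma fun i => pat (S i) (cl H (J i)) Nr v0 (uu i) (A i))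
    (fun x => ((cE H (J x.1)).filter fun e => ∀ a ∈ e, a ∈ S x.1).image (Sym2.map x.2))
    (fun x => s(x.2 (aa x.1), x.2 (zz x.1))) (fun x _ => Finset.mem_image.2 ⟨s(aa x.1, zz x.1),
      Finset.mem_filter.2 ⟨mem_cE.2 ⟨haz x.1, _, (Finset.mem_inter.1 (hzz x.1)).2, by simp⟩, by
        simp [haa x.1, (Finset.mem_inter.1 (hzz x.1)).1]⟩, rfl⟩) (k := h ^ 2) (R := R)
    (a := ε * (p n * n)) (by positivity)
    (fun x _ => Finset.card_image_le.trans (hh ▸ card_sub_sq _))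
    (by rwa [Fintype.card_fin]) (fun v E hE => ?_) (eF Γ)
  · refine ⟨Γ, g1, g2, (Pr_mono (isP_p p n) fun ω hω ⟨E, c1, c2, c3⟩ => hω ⟨E, c1,
      Finset.eq_empty_of_forall_notMem fun τ hτ => ?_, c3⟩).trans main⟩
    obtain ⟨I, d1, d2, d3, d4, d5, d6⟩ := hb.cloud g3 U' g4 (c1.trans Finset.inter_subset_right) hτ
    obtain ⟨i, rfl⟩ := hJ I d1 fun h => d2 fun u u' w e1 e2 => g5 _ _ (hTh h u u' w e1 e2)
    refine c2 ⟨i, fun a => if a ∈ S i then τ a else v0⟩ (Finset.mem_sigma.2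
      ⟨mem_univ _, mem_pat d4 d5 ?_⟩) (Subset.trans (le_of_eq (Finset.image_congr fun e he =>
        Sym2.map_congr fun a ha => if_pos ((Finset.mem_filter.1 he).2 a ha)))
        ((Finset.image_subset_image (Finset.filter_subset _ _)).trans d3))
    by_cases e1 : Soft H (J i)
    · obtain ⟨e2, e3, ⟨v, e4⟩, -⟩ := hso _ e1
      exact .inr ⟨e2, by simpa only [A, if_pos e1] using d6 _ v e3 e4⟩
    · exact .inl (if_neg e1)
  · rw [Finset.filter_sigma, Finset.sum_sigma]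
    refine (Finset.sum_le_card_nsmul _ _ _ fun i _ => weight_spec (p n).2.1 (p n).2.2 (hC i) (j1 i)
      (j2 i) (j3 i) (j4 i) (haa i) (hzz i) Nr v0 (A i) hC1 (b := (10 * h ^ 2 + 1) * Real.log n)
      (θ := θ i n) (lam := n ^ (δ0 / 2)) (c := c) (one_le_mul_of_one_le_of_one_le
        (by linarith [sq_nonneg (h : ℝ)]) l1) (by positivity)
      (fun u A hA => (hb.near (by positivity) _ _ A hA).trans ?_) ?_ ?_ ?_ ?_ v ?_).trans ?_
    · rw [hCc, hh, mul_assoc, Fintype.card_fin]; gcongr; linarith only [a2]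
    · by_cases e : Soft H (J i)
      · refine .inr ⟨(hso i e).1, (hso i e).2.2.2.1, (hso i e).2.2.2.2, ?_⟩
        simp only [A, θ, if_pos e, Fintype.card_fin]
        refine (Nat.cast_le.2 Finset.card_biUnion_le).trans ?_
        rw [Nat.cast_sum]
        refine (Finset.sum_le_card_nsmul _ _ _ fun x hx => (hb.hN x hx).2.2).trans ?_
        rw [nsmul_eq_mul]; linarith only [hX, hn, mul_le_mul_of_nonneg_right hX hn.le]
      · exact .inl (if_neg e)
    · rw [Fintype.card_fin, ← hh]; exact a1 i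
    · rw [Fintype.card_fin, ← hh]; exact a5 i
    · rw [Fintype.card_fin, ← hh]; exact c3
    · have := (Nat.cast_le (α := ℝ)).2 hE
      push_cast at this
      linarith only [hβ, hd, hy, y2, l1, this, R1, mul_le_mul_of_nonneg_right R1 (sq_nonneg (h : ℝ))]
    · rw [nsmul_eq_mul, Finset.card_univ, hc', ← mul_assoc, mul_div_right_comm, Fintype.card_fin]
      gcongr
      rw [mul_div_assoc', mul_div_assoc', div_le_div_iff₀ (by positivity) (by norm_num)]
      linarith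

theorem low_half [l.NeBot] (hl : l ≤ atTop) (hH : ¬ H.IsAcyclic)
    (h0 : Tendsto (fun n => (p n : ℝ)) l (𝓝 0)) (hA : Above p (m2 H))
    (hB : ∀ I, IsCloud H I → BelowL l p (mI H I) ∨ Soft H I ∧ Near l p (mI H I)) {span : Prop}
    {d : ℝ} (hd : 0 ≤ d) (hd' : d < 1 / 2) : ¬ Adm H p span d :=
  not_adm_of hl fun C => low_cloud hl hH h0 hA (top_not_col C) (Ω := Unit) (fun _ => univ) (σ := 1)
    (β := 1 / 2) le_rfl (by norm_num) (by simp) False (by simp) (fun I h _ => hB I h) hd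
    (by linarith) (by linarith)

theorem low_third [l.NeBot] (hl : l ≤ atTop) (hH : ¬ H.IsAcyclic)
    (h0 : Tendsto (fun n => (p n : ℝ)) l (𝓝 0)) (hA : Above p (m2 H))
    (hB : ∀ I, IsThunder H I → BelowL l p (mI H I) ∨ Soft H I ∧ Near l p (mI H I)) {span : Prop}
    {d : ℝ} (hd : 0 ≤ d) (hd' : d < 1 / 3) : ¬ Adm H p span d := by
  refine not_adm_of hl fun C => ?_
  obtain ⟨g, G0, Ω, _, _, _, U, a1, a2, a3⟩ :=
    shift (Fintype.card W) C (ζ := 1 / 3 - d) (by linarith)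
  exact low_cloud hl hH h0 hA a1 U (β := 2 / 3) (by linarith) (by norm_num) a2 True (fun _ => a3)
    (fun I _ h => hB I (h trivial)) hd (by linarith) (by linarith)

lemma BelowL.small' (hH : ¬ H.IsAcyclic) (hB : BelowL l p (m2 H)) : ∃ S : Finset W, 1 ≤ eIn H S ∧
    ∀ c > 0, ∀ᶠ n : ℕ in l, S.card * ((n : ℝ) ^ S.card * (p n : ℝ) ^ eIn H S) ≤
      c * (p n * n) * n := by
  obtain ⟨S, a1, a2⟩ := exists_m2 hH
  have a0 := one_lt_m2 hH
  have a3 : (3 : ℝ) ≤ S.card := by exact_mod_cast a1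
  have a4 : 1 ≤ eIn H S := by
    have : (1 : ℝ) ≤ eIn H S := by nlinarith
    exact_mod_cast this
  refine ⟨S, a4, fun c hc => ?_⟩
  obtain ⟨s, hs⟩ := Nat.exists_eq_add_of_le' ((Nat.le_succ 2).trans a1)
  obtain ⟨j, hj⟩ := Nat.exists_eq_add_of_le' a4
  filter_upwards [hB.small (by linarith) (j := j) (s := s) (by omega) (by
    rw [hs, hj] at a2; push_cast at a2; linarith) (by positivity : 0 < c / S.card)] with n h
  rw [le_div_iff₀' (by positivity)] at h
  have := mul_le_mul_of_nonneg_right h (mul_nonneg (pn_nonneg p n) n.cast_nonneg)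
  rw [hj]
  nth_rewrite 2 [hs]
  linarith [show (S.card : ℝ) * (n ^ (s + 2) * (p n : ℝ) ^ (j + 1)) =
    S.card * (n ^ s * (p n : ℝ) ^ j) * (p n * n * n) by ring]

theorem low_one [l.NeBot] (hl : l ≤ atTop) (hH : ¬ H.IsAcyclic) (hL : Lg p)
    (hB : BelowL l p (m2 H)) {span : Prop} {d : ℝ} (hd' : d < 1) : ¬ Adm H p span d := by
  classical
  refine not_adm_of hl fun C => ?_
  obtain ⟨S, a4, hS⟩ := hB.small' hH
  obtain ⟨ε, e0, e1, e2⟩ : ∃ ε : ℝ, 0 < ε ∧ 3 * ε ≤ 1 - d ∧ ε * (8 * (C + 1)) ≤ 1 :=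
    ⟨min ((1 - d) / 3) (1 / (8 * (C + 1))), lt_min (by linarith) (by positivity),
      by linarith [min_le_left ((1 - d) / 3) (1 / (8 * ((C : ℝ) + 1)))],
      (le_div_iff₀ (by positivity)).1 (min_le_right _ _)⟩
  have hC0 := C.cast_nonneg (α := ℝ)
  have e3 : ε ≤ 1 / 8 := by nlinarith only [e2, e0]
  obtain ⟨c, hc, hc'⟩ := hL.fam (Fintype.card W ^ 2) e0
  filter_upwards [hS c hc, hl (hc'.and ((hL.large (12 / ε ^ 2)).and
    ((hL.small (by positivity : 0 < ε ^ 2 / 8)).and ((tend_neg.eventually_le_const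
    (by norm_num : (0 : ℝ) < 1 / 10)).and ((tendsto_natCast_atTop_atTop.eventually
    (ev_large 1 e0)).and (eventually_gt_atTop 0))))))] with n b3 ⟨⟨t, b1, b2⟩, b4, b5, b6, b7, b8⟩
  have hn : (0 : ℝ) < n := by exact_mod_cast b8
  have hP := isP_p p n
  have p0 := (p n).2.1
  have pn := pn_nonneg p n
  let EB := (eF H).filter fun e => ∀ a ∈ e, a ∈ S
  have hEB : ∀ e ∈ EB, ∀ a ∈ e, a ∈ S := fun e he => (Finset.mem_filter.1 he).2
  let 𝓔 := pats S EB id (fun _ _ : Fin n => False) ⟨0, b8⟩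
  obtain ⟨s, hs⟩ : ∃ x, x = n / (2 * (C + 1)) := ⟨_, rfl⟩
  have s1 : (C + 1) * (2 * s) ≤ n := by
    rw [hs, ← mul_assoc, mul_comm (C + 1)]; exact Nat.mul_div_le _ _
  have s2 : 2 * ε * n ≤ s := by
    have : n < 2 * (C + 1) * (s + 1) := by rw [hs]; exact Nat.lt_mul_div_succ _ (by omega)
    have : (n : ℝ) ≤ 2 * (C + 1) * (s + 1) := by exact_mod_cast this.le
    nlinarith only [e0, e3, b7, this, e2, mul_le_mul_of_nonneg_left this e0.le, s.cast_nonneg (α := ℝ)]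
  have f1 := Pr_min p0 (p n).2.2 (⊤ : SimpleGraph (Fin n)) univ (M := (1 - ε) * n) (by nlinarith only [e0, e3, b7, e2])
    (fun v _ => by
      have : nb ⊤ v univ = univ.erase v := by ext u; simp [mem_nb, eq_comm]
      rw [dg, this, Finset.card_erase_of_mem (mem_univ _), Finset.card_univ, Fintype.card_fin,
        Nat.cast_sub b8]
      push_cast; linarith) e0.le (by linarith)
  have f2 := Pr_Fam p0 (p n).2.2 𝓔 (μ := c * (p n * n)) (fun v => by
    have := weight_pats p0 hEB id (fun _ _ : Fin n => False) ⟨0, b8⟩ le_rfl (fun u B h => by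
      rw [Finset.eq_empty_of_forall_notMem h]; simp) (k := 0) (by simp) v
    rw [Fintype.card_fin, Finset.image_id, ← eIn_eq, pow_zero, mul_one, mul_assoc] at this
    exact le_of_mul_le_mul_right (this.trans b3) hn) t
  have f3 := Pr_den (V := Fin n) p0 (p n).2.2 s
  rw [Fintype.card_fin] at f1 f2 f3
  refine (Pr_mono hP fun ω hω => ?_).trans ((Pr_or_le hP _ _).trans ((add_le_add
    ((Pr_or_le hP _ _).trans (add_le_add (f1.trans (le_trans ?_ b5)) (f2.trans b2)))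
    (f3.trans (le_trans (Real.exp_le_exp.2 ?_) b6))).trans (by norm_num)))
  · by_contra hcon
    rw [not_or, not_or] at hcon
    obtain ⟨E, g1, g2, g3⟩ := del (k := Fintype.card W ^ 2) (fun e he => by
      rw [← Finset.card_pos, card_pats hEB he]
      exact ⟨eIn_eq H S ▸ a4, card_sub_sq _⟩) (Finset.inter_subset_left (s₂ := eF ⊤)) hcon.1.2
    refine hω ⟨E, g1.trans Finset.inter_subset_left, Finset.eq_empty_of_forall_notMem
      fun τ hτ => ?_, fun v => ?_, fun ⟨col, c1, c2⟩ => ?_⟩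
    · simp only [embs, Finset.mem_filter, mem_homs] at hτ
      refine g2 _ (mem_pats hEB _ hτ.2 fun a _ b _ h e => h e) fun e he => ?_
      obtain ⟨e', he', rfl⟩ := Finset.mem_image.1 he
      induction e' using Sym2.ind with
      | h a b => exact (gr_adj.1 (hτ.1.2 a b (mem_eF.1 (Finset.mem_filter.1 he').1))).1
    · have h1 := not_le.1 fun h => hcon.1.1 ⟨v, mem_univ _, h⟩
      have h2 := (Nat.cast_le (α := ℝ)).2 (g3 v univ)
      rw [Nat.cast_add] at h2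
      have : d + ε ≤ (1 - ε) * (1 - ε) := by nlinarith
      nlinarith only [b1, h1, h2, this, pn, mul_le_mul_of_nonneg_right this pn]
    · obtain ⟨a, -, d1⟩ := Finset.exists_le_card_fiber_of_mul_le_card_of_maps_to (s := univ)
        (t := range (C + 1)) (f := col) (fun v hv => Finset.mem_range.2 ((c1 v hv).trans (by omega)))
        ⟨0, by simp⟩ (n := 2 * s) (by simpa using s1)
      obtain ⟨U1, d2, d3⟩ := Finset.exists_subset_card_eq (n := s) (le_trans (by omega) d1)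
      obtain ⟨U2, d4, d5⟩ := Finset.exists_subset_card_eq (n := s)
        (s := (univ.filter fun v => col v = a) \ U1) (by
          rw [Finset.card_sdiff_of_subset d2]; omega)
      refine hcon.2 ⟨(U1, U2), Finset.mem_filter.2 ⟨mem_univ _,
        Finset.disjoint_sdiff.mono_right d4, d3, d5⟩, (Finset.sum_le_card_nsmul _ _
        (ε * (p n * n)) fun u hu => le_trans (Nat.cast_le.2 ?_) b1).trans ?_⟩
      · have d6 : dg (gr E) u U2 = 0 := Finset.card_eq_zero.2 (Finset.eq_empty_of_forall_notMem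
          fun v hv => c2 u (mem_univ _) v (mem_univ _) (mem_nb.1 hv).2
            ((Finset.mem_filter.1 (d2 hu)).2.trans
              (Finset.mem_filter.1 (Finset.mem_sdiff.1 (d4 (mem_nb.1 hv).1)).1).2.symm))
        have d7 := g3 u U2
        rw [d6, zero_add] at d7
        exact (dg_mono (fun x y h => gr_adj.2 ⟨Finset.mem_inter.2 ⟨(gr_adj.1 h).1,
          (mem_eF (H := ⊤)).2 h.ne⟩, h.ne⟩) u Subset.rfl).trans d7
      · rw [d3, nsmul_eq_mul]
        nlinarith only [s2, p0, mul_le_mul_of_nonneg_left s2 (mul_nonneg p0 (s.cast_nonneg (α := ℝ)))]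
  · refine mul_le_mul_of_nonneg_left (Real.exp_le_exp.2 ?_) hn.le
    nlinarith only [pn, e2, mul_nonneg (sq_nonneg ε) pn]
  · rw [div_le_iff₀ (by positivity)] at b4
    have := mul_le_mul_of_nonneg_left (mul_le_mul s2 s2 (by positivity) (s.cast_nonneg (α := ℝ))) p0
    nlinarith only [this, b4, hn, mul_le_mul_of_nonneg_right b4 hn.le]

end Pool.Agent.Lib.MP_46505f_co
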