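import Pool.Agent.Lib.MP_46505f_co.Hard4
import Pool.Agent.Lib.MP_46505f_co.Lower

set_option autoImplicit false
set_option linter.unusedSectionVars false
open Finset Filter Topology
open Pool.Agent.Lib.MP_eaf82e_pr

namespace Pool.Agent.Lib.MP_46505f_co

/- The sharp upper bound above the threshold of a cloud. -/

variable {W : Type} [Fintype W] [DecidableEq W] {H : SimpleGraph W} {I : Finset W}

lemma cross_card [DecidableRel H.Adj] (S : Finset W) :
    cross H I S = (((S \ I) ×ˢ (S ∩ I)).filter fun x => H.Adj x.1 x.2).card := by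
  rw [cross, ← Set.ncard_coe_finset]
  congr 1; ext x; simp [and_assoc]

lemma one_le_comps {S : Finset W} {a : W} (h : a ∈ S \ I) : 1 ≤ comps H I S :=
  comps_eq' (H := H) S ▸ Finset.card_pos.2 ⟨_, Finset.mem_image_of_mem _ h⟩

lemma sparse_or : (∀ S, comps H I S ≤ 1 → cross H I S ≤ (S ∩ I).card) ∨ 2 ≤ mI H I := by
  classical
  refine or_iff_not_imp_left.2 fun h => ?_
  push Not at h
  obtain ⟨S, h1, h2⟩ := h
  rw [cross_card] at h2
  obtain ⟨⟨a, z⟩, ha, ⟨b, z'⟩, hb, e1, e2⟩ := Finset.exists_ne_map_eq_of_card_lt_of_maps_to h2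
    (f := Prod.snd) fun x hx => (Finset.mem_product.1 (Finset.mem_filter.1 hx).1).2
  obtain rfl : z = z' := e2
  simp only [Finset.mem_filter, Finset.mem_product, Finset.mem_sdiff, Finset.mem_inter] at ha hb
  have hab : a ≠ b := fun e => e1 (by rw [e])
  have a1 : ({a, b, z} : Finset W) \ I = {a, b} := by ext x; simp; grind
  have a2 : ({a, b, z} : Finset W).card = 3 := Finset.card_eq_three.2 ⟨a, b, z, hab, ha.2.ne,
    hb.2.ne, rfl⟩
  have a3 : 2 ≤ cross H I {a, b, z} := by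
    rw [cross_card, a1]
    exact Finset.one_lt_card.2 ⟨(a, z), by simp [ha.2, ha.1.2.2], (b, z), by simp [hb.2, ha.1.2.2],
      e1⟩
  have a4 : comps H I {a, b, z} ≤ 1 := le_trans (by
    rw [comps_eq, comps_eq, a1]
    exact Finset.card_le_card (Finset.image_subset_image (by
      simp [Finset.insert_subset_iff, ha.1.1, hb.1.1]))) h1
  have a5 := le_mI (H := H) (I := I) a2.ge
  rw [a1, a2, Finset.card_pair hab] at a5
  have := (Nat.cast_le (α := ℝ)).2 a3
  have := (Nat.cast_le (α := ℝ)).2 a4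
  push_cast at *
  linarith

lemma slack2 (hS : ¬ Soft H I) {S : Finset W} (hC : IsCloud H I) (h1 : 1 ≤ cross H I S)
    (h2 : ∃ u ∈ S, NI H I u) (h3 : 2 ≤ comps H I S) :
    ((cross H I S - 1 + ((S \ I).card - comps H I S) : ℕ) : ℝ) < mI H I * (S.card - 2) := by
  refine (cross_bound hC h1).lt_of_ne fun e => hS ⟨S, ?_, ?_, h3, h2⟩
  · obtain ⟨-, -, -, z, b1, b2, -⟩ := cross_pos hC h1
    have := Finset.card_lt_card (show S \ I ⊂ S from ⟨Finset.sdiff_subset, fun h =>
      (Finset.mem_sdiff.1 (h b1)).2 b2⟩)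
    have := comps_le (H := H) (I := I) S
    omega
  · rw [← e, Nat.cast_add, Nat.cast_sub h1, Nat.cast_sub (comps_le S)]; push_cast; ring

lemma slack4 (hH : ¬ H.IsAcyclic) (hS : ¬ Soft H I) {S : Finset W} (hC : IsCloud H I)
    (h1 : 3 ≤ S.card) (h2 : ∃ u ∈ S, NI H I u) :
    ((eIn H S - 1 : ℕ) : ℝ) < mI H I * (S.card - 2) := by
  classical
  have a0 := (one_lt_m2 hH).trans_le (m2_le_mI hH hC)
  have a1 : (3 : ℝ) ≤ S.card := by exact_mod_cast h1
  by_contra c
  rw [not_lt] at c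
  have a2 : 1 ≤ eIn H S := Nat.pos_of_ne_zero fun e => by
    rw [e] at c; simp only [zero_tsub, Nat.cast_zero] at c; nlinarith only [a0, a1, c]
  rw [Nat.cast_sub a2, Nat.cast_one] at c
  have a3 := (Nat.cast_le (α := ℝ)).2 (eIn_le hC S)
  have a4 := le_mI (H := H) (I := I) h1
  push_cast at a3
  have a5 : (cross H I S : ℝ) + (S \ I).card - comps H I S - 1 = mI H I * (S.card - 2) := by
    linarith
  have a6 : comps H I S ≤ 1 := not_lt.1 fun e => hS ⟨S, h1, a5, e, h2⟩
  have a7 : eIn H S ≤ cross H I S := by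
    rw [cross_eq hC, eIn_eq]
    refine Finset.card_le_card fun e he => ?_
    rw [Finset.mem_filter, mem_eF] at he
    refine Finset.mem_filter.2 ⟨mem_cE.2 ⟨he.1, by_contra fun f => ?_⟩, he.2⟩
    push Not at f
    induction e using Sym2.ind with
    | h a b =>
      have ha : a ∉ I := fun h => f a h (by simp)
      have hb : b ∉ I := fun h => f b h (by simp)
      obtain ⟨z, b1, b2⟩ := max_cross hH hC h1 a5 (Finset.mem_sdiff.2 ⟨he.2 a (by simp), ha⟩)
      obtain ⟨z', b3, b4⟩ := max_cross hH hC h1 a5 (Finset.mem_sdiff.2 ⟨he.2 b (by simp), hb⟩)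
      exact hC.2.2.2 a b ⟨he.1, ha, hb⟩ ⟨z, (Finset.mem_inter.1 b1).2, b2⟩
        ⟨z', (Finset.mem_inter.1 b3).2, b4⟩
  have a8 : cross H I S ≤ (S \ I).card * (S ∩ I).card := by
    rw [cross_card, ← Finset.card_product]; exact Finset.card_filter_le _ _
  obtain ⟨u, b1, b2⟩ := h2
  have a9 := one_le_comps (H := H) (Finset.mem_sdiff.2 ⟨b1, b2.notMem⟩)
  have b3 := (Nat.cast_le (α := ℝ)).2 a7
  have b4 : ((S \ I).card : ℝ) ≤ comps H I S := by linarith
  have b5 : (S \ I).card = 1 := by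
    have := comps_le (H := H) (I := I) S
    have : (S \ I).card ≤ comps H I S := by exact_mod_cast b4
    omega
  have b6 := Finset.card_sdiff_add_card_inter S I
  have b7 : (eIn H S : ℝ) + 1 ≤ S.card := by
    rw [b5] at a8 b6
    exact_mod_cast (by omega : eIn H S + 1 ≤ S.card)
  nlinarith only [a0, c, b7, a1]

lemma slack {m : ℝ} (hm : 0 < m) {e s : ℕ} (h : (e : ℝ) < m * (s - 2)) (k B : ℕ) :
    ∀ᶠ ε in 𝓝[>] (0 : ℝ), ∀ᶠ n : ℕ in atTop, (4 * ((n : ℝ) ^ ε) ^ 3) ^ k * (n : ℝ) ^ 2 ≤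
      ((n : ℝ) ^ (-(1 / m)) / ((n : ℝ) ^ ε) ^ B) ^ e * (n : ℝ) ^ s := by
  have hσ : 0 < (s - 2 - e / m) / 2 := by
    have : e / m < s - 2 := by rw [div_lt_iff₀ hm]; linarith
    linarith
  filter_upwards [ev_small (3 * k + B * e) hσ] with ε hε
  filter_upwards [((tendsto_rpow_atTop hσ).comp tendsto_natCast_atTop_atTop).eventually_ge_atTop
    (4 ^ k), eventually_ge_atTop 1] with n h1 h2
  have hn : (1 : ℝ) ≤ n := by exact_mod_cast h2
  have h0 : (0 : ℝ) < n := by linarith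
  rw [mul_pow, mul_assoc]
  refine (mul_le_mul_of_nonneg_right h1 (by positivity)).trans ?_
  simp only [Function.comp, ← Real.rpow_natCast, ← Real.rpow_mul h0.le, ← Real.rpow_sub h0,
    ← Real.rpow_add h0]
  refine Real.rpow_le_rpow_of_exponent_le hn ?_
  push_cast
  have : (-(1 / m) - ε * B) * e = -(e / m) - ε * B * e := by ring
  linarith only [hε, this]

variable {p : ℕ → unitInterval} {span : Prop} {d : ℝ}

theorem adm_hard (hH : ¬ H.IsAcyclic) (hC : IsCloud H I) (hS : ¬ Soft H I)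
    (hA : Above p (mI H I)) (hp : ∀ᶠ n : ℕ in atTop, (p n : ℝ) ≤ (n : ℝ) ^ (-(1 / (2 * mI H I))))
    (hd : IsThunder H I ∧ 0 < d ∨ 1 / 3 < d) : Adm H p span d := by
  obtain ⟨S0, hS0, e0⟩ := exists_mI hH I
  have : Nonempty W := ⟨(Finset.card_pos.1 (by omega : 0 < S0.card)).choose⟩
  obtain ⟨-, -, -, z, -, hz, -⟩ := cross_pos hC (one_le_cross hH hC hS0 e0)
  obtain ⟨d', a, g, d1, d2, d3, d4, d5, d6⟩ : ∃ d' a g : ℝ, d' ≤ d ∧ 0 < g ∧ 4 * g ≤ a ∧
      a + 20 * g ≤ d' ∧ d' ≤ 1 ∧ (IsThunder H I ∨ 1 + 14 * g ≤ 3 * a) := by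
    have e1 := min_le_left d 1
    have e2 := min_le_right d 1
    rcases hd with hd | hd
    · have := lt_min hd.2 one_pos
      exact ⟨_, min d 1 / 2, min d 1 / 40, e1, by linarith, by linarith, by linarith, e2, .inl hd.1⟩
    · have := lt_min hd (by norm_num : (1 / 3 : ℝ) < 1)
      exact ⟨_, (min d 1 + 1 / 3) / 2, (min d 1 - 1 / 3) / 40, e1, by linarith, by linarith,
        by linarith, e2, .inr (by linarith)⟩
  have hm1 := (one_lt_m2 hH).trans_le (m2_le_mI hH hC)
  obtain ⟨m, hm⟩ : ∃ x, x = mI H I := ⟨_, rfl⟩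
  obtain ⟨B, hB⟩ : ∃ x, x = 3 * Fintype.card W + 5 := ⟨_, rfl⟩
  have m0 : 0 < mI H I := by linarith
  obtain ⟨ε, ⟨⟨⟨e1, e2⟩, e3⟩, e4⟩, hε⟩ := (((((eventually_all.2 fun S => eventually_all.2 fun h :
    1 ≤ cross H I S ∧ (∃ u ∈ S, NI H I u) ∧ 2 ≤ comps H I S => slack m0 (slack2 hS hC h.1 h.2.1
    h.2.2) (Fintype.card W) B).and (eventually_all.2 fun S : Finset W => eventually_all.2 fun h :
    3 ≤ S.card ∧ ∃ u ∈ S, NI H I u => slack m0 (slack4 hH hS hC h.1 h.2) (Fintype.card W) B)).and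
    (slack m0 (e := 1) (s := 3) (by norm_num; exact hm1) 0 B)).and
    (ev_small 3 (by positivity : 0 < 1 / (2 * mI H I)))).and self_mem_nhdsWithin).exists
  replace hε : 0 < ε := hε
  obtain ⟨L, hL⟩ := exists_nat_ge (1 / ε)
  rw [div_le_iff₀ hε] at hL
  obtain ⟨C, s, c, hs, hc, key⟩ := up_hard hC ⟨z, hz⟩ d2 d3 d4 d5 d6 (L + 1) (4 * L)
  have s0 : (0 : ℝ) < s := by exact_mod_cast hs
  have t1 : Tendsto (fun n : ℕ => (n : ℝ) ^ ε) atTop atTop :=
    (tendsto_rpow_atTop hε).comp tendsto_natCast_atTop_atTop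
  have t3 := (((tend_neg.const_mul 4).add (tend_Xp (p := p))).add
    (tend_exp (mul_zero (Real.exp 1) ▸ tend_log.const_mul (Real.exp 1)))).add
    (((hA.lg hm1).tend (by positivity : 0 < 1 / (2 * (s : ℝ)))).const_mul (s : ℝ))
  simp only [mul_zero, add_zero] at t3
  refine adm_of (C := C) (squeeze_zero' (Eventually.of_forall fun n => Pr_nonneg (isP_p p n) _) ?_
    t3)
  filter_upwards [hp, t1.eventually key, ev_rpow le_rfl 1 1 hε hc, eventually_ge_atTop (s + 1),
    eventually_all.2 fun S => eventually_all.2 (e1 S), eventually_all.2 fun S =>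
    eventually_all.2 (e2 S), e3, hA.eventually_ge_atTop (max 1 (1 / c))] with n a1 a2 a3 a4 a5 a6
    a7 a8
  have hn2 : (s : ℝ) + 1 ≤ n := by exact_mod_cast a4
  have hn1 : (1 : ℝ) < n := by exact_mod_cast (by omega : 1 < n)
  have hn := hn1.le
  have hn0 : (0 : ℝ) < n := by linarith
  obtain ⟨q, hq⟩ : ∃ x, x = (n : ℝ) ^ ε := ⟨_, rfl⟩
  obtain ⟨τ, hτ⟩ : ∃ x, x = (n : ℝ) ^ (-(1 / mI H I)) := ⟨_, rfl⟩
  have q1 : 1 ≤ q := hq ▸ Real.one_le_rpow hn hε.le
  have τ0 : 0 < τ := by rw [hτ]; positivity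
  have b0 : ∀ x, x ≤ max 1 (1 / c) → x * τ ≤ p n := fun x hx => by
    rw [hτ, Real.rpow_neg hn0.le, mul_inv_le_iff₀ (by positivity)]
    exact hx.trans a8
  have b1 : τ ≤ p n := by simpa using b0 _ (le_max_left _ _)
  have b2 : q ^ 3 * p n ≤ 1 := by
    refine (mul_le_mul_of_nonneg_left a1 (by positivity)).trans ?_
    rw [hq, ← Real.rpow_natCast, ← Real.rpow_mul hn0.le, ← Real.rpow_add hn0]
    exact Real.rpow_le_one_of_one_le_of_nonpos hn (by push_cast; linarith)
  have b3 : 0 < q ^ 3 * p n := by have := τ0.trans_le b1; positivity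
  have qB : 1 ≤ q ^ B := one_le_pow₀ q1
  simp only [← hq, ← hτ] at a2 a3 a5 a6 a7
  have t4 : 1 ≤ τ / q ^ B * n := by
    rw [pow_zero, pow_one] at a7
    exact le_of_mul_le_mul_right (a7.trans_eq (by ring)) (by positivity : (0 : ℝ) < n ^ 2)
  have t5 : τ / q ^ B ≤ 1 := (div_le_self τ0.le qB).trans (b1.trans (p n).2.2)
  have := a2 (Fin n) (fun v => ⟨v % s, Nat.mod_lt _ hs⟩) (p n) τ (τ / q ^ B) (Real.log n)
    ⌊1 / (q ^ 3 * p n)⌋₊ ?_ ?_ (Real.log_nonneg hn) (by simpa using a3) ?_ ?_ fun j => ?_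
  · rw [Fintype.card_fin] at this
    have b := Pr_Sp (V := Fin n) (p n).2.1 (p n).2.2 q1 (4 * L)
    have b' := Pr_parts (V := Fin n) (p n).2.1 (p n).2.2 (fun j : Fin s => univ.filter fun v : Fin n =>
      (⟨v % s, Nat.mod_lt _ hs⟩ : Fin s) = j) (M := 2 * n / s) fun j => by
        simp only [Fin.ext_iff]
        refine (card_mod_class hs j).trans ?_
        rw [div_add_one s0.ne']; gcongr; linarith
    refine le_trans (Pr_mono (isP_p p n) fun ω hω => ?_) ((Pr_or_le (isP_p p n) _ _).trans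
      (add_le_add ((Pr_or_le (isP_p p n) _ _).trans (add_le_add ((Pr_or_le (isP_p p n) _ _).trans
      (add_le_add this le_rfl)) (b.trans ?_))) (b'.trans_eq ?_)))
    · have := hω.mono (mul_le_mul_of_nonneg_right d1 (pn_nonneg p n))
      refine or_iff_not_imp_right.2 fun h1 => or_iff_not_imp_right.2 fun h2 =>
        or_iff_not_imp_right.2 fun h3 => ⟨this, not_not.1 h3, not_not.1 h2, fun v j => ?_⟩
      exact not_lt.1 fun h => h1 ⟨v, j, h.le⟩
    · rw [Fintype.card_fin, mul_left_comm, ← Real.exp_add, hq, Real.log_rpow hn0]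
      gcongr
      push_cast
      nlinarith only [d2, d3, d4, d5, hL, hn, Real.log_nonneg hn]
    · simp only [Fintype.card_fin]
      rw [mul_left_comm]; congr 3; field_simp; ring
  all_goals try rw [Fintype.card_fin]
  · have c1 := Nat.floor_le (by positivity : 0 ≤ 1 / (q ^ 3 * p n))
    have c2 := Nat.lt_floor_add_one (1 / (q ^ 3 * p n))
    have c3 : (1 : ℝ) ≤ ⌊1 / (q ^ 3 * p n)⌋₊ := by
      exact_mod_cast Nat.le_floor (by rwa [Nat.cast_one, le_div_iff₀ b3, one_mul])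
    rw [div_lt_iff₀ b3] at c2
    refine ⟨(p n).2.2, by positivity, div_le_self τ0.le qB, b1, by
      rwa [← hB, mul_div_cancel₀ _ (by positivity)], t4, (le_div_iff₀ b3).1 c1, by nlinarith only [c3, c2],
      fun S h => ?_, fun S h1 h2 h3 => a5 S ⟨h1, h2, h3⟩, fun S h1 h2 => a6 S ⟨h1, h2⟩⟩
    rw [Nm, one_mul, hτ]
    exact pow_tau hn m0 (cross_bound hC h)
  · have := b0 _ (le_max_right _ _)
    rwa [one_div, inv_mul_le_iff₀ hc] at this
  · refine (sparse_or (H := H) (I := I)).imp (fun h S h1 h2 => ?_) fun h => ?_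
    · by_cases h3 : 2 ≤ comps H I S
      · exact Nm.mono (a5 S ⟨h1, h2, h3⟩) (by positivity) le_rfl hn0.le
          (one_le_pow₀ (by linarith [one_le_pow₀ (n := 3) q1]))
      obtain ⟨u, u1, u2⟩ := h2
      have c1 := one_le_comps (H := H) (Finset.mem_sdiff.2 ⟨u1, u2.notMem⟩)
      have c2 := h S (by omega)
      have c3 := Finset.card_sdiff_add_card_inter S I
      have c4 := comps_le (H := H) (I := I) S
      obtain ⟨j, hj⟩ := Nat.exists_eq_add_of_le (by omega : 2 ≤ S.card)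
      rw [Nm, hj]
      calc _ ≤ (τ / q ^ B * n) ^ j * n ^ 2 := by gcongr; exact one_le_pow₀ t4
        _ = (τ / q ^ B) ^ j * n ^ (2 + j) := by ring
        _ ≤ _ := by gcongr ?_ * _; exact pow_le_pow_of_le_one (by positivity) t5 (by omega)
    · have := pow_tau hn m0 (k := 2) (s := 3) (by norm_num; exact h)
      rw [← hτ] at this
      exact le_of_mul_le_mul_right (by linarith) (by positivity : (0 : ℝ) < n ^ 2)
  · rw [hq, ← Real.rpow_natCast, ← Real.rpow_mul hn0.le]
    simpa using Real.rpow_lt_rpow_of_exponent_lt hn1 (by linarith only [hε, hL] : 1 < ε * (L + 1))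
  · simp only [Fin.ext_iff]
    refine (card_mod_class hs j).trans ?_
    rw [div_add_one s0.ne']; gcongr; linarith

lemma Adm.split {p1 p2 : ℕ → unitInterval} (h : ∀ n, p n = p1 n ∨ p n = p2 n)
    (h1 : Adm H p1 span d) (h2 : Adm H p2 span d) : Adm H p span d := by
  obtain ⟨C1, h1⟩ := h1
  obtain ⟨C2, h2⟩ := h2
  have := h1.min h2
  rw [min_self] at this
  refine ⟨max C1 C2, tendsto_of_tendsto_of_tendsto_of_le_of_le this tendsto_const_nhds (fun n => ?_)
    fun n => MeasureTheory.measureReal_le_one⟩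
  rcases h n with e | e <;> simp only [e]
  · exact (min_le_left _ _).trans (MeasureTheory.measureReal_mono fun G hG G' a1 a2 a3 =>
      (hG G' a1 a2 a3).mono (le_max_left _ _))
  · exact (min_le_right _ _).trans (MeasureTheory.measureReal_mono fun G hG G' a1 a2 a3 =>
      (hG G' a1 a2 a3).mono (le_max_right _ _))

theorem adm_on (hH : ¬ H.IsAcyclic) (hC : IsCloud H I) (hA : On H p I)
    (hd : IsThunder H I ∧ 0 < d ∨ 1 / 3 < d) : Adm H p span d := by
  by_cases hS : Soft H I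
  · exact adm_cloud hH hC (hA.2 hS) hd
  have hm := (one_lt_m2 hH).trans_le (m2_le_mI hH hC)
  have hε : 0 < 1 / (2 * mI H I) := by positivity
  let u : ℕ → unitInterval := fun n => Set.projIcc 0 1 zero_le_one ((n : ℝ) ^ (-(1 / (2 * mI H I))))
  have hu : ∀ᶠ n : ℕ in atTop, (u n : ℝ) = (n : ℝ) ^ (-(1 / (2 * mI H I))) := by
    filter_upwards [eventually_ge_atTop 1] with n hn
    exact congrArg _ (Set.projIcc_of_mem _ ⟨by positivity, Real.rpow_le_one_of_one_le_of_nonpos
      (by exact_mod_cast hn) (by linarith)⟩)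
  have e : 1 / (2 * mI H I) - 1 / mI H I = -(1 / (2 * mI H I)) := by field_simp; ring
  refine Adm.split (p1 := fun n => max (p n) (u n)) (p2 := fun n => min (p n) (u n))
    (fun n => (le_total (u n) (p n)).imp (fun h => (max_eq_left h).symm)
      fun h => (min_eq_left h).symm)
    (adm_cloud hH hC ⟨_, hε, hu.mono fun n h => ?_⟩ hd) (adm_hard hH hC hS ?_
      (hu.mono fun n h => h ▸ min_le_right (p n) (u n)) hd)
  · rw [e, ← h]; exact le_max_right (p n) (u n)
  · refine tendsto_atTop.2 fun b => ?_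
    filter_upwards [hA.1.eventually_ge_atTop b, hu, ((tendsto_rpow_atTop hε).comp
      tendsto_natCast_atTop_atTop).eventually_ge_atTop b, eventually_gt_atTop 0] with n a1 a2 a3 a4
    rcases min_choice (p n) (u n) with h | h <;> simp only [h]
    · exact a1
    · rw [a2, ← Real.rpow_add (by exact_mod_cast a4), ← e]
      simpa using a3

end Pool.Agent.Lib.MP_46505f_co
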