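import Pool.Agent.Lib.MP_46505f_co.Extra
import Pool.Agent.Lib.MP_46505f_co.Slack

set_option autoImplicit false
set_option linter.unusedSectionVars false
open Finset Filter Topology

namespace Pool.Agent.Lib.MP_46505f_co

/- The classification when p is not bounded away from zero. -/

variable {W : Type} [Fintype W] [DecidableEq W] {H : SimpleGraph W} {p : ℕ → unitInterval}
  {l : Filter ℕ} {m m' : ℝ}

lemma chi_spec (hH : ¬ H.IsAcyclic) : 2 ≤ H.chromaticNumber.toNat ∧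
    H.Colorable H.chromaticNumber.toNat ∧ ¬ H.Colorable (H.chromaticNumber.toNat - 1) := by
  have h1 := H.colorable_chromaticNumber_of_fintype
  have h2 : 2 ≤ H.chromaticNumber.toNat := by
    by_contra h
    obtain ⟨c⟩ := h1.mono (by omega : _ ≤ 1)
    obtain ⟨S, ⟨v, hv⟩, h3⟩ := core_of_cycle hH
    obtain ⟨u, hu⟩ := Finset.card_pos.1 (lt_of_lt_of_le two_pos (h3 v hv))
    exact c.valid (mem_nb.1 hu).2 (Subsingleton.elim _ _)
  refine ⟨h2, h1, fun h => ?_⟩
  have := ENat.toNat_le_of_le_natCast h.chromaticNumber_le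
  omega

lemma exists_filter {P : ℝ → ℕ → Prop} (hm : ∀ c c' n, c ≤ c' → P c n → P c' n)
    (h : ∀ c > 0, ∃ᶠ n in atTop, P c n) :
    ∃ l : Filter ℕ, l.NeBot ∧ l ≤ atTop ∧ ∀ c > 0, ∀ᶠ n in l, P c n := by
  obtain ⟨φ, h1, h2⟩ := extraction_forall_of_frequently (P := fun j n => P (1 / ((j : ℝ) + 1)) n)
    fun j => h _ (by positivity)
  refine ⟨map φ atTop, inferInstance, h1.tendsto_atTop, fun c hc => eventually_map.2 ?_⟩
  filter_upwards [tendsto_one_div_add_atTop_nhds_zero_nat.eventually_le_const hc] with j hj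
  exact hm _ _ _ hj (h2 j)

lemma tend_zero {f : ℕ → ℝ} (h0 : ∀ n, 0 ≤ f n) (h : ∀ c > 0, ∀ᶠ n in l, f n ≤ c) :
    Tendsto f l (𝓝 0) := tendsto_order.2 ⟨fun _ hc => .of_forall fun n => hc.trans_le (h0 n),
  fun _ hc => (h _ (half_pos hc)).mono fun _ h => h.trans_lt (half_lt_self hc)⟩

lemma Dips.filter (h : Dips p m) : ∃ l : Filter ℕ, l.NeBot ∧ l ≤ atTop ∧ BelowL l p m :=
  let ⟨l, h1, h2, h3⟩ := exists_filter (fun _ _ _ a b => b.trans a) h
  ⟨l, h1, h2, tend_zero (fun n => mul_nonneg (p n).2.1 (by positivity)) h3⟩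

lemma near_filter (h : ¬ PolyAbove p m) : ∃ l : Filter ℕ, l.NeBot ∧ l ≤ atTop ∧ Near l p m :=
  let ⟨l, h1, h2, h3⟩ := exists_filter (P := fun c n => 1 ≤ n ∧ (p n : ℝ) ≤ (n : ℝ) ^ (c - 1 / m))
    (fun _ _ _ a b => ⟨b.1, b.2.trans (Real.rpow_le_rpow_of_exponent_le (by exact_mod_cast b.1)
      (by linarith))⟩) fun c hc => (eventually_ge_atTop 1).and_frequently
      ((not_eventually.1 fun e => h ⟨c, hc, e⟩).mono fun _ e => (not_le.1 e).le)
  ⟨l, h1, h2, fun c hc => (h3 c hc).mono fun _ h => h.2⟩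

lemma Near.below (hl : l ≤ atTop) (h : Near l p m) {x : ℝ} (hx : x < 1 / m) :
    Tendsto (fun n : ℕ => (p n : ℝ) * (n : ℝ) ^ x) l (𝓝 0) := by
  have hε : 0 < (1 / m - x) / 2 := by linarith
  refine squeeze_zero' (.of_forall fun n => mul_nonneg (p n).2.1 (by positivity)) ?_
    (((tendsto_rpow_neg_atTop hε).comp tendsto_natCast_atTop_atTop).mono_left hl)
  filter_upwards [h _ hε, hl (eventually_gt_atTop 0)] with n a1 a2
  refine (mul_le_mul_of_nonneg_right a1 (by positivity)).trans_eq ?_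
  rw [← Real.rpow_add (by exact_mod_cast a2)]
  congr 1; ring

lemma pow_anti (hm : 0 < m) (h : m ≤ m') : ∀ᶠ n : ℕ in atTop,
    (p n : ℝ) * (n : ℝ) ^ (1 / m') ≤ p n * (n : ℝ) ^ (1 / m) :=
  (eventually_ge_atTop 1).mono fun n hn => mul_le_mul_of_nonneg_left
    (Real.rpow_le_rpow_of_exponent_le (by exact_mod_cast hn) (one_div_le_one_div_of_le hm h))
    (p n).2.1

lemma PolyAbove.above (h : PolyAbove p m) : Above p m := by
  obtain ⟨ε, hε, h⟩ := h
  refine tendsto_atTop_mono' _ ?_ ((tendsto_rpow_atTop hε).comp tendsto_natCast_atTop_atTop)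
  filter_upwards [h, eventually_gt_atTop 0] with n a1 a2
  rwa [Real.rpow_sub (by exact_mod_cast a2), div_le_iff₀ (by positivity)] at a1

lemma good_filter (hH : ¬ H.IsAcyclic) (h0 : ¬ ∃ a > 0, ∀ᶠ n : ℕ in atTop, a ≤ (p n : ℝ))
    (Q : Finset W → Prop) (hQ : ∀ I, Q I → IsCloud H I) (h1 : ¬ ∃ I, Q I ∧ On H p I)
    (h2 : ∀ I, Q I → ¬ Soft H I → Dips p (mI H I)) : ∃ l : Filter ℕ, l.NeBot ∧ l ≤ atTop ∧
      Tendsto (fun n => (p n : ℝ)) l (𝓝 0) ∧
      ∀ I, Q I → BelowL l p (mI H I) ∨ Soft H I ∧ Near l p (mI H I) := by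
  classical
  by_cases e : ∃ I, Q I
  swap
  · obtain ⟨l, a1, a2, a3⟩ := exists_filter (P := fun c n => (p n : ℝ) ≤ c)
      (fun _ _ _ a b => b.trans a) fun c hc =>
      (not_eventually.1 fun e => h0 ⟨c, hc, e⟩).mono fun _ e => (not_le.1 e).le
    exact ⟨l, a1, a2, tend_zero (fun n => (p n).2.1) a3, fun I h => absurd ⟨I, h⟩ e⟩
  obtain ⟨J, b1, b2⟩ := Finset.exists_min_image (univ.filter Q) (mI H) (Finset.filter_nonempty_iff.2 (by simpa using e))
  simp only [Finset.mem_filter, mem_univ, true_and] at b1 b2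
  have b3 : 0 < mI H J := by linarith [one_lt_m2 hH, m2_le_mI hH (hQ J b1)]
  by_cases c : ∃ I, Q I ∧ ¬ Soft H I ∧ mI H I = mI H J
  · obtain ⟨I, c1, c2, c3⟩ := c
    obtain ⟨l, a1, a2, a3⟩ := (c3 ▸ h2 I c1 c2).filter
    exact ⟨l, a1, a2, by simpa using (a3.near a2).below a2 (one_div_pos.2 b3), fun I h => .inl
      (squeeze_zero' (.of_forall fun n => mul_nonneg (p n).2.1 (by positivity))
      (a2 (pow_anti b3 (b2 I h))) a3)⟩
  · push Not at c
    obtain ⟨l, a1, a2, a3⟩ := near_filter fun h => h1 ⟨J, b1, h.above, fun _ => h⟩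
    exact ⟨l, a1, a2, by simpa using a3.below a2 (one_div_pos.2 b3), fun I h =>
      (b2 I h).lt_or_eq.imp (fun e => a3.below a2 (one_div_lt_one_div_of_lt b3 e))
      fun e : mI H J = mI H I => ⟨by_contra fun f => c I h f e.symm, e ▸ a3⟩⟩

lemma glb_of {span : Prop} {v : ℝ} (h1 : ∀ d < v, ¬ Adm H p span d)
    (h2 : ∀ d > v, Adm H p span d) : IsGLB {d | Adm H p span d} v :=
  ⟨fun d hd => not_lt.1 fun h => h1 d h hd, fun _ hb => le_of_forall_gt_imp_ge_of_dense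
    fun d h => hb (h2 d h)⟩

open Classical in
theorem sparse (hH : ¬ H.IsAcyclic) {span : Prop}
    (h0 : ¬ ∃ a > 0, ∀ᶠ n : ℕ in atTop, a ≤ (p n : ℝ))
    (h1 : Tendsto (fun n : ℕ => (p n : ℝ) * n / if span then Real.log n else 1) atTop atTop)
    (w0 : Above p (m2 H) ∨ Dips p (m2 H))
    (w1 : (∃ I, IsCloud H I ∧ On H p I) ∨ ∀ I, IsCloud H I → ¬ Soft H I → Dips p (mI H I))
    (w2 : (∃ I, IsThunder H I ∧ On H p I) ∨ ∀ I, IsThunder H I → ¬ Soft H I → Dips p (mI H I)) :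
    IsGLB {d | Adm H p span d} (val H p) := by
  obtain ⟨c1, ⟨c2⟩, c3⟩ := chi_spec hH
  have hm := one_lt_m2 hH
  have hA : ∀ I, IsCloud H I → On H p I → Above p (m2 H) := fun I a b =>
    tendsto_atTop_mono' _ (pow_anti (by linarith) (m2_le_mI hH a)) b.1
  obtain ⟨l, _, l1, l2, -⟩ := good_filter hH h0 (fun _ => False) (by simp) (by simp) (by simp)
  rw [val, if_neg h0]
  split_ifs with a1 a2 a3
  · obtain ⟨I, a1, a2⟩ := a1
    exact glb_of (fun d hd => low_zero l1 hH l2 ((hA I a1.1 a2).lg hm) hd.le)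
      fun d hd => adm_on hH a1.1 a2 (.inl ⟨a1, hd⟩)
  · obtain ⟨I, a2, a3⟩ := a2
    obtain ⟨l, _, l1, l2, l3⟩ := good_filter hH h0 _ (fun _ h => h.1) a1 (w2.resolve_left a1)
    exact glb_of (fun d hd h => low_third l1 hH l2 (hA I a2 a3) l3 (le_max_right d 0)
      (max_lt hd (by norm_num)) (h.mono (le_max_left _ _))) fun d hd => adm_on hH a2 a3 (.inr hd)
  · refine glb_of (fun d h hd => ?_) fun d h => adm_pi hH (a3.lg hm) a3 c1 c2 (fun a b => c2.valid) h
    rcases le_or_gt d 0 with d0 | d0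
    · exact low_zero l1 hH l2 (a3.lg hm) d0 hd
    obtain ⟨s, hs⟩ : ∃ s, H.chromaticNumber.toNat = s + 1 :=
      ⟨_, (Nat.sub_add_cancel (by omega)).symm⟩
    rw [hs] at h c1 c3
    push_cast at h
    rcases (by omega : s = 1 ∨ s = 2 ∨ 3 ≤ s) with rfl | rfl | e
    · norm_num at h; linarith
    · obtain ⟨l, _, l1, l2, l3⟩ := good_filter hH h0 _ (fun _ h => h) a2 (w1.resolve_left a2)
      exact low_half l1 hH l2 a3 l3 d0.le (by norm_num at h; linarith) hd
    · have : (3 : ℝ) ≤ s := by exact_mod_cast e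
      refine low_multi l1 l2 (a3.lg hm) e c3 d0.le (h.trans_eq ?_) hd
      rw [add_sub_cancel_right]; field_simp; ring
  · obtain ⟨l, _, l1, l2⟩ := (w0.resolve_left a3).filter
    refine glb_of (fun d h => ?_) fun d => adm_one'
    by_cases e : span
    · exact low_one l1 hH (lg_of (by simpa [e] using h1)) l2 h
    · exact low_one' l1 hH (Tendsto.mono_left (by simpa [e] using h1) l1) l2 e h

end Pool.Agent.Lib.MP_46505f_co
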