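import Pool.Agent.Lib.MP_46505f_co.Dense3
import Pool.Agent.Lib.MP_46505f_co.Sparse

set_option autoImplicit false
set_option linter.unusedSectionVars false
open Finset Filter Topology

namespace Pool.Agent.Lib.MP_46505f_co
open MP_eaf82e_pr

/- The lower bounds in the dense case. -/

variable {W : Type} [Fintype W] [DecidableEq W] {H : SimpleGraph W} {p : ℕ → unitInterval}
  {span : Prop} {d a : ℝ} {g k : ℕ} {l : Filter ℕ}

lemma Pr_anti {ι : Type*} [Fintype ι] [DecidableEq ι] {x y : ℝ} (h0 : 0 ≤ x) (h : x ≤ y)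
    (h1 : y ≤ 1) (R : Finset ι → Prop) : Pr (fun _ => y) (fun ω => ¬ ∃ E ⊆ rs ω, R E) ≤
      Pr (fun _ => x) fun ω => ¬ ∃ E ⊆ rs ω, R E := by
  rw [Pr_not, Pr_not]
  have := holley (μ := fun ω : ι → Bool => one (∃ E ⊆ rs ω, R E)) (f := wt fun _ => x)
    (g := wt fun _ => y) (fun _ => one_nonneg _) (wt_nonneg (isP_const h0 (h.trans h1)))
    (wt_nonneg (isP_const (h0.trans h) h1)) (fun ω ω' e => one_mono fun ⟨E, a, b⟩ =>
      ⟨E, a.trans fun i hi => mem_rs.2 (Bool.le_iff_imp.1 (e i) (mem_rs.1 hi)), b⟩)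
    (by rw [sum_wt, sum_wt]) fun ω ω' => by
      simp only [wt, ← Finset.prod_mul_distrib]
      refine Finset.prod_le_prod (fun i _ => ?_) fun i _ => ?_
      · split_ifs <;> exact mul_nonneg (by linarith) (by linarith)
      · cases e : ω i <;> cases e' : ω' i <;> simp [e, e']
        nlinarith
  simp only [Pr, Ex, mul_comm (wt _ _)]
  linarith

lemma poly_of (ha : 0 < a) (hp : ∀ᶠ n : ℕ in atTop, a ≤ (p n : ℝ)) {m : ℝ} (hm : 0 < m) :
    PolyAbove p m := ⟨1 / (2 * m), by positivity, by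
  have e : 1 / (2 * m) - 1 / m = -(1 / (2 * m)) := by field_simp; ring
  filter_upwards [hp, ((tendsto_rpow_neg_atTop (by positivity : 0 < 1 / (2 * m))).comp
    tendsto_natCast_atTop_atTop).eventually_le_const ha] with n h1 h2
  exact e ▸ h2.trans h1⟩

lemma ex_u : ∃ u : ℕ → unitInterval, Lg u ∧ Tendsto (fun n => (u n : ℝ)) atTop (𝓝 0) ∧
    ∀ᶠ n : ℕ in atTop, (u n : ℝ) * n = Real.log n ^ 2 := by
  have h0 : Tendsto (fun n : ℕ => Real.log n ^ 2 / n) atTop (𝓝 0) :=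
    (Real.isLittleO_pow_log_id_atTop (n := 2)).tendsto_div_nhds_zero.comp
      tendsto_natCast_atTop_atTop
  let u : ℕ → unitInterval := fun n => Set.projIcc 0 1 zero_le_one (Real.log n ^ 2 / n)
  have hu : ∀ᶠ n : ℕ in atTop, (u n : ℝ) = Real.log n ^ 2 / n :=
    (h0.eventually_le_const one_pos).mono fun n h =>
      congrArg _ (Set.projIcc_of_mem _ ⟨by positivity, h⟩)
  have h1 : ∀ᶠ n : ℕ in atTop, (u n : ℝ) * n = Real.log n ^ 2 := by
    filter_upwards [hu, eventually_gt_atTop 0] with n a b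
    rw [a, div_mul_cancel₀ _ (by positivity)]
  refine ⟨u, fun K => ?_, h0.congr' (hu.mono fun _ h => h.symm), h1⟩
  filter_upwards [h1, (Real.tendsto_log_atTop.comp tendsto_natCast_atTop_atTop).eventually_ge_atTop K]
    with n a b
  rw [a, sq]
  exact mul_le_mul_of_nonneg_right b (Real.log_natCast_nonneg n)

lemma ko_dense (hl : l ≤ atTop) (hp : ∀ᶠ n : ℕ in l, Real.log n ^ 2 ≤ p n * n)
    {G0 : SimpleGraph (Fin g)} {C : ℕ} (hG : ¬ G0.Colorable C) (h : ℕ) {η : ℝ} (hη : 0 < η)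
    (hη1 : η ≤ 1) {c : ℝ} (hc : 0 < c) :
    ∃ Δ : ℕ, ∀ᶠ n : ℕ in l, n * Real.exp (-(c * (p n * n))) ≤ 1 / 10 ∧
      ∃ W0 : Finset (Fin n), W0.card ≤ η * n ∧
      Pr (fun _ => (p n : ℝ)) (fun ω => ¬ ∃ E ⊆ rs ω, E ⊆ btw W0 W0 ∧ ∃ X lab, X ⊆ W0 ∧
        KO G0 h Δ C E X lab) ≤ 1 / 2 := by
  obtain ⟨u, hL, h0, hu⟩ := ex_u
  obtain ⟨Δ, hΔ⟩ := ko le_rfl (ζ := fun _ => 1) (by simp) (by simpa using h0) hL hG
    (fun c hc => by simpa using hL.tend hc) h hη hη1
  refine ⟨Δ, ?_⟩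
  filter_upwards [hp, hl (hΔ.and (hu.and ((hL.small hc).and (eventually_gt_atTop 0))))]
    with n a3 ⟨⟨W0, a1, a2⟩, a4, a5, a6⟩
  rw [← a4] at a3
  refine ⟨le_trans (by gcongr) a5, W0, a1, (Pr_anti (u n).2.1 (le_of_mul_le_mul_right a3
    (by positivity)) (p n).2.2 _).trans
    ((Pr_mono (isP_p u n) fun ω h ⟨E, b1, b2, X, lab, b3, _, b4⟩ => ?_).trans a2)⟩
  exact h ⟨E, b1, b2, X, lab, b3, b4⟩

lemma near_of {c : W → ℕ} (hA : (outside H (univ.filter fun v => c v ≠ 0)).IsAcyclic)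
    (h : ∀ z, c z = 1 → ∀ l l', H.Adj l z → H.Adj l' z →
      ∀ w : (outside H (univ.filter fun v => c v ≠ 0)).Walk l l', w.length ≤ Fintype.card W →
      ¬ Odd w.length) : NearAc H c := by
  refine fun v w hc ho h1 => not_lt.1 fun h2 => ?_
  by_cases e : ∀ x ∈ w.support, x ∉ univ.filter fun v => c v ≠ 0
  · exact hA _ (hc.transfer (transfer_out w e))
  push Not at e
  obtain ⟨z, h3, h4⟩ := e
  have h6 : ∀ x ∈ w.support, x ∈ (univ.filter fun v => c v ≠ 0) →
      x ∈ w.support.toFinset.filter fun x => c x = 1 := fun x hx hx' => Finset.mem_filter.2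
    ⟨List.mem_toFinset.2 hx, by have := h1 x hx; have := (Finset.mem_filter.1 hx').2; omega⟩
  have h5 : ∀ x ∈ (w.rotate z h3).support, x ∈ (univ.filter fun v => c v ≠ 0) → x = z :=
    fun x hx hx' => Finset.card_le_one.1 (Nat.lt_succ_iff.1 h2) x
      (h6 x ((w.mem_support_rotate_iff z h3).1 hx) hx') z (h6 z h3 h4)
  replace h6 := (Finset.mem_filter.1 (h6 z h3 h4)).2
  rw [← w.length_rotate z h3] at ho
  have hc' := hc.rotate h3
  generalize w.rotate z h3 = c' at h5 ho hc'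
  cases c' with
  | nil => exact hc'.ne_nil rfl
  | cons a w =>
    have hp := ((SimpleGraph.Walk.cons_isCycle_iff _ _).1 hc').1.reverse
    rw [SimpleGraph.Walk.length_cons, ← w.length_reverse] at ho
    replace h5 : ∀ x ∈ w.reverse.support, x ∈ (univ.filter fun v => c v ≠ 0) → x = z :=
      fun x hx => h5 x (by rw [SimpleGraph.Walk.support_reverse, List.mem_reverse] at hx; simp [hx])
    generalize w.reverse = w' at h5 ho hp
    cases w' with
    | nil => exact a.ne rfl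
    | cons a' w'' =>
      rw [SimpleGraph.Walk.cons_isPath_iff] at hp
      refine h z h6 _ _ a'.symm a.symm (w''.transfer _ (transfer_out w'' fun x hx hx' =>
        hp.2 (h5 x (by simp [hx]) hx' ▸ hx))) ?_ ?_
      all_goals rw [SimpleGraph.Walk.length_transfer]
      · exact hp.1.length_lt.le
      · rw [SimpleGraph.Walk.length_cons, Nat.odd_iff] at ho
        rw [Nat.odd_iff]; omega

theorem low_dense [l.NeBot] (hl : l ≤ atTop) (hp : ∀ᶠ n : ℕ in l, Real.log n ^ 2 ≤ p n * n)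
    {β : ℝ} (Th : Prop)
    (hS : ¬ ∃ c, Split H k c ∧ (Th → NearAc H c)) (hd : d < 1 - β)
    (hT : ∀ C, ∃ (g : ℕ) (G0 : SimpleGraph (Fin g)) (T : Type) (_ : Fintype T) (_ : DecidableEq T)
      (_ : Nonempty T) (pt : T → ℕ) (A : Fin g → Finset T), ¬ G0.Colorable C ∧ (∀ t, pt t ≤ k) ∧
      (∀ j, (univ.filter fun t => pt t = j).card ≤ β * Fintype.card T) ∧
      (∀ u, (univ \ A u).card ≤ β * Fintype.card T ∧ ∀ t ∈ A u, pt t ≠ 0) ∧
      (Th → ∀ u u' (w : G0.Walk u u'), Odd w.length → w.length ≤ Fintype.card W →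
        ∀ t ∈ A u, t ∈ A u' → pt t ≠ 1)) : ¬ Adm H p span d := by
  classical
  refine not_adm_of hl fun C => ?_
  obtain ⟨g, G0, T, _, _, _, pt, A, hG, t1, t2, t3, t4⟩ := hT C
  have s0 : 0 < Fintype.card T := Fintype.card_pos
  have s1 : (0 : ℝ) < Fintype.card T := by positivity
  have β0 : 0 ≤ β := le_of_mul_le_mul_right (by simpa using le_trans (by positivity) (t2 0)) s1
  obtain ⟨y, y0, y1, y2⟩ : ∃ y > (0 : ℝ), y ≤ 1 ∧ d + 4 * y ≤ 1 - β :=
    ⟨min 1 ((1 - β - d) / 4), lt_min one_pos (by linarith), min_le_left _ _,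
      by linarith [min_le_right 1 ((1 - β - d) / 4)]⟩
  obtain ⟨x, x0, x1, x2⟩ : ∃ x > (0 : ℝ), (1 - y) * x ≤ x ∧
      (0 < d → d ≤ (1 - y) * x ∧ x + 2 * y ≤ 1 - β) := by
    rcases le_or_gt d 0 with e | e
    · exact ⟨1, one_pos, by linarith, fun h => absurd e (not_le.2 h)⟩
    · exact ⟨d + 2 * y, by positivity, by nlinarith, fun _ => ⟨by nlinarith, by linarith⟩⟩
  obtain ⟨Δ, hΔ⟩ := ko_dense hl hp hG (Fintype.card W) y0 y1 (by positivity : 0 < y ^ 2 * x / 4)
  filter_upwards [hΔ, hl (tendsto_natCast_atTop_atTop.eventually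
    (ev_large (β * Fintype.card T) y0))] with n ⟨a3, W0, a1, a2⟩ a4
  replace a4 : β * Fintype.card T ≤ y * n := a4
  have hP := isP_p p n
  have n0 : (0 : ℝ) ≤ n := by positivity
  refine (sprinkle hP _ _ _ (η2 := 1 / 10) (by norm_num) a2 ?_).trans (by norm_num)
  rintro E - ⟨X, lab, b1, b2⟩
  let ce : Fin n → T := fun v => (Fintype.equivFin T).symm ⟨v % _, Nat.mod_lt _ s0⟩
  let Γ : SimpleGraph (Fin n) := ⟨fun u v => ¬ (u ∈ W0 ∧ v ∈ W0) ∧ (u ∈ X → ce v ∈ A (lab u)) ∧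
    (v ∈ X → ce u ∈ A (lab v)) ∧ (u ∉ X → v ∉ X → pt (ce u) ≠ pt (ce v)),
    ⟨fun _ _ h => ⟨fun e => h.1 e.symm, h.2.2.1, h.2.1, fun a b => (h.2.2.2 b a).symm⟩⟩,
    ⟨fun u h => h.2.2.2 (fun e => h.1 ⟨b1 e, b1 e⟩) (fun e => h.1 ⟨b1 e, b1 e⟩) rfl⟩⟩
  have c1 : ∀ v, ∀ B : Finset T, B.card ≤ β * Fintype.card T →
      (∀ u ∉ W0, ce u ∉ B → Γ.Adj v u) → (1 - β - 2 * y) * n ≤ dg Γ v univ := fun v B h1 h2 => by
    have d1 : (univ : Finset (Fin n)) ⊆ nb Γ v univ ∪ (W0 ∪ B.biUnion fun t => univ.filter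
        fun u : Fin n => (u : ℕ) % Fintype.card T = Fintype.equivFin T t) := fun u _ => by
      by_cases e : u ∈ W0
      · simp [e]
      by_cases e' : ce u ∈ B
      · exact Finset.mem_union_right _ (Finset.mem_union_right _ (Finset.mem_biUnion.2
          ⟨_, e', by simp [ce]⟩))
      exact Finset.mem_union_left _ (mem_nb.2 ⟨mem_univ _, h2 u e e'⟩)
    have d2 := (Nat.cast_le (α := ℝ)).2 ((Finset.card_le_card d1).trans
      ((Finset.card_union_le _ _).trans (Nat.add_le_add_left ((Finset.card_union_le _ _).trans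
        (Nat.add_le_add_left Finset.card_biUnion_le _)) _)))
    rw [Finset.card_univ, Fintype.card_fin] at d2
    push_cast at d2
    have d3 := Finset.sum_le_card_nsmul B _ _ fun t _ =>
      card_mod_class (n := n) s0 (Fintype.equivFin T t)
    have d4 := mul_le_mul_of_nonneg_right h1 (by positivity : 0 ≤ (n : ℝ) / Fintype.card T + 1)
    rw [nsmul_eq_mul] at d3
    rw [mul_add (β * _), mul_assoc, mul_div_cancel₀ _ s1.ne'] at d4
    unfold dg
    linarith
  have c2 : ∀ v, (1 - β - 2 * y) * n ≤ dg Γ v univ := fun v => by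
    by_cases e : v ∈ X
    · exact c1 v _ (t3 (lab v)).1 fun u h1 h2 => ⟨fun h => h1 h.2, fun _ => by simpa using h2,
        fun h => (h1 (b1 h)).elim, fun h => (h e).elim⟩
    · exact c1 v _ (t2 (pt (ce v))) fun u h1 h2 => ⟨fun h => h1 h.2, fun h => (e h).elim,
        fun h => (h1 (b1 h)).elim, fun _ _ h => h2 (by simp [h])⟩
  have f1 := Pr_min (p n).2.1 (p n).2.2 Γ (univ.filter fun _ => 0 < d) (M := x * n) (by positivity)
    (fun v hv => le_trans (mul_le_mul_of_nonneg_right (by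
      linarith [(x2 (Finset.mem_filter.1 hv).2).2]) n0) (c2 v)) y0.le y1
  rw [Fintype.card_fin] at f1
  refine (Pr_mono hP fun ω hω => ?_).trans (f1.trans (le_trans (le_of_eq (by congr 3; ring)) a3))
  by_contra hcon
  refine hω ⟨rs ω ∩ eF Γ, Finset.inter_subset_left, Finset.disjoint_left.2 fun e he h => ?_,
    Finset.eq_empty_of_forall_notMem fun τ hτ => hS ?_, fun v => ?_, fun h => b2.ncol
      (h.mono (gr_mono Finset.subset_union_left) (subset_univ _) le_rfl)⟩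
  · obtain ⟨u, hu, v, hv, rfl⟩ := mem_btw.1 h
    exact (show Γ.Adj u v from mem_eF.1 (Finset.mem_inter.1 he).2).1 ⟨hu, hv⟩
  · simp only [embs, Finset.mem_filter, mem_homs] at hτ
    obtain ⟨c, hc⟩ : ∃ c : W → ℕ, ∀ a, c a = if τ a ∈ X then 0 else pt (ce (τ a)) := ⟨_, fun _ => rfl⟩
    have g1 : ∀ a b, H.Adj a b → (gr E).Adj (τ a) (τ b) ∨ Γ.Adj (τ a) (τ b) := fun a b h =>
      (Finset.mem_union.1 (gr_adj.1 (hτ.1.2 a b h)).1).imp (fun e => gr_adj.2
        ⟨e, (hτ.1.2 a b h).ne⟩) fun e => mem_eF.1 (Finset.mem_inter.1 e).2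
    have g2 : ∀ a b, (outside H (univ.filter fun v => c v ≠ 0)).Adj a b → (gr E).Adj (τ a) (τ b) :=
      fun a b h => (g1 a b h.1).resolve_right fun e => by
        have := h.2
        simp only [Finset.mem_filter, mem_univ, true_and, not_not, hc] at this
        split_ifs at this with f1 f2 f2
        exacts [e.1 ⟨b1 f1, b1 f2⟩, (t3 _).2 _ (e.2.1 f1) this.2, (t3 _).2 _ (e.2.2.1 f2) this.1,
          e.2.2.2 f1 f2 (this.1.trans this.2.symm)]
    have g3 : (outside H (univ.filter fun v => c v ≠ 0)).IsAcyclic := by_contra fun h => by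
      obtain ⟨S, h1, h2⟩ := core_of_cycle h
      exact no_cycle b2.core hτ.2 h1 h2 fun a _ b _ => g2 a b
    refine ⟨c, ⟨fun v => ?_, fun u v h e => ?_, g3⟩, fun h => near_of g3
      fun z hz l l' h1 h2 w h3 h4 => ?_⟩
    · rw [hc]; split_ifs; exacts [Nat.zero_le _, t1 _]
    · rw [hc, hc] at e
      rw [hc]
      split_ifs at e ⊢ with f1 f2 f2
      exacts [rfl, rfl, e, (g1 u v h).elim (fun h => (f1 (b2.sub _ _ h).1).elim)
        fun h => (h.2.2.2 f1 f2 e).elim]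
    · have h5 : ¬ w.Nil := fun e => by simp [SimpleGraph.Walk.length_eq_zero_iff.2 e] at h4
      rw [hc] at hz
      split_ifs at hz with f
      have h6 : ∀ l, H.Adj l z → τ l ∈ X → ce (τ z) ∈ A (lab (τ l)) := fun l e =>
        ((g1 l z e).resolve_left fun e => f (b2.sub _ _ e.symm).1).2.1
      exact t4 h _ _ (w.map ⟨fun a => lab (τ a), fun e => (b2.sub _ _ (g2 _ _ e)).2⟩)
        (by simpa using h4) (by simpa using h3) _ (h6 l h1 (b2.sub _ _ (g2 _ _ (w.adj_snd h5))).1)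
        (h6 l' h2 (b2.sub _ _ (g2 _ _ (w.adj_penultimate h5).symm)).1) hz
  · rcases le_or_gt d 0 with e | e
    · exact (mul_nonpos_of_nonpos_of_nonneg e (pn_nonneg p n)).trans (by positivity)
    have h1 := not_le.1 fun h => hcon ⟨v, Finset.mem_filter.2 ⟨mem_univ _, e⟩, h⟩
    have h2 := (Nat.cast_le (α := ℝ)).2 (dg_mono (gr_mono (Finset.subset_union_right
      (s₁ := E) (s₂ := rs ω ∩ eF Γ))) v (Subset.rfl (s := univ)))
    linarith [mul_le_mul_of_nonneg_right (x2 e).1 (pn_nonneg p n)]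

theorem low_eq [l.NeBot] (hl : l ≤ atTop) (hp : ∀ᶠ n : ℕ in l, Real.log n ^ 2 ≤ p n * n)
    (hS : ¬ ∃ c, Split H k c)
    (hd : d < k / (k + 1)) : ¬ Adm H p span d :=
  low_dense hl hp (β := 1 / (k + 1)) False (fun ⟨c, h, _⟩ => hS ⟨c, h⟩)
    (hd.trans_eq (by field_simp; ring)) fun C => by
    have e : 1 / (k + 1 : ℝ) * Fintype.card (Fin (k + 1)) = (1 : ℕ) := by simp; field_simp
    refine ⟨_, ⊤, Fin (k + 1), inferInstance, inferInstance, inferInstance, Fin.val,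
      fun _ => univ \ {0}, top_not_col C, fun t => Nat.lt_succ_iff.1 t.2, fun j => ?_,
      fun _ => ⟨by rw [e]; simp, by simp⟩, False.elim⟩
    rw [e, Nat.cast_le]
    exact Finset.card_le_one.2 fun a h b h' =>
      Fin.ext ((Finset.mem_filter.1 h).2.trans (Finset.mem_filter.1 h').2.symm)

theorem low_lam [l.NeBot] (hl : l ≤ atTop) (hp : ∀ᶠ n : ℕ in l, Real.log n ^ 2 ≤ p n * n)
    (hS : ¬ ∃ c, Split H (k + 1) c ∧ NearAc H c) (hd : d < (2 * k + 1) / (2 * k + 3)) :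
    ¬ Adm H p span d := by
  have k0 : (0 : ℝ) < 2 * k + 3 := by positivity
  obtain ⟨ζ, hζ⟩ : ∃ x : ℝ, x = (2 * k + 1 - d * (2 * k + 3)) / 4 := ⟨_, rfl⟩
  have ζ0 : 0 < ζ := by linarith [(lt_div_iff₀ k0).1 hd]
  refine low_dense hl hp (β := (2 + 2 * ζ) / (2 * k + 3)) True (fun ⟨c, h, h'⟩ => hS ⟨c, h, h' trivial⟩)
    (by rw [lt_sub_comm, div_lt_iff₀ k0]; linarith) fun C => ?_
  obtain ⟨g, G0, Ω, _, _, _, U, h1, h2, h3⟩ := shift (Fintype.card W) C ζ0
  have e : (2 + 2 * ζ) / (2 * k + 3) * Fintype.card (Ω × Fin (2 * k + 3)) =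
      (2 + 2 * ζ) * Fintype.card Ω := by simp; field_simp
  have e0 : (0 : ℝ) ≤ Fintype.card Ω := by positivity
  have e2 : ∀ j, (univ.filter fun t : Fin (2 * k + 3) => ((t : ℕ) + 1) / 2 = j).card ≤ 2 := fun j =>
    (Finset.card_le_card_of_injOn (t := range 2) (fun t : Fin (2 * k + 3) => (t : ℕ) % 2)
      (fun t _ => by simp; omega) fun a h b h' e => Fin.ext (by
        have := (Finset.mem_filter.1 h).2.trans (Finset.mem_filter.1 h').2.symm
        simp only at e; omega)).trans_eq (Finset.card_range 2)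
  refine ⟨g, G0, Ω × Fin (2 * k + 3), inferInstance, inferInstance, inferInstance,
    fun t => (t.2 + 1) / 2, fun u => univ \ (univ ×ˢ {0} ∪ (univ \ U u) ×ˢ
      univ.filter fun t => (t.val + 1) / 2 = 1), h1, fun t => by have := t.2.2; simp only; omega,
      fun j => ?_, fun u => ⟨?_, fun t h => ?_⟩, fun _ u u' w a b t c c' f => ?_⟩
  · have := (Nat.cast_le (α := ℝ)).2 (Nat.mul_le_mul_left (Fintype.card Ω) (e2 j))
    rw [e, show (univ.filter fun t : Ω × Fin (2 * k + 3) => ((t.2 : ℕ) + 1) / 2 = j) = univ ×ˢ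
      univ.filter fun t => (t.val + 1) / 2 = j by ext; simp, Finset.card_product, Finset.card_univ]
    push_cast at this ⊢
    nlinarith
  · rw [e, Finset.sdiff_sdiff_eq_self (subset_univ _)]
    refine (Nat.cast_le.2 ((Finset.card_union_le _ _).trans (add_le_add (Finset.card_product _ _).le
      ((Finset.card_product _ _).trans_le (Nat.mul_le_mul_left _ (e2 1)))))).trans ?_
    rw [Finset.card_univ_sdiff]
    push_cast [Finset.card_le_univ, Finset.card_singleton, Finset.card_univ]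
    linarith [h2 u]
  · simp only [Finset.mem_sdiff, Finset.mem_union, Finset.mem_product, mem_univ, true_and, not_or,
      Finset.mem_singleton, Fin.ext_iff, Fin.val_zero] at h ⊢
    omega
  · simp only [Finset.mem_sdiff, Finset.mem_union, Finset.mem_product, mem_univ, true_and, not_or,
      Finset.mem_filter, f, and_true, not_not] at c c'
    exact Finset.disjoint_left.1 (h3 u u' w a b) c.2 c'.2

theorem adm_dense (ha : 0 < a) (hp : ∀ᶠ n : ℕ in atTop, a ≤ (p n : ℝ)) [Nonempty W]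
    (hC : H.Colorable (k + 3)) {c : W → ℕ} (hS : Split H (k + 1) c)
    (hd : NearAc H c ∧ (k : ℝ) / (k + 1) < d ∨ (2 * k + 1 : ℝ) / (2 * k + 3) < d) :
    Adm H p span d := by
  obtain ⟨c0⟩ := hC
  obtain ⟨η, η0, η1, C, n0, h⟩ := up_dense (c0 := fun v => c0 v) (fun v => Nat.lt_succ_iff.1 (c0 v).2)
    (fun u v e f => c0.valid e (Fin.ext f)) hS ha (hp.exists.elim fun n h => h.trans (p n).2.2) hd
  refine adm_of (C := C) (squeeze_zero' (Eventually.of_forall fun n => Pr_nonneg (isP_p p n) _) ?_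
    (by simpa using tend_neg.add tend_neg))
  filter_upwards [hp, eventually_ge_atTop n0] with n a1 a2
  have e : Real.exp (2 * Fintype.card (Fin n) - η ^ 2 * (p n * (12 * Fintype.card (Fin n) /
      (η ^ 2 * a))) / 4) ≤ Real.exp (-n) := by
    have : η ^ 2 * (a * (12 * n / (η ^ 2 * a))) ≤ η ^ 2 * (p n * (12 * n / (η ^ 2 * a))) := by gcongr
    rw [show η ^ 2 * (a * (12 * n / (η ^ 2 * a))) = 12 * n by field_simp] at this
    rw [Fintype.card_fin, Real.exp_le_exp]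
    linarith
  refine le_trans (Pr_mono (isP_p p n) fun ω ⟨V', I, b1, b2, b3, b4⟩ => ?_)
    ((Pr_or_le (isP_p p n) _ _).trans (add_le_add
      ((Pr_UU (p n).2.1 (p n).2.2 η0.le η1 (by positivity)).trans e)
      ((Pr_LU (p n).2.1 (p n).2.2 η0.le η1).trans e)))
  exact not_and_or.1 fun f => b4 (h (Fin n) _ _ V' (p n) (by simpa using a2) a1 (p n).2.2 f.1 f.2
    (gr_mono b1) (by simpa using b3) b2)

lemma Split.col {c : W → ℕ} (h : Split H k c) : H.Colorable (k + 2) := by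
  obtain ⟨s, hs⟩ := acyc_side h.2.2
  refine (SimpleGraph.colorable_iff_exists_bdd_nat_coloring _).2 ⟨SimpleGraph.Coloring.mk
    (fun a => if c a = 0 ∧ s a then k + 1 else c a) fun {a b} e f => ?_, fun a => ?_⟩
  · have := h.1 a
    have := h.1 b
    have h1 := h.2.1 a b e
    have h2 : c a = 0 → c b = 0 → s a ≠ s b := fun x y => hs a b ⟨e, by simp [x], by simp [y]⟩
    split_ifs at f with f1 f2 f2
    · exact h2 f1.1 f2.1 (f1.2.trans f2.2.symm)
    · omega
    · omega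
    · exact h2 (h1 f) (f ▸ h1 f) (by simp_all)
  · have := h.1 a
    change (if c a = 0 ∧ s a then k + 1 else c a) < _
    split_ifs <;> omega

lemma Split.acyc {c : W → ℕ} (h : Split H 0 c) : H.IsAcyclic :=
  h.2.2.anti fun a b e => out_adj.2 ⟨e, by simpa using h.1 a, by simpa using h.1 b⟩

theorem dense_two (hH : ¬ H.IsAcyclic) :
    (∀ l : Filter ℕ, l.NeBot → l ≤ atTop → (∀ᶠ n : ℕ in l, Real.log n ^ 2 ≤ p n * n) →
      d < dense H H.chromaticNumber.toNat → ¬ Adm H p span d) ∧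
    (0 < a → (∀ᶠ n : ℕ in atTop, a ≤ (p n : ℝ)) → dense H H.chromaticNumber.toNat < d →
      Adm H p span d) := by
  obtain ⟨c1, c2, c3⟩ := chi_spec hH
  have hm := one_lt_m2 hH
  obtain ⟨S, ⟨w, -⟩, -⟩ := core_of_cycle hH
  have : Nonempty W := ⟨w⟩
  obtain ⟨k, hk⟩ : ∃ k, H.chromaticNumber.toNat = k + 2 := ⟨_, (Nat.sub_add_cancel c1).symm⟩
  rw [hk] at c1 c2 c3 ⊢
  rw [dense, Nat.add_sub_cancel]
  by_cases a2 : ∃ c, Split H k c
  · obtain _ | k := k
    · exact (hH a2.choose_spec.acyc).elim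
    rw [if_pos a2]
    split_ifs with a1
    · rw [show (((k + 1 + 2 : ℕ) : ℝ) - 3) / ((k + 1 + 2 : ℕ) - 2) = k / (k + 1) by
        push_cast; ring_nf]
      exact ⟨fun l _ hl hp => low_eq hl hp fun ⟨_, h⟩ => c3 h.col,
        fun ha hp hd => adm_dense ha hp c2 a1.choose_spec.1 (.inl ⟨a1.choose_spec.2, hd⟩)⟩
    · rw [show (2 * ((k + 1 + 2 : ℕ) : ℝ) - 5) / (2 * (k + 1 + 2 : ℕ) - 3) =
        (2 * k + 1) / (2 * k + 3) by push_cast; ring_nf]
      exact ⟨fun l _ hl hp => low_lam hl hp a1,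
        fun ha hp hd => adm_dense ha hp c2 a2.choose_spec (.inr hd)⟩
  · rw [if_neg fun ⟨c, h, _⟩ => a2 ⟨c, h⟩, if_neg a2]
    obtain ⟨c2⟩ := c2
    refine ⟨fun l _ hl hp hd => low_eq hl hp a2 (hd.trans_eq (by push_cast; ring_nf)),
      fun ha hp => ?_⟩
    have hA := (poly_of ha hp (by linarith : 0 < m2 H)).above
    exact adm_pi hH (hA.lg hm) hA c1 c2 fun a b => c2.valid

theorem dense_glb (hH : ¬ H.IsAcyclic) (ha : 0 < a) (hp : ∀ᶠ n : ℕ in atTop, a ≤ (p n : ℝ)) :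
    IsGLB {d | Adm H p span d} (dense H H.chromaticNumber.toNat) := by
  obtain ⟨u, -, h0, hu⟩ := ex_u
  refine glb_of (fun d => (dense_two (a := a) hH).1 _ inferInstance le_rfl ?_)
    fun d => (dense_two hH).2 ha hp
  filter_upwards [hp, hu, h0.eventually_le_const ha] with n a1 a2 a3
  exact a2 ▸ mul_le_mul_of_nonneg_right (a3.trans a1) n.cast_nonneg

end Pool.Agent.Lib.MP_46505f_co
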