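import Mathlib

set_option autoImplicit false
set_option linter.unusedSectionVars false
open Finset

namespace Pool.Agent.Lib.MP_46505f_co

/- Sums over function spaces: resampling and sequential bounds. -/

variable {A V : Type*} [Fintype A] [DecidableEq A] [Fintype V]

lemma resample1 (a : A) (g : (A → V) → ℝ) :
    (Fintype.card V : ℝ) * ∑ τ, g τ = ∑ τ, ∑ v, g (Function.update τ a v) := by
  have h1 : (Fintype.card V : ℝ) * ∑ τ, g τ = ∑ x : (A → V) × V, g x.1 := by
    rw [Fintype.sum_prod_type]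
    simp [Finset.mul_sum]
  have hinv : Function.Involutive
      (fun x : (A → V) × V => (Function.update x.1 a x.2, x.1 a)) := by
    rintro ⟨τ, v⟩; simp
  rw [h1, ← Equiv.sum_comp hinv.toPerm, Fintype.sum_prod_type]
  rfl

lemma resample (C : Finset A) (g : (A → V) → ℝ) :
    (Fintype.card (A → V) : ℝ) * ∑ τ, g τ = ∑ τ, ∑ χ, g (C.piecewise χ τ) := by
  have h1 : (Fintype.card (A → V) : ℝ) * ∑ τ, g τ = ∑ x : (A → V) × (A → V), g x.1 := by
    rw [Fintype.sum_prod_type]
    simp [Finset.mul_sum]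
  have hinv : Function.Involutive
      (fun x : (A → V) × (A → V) => (C.piecewise x.2 x.1, C.piecewise x.1 x.2)) := by
    rintro ⟨τ, χ⟩
    ext a <;> by_cases h : a ∈ C <;> simp [h]
  rw [h1, ← Equiv.sum_comp hinv.toPerm, Fintype.sum_prod_type]
  rfl

/-- f a depends only on coordinates of smaller rank -/
def Causal (rk : A → ℕ) (f : A → (A → V) → V → ℝ) : Prop :=
  ∀ a τ τ', (∀ b, rk b < rk a → τ b = τ' b) → f a τ = f a τ'

lemma causal_step {rk : A → ℕ} {f : A → (A → V) → V → ℝ} (hc : Causal rk f) {a : A}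
    {s : Finset A} (ha : a ∉ s) (hmax : ∀ x ∈ s, rk x ≤ rk a) :
    (Fintype.card V : ℝ) * ∑ τ : A → V, ∏ b ∈ insert a s, f b τ (τ b) =
      ∑ τ : A → V, (∏ b ∈ s, f b τ (τ b)) * ∑ v, f a τ v := by
  rw [resample1 a]
  refine Finset.sum_congr rfl fun τ _ => ?_
  rw [Finset.mul_sum]
  refine Finset.sum_congr rfl fun v _ => ?_
  rw [Finset.prod_insert ha, mul_comm]
  have h1 : ∀ b, rk b ≤ rk a → f b (Function.update τ a v) = f b τ := by
    intro b hb
    apply hc
    intro c hcb
    have : c ≠ a := by rintro rfl; omega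
    simp [this]
  congr 1
  · refine Finset.prod_congr rfl fun b hb => ?_
    have : b ≠ a := by rintro rfl; exact ha hb
    rw [h1 b (hmax b hb)]; simp [this]
  · rw [h1 a le_rfl]; simp

theorem seq_upper [Nonempty V] (rk : A → ℕ) (f : A → (A → V) → V → ℝ) (hc : Causal rk f)
    (h0 : ∀ a τ v, 0 ≤ f a τ v) (u : A → ℝ) (hu : ∀ a τ, ∑ v, f a τ v ≤ u a) :
    ∑ τ : A → V, ∏ a, f a τ (τ a) ≤ ∏ a, u a := by
  have hV : (0 : ℝ) < Fintype.card V := by exact_mod_cast Fintype.card_pos
  have hu0 : ∀ a, 0 ≤ u a := fun a =>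
    (Finset.sum_nonneg fun v _ => h0 a (fun _ => Classical.arbitrary V) v).trans (hu a _)
  have key : ∀ s : Finset A, (Fintype.card V : ℝ) ^ s.card * ∑ τ : A → V, ∏ b ∈ s, f b τ (τ b) ≤
      (Fintype.card V : ℝ) ^ Fintype.card A * ∏ b ∈ s, u b := by
    intro s
    induction s using Finset.induction_on_max_value rk with
    | empty => simp
    | insert a s ha hmax ih =>
      rw [Finset.card_insert_of_notMem ha, pow_succ, mul_assoc, causal_step hc ha hmax,
        Finset.prod_insert ha]
      have h2 : ∑ τ : A → V, (∏ b ∈ s, f b τ (τ b)) * ∑ v, f a τ v ≤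
          (∑ τ : A → V, ∏ b ∈ s, f b τ (τ b)) * u a := by
        rw [Finset.sum_mul]
        exact Finset.sum_le_sum fun τ _ => mul_le_mul_of_nonneg_left (hu a τ)
          (Finset.prod_nonneg fun b _ => h0 _ _ _)
      calc _ ≤ (Fintype.card V : ℝ) ^ s.card * ((∑ τ : A → V, ∏ b ∈ s, f b τ (τ b)) * u a) :=
            mul_le_mul_of_nonneg_left h2 (by positivity)
        _ = ((Fintype.card V : ℝ) ^ s.card * ∑ τ : A → V, ∏ b ∈ s, f b τ (τ b)) * u a := by ring
        _ ≤ ((Fintype.card V : ℝ) ^ Fintype.card A * ∏ b ∈ s, u b) * u a :=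
            mul_le_mul_of_nonneg_right ih (hu0 a)
        _ = _ := by ring
  have := key univ
  rw [Finset.card_univ] at this
  exact le_of_mul_le_mul_left this (by positivity)

theorem seq_lower [Nonempty V] (rk : A → ℕ)
    (f : A → (A → V) → V → ℝ) (hc : Causal rk f)
    (h0 : ∀ a τ v, 0 ≤ f a τ v) (l : A → ℝ) (hl0 : ∀ a, 0 ≤ l a)
    (hl : ∀ a τ, (∀ b, rk b < rk a → f b τ (τ b) ≠ 0) → l a ≤ ∑ v, f a τ v) :
    ∏ a, l a ≤ ∑ τ : A → V, ∏ a, f a τ (τ a) := by
  have hV : (0 : ℝ) < Fintype.card V := by exact_mod_cast Fintype.card_pos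
  have key : ∀ s : Finset A, (∀ a ∈ s, ∀ b, rk b < rk a → b ∈ s) →
      (Fintype.card V : ℝ) ^ Fintype.card A * ∏ b ∈ s, l b ≤
      (Fintype.card V : ℝ) ^ s.card * ∑ τ : A → V, ∏ b ∈ s, f b τ (τ b) := by
    intro s
    induction s using Finset.induction_on_max_value rk with
    | empty => simp
    | insert a s ha hmax ih =>
      intro hdown
      have hs : ∀ c ∈ s, ∀ b, rk b < rk c → b ∈ s := by
        intro c hcs b hb
        rcases Finset.mem_insert.1 (hdown c (Finset.mem_insert_of_mem hcs) b hb) with h | h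
        · subst h; have := hmax c hcs; omega
        · exact h
      have ih := ih hs
      rw [Finset.card_insert_of_notMem ha, pow_succ, mul_assoc, causal_step hc ha hmax,
        Finset.prod_insert ha]
      have h2 : (∑ τ : A → V, ∏ b ∈ s, f b τ (τ b)) * l a ≤
          ∑ τ : A → V, (∏ b ∈ s, f b τ (τ b)) * ∑ v, f a τ v := by
        rw [Finset.sum_mul]
        refine Finset.sum_le_sum fun τ _ => ?_
        by_cases hz : ∏ b ∈ s, f b τ (τ b) = 0
        · rw [hz, zero_mul, zero_mul]
        · refine mul_le_mul_of_nonneg_left (hl a τ fun b hb => ?_)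
            (Finset.prod_nonneg fun b _ => h0 _ _ _)
          have hbs : b ∈ s := by
            rcases Finset.mem_insert.1 (hdown a (Finset.mem_insert_self _ _) b hb) with h | h
            · subst h; omega
            · exact h
          exact Finset.prod_ne_zero_iff.1 hz b hbs
      calc _ = ((Fintype.card V : ℝ) ^ Fintype.card A * ∏ b ∈ s, l b) * l a := by ring
        _ ≤ ((Fintype.card V : ℝ) ^ s.card * ∑ τ : A → V, ∏ b ∈ s, f b τ (τ b)) * l a :=
            mul_le_mul_of_nonneg_right ih (hl0 a)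
        _ = (Fintype.card V : ℝ) ^ s.card * ((∑ τ : A → V, ∏ b ∈ s, f b τ (τ b)) * l a) := by ring
        _ ≤ _ := mul_le_mul_of_nonneg_left h2 (by positivity)
  have := key univ (fun _ _ _ _ => Finset.mem_univ _)
  rw [Finset.card_univ] at this
  exact le_of_mul_le_mul_left this (by positivity)

end Pool.Agent.Lib.MP_46505f_co
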