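import Pool.Agent.Lib.MP_46505f_co.Col
import Pool.Agent.Lib.MP_46505f_co.Seq

set_option autoImplicit false
set_option linter.unusedSectionVars false
open Finset

namespace Pool.Agent.Lib.MP_46505f_co

/- Rooted forests, tree indexed random walks and counts of forest embeddings. -/

variable {A V : Type*} [Fintype A] [DecidableEq A] [Fintype V] [DecidableEq V]

structure Rooting (T : SimpleGraph A) (r : ℕ) where
  rk : A → ℕ
  pr : A → A
  adj : ∀ a, pr a ≠ a → T.Adj (pr a) a ∧ rk (pr a) < rk a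
  cover : ∀ a b, T.Adj a b → pr a = b ∨ pr b = a
  roots : (univ.filter fun a => pr a = a).card = r

theorem exists_rooting {T : SimpleGraph A} (hT : T.IsAcyclic) (a0 : A) :
    ∃ R : Rooting T (Nat.card T.ConnectedComponent), R.pr a0 = a0 := by
  classical
  let vt : T.ConnectedComponent → A := fun c =>
    if c = T.connectedComponentMk a0 then a0 else c.nonempty_supp.some
  have hvt : ∀ c, T.connectedComponentMk (vt c) = c := by
    intro c
    by_cases h : c = T.connectedComponentMk a0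
    · simp only [vt, if_pos h]; exact h.symm
    · simp only [vt, if_neg h]; exact c.nonempty_supp.some_mem
  let rt : A → A := fun a => vt (T.connectedComponentMk a)
  have hrt : ∀ a, T.Reachable (rt a) a := fun a => SimpleGraph.ConnectedComponent.exact (hvt _)
  have hadj : ∀ a b, T.Adj a b → rt a = rt b := fun a b h => by
    simp only [rt, SimpleGraph.ConnectedComponent.sound h.reachable]
  have hex : ∀ a, rt a ≠ a → ∃ b, T.Adj b a ∧ T.dist (rt a) b + 1 = T.dist (rt a) a := by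
    intro a ha
    obtain ⟨p, hp⟩ := (hrt a).exists_walk_length_eq_dist
    obtain ⟨b, hb, q, hq⟩ := p.reverse.exists_eq_cons_of_ne ha.symm
    refine ⟨b, hb.symm, ?_⟩
    have h1 : q.length + 1 = T.dist (rt a) a := by
      rw [← hp, ← SimpleGraph.Walk.length_reverse p, hq]; simp
    have h2 : T.dist (rt a) b ≤ q.length := by
      rw [SimpleGraph.dist_comm]; exact T.dist_le q
    rcases hT.dist_eq_dist_add_one_of_adj_of_reachable (rt a) hb (hrt a) with h | h <;> omega
  have huniq : ∀ ρ a b b', T.Reachable ρ a → T.Adj b a → T.Adj b' a →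
      T.dist ρ b + 1 = T.dist ρ a → T.dist ρ b' + 1 = T.dist ρ a → b = b' := by
    intro ρ a b b' hr h1 h2 e1 e2
    obtain ⟨p, hp⟩ := (hr.trans h1.symm.reachable).exists_walk_length_eq_dist
    obtain ⟨p', hp'⟩ := (hr.trans h2.symm.reachable).exists_walk_length_eq_dist
    have i1 := (p.concat h1).isPath_of_length_eq_dist (by simp [hp, e1])
    have i2 := (p'.concat h2).isPath_of_length_eq_dist (by simp [hp', e2])
    have := Subtype.mk.inj ((hT.subsingleton_path ρ a).elim ⟨_, i1⟩ ⟨_, i2⟩)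
    have h3 := congrArg SimpleGraph.Walk.penultimate this
    simpa using h3
  let pr : A → A := fun a => if h : rt a ≠ a then (hex a h).choose else a
  have hpr : ∀ a, rt a ≠ a → T.Adj (pr a) a ∧ T.dist (rt a) (pr a) + 1 = T.dist (rt a) a := by
    intro a h
    simp only [pr, dif_pos h]
    exact (hex a h).choose_spec
  have hpr' : ∀ a, pr a = a ↔ rt a = a := by
    intro a
    constructor
    · intro h
      by_contra h'
      have := (hpr a h').1
      rw [h] at this
      exact T.irrefl this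
    · intro h; simp only [pr, dif_neg (not_not.2 h)]
  have hcov : ∀ a b, T.Adj a b → T.dist (rt a) a = T.dist (rt a) b + 1 → pr a = b := by
    intro a b h e
    have hne : rt a ≠ a := by
      intro h'; rw [h', SimpleGraph.dist_self] at e; omega
    exact huniq (rt a) a _ _ (hrt a) (hpr a hne).1 h.symm (hpr a hne).2 e.symm
  refine ⟨⟨fun a => T.dist (rt a) a, pr, fun a ha => ?_, fun a b h => ?_, ?_⟩, ?_⟩
  · have h := hpr a fun h' => ha ((hpr' a).2 h')
    refine ⟨h.1, ?_⟩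
    rw [hadj _ _ h.1]; omega
  · rcases hT.dist_eq_dist_add_one_of_adj_of_reachable (rt a) h (hrt a) with e | e
    · exact Or.inl (hcov a b h e)
    · rw [hadj a b h] at e
      exact Or.inr (hcov b a h.symm e)
  · rw [Nat.card_eq_fintype_card, ← Finset.card_univ]
    refine Finset.card_nbij' (fun a => T.connectedComponentMk a) vt (fun _ _ => by simp)
      (fun c _ => ?_) (fun a ha => ?_) fun c _ => hvt c
    · simp only [Finset.coe_filter, Finset.mem_univ, true_and, Set.mem_ofPred_eq, hpr', rt, hvt]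
    · simpa [hpr'] using ha
  · exact (hpr' a0).2 (by simp [rt, vt])

open Classical in
/-- homomorphisms of T into F with values in P -/
noncomputable def homs (T : SimpleGraph A) (F : SimpleGraph V) (P : Finset V) : Finset (A → V) :=
  univ.filter fun τ => (∀ a, τ a ∈ P) ∧ ∀ a b, T.Adj a b → F.Adj (τ a) (τ b)

lemma mem_homs {T : SimpleGraph A} {F : SimpleGraph V} {P : Finset V} {τ : A → V} :
    τ ∈ homs T F P ↔ (∀ a, τ a ∈ P) ∧ ∀ a b, T.Adj a b → F.Adj (τ a) (τ b) := by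
  simp [homs]

lemma Rooting.prod_eq {T : SimpleGraph A} {r : ℕ} (R : Rooting T r) (x y : ℝ) :
    ∏ a, (if R.pr a = a then x else y) = x ^ r * y ^ (Fintype.card A - r) := by
  rw [Finset.prod_ite, Finset.prod_const, Finset.prod_const, R.roots]
  congr 2
  have := Finset.card_filter_add_card_filter_not (s := (univ : Finset A)) fun a => R.pr a = a
  rw [R.roots, Finset.card_univ] at this
  omega

lemma card_homs_le [Nonempty V] {T : SimpleGraph A} {r : ℕ} (R : Rooting T r) {F : SimpleGraph V}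
    {P : Finset V} {Δ : ℝ} (hΔ0 : 0 ≤ Δ) (hΔ : ∀ v ∈ P, (dg F v P : ℝ) ≤ Δ) (u : A → ℝ)
    (B : A → Finset V) (hB : ∀ a, R.pr a = a → ((B a ∩ P).card : ℝ) ≤ u a) :
    (((homs T F P).filter fun τ => ∀ a, R.pr a = a → τ a ∈ B a).card : ℝ) ≤
      ∏ a, if R.pr a = a then u a else Δ := by
  classical
  refine le_trans ?_ (seq_upper R.rk (fun a τ v => if R.pr a = a then
    (if v ∈ B a ∩ P then 1 else 0) else
    (if τ (R.pr a) ∈ P ∧ v ∈ nb F (τ (R.pr a)) P then 1 else 0)) ?_ ?_ _ ?_)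
  · rw [Finset.card_eq_sum_ones, Nat.cast_sum]
    refine le_trans (le_of_eq (Finset.sum_congr rfl fun τ hτ => ?_))
      (Finset.sum_le_sum_of_subset_of_nonneg (Finset.subset_univ _) fun τ _ _ =>
        Finset.prod_nonneg fun a _ => by split_ifs <;> norm_num)
    rw [Finset.mem_filter, mem_homs] at hτ
    rw [Finset.prod_eq_one]
    · simp
    · intro a _
      by_cases h : R.pr a = a
      · rw [if_pos h, if_pos (Finset.mem_inter.2 ⟨hτ.2 a h, hτ.1.1 a⟩)]
      · rw [if_neg h, if_pos ⟨hτ.1.1 _, mem_nb.2 ⟨hτ.1.1 _, hτ.1.2 _ _ (R.adj a h).1⟩⟩]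
  · intro a τ τ' h
    by_cases h' : R.pr a = a
    · simp only [if_pos h']
    · simp only [if_neg h', h _ (R.adj a h').2]
  · intro a τ v; split_ifs <;> norm_num
  · intro a τ
    by_cases h : R.pr a = a
    · simp only [if_pos h, Finset.sum_ite_mem, Finset.univ_inter, Finset.sum_const, nsmul_eq_mul,
        mul_one]
      exact hB a h
    · simp only [if_neg h]
      by_cases h2 : τ (R.pr a) ∈ P
      · simpa [h2, dg] using hΔ _ h2
      · simpa [h2] using hΔ0

lemma card_homs_le' [Nonempty V] {T : SimpleGraph A} {r : ℕ} (R : Rooting T r) {F : SimpleGraph V}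
    {P : Finset V} {Δ : ℝ} (hΔ0 : 0 ≤ Δ) (hΔ : ∀ v ∈ P, (dg F v P : ℝ) ≤ Δ) :
    ((homs T F P).card : ℝ) ≤ P.card ^ r * Δ ^ (Fintype.card A - r) := by
  have := card_homs_le R hΔ0 hΔ (fun _ => P.card) (fun _ => univ) (by simp)
  rw [R.prod_eq] at this
  simpa using this

lemma card_homs_anchor [Nonempty V] {T : SimpleGraph A} {r : ℕ} (R : Rooting T r) {a0 : A}
    (h0 : R.pr a0 = a0) {F : SimpleGraph V} {P : Finset V} (hP : P.Nonempty) {Δ : ℝ} (hΔ0 : 0 ≤ Δ)
    (hΔ : ∀ v ∈ P, (dg F v P : ℝ) ≤ Δ) (B : Finset V) :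
    (((homs T F P).filter fun τ => τ a0 ∈ B).card : ℝ) ≤
      B.card / P.card * (P.card ^ r * Δ ^ (Fintype.card A - r)) := by
  have hP0 : (0 : ℝ) < P.card := by exact_mod_cast Finset.card_pos.2 hP
  have := card_homs_le R hΔ0 hΔ (fun a => (if a = a0 then (B.card : ℝ) / P.card else 1) * P.card)
    (fun a => if a = a0 then B else univ) (by
      intro a _
      by_cases h : a = a0
      · simp only [if_pos h, div_mul_cancel₀ _ hP0.ne']
        exact_mod_cast Finset.card_le_card Finset.inter_subset_left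
      · simp [h])
  refine le_trans ?_ (this.trans (le_of_eq ?_))
  · refine Nat.cast_le.2 (Finset.card_le_card fun τ hτ => ?_)
    rw [Finset.mem_filter] at hτ ⊢
    refine ⟨hτ.1, fun a _ => ?_⟩
    by_cases h : a = a0
    · rw [if_pos h, h]; exact hτ.2
    · simp [h]
  · rw [← R.prod_eq]
    have : ((B.card : ℝ) / P.card) = ∏ a, (if a = a0 then (B.card : ℝ) / P.card else 1) := by simp
    rw [this, ← Finset.prod_mul_distrib]
    refine Finset.prod_congr rfl fun a _ => ?_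
    by_cases h : a = a0
    · subst h; simp [h0]
    · simp [h]

lemma exists_prune (F : SimpleGraph V) (Q : Finset V) (X : Bool → Finset V) {ρ : ℝ} (hρ : 0 ≤ ρ)
    (h : ρ * ∑ v ∈ Q, (dg F v Q : ℝ) ≤ ∑ x ∈ Q ∩ X false, (dg F x (Q ∩ X true) : ℝ)) :
    ∃ B : Bool → Finset V, (∀ σ, B σ ⊆ Q ∩ X σ) ∧
      (∀ σ, ∀ x ∈ B σ, ρ / 4 * dg F x Q ≤ dg F x (B (!σ))) ∧
      ∀ σ, ρ / 4 * ∑ v ∈ Q, (dg F v Q : ℝ) ≤ ∑ x ∈ B σ, (dg F x Q : ℝ) := by
  classical
  let Φ : Finset V × Finset V → ℝ := fun B => ∑ x ∈ B.1, (dg F x B.2 : ℝ) -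
    ρ / 4 * (∑ x ∈ B.1, (dg F x Q : ℝ) + ∑ x ∈ B.2, (dg F x Q : ℝ))
  obtain ⟨⟨B0, B1⟩, hB, hmax⟩ := Finset.exists_max_image
    ((Q ∩ X false).powerset ×ˢ (Q ∩ X true).powerset) Φ
    ⟨(∅, ∅), Finset.mem_product.2 ⟨Finset.empty_mem_powerset _, Finset.empty_mem_powerset _⟩⟩
  simp only [Finset.mem_product, Finset.mem_powerset] at hB hmax
  have hvol : ∀ B ⊆ Q, ∑ x ∈ B, (dg F x Q : ℝ) ≤ ∑ v ∈ Q, (dg F v Q : ℝ) := fun B hB =>
    Finset.sum_le_sum_of_subset_of_nonneg hB fun _ _ _ => by positivity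
  have h1 := hmax (Q ∩ X false, Q ∩ X true) ⟨Subset.rfl, Subset.rfl⟩
  have h2 := hvol _ (Finset.inter_subset_left (s₂ := X false))
  have h3 := hvol _ (Finset.inter_subset_left (s₂ := X true))
  have n0 : 0 ≤ ∑ x ∈ B0, (dg F x Q : ℝ) := Finset.sum_nonneg fun _ _ => by positivity
  have n1 : 0 ≤ ∑ x ∈ B1, (dg F x Q : ℝ) := Finset.sum_nonneg fun _ _ => by positivity
  have h4 : ρ / 4 * ∑ v ∈ Q, (dg F v Q : ℝ) ≤ ∑ x ∈ B0, (dg F x B1 : ℝ) := by
    simp only [Φ] at h1
    have m1 := mul_le_mul_of_nonneg_left h2 hρ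
    have m2 := mul_le_mul_of_nonneg_left h3 hρ
    have m3 := mul_nonneg hρ n0
    have m4 := mul_nonneg hρ n1
    have m5 : 0 ≤ ρ * ∑ v ∈ Q, (dg F v Q : ℝ) :=
      mul_nonneg hρ (Finset.sum_nonneg fun _ _ => by positivity)
    linarith only [h, h1, m1, m2, m3, m4, m5]
  refine ⟨fun σ => if σ then B1 else B0, fun σ => ?_, fun σ x hx => ?_, fun σ => ?_⟩
  · cases σ
    · exact hB.1
    · exact hB.2
  · cases σ
    · simp only [Bool.false_eq_true, if_false, Bool.not_false, if_true] at hx ⊢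
      have := hmax (B0.erase x, B1) ⟨(Finset.erase_subset _ _).trans hB.1, hB.2⟩
      simp only [Φ] at this
      rw [← Finset.add_sum_erase B0 _ hx, ← Finset.add_sum_erase B0 (fun x => (dg F x Q : ℝ)) hx]
        at this
      linarith only [this]
    · simp only [if_true, Bool.not_true, Bool.false_eq_true, if_false] at hx ⊢
      have := hmax (B0, B1.erase x) ⟨hB.1, (Finset.erase_subset _ _).trans hB.2⟩
      simp only [Φ] at this
      rw [sum_dg_comm F B0 B1, sum_dg_comm F B0 (B1.erase x), ← Finset.add_sum_erase B1 _ hx,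
        ← Finset.add_sum_erase B1 (fun x => (dg F x Q : ℝ)) hx] at this
      linarith
  · cases σ
    · refine h4.trans (Finset.sum_le_sum fun x _ => ?_)
      exact_mod_cast dg_mono le_rfl x (hB.2.trans Finset.inter_subset_left)
    · rw [sum_dg_comm F B0 B1] at h4
      refine h4.trans (Finset.sum_le_sum fun x _ => ?_)
      exact_mod_cast dg_mono le_rfl x (hB.1.trans Finset.inter_subset_left)

section walk
variable {T : SimpleGraph A} {r : ℕ} (R : Rooting T r) (F : SimpleGraph V) (Q : Finset V)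

noncomputable def ker (a : A) (τ : A → V) (v : V) : ℝ :=
  if R.pr a = a then (if v ∈ Q then dg F v Q / ∑ u ∈ Q, (dg F u Q : ℝ) else 0) else
    (if τ (R.pr a) ∈ Q ∧ v ∈ nb F (τ (R.pr a)) Q then 1 / dg F (τ (R.pr a)) Q else 0)

lemma ker_nonneg (a : A) (τ : A → V) (v : V) : 0 ≤ ker R F Q a τ v := by
  unfold ker; split_ifs <;> positivity

lemma ker_congr (a : A) {τ τ' : A → V} (h : R.pr a ≠ a → τ (R.pr a) = τ' (R.pr a)) :
    ker R F Q a τ = ker R F Q a τ' := by
  funext v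
  unfold ker
  by_cases h' : R.pr a = a
  · simp only [if_pos h']
  · simp only [if_neg h', h h']

lemma ker_sum_le (a : A) (τ : A → V) : ∑ v, ker R F Q a τ v ≤ 1 := by
  unfold ker
  by_cases h : R.pr a = a
  · simp only [if_pos h, Finset.sum_ite_mem, Finset.univ_inter]
    rw [← Finset.sum_div]
    exact div_self_le_one _
  · simp only [if_neg h]
    by_cases h2 : τ (R.pr a) ∈ Q
    · simp only [h2, true_and, Finset.sum_ite_mem, Finset.univ_inter, Finset.sum_const,
        nsmul_eq_mul, mul_one_div]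
      exact div_self_le_one _
    · simp [h2]

variable {F Q}

lemma ker_le {δ : ℝ} (hδ : 0 < δ) (hQ : ∀ v ∈ Q, δ ≤ dg F v Q) (a : A) (τ : A → V) (v : V) :
    ker R F Q a τ v ≤ 1 / δ := by
  unfold ker
  split_ifs with h1 h2 h3
  · have h3 : δ * dg F v Q ≤ ∑ u ∈ Q, (dg F u Q : ℝ) := by
      refine le_trans ?_ (Finset.sum_le_sum_of_subset_of_nonneg (s := nb F v Q)
        (fun u hu => (mem_nb.1 hu).1) fun _ _ _ => by positivity)
      have := Finset.card_nsmul_le_sum (nb F v Q) (fun u => (dg F u Q : ℝ)) δ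
        fun u hu => hQ u (mem_nb.1 hu).1
      rw [nsmul_eq_mul, mul_comm] at this
      exact this
    have h4 : 0 < δ * dg F v Q := mul_pos hδ (hδ.trans_le (hQ v h2))
    rw [div_le_div_iff₀ (h4.trans_le h3) hδ]
    linarith
  · positivity
  · exact one_div_le_one_div_of_le hδ (hQ _ h3.1)
  · positivity

lemma ker_ne {τ : A → V} (h : ∏ a, ker R F Q a τ (τ a) ≠ 0) : τ ∈ homs T F Q := by
  have h1 : ∀ a, ker R F Q a τ (τ a) ≠ 0 := fun a => Finset.prod_ne_zero_iff.1 h a (mem_univ a)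
  have h2 : ∀ a, R.pr a ≠ a → τ a ∈ nb F (τ (R.pr a)) Q := by
    intro a ha
    have := h1 a
    unfold ker at this
    rw [if_neg ha] at this
    by_contra hc
    exact this (if_neg fun h' => hc h'.2)
  refine mem_homs.2 ⟨fun a => ?_, fun a b hab => ?_⟩
  · by_cases ha : R.pr a = a
    · have := h1 a
      unfold ker at this
      rw [if_pos ha] at this
      by_contra hc
      exact this (if_neg hc)
    · exact (mem_nb.1 (h2 a ha)).1
  · rcases R.cover a b hab with e | e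
    · have := (mem_nb.1 (h2 a (by rw [e]; exact hab.ne'))).2
      rw [e] at this; exact this.symm
    · have := (mem_nb.1 (h2 b (by rw [e]; exact hab.ne))).2
      rw [e] at this; exact this

lemma ker_prod_le {δ Δ : ℝ} (hδ : 0 < δ) (hQ : ∀ v ∈ Q, δ ≤ dg F v Q) (hne : Q.Nonempty)
    (hΔ : ∀ v ∈ Q, (dg F v Q : ℝ) ≤ Δ) (τ : A → V) :
    ∏ a, ker R F Q a τ (τ a) ≤ (Δ / (Q.card * δ)) ^ r * (1 / δ) ^ (Fintype.card A - r) := by
  rw [← R.prod_eq]
  refine Finset.prod_le_prod (fun a _ => ker_nonneg _ _ _ _ _ _) fun a _ => ?_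
  by_cases h : R.pr a = a
  · rw [if_pos h]
    have hQ0 : (0 : ℝ) < Q.card := by exact_mod_cast Finset.card_pos.2 hne
    have hΔ0 : 0 ≤ Δ := by
      obtain ⟨v, hv⟩ := hne
      exact le_trans (by positivity) (hΔ v hv)
    unfold ker
    rw [if_pos h]
    split_ifs with h2
    · have := Finset.card_nsmul_le_sum Q (fun u => (dg F u Q : ℝ)) δ hQ
      rw [nsmul_eq_mul] at this
      exact div_le_div₀ hΔ0 (hΔ _ h2) (by positivity) this
    · positivity
  · rw [if_neg h]; exact ker_le R hδ hQ _ _ _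

lemma ker_collision [Nonempty V] {δ : ℝ} (hδ : 0 < δ) (hQ : ∀ v ∈ Q, δ ≤ dg F v Q) {a b : A}
    (hab : b ≠ a) (hrk : R.rk b ≤ R.rk a) :
    ∑ τ : A → V, (if τ a = τ b then 1 else 0) * ∏ c, ker R F Q c τ (τ c) ≤ 1 / δ := by
  have := seq_upper (fun c => 2 * R.rk c + if c = a then 1 else 0)
    (fun c τ v => (if c = a then (if v = τ b then 1 else 0) else 1) * ker R F Q c τ v) ?_ ?_
    (fun c => if c = a then 1 / δ else 1) ?_
  · simp only [Finset.prod_mul_distrib, Finset.prod_ite_eq', Finset.mem_univ, if_true] at this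
    exact this
  · intro c τ τ' h
    beta_reduce at h ⊢
    rw [ker_congr R F Q c (τ' := τ') fun hc => h _ ?_]
    · by_cases hc : c = a
      · subst hc
        rw [h b (by simp only [if_neg hab, if_true]; omega)]
      · simp only [if_neg hc]
    · have := (R.adj c hc).2
      split_ifs <;> omega
  · intro c τ v
    refine mul_nonneg ?_ (ker_nonneg _ _ _ _ _ _)
    split_ifs <;> norm_num
  · intro c τ
    by_cases hc : c = a
    · simp only [if_pos hc, ite_mul, one_mul, zero_mul, Finset.sum_ite_eq', Finset.mem_univ,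
        if_true]
      exact ker_le R hδ hQ _ _ _
    · simp only [if_neg hc, one_mul]; exact ker_sum_le _ _ _ _ _

lemma ker_survive [Nonempty V] {δ : ℝ} (hδ : 0 < δ) (hQ : ∀ v ∈ Q, δ ≤ dg F v Q) (hne : Q.Nonempty)
    (side : A → Bool) (hside : ∀ a b, T.Adj a b → side a ≠ side b) (X : Bool → Finset V) {ρ : ℝ}
    (hρ : 0 ≤ ρ)
    (h : ρ * ∑ v ∈ Q, (dg F v Q : ℝ) ≤ ∑ x ∈ Q ∩ X false, (dg F x (Q ∩ X true) : ℝ)) :
    (ρ / 4) ^ Fintype.card A ≤ ∑ τ : A → V,
      (if ∀ a, τ a ∈ X (side a) then 1 else 0) * ∏ c, ker R F Q c τ (τ c) := by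
  obtain ⟨B, hB1, hB2, hB3⟩ := exists_prune F Q X hρ h
  have hvol : 0 < ∑ v ∈ Q, (dg F v Q : ℝ) :=
    Finset.sum_pos (fun v hv => hδ.trans_le (hQ v hv)) hne
  have := seq_lower R.rk (fun c τ v => (if v ∈ B (side c) then 1 else 0) * ker R F Q c τ v) ?_ ?_
    (fun _ => ρ / 4) (fun _ => by positivity) ?_
  · rw [Finset.prod_const, Finset.card_univ] at this
    refine this.trans (Finset.sum_le_sum fun τ _ => ?_)
    rw [Finset.prod_mul_distrib]
    refine mul_le_mul_of_nonneg_right ?_ (Finset.prod_nonneg fun c _ => ker_nonneg _ _ _ _ _ _)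
    rw [Finset.prod_boole]
    split_ifs with h1 h2
    · exact le_rfl
    · exact absurd (fun a => (Finset.mem_inter.1 (hB1 _ (h1 a (mem_univ a)))).2) h2
    · norm_num
    · exact le_rfl
  · intro c τ τ' h
    beta_reduce
    rw [ker_congr R F Q c (τ' := τ') fun hc => h _ (R.adj c hc).2]
  · intro c τ v
    refine mul_nonneg ?_ (ker_nonneg _ _ _ _ _ _)
    split_ifs <;> norm_num
  · intro c τ hc
    have hsub : B (side c) ⊆ Q := (hB1 _).trans Finset.inter_subset_left
    simp only [ite_mul, one_mul, zero_mul, Finset.sum_ite_mem, Finset.univ_inter]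
    unfold ker
    by_cases h1 : R.pr c = c
    · simp only [if_pos h1]
      rw [Finset.sum_congr rfl fun v hv => if_pos (hsub hv), ← Finset.sum_div, le_div_iff₀ hvol]
      exact hB3 _
    · simp only [if_neg h1]
      have h2 := left_ne_zero_of_mul (hc _ (R.adj c h1).2)
      have h3 : τ (R.pr c) ∈ B (side (R.pr c)) := by by_contra h'; exact h2 (if_neg h')
      have h4 : τ (R.pr c) ∈ Q := (Finset.mem_inter.1 (hB1 _ h3)).1
      have h5 : (!side (R.pr c)) = side c := by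
        have := hside _ _ (R.adj c h1).1
        revert this; cases side (R.pr c) <;> cases side c <;> simp
      have h6 := hB2 _ _ h3
      rw [h5] at h6
      have h7 : (0 : ℝ) < dg F (τ (R.pr c)) Q := hδ.trans_le (hQ _ h4)
      simp only [h4, true_and, Finset.sum_ite_mem, Finset.sum_const, nsmul_eq_mul, mul_one_div]
      rw [le_div_iff₀ h7]
      refine h6.trans (Nat.cast_le.2 (Finset.card_le_card fun u hu => ?_))
      exact Finset.mem_inter.2 ⟨(mem_nb.1 hu).1, mem_nb.2 ⟨hsub (mem_nb.1 hu).1, (mem_nb.1 hu).2⟩⟩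

end walk

open Classical in
theorem forest_count [Nonempty V] {T : SimpleGraph A} {r : ℕ} (R : Rooting T r) (side : A → Bool)
    (hside : ∀ a b, T.Adj a b → side a ≠ side b) {F : SimpleGraph V} {Q : Finset V} {δ Δ : ℝ}
    (hδ : 0 < δ) (hQ : ∀ v ∈ Q, δ ≤ dg F v Q) (hne : Q.Nonempty)
    (hΔ : ∀ v ∈ Q, (dg F v Q : ℝ) ≤ Δ) {Ω : Type*} (Ω0 : Finset Ω) (hΩ : Ω0.Nonempty)
    (X : Ω → Bool → Finset V) {a : ℝ} (ha : 0 < a)
    (hX : ∀ x ∈ Q, ∀ x' ∈ Q, F.Adj x x' →
      a * Ω0.card ≤ (Ω0.filter fun w => x ∈ X w false ∧ x' ∈ X w true).card)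
    (hδ' : 3 * (Fintype.card A : ℝ) ^ 2 ≤ (a / 4) ^ Fintype.card A * δ) :
    (a / 4) ^ Fintype.card A / 3 * ((Q.card * δ / Δ) ^ r * δ ^ (Fintype.card A - r)) ≤
      ((homs T F Q).filter fun τ => Function.Injective τ ∧ (a / 4) ^ Fintype.card A / 3 * Ω0.card ≤
        (Ω0.filter fun w => ∀ c, τ c ∈ X w (side c)).card).card := by
  set h := Fintype.card A
  set c0 := (a / 4) ^ h with hc0
  have hc0pos : 0 < c0 := by positivity
  have hΩ0 : (0 : ℝ) < Ω0.card := by exact_mod_cast Finset.card_pos.2 hΩ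
  have hQ0 : (0 : ℝ) < Q.card := by exact_mod_cast Finset.card_pos.2 hne
  have hΔ0 : 0 < Δ := by
    obtain ⟨v, hv⟩ := hne
    exact hδ.trans_le ((hQ v hv).trans (hΔ v hv))
  set vol := ∑ v ∈ Q, (dg F v Q : ℝ) with hvol'
  have hvol : 0 < vol := Finset.sum_pos (fun v hv => hδ.trans_le (hQ v hv)) hne
  set ν : (A → V) → ℝ := fun τ => ∏ c, ker R F Q c τ (τ c) with hν
  have hν0 : ∀ τ, 0 ≤ ν τ := fun τ => Finset.prod_nonneg fun c _ => ker_nonneg _ _ _ _ _ _
  have hν1 : ∑ τ, ν τ ≤ 1 := by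
    simpa using seq_upper R.rk (ker R F Q) (fun c τ τ' h => ker_congr R F Q c fun hc =>
      h _ (R.adj c hc).2) (ker_nonneg R F Q) (fun _ => 1) (ker_sum_le R F Q)
  set ρ : Ω → ℝ := fun w => (∑ x ∈ Q ∩ X w false, (dg F x (Q ∩ X w true) : ℝ)) / vol with hρ
  have hρ0 : ∀ w, 0 ≤ ρ w := fun w => div_nonneg (Finset.sum_nonneg fun _ _ => by positivity) hvol.le
  have h1 : a * Ω0.card ≤ ∑ w ∈ Ω0, ρ w := by
    rw [hρ, ← Finset.sum_div, le_div_iff₀ hvol]
    have e1 : ∀ w, ∑ x ∈ Q ∩ X w false, (dg F x (Q ∩ X w true) : ℝ) = ∑ x ∈ Q, ∑ x' ∈ nb F x Q,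
        if x ∈ X w false ∧ x' ∈ X w true then (1 : ℝ) else 0 := by
      intro w
      rw [← Finset.sum_ite_mem]
      refine Finset.sum_congr rfl fun x _ => ?_
      by_cases hx : x ∈ X w false
      · simp only [hx, true_and, if_true, Finset.sum_boole, dg, Nat.cast_inj]
        congr 1; ext u; simp [mem_nb]; tauto
      · simp [hx]
    simp only [e1]
    rw [Finset.sum_comm, hvol', Finset.mul_sum]
    refine Finset.sum_le_sum fun x hx => ?_
    rw [Finset.sum_comm]
    have := Finset.card_nsmul_le_sum (nb F x Q)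
      (fun x' => ∑ w ∈ Ω0, if x ∈ X w false ∧ x' ∈ X w true then (1 : ℝ) else 0) (a * Ω0.card)
      fun x' hx' => by simpa using hX x hx x' (mem_nb.1 hx').1 (mem_nb.1 hx').2
    rw [nsmul_eq_mul, mul_comm] at this
    exact this
  have h2 : c0 * Ω0.card ≤ ∑ w ∈ Ω0, (ρ w / 4) ^ h := by
    have := Real.pow_arith_mean_le_arith_mean_pow Ω0 (fun _ => 1 / (Ω0.card : ℝ))
      (fun w => ρ w / 4) (fun _ _ => by positivity) (by simp [hΩ0.ne'])
      (fun w _ => by have := hρ0 w; positivity) h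
    rw [← Finset.mul_sum, ← Finset.mul_sum, ← Finset.sum_div] at this
    have h3 : a / 4 ≤ 1 / (Ω0.card : ℝ) * ((∑ w ∈ Ω0, ρ w) / 4) := by
      rw [one_div_mul_eq_div, le_div_iff₀ hΩ0]; linarith
    have h4 := (pow_le_pow_left₀ (by positivity) h3 h).trans this
    rwa [one_div_mul_eq_div, le_div_iff₀ hΩ0] at h4
  set s : (A → V) → ℝ := fun τ => ((Ω0.filter fun w => ∀ c, τ c ∈ X w (side c)).card : ℝ) with hs
  have h3 : c0 * Ω0.card ≤ ∑ τ, s τ * ν τ := by
    refine h2.trans ((Finset.sum_le_sum fun w _ => ker_survive R hδ hQ hne side hside (X w) (hρ0 w)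
      (le_of_eq (div_mul_cancel₀ _ hvol.ne'))).trans (le_of_eq ?_))
    rw [Finset.sum_comm]
    refine Finset.sum_congr rfl fun τ _ => ?_
    rw [← Finset.sum_mul, hs]
    simp only [Finset.sum_boole]
    congr
  set G := (homs T F Q).filter fun τ => Function.Injective τ ∧ c0 / 3 * Ω0.card ≤ s τ with hG
  have h4 : ∀ τ, s τ * ν τ ≤ Ω0.card * ((if τ ∈ G then ν τ else 0) + c0 / 3 * ν τ +
      ∑ x ∈ univ.filter (fun x : A × A => x.2 ≠ x.1 ∧ R.rk x.2 ≤ R.rk x.1),
        (if τ x.1 = τ x.2 then 1 else 0) * ν τ) := by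
    intro τ
    have hs1 : s τ ≤ Ω0.card := Nat.cast_le.2 (Finset.card_filter_le _ _)
    have n1 : 0 ≤ (if τ ∈ G then ν τ else 0) := by split_ifs; exacts [hν0 τ, le_rfl]
    have n2 : 0 ≤ c0 / 3 * ν τ := mul_nonneg (by positivity) (hν0 τ)
    have n3' : ∀ x : A × A, 0 ≤ (if τ x.1 = τ x.2 then (1 : ℝ) else 0) * ν τ := fun x =>
      mul_nonneg (by split_ifs <;> norm_num) (hν0 τ)
    have n3 : 0 ≤ ∑ x ∈ univ.filter (fun x : A × A => x.2 ≠ x.1 ∧ R.rk x.2 ≤ R.rk x.1),
        (if τ x.1 = τ x.2 then 1 else 0) * ν τ := Finset.sum_nonneg fun x _ => n3' x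
    have n4 := mul_le_mul_of_nonneg_right hs1 (hν0 τ)
    by_cases hz : ν τ = 0
    · rw [hz] at *; simp
    by_cases hτ : τ ∈ G
    · rw [if_pos hτ]; nlinarith only [n4, n2, n3]
    by_cases hi : Function.Injective τ
    · have : s τ < c0 / 3 * Ω0.card := not_le.1 fun h' =>
        hτ (Finset.mem_filter.2 ⟨ker_ne R hz, hi, h'⟩)
      have := mul_le_mul_of_nonneg_right this.le (hν0 τ)
      nlinarith only [this, n1, n3]
    · obtain ⟨b, c, h1, h2⟩ : ∃ b c, τ b = τ c ∧ c ≠ b ∧ R.rk c ≤ R.rk b := by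
        unfold Function.Injective at hi
        push Not at hi
        obtain ⟨b, c, h1, h2⟩ := hi
        rcases le_total (R.rk c) (R.rk b) with h | h
        · exact ⟨b, c, h1, h2.symm, h⟩
        · exact ⟨c, b, h1.symm, h2, h⟩
      have := Finset.single_le_sum (s := univ.filter
        (fun x : A × A => x.2 ≠ x.1 ∧ R.rk x.2 ≤ R.rk x.1)) (fun x _ => n3' x)
        (a := (b, c)) (Finset.mem_filter.2 ⟨mem_univ _, h2⟩)
      simp only [if_pos h1, one_mul] at this
      nlinarith only [n4, n1, n2, this]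
  have h5 := Finset.sum_le_sum fun τ (_ : τ ∈ univ) => h4 τ
  rw [← Finset.mul_sum, Finset.sum_add_distrib, Finset.sum_add_distrib, ← Finset.mul_sum,
    Finset.sum_comm, Finset.sum_ite_mem, Finset.univ_inter] at h5
  have h6 : ∑ x ∈ univ.filter (fun x : A × A => x.2 ≠ x.1 ∧ R.rk x.2 ≤ R.rk x.1),
      ∑ τ : A → V, (if τ x.1 = τ x.2 then 1 else 0) * ν τ ≤ c0 / 3 := by
    refine (Finset.sum_le_card_nsmul _ _ (1 / δ) fun x hx => ?_).trans ?_
    · exact ker_collision R hδ hQ (Finset.mem_filter.1 hx).2.1 (Finset.mem_filter.1 hx).2.2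
    · have : ((univ.filter (fun x : A × A => x.2 ≠ x.1 ∧ R.rk x.2 ≤ R.rk x.1)).card : ℝ) ≤ h ^ 2 := by
        have := Finset.card_le_univ (univ.filter (fun x : A × A => x.2 ≠ x.1 ∧ R.rk x.2 ≤ R.rk x.1))
        rw [Fintype.card_prod] at this
        rw [sq]; exact_mod_cast this
      rw [nsmul_eq_mul, mul_one_div, div_le_iff₀ hδ]
      linarith only [hδ', this]
  have h7 : c0 / 3 ≤ ∑ τ ∈ G, ν τ := by
    have : c0 * Ω0.card ≤ Ω0.card * (∑ τ ∈ G, ν τ + c0 / 3 + c0 / 3) := by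
      refine h3.trans (h5.trans (mul_le_mul_of_nonneg_left ?_ hΩ0.le))
      nlinarith only [hν1, hδ, h6, hδ']
    nlinarith only [this, hΩ0]
  have h8 := Finset.sum_le_card_nsmul G ν _ fun τ _ => ker_prod_le R hδ hQ hne hΔ τ
  rw [nsmul_eq_mul] at h8
  have h9 : (Δ / (Q.card * δ)) ^ r * (1 / δ) ^ (h - r) * ((Q.card * δ / Δ) ^ r * δ ^ (h - r)) = 1 := by
    rw [mul_mul_mul_comm, ← mul_pow, ← mul_pow]
    have e1 : Δ / (Q.card * δ) * (Q.card * δ / Δ) = 1 := by field_simp
    have e2 : 1 / δ * δ = 1 := by field_simp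
    rw [e1, e2]; simp
  calc _ ≤ G.card * ((Δ / (Q.card * δ)) ^ r * (1 / δ) ^ (h - r)) *
        ((Q.card * δ / Δ) ^ r * δ ^ (h - r)) :=
        mul_le_mul_of_nonneg_right (h7.trans h8) (by positivity)
    _ = G.card := by rw [mul_assoc, h9, mul_one]

end Pool.Agent.Lib.MP_46505f_co
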