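import Pool.Agent.Lib.MP_46505f_co.Val

set_option autoImplicit false
set_option linter.unusedSectionVars false
open Finset Filter Topology
open Pool.Agent.Lib.MP_eaf82e_pr

namespace Pool.Agent.Lib.MP_46505f_co

/- The sharp upper bound for hard clouds, for fixed n. -/

theorem lcore' {ι Λ O 𝒞 : Type} [Fintype ι] [DecidableEq ι] [Fintype Λ] [Fintype O]
    {𝒯 : Tests Λ O} [Fintype 𝒞] [Nonempty 𝒞] {p τ N K x η m0 r0 : ℝ} (h0 : 0 ≤ p) (h1 : p ≤ 1)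
    (hτ : 0 < τ) (hN : 1 ≤ τ * N) (hK : 0 < K) {k0 : ℕ} (ha : 1 ≤ 𝒯.a)
    (P : 𝒞 → Finset ι → Λ → Prop) (Good 𝓘 : Finset ι → Prop) {E0 D0 : Finset ι}
    (hd : Disjoint E0 D0) (hD0 : (D0.card : ℝ) ≤ N)
    (hr : N * (cc k0 * 𝒯.a ^ k0 * K * τ * 𝒯.κ 𝒯.o0) ≤ r0) (r1 : 1 ≤ r0) (hx : 0 < x) (hx1 : x ≤ 1)
    (e0 : 0 ≤ η) (e1 : η ≤ 1) (htest : ∀ D ⊆ D0, ¬ Good D → ∃ (A : Finset ι) (m : ℝ), m0 ≤ m ∧
      (A ∩ D).card ≤ m ∧ ∀ I, 𝓘 I → 4 * r0 * (τ * N) * k0 + (1 + η) * (p * m) ≤ (A ∩ I).card)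
    (hnum : 4 * r0 * (τ * N) * (k0 * Real.log (1 / x) + Fintype.card 𝒞) + p * x * N ≤
      η ^ 2 * (p * m0) / 8) :
    Pr (fun _ => p) (fun ω => E0 ⊆ rs ω ∧ ∃ I, 𝓘 I ∧ I ⊆ D0 ∧ I ⊆ rs ω ∧
      ∀ D ⊆ D0, Good D → ∃ c, LSat 𝒯 (P c) k0 K τ D ∧
        ¬ Spr 𝒯 (fun l => ∃ e ⊆ I, P c e l) (cc k0 * 𝒯.a ^ k0 * K)) ≤
      p ^ E0.card * Real.exp (-(η ^ 2 * (p * m0) / 8)) := by
  have hN0 : 0 < N := (mul_pos_iff_of_pos_left hτ).1 (by linarith)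
  have a1 : ((⌊r0⌋₊ + 1 : ℕ) : ℝ) ≤ 2 * r0 := by
    have := Nat.floor_le (by linarith : 0 ≤ r0); push_cast; linarith
  have a2 : ((k0 * ⌈τ * N⌉₊ * (⌊r0⌋₊ + 1) : ℕ) : ℝ) ≤ 4 * r0 * (τ * N) * k0 := by
    have := (Nat.ceil_lt_add_one (by linarith : 0 ≤ τ * N)).le
    rw [Nat.cast_mul, Nat.cast_mul]
    calc _ ≤ k0 * (2 * (τ * N)) * (2 * r0) := by gcongr; linarith
      _ = _ := by ring
  refine (lcore h0 h1 hτ hN0 hK (Nat.le_ceil _) ha P Good 𝓘 hd hD0 (r := ⌊r0⌋₊ + 1)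
    (hr.trans_lt (by push_cast; exact Nat.lt_floor_add_one _)) hx hx1 e0 e1 fun D b1 b2 =>
    let ⟨A, m, c1, c2, c3⟩ := htest D b1 b2
    ⟨A, m, c1, c2, fun I c => le_trans (by gcongr) (c3 I c)⟩).trans ?_
  have a3 : (Fintype.card 𝒞 : ℝ) ^ (⌊r0⌋₊ + 1) ≤ Real.exp ((⌊r0⌋₊ + 1 : ℕ) * Fintype.card 𝒞) := by
    rw [Real.exp_nat_mul]; gcongr; linarith [Real.add_one_le_exp (Fintype.card 𝒞 : ℝ)]
  refine mul_le_mul_of_nonneg_left ((mul_le_mul_of_nonneg_right a3 (by positivity)).trans ?_)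
    (by positivity)
  rw [← Real.exp_add, Real.exp_le_exp]
  have a4 := mul_le_mul_of_nonneg_right a2 (Real.log_nonneg (by rw [le_div_iff₀ hx]; linarith) :
    0 ≤ Real.log (1 / x))
  have a5 := mul_le_mul_of_nonneg_right (a1.trans (by nlinarith : _ ≤ 4 * r0 * (τ * N)))
    (Fintype.card 𝒞).cast_nonneg
  linarith

variable {V : Type} [Fintype V] [DecidableEq V] {p : ℝ}

theorem union_l (h0 : 0 ≤ p) (h1 : p ≤ 1) {𝒟 : Type} [Fintype 𝒟] (P : 𝒟 → Finset V)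
    (Q : 𝒟 → Finset (Sym2 V) → Prop) (Ev : 𝒟 → Finset (Sym2 V) → (Sym2 V → Bool) → Prop) {c : ℝ}
    (hc : Fintype.card 𝒟 ≤ Real.exp c) (h : ∀ z E0, E0 ⊆ btw (P z) univ → Q z E0 →
      Pr (fun _ => p) (Ev z E0) ≤ p ^ E0.card *
        Real.exp (-(c + Fintype.card V + (P z).card * Fintype.card V * p))) :
    Pr (fun _ => p) (fun ω => ∃ z, ∃ E0 ∈ (btw (P z) univ).powerset, Q z E0 ∧ Ev z E0 ω) ≤
      Real.exp (-Fintype.card V) := by
  have hP := isP_const (ι := Sym2 V) h0 h1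
  refine (Pr_all hP _ (y := Real.exp (-(c + Fintype.card V))) fun z => (Pr_exists_le hP _ _).trans
    ((Finset.sum_le_sum fun E0 hE => Pr_and_le _ _ hP (by positivity)
    (h z E0 (Finset.mem_powerset.1 hE))).trans ?_)).trans ?_
  · rw [← Finset.sum_mul]
    refine (mul_le_mul_of_nonneg_right (sum_pow_card _ h0) (Real.exp_pos _).le).trans ?_
    rw [← Real.exp_add, Real.exp_le_exp]
    have := mul_le_mul_of_nonneg_right (card_btw (P z) (univ : Finset V)) h0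
    rw [Finset.card_univ] at this
    linarith
  · refine (mul_le_mul_of_nonneg_right hc (Real.exp_pos _).le).trans_eq ?_
    rw [← Real.exp_add]; congr 1; ring

lemma card_fun_le {κ X : Type} [Fintype κ] [DecidableEq κ] [Fintype X] {c : ℝ}
    (h : Fintype.card X ≤ Real.exp c) :
    Fintype.card (κ → X) ≤ Real.exp (Fintype.card κ * c) := by
  rw [Fintype.card_fun, Nat.cast_pow, Real.exp_nat_mul]; gcongr

lemma card_prod_le {X Y : Type} [Fintype X] [Fintype Y] {c d : ℝ} (h : Fintype.card X ≤ Real.exp c)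
    (h' : Fintype.card Y ≤ Real.exp d) : Fintype.card (X × Y) ≤ Real.exp (c + d) := by
  rw [Fintype.card_prod, Nat.cast_mul, Real.exp_add]; gcongr

lemma disj_btw {P A B : Finset V} (h : Disjoint P A) (h' : Disjoint P B) :
    Disjoint (btw P univ) (btw A B) := Finset.disjoint_left.2 fun e a b => by
  obtain ⟨x, hx, y, -, rfl⟩ := mem_btw.1 a
  obtain ⟨u, hu, v, hv, f⟩ := mem_btw.1 b
  rcases Sym2.eq_iff.1 f with ⟨rfl, -⟩ | ⟨rfl, -⟩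
  exacts [Finset.disjoint_left.1 h hx hu, Finset.disjoint_left.1 h' hx hv]

lemma lr_test {κ : Type} (T : Finset κ) {Y U : κ → Finset V} {R Z : Finset V} (hd : Disjoint R Z)
    (hY : ∀ i ∈ T, Y i ⊆ R ∧ U i ⊆ Z) (priv : ∀ i ∈ T, ∀ j ∈ T, i ≠ j → Disjoint (Y i) (Y j))
    {α x y : ℝ} {e : κ → ℝ} (hα : 0 ≤ α) (hy : 0 ≤ y) (he : ∀ i ∈ T, x ≤ e i)
    {D : Finset (Sym2 V)} (h : ∀ i ∈ T, ¬ LR (gr D) α (e i) y (Y i) (U i)) :
    ∃ (A : Finset (Sym2 V)) (m : ℝ), T.card * (α * (x * y)) ≤ m ∧ (A ∩ D).card ≤ m ∧ ∀ I,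
      (∀ i ∈ T, LR (gr I) (2 * α * p) (e i) y (Y i) (U i)) → 2 * (p * m) ≤ (A ∩ I).card := by
  classical
  unfold LR at h
  push Not at h
  choose! Y' a1 U' a2 a3 a4 a5 using h
  have key : ∀ E, (((T.biUnion fun i => btw (Y' i) (U' i)) ∩ E).card : ℝ) =
      ∑ i ∈ T, eb (gr E) (Y' i) (U' i) := fun E => by
    rw [Finset.biUnion_inter, Finset.card_biUnion fun i hi j hj e => Finset.disjoint_left.2
      fun s a b => ?_, Nat.cast_sum]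
    · exact Finset.sum_congr rfl fun i hi => (sum_dg_eq (hd.mono ((a1 i hi).trans (hY i hi).1)
        ((a2 i hi).trans (hY i hi).2)) E).symm
    obtain ⟨x, hx, y, -, rfl⟩ := mem_btw.1 (Finset.mem_inter.1 a).1
    obtain ⟨u, hu, v, hv, f⟩ := mem_btw.1 (Finset.mem_inter.1 b).1
    rcases Sym2.eq_iff.1 f with ⟨rfl, -⟩ | ⟨rfl, -⟩
    · exact Finset.disjoint_left.1 (priv i hi j hj e) (a1 i hi hx) (a1 j hj hu)
    · exact Finset.disjoint_left.1 hd ((hY i hi).1 (a1 i hi hx)) ((hY j hj).2 (a2 j hj hv))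
  refine ⟨_, ∑ i ∈ T, α * ((Y' i).card * (U' i).card), ?_,
    key D ▸ Finset.sum_le_sum fun i hi => (a5 i hi).le, fun I hI => ?_⟩
  · rw [← nsmul_eq_mul]
    exact Finset.card_nsmul_le_sum _ _ _ fun i hi => by
      have := (he i hi).trans (a3 i hi)
      have := a4 i hi
      gcongr
  · rw [key, Finset.mul_sum, Finset.mul_sum]
    exact Finset.sum_le_sum fun i hi => le_trans (le_of_eq (by ring))
      (hI i hi _ (a1 i hi) _ (a2 i hi) (a3 i hi) (a4 i hi))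

lemma num_s {K k C c : ℝ} (h : ℕ) (hK : 0 ≤ K) (hk : 0 ≤ k) (hC : 0 ≤ C) (hc : 0 < c) :
    ∀ᶠ q : ℝ in atTop, ∀ τ p N : ℝ, 0 ≤ N → 0 ≤ τ → q ^ (3 * h + 5) * τ ≤ p →
      4 * (K * (4 * q ^ 3) ^ h) * (τ * N) * (k * Real.log (1 / (1 / q ^ 4)) + C) +
        p * (1 / q ^ 4) * N ≤ c * (p * N / q ^ 3) ∧
      4 * (K * (4 * q ^ 3) ^ h) * (τ * N) * k ≤ c * (p * N / q ^ 3) := by
  filter_upwards [eventually_ge_atTop 1, ev_large 2 hc, ev_large (8 * K * 4 ^ h * (4 * k + C)) hc]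
    with q q1 q2 q3 τ p N hN hτ hp
  have q0 : 0 < q := by linarith
  have p0 : 0 ≤ p := le_trans (by positivity) hp
  have a1 : Real.log (1 / (1 / q ^ 4)) ≤ 4 * q := by
    rw [one_div_one_div, Real.log_pow]
    have := Real.log_le_sub_one_of_pos q0
    push_cast; linarith
  have a2 : 4 * (K * (4 * q ^ 3) ^ h) * (τ * N) * ((4 * k + C) * q) ≤ c / 2 * (p * N / q ^ 3) := by
    rw [mul_div_assoc', le_div_iff₀ (by positivity)]
    calc _ = 8 * K * 4 ^ h * (4 * k + C) * (q ^ (3 * h + 4) * τ * N) / 2 := by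
          rw [mul_pow, ← pow_mul]; ring
      _ ≤ c * q * (q ^ (3 * h + 4) * τ * N) / 2 := by gcongr
      _ = c / 2 * (q ^ (3 * h + 5) * τ * N) := by ring
      _ ≤ _ := by gcongr
  have a3 : p * (1 / q ^ 4) * N ≤ c / 2 * (p * N / q ^ 3) := by
    rw [show p * (1 / q ^ 4) * N = 1 / q * (p * N / q ^ 3) by field_simp]
    exact mul_le_mul_of_nonneg_right (by rw [div_le_iff₀ q0]; linarith) (by positivity)
  have a4 : 0 ≤ 4 * (K * (4 * q ^ 3) ^ h) * (τ * N) := by positivity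
  have a5 : 0 ≤ c / 2 * (p * N / q ^ 3) := by positivity
  have a6 := mul_le_mul_of_nonneg_left (by nlinarith [mul_le_mul_of_nonneg_left a1 hk] :
    k * Real.log (1 / (1 / q ^ 4)) + C ≤ (4 * k + C) * q) a4
  have a7 := mul_le_mul_of_nonneg_left (by nlinarith : k ≤ (4 * k + C) * q) a4
  exact ⟨by linarith, by linarith⟩

variable {W : Type} [Fintype W] [DecidableEq W] {H : SimpleGraph W} {I : Finset W}

lemma CS.mono {F F' G G' : SimpleGraph V} {α α' ε β y y1 : ℝ} {X X' R Z : Finset V} {κ : Type}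
    {J J' : Finset κ} {θ : κ → W → V} {Y U : κ → W → Finset V}
    (h : CS H I F G α ε β y y1 X R Z J θ Y U) (hJ : J' ⊆ J)
    (hF : ∀ i a v, F.Adj (θ i a) v → F'.Adj (θ i a) v) (hX : ∀ i ∈ J', ∀ a, θ i a ∈ X')
    (hl : ∀ i ∈ J', ∀ a, LR G' α' (ε * (Y i a).card) (ε * Fintype.card V) (Y i a) (U i a)) :
    CS H I F' G' α' ε β y y1 X' R Z J' θ Y U :=
  ⟨fun i hi => mem_homs.2 ⟨hX i hi, fun a b e => hF _ _ _ ((mem_homs.1 (h.hom i (hJ hi))).2 a b e)⟩,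
    fun i hi j hj => h.inj i (hJ hi) j (hJ hj), fun i hi a =>
    let ⟨b1, b2, b3⟩ := h.hY i (hJ hi) a
    ⟨b1, fun v hv => hF _ _ _ (b2 v hv), b3⟩, fun i hi j hj => h.priv i (hJ hi) j (hJ hj),
    fun i hi => h.cap i (hJ hi), hl⟩

noncomputable def Ks (H : SimpleGraph W) (g : ℝ) : ℝ :=
  cc (eF H).card * (2 ^ Fintype.card W + 1 : ℕ) ^ (eF H).card * Kv (Fintype.card W) (eF H).card g

lemma Ks_pos {g : ℝ} (hg : 0 < g) : 0 < Kv (Fintype.card W) (eF H).card g ∧ 0 < Ks H g := by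
  have := two_le_cc (eF H).card
  have : 0 < Kv (Fintype.card W) (eF H).card g := by unfold Kv; positivity
  exact ⟨this, by unfold Ks; positivity⟩

/-- the numerical regime -/
structure Rg (H : SimpleGraph W) (I : Finset W) (n p τ τ' q : ℝ) (M : ℕ) : Prop where
  p1 : p ≤ 1
  t0 : 0 < τ'
  t1 : τ' ≤ τ
  t2 : τ ≤ p
  t3 : q ^ (3 * Fintype.card W + 5) * τ' ≤ p
  t4 : 1 ≤ τ' * n
  m1 : M * (q ^ 3 * p) ≤ 1
  m2 : 1 ≤ 2 * (M * (q ^ 3 * p))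
  s0 : ∀ S, 1 ≤ cross H I S → Nm H I τ n 1 S
  s2 : ∀ S, 1 ≤ cross H I S → (∃ u ∈ S, NI H I u) → 2 ≤ comps H I S →
    Nm H I τ' n ((4 * q ^ 3) ^ Fintype.card W) S
  s4 : ∀ S : Finset W, 3 ≤ S.card → (∃ u ∈ S, NI H I u) →
    (4 * q ^ 3) ^ Fintype.card W * n ^ 2 ≤ τ' ^ (eIn H S - 1) * n ^ S.card

lemma Rg.pn {n τ τ' q : ℝ} {M : ℕ} (h : Rg H I n p τ τ' q M) (hq : 1 ≤ q) :
    0 < p ∧ 1 ≤ n ∧ q ^ 5 ≤ p * n ∧ (0 : ℝ) < M := by
  have t0 := h.t0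
  have p0 := t0.trans_le (h.t1.trans h.t2)
  have n0 : 0 < n := (mul_pos_iff_of_pos_left t0).1 (one_pos.trans_le h.t4)
  refine ⟨p0, h.t4.trans (mul_le_of_le_one_left n0.le (h.t1.trans (h.t2.trans h.p1))),
    le_trans ?_ (mul_le_mul_of_nonneg_right h.t3 n0.le), ?_⟩
  · rw [mul_assoc]
    exact (pow_le_pow_right₀ hq (by omega)).trans (le_mul_of_one_le_right (by positivity) h.t4)
  · have := h.m2
    exact Nat.cast_pos.2 (Nat.pos_of_ne_zero fun e => by simp [e] at this; linarith)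

lemma half_good {M : ℕ} (P : Fin M → Prop) [DecidablePred P]
    (h : ¬ (M : ℝ) ≤ 2 * (univ.filter P).card) : (M : ℝ) ≤ 2 * (univ.filter fun i => ¬ P i).card := by
  have := (Nat.cast_inj (R := ℝ)).2 (Finset.card_filter_add_card_filter_not (s := univ) P)
  simp only [Finset.card_univ, Fintype.card_fin, Nat.cast_add] at this
  linarith

def Bd (H : SimpleGraph W) (I : Finset W) (τ K : ℝ) (E : Finset (Sym2 V)) (P Z : Finset V) : Prop :=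
  ∀ (_ : Nonempty V) (hτ : 0 < τ), ¬ Spr (tests H I V hτ one_pos) (Comp H I E P Z) K

lemma not_spr [Nonempty V] (hC : IsCloud H I) {τ κ0 g : ℝ} {hτ : 0 < τ} (hκ : 0 < κ0)
    {E E0 E1 : Finset (Sym2 V)} {P Z : Finset V} (h0 : E0 ⊆ E) (h1 : E1 ⊆ E)
    (h : Bd H I τ (Ks H g) E P Z) :
    ¬ Spr (tests H I V hτ hκ) (fun l => ∃ e ⊆ E1, Comp H I (E0 ∪ e) P Z l) (cc (eF H).card *
      (tests H I V hτ hκ).a ^ (eF H).card * Kv (Fintype.card W) (eF H).card g) := fun c =>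
  h _ hτ ((c.mono (fun _ ⟨_, b, f⟩ => f.mono hC (Finset.inter_subset_left.trans
    (Finset.union_subset h0 (b.trans h1))) Subset.rfl) le_rfl).kappa _)

end Pool.Agent.Lib.MP_46505f_co
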