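import Pool.Agent.Lib.MP_46505f_co.Hard

set_option autoImplicit false
set_option linter.unusedSectionVars false
open Finset Filter Topology
open Pool.Agent.Lib.MP_eaf82e_pr

namespace Pool.Agent.Lib.MP_46505f_co

/- The three local events. -/

variable {V : Type} [Fintype V] [DecidableEq V] {W : Type} [Fintype W] [DecidableEq W]
  {H : SimpleGraph W} {I : Finset W} {α ε ε' β β' δ : ℝ}

lemma card_le_exp : (Fintype.card V : ℝ) ≤ Real.exp (Fintype.card V) := by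
  linarith [Real.add_one_le_exp (Fintype.card V : ℝ)]

lemma Nm.mono {τ τ' n Q Q' : ℝ} {S : Finset W} (h : Nm H I τ' n Q S) (h0 : 0 ≤ τ') (h1 : τ' ≤ τ)
    (hn : 0 ≤ n) (hQ : Q' ≤ Q) : Nm H I τ n Q' S :=
  le_trans (by gcongr) (le_trans h (by gcongr))

lemma gr_inter {E D : Finset (Sym2 V)} {u v : V} (h : (gr E).Adj u v) (h' : s(u, v) ∈ D) :
    (gr (E ∩ D)).Adj u v := gr_adj.2 ⟨Finset.mem_inter.2 ⟨(gr_adj.1 h).1, h'⟩, h.ne⟩

lemma LR.zero (G : SimpleGraph V) (e1 e2 : ℝ) (Y U : Finset V) : LR G 0 e1 e2 Y U :=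
  fun _ _ _ _ _ _ => by rw [zero_mul]; positivity

lemma Rg.hn {n p τ τ' q g h : ℝ} {M : ℕ} (hR : Rg H I n p τ τ' q M) (hq : 1 ≤ q) (hg : 0 < g)
    (h1 : 4 * h ≤ g * q) : h * (4 * q ^ 3) ≤ g * (p * n) :=
  calc _ = 4 * h * q ^ 3 := by ring
    _ ≤ g * q * q ^ 4 := by gcongr; norm_num
    _ = g * q ^ 5 := by ring
    _ ≤ _ := by gcongr; exact (hR.pn hq).2.2.1

theorem evC [Nonempty W] (hC : IsCloud H I) (hP : Par (Fintype.card W) α ε ε' β β') (hδ : 0 < δ)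
    (hδ1 : δ ≤ 1) : ∃ c > 0, ∀ᶠ q : ℝ in atTop, ∀ (V : Type) [Fintype V] [DecidableEq V]
    (p τ τ' : ℝ) (M : ℕ), Rg H I (Fintype.card V) p τ τ' q M → τ ≤ c * p →
    1 ≤ τ ^ 2 * Fintype.card V → Pr (fun _ => p) (fun ω : Sym2 V → Bool => ∃ E ⊆ rs ω,
      ∃ (X R Z P : Finset V) (θ : Fin M → W → V) (Y U : Fin M → W → Finset V),
      CS H I (gr E) (gr E) (2 * α * p) ε β (δ * (p * Fintype.card V)) (2 * (p * Fintype.card V))
        X R Z univ θ Y U ∧ Disjoint X R ∧ Disjoint X Z ∧ Disjoint R Z ∧ X ⊆ P ∧ R ⊆ P ∧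
      Bd H I τ (Ks H (gv (Fintype.card W) α β δ)) E P Z) ≤ Real.exp (-Fintype.card V) := by
  classical
  obtain ⟨-, -, -, -, -, hg, -⟩ := hP.gv hδ hδ1
  obtain ⟨hα, hε, -, hβ⟩ := hP.pos
  obtain ⟨g, hg'⟩ : ∃ x, x = gv (Fintype.card W) α β δ := ⟨_, rfl⟩
  obtain ⟨h, hh⟩ : ∃ x : ℝ, x = Fintype.card W := ⟨_, rfl⟩
  have h1 : 1 ≤ h := by rw [hh]; exact_mod_cast Fintype.card_pos
  rw [← hg'] at hg ⊢
  obtain ⟨hK, hKs⟩ := Ks_pos (H := H) hg
  have hε1 : ε ≤ 1 := by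
    have a1 := hP.e2
    have a2 : α ^ (Fintype.card W + 1) * β ≤ 1 := mul_le_one₀ (pow_le_one₀ hα.le hP.le.1) hβ.le
      (hP.le.2.1.trans hP.le.2.2)
    rw [← hh] at a1
    nlinarith only [hh, h1, a1, a2, hε]
  obtain ⟨A, hA'⟩ : ∃ x, x = α * ε ^ 2 * δ := ⟨_, rfl⟩
  have hA : 0 < A := by rw [hA']; positivity
  have hA1 : A ≤ 1 := hA' ▸ mul_le_one₀ (mul_le_one₀ hP.le.1 (by positivity)
    (pow_le_one₀ hε.le hε1)) hδ.le hδ1
  obtain ⟨r0, hr0⟩ : ∃ x, x = 8 * h * Ks H g + 1 := ⟨_, rfl⟩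
  have r1 : 1 ≤ r0 := by rw [hr0]; linarith [mul_pos (by positivity : 0 < 8 * h) hKs]
  have hx : 0 < A / (256 * h) := by positivity
  have hx1 : A / (256 * h) ≤ 1 := by rw [div_le_one (by positivity)]; linarith
  have hlog : 0 ≤ Real.log (1 / (A / (256 * h))) :=
    Real.log_nonneg (by rw [le_div_iff₀ hx]; linarith)
  obtain ⟨c, ⟨⟨⟨c1, c2⟩, c3⟩, c4⟩, hc⟩ := (((((ev_small (1024 * r0 * h * ((eF H).card *
    Real.log (1 / (A / (256 * h))) + 1)) hA).and (ev_small (32 * r0 * h * (eF H).card) hA)).and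
    (ev_small (512 * h) hA)).and (ev_small 1 one_pos)).and self_mem_nhdsWithin).exists
  replace hc : 0 < c := hc
  refine ⟨c, hc, ?_⟩
  filter_upwards [eventually_ge_atTop 1, ev_large (4 * h) hg] with q q1 q2 V _ _ p τ τ' M hR hτp hτn
  obtain ⟨hp, hn1, -, hM⟩ := hR.pn q1
  have : Nonempty V := Fintype.card_pos_iff.1 (by exact_mod_cast one_pos.trans_le hn1)
  obtain ⟨n, hn⟩ : ∃ x : ℝ, x = Fintype.card V := ⟨_, rfl⟩
  have hτ : 0 < τ := hR.t0.trans_le hR.t1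
  have hM1 : (1 : ℝ) ≤ M := by exact_mod_cast Nat.cast_pos.1 hM
  have hQ : 1 ≤ 4 * q ^ 3 := by linarith [one_le_pow₀ (n := 3) q1]
  have hκ : 0 < 4 * q ^ 3 / (τ * (Fintype.card V : ℝ) ^ 2) := by positivity
  have b1 : 1 ≤ c * (p ^ 2 * n) := by
    rw [← hn] at hτn hn1
    calc _ ≤ (c * p) ^ 2 * n := hτn.trans (by gcongr)
      _ = c * (c * (p ^ 2 * n)) := by ring
      _ ≤ _ := mul_le_of_le_one_left (by positivity) (by linarith)
  have main := union_l (V := V) hp.le hR.p1 (𝒟 := (Fin M → W → V) × Finset V × Finset V ×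
    Finset V × (Fin M → W → Finset V) × (Fin M → W → Finset V))
    (fun z => univ.image fun x : Fin M × W => z.1 x.1 x.2)
    (fun z E0 => ∃ X, X = (univ.image fun x : Fin M × W => z.1 x.1 x.2) ∧
      CS H I (gr E0) ⊥ 0 ε β (δ * (p * Fintype.card V)) (2 * (p * Fintype.card V)) X z.2.1 z.2.2.1
      univ z.1 z.2.2.2.2.1 z.2.2.2.2.2 ∧ Disjoint X z.2.1 ∧ Disjoint X z.2.2.1 ∧
      Disjoint z.2.1 z.2.2.1 ∧ X ⊆ z.2.2.2.1 ∧ z.2.1 ⊆ z.2.2.2.1) _
    (card_prod_le (card_fun_le (card_fun_le card_le_exp)) (card_prod_le card_finset_le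
      (card_prod_le card_finset_le (card_prod_le card_finset_le (card_prod_le
      (card_fun_le (card_fun_le card_finset_le)) (card_fun_le (card_fun_le card_finset_le)))))))
    fun z E0 hE hz => (lcore'
      (𝒯 := tests H I V hτ hκ) (𝒞 := Unit) (N := 2 * h * (M * (p * n ^ 2))) (x := A / (256 * h))
      (η := 1 / 2) (m0 := M / 2 * (α * (ε * (δ * (p * n)) * (ε * n)))) (r0 := r0) hp.le hR.p1 hτ ?_
      hK (k0 := (eF H).card) (Nat.le_add_left _ _) (fun _ e => Comp H I (E0 ∪ e) z.2.2.2.1 z.2.2.1)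
      (fun D => (M : ℝ) ≤ 2 * (univ.filter fun i => ∀ a, LR (gr D) α (ε * (z.2.2.2.2.1 i a).card)
        (ε * Fintype.card V) (z.2.2.2.2.1 i a) (z.2.2.2.2.2 i a)).card)
      (fun D => ∀ i a, LR (gr D) (2 * α * p) (ε * (z.2.2.2.2.1 i a).card) (ε * Fintype.card V)
        (z.2.2.2.2.1 i a) (z.2.2.2.2.2 i a))
      (D0 := btw (univ.biUnion fun x : Fin M × W => z.2.2.2.2.1 x.1 x.2) z.2.2.1) (E0 := E0)
      ?_ ?_ ?_ r1 hx hx1 (by norm_num) (by norm_num) (fun D _ hD => ?_) ?_).trans ?_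
  · refine (Pr_mono (isP_const hp.le hR.p1) ?_).trans main
    rintro ω ⟨E, hE, X, R, Z, P, θ, Y, U, hS, d1, d2, d3, hX, hRP, hB⟩
    obtain ⟨X', hX'⟩ : ∃ X', X' = univ.image fun x : Fin M × W => θ x.1 x.2 := ⟨_, rfl⟩
    have a1 : ∀ i a, θ i a ∈ X' := fun i a => hX' ▸ Finset.mem_image.2 ⟨(i, a), mem_univ _, rfl⟩
    have a2 : X' ⊆ X := hX' ▸ Finset.image_subset_iff.2 fun x _ =>
      (mem_homs.1 (hS.hom x.1 (mem_univ _))).1 _
    have a3 : ∀ i a v, (gr E).Adj (θ i a) v → (gr (E ∩ btw X' univ)).Adj (θ i a) v :=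
      fun i a v h => gr_inter h (mem_btw.2 ⟨_, a1 i a, _, mem_univ _, rfl⟩)
    refine ⟨(θ, R, Z, P, Y, U), E ∩ btw X' univ, Finset.mem_powerset.2 (hX' ▸
      Finset.inter_subset_right), ⟨X', hX', hS.mono Subset.rfl a3 (fun i _ => a1 i)
      fun _ _ _ => LR.zero _ _ _ _ _, d1.mono_left a2, d2.mono_left a2, d3, a2.trans hX, hRP⟩,
      Finset.inter_subset_left.trans hE, E ∩ _, fun i a => (hS.lr i (mem_univ _) a).mono
      (fun y hy u hu h => gr_inter h (mem_btw.2 ⟨y, Finset.mem_biUnion.2 ⟨(i, a), mem_univ _, hy⟩,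
      u, (hS.hY i (mem_univ _) a).2.2.2.2 hu, rfl⟩)) le_rfl le_rfl le_rfl Subset.rfl Subset.rfl,
      Finset.inter_subset_right, Finset.inter_subset_left.trans hE, fun D _ hD => ⟨(), ?_,
      not_spr hC hκ Finset.inter_subset_left Finset.inter_subset_left hB⟩⟩
    rw [hg']
    exact val_cloud hC hP (hS.mono (subset_univ _) a3 (fun i _ => a1 i) fun i hi =>
      (Finset.mem_filter.1 hi).2) (d1.mono_left a2) (d2.mono_left a2) d3 (a2.trans hX) hRP hδ hδ1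
      hτ hτ le_rfl hR.t2 hR.p1 hQ (by
        nlinarith only [hD, q1, hp, hR.m2, mul_le_mul_of_nonneg_left hD (by positivity : 0 ≤ 2 * q ^ 3 * p)]) hκ
      le_rfl (hR.hn q1 (hg' ▸ hg) (hg' ▸ hh ▸ q2)) hR.s0 (fun S a _ => hR.s0 S a)
      fun S a b c => (hR.s2 S a b c).mono hR.t0.le hR.t1 (by positivity) le_rfl
  all_goals
    rw [← hn] at hn1 hτn
    obtain ⟨θ, R, Z, P, Y, U⟩ := z
    obtain ⟨X, hX, hS, d1, d2, d3, -, -⟩ := hz
    dsimp only at *
  · have : τ ^ 2 * n * 1 ≤ τ * p * n * (2 * h * M * n) := by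
      rw [sq]; gcongr; exacts [hR.t2, by nlinarith only [h1, hM1, hn1, hM, hh, mul_le_mul hM1 hn1 zero_le_one hM.le]]
    linarith
  · refine Finset.disjoint_of_subset_left hE (disj_btw (hX ▸ d1.mono_right ?_) (hX ▸ d2))
    exact Finset.biUnion_subset.2 fun x _ => (hS.hY _ (mem_univ _) _).1
  · refine (card_btw _ _).trans ?_
    have a1 := (Nat.cast_le (α := ℝ)).2 (Finset.card_biUnion_le (s := univ)
      (t := fun x : Fin M × W => Y x.1 x.2))
    have a2 := Finset.sum_le_card_nsmul univ (fun x : Fin M × W => ((Y x.1 x.2).card : ℝ)) _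
      fun x _ => (hS.hY x.1 (mem_univ _) x.2).2.2.2.1
    have a3 : (Z.card : ℝ) ≤ n := hn ▸ Nat.cast_le.2 (Finset.card_le_univ _)
    simp only [Finset.card_univ, Fintype.card_prod, Fintype.card_fin, nsmul_eq_mul, Nat.cast_mul,
      Nat.cast_sum, ← hh, ← hn] at a1 a2
    exact (mul_le_mul (a1.trans a2) a3 (by positivity) (by positivity)).trans_eq (by ring)
  · show _ * (Ks H g * τ * (4 * q ^ 3 / (τ * (Fintype.card V : ℝ) ^ 2))) ≤ _
    rw [← hn, hr0]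
    have : 2 * h * (M * (p * n ^ 2)) * (Ks H g * τ * (4 * q ^ 3 / (τ * n ^ 2))) =
      8 * h * Ks H g * (M * (q ^ 3 * p)) := by field_simp; norm_num
    nlinarith only [this, h1, hKs, mul_le_mul_of_nonneg_left hR.m1 (by positivity : 0 ≤ 8 * h * Ks H g)]
  · have a1 := half_good _ hD
    simp only [not_forall] at a1
    choose! f hf using fun i (h : i ∈ univ.filter fun i => ∃ a, ¬ LR (gr D) α (ε * (Y i a).card)
      (ε * Fintype.card V) (Y i a) (U i a)) => (Finset.mem_filter.1 h).2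
    obtain ⟨A0, m, a2, a3, a4⟩ := lr_test (p := p) _ (Y := fun i => Y i (f i))
      (U := fun i => U i (f i)) (x := ε * (δ * (p * n))) d3
      (fun i _ => ⟨(hS.hY i (mem_univ _) _).1, (hS.hY i (mem_univ _) _).2.2.2.2⟩)
      (fun i _ j _ e => hS.priv i (mem_univ _) j (mem_univ _) e _ _) hα.le (by positivity)
      (fun i _ => mul_le_mul_of_nonneg_left (hn ▸ (hS.hY i (mem_univ _) _).2.2.1) hε.le) hf
    have a5 : M / 2 * (α * (ε * (δ * (p * n)) * (ε * n))) ≤ m := by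
      refine le_trans ?_ a2
      rw [← hn] at a1 ⊢
      gcongr
      rw [div_le_iff₀' two_pos]
      convert a1
    refine ⟨A0, m, a5, a3, fun E hE => le_trans ?_ (a4 E fun i _ => hE i _)⟩
    have a6 := mul_le_mul_of_nonneg_left a5 hp.le
    have a7 := mul_le_mul_of_nonneg_right c2 (by positivity : 0 ≤ M * (p ^ 2 * n ^ 2))
    have a8 := mul_le_mul_of_nonneg_right hτp
      (by positivity : 0 ≤ 8 * r0 * h * (M * (p * n ^ 2)) * (eF H).card)
    rw [hA'] at a7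
    linarith
  · have a7 := mul_le_mul_of_nonneg_right c1 (by positivity : 0 ≤ M * (p ^ 2 * n ^ 2))
    have a8 := mul_le_mul_of_nonneg_right hτp (by positivity : 0 ≤ 8 * r0 * h * (M * (p * n ^ 2)) *
      ((eF H).card * Real.log (1 / (A / (256 * h))) + 1))
    have a9 : p * (A / (256 * h)) * (2 * h * (M * (p * n ^ 2))) = A * (M * (p ^ 2 * n ^ 2)) / 128 := by
      field_simp; norm_num
    rw [a9, Fintype.card_unit, Nat.cast_one]
    rw [hA'] at a7 ⊢
    rw [hA'] at a8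
    linarith
  · refine mul_le_mul_of_nonneg_left (Real.exp_le_exp.2 ?_) (by positivity)
    have a1 : ((univ.image fun x : Fin M × W => θ x.1 x.2).card : ℝ) ≤ M * h := by
      rw [hh]; exact_mod_cast Finset.card_image_le.trans_eq (by simp)
    have a2 := mul_le_mul a1 (mul_le_of_le_one_right (by linarith : 0 ≤ n) hR.p1) (by positivity)
      (by positivity)
    have a3 := mul_le_mul_of_nonneg_right c3 (by positivity : 0 ≤ M * (p ^ 2 * n ^ 2))
    have a4 := mul_le_mul_of_nonneg_right b1 (by positivity : 0 ≤ 512 * h * M * n)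
    have a5 := mul_le_mul_of_nonneg_right (mul_le_mul hM1 h1 zero_le_one hM.le) (by linarith : 0 ≤ n)
    simp only [Fintype.card_fin, ← hh, ← hn]
    rw [hA'] at a3
    linarith

lemma TS.mono {G G' : SimpleGraph V} {α' y : ℝ} {R A Z : Finset V} {κ : Type} {J J' : Finset κ}
    {Y U U' : κ → Finset V} (h : TS G α ε ε' β β' y R A Z J Y U U') (hJ : J' ⊆ J)
    (hl : ∀ i ∈ J', LR G' α' (ε * (Y i).card) (ε * Fintype.card V) (Y i) (U i ∪ U' i) ∧
      LR G' α' (ε' * (U i).card) (ε' * Fintype.card V) (U i) (U' i)) :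
    TS G' α' ε ε' β β' y R A Z J' Y U U' :=
  ⟨fun i hi => h.hY i (hJ hi), fun i hi j hj => h.priv i (hJ hi) j (hJ hj), hl⟩

theorem evT [Nonempty W] (hC : IsCloud H I) (hP : Par (Fintype.card W) α ε ε' β β') (hδ : 0 < δ)
    (hδ1 : δ ≤ 1) : ∃ c > 0, ∀ᶠ q : ℝ in atTop, ∀ (V : Type) [Fintype V] [DecidableEq V]
    (p τ τ' : ℝ) (M : ℕ), Rg H I (Fintype.card V) p τ τ' q M → τ ≤ c * p →
    1 ≤ τ ^ 2 * Fintype.card V → Pr (fun _ => p) (fun ω : Sym2 V → Bool => ∃ E ⊆ rs ω,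
      ∃ (R A Z P : Finset V) (Y U U' : Fin M → Finset V),
      TS (gr E) (2 * α * p) ε ε' β β' (δ * (p * Fintype.card V)) R A Z univ Y U U' ∧
      Disjoint R (A ∪ Z) ∧ Disjoint A Z ∧ R ⊆ P ∧ A ⊆ P ∧
      Bd H I τ (Ks H (gv (Fintype.card W) α β δ)) E P Z) ≤ Real.exp (-Fintype.card V) := by
  classical
  obtain ⟨-, -, -, -, -, hg, -⟩ := hP.gv hδ hδ1
  obtain ⟨hα, hε, hε', hβ⟩ := hP.pos
  obtain ⟨g, hg'⟩ : ∃ x, x = gv (Fintype.card W) α β δ := ⟨_, rfl⟩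
  rw [← hg'] at hg ⊢
  obtain ⟨hK, hKs⟩ := Ks_pos (H := H) hg
  obtain ⟨B, ⟨B1, B2⟩, hB⟩ := (((ev_small 128 (by positivity : 0 < α * ε ^ 2 * δ)).and
    (ev_small 32 (by positivity : 0 < α * ε' ^ 2 * β))).and self_mem_nhdsWithin).exists
  replace hB : 0 < B := hB
  refine ⟨min 1 (B / 8), by positivity, ?_⟩
  filter_upwards [eventually_ge_atTop 1, ev_large (4 * Fintype.card W) hg, num_s (K := Ks H g + 1)
    (k := (eF H).card) (C := 1) (Fintype.card W) (by positivity) (by positivity) zero_le_one hB]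
    with q q1 q2 q3 V _ _ p τ τ' M hR hτp hτn
  obtain ⟨hp, hn1, -, hM⟩ := hR.pn q1
  have : Nonempty V := Fintype.card_pos_iff.1 (by exact_mod_cast one_pos.trans_le hn1)
  obtain ⟨n, hn⟩ : ∃ x : ℝ, x = Fintype.card V := ⟨_, rfl⟩
  have hτ' := hR.t0
  have hτ : 0 < τ := hτ'.trans_le hR.t1
  have hM1 : (1 : ℝ) ≤ M := by exact_mod_cast Nat.cast_pos.1 hM
  have hQ : 1 ≤ 4 * q ^ 3 := by linarith [one_le_pow₀ (n := 3) q1]
  have hQ' := one_le_pow₀ (n := Fintype.card W) hQ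
  have hκ : 0 < (4 * q ^ 3) ^ Fintype.card W / (τ' * (Fintype.card V : ℝ) ^ 2) := by positivity
  have b1 : 8 ≤ B * (p ^ 2 * n) := by
    rw [← hn] at hτn hn1
    have a1 : τ * τ ≤ p * (B / 8 * p) := by
      gcongr; exacts [hR.t2, hτp.trans (by gcongr; exact min_le_right _ _)]
    nlinarith only [hτn, a1, hn1, mul_le_mul_of_nonneg_right a1 (by linarith : 0 ≤ n)]
  obtain ⟨b2, b3⟩ := q3 τ' p (n ^ 2) (by positivity) hτ'.le hR.t3
  have main := union_l (V := V) hp.le hR.p1 (𝒟 := Finset V × Finset V × Finset V × Finset V ×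
    (Fin M → Finset V) × (Fin M → Finset V) × (Fin M → Finset V)) (fun _ => ∅)
    (fun z E0 => TS ⊥ 0 ε ε' β β' (δ * (p * Fintype.card V)) z.1 z.2.1 z.2.2.1 univ z.2.2.2.2.1
      z.2.2.2.2.2.1 z.2.2.2.2.2.2 ∧ Disjoint z.1 (z.2.1 ∪ z.2.2.1) ∧ Disjoint z.2.1 z.2.2.1) _
    (card_prod_le card_finset_le (card_prod_le card_finset_le
      (card_prod_le card_finset_le (card_prod_le card_finset_le (card_prod_le
      (card_fun_le card_finset_le) (card_prod_le (card_fun_le card_finset_le)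
      (card_fun_le card_finset_le)))))))
    fun z E0 hE hz => (lcore' (𝒯 := tests H I V hτ hκ) (𝒞 := Unit) (N := n ^ 2) (x := 1 / q ^ 4)
      (η := 1 / 2) (m0 := 32 * B * (n ^ 2 / q ^ 3)) (τ := τ')
      (r0 := (Ks H g + 1) * (4 * q ^ 3) ^ Fintype.card W) hp.le hR.p1 hτ' ?_
      hK (k0 := (eF H).card) (Nat.le_add_left _ _) (fun _ e => Comp H I (E0 ∪ e) z.2.2.2.1 z.2.2.1)
      (fun D => (M : ℝ) ≤ 2 * (univ.filter fun i => LR (gr D) α (ε * (z.2.2.2.2.1 i).card)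
        (ε * Fintype.card V) (z.2.2.2.2.1 i) (z.2.2.2.2.2.1 i ∪ z.2.2.2.2.2.2 i)).card ∧
        ∀ i, LR (gr D) α (ε' * (z.2.2.2.2.2.1 i).card) (ε' * Fintype.card V) (z.2.2.2.2.2.1 i)
        (z.2.2.2.2.2.2 i))
      (fun D => ∀ i, LR (gr D) (2 * α * p) (ε * (z.2.2.2.2.1 i).card) (ε * Fintype.card V)
        (z.2.2.2.2.1 i) (z.2.2.2.2.2.1 i ∪ z.2.2.2.2.2.2 i) ∧ LR (gr D) (2 * α * p)
        (ε' * (z.2.2.2.2.2.1 i).card) (ε' * Fintype.card V) (z.2.2.2.2.2.1 i) (z.2.2.2.2.2.2 i))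
      (D0 := univ) (E0 := E0) ?_ (hn ▸ card_sym2_le) ?_ (by nlinarith only [hKs, hQ']) (by positivity)
      ((div_le_one (by positivity)).2 (one_le_pow₀ q1)) (by norm_num) (by norm_num)
      (fun D _ hD => ?_) ?_).trans ?_
  · refine (Pr_mono (isP_const hp.le hR.p1) ?_).trans main
    rintro ω ⟨E, hE, R, A, Z, P, Y, U, U', hS, d1, d2, hRP, hA, hB⟩
    refine ⟨(R, A, Z, P, Y, U, U'), ∅, Finset.empty_mem_powerset _, ⟨hS.mono Subset.rfl
      fun _ _ => ⟨LR.zero _ _ _ _ _, LR.zero _ _ _ _ _⟩, d1, d2⟩, Finset.empty_subset _, E,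
      fun i => hS.lr i (mem_univ _), subset_univ _, hE, fun D _ hD => ⟨(), ?_,
      not_spr hC hκ (Finset.empty_subset _) Subset.rfl hB⟩⟩
    rw [hg']
    exact val_tri hC hP (hS.mono (subset_univ _) fun i hi => ⟨(Finset.mem_filter.1 hi).2, hD.2 i⟩)
      hRP hA hδ hδ1 hτ hτ' hR.t1 hR.t2 hR.p1 hQ (by
        nlinarith only [hD, q1, hp, hR.m2, mul_le_mul_of_nonneg_left hD.1 (by positivity : 0 ≤ 2 * q ^ 3 * p)]) hκ
      le_rfl (hR.hn q1 (hg' ▸ hg) (hg' ▸ q2)) hR.s0 hR.s4 _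
  all_goals
    have t4 := hR.t4
    rw [← hn] at hn1 hτn t4
    obtain ⟨R, A, Z, P, Y, U, U'⟩ := z
    obtain ⟨hS, d1, d2⟩ := hz
    dsimp only at *
  · nlinarith only [hn1, t4]
  · have : E0 = ∅ := by simpa [btw] using hE
    simp [this]
  · show _ * (Ks H g * τ' * (_ / (τ' * (Fintype.card V : ℝ) ^ 2))) ≤ _
    rw [← hn]
    have : n ^ 2 * (Ks H g * τ' * ((4 * q ^ 3) ^ Fintype.card W / (τ' * n ^ 2))) =
      Ks H g * (4 * q ^ 3) ^ Fintype.card W := by field_simp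
    linarith
  · suffices h : ∃ (A0 : Finset (Sym2 V)) (m : ℝ), 32 * B * (n ^ 2 / q ^ 3) ≤ m ∧
        (A0 ∩ D).card ≤ m ∧ ∀ E, (∀ i, LR (gr E) (2 * α * p) (ε * (Y i).card) (ε * Fintype.card V)
        (Y i) (U i ∪ U' i) ∧ LR (gr E) (2 * α * p) (ε' * (U i).card) (ε' * Fintype.card V) (U i)
        (U' i)) → 2 * (p * m) ≤ (A0 ∩ E).card by
      obtain ⟨A0, m, a1, a2, a3⟩ := h
      refine ⟨A0, m, a1, a2, fun E hE => le_trans ?_ (a3 E hE)⟩
      have a4 := mul_le_mul_of_nonneg_left a1 hp.le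
      have a5 : 0 ≤ B * (p * n ^ 2 / q ^ 3) := by positivity
      rw [mul_div_assoc] at b3 a5
      linarith
    have a0 : n ^ 2 / q ^ 3 ≤ n ^ 2 := div_le_self (by positivity) (one_le_pow₀ q1)
    rcases not_and_or.1 hD with hD | hD
    · have a1 := half_good _ hD
      obtain ⟨A0, m, a2, a3, a4⟩ := lr_test (p := p) (Y := Y) (U := fun i => U i ∪ U' i)
        (x := ε * (δ * (p * n))) (y := ε * Fintype.card V) (D := D) (T := univ.filter fun i => ¬ LR
        (gr D) α (ε * (Y i).card) (ε * Fintype.card V) (Y i) (U i ∪ U' i)) d1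
        (fun i _ => let h := hS.hY i (mem_univ _)
          ⟨h.1, Finset.union_subset_union h.2.2.1 h.2.2.2.1⟩)
        (fun i _ j _ e => hS.priv i (mem_univ _) j (mem_univ _) e) hα.le (by positivity)
        (fun i _ => mul_le_mul_of_nonneg_left (hn ▸ (hS.hY i (mem_univ _)).2.1) hε.le)
        fun i hi => (Finset.mem_filter.1 hi).2
      refine ⟨A0, m, le_trans ?_ (le_trans (mul_le_mul_of_nonneg_right ((div_le_iff₀' two_pos).2 a1)
        ?_) a2), a3, fun E hE => a4 E fun i _ => (hE i).1⟩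
      swap
      · positivity
      rw [← hn, mul_div_assoc', div_le_iff₀ (by positivity)]
      have a5 := mul_le_mul_of_nonneg_right hR.m2 (by positivity : 0 ≤ α * ε ^ 2 * δ * n ^ 2)
      have a6 := mul_le_mul_of_nonneg_right B1 (by positivity : 0 ≤ n ^ 2)
      linarith
    · obtain ⟨i, hi⟩ := not_forall.1 hD
      have h := hS.hY i (mem_univ _)
      obtain ⟨A0, m, a2, a3, a4⟩ := lr_test (p := p) {i} (Y := U) (U := U') (x := ε' * (β * n))
        (e := fun i => ε' * (U i).card) (y := ε' * Fintype.card V) (D := D) d2 (by simpa using ⟨h.2.2.1, h.2.2.2.1⟩) (by simp) hα.le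
        (by positivity) (by simpa [hε', hn] using h.2.2.2.2.1) (by simpa using hi)
      refine ⟨A0, m, le_trans ?_ a2, a3, fun E hE => a4 E fun i _ => (hE i).2⟩
      rw [← hn, Finset.card_singleton, Nat.cast_one]
      have a5 := mul_le_mul B2 a0 (by positivity) (by positivity)
      linarith
  · rw [Fintype.card_unit, Nat.cast_one]
    exact b2.trans_eq (by ring)
  · refine mul_le_mul_of_nonneg_left (Real.exp_le_exp.2 ?_) (by positivity)
    have a1 : M * p ≤ 1 / q ^ 3 := by rw [le_div_iff₀ (by positivity)]; linarith [hR.m1]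
    have a2 := mul_le_mul_of_nonneg_right a1 (by positivity : 0 ≤ B * p * n ^ 2)
    have a3 := mul_le_mul_of_nonneg_right b1 (by positivity : 0 ≤ M * n)
    have a5 := mul_le_mul_of_nonneg_right hM1 (by linarith : 0 ≤ n)
    simp only [Fintype.card_fin, ← hn, Finset.card_empty, Nat.cast_zero]
    have a6 : p * (32 * B * (n ^ 2 / q ^ 3)) = 32 * (1 / q ^ 3 * (B * p * n ^ 2)) := by ring
    linarith

end Pool.Agent.Lib.MP_46505f_co
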