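import Pool.Agent.Lib.MP_46505f_co.Hard2

set_option autoImplicit false
set_option linter.unusedSectionVars false
open Finset Filter Topology
open Pool.Agent.Lib.MP_eaf82e_pr

namespace Pool.Agent.Lib.MP_46505f_co

/- The local step. -/

variable {V : Type} [Fintype V] [DecidableEq V] {W : Type} [Fintype W] [DecidableEq W]
  {H : SimpleGraph W} {I : Finset W} {α ε ε' β β' δ : ℝ} {k : ℕ}

structure LF (F : SimpleGraph V) (P R A Lo Pl : Finset V) (Z : Fin k → Finset V) (p q l c0 η : ℝ)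
    (Λ : ℕ → ℕ) (t : ℕ) : Prop where
  dj : Disjoint R A ∧ Disjoint R (univ.biUnion Z) ∧ Disjoint A (univ.biUnion Z)
  dP : Disjoint P R ∧ Disjoint P A ∧ Disjoint P (univ.biUnion Z)
  sub : P ⊆ Pl ∧ R ⊆ Pl ∧ A ⊆ Pl
  hP : ∀ x ∈ P, 2 * c0 * (p * Fintype.card V) ≤ dg F x R
  hX : Xp F p l
  s1 : 1 ≤ q * p * P.card
  s2 : P.card ≤ η * Fintype.card V
  hL : Lo.card ≤ Fintype.card V / q ^ 3
  col : ∃ t0 ≥ t, ¬ Col F P (Λ t0 + t0) ∧ ∀ X ⊆ P, q * X.card ≤ P.card → Col F X t0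

variable {F G : SimpleGraph V} {P R A Lo Lo' Pl : Finset V} {Z : Fin k → Finset V}
  {p q l c0 η ρ M0 a a1 g : ℝ} {Λ : ℕ → ℕ} {t h M : ℕ}

lemma LF.pre (hF : LF F P R A Lo Pl Z p q l c0 η Λ t) (hp1 : p ≤ 1) (hq : 1 ≤ q)
    (hqn : q ≤ p * Fintype.card V) (hM : M * (q ^ 3 * p) ≤ 1) (hc0 : 0 < c0) (hc1 : c0 ≤ 1)
    (hδ : 0 < δ) (hl : 0 ≤ l) (l1 : 24 * l ≤ c0 * q) (l2 : 16 * (h + 1) * l ≤ δ * q)
    (l3 : 32 * h ≤ δ * q) (hρ : 0 < ρ) (hA : ∀ v ∈ R \ Lo', a1 * Fintype.card V * ρ ≤ dg G v A)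
    (hZ : ∀ v ∈ (R ∪ A) \ Lo', a * Fintype.card V * ρ ≤ dg G v (univ.biUnion Z))
    (L1 : Lo'.card ≤ a1 / 16 * Fintype.card V) (L2 : 16 * Lo'.card ≤ c0 * Fintype.card V)
    (L3 : q ^ 2 * Lo'.card ≤ 3 * (P.card * (p * Fintype.card V))) (hU : UU G ρ g M0)
    (hM0 : M0 ≤ δ * Fintype.card V * (δ * (p * Fintype.card V))) : ∃ X ⊆ P, ∃ N, ∃ t0 ≥ t,
      Pre F G X R A Lo' Z N ρ (p * Fintype.card V) (P.card / q) M0 a a1 c0 g δ h M t0 ∧
      ¬ Col F X (Λ t0) := by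
  classical
  obtain ⟨t0, b1, b2, b3⟩ := hF.col
  obtain ⟨n, hn⟩ : ∃ x : ℝ, x = Fintype.card V := ⟨_, rfl⟩
  have n0 : 0 ≤ n := by rw [hn]; positivity
  have s1 := hF.s1
  have q0 : 0 < q := by linarith
  rw [← hn] at hqn L2 L3
  have hp : 0 < p := by
    by_contra c
    nlinarith only [hq, hqn, n0, c, mul_nonneg n0 (neg_nonneg.2 (not_lt.1 c))]
  have hpn : 0 < p * n := by linarith
  let U := P.filter fun x => c0 * (p * n) ≤ dg F x Lo'
  have hU1 := xp_few hF.hX (X := U) (fun v hv => (Finset.mem_filter.1 hv).2)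
    (by nlinarith only [L2, hp]) (by nlinarith only [hc0, l1, hq, hqn])
  have hU2 : q * U.card ≤ P.card := by
    refine le_of_mul_le_mul_right ?_ (by positivity : 0 < c0 * (p * n) * q)
    have := mul_le_mul L3 l1 (by positivity) (by positivity)
    have := mul_le_mul_of_nonneg_right hU1 (sq_nonneg q)
    linarith
  have key : ∀ x, ∃ N : Finset V, x ∈ P \ U → N ⊆ nb F x (R \ Lo') ∧ N.card = ⌈c0 * (p * n)⌉₊ :=
    fun x => by
    by_cases hx : x ∈ P \ U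
    swap
    · exact ⟨∅, fun h => absurd h hx⟩
    rw [Finset.mem_sdiff, Finset.mem_filter, not_and, not_le] at hx
    obtain ⟨N, hN⟩ := Finset.exists_subset_card_eq (s := nb F x (R \ Lo'))
      (n := ⌈c0 * (p * n)⌉₊) (Nat.ceil_le.2 (by
        have := dg_le_add F x (Q := R) (A := R \ Lo') (B := Lo') (by
          rw [Finset.sdiff_union_self_eq_union]; exact Finset.subset_union_left)
        have := hn ▸ hF.hP x hx.1
        have := hx.2 hx.1
        show _ ≤ ((dg F x (R \ Lo') : ℕ) : ℝ)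
        linarith))
    exact ⟨N, fun _ => hN⟩
  choose N hN using key
  refine ⟨P \ U, Finset.sdiff_subset, N, t0, b1, ⟨hρ, ⟨hn ▸ hpn, mul_le_of_le_one_left
    (by positivity) hp1⟩, hF.dj, fun x hx => ?_, hA, hZ, L1, hU, hM0, fun X c1 c2 => b3 X
    (c1.trans Finset.sdiff_subset) ((le_div_iff₀' q0).1 c2), fun B hB => ?_⟩,
    Col.sdiff b2 (b3 _ Finset.inter_subset_left (le_trans (by
      gcongr; exact Finset.inter_subset_right) hU2))⟩
  · obtain ⟨c1, c2⟩ := hN x hx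
    rw [c2, ← hn]
    have := (Nat.ceil_lt_add_one (by positivity : 0 ≤ c0 * (p * n))).le
    exact ⟨fun v hv => (mem_nb.1 (c1 hv)).1, fun v hv => (mem_nb.1 (c1 hv)).2, Nat.le_ceil _,
      by nlinarith only [hq, hqn, this, hc1, hc0]⟩
  · rw [← hn] at hB ⊢
    have q3 : q ≤ q ^ 3 := le_self_pow₀ hq (by norm_num)
    have c1 : M * p * q ≤ 1 := by
      linarith only [hM, q3, hp, mul_le_mul_of_nonneg_left q3 (by positivity : 0 ≤ M * p)]
    have c2 : 32 * h * (M * p) ≤ δ := by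
      linarith only [l3, hp, c1, hδ, mul_le_mul_of_nonneg_right l3 (by positivity : 0 ≤ M * p),
        mul_le_mul_of_nonneg_left c1 hδ.le]
    have c3 := xp_few hF.hX (X := (P \ U).filter fun x => δ * (p * n) ≤ (N x ∩ B).card) (N := B)
      (x := δ * (p * n)) (fun v hv => (Finset.mem_filter.1 hv).2.trans (Nat.cast_le.2
        (Finset.card_le_card fun u hu => mem_nb.2 ⟨(Finset.mem_inter.1 hu).2, (mem_nb.1 ((hN v
        (Finset.mem_filter.1 hv).1).1 (Finset.mem_inter.1 hu).1)).2⟩)))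
      (by linarith [mul_le_mul_of_nonneg_left hB hp.le, mul_le_mul_of_nonneg_right c2 hpn.le])
      (by linarith [mul_nonneg h.cast_nonneg hl, mul_le_mul_of_nonneg_left hqn hδ.le])
    rw [le_div_iff₀ q0]
    refine le_of_mul_le_mul_right ?_ (by positivity : 0 < δ * (p * n))
    have c4 : 16 * h * l ≤ δ * q := by linarith
    have c5 : M * q * q ≤ P.card := by
      have := mul_le_mul_of_nonneg_left s1 (by positivity : 0 ≤ M * q * q)
      linarith [mul_le_mul_of_nonneg_right hM (P.card.cast_nonneg (α := ℝ))]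
    have c6 := mul_le_mul_of_nonneg_right hB (by positivity : 0 ≤ 8 * l * q)
    have c7 := mul_le_mul_of_nonneg_right c4 (by positivity : 0 ≤ M * q * (p * n))
    have c8 := mul_le_mul_of_nonneg_right c5 (by positivity : 0 ≤ δ * (p * n))
    have c9 := mul_le_mul_of_nonneg_right c3 q0.le
    linarith

lemma deg_test {T B : Finset V} (hd : Disjoint T B) {D : Finset (Sym2 V)} {b : ℝ} {w : ℕ}
    (h : ¬ (T.filter fun v => (dg (gr D) v B : ℝ) < b).card < w) : ∃ A0 : Finset (Sym2 V),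
      (A0 ∩ D).card ≤ b * w ∧ ∀ E d, (∀ v ∈ T, d ≤ (dg (gr E) v B : ℝ)) → d * w ≤ (A0 ∩ E).card := by
  obtain ⟨X, a1, a2⟩ := Finset.exists_subset_card_eq (not_lt.1 h)
  have a3 : X ⊆ T := a1.trans (Finset.filter_subset _ _)
  refine ⟨btw X B, ?_, fun E d hE => ?_⟩ <;> rw [← sum_dg_eq (hd.mono_left a3), ← a2, mul_comm,
    ← nsmul_eq_mul]
  · exact Finset.sum_le_card_nsmul _ _ _ fun v hv => (Finset.mem_filter.1 (a1 hv)).2.le
  · exact Finset.card_nsmul_le_sum _ _ _ fun v hv => hE v (a3 hv)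

lemma UU_one (G : SimpleGraph V) (hg : 0 ≤ g) : UU G 1 g 0 := fun U W _ => by
  classical
  have := Finset.sum_le_card_nsmul U (fun u => (dg G u W : ℝ)) W.card fun u _ =>
    Nat.cast_le.2 (Finset.card_filter_le _ _)
  rw [nsmul_eq_mul] at this
  nlinarith [mul_nonneg hg (mul_nonneg U.card.cast_nonneg W.card.cast_nonneg)]

def StrP (H : SimpleGraph W) (I : Finset W) (k : ℕ) (a a1 c0 g α ε ε' β β' δ : ℝ) (Λ : ℕ → ℕ)
    (t : ℕ) : Prop := ∀ (V : Type) [Fintype V] [DecidableEq V] (F G : SimpleGraph V)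
  (X R A Lo : Finset V) (Z : Fin k → Finset V) (N : V → Finset V) (ρ y s M0 : ℝ) (M t0 : ℕ),
  Pre F G X R A Lo Z N ρ y s M0 a a1 c0 g δ (Fintype.card W) M t0 → t ≤ t0 →
  ¬ Col F X (Λ t0) → ∃ j, (∃ (θ : Fin M → W → V) (Y U : Fin M → W → Finset V),
    CS H I F G (2 * α * ρ) ε β (δ * y) (2 * y) X R (Z j) univ θ Y U) ∨
    ∃ Y U U' : Fin M → Finset V, TS G (2 * α * ρ) ε ε' β β' (δ * y) R A (Z j) univ Y U U'

/-- the local event -/
def LE (H : SimpleGraph W) (I : Finset W) (k : ℕ) (p q l τ K a a1 c0 η : ℝ) (Λ : ℕ → ℕ) (t : ℕ)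
    (E : Finset (Sym2 V)) : Prop := ∃ (P R A Lo Pl : Finset V) (Z : Fin k → Finset V),
  LF (gr (E ∩ btw P univ)) P R A Lo Pl Z p q l c0 η Λ t ∧
  (∀ v ∈ R, 3 * a1 * (p * Fintype.card V) ≤ dg (gr E) v A) ∧
  (∀ v ∈ (R ∪ A) \ Lo, a * (p * Fintype.card V) ≤ dg (gr E) v (univ.biUnion Z)) ∧
  ∀ j, Bd H I τ K E Pl (Z j)

lemma dg_sdiff {E : Finset (Sym2 V)} {v : V} {B : Finset V} (hv : v ∉ P) (hB : Disjoint P B) :
    (dg (gr E) v B : ℝ) ≤ dg (gr (E ∩ (univ \ btw P univ))) v B :=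
  Nat.cast_le.2 (Finset.card_le_card fun u hu => mem_nb.2 ⟨(mem_nb.1 hu).1, gr_inter (mem_nb.1 hu).2
    (Finset.mem_sdiff.2 ⟨mem_univ _, fun c => by
      obtain ⟨x, c1, y, -, c2⟩ := mem_btw.1 c
      rcases Sym2.eq_iff.1 c2 with ⟨rfl, -⟩ | ⟨-, rfl⟩
      exacts [hv c1, Finset.disjoint_left.1 hB c1 (mem_nb.1 hu).1]⟩)⟩)

theorem evL [Nonempty W] (hC : IsCloud H I) (hP : Par (Fintype.card W) α ε ε' β β') (hδ : 0 < δ)
    (hδ1 : δ ≤ 1) (hS : StrP H I k a a1 c0 g α ε ε' β β' δ Λ t) (hk : 0 < k) (hg : 0 < g)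
    (hg1 : g ≤ 1) (ha1 : 0 < a1) (ha : a1 ≤ a) (ha' : a ≤ 1) (hc0 : 0 < c0) (hc1 : c0 ≤ 1) :
    ∃ η > 0, ∃ c > 0, ∀ᶠ q : ℝ in atTop, ∀ (V : Type) [Fintype V] [DecidableEq V] (p τ τ' l : ℝ)
    (M : ℕ), Rg H I (Fintype.card V) p τ τ' q M → 0 ≤ l → l ≤ c * q →
    (∀ S, 1 ≤ cross H I S → (∃ u ∈ S, NI H I u) → Nm H I τ' (Fintype.card V) 1 S) →
    Pr (fun _ => p) (fun ω : Sym2 V → Bool => ∃ E ⊆ rs ω, LE H I k p q l τ
      (Ks H (gv (Fintype.card W) α β δ)) (a + 2 * g) a1 c0 η Λ t E) ≤ Real.exp (-Fintype.card V) := by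
  classical
  obtain ⟨-, -, -, -, -, hγ, -⟩ := hP.gv hδ hδ1
  have hα := hP.pos.1
  obtain ⟨γ, hγ'⟩ : ∃ x, x = gv (Fintype.card W) α β δ := ⟨_, rfl⟩
  rw [← hγ'] at hγ ⊢
  obtain ⟨hK, hKs⟩ := Ks_pos (H := H) hγ
  obtain ⟨B, hB'⟩ : ∃ x, x = g ^ 2 * a1 / 8 := ⟨_, rfl⟩
  have hB : 0 < B := by rw [hB']; positivity
  have B1 : B ≤ g ∧ B ≤ a1 := by
    have : g * a1 ≤ 1 := by nlinarith only [hg1, hg, ha, ha']
    have : g ^ 2 ≤ 1 := by nlinarith only [hg1, hg]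
    rw [hB']; constructor <;> nlinarith only [hg, ha, ha', hg1, ha1, this]
  obtain ⟨g', ⟨⟨⟨g1, g2⟩, g3⟩, g4⟩, hg'⟩ := (((((ev_small 48 ha1).and (ev_small 48 hc0)).and
    (ev_small 24 hc0)).and (ev_small (16 * (Fintype.card W + 1)) hδ)).and self_mem_nhdsWithin).exists
  replace hg' : 0 < g' := hg'
  have : Nonempty (Fin k) := ⟨⟨0, hk⟩⟩
  refine ⟨B / 2 * g', by positivity, g', hg', ?_⟩
  filter_upwards [eventually_ge_atTop 1, ev_large (4 * Fintype.card W) hγ, num_s (K := Ks H γ + 1)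
    (k := (eF H).card) (C := k) (Fintype.card W) (by positivity) (by positivity) (by positivity) hB,
    ev_large 1 hg', ev_large (2 * (6 + k)) hB, ev_large (32 * Fintype.card W) hδ]
    with q q1 q2 q3 q4 q5 q6 V _ _ p τ τ' l M hR hl0 hl s1
  obtain ⟨hp, hn1, hpn, hM⟩ := hR.pn q1
  have : Nonempty V := Fintype.card_pos_iff.1 (by exact_mod_cast one_pos.trans_le hn1)
  obtain ⟨n, hn⟩ : ∃ x : ℝ, x = Fintype.card V := ⟨_, rfl⟩
  have hτ' := hR.t0
  have hτ : 0 < τ := hτ'.trans_le hR.t1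
  have q0 : 0 < q := by linarith
  have hQ : 1 ≤ 4 * q ^ 3 := by linarith [one_le_pow₀ (n := 3) q1]
  have hQ' := one_le_pow₀ (n := Fintype.card W) hQ
  have hκ : 0 < (4 * q ^ 3) ^ Fintype.card W / (τ' * (Fintype.card V : ℝ) ^ 2) := by positivity
  obtain ⟨b2, b3⟩ := q3 τ' p (n ^ 2) (by positivity) hτ'.le hR.t3
  have b4 : ∀ j ≤ 5, q ^ j ≤ p * n := fun j hj => (pow_le_pow_right₀ q1 hj).trans (hn ▸ hpn)
  have n0 : 0 < n := by linarith only [ha, ha', g1, hg', hn1, hn]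
  let μ : Finset V → ℝ := fun P => min (g' * n) (P.card * (p * n) / q ^ 2)
  have hμ : ∀ P : Finset V, 1 ≤ q * p * P.card → P.card ≤ B / 2 * g' * Fintype.card V →
      n / q ^ 3 ≤ μ P ∧ P.card ≤ B / 2 * μ P := fun P h1 h2 => by
    refine ⟨le_min ?_ ?_, ?_⟩
    · rw [div_le_iff₀ (by positivity)]
      have : q ≤ q ^ 3 := le_self_pow₀ q1 (by norm_num)
      have : 1 ≤ g' * q ^ 3 := q4.trans (by gcongr)
      linarith [mul_le_mul_of_nonneg_right this n0.le]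
    · rw [div_le_div_iff₀ (by positivity) (by positivity)]
      linarith only [h1, n0, q1, mul_le_mul_of_nonneg_left h1 (by positivity : 0 ≤ n * q ^ 2)]
    · rw [mul_min_of_nonneg _ _ (by positivity)]
      refine le_min (by rw [← mul_assoc, hn]; exact h2) ?_
      rw [mul_div_assoc', le_div_iff₀ (by positivity)]
      have : q ^ 2 ≤ B / 2 * (p * n) := by
        have := mul_le_mul_of_nonneg_left (b4 3 (by norm_num)) hB.le
        linarith only [this, q5, sq_nonneg q, mul_le_mul_of_nonneg_right q5 (sq_nonneg q),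
          mul_nonneg k.cast_nonneg (sq_nonneg q)]
      linarith only [this, mul_le_mul_of_nonneg_left this (P.card.cast_nonneg (α := ℝ))]
  have main := union_l (V := V) hp.le hR.p1 (𝒟 := Finset V × Finset V × Finset V × Finset V ×
    Finset V × (Fin k → Finset V)) (fun z => z.1)
    (fun z E0 => LF (gr E0) z.1 z.2.1 z.2.2.1 z.2.2.2.1 z.2.2.2.2.1 z.2.2.2.2.2 p q l c0
      (B / 2 * g') Λ t) _
    (card_prod_le card_finset_le (card_prod_le card_finset_le (card_prod_le card_finset_le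
      (card_prod_le card_finset_le (card_prod_le card_finset_le (card_fun_le card_finset_le))))))
    fun z E0 hE hz => (lcore' (𝒯 := tests H I V hτ hκ) (𝒞 := Fin k) (N := n ^ 2) (x := 1 / q ^ 4)
      (η := g) (m0 := a1 * n * ⌈μ z.1⌉₊) (τ := τ')
      (r0 := (Ks H γ + 1) * (4 * q ^ 3) ^ Fintype.card W) hp.le hR.p1 hτ' ?_ hK (k0 := (eF H).card)
      (Nat.le_add_left _ _) (fun j e => Comp H I (E0 ∪ e) z.2.2.2.2.1 (z.2.2.2.2.2 j))
      (fun D => (z.2.1.filter fun v => (dg (gr D) v z.2.2.1 : ℝ) < a1 * n).card < ⌈μ z.1⌉₊ ∧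
        (((z.2.1 ∪ z.2.2.1) \ z.2.2.2.1).filter fun v =>
        (dg (gr D) v (univ.biUnion z.2.2.2.2.2) : ℝ) < a * n).card < ⌈μ z.1⌉₊)
      (fun E => (∀ v ∈ z.2.1, 3 * a1 * (p * n) ≤ dg (gr E) v z.2.2.1) ∧ ∀ v ∈ (z.2.1 ∪ z.2.2.1) \
        z.2.2.2.1, (a + 2 * g) * (p * n) ≤ dg (gr E) v (univ.biUnion z.2.2.2.2.2))
      (D0 := univ \ btw z.1 univ) (E0 := E0) (Finset.disjoint_sdiff.mono_left hE)
      ((Nat.cast_le.2 (Finset.card_le_univ _)).trans (hn ▸ card_sym2_le)) ?_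
      (one_le_mul_of_one_le_of_one_le (by linarith) hQ') (by positivity) ((div_le_one (by positivity)).2 (one_le_pow₀ q1)) hg.le hg1
      (fun D _ hD => ?_) ?_).trans ?_
  · refine (Pr_mono (isP_const hp.le hR.p1) ?_).trans main
    rintro ω ⟨E, hE, P, R, A, Lo, Pl, Z, hF, h1, h2, h3⟩
    obtain ⟨d1, d2, d3⟩ := hF.dP
    refine ⟨(P, R, A, Lo, Pl, Z), E ∩ btw P univ, Finset.mem_powerset.2 Finset.inter_subset_right,
      hF, Finset.inter_subset_left.trans hE, E ∩ _, ⟨fun v hv => (hn ▸ h1 v hv).trans (dg_sdiff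
      (Finset.disjoint_right.1 d1 hv) d2), fun v hv => (hn ▸ h2 v hv).trans (dg_sdiff
      (Finset.disjoint_right.1 (Finset.disjoint_union_right.2 ⟨d1, d2⟩) (Finset.mem_sdiff.1 hv).1)
      d3)⟩, Finset.inter_subset_right, Finset.inter_subset_left.trans hE, fun D _ ⟨c1, c2⟩ => ?_⟩
    dsimp only at c1 c2 ⊢
    obtain ⟨L1, hL1⟩ : ∃ x, x = R.filter fun v => (dg (gr D) v A : ℝ) < a1 * n := ⟨_, rfl⟩
    obtain ⟨L2, hL2⟩ : ∃ x, x = ((R ∪ A) \ Lo).filter fun v =>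
      (dg (gr D) v (univ.biUnion Z) : ℝ) < a * n := ⟨_, rfl⟩
    rw [← hL1, Nat.lt_ceil] at c1
    rw [← hL2, Nat.lt_ceil] at c2
    have c3 : ((Lo ∪ L1 ∪ L2).card : ℝ) ≤ 3 * μ P := by
      have := (Nat.cast_le (α := ℝ)).2 ((Finset.card_union_le (Lo ∪ L1) L2).trans
        (Nat.add_le_add_right (Finset.card_union_le _ _) _))
      have := (hn ▸ hF.hL).trans (hμ P hF.s1 hF.s2).1
      push_cast at *
      linarith
    have c4 : μ P ≤ g' * n := min_le_left _ _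
    have c5 : q ^ 2 * μ P ≤ P.card * (p * n) := (le_div_iff₀' (by positivity)).1 (min_le_right _ _)
    obtain ⟨X, e1, N, t0, e2, e3, e4⟩ := hF.pre (G := gr D) (Lo' := Lo ∪ L1 ∪ L2) (a := a)
      (a1 := a1) (h := Fintype.card W) hR.p1 q1 (by simpa [hn] using b4 1 (by norm_num)) hR.m1 hc0
      hc1 hδ hl0 (by linarith only [hl, g3, q0, mul_le_mul_of_nonneg_right g3 q0.le])
      ((mul_le_mul_of_nonneg_left hl (by positivity)).trans
        (by linarith only [g4, q0, mul_le_mul_of_nonneg_right g4 q0.le])) q6 one_pos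
      (fun v hv => by simp [hL1] at hv; simpa [hn] using hv.2.2.1 hv.1)
      (fun v hv => by
        simp only [hL2, Finset.mem_sdiff, Finset.mem_filter, Finset.mem_union, not_or, not_and,
          not_lt] at hv
        simpa [hn] using hv.2.2 ⟨hv.1, hv.2.1.1⟩)
      (by rw [← hn]; linarith only [c3, c4, g1, n0, mul_le_mul_of_nonneg_right g1 n0.le])
      (by rw [← hn]; linarith only [c3, c4, g2, n0, mul_le_mul_of_nonneg_right g2 n0.le])
      (by rw [← hn]; linarith [mul_le_mul_of_nonneg_left c3 (sq_nonneg q)])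
      (UU_one _ hg.le) (by positivity)
    obtain ⟨j, hj⟩ := hS V _ _ _ _ _ _ _ _ _ _ _ _ _ _ e3 e2 e4
    have e5 : Z j ⊆ univ.biUnion Z := Finset.subset_biUnion_of_mem Z (mem_univ j)
    have e6 : 1 ≤ 4 * q ^ 3 * p * (univ : Finset (Fin M)).card := by
      rw [Finset.card_fin]; linarith only [ha, ha', g1, hg', hR.m2, hR.m1]
    have e7 := hR.hn q1 hγ q2
    refine ⟨j, ?_, not_spr hC hκ Finset.inter_subset_left Finset.inter_subset_left (h3 j)⟩
    rw [hγ'] at e7 ⊢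
    rcases hj with ⟨θ, Y, U, hj⟩ | ⟨Y, U, U', hj⟩
    · exact val_cloud hC hP (hj.mono Subset.rfl (fun _ _ _ h => h)
        (fun i hi => (mem_homs.1 (hj.hom i hi)).1) fun i hi a => (hj.lr i hi a).mono
        (fun _ _ _ _ h => h) (by linarith) le_rfl le_rfl Subset.rfl Subset.rfl) (d1.mono_left e1)
        (d3.mono e1 e5) (hF.dj.2.1.mono_right e5) (e1.trans hF.sub.1) hF.sub.2.1 hδ hδ1 hτ hτ'
        hR.t1 hR.t2 hR.p1 hQ e6 hκ (by gcongr; exact le_self_pow₀ hQ Fintype.card_ne_zero) e7 hR.s0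
        s1 hR.s2
    · exact val_tri hC hP (hj.mono Subset.rfl fun i hi => ⟨(hj.lr i hi).1.mono
        (fun _ _ _ _ h => h) (by linarith only [hα]) le_rfl le_rfl Subset.rfl Subset.rfl, (hj.lr i hi).2.mono
        (fun _ _ _ _ h => h) (by linarith) le_rfl le_rfl Subset.rfl Subset.rfl⟩) hF.sub.2.1
        hF.sub.2.2 hδ hδ1 hτ hτ' hR.t1 hR.t2 hR.p1 hQ e6 hκ le_rfl e7 hR.s0 hR.s4 _
  all_goals
    have t4 := hR.t4
    rw [← hn] at hn1 t4
    obtain ⟨P, R, A, Lo, Pl, Z⟩ := z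
    dsimp only at *
    obtain ⟨w1, w2⟩ := hμ P hz.s1 hz.s2
    replace w1 := w1.trans (Nat.le_ceil _)
    replace w2 := w2.trans (mul_le_mul_of_nonneg_left (Nat.le_ceil _) (by positivity))
    have w3 : p * n ^ 2 / q ^ 3 ≤ p * n * ⌈μ P⌉₊ :=
      (show _ = p * n * (n / q ^ 3) by ring).trans_le (by gcongr)
  · linarith [mul_le_mul t4 hn1 zero_le_one (by positivity)]
  · show _ * (Ks H γ * τ' * (_ / (τ' * (Fintype.card V : ℝ) ^ 2))) ≤ _
    rw [← hn]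
    have : n ^ 2 * (Ks H γ * τ' * ((4 * q ^ 3) ^ Fintype.card W / (τ' * n ^ 2))) =
      Ks H γ * (4 * q ^ 3) ^ Fintype.card W := by field_simp
    linarith only [ha, ha', g1, hg', hQ', this]
  · have a0 : 0 ≤ p * n * ⌈μ P⌉₊ := by positivity
    rcases not_and_or.1 hD with hD | hD
    · obtain ⟨A0, a2, a3⟩ := deg_test hz.dj.1 hD
      refine ⟨A0, _, le_rfl, a2, fun E hE => le_trans ?_ (a3 E _ hE.1)⟩
      have := mul_le_mul B1.2 w3 (by positivity) ha1.le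
      linarith [mul_le_mul_of_nonneg_right hg1 (mul_nonneg ha1.le a0)]
    · obtain ⟨A0, a2, a3⟩ := deg_test ((Finset.disjoint_union_left.2 hz.dj.2).mono_left
        Finset.sdiff_subset) hD
      refine ⟨A0, _, by gcongr, a2, fun E hE => le_trans ?_ (a3 E _ hE.2)⟩
      have := mul_le_mul B1.1 w3 (by positivity) hg.le
      linarith [mul_le_mul_of_nonneg_right ha' (mul_nonneg hg.le a0)]
  · rw [Fintype.card_fin]
    exact b2.trans ((mul_le_mul_of_nonneg_left w3 hB.le).trans_eq (by rw [hB']; ring))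
  · refine mul_le_mul_of_nonneg_left (Real.exp_le_exp.2 ?_) (by positivity)
    have a1 : q * n ≤ p * n ^ 2 / q ^ 3 := by
      rw [le_div_iff₀ (by positivity)]
      linarith [mul_le_mul_of_nonneg_right (b4 4 (by norm_num)) n0.le]
    have a2 := mul_le_mul_of_nonneg_left (a1.trans w3) hB.le
    have a3 := mul_le_mul_of_nonneg_right q5 n0.le
    have a4 := mul_le_mul_of_nonneg_right w2 (by positivity : 0 ≤ p * n)
    simp only [Fintype.card_fin, ← hn]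
    rw [hB'] at a2 a3 a4
    linarith only [a2, a3, a4]

lemma UU.anti {η M : ℝ} (h : UU G p η M) (hF : F ≤ G) : UU F p η M := fun U W d =>
  le_trans (Finset.sum_le_sum fun u _ => Nat.cast_le.2 (dg_mono hF u Subset.rfl)) (h U W d)

theorem loc [Nonempty W] (hC : IsCloud H I) (hk : 0 < k) (hg : 0 < g) (ha1 : 0 < a1) (ha : a1 ≤ a)
    (ha' : a ≤ 1) (hc0 : 0 < c0) (hc1 : c0 ≤ 1) (hga : 4 * g ≤ a)
    (hT : IsThunder H I ∨ 1 + 14 * g ≤ 3 * a) : ∃ K > 0, ∃ η > 0, ∃ c > 0, ∃ (Λ : ℕ → ℕ) (t : ℕ),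
    (∀ t, t ≤ Λ t) ∧ ∀ᶠ q : ℝ in atTop, ∀ (V : Type) [Fintype V] [DecidableEq V] (p τ τ' l : ℝ)
    (M : ℕ), Rg H I (Fintype.card V) p τ τ' q M → τ ≤ c * p → 0 ≤ l → l ≤ c * q →
    ((∀ S, 1 ≤ cross H I S → (∃ u ∈ S, NI H I u) → Nm H I τ' (Fintype.card V) 1 S) ∨
      1 ≤ τ ^ 2 * Fintype.card V) → Pr (fun _ => p) (fun ω : Sym2 V → Bool => ∃ E ⊆ rs ω,
      LE H I k p q l τ K (a + 2 * g) a1 c0 η Λ t E) ≤ 3 * Real.exp (-Fintype.card V) := by
  have hg1 : g ≤ 1 := by linarith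
  obtain ⟨α, ε, ε', β, β', δ, hP, hδ, hδ1, Λ, t, hΛ, hS⟩ := struct hC hk hg hg1 ha1 hc0 hga hT
  obtain ⟨-, -, -, -, -, hγ, -⟩ := hP.gv hδ hδ1
  obtain ⟨η, hη, c1, hc1', h1⟩ := evL hC hP hδ hδ1 hS hk hg hg1 ha1 ha ha' hc0 hc1
  obtain ⟨c2, hc2, h2⟩ := evC hC hP hδ hδ1
  obtain ⟨c3, hc3, h3⟩ := evT hC hP hδ hδ1
  obtain ⟨c, ⟨⟨⟨⟨⟨⟨e1, e2⟩, e3⟩, e4⟩, e5⟩, e6⟩, e7⟩, hc⟩ := ((((((((ev_small 1 hc1').and
    (ev_small 1 hc2)).and (ev_small 1 hc3)).and (ev_small 24 hc0)).and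
    (ev_small (16 * (Fintype.card W + 1)) hδ)).and (ev_small 12 (by positivity :
    0 < g ^ 2 * δ ^ 2))).and (ev_small 1 one_pos)).and self_mem_nhdsWithin).exists
  replace hc : 0 < c := hc
  rw [one_mul] at e1 e2 e3 e7
  refine ⟨_, (Ks_pos (H := H) hγ).2, η, hη, c, hc, Λ, t, hΛ, ?_⟩
  filter_upwards [h1, h2, h3, eventually_ge_atTop 1, ev_large (32 * Fintype.card W) hδ,
    ev_large 16 ha1, ev_large 16 hc0] with q h1 h2 h3 q1 q2 q3 q4 V _ _ p τ τ' l M hR hτp hl0 hl hs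
  obtain ⟨hp, hn1, hpn, hM⟩ := hR.pn q1
  have q0 : 0 < q := by linarith
  rcases hs with hs | hs
  · exact (h1 V p τ τ' l M hR hl0 (hl.trans (by gcongr)) hs).trans
      (by linarith [Real.exp_pos (-(Fintype.card V : ℝ))])
  have hP' : IsP fun _ : Sym2 V => p := isP_const hp.le hR.p1
  have b1 := h2 V p τ τ' M hR (hτp.trans (by gcongr)) hs
  have b2 := h3 V p τ τ' M hR (hτp.trans (by gcongr)) hs
  have b3 := Pr_UU (V := V) hp.le hR.p1 hg.le hg1 (M := 12 * Fintype.card V / (g ^ 2 * p))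
    (by positivity)
  rw [show 2 * (Fintype.card V : ℝ) - g ^ 2 * (p * (12 * Fintype.card V / (g ^ 2 * p))) / 4 =
    -Fintype.card V by field_simp; norm_num] at b3
  have b4 := (Pr_or_le hP' _ _).trans (add_le_add b3 ((Pr_or_le hP' _ _).trans (add_le_add b1 b2)))
  refine (Pr_mono hP' ?_).trans (b4.trans_eq (by ring))
  rintro ω ⟨E, hE, P, R, A, Lo, Pl, Z, hF, a1', a2, a3⟩
  refine or_iff_not_imp_left.2 fun hU => ?_
  obtain ⟨n, hn⟩ : ∃ x : ℝ, x = Fintype.card V := ⟨_, rfl⟩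
  have hτ : 0 < τ := hR.t0.trans_le hR.t1
  have d1 : 1 ≤ c * (p ^ 2 * n) := by
    rw [← hn] at hs hn1
    calc _ ≤ (c * p) ^ 2 * n := hs.trans (by gcongr)
      _ = c * (c * (p ^ 2 * n)) := by ring
      _ ≤ _ := mul_le_of_le_one_left (by positivity) e7
  have d2 : Lo.card * q ^ 3 ≤ n := (le_div_iff₀ (by positivity)).1 (hn ▸ hF.hL)
  have d3 : Lo.card * q ≤ n := le_trans (by gcongr; exact le_self_pow₀ q1 (by norm_num)) d2
  have d4 : (0 : ℝ) ≤ Lo.card := by positivity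
  have n0 : 0 < n := by linarith only [hc1, e4, hc, hn1, hn]
  obtain ⟨X, f1, N, t0, f2, f3, f4⟩ := hF.pre (G := gr E) (Lo' := Lo) (a := a) (h := Fintype.card W)
    hR.p1 q1 ((le_self_pow₀ q1 (by norm_num)).trans hpn) hR.m1 hc0 hc1 hδ hl0
    (by linarith [mul_le_mul_of_nonneg_right e4 q0.le]) ((mul_le_mul_of_nonneg_left hl
    (by positivity)).trans (by linarith [mul_le_mul_of_nonneg_right e5 q0.le])) q2
    (a1 := a1) hp (fun v hv => le_trans (by rw [← hn]; linarith [mul_pos ha1 (mul_pos hp n0)])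
      (a1' v (Finset.mem_sdiff.1 hv).1))
    (fun v hv => le_trans (by rw [← hn]; linarith [mul_pos hg (mul_pos hp n0)]) (a2 v hv))
    (by rw [← hn]; linarith only [d3, ha1, q3, d4, mul_le_mul_of_nonneg_left d3 ha1.le, mul_le_mul_of_nonneg_left q3 d4])
    (by rw [← hn]; linarith only [d3, hc0, q4, d4, mul_le_mul_of_nonneg_left d3 hc0.le, mul_le_mul_of_nonneg_left q4 d4])
    (by
      rw [← hn]
      refine le_of_mul_le_mul_left ?_ q0
      linarith only [hc1, e4, hc, hn1, hn, d2, n0, mul_le_mul_of_nonneg_right hF.s1 n0.le])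
    ((not_not.1 hU).anti (gr_mono hE)) (by
      rw [← hn, div_le_iff₀ (by positivity)]
      linarith only [e6, hp, n0, d1, mul_le_mul_of_nonneg_right e6 (by positivity : 0 ≤ p ^ 2 * n * n),
        mul_le_mul_of_nonneg_right d1 n0.le])
  obtain ⟨j, hj⟩ := hS V _ _ _ _ _ _ _ _ _ _ _ _ _ _ f3 f2 f4
  have f5 : Z j ⊆ univ.biUnion Z := Finset.subset_biUnion_of_mem Z (mem_univ j)
  rcases hj with ⟨θ, Y, U, hj⟩ | ⟨Y, U, U', hj⟩
  · exact Or.inl ⟨E, hE, X, R, _, Pl, θ, Y, U, hj.mono Subset.rfl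
      (fun _ _ _ h => gr_mono Finset.inter_subset_left h) (fun i hi => (mem_homs.1 (hj.hom i hi)).1)
      hj.lr, hF.dP.1.mono_left f1, hF.dP.2.2.mono f1 f5, hF.dj.2.1.mono_right f5, f1.trans hF.sub.1,
      hF.sub.2.1, a3 j⟩
  · exact Or.inr ⟨E, hE, R, A, _, Pl, Y, U, U', hj, Finset.disjoint_union_right.2 ⟨hF.dj.1,
      hF.dj.2.1.mono_right f5⟩, hF.dj.2.2.mono_right f5, hF.sub.2.1, hF.sub.2.2, a3 j⟩

end Pool.Agent.Lib.MP_46505f_co
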