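import Pool.Agent.Lib.MP_46505f_co.Bridge
import Pool.Agent.Lib.MP_46505f_co.Core
import Pool.Agent.Lib.MP_46505f_co.Sup

set_option autoImplicit false
set_option linter.unusedSectionVars false
open Finset Filter Topology
open Pool.Agent.Lib.MP_eaf82e_pr

namespace Pool.Agent.Lib.MP_46505f_co

/- Upper bounds on the chromatic threshold, for fixed n. -/

variable {V : Type} [Fintype V] [DecidableEq V] {W : Type} [Fintype W] [DecidableEq W]

def Ev (H : SimpleGraph W) (d : ℝ) (w : ℕ) (V' P : Finset V) (E0 E : Finset (Sym2 V)) : Prop :=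
  E0 ⊆ E ∧ ∃ I, embs H (gr (E0 ∪ I)) V' = ∅ ∧ I ⊆ univ \ btw P univ ∧ I ⊆ E ∧
    ∀ X ⊆ V' \ P, X.card = w → d * w ≤ ∑ v ∈ X, (dg (gr I) v ((V' \ P) \ X) : ℝ)

variable {H : SimpleGraph W} {p : ℝ}

theorem union_core [Nonempty V] (h0 : 0 ≤ p) (h1 : p ≤ 1)
    (R : Finset V → Finset V → Finset (Sym2 V) → Prop) (w : Finset V → ℕ) {b r : ℕ}
    {a d K τ x η : ℝ} (hτ : 0 < τ) (hK : 0 < K) (hb : τ * (Fintype.card V : ℝ) ^ 2 ≤ b)
    (hr : cc (eF H).card * K < r) (hx : 0 < x) (hx1 : x ≤ 1) (e0 : 0 ≤ η) (e1 : η ≤ 1)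
    (hR : ∀ V' P E0, R V' P E0 → E0 ⊆ btw P univ ∧
      (∀ D, ((V' \ P).filter fun v => (dg (gr D) v (V' \ P) : ℝ) < a).card < w P →
        Sat H V' E0 D K τ) ∧
      ((eF H).card * b * r : ℕ) + (1 + η) * (p * (a * w P)) ≤ d * w P ∧
      ((eF H).card * b * r : ℕ) * Real.log (1 / x) + p * x * (Fintype.card V : ℝ) ^ 2 -
        η ^ 2 * (p * (a * w P)) / 4 ≤ -(3 * Fintype.card V) - P.card * Fintype.card V * p) :
    Pr (fun _ => p) (fun ω => ∃ V' P E0, R V' P E0 ∧ Ev H d (w P) V' P E0 (rs ω)) ≤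
      Real.exp (-Fintype.card V) := by
  have hP := isP_const (ι := Sym2 V) h0 h1
  refine (Pr_mono hP (F := fun ω => ∃ y ∈ (univ : Finset (Finset V × Finset V)),
    ∃ E0 ∈ (btw y.2 univ).powerset, R y.1 y.2 E0 ∧ Ev H d (w y.2) y.1 y.2 E0 (rs ω))
    fun ω ⟨V', P, E0, a1, a2⟩ => ⟨(V', P), mem_univ _, E0,
      Finset.mem_powerset.2 (hR _ _ _ a1).1, a1, a2⟩).trans ((Pr_exists_le hP _ _).trans ?_)
  refine (Finset.sum_le_card_nsmul _ _ (Real.exp (-(3 * Fintype.card V))) fun y _ => ?_).trans ?_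
  · refine (Pr_exists_le hP _ _).trans ((Finset.sum_le_sum (g := fun E0 : Finset (Sym2 V) =>
      Real.exp (-(3 * Fintype.card V) - y.2.card * Fintype.card V * p) * p ^ E0.card)
      fun E0 _ => ?_).trans ?_)
    · by_cases hy : R y.1 y.2 E0
      · obtain ⟨a1, a2, a3, a4⟩ := hR _ _ _ hy
        refine (Pr_mono hP fun ω h => h.2).trans ((core h0 h1 (y.1 \ y.2)
          (Finset.disjoint_sdiff.mono_left a1) _ hτ hK hb hr hx hx1 e0 e1
          (fun D _ hD => a2 D hD) a3).trans ?_)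
        rw [mul_comm]; gcongr
      · rw [Pr_false _ fun ω h => hy h.1]; positivity
    · rw [← Finset.mul_sum]
      refine (mul_le_mul_of_nonneg_left (sum_pow_card _ h0) (Real.exp_pos _).le).trans ?_
      rw [← Real.exp_add, Real.exp_le_exp]
      have := card_btw y.2 (univ : Finset V)
      rw [Finset.card_univ] at this
      nlinarith
  · rw [nsmul_eq_mul, Finset.card_univ, Fintype.card_prod, Fintype.card_finset]
    have : ((2 ^ Fintype.card V : ℕ) : ℝ) ≤ Real.exp (Fintype.card V) := by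
      rw [← mul_one (Fintype.card V : ℝ), Real.exp_nat_mul]
      push_cast
      gcongr
      linarith [Real.add_one_le_exp 1]
    calc _ ≤ Real.exp (Fintype.card V) * Real.exp (Fintype.card V) *
          Real.exp (-(3 * Fintype.card V)) := by rw [Nat.cast_mul]; gcongr
      _ = _ := by rw [← Real.exp_add, ← Real.exp_add]; congr 1; ring

lemma mk_Ev {E I : Finset (Sym2 V)} (hI : I ⊆ E) {V' P : Finset V} {d d' l : ℝ} {w : ℕ}
    (hp : 0 ≤ p) (hl : 0 ≤ l) (hH : embs H (gr I) V' = ∅) (hd : ∀ v ∈ V', d ≤ dg (gr I) v V')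
    (hX : Xp (gr E) p l)
    (h : d' * w + (4 * p * w * (P.card + w) + 4 * (w + (P.card + w)) * l) ≤ d * w) :
    Ev H d' w V' P (I ∩ btw P univ) E := by
  refine ⟨Finset.inter_subset_left.trans hI, I \ btw P univ, by
    rwa [Finset.union_comm, Finset.sdiff_union_inter], Finset.sdiff_subset_sdiff (subset_univ _)
    Subset.rfl, Finset.sdiff_subset.trans hI, fun X a1 a2 => ?_⟩
  have a3 := hX X (P ∪ X)
  have a4 : ((P ∪ X).card : ℝ) ≤ P.card + w := by exact_mod_cast a2 ▸ Finset.card_union_le P X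
  have a5 : ∑ v ∈ X, d ≤ ∑ v ∈ X, ((dg (gr (I \ btw P univ)) v ((V' \ P) \ X) : ℝ) +
      dg (gr E) v (P ∪ X)) := Finset.sum_le_sum fun v hv => by
    have hv' := Finset.mem_sdiff.1 (a1 hv)
    refine (hd v hv'.1).trans ?_
    norm_cast
    refine le_trans (Finset.card_le_card fun u hu => ?_) (Finset.card_union_le _ _)
    rw [mem_nb] at hu
    by_cases b : u ∈ P ∪ X
    · exact Finset.mem_union_right _ (mem_nb.2 ⟨b, gr_mono hI hu.2⟩)
    · rw [Finset.mem_union, not_or] at b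
      refine Finset.mem_union_left _ (mem_nb.2 ⟨by simp [hu.1, b.1, b.2], gr_adj.2
        ⟨Finset.mem_sdiff.2 ⟨(gr_adj.1 hu.2).1, fun c => ?_⟩, hu.2.ne⟩⟩)
      obtain ⟨x, c1, y, -, c2⟩ := mem_btw.1 c
      rcases Sym2.eq_iff.1 c2 with ⟨rfl, -⟩ | ⟨-, rfl⟩
      exacts [hv'.2 c1, b.1 c1]
  rw [Finset.sum_add_distrib, Finset.sum_const, nsmul_eq_mul, a2] at a5
  rw [a2] at a3
  have a6 : 4 * p * w * ((P ∪ X).card : ℝ) + 4 * (w + (P ∪ X).card) * l ≤
      4 * p * w * (P.card + w) + 4 * (w + (P.card + w)) * l := by gcongr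
  linarith

lemma M_le {k r : ℕ} {τ n : ℝ} (h : 1 ≤ τ * n ^ 2) :
    ((k * ⌈τ * n ^ 2⌉₊ * r : ℕ) : ℝ) ≤ 2 * k * r * (τ * n ^ 2) := by
  have := (Nat.ceil_lt_add_one (by linarith : 0 ≤ τ * n ^ 2)).le
  push_cast
  calc _ ≤ k * (2 * (τ * n ^ 2)) * (r : ℝ) := by gcongr; linarith
    _ = _ := by ring

theorem up_pi {r : ℕ} (col : W → Fin r) (hcol : ∀ a b, H.Adj a b → col a ≠ col b) {a d g : ℝ}
    (hg : 0 < g) (ha : 20 * g ≤ a) (ha1 : a ≤ 1) (hd : a + 3 * g ≤ d)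
    (hj : ∀ j : ℕ, 1 ≤ j → j < r → 2 * g ≤ j * a - (j - 1)) :
    ∃ c > 0, ∀ (V : Type) [Fintype V] [DecidableEq V] (p τ l : ℝ), p ≤ 1 → 0 < τ → τ ≤ c * p →
      1 ≤ τ * Fintype.card V → 0 ≤ l → l ≤ c * (p * Fintype.card V) →
      (∀ S : Finset W, 1 ≤ eIn H S →
        (Fintype.card V : ℝ) ^ 2 ≤ τ ^ (eIn H S - 1) * (Fintype.card V : ℝ) ^ S.card) →
      Pr (fun _ => p) (fun ω : Sym2 V → Bool => Bad H (d * (p * Fintype.card V)) 0 (rs ω) ∧
        Xp (gr (rs ω)) p l) ≤ Real.exp (-Fintype.card V) := by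
  obtain ⟨ρ, hρ'⟩ : ∃ x, x = (g ^ r) ^ (Fintype.card W + r) ^ r := ⟨_, rfl⟩
  have hρ : 0 < ρ := by rw [hρ']; positivity
  obtain ⟨K, hK'⟩ : ∃ x, x = 2 ^ Fintype.card W *
    ((2 * ((eF H).card : ℝ) + 1) ^ Fintype.card W / (ρ / 2)) := ⟨_, rfl⟩
  have hK : 0 < K := by rw [hK']; positivity
  obtain ⟨R, hR⟩ := exists_nat_gt (cc (eF H).card * K)
  obtain ⟨x, hx'⟩ : ∃ x, x = g ^ 2 * a * (g / 16) / 12 := ⟨_, rfl⟩
  have ha0 : 0 < a := by linarith
  have hg1 : g ≤ 1 := by linarith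
  have hx : 0 < x := by rw [hx']; positivity
  have hx1 : x ≤ 1 := by
    have : g ^ 2 * a * g ≤ 1 := mul_le_one₀ (mul_le_one₀ (pow_le_one₀ hg.le hg1) ha0.le ha1) hg.le hg1
    rw [hx']; linarith
  have hlog : 0 ≤ Real.log (1 / x) := Real.log_nonneg (by rw [le_div_iff₀ hx]; linarith)
  obtain ⟨c, ⟨⟨⟨⟨⟨c1, c2⟩, c3⟩, c4⟩, c5⟩, c6⟩, hc⟩ :=
    (((((((ev_small (2 * (eF H).card * R) (by positivity : 0 < g * (g / 16))).and
    (ev_small (2 * (eF H).card * R * Real.log (1 / x)) hx)).and (ev_small 3 hx)).and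
    (ev_small 16 hg)).and (ev_small (2 * (Fintype.card W : ℝ) ^ 2) hρ)).and
    (ev_small 1 one_pos)).and self_mem_nhdsWithin).exists
  replace hc : 0 < c := hc
  refine ⟨c, hc, fun V _ _ p τ l hp1 hτ hτp hτn hl0 hl hS => ?_⟩
  have hp : 0 < p := (mul_pos_iff_of_pos_left hc).1 (hτ.trans_le hτp)
  obtain ⟨n, hn'⟩ : ∃ x : ℝ, x = Fintype.card V := ⟨_, rfl⟩
  have hn : 0 < n := by
    rw [← hn'] at hτn
    exact (mul_pos_iff_of_pos_left hτ).1 (by linarith)
  have : Nonempty V := Fintype.card_pos_iff.1 (by rw [hn'] at hn; exact_mod_cast hn)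
  have hn1 : 1 ≤ n := by rw [hn']; exact_mod_cast Fintype.card_pos
  have b0 : 1 ≤ c * (p * n) := by rw [← hn'] at hτn; nlinarith only [hτp, hτ, hτn]
  have b1 : 1 ≤ c * n := b0.trans (by gcongr; nlinarith only [hp1, ha, ha1, c4, hc, hn'])
  have b2 : 1 ≤ g / 16 * n := by nlinarith only [hn', b1, c4, hg, c6]
  obtain ⟨w, hw'⟩ : ∃ x, x = ⌈g / 16 * n⌉₊ := ⟨_, rfl⟩
  have w1 : g / 16 * n ≤ w := hw' ▸ Nat.le_ceil _
  have w2 : w ≤ g / 8 * n := by
    have := (Nat.ceil_lt_add_one (by linarith : 0 ≤ g / 16 * n)).le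
    rw [← hw'] at this; linarith
  have hM := M_le (k := (eF H).card) (r := R) (τ := τ) (n := n) (by rw [← hn'] at hτn; nlinarith only [hp1, hτp, hτn, c6, hp, hτ])
  have hM' : 2 * (eF H).card * R * (τ * n ^ 2) ≤ 2 * (eF H).card * R * c * (p * n ^ 2) := by
    rw [mul_assoc _ c, ← mul_assoc c]; gcongr
  have := union_core (H := H) hp.le hp1 (fun V' P E0 => P = ∅ ∧ E0 = ∅ ∧ 2 * g * n ≤ V'.card)
    (fun _ => w) (a := a * n) (d := (d - g) * (p * n)) hτ hK (Nat.le_ceil _) hR hx hx1 hg.le hg1 (by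
      rintro V' P E0 ⟨rfl, rfl, hV⟩
      rw [← hn', Finset.sdiff_empty]
      refine ⟨Finset.empty_subset _, fun D hD => ?_, ?_, ?_⟩
      · rw [hw', Nat.lt_ceil] at hD
        have d1 := clique_count (gr D) V' _ r (d := a) hg.le
          (fun v hv h => hn' ▸ not_lt.1 fun h' => h (Finset.mem_filter.2 ⟨hv, h'⟩))
          (by rw [← hn']; nlinarith only [ha, ha1, c4, hc, b2, hV, hD]) fun j j1 j2 => by
            rw [← hn']; nlinarith only [ha, ha1, c4, hc, b2, hD, j1, j2, hn, mul_le_mul_of_nonneg_right (hj j j1 j2) hn.le]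
        have d2 := blowup H col hcol (gr D) V' (by positivity) (pow_le_one₀ hg.le hg1) d1
        rw [← hρ'] at d2
        obtain ⟨u, d3, d4, d5⟩ := hyp_copies H D V' (by positivity) hτ (by nlinarith only [hp1, hτp, c6, hp]) hS
          (card_embs H (gr D) V' d2 (by rw [← hn']; nlinarith only [b1, c5, hn', sq_nonneg (Fintype.card W : ℝ)]))
        exact ⟨_, le_rfl, u, hK' ▸ d3, d4, fun I hI => d5 I (by simpa using hI)⟩
      · have d1 : g * (g / 16) * (p * n ^ 2) ≤ g * (p * n) * w := by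
          calc _ = g * (p * n) * (g / 16 * n) := by ring
            _ ≤ _ := by gcongr
        have d2 : (1 + g) * a * (p * n * w) ≤ (d - 2 * g) * (p * n * w) := by
          gcongr; nlinarith only [hd, hg, ha1]
        have d3 := mul_le_mul_of_nonneg_right c1 (by positivity : 0 ≤ p * n ^ 2)
        linarith
      · have d1 : g ^ 2 * a * (p * n) * (g / 16 * n) ≤ g ^ 2 * a * (p * n) * w := by gcongr
        have d2 := mul_le_mul_of_nonneg_right (hM.trans hM') hlog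
        have d3 := mul_le_mul_of_nonneg_right c2 (by positivity : 0 ≤ p * n ^ 2)
        have d4 := mul_le_mul_of_nonneg_right c3 (by positivity : 0 ≤ p * n ^ 2)
        have d5 := mul_le_mul_of_nonneg_right b0 hn.le
        have d6 : x * (p * n ^ 2) = g ^ 2 * a * (p * n) * (g / 16 * n) / 12 := by rw [hx']; ring
        simp only [Finset.card_empty, Nat.cast_zero]
        linarith only [d1, d2, d3, d4, d5, d6])
  refine (Pr_mono (isP_const hp.le hp1) fun ω ⟨⟨V', I, a1, a2, a3, a4⟩, a5⟩ => ?_).trans this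
  rw [← hn'] at a3 hl
  have hV : (0 : ℝ) < V'.card := by exact_mod_cast (nonempty_of_not_col a4).card_pos
  have hl' : 16 * l ≤ g * (p * n) := by nlinarith only [hl, c4, hp, hn, mul_pos hp hn]
  refine ⟨V', ∅, ∅, ⟨rfl, rfl, ?_⟩, ?_⟩
  · have d1 := Finset.card_nsmul_le_sum _ _ _ a3
    have d2 := a5.mono (gr_mono a1) V' V'
    rw [nsmul_eq_mul] at d1
    have d3 : V'.card * (d * (p * n)) ≤ V'.card * (4 * p * V'.card + 8 * l) := by linarith
    have d4 := le_of_mul_le_mul_left d3 hV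
    refine le_of_mul_le_mul_left ?_ hp
    nlinarith only [hp, hn, hg, hl', d4, ha, hl0, hd, mul_pos hp hn]
  · have := mk_Ev (P := ∅) (d' := (d - g) * (p * n)) (w := w) a1 hp.le hl0 a2 a3 a5 (by
      simp only [Finset.card_empty, Nat.cast_zero, zero_add]
      have d1 := mul_le_mul_of_nonneg_left w2 (by positivity : 0 ≤ p * w)
      have d2 := mul_le_mul_of_nonneg_left hl' (by positivity : (0 : ℝ) ≤ w)
      linarith)
    simpa [btw] using this

def Reg (p q d η l : ℝ) (Λ t : ℕ) (V' P : Finset V) (E0 : Finset (Sym2 V)) : Prop :=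
  P ⊆ V' ∧ E0 ⊆ btw P univ ∧ 1 ≤ q * p * P.card ∧ P.card ≤ η * Fintype.card V ∧
  (∀ x ∈ P, d * (p * Fintype.card V) ≤ dg (gr E0) x V') ∧ Xp (gr E0) p l ∧
  ∃ (t0 : ℕ) (F : SimpleGraph V) (Δ δ : ℝ), t ≤ t0 ∧
    (∀ u ∈ P, ∀ v ∈ P, F.Adj u v → s(u, v) ∈ E0) ∧ ¬ Col F P (Λ * t0) ∧
    (∀ v ∈ P, (dg F v P : ℝ) ≤ Δ) ∧ t0 ≤ δ ∧ Δ ≤ 2 * q ^ 2 * δ ∧
    ∀ F' ≤ F, Oracle F' P (2 * t0) (P.card / q) δ

lemma Reg.prep {q d η l a g : ℝ} {Λ t : ℕ} {V' P : Finset V} {E0 D : Finset (Sym2 V)}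
    (h : Reg p q d η l (Λ + 2) t V' P E0) (hp : 0 < p) (hd : 0 < d) (hd1 : d ≤ 1) (hq : 2 ≤ q)
    (hqn : q ^ 2 ≤ p * Fintype.card V) (hl0 : 0 ≤ l) (hl : 100 * l ≤ d * q) {g' : ℝ} (h1 : η ≤ g')
    (h2 : 96 * g' ≤ d) (h3 : g' ≤ g) {Low : Finset V}
    (hL : ∀ v ∈ (V' \ P) \ Low, a * Fintype.card V ≤ dg (gr D) v (V' \ P))
    (hL1 : Low.card ≤ g' * Fintype.card V)
    (hL2 : Low.card ≤ P.card * (p * Fintype.card V) / q ^ 2) :
    ∃ X F N δ Δ t0, Prep V' X (V' \ P) Low F E0 D N p q a g (d / 2) (P.card / q) δ Δ t0 ∧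
      t ≤ t0 ∧ ¬ Col F X (Λ * t0) := by
  classical
  obtain ⟨a1, -, a3, a4, a5, a6, t0, F, Δ, δ, b1, b2, b3, b4, b5, b6, b7⟩ := h
  obtain ⟨n, hn'⟩ : ∃ x : ℝ, x = Fintype.card V := ⟨_, rfl⟩
  obtain ⟨m, hm'⟩ : ∃ x : ℝ, x = P.card := ⟨_, rfl⟩
  rw [← hn'] at hqn hL1 hL2 a4 a5
  rw [← hm'] at a3 a4 hL2
  have hq0 : 0 < q := by linarith
  have hm : 0 < m := (mul_pos_iff_of_pos_left (by positivity)).1 (one_pos.trans_le a3)
  have hn0 : 0 ≤ n := by rw [hn']; positivity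
  have hq2 : q ≤ q ^ 2 := by nlinarith only [hq]
  have hpn : 0 < p * n := by nlinarith only [hq, hqn, hq2]
  let M := univ.filter fun y => q ^ 5 * p * m < dg (gr E0) y P
  have hM : (M.card : ℝ) ≤ m := by
    have c1 := a6 P M
    have c2 := Finset.card_nsmul_le_sum M _ _ fun y hy => (Finset.mem_filter.1 hy).2.le
    rw [sum_dg_comm, ← hm'] at c1
    rw [nsmul_eq_mul] at c2
    have c0 : (0 : ℝ) ≤ M.card := by positivity
    have c3 : 4 * l ≤ q := by nlinarith only [hd1, hq, hl]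
    have c4 : 4 * l * M.card ≤ q * (q * p * m) * M.card :=
      mul_le_mul_of_nonneg_right (c3.trans (le_mul_of_one_le_right hq0.le a3)) c0
    have c5 : 4 + q ^ 2 + q ^ 2 ≤ q ^ 5 := by
      have : 8 * q ^ 2 ≤ q ^ 3 * q ^ 2 := by
        gcongr; exact le_of_eq_of_le (by norm_num) (pow_le_pow_left₀ zero_le_two hq 3)
      nlinarith only [hq, hq2, this]
    have c6 := mul_le_mul_of_nonneg_right c5 (by positivity : 0 ≤ p * m * M.card)
    have c7 : q * (q * p * m) * M.card ≤ q * m := by nlinarith only [c1, c2, c4, c6, c3, hm, mul_le_mul_of_nonneg_right c3 hm.le]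
    have c8 := mul_le_mul_of_nonneg_right a3 (by positivity : 0 ≤ q * M.card)
    exact le_of_mul_le_mul_left (by linarith) hq0
  let B := Low ∪ M ∪ P
  have hB : (B.card : ℝ) ≤ Low.card + 2 * m := by
    have : B.card ≤ Low.card + M.card + P.card := (Finset.card_union_le _ _).trans
      (Nat.add_le_add_right (Finset.card_union_le _ _) _)
    have := (Nat.cast_le (α := ℝ)).2 this
    push_cast at this
    linarith
  let U := P.filter fun x => d / 2 * (p * n) < dg (gr E0) x B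
  have hU : (U.card : ℝ) < m / q := by
    have c1 := a6 U B
    have c2 := Finset.card_nsmul_le_sum U _ _ fun y hy => (Finset.mem_filter.1 hy).2.le
    rw [nsmul_eq_mul] at c2
    have c0 : (0 : ℝ) ≤ U.card := by positivity
    have c3 : (B.card : ℝ) ≤ d / 32 * n := by nlinarith only [h1, h2, hp, hL1, a4, hB, hqn]
    have c4 : (B.card : ℝ) * q ^ 2 ≤ 3 * m * (p * n) := by
      rw [le_div_iff₀ (by positivity)] at hL2
      nlinarith only [hL2, hB, hqn, hm, mul_le_mul_of_nonneg_right hB (sq_nonneg q), mul_le_mul_of_nonneg_left hqn hm.le]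
    have c5 := mul_le_mul_of_nonneg_left c3 (by positivity : 0 ≤ 4 * p * U.card)
    have c6 : 4 * l ≤ d / 8 * (p * n) := by nlinarith only [hl, hp, c3, hd, hqn, hq2]
    have c7 := mul_le_mul_of_nonneg_left c6 c0
    have c8 : U.card * (d / 4 * (p * n)) ≤ 4 * l * B.card := by linarith
    have c9 : 4 * l * B.card * q ^ 2 ≤ d * q / 25 * (3 * m * (p * n)) := by
      rw [mul_assoc]; gcongr; linarith
    rw [lt_div_iff₀ hq0]
    refine lt_of_mul_lt_mul_right ?_ (by positivity : 0 ≤ d / 4 * (p * n) * q)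
    have := mul_le_mul_of_nonneg_right c8 (sq_nonneg q)
    have : 0 < d * q * m * (p * n) := by positivity
    linarith
  have hUc : Col F U (2 * t0) := by
    by_contra c
    obtain ⟨Q, c1, -, c2, -⟩ := b7 F le_rfl U (Finset.filter_subset _ _) c
    rw [← hm'] at c2
    exact absurd (c2.trans (Nat.cast_le.2 (Finset.card_le_card c1))) (not_le.2 hU)
  have key : ∀ x, ∃ N : Finset V, x ∈ P \ U → N ⊆ nb (gr E0) x (V' \ B) ∧
      N.card = ⌈d / 2 * (p * n)⌉₊ := fun x => by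
    by_cases hx : x ∈ P \ U
    swap
    · exact ⟨∅, fun h => absurd h hx⟩
    rw [Finset.mem_sdiff, Finset.mem_filter, not_and, not_lt] at hx
    have c1 := (dg_mono le_rfl x (V'.subset_union_left.trans_eq
      Finset.sdiff_union_self_eq_union.symm)).trans (dg_union_le (gr E0) x (V' \ B) B)
    have c2 := (Nat.cast_le (α := ℝ)).2 c1
    push_cast at c2
    obtain ⟨N, hN⟩ := Finset.exists_subset_card_eq (s := nb (gr E0) x (V' \ B))
      (n := ⌈d / 2 * (p * n)⌉₊) (Nat.ceil_le.2 (by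
        have := a5 x hx.1
        have := hx.2 hx.1
        show _ ≤ ((dg (gr E0) x (V' \ B) : ℕ) : ℝ)
        linarith))
    exact ⟨N, fun _ => hN⟩
  choose N hN using key
  have hsd : P \ U ⊆ P := Finset.sdiff_subset
  refine ⟨P \ U, F, N, δ, Δ, t0, ⟨hsd.trans a1, Finset.sdiff_subset,
    Finset.disjoint_sdiff.mono_left hsd, fun u hu v hv => b2 u (hsd hu) v (hsd hv),
    fun v hv => le_trans (Nat.cast_le.2 (dg_mono le_rfl v hsd)) (b4 v (hsd hv)), b5, b6,
    fun F' hF' => (b7 F' hF').mono hsd, ?_, fun x hx => ?_, fun y => ?_, ?_, hL⟩, b1,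
    fun c => b3 ((c.union hUc).mono le_rfl ?_ (le_of_eq (by ring)))⟩
  · rw [mul_div_cancel₀ _ hq0.ne']; exact Nat.cast_le.2 (Finset.card_le_card hsd)
  · obtain ⟨c1, c2⟩ := hN x hx
    rw [c2, ← hn']
    refine ⟨fun y hy => ?_, fun y hy => (gr_adj.1 (mem_nb.1 (c1 hy)).2).1, Nat.le_ceil _, ?_⟩
    · have := (mem_nb.1 (c1 hy)).1
      simp only [B, Finset.mem_sdiff, Finset.mem_union] at this ⊢
      tauto
    · have := (Nat.ceil_lt_add_one (by positivity : 0 ≤ d / 2 * (p * n))).le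
      nlinarith only [hq, hqn, hq2, this, hd1, hd]
  · rw [← hm']
    by_cases hy : y ∈ M
    · rw [Finset.filter_eq_empty_iff.2 fun x hx h => ?_]
      · simp only [Finset.card_empty, Nat.cast_zero]; positivity
      · exact (Finset.mem_sdiff.1 (mem_nb.1 ((hN x hx).1 h)).1).2 (by simp [B, hy])
    · rw [Finset.mem_filter, not_and, not_lt] at hy
      refine le_trans (Nat.cast_le.2 (Finset.card_le_card fun x hx => ?_))
        ((hy (mem_univ _)).trans_eq (by field_simp))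
      rw [Finset.mem_filter] at hx
      exact mem_nb.2 ⟨hsd hx.1, (mem_nb.1 ((hN x hx.1).1 hx.2)).2.symm⟩
  · rw [← hn']; nlinarith only [h3, hp, hL1, hqn]
  · rw [Finset.sdiff_union_self_eq_union]; exact Finset.subset_union_left

lemma exists_small_part {F : SimpleGraph V} {m t : ℕ} : ∀ (k : ℕ) (U : Finset V),
    U.card ≤ k * m → ¬ Col F U (k * t) → ∃ U' ⊆ U, U'.card ≤ m ∧ ¬ Col F U' t := by
  intro k
  induction k with
  | zero =>
    intro U h1 h2
    rw [zero_mul, Nat.le_zero, Finset.card_eq_zero] at h1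
    exact absurd (h1 ▸ col_empty F _) h2
  | succ k ih =>
    intro U h1 h2
    obtain ⟨A, a1, a2⟩ := Finset.exists_subset_card_eq (min_le_left U.card m)
    by_cases c : Col F A t
    · obtain ⟨U', b⟩ := ih (U \ A) (by
        rw [Finset.card_sdiff_of_subset a1, a2, add_mul] at *; omega) fun c' =>
        h2 (((c'.union c).mono le_rfl (by
          rw [Finset.sdiff_union_self_eq_union]; exact Finset.subset_union_left)
          (le_of_eq (by ring))))
      exact ⟨U', b.1.trans Finset.sdiff_subset, b.2⟩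
    · exact ⟨A, a1, a2 ▸ min_le_right _ _, c⟩

lemma reduce {E : Finset (Sym2 V)} {q d η l : ℝ} {Λ t L k C1 : ℕ} (hΛ : 1 ≤ Λ) (ht : 1 ≤ t)
    (ht1 : C1 ≤ t) (hq : 1 ≤ q) (hL : (Fintype.card V : ℝ) ≤ q ^ L)
    (hk : Fintype.card V ≤ k * ⌊η * Fintype.card V⌋₊) (hη : 0 ≤ η) {V' : Finset V}
    {I : Finset (Sym2 V)} (hI : I ⊆ E) (hd : ∀ v ∈ V', d * (p * Fintype.card V) ≤ dg (gr I) v V')
    (hC : ¬ Col (gr I) V' (k * (t * (Λ + 1) ^ (2 * L + 1)))) (hX : Xp (gr E) p l)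
    (hS : Sp (gr E) (q * p) C1) : ∃ P, Reg p q d η l Λ t V' P (I ∩ btw P univ) := by
  obtain ⟨U, a1, a2, a3⟩ := exists_small_part k V' ((Finset.card_le_univ _).trans hk) hC
  obtain ⟨t0, P, F, Δ, δ, b1, b2, b3, b4, b5⟩ := scale_regular Λ t L hΛ ht q hq hL _ _ a3
  have key : ∀ x ∈ P, ∀ u, (gr I).Adj x u → s(x, u) ∈ I ∩ btw P univ := fun x hx u h =>
    Finset.mem_inter.2 ⟨(gr_adj.1 h).1, mem_btw.2 ⟨x, hx, u, mem_univ _, rfl⟩⟩
  refine ⟨P, b2.trans a1, Finset.inter_subset_right, not_lt.1 fun c => b4 ?_, ?_, fun x hx => ?_,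
    hX.mono (gr_mono (Finset.inter_subset_left.trans hI)), t0, F, Δ, δ, b1,
    fun u hu v _ h => key u hu v (b3 h), b4, b5⟩
  · exact (hS P c.le).mono (b3.trans (gr_mono hI)) Subset.rfl (by nlinarith only [ht1, b1, hΛ])
  · exact le_trans (Nat.cast_le.2 ((Finset.card_le_card b2).trans a2))
      (Nat.floor_le (by positivity))
  · refine (hd x (a1 (b2 hx))).trans (Nat.cast_le.2 (Finset.card_le_card fun u hu => ?_))
    rw [mem_nb] at hu ⊢
    exact ⟨hu.1, gr_adj.2 ⟨key x hx u hu.2, hu.2.ne⟩⟩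

theorem up_cloud [Nonempty W] {I : Finset W} (hC : IsCloud H I) {a d g : ℝ} (hg : 0 < g)
    (ha : 3 * g ≤ a) (hd : a + 3 * g ≤ d) (hd1 : d ≤ 1) (hT : IsThunder H I ∨ 1 + 9 * g ≤ 3 * a)
    (L C1 : ℕ) : ∃ (C : ℕ) (q0 : ℝ), ∀ (V : Type) [Fintype V] [DecidableEq V] (p τ l q : ℝ),
      p ≤ 1 → 0 < τ → q0 ≤ q → q ^ (6 * (Fintype.card W + 3) ^ 3 + 6) * τ ≤ p →
      1 ≤ τ * Fintype.card V → 0 ≤ l → q0 * l ≤ q → (Fintype.card V : ℝ) ≤ q ^ L →
      (∀ S : Finset W, 1 ≤ cross H I S → (Fintype.card V : ℝ) ^ 2 ≤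
        τ ^ (cross H I S - 1 + ((S \ I).card - comps H I S)) * (Fintype.card V : ℝ) ^ S.card) →
      (∀ S : Finset W, 1 ≤ eIn H S →
        (Fintype.card V : ℝ) ^ 2 ≤ τ ^ (eIn H S - 1) * (Fintype.card V : ℝ) ^ S.card) →
      Pr (fun _ => p) (fun ω : Sym2 V → Bool => Bad H (d * (p * Fintype.card V)) C (rs ω) ∧
        Xp (gr (rs ω)) p l ∧ Sp (gr (rs ω)) (q * p) C1) ≤ Real.exp (-Fintype.card V) := by
  have hd0 : 0 < d := by linarith
  have ha0 : 0 < a := by linarith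
  have hg1 : g ≤ 1 := by linarith
  obtain ⟨Λ, t, K, m0, hK, hsup⟩ := sup_cloud hC hg hg1 (half_pos hd0) ha hT
  obtain ⟨c, hc'⟩ : ∃ x, x = g ^ 2 * a / 16 := ⟨_, rfl⟩
  have hc : 0 < c := by rw [hc']; positivity
  have hcg : c ≤ g / 16 := by
    have : g * a ≤ 1 := by nlinarith
    rw [hc']; nlinarith
  obtain ⟨η, hη'⟩ : ∃ x, x = c * (g / 100) := ⟨_, rfl⟩
  have hη : 0 < η := by rw [hη']; positivity
  have hηg : η ≤ g / 100 := by rw [hη']; nlinarith
  obtain ⟨k, hk⟩ := exists_nat_ge (2 / η)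
  rw [div_le_iff₀ hη] at hk
  have hcc := two_le_cc (eF H).card
  obtain ⟨q0, ⟨⟨⟨⟨⟨c1, c2⟩, c3⟩, c4⟩, c5⟩, c6⟩⟩ := ((((((eventually_ge_atTop 2).and
    (eventually_ge_atTop m0)).and (ev_large 100 hg)).and (ev_large 4 hc)).and (ev_large 1 hη)).and
    (eventually_ge_atTop (2 * (eF H).card * (cc (eF H).card * K + 1)))).exists
  refine ⟨k * ((t + C1 + 1) * (Λ + 2 + 1) ^ (2 * L + 1)), q0,
    fun V _ _ p τ l q hp1 hτ hq hτp hτn hl0 hl hL hS hS' => ?_⟩
  obtain ⟨A, hA⟩ : ∃ x, x = 6 * (Fintype.card W + 3) ^ 3 := ⟨_, rfl⟩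
  rw [← hA] at hτp hsup
  obtain ⟨n, hn'⟩ : ∃ x : ℝ, x = Fintype.card V := ⟨_, rfl⟩
  rw [← hn'] at hτn
  have hn : 0 < n := (mul_pos_iff_of_pos_left hτ).1 (by linarith)
  have : Nonempty V := Fintype.card_pos_iff.1 (by rw [hn'] at hn; exact_mod_cast hn)
  have hn1 : 1 ≤ n := by rw [hn']; exact_mod_cast Fintype.card_pos
  have q2 : 2 ≤ q := c1.trans hq
  have q1 : 1 ≤ q := by linarith
  have q0' : 0 < q := by linarith
  have hp : 0 < p := lt_of_lt_of_le (by positivity) hτp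
  have hqA : 1 ≤ q ^ A := one_le_pow₀ q1
  have b0 : q ^ A * q ^ 6 ≤ p * n := by
    rw [← pow_add]; nlinarith only [hτp, hτ, hτn, hp, pow_pos q0' (A + 6)]
  have b1 : ∀ j ≤ 6, q ^ j ≤ p * n := fun j hj =>
    ((pow_le_pow_right₀ q1 hj).trans (le_mul_of_one_le_left (by positivity) hqA)).trans b0
  have b2 : p * n ≤ n := mul_le_of_le_one_left hn.le hp1
  have b3 : q ≤ p * n := by simpa using b1 1 (by norm_num)
  have b4 : 1 ≤ η * n := c5.trans (by gcongr; linarith)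
  let w : Finset V → ℕ := fun P => ⌈min (g / 100 * n) (P.card * (p * n) / q ^ 2)⌉₊
  have hw : ∀ P : Finset V, 1 ≤ q * p * P.card → P.card ≤ η * n →
      n / q ^ 3 ≤ w P ∧ P.card ≤ c * w P ∧ w P ≤ g / 50 * n := fun P h1 h2 => by
    have d1 := Nat.le_ceil (min (g / 100 * n) (P.card * (p * n) / q ^ 2))
    refine ⟨le_trans (le_min ?_ ?_) d1, le_trans ?_ (mul_le_mul_of_nonneg_left d1 hc.le), ?_⟩
    · rw [div_le_iff₀ (by positivity)]
      have : q ≤ q ^ 3 := le_self_pow₀ q1 (by norm_num)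
      have : 100 ≤ g * q ^ 3 := c3.trans (by gcongr; linarith)
      linarith only [mul_le_mul_of_nonneg_right this hn.le]
    · rw [div_le_div_iff₀ (by positivity) (by positivity)]
      nlinarith only [h1, hn, q2, mul_le_mul_of_nonneg_left h1 (by positivity : 0 ≤ n * q ^ 2)]
    · rw [mul_min_of_nonneg _ _ hc.le]
      refine le_min (by rw [← mul_assoc, ← hη']; exact h2) ?_
      rw [mul_div_assoc', le_div_iff₀ (by positivity)]
      have : q ^ 2 ≤ c * (p * n) := by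
        have t1 := mul_le_mul_of_nonneg_left (b1 3 (by norm_num)) hc.le
        have t2 := mul_le_mul_of_nonneg_left hq hc.le
        nlinarith only [t1, t2, c4, sq_nonneg q]
      nlinarith only [this, mul_le_mul_of_nonneg_left this (P.card.cast_nonneg (α := ℝ))]
    · have t1 := (Nat.ceil_lt_add_one (a := min (g / 100 * n) (P.card * (p * n) / q ^ 2))
        (by positivity)).le
      have t2 := min_le_left (g / 100 * n) (P.card * (p * n) / q ^ 2)
      have t3 := mul_le_mul_of_nonneg_left (hq.trans (b3.trans b2)) hg.le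
      linarith only [t1, t2, t3, c3]
  obtain ⟨r, hr'⟩ : ∃ x, x = ⌊cc (eF H).card * (K * q ^ A)⌋₊ + 1 := ⟨_, rfl⟩
  have hM := M_le (k := (eF H).card) (r := r) (τ := τ) (n := n) (by nlinarith only [hτn, hτ, hn1])
  have hM' : (((eF H).card * ⌈τ * n ^ 2⌉₊ * r : ℕ) : ℝ) ≤ p * n ^ 2 / q ^ 5 := by
    have d1 : (r : ℝ) ≤ (cc (eF H).card * K + 1) * q ^ A := by
      have := Nat.floor_le (by positivity : 0 ≤ cc (eF H).card * (K * q ^ A))
      rw [hr']; push_cast; linarith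
    rw [le_div_iff₀ (by positivity)]
    calc _ ≤ 2 * (eF H).card * ((cc (eF H).card * K + 1) * q ^ A) * (τ * n ^ 2) * q ^ 5 := by
          gcongr; exact hM.trans (by gcongr)
      _ = 2 * (eF H).card * (cc (eF H).card * K + 1) * (q ^ A * q ^ 5 * τ * n ^ 2) := by ring
      _ ≤ q * (q ^ A * q ^ 5 * τ * n ^ 2) := by gcongr; linarith
      _ = q ^ (A + 6) * τ * n ^ 2 := by ring
      _ ≤ _ := by gcongr
  have hy : 0 < p * n ^ 2 / q ^ 4 := by positivity
  have e3 : p * n ^ 2 / q ^ 4 * q = p * n * (n / q ^ 3) := by field_simp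
  have e5 : p * n ^ 2 / q ^ 5 * q = p * n ^ 2 / q ^ 4 := by field_simp
  have := union_core (H := H) hp.le hp1 (Reg p q d η l (Λ + 2) (t + C1 + 1)) w (a := a * n)
    (d := (d - g) * (p * n)) (x := 1 / q ^ 4) (r := r) hτ (by positivity : 0 < K * q ^ A)
    (Nat.le_ceil _) (by rw [hr']; push_cast; exact Nat.lt_floor_add_one _) (by positivity)
    ((div_le_one (by positivity)).2 (one_le_pow₀ q1)) hg.le hg1 fun V' P E0 hR => by
      obtain ⟨w1, w2, w3⟩ := hw P hR.2.2.1 (hn' ▸ hR.2.2.2.1)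
      have d0 : p * n ^ 2 / q ^ 4 * q ≤ p * n * w P := by rw [e3]; gcongr
      rw [← hn']
      refine ⟨hR.2.1, fun D hD => ?_, ?_, ?_⟩
      · rw [Nat.lt_ceil, lt_min_iff, hn'] at hD
        obtain ⟨X, F, N, δ, Δ, t0, d1, d2, d3⟩ := hR.prep (D := D) (a := a) (g := g) hp hd0 hd1 q2
          (hn' ▸ b1 2 (by norm_num)) hl0 (by nlinarith only [ha, hd, hd1, hc', hη', c5, hcg, hg, hq, hc, hη, c3, c1, hηg, hl, hl0]) hηg (by linarith) (by linarith)
          (fun v hv => by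
            rw [Finset.mem_sdiff, Finset.mem_filter, not_and, not_lt] at hv
            exact hv.2 hv.1) hD.1.le hD.2.le
        refine hsup V _ _ _ _ _ _ _ _ _ _ _ _ _ _ _ d1 (by omega) d3 hp1 hτ
          (le_trans (le_mul_of_one_le_left hτ.le (one_le_pow₀ q1)) hτp) q1 ?_ hS hS'
        rw [← hn', mul_comm]
        refine le_trans ?_ b0
        gcongr
        exact (c2.trans hq).trans (le_self_pow₀ q1 (by norm_num))
      · have d2 : (1 + g) * a * (p * n * w P) ≤ (d - 2 * g) * (p * n * w P) := by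
          gcongr; nlinarith only [hd, hc', hc, hg, hd1]
        have d3 : p * n ^ 2 / q ^ 5 ≤ p * n ^ 2 / q ^ 4 := by
          gcongr; norm_num
        have d4 : 1 ≤ g * q := by nlinarith only [ha, hd, hd1, c3, hcg, hg, hη', hη, hq]
        have d5 := mul_le_mul_of_nonneg_left d0 hg.le
        nlinarith only [hM', d2, d3, d5, ha, hd, hd1, hη, hηg, hy, d4]
      · have d1 : Real.log (1 / (1 / q ^ 4)) ≤ 4 * q := by
          rw [one_div_one_div, Real.log_pow]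
          have := Real.log_le_sub_one_of_pos q0'
          push_cast; linarith
        have d2 := mul_le_mul hM' d1 (Real.log_nonneg (by
          rw [one_div_one_div]; exact one_le_pow₀ q1)) (by positivity)
        have d3 : 4 * (p * n ^ 2 / q ^ 4) ≤ c * (p * n * w P) := by
          have := mul_le_mul_of_nonneg_left d0 hc.le
          nlinarith only [this, ha, hd, hd1, hη, hηg, c4, hy, hq, hc, mul_le_mul_of_nonneg_left hq hc.le]
        have d4 : n ≤ p * n ^ 2 / q ^ 4 := by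
          rw [le_div_iff₀ (by positivity)]; nlinarith only [hτ, hτn, b1 4 (by norm_num)]
        have d5 := mul_le_mul_of_nonneg_right w2 (by positivity : 0 ≤ p * n)
        have d6 : g ^ 2 * (p * (a * n * w P)) / 4 = 4 * (c * (p * n * w P)) := by rw [hc']; ring
        have d7 : p * (1 / q ^ 4) * n ^ 2 = p * n ^ 2 / q ^ 4 := by ring
        linarith only [ha, hd, hd1, hη, hηg, c1, hq, b2, b3, e5, d2, d3, d4, d5, d6, d7]
  refine (Pr_mono (isP_const hp.le hp1) fun ω ⟨⟨V', J, a1, a2, a3, a4⟩, a5, a6⟩ => ?_).trans this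
  obtain ⟨P, hR⟩ := reduce (η := η) (by omega) (by omega) (by omega) q1 hL (by
    have d1 := Nat.lt_floor_add_one (η * n)
    have d2 : 1 ≤ ⌊η * n⌋₊ := Nat.le_floor (by simpa using b4)
    have d3 : (1 : ℝ) ≤ ⌊η * n⌋₊ := by exact_mod_cast d2
    rw [← Nat.cast_le (α := ℝ), Nat.cast_mul, ← hn']
    have := mul_le_mul_of_nonneg_right hk hn.le
    nlinarith only [this, d1, d3, k.cast_nonneg (α := ℝ)]) hη.le a1 a3 a4 a5 a6
  obtain ⟨w1, w2, w3⟩ := hw P hR.2.2.1 (hn' ▸ hR.2.2.2.1)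
  refine ⟨V', P, _, hR, mk_Ev a1 hp.le hl0 a2 a3 a5 ?_⟩
  rw [← hn']
  have d0 : (0 : ℝ) ≤ w P := by positivity
  have d1 : (P.card : ℝ) ≤ w P := by nlinarith only [w2, ha, hd, hd1, hcg]
  have d2 : 100 * l ≤ g * (p * n) := by nlinarith only [ha, hd, hd1, hc', hη', c5, hcg, hq, b3, hg, hc, hη, hl0, c3, c1, hn', b2, hηg, hl]
  have d3 := mul_le_mul_of_nonneg_left w3 (by positivity : 0 ≤ p * w P)
  have d4 := mul_le_mul_of_nonneg_left d1 (by positivity : 0 ≤ p * w P)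
  have d5 := mul_le_mul_of_nonneg_left d1 hl0
  have d6 := mul_le_mul_of_nonneg_left d2 d0
  have : 0 ≤ g * (p * n) * w P := by positivity
  linarith only [d3, d4, d5, d6, this]

end Pool.Agent.Lib.MP_46505f_co
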