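import Pool.Agent.Lib.MP_46505f_co.Hard3
import Pool.Agent.Lib.MP_46505f_co.Upper

set_option autoImplicit false
set_option linter.unusedSectionVars false
open Finset Filter Topology
open Pool.Agent.Lib.MP_eaf82e_pr

namespace Pool.Agent.Lib.MP_46505f_co

/- The global step. -/

variable {V : Type} [Fintype V] [DecidableEq V] {W : Type} [Fintype W] [DecidableEq W]
  {H : SimpleGraph W} {I : Finset W} {a d g K : ℝ} {k : ℕ}

lemma bd_empty (hI : I.Nonempty) (τ : ℝ) (E : Finset (Sym2 V)) (P : Finset V) :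
    Bd H I τ K E P ∅ := fun _ _ ⟨μ, _, h2, h3, _⟩ => by
  obtain ⟨l, -, hl⟩ := Finset.exists_ne_zero_of_sum_ne_zero h2.ne'
  exact absurd ((h3 l hl).1 _ hI.choose_spec) (by simp)

theorem glob (hC : IsCloud H I) (hI : I.Nonempty) (hg : 0 < g) (ha : g ≤ a) (hd : a + 4 * g ≤ d)
    (hd1 : d ≤ 1) (hK : 0 < K) (hk : 1 ≤ k * ((a / 2) ^ Fintype.card W / 2 * g)) :
    ∃ c > 0, ∀ (V : Type) [Fintype V] [DecidableEq V] (p τ l : ℝ), p ≤ 1 → 0 < τ → τ ≤ c * p →
      1 ≤ τ * Fintype.card V → 0 ≤ l → l ≤ c * (p * Fintype.card V) →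
      Pr (fun _ => p) (fun ω : Sym2 V → Bool => ∃ E ⊆ rs ω, ∃ V' P : Finset V,
        P.card ≤ g ^ 3 * a / 256 * Fintype.card V ∧ embs H (gr E) V' = ∅ ∧
        (∀ v ∈ V', d * (p * Fintype.card V) ≤ dg (gr E) v V') ∧ Xp (gr (rs ω)) p l ∧
        ¬ ∃ Z : Fin k → Finset V, (∀ j, Z j ⊆ V' \ P ∧ Bd H I τ K E (V' ∩ P) (Z j)) ∧
          (V' \ univ.biUnion Z).card ≤ 9 / 8 * g * Fintype.card V) ≤ Real.exp (-Fintype.card V) := by
  classical
  have ha0 : 0 < a := by linarith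
  have hg1 : g ≤ 1 := by linarith
  have ha1 : a ≤ 1 := by linarith
  obtain ⟨γ, hγ'⟩ : ∃ x, x = (a / 2) ^ Fintype.card W / 2 := ⟨_, rfl⟩
  have hγ : 0 < γ := by rw [hγ']; positivity
  obtain ⟨K', hK''⟩ : ∃ x, x = 2 ^ Fintype.card W *
    ((2 * ((eF H).card : ℝ) + 1) ^ (2 * Fintype.card W) * K / γ) := ⟨_, rfl⟩
  have hK' : 0 < K' := by rw [hK'']; positivity
  obtain ⟨R, hR⟩ := exists_nat_gt (cc (eF H).card * K')
  obtain ⟨x, hx'⟩ : ∃ x, x = g ^ 3 * a / 256 := ⟨_, rfl⟩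
  have hx : 0 < x := by rw [hx']; positivity
  have hxg : x ≤ g / 16 := by
    have : g ^ 2 * a ≤ 1 := mul_le_one₀ (pow_le_one₀ hg.le hg1) ha0.le ha1
    rw [hx']; nlinarith only [this, hg, ha, hd, hd1, hx', hx]
  have hx1 : x ≤ 1 := by linarith
  have hlog : 0 ≤ Real.log (1 / x) := Real.log_nonneg (by rw [le_div_iff₀ hx]; linarith)
  obtain ⟨c, ⟨⟨⟨⟨⟨c1, c2⟩, c3⟩, c4⟩, c5⟩, c6⟩, hc⟩ :=
    (((((((ev_small (2 * (eF H).card * R) (by positivity : 0 < g * (g / 16))).and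
    (ev_small (2 * (eF H).card * R * Real.log (1 / x)) hx)).and (ev_small 3 hx)).and
    (ev_small 48 hg)).and (ev_small (2 * (Fintype.card W : ℝ)) ha0)).and
    (ev_small 1 one_pos)).and self_mem_nhdsWithin).exists
  replace hc : 0 < c := hc
  rw [← hγ'] at hk
  rw [← hx']
  refine ⟨c, hc, fun V _ _ p τ l hp1 hτ hτp hτn hl0 hl => ?_⟩
  have hp : 0 < p := (mul_pos_iff_of_pos_left hc).1 (hτ.trans_le hτp)
  obtain ⟨n, hn'⟩ : ∃ x : ℝ, x = Fintype.card V := ⟨_, rfl⟩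
  have hn : 0 < n := by
    rw [← hn'] at hτn
    exact (mul_pos_iff_of_pos_left hτ).1 (by linarith)
  have : Nonempty V := Fintype.card_pos_iff.1 (by rw [hn'] at hn; exact_mod_cast hn)
  have hn1 : 1 ≤ n := by rw [hn']; exact_mod_cast Fintype.card_pos
  have b0 : 1 ≤ c * (p * n) := by rw [← hn'] at hτn; nlinarith only [hτp, hτ, hτn]
  have b1 : 1 ≤ c * n := b0.trans (by gcongr; nlinarith only [hp1, ha, hd, hd1, c4, hc, hn'])
  have b2 : 1 ≤ g / 16 * n := by nlinarith only [ha, hd, hd1, hxg, hn', b1, c4, hg, hx, hc, c6]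
  obtain ⟨w, hw'⟩ : ∃ x, x = ⌈g / 16 * n⌉₊ := ⟨_, rfl⟩
  have w1 : g / 16 * n ≤ w := hw' ▸ Nat.le_ceil _
  have w2 : w ≤ g / 8 * n := by
    have := (Nat.ceil_lt_add_one (by linarith only [ha, hd, hd1, c4, hc, b2] : 0 ≤ g / 16 * n)).le
    rw [← hw'] at this; linarith
  have hM := M_le (k := (eF H).card) (r := R) (τ := τ) (n := n) (by rw [← hn'] at hτn; nlinarith only [hp1, hτp, hτn, c6, hp, hτ])
  have hM' : 2 * (eF H).card * R * (τ * n ^ 2) ≤ 2 * (eF H).card * R * c * (p * n ^ 2) := by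
    rw [mul_assoc _ c, ← mul_assoc c]; gcongr
  have := union_core (H := H) hp.le hp1 (fun V' P E0 => E0 ⊆ btw P univ ∧ P.card ≤ x * n ∧ ∀ D,
    ((V' \ P).filter fun v => (dg (gr D) v (V' \ P) : ℝ) < a * n).card < w → Sat H V' E0 D K' τ)
    (fun _ => w) (a := a * n) (d := (d - 2 * g) * (p * n)) hτ hK' (Nat.le_ceil _) hR hx hx1 hg.le
    hg1 (by
      rintro V' P E0 ⟨e1, e2, e3⟩
      rw [← hn']
      refine ⟨e1, e3, ?_, ?_⟩
      · have d1 : g * (g / 16) * (p * n ^ 2) ≤ g * (p * n) * w := by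
          calc _ = g * (p * n) * (g / 16 * n) := by ring
            _ ≤ _ := by gcongr
        have d2 : (1 + g) * a * (p * n * w) ≤ (d - 3 * g) * (p * n * w) := by
          gcongr; nlinarith only [hd, hg, hd1]
        have d3 := mul_le_mul_of_nonneg_right c1 (by positivity : 0 ≤ p * n ^ 2)
        linarith
      · have d1 : g ^ 2 * a * (p * n) * (g / 16 * n) ≤ g ^ 2 * a * (p * n) * w := by gcongr
        have d2 := mul_le_mul_of_nonneg_right (hM.trans hM') hlog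
        have d3 := mul_le_mul_of_nonneg_right c2 (by positivity : 0 ≤ p * n ^ 2)
        have d4 := mul_le_mul_of_nonneg_right c3 (by positivity : 0 ≤ p * n ^ 2)
        have d5 := mul_le_mul_of_nonneg_right b0 hn.le
        have d6 : x * (p * n ^ 2) = g ^ 2 * a * (p * n) * (g / 16 * n) / 16 := by rw [hx']; ring
        have d7 := mul_le_mul_of_nonneg_right e2 (by positivity : 0 ≤ n * p)
        linarith only [d1, d2, d3, d4, d5, d6, d7])
  refine (Pr_mono (isP_const hp.le hp1) fun ω ⟨E, a1, V', P, a0, a2, a3, a5, a6⟩ => ?_).trans this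
  rw [← hn'] at a3 hl a0 a6
  have hP : P.card ≤ g / 16 * n := a0.trans (by gcongr)
  refine ⟨V', P, _, ⟨Finset.inter_subset_right, a0, fun D hD => ?_⟩, mk_Ev a1 hp.le hl0 a2 a3 a5 ?_⟩
  · by_contra hS
    obtain ⟨L, hL⟩ : ∃ x, x = (V' \ P).filter fun v => (dg (gr D) v (V' \ P) : ℝ) < a * n :=
      ⟨_, rfl⟩
    rw [← hL, hw', Nat.lt_ceil] at hD
    obtain ⟨Z, d1, d2⟩ := cover (Bd H I τ K E (V' ∩ P)) hγ.le (by positivity : 0 ≤ g * n)
      ((V' \ P) \ L) (fun C e1 e2 => by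
        by_contra e3
        push Not at e3
        refine hS (hK'' ▸ hγ' ▸ sat_of_spread hC hτ (by nlinarith only [hp1, hτp, c6, hp]) one_pos
          (e1.trans Finset.sdiff_subset) (Finset.card_pos.1 (Nat.cast_pos.1 (lt_of_lt_of_le
          (by positivity) e2))) (fun z hz => ?_) ha0 hK.le (by rw [← hn']; nlinarith only [b1, c5, ha, hd, hd1, hx, hxg, hn'])
          fun Z e4 e5 => ?_)
        · have := Finset.mem_sdiff.1 (e1 hz)
          rw [hL, Finset.mem_filter, not_and, not_lt] at this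
          exact hn' ▸ this.2 this.1
        · by_contra e6
          exact e3 Z e4 (hγ' ▸ e5) fun _ _ e7 => e6 (e7.mono (fun _ e8 => e8.mono hC
            (Finset.inter_subset_inter Subset.rfl (Finset.image_subset_image
            (Finset.product_subset_product_left Finset.inter_subset_right))) Subset.rfl) le_rfl)) k
    refine a6 ⟨Z, fun j => ⟨(d1 j).1.trans Finset.sdiff_subset, (d1 j).2.elim
      (fun e => e ▸ bd_empty hI _ _ _) id⟩, ?_⟩
    have d3 : ((((V' \ P) \ L) \ univ.biUnion Z).card : ℝ) ≤ g * n := d2.elim id fun e => by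
      have e1 : (((V' \ P) \ L).card : ℝ) ≤ n := hn' ▸ Nat.cast_le.2 (Finset.card_le_univ _)
      nlinarith only [ha, hd, hd1, c4, hc, b2, e, e1, hk, hn, mul_le_mul_of_nonneg_right hk hn.le]
    have d4 := (Nat.cast_le (α := ℝ)).2 ((Finset.card_le_card (show V' \ univ.biUnion Z ⊆
      (((V' \ P) \ L) \ univ.biUnion Z) ∪ L ∪ P from fun v hv => by
        simp only [Finset.mem_sdiff, Finset.mem_union] at hv ⊢; tauto)).trans
      ((Finset.card_union_le _ _).trans (Nat.add_le_add_right (Finset.card_union_le _ _) _)))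
    push_cast at d4
    linarith
  · have d0 := hP.trans w1
    have d1 := mul_le_mul_of_nonneg_left w2 (by positivity : 0 ≤ p * w)
    have d2 := mul_le_mul_of_nonneg_left hP (by positivity : 0 ≤ p * w)
    have d3 := mul_le_mul_of_nonneg_left d0 hl0
    have d4 : 48 * l ≤ g * (p * n) := by nlinarith only [hl, c4, hp, hn, mul_pos hp hn]
    have d5 := mul_le_mul_of_nonneg_left d4 (by positivity : (0 : ℝ) ≤ w)
    have : 0 ≤ g * (p * n) * w := by positivity
    linarith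

lemma rich {G : SimpleGraph V} {s : ℕ} [Nonempty (Fin s)] (cls : V → Fin s) {V' : Finset V}
    {y u : ℝ} (hy : 0 < y) (hd : ∀ v ∈ V', 2 * y ≤ dg G v V')
    (hu : ∀ v j, (dg G v (univ.filter fun w => cls w = j) : ℝ) ≤ u) (h : 2 * u ≤ y) {x : V}
    (hx : x ∈ V') : ∃ i j, i ≠ cls x ∧ j ≠ cls x ∧ j ≠ i ∧ y / s ^ 2 ≤ dg G x (V'.filter fun v =>
      cls v = i ∧ y / s ≤ dg G v (V'.filter fun w => cls w = j)) := by
  classical
  have u0 : 0 ≤ u := le_trans (by positivity) (hu x (cls x))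
  have s0 : (0 : ℝ) < s := by exact_mod_cast Fin.pos_iff_nonempty.2 ‹_›
  have key : ∀ {κ : Type} [Fintype κ] [Nonempty κ] (B : κ → Finset V) (v : V) (i j : Fin s),
      v ∈ V' → (∀ w ∈ V', cls w ≠ i → cls w ≠ j → ∃ b, w ∈ B b) →
      ∃ b, y / Fintype.card κ ≤ dg G v (B b) := fun B v i j hv hB => by
    refine exists_class (f := fun b => (dg G v (B b) : ℝ)) ?_
    have a1 := dg_le_add G v (Q := V') (A := univ.biUnion B) (B := (univ.filter fun w => cls w = i) ∪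
      univ.filter fun w => cls w = j) fun w hw => by
        simp only [Finset.mem_union, Finset.mem_biUnion, Finset.mem_filter, mem_univ, true_and]
        exact or_iff_not_imp_right.2 fun c => hB w hw (not_or.1 c).1 (not_or.1 c).2
    have a2 := dg_le_add G v (Subset.refl ((univ.filter fun w => cls w = i) ∪
      univ.filter fun w => cls w = j))
    have a3 : dg G v (univ.biUnion B) ≤ ∑ b, dg G v (B b) := le_trans (Finset.card_le_card
      fun w hw => let ⟨b, _, e⟩ := Finset.mem_biUnion.1 (mem_nb.1 hw).1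
        Finset.mem_biUnion.2 ⟨b, mem_univ _, mem_nb.2 ⟨e, (mem_nb.1 hw).2⟩⟩) Finset.card_biUnion_le
    have a4 := (Nat.cast_le (α := ℝ)).2 a3
    push_cast at a4
    linarith [hd v hv, hu v i, hu v j]
  have ne : ∀ {v B z}, 0 < z → z ≤ (dg G v B : ℝ) → B.Nonempty := fun {v B z} h1 h2 =>
    (Finset.card_pos.1 (Nat.cast_pos.1 (h1.trans_le h2))).mono (Finset.filter_subset _ _)
  obtain ⟨⟨i, j⟩, hb⟩ := key (κ := Fin s × Fin s) (fun b => V'.filter fun v => (b.1 ≠ cls x ∧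
    b.2 ≠ cls x ∧ b.2 ≠ b.1) ∧ cls v = b.1 ∧ y / s ≤ dg G v (V'.filter fun w => cls w = b.2)) x
    (cls x) (cls x) hx fun v hv h1 _ => by
      obtain ⟨j, hj⟩ := key (fun j => V'.filter fun w => (j ≠ cls x ∧ j ≠ cls v) ∧ cls w = j) v
        (cls x) (cls v) hv fun w hw e1 e2 => ⟨cls w, Finset.mem_filter.2 ⟨hw, ⟨e1, e2⟩, rfl⟩⟩
      rw [Fintype.card_fin] at hj
      obtain ⟨w, hw⟩ := ne (by positivity) hj
      exact ⟨(cls v, j), Finset.mem_filter.2 ⟨hv, ⟨h1, (Finset.mem_filter.1 hw).2.1⟩, rfl, hj.trans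
        (Nat.cast_le.2 (dg_mono le_rfl _ (Finset.monotone_filter_right _ fun _ _ h => h.2)))⟩⟩
  rw [Fintype.card_prod, Fintype.card_fin, Nat.cast_mul, ← sq] at hb
  obtain ⟨w, hw⟩ := ne (by positivity) hb
  obtain ⟨e1, e2, e3⟩ := (Finset.mem_filter.1 hw).2.1
  exact ⟨i, j, e1, e2, e3, hb.trans (Nat.cast_le.2 (dg_mono le_rfl _
    (Finset.monotone_filter_right _ fun _ _ h => h.2)))⟩

lemma Col.inter {E : Finset (Sym2 V)} {P X : Finset V} {t : ℕ} (h : Col (gr (E ∩ btw P univ)) X t)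
    (hX : X ⊆ P) : Col (gr E) X t :=
  let ⟨c, h1, h2⟩ := h
  ⟨c, h1, fun u hu v hv e => h2 u hu v hv (gr_inter e (mem_btw.2 ⟨u, hX hu, v, mem_univ _, rfl⟩))⟩

theorem up_hard [Nonempty W] (hC : IsCloud H I) (hI : I.Nonempty) (hg : 0 < g) (ha : 4 * g ≤ a)
    (hd : a + 20 * g ≤ d) (hd1 : d ≤ 1) (hT : IsThunder H I ∨ 1 + 14 * g ≤ 3 * a) (L C1 : ℕ) :
    ∃ (C s : ℕ) (c : ℝ), 0 < s ∧ 0 < c ∧ ∀ᶠ q : ℝ in atTop, ∀ (V : Type) [Fintype V]
    [DecidableEq V] (cls : V → Fin s) (p τ τ' l : ℝ) (M : ℕ), Rg H I (Fintype.card V) p τ τ' q M →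
    τ ≤ c * p → 0 ≤ l → l ≤ c * q →
    ((∀ S, 1 ≤ cross H I S → (∃ u ∈ S, NI H I u) → Nm H I τ' (Fintype.card V) 1 S) ∨
      1 ≤ τ ^ 2 * Fintype.card V) → Fintype.card V < q ^ L →
    (∀ j, ((univ.filter fun v => cls v = j).card : ℝ) ≤ 2 * Fintype.card V / s) →
    Pr (fun _ => p) (fun ω : Sym2 V → Bool => Bad H (d * (p * Fintype.card V)) C (rs ω) ∧
      Xp (gr (rs ω)) p l ∧ Sp (gr (rs ω)) (q * p) C1 ∧ ∀ v j, (dg (gr (rs ω)) v
      (univ.filter fun v => cls v = j) : ℝ) ≤ 2 * (p * (2 * Fintype.card V / s))) ≤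
      4 * Real.exp (-Fintype.card V) := by
  classical
  have ha0 : 0 < a := by linarith
  have hd0 : 0 < d := by linarith
  have hg1 : g ≤ 1 := by linarith
  obtain ⟨k, hk1, hk0⟩ := ((tendsto_natCast_atTop_atTop.eventually (ev_large 1 (by positivity :
    0 < (a / 2) ^ Fintype.card W / 2 * g))).and (eventually_gt_atTop 0)).exists
  obtain ⟨x, hx'⟩ : ∃ x, x = g ^ 3 * a / 256 := ⟨_, rfl⟩
  have hx : 0 < x := by rw [hx']; positivity
  obtain ⟨s, ⟨s1, s2⟩, hs⟩ := (((tendsto_natCast_atTop_atTop.eventually (ev_large 6 hx)).and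
    (tendsto_natCast_atTop_atTop.eventually (ev_large 16 hg))).and (eventually_gt_atTop 0)).exists
  have s0 : (1 : ℝ) ≤ s := by exact_mod_cast hs
  obtain ⟨K, hK, η, hη, c1, hc1, Λ, t, hΛ, h1⟩ := loc (a := a) (a1 := d / 2 / s / 3)
    (c0 := d / 2 / s ^ 2 / 2) hC hk0 hg (by positivity) (by
      rw [div_div, div_div, div_le_iff₀ (by positivity)]; nlinarith only [hg, ha, hd, hd1, s2]) (by linarith) (by positivity)
    (by rw [div_div, div_div, div_le_iff₀ (by positivity)]; nlinarith only [hg, ha, hd, hd1, s2]) ha hT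
  obtain ⟨c2, hc2, h2⟩ := glob (d := d) hC hI hg (by linarith) (by linarith) hd1 hK
    (mul_comm (k : ℝ) _ ▸ hk1)
  obtain ⟨k', hk'⟩ := exists_nat_ge (2 / η)
  rw [div_le_iff₀ hη] at hk'
  obtain ⟨c, ⟨⟨e1, e2⟩, e3⟩, hc⟩ := ((((ev_small 1 hc1).and (ev_small 1 hc2)).and
    (ev_small 1 hg)).and self_mem_nhdsWithin).exists
  replace hc : 0 < c := hc
  rw [one_mul] at e1 e2 e3
  refine ⟨Fintype.card (Fin s × Fin s × Fin s) * (k' * (fun t => Λ t + t)^[L] (t + C1)), s, c, hs,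
    hc, ?_⟩
  filter_upwards [h1, eventually_ge_atTop 1, ev_large 1 hη] with q h1 q1 q2 V _ _ cls p τ τ' l M hR
    hτp hl0 hl hs' hL hcls
  obtain ⟨hp, hn1, hpn, -⟩ := hR.pn q1
  have hP' : IsP fun _ : Sym2 V => p := isP_const hp.le hR.p1
  have q0 : 0 < q := by linarith
  have b0 : q ≤ p * Fintype.card V := (le_self_pow₀ q1 (by norm_num)).trans hpn
  have b1 := h1 V p τ τ' l M hR (hτp.trans (by gcongr)) hl0 (hl.trans (by gcongr)) hs'
  have b2 := h2 V p τ l hR.p1 (hR.t0.trans_le hR.t1) (hτp.trans (by gcongr))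
    (hR.t4.trans (by gcongr; exact hR.t1)) hl0 (hl.trans (by gcongr))
  refine (Pr_mono hP' ?_).trans (((Pr_or_le hP' _ _).trans (add_le_add b2 b1)).trans_eq (by ring))
  rintro ω ⟨⟨V', E, hE, a1, a2, a3⟩, a4, a5, a6⟩
  refine or_iff_not_imp_left.2 fun hG => ⟨E, hE, ?_⟩
  obtain ⟨n, hn⟩ : ∃ x : ℝ, x = Fintype.card V := ⟨_, rfl⟩
  rw [← hn] at hpn b0 hn1 hcls a6
  have n0 : 0 < n := by linarith only [hg, ha, hd, hd1, hn1]
  have : Nonempty (Fin s) := ⟨⟨0, hs⟩⟩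
  obtain ⟨⟨m, i, j⟩, b3⟩ := col_class (κ := Fin s × Fin s × Fin s) (fun z x => cls x = z.1 ∧
    (z.2.1 ≠ z.1 ∧ z.2.2 ≠ z.1 ∧ z.2.2 ≠ z.2.1) ∧ d / 2 * (p * n) / s ^ 2 ≤ dg (gr E) x (V'.filter
    fun v => cls v = z.2.1 ∧ d / 2 * (p * n) / s ≤ dg (gr E) v (V'.filter fun w => cls w = z.2.2)))
    (fun x hx => by
      obtain ⟨i, j, f1, f2, f3, f4⟩ := rich (G := gr E) cls (y := d / 2 * (p * n)) (by positivity)
        (fun v hv => (le_of_eq (by rw [hn]; ring)).trans (a2 v hv)) (fun v j => le_trans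
        (Nat.cast_le.2 (dg_mono (gr_mono hE) v Subset.rfl)) (a6 v j)) (by
          rw [show 2 * (2 * (p * (2 * n / s))) = 8 * (p * n) / s by ring, div_le_iff₀ (by positivity)]
          nlinarith only [ha, hd, s2, hg, s0, hd1, q1, b0, mul_pos hp n0, mul_le_mul_of_nonneg_right (by linarith only [hg, ha, hd] : g ≤ d) (by linarith :
            (0 : ℝ) ≤ s)]) hx
      exact ⟨(cls x, i, j), rfl, ⟨f1, f2, f3⟩, f4⟩) a3
  obtain ⟨U, d1, d2, d3⟩ := exists_small_part (m := ⌊η * n⌋₊) k' _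
    ((Finset.card_le_univ _).trans (by
      have b4 : 1 ≤ η * n := q2.trans (by gcongr; nlinarith only [b0, hn, hp, hR.p1])
      have d1 := Nat.lt_floor_add_one (η * n)
      have d2 : 1 ≤ ⌊η * n⌋₊ := Nat.le_floor (by simpa using b4)
      have d3 : (1 : ℝ) ≤ ⌊η * n⌋₊ := by exact_mod_cast d2
      rw [← Nat.cast_le (α := ℝ), Nat.cast_mul, ← hn]
      have := mul_le_mul_of_nonneg_right hk' n0.le
      nlinarith only [this, d1, d3, k'.cast_nonneg (α := ℝ)])) b3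
  obtain ⟨t0, d4, P, d5, d6, d7⟩ := size_regular (fun t => Λ t + t) (fun t => Nat.le_add_left _ _)
    q0 (gr E) _ L U ((Nat.cast_le.2 (Finset.card_le_univ _)).trans_lt hL) d3
  have d8 : ∀ x ∈ P, _ := fun x hx => Finset.mem_filter.1 (d1 (d5 hx))
  obtain ⟨x0, hx0⟩ := nonempty_of_not_col d6
  obtain ⟨f1, f2, f3⟩ := (d8 x0 hx0).2.2.1
  dsimp only at d8 f1 f2 f3
  obtain ⟨Q, hQ⟩ : ∃ x, x = univ.filter fun v => cls v = m ∨ cls v = i ∨ cls v = j := ⟨_, rfl⟩
  obtain ⟨Z, z1, z2⟩ := not_not.1 fun c => hG ⟨E, hE, V', Q, by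
    have := (Nat.cast_le (α := ℝ)).2 ((Finset.card_union_le (univ.filter fun v => cls v = m) _).trans
      (Nat.add_le_add_left (Finset.card_union_le (univ.filter fun v => cls v = i)
      (univ.filter fun v => cls v = j)) _))
    rw [← Finset.filter_or, ← Finset.filter_or, ← hQ] at this
    push_cast at this
    have : 6 * n / s ≤ x * n := by rw [div_le_iff₀ (by positivity)]; nlinarith only [s1, hg, ha, hd, hd1, hn1]
    rw [← hx', ← hn]
    linarith [hcls m, hcls i, hcls j, (by ring : 6 * n / s = 3 * (2 * n / s))], a1, a2, a4, c⟩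
  have z3 : ∀ v ∈ univ.biUnion Z, cls v ≠ m ∧ cls v ≠ i ∧ cls v ≠ j := fun v hv => by
    obtain ⟨b, -, e⟩ := Finset.mem_biUnion.1 hv
    simpa [hQ, not_or] using (Finset.mem_sdiff.1 ((z1 b).1 e)).2
  have hX := a4.mono (gr_mono hE)
  refine ⟨P, V'.filter fun v => cls v = i ∧ d / 2 * (p * n) / s ≤ dg (gr E) v (V'.filter fun w =>
    cls w = j), V'.filter fun w => cls w = j, V'.filter fun v => (dg (gr E) v (univ.biUnion Z) : ℝ) <
    (a + 2 * g) * (p * n), V' ∩ Q, Z, ⟨?_, ?_, ?_, fun x hx => ?_,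
    hX.mono (gr_mono Finset.inter_subset_left), not_lt.1 fun c => d6 ?_, ?_, ?_,
    t0, by omega, fun c => d6 (c.inter Subset.rfl), fun X e1 e2 => (d7 X e1 e2).mono
    (gr_mono Finset.inter_subset_left) Subset.rfl le_rfl⟩, fun v hv => le_trans (le_of_eq (by
      rw [← hn]; ring)) (Finset.mem_filter.1 hv).2.2, fun v hv => ?_, fun j => (z1 j).2⟩
  · simp only [Finset.disjoint_left, Finset.mem_filter]
    exact ⟨fun v h h' => f3 (h'.2.symm.trans h.2.1), fun v h h' => (z3 v h').2.1 h.2.1,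
      fun v h h' => (z3 v h').2.2 h.2⟩
  · simp only [Finset.disjoint_left, Finset.mem_filter]
    exact ⟨fun v h h' => f1 (h'.2.1.symm.trans (d8 v h).2.1), fun v h h' =>
      f2 (h'.2.symm.trans (d8 v h).2.1), fun v h h' => (z3 v h').1 (d8 v h).2.1⟩
  · simp only [Finset.subset_iff, hQ, Finset.mem_filter, Finset.mem_inter, mem_univ, true_and]
    exact ⟨fun v h => ⟨(d8 v h).1, Or.inl (d8 v h).2.1⟩, fun v h => ⟨h.1, Or.inr (Or.inl h.2.1)⟩,
      fun v h => ⟨h.1, Or.inr (Or.inr h.2)⟩⟩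
  · refine le_trans (le_of_eq (by rw [← hn]; ring)) ((d8 x hx).2.2.2.trans (Nat.cast_le.2
      (Finset.card_le_card fun u hu => mem_nb.2 ⟨(mem_nb.1 hu).1, gr_inter (mem_nb.1 hu).2
      (mem_btw.2 ⟨x, hx, u, mem_univ _, rfl⟩)⟩)))
  · exact (a5 P c.le).mono (gr_mono hE) Subset.rfl (by omega)
  · exact le_trans (Nat.cast_le.2 ((Finset.card_le_card d5).trans d2))
      (hn ▸ Nat.floor_le (by positivity))
  · rw [← hn] at z2 a2 ⊢
    have g1 := xp_few hX (N := V' \ univ.biUnion Z) (x := 18 * g * (p * n)) (X := V'.filter fun v =>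
      (dg (gr E) v (univ.biUnion Z) : ℝ) < (a + 2 * g) * (p * n)) (fun v hv => by
        have t1 := dg_le_add (gr E) v (Q := V') (A := V' \ univ.biUnion Z) (B := univ.biUnion Z) (by
          rw [Finset.sdiff_union_self_eq_union]; exact Finset.subset_union_left)
        have t2 := a2 v (Finset.mem_filter.1 hv).1
        have t3 := (Finset.mem_filter.1 hv).2
        nlinarith only [t1, t2, t3, hd, q1, b0, mul_pos hp n0]) (by nlinarith only [hg, ha, hd, hd1, hp, z2]) (by nlinarith only [hg, e3, hl, q1, b0, ha, hd, hd1])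
    rw [le_div_iff₀ (by positivity)]
    refine le_of_mul_le_mul_right ?_ (by positivity : 0 < 18 * g * (p * n))
    have g2 : l * q ^ 3 ≤ p * n := le_trans (by
      calc _ ≤ 1 * q * q ^ 3 := by gcongr; exact hl.trans (by gcongr; linarith)
        _ = q ^ 4 := by ring
        _ ≤ _ := pow_le_pow_right₀ q1 (by norm_num)) hpn
    have g3 := mul_le_mul z2 g2 (by positivity) (by positivity)
    have g4 := mul_le_mul_of_nonneg_right g1 (by positivity : 0 ≤ q ^ 3)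
    nlinarith only [g3, g4, hg, n0, hp, mul_pos hg (mul_pos n0 (mul_pos hp n0))]
  · simp only [Finset.mem_sdiff, Finset.mem_union, Finset.mem_filter, not_and, not_lt] at hv
    exact hn ▸ hv.2 (hv.1.elim (·.1) (·.1))

end Pool.Agent.Lib.MP_46505f_co
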