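import Pool.Agent.Lib.MP_46505f_co.Seq

set_option autoImplicit false
set_option linter.unusedSectionVars false
open Finset

namespace Pool.Agent.Lib.MP_46505f_co

/- One-sided homogenisation by energy increment and the counting lemma. -/

variable {V : Type*} [Fintype V] [DecidableEq V]

noncomputable def fY (D : V → V → ℝ) (Y : Finset V) (z : V) : ℝ := (∑ y ∈ Y, D y z) / Y.card

def Homog (D : V → V → ℝ) (Y : Finset V) (ε : ℝ) : Prop :=
  ∀ a b : V → ℝ, (∀ v, 0 ≤ a v ∧ a v ≤ 1) → (∀ v, 0 ≤ b v ∧ b v ≤ 1) →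
    -(ε * Y.card * Fintype.card V) ≤ ∑ y ∈ Y, ∑ z, a y * b z * (D y z - fY D Y z)

variable {D : V → V → ℝ}

lemma fY_mem (hD : ∀ y z, 0 ≤ D y z ∧ D y z ≤ 1) (Y : Finset V) (z : V) :
    0 ≤ fY D Y z ∧ fY D Y z ≤ 1 := by
  refine ⟨div_nonneg (Finset.sum_nonneg fun y _ => (hD y z).1) (by positivity), ?_⟩
  refine div_le_one_of_le₀ ?_ (by positivity)
  simpa using Finset.sum_le_card_nsmul Y (fun y => D y z) 1 fun y _ => (hD y z).2

lemma card_mul_fY {Y : Finset V} (hY : Y.Nonempty) (z : V) :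
    (Y.card : ℝ) * fY D Y z = ∑ y ∈ Y, D y z := by
  have : (Y.card : ℝ) ≠ 0 := by exact_mod_cast (Finset.card_pos.2 hY).ne'
  unfold fY; field_simp

lemma homog_dev (hD : ∀ y z, 0 ≤ D y z ∧ D y z ≤ 1) {Y A : Finset V} (hY : Y.Nonempty)
    (hA : A ⊆ Y) {b : V → ℝ} (hb : ∀ v, 0 ≤ b v ∧ b v ≤ 1) {ε : ℝ} (hε : 0 < ε)
    (h : ε * Y.card * Fintype.card V < |∑ y ∈ A, ∑ z, b z * (D y z - fY D Y z)|) :
    A.Nonempty ∧ ε * Y.card ≤ A.card ∧
      ε ^ 2 * Fintype.card V ≤ ∑ z, (fY D A z - fY D Y z) ^ 2 := by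
  have hY0 : (0 : ℝ) < Y.card := by exact_mod_cast Finset.card_pos.2 hY
  have hn : (0 : ℝ) < Fintype.card V := by
    obtain ⟨y, _⟩ := hY
    exact_mod_cast Fintype.card_pos_iff.2 ⟨y⟩
  have hne : A.Nonempty := by
    rcases A.eq_empty_or_nonempty with rfl | h'
    · simp at h; exact absurd h (not_lt.2 (by positivity))
    · exact h'
  have hA0 : (0 : ℝ) < A.card := by exact_mod_cast Finset.card_pos.2 hne
  have hAY : (A.card : ℝ) ≤ Y.card := by exact_mod_cast Finset.card_le_card hA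
  have e1 : ∑ y ∈ A, ∑ z, b z * (D y z - fY D Y z) =
      A.card * ∑ z, b z * (fY D A z - fY D Y z) := by
    rw [Finset.sum_comm, Finset.mul_sum]
    refine Finset.sum_congr rfl fun z _ => ?_
    rw [← Finset.mul_sum, Finset.sum_sub_distrib, ← card_mul_fY hne]
    simp; ring
  rw [e1, abs_mul, abs_of_pos hA0] at h
  set x := ∑ z, b z * (fY D A z - fY D Y z) with hx
  have h1 : |x| ≤ Fintype.card V := by
    refine (Finset.abs_sum_le_sum_abs _ _).trans ?_
    have := Finset.sum_le_card_nsmul univ (fun z => |b z * (fY D A z - fY D Y z)|) 1 fun z _ => by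
      have := hb z
      have := fY_mem hD A z
      have := fY_mem hD Y z
      rw [abs_le]; constructor <;> nlinarith
    simpa using this
  have h2 : x ^ 2 ≤ Fintype.card V * ∑ z, (fY D A z - fY D Y z) ^ 2 := by
    refine (Finset.sum_mul_sq_le_sq_mul_sq _ _ _).trans ?_
    refine mul_le_mul_of_nonneg_right ?_ (Finset.sum_nonneg fun _ _ => sq_nonneg _)
    simpa using Finset.sum_le_card_nsmul univ (fun z => b z ^ 2) 1 fun z _ => by
      have := hb z; nlinarith
  refine ⟨hne, ?_, ?_⟩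
  · have : ε * Y.card * Fintype.card V ≤ A.card * Fintype.card V :=
      h.le.trans (mul_le_mul_of_nonneg_left h1 hA0.le)
    exact le_of_mul_le_mul_right this hn
  · have h3 : ε * Fintype.card V ≤ |x| := by
      have : Y.card * (ε * Fintype.card V) ≤ Y.card * |x| := by
        have := mul_le_mul_of_nonneg_right hAY (abs_nonneg x)
        linarith
      exact le_of_mul_le_mul_left this hY0
    have h4 : (ε * Fintype.card V) ^ 2 ≤ x ^ 2 := by
      rw [← sq_abs x]; gcongr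
    have : Fintype.card V * (ε ^ 2 * Fintype.card V) ≤
        Fintype.card V * ∑ z, (fY D A z - fY D Y z) ^ 2 := by nlinarith
    exact le_of_mul_le_mul_left this hn

lemma homog_step (hD : ∀ y z, 0 ≤ D y z ∧ D y z ≤ 1) {Y : Finset V} (hY : Y.Nonempty) {ε : ℝ}
    (hε : 0 < ε) (h : ¬ Homog D Y ε) : ∃ A ⊆ Y, A.Nonempty ∧ ε * Y.card ≤ A.card ∧
      ∑ z, fY D Y z ^ 2 + ε ^ 2 * Fintype.card V ≤ ∑ z, fY D A z ^ 2 := by
  unfold Homog at h
  push Not at h
  obtain ⟨a, b, ha, hb, h⟩ := h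
  set c : V → ℝ := fun y => ∑ z, b z * (D y z - fY D Y z) with hc
  have e1 : ∑ y ∈ Y, ∑ z, a y * b z * (D y z - fY D Y z) = ∑ y ∈ Y, a y * c y := by
    refine Finset.sum_congr rfl fun y _ => ?_
    rw [hc, Finset.mul_sum]; exact Finset.sum_congr rfl fun z _ => by ring
  set A := Y.filter fun y => c y < 0 with hA
  set A' := Y.filter fun y => ¬ c y < 0 with hA'
  have e2 : ∑ y ∈ A, c y ≤ ∑ y ∈ Y, a y * c y := by
    rw [hA, Finset.sum_filter]
    refine Finset.sum_le_sum fun y _ => ?_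
    have := ha y
    split_ifs with h' <;> nlinarith
  have e3 : ∑ y ∈ Y, c y = 0 := by
    rw [hc, Finset.sum_comm]
    refine Finset.sum_eq_zero fun z _ => ?_
    rw [← Finset.mul_sum, Finset.sum_sub_distrib, ← card_mul_fY hY]; simp
  have e4 : ∑ y ∈ A, c y + ∑ y ∈ A', c y = 0 := by
    rw [hA, hA', Finset.sum_filter_add_sum_filter_not, e3]
  have hlt : ∑ y ∈ A, c y < -(ε * Y.card * Fintype.card V) := by linarith
  obtain ⟨a1, a2, a3⟩ := homog_dev hD hY (A := A) (Finset.filter_subset _ _) hb hε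
    (lt_of_lt_of_le (by linarith) (neg_le_abs (∑ y ∈ A, c y)))
  obtain ⟨b1, b2, b3⟩ := homog_dev hD hY (A := A') (Finset.filter_subset _ _) hb hε
    (lt_of_lt_of_le (by linarith) (le_abs_self (∑ y ∈ A', c y)))
  have hcard : (A.card : ℝ) + A'.card = Y.card := by
    exact_mod_cast Finset.card_filter_add_card_filter_not (s := Y) fun y => c y < 0
  have hf : ∀ z, A.card * fY D A z + A'.card * fY D A' z = Y.card * fY D Y z := by
    intro z
    rw [card_mul_fY a1, card_mul_fY b1, card_mul_fY hY, hA, hA',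
      Finset.sum_filter_add_sum_filter_not]
  have e5 : A.card * ∑ z, fY D A z ^ 2 + A'.card * ∑ z, fY D A' z ^ 2 =
      Y.card * ∑ z, fY D Y z ^ 2 + A.card * ∑ z, (fY D A z - fY D Y z) ^ 2 +
        A'.card * ∑ z, (fY D A' z - fY D Y z) ^ 2 := by
    simp only [Finset.mul_sum, ← Finset.sum_add_distrib]
    refine Finset.sum_congr rfl fun z _ => ?_
    have := hf z
    rw [← hcard] at this ⊢
    linear_combination (2 * fY D Y z) * this
  have hA0 : (0 : ℝ) < A.card := by exact_mod_cast Finset.card_pos.2 a1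
  have hA0' : (0 : ℝ) < A'.card := by exact_mod_cast Finset.card_pos.2 b1
  by_contra hcon
  push Not at hcon
  have c1 := hcon A (Finset.filter_subset _ _) a1 a2
  have c2 := hcon A' (Finset.filter_subset _ _) b1 b2
  have d1 := mul_lt_mul_of_pos_left c1 hA0
  have d2 := mul_lt_mul_of_pos_left c2 hA0'
  have d3 := mul_le_mul_of_nonneg_left a3 hA0.le
  have d4 := mul_le_mul_of_nonneg_left b3 hA0'.le
  rw [← hcard] at e5
  nlinarith

theorem exists_homog (hD : ∀ y z, 0 ≤ D y z ∧ D y z ≤ 1) {ε : ℝ} (hε : 0 < ε) (hε1 : ε ≤ 1)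
    {s : ℕ} (hs : 1 < s * ε ^ 2) {N : Finset V} (hN : N.Nonempty) :
    ∃ Y ⊆ N, Y.Nonempty ∧ ε ^ s * N.card ≤ Y.card ∧ Homog D Y ε := by
  have hn : (0 : ℝ) < Fintype.card V := by
    obtain ⟨y, _⟩ := hN
    exact_mod_cast Fintype.card_pos_iff.2 ⟨y⟩
  have key : ∀ s : ℕ, ∀ N : Finset V, N.Nonempty →
      (1 - s * ε ^ 2) * Fintype.card V < ∑ z, fY D N z ^ 2 →
      ∃ Y ⊆ N, Y.Nonempty ∧ ε ^ s * N.card ≤ Y.card ∧ Homog D Y ε := by
    intro s
    induction s with
    | zero =>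
      intro N _ h
      have := Finset.sum_le_card_nsmul univ (fun z => fY D N z ^ 2) 1 fun z _ => by
        have := fY_mem hD N z; nlinarith
      simp at h this
      linarith
    | succ s ih =>
      intro N hN h
      by_cases hH : Homog D N ε
      · refine ⟨N, Subset.rfl, hN, ?_, hH⟩
        have : ε ^ (s + 1) ≤ 1 := pow_le_one₀ hε.le hε1
        have : (0 : ℝ) ≤ N.card := by positivity
        nlinarith
      · obtain ⟨A, hA, a1, a2, a3⟩ := homog_step hD hN hε hH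
        obtain ⟨Y, hY, b1, b2, b3⟩ := ih A a1 (by push_cast at h; linarith)
        refine ⟨Y, hY.trans hA, b1, le_trans ?_ b2, b3⟩
        rw [pow_succ, mul_assoc]
        gcongr
  refine key s N hN (lt_of_lt_of_le ?_ (Finset.sum_nonneg fun _ _ => sq_nonneg _))
  nlinarith

section count
variable {L I : Type*} [Fintype L] [DecidableEq L] [Fintype I] [DecidableEq I]

lemma prod_mem01 {κ : Type*} (s : Finset κ) {f : κ → ℝ} (h : ∀ k, 0 ≤ f k ∧ f k ≤ 1) :
    0 ≤ ∏ k ∈ s, f k ∧ ∏ k ∈ s, f k ≤ 1 :=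
  ⟨Finset.prod_nonneg fun k _ => (h k).1, Finset.prod_le_one (fun k _ => (h k).1) fun k _ => (h k).2⟩

lemma mul_mem01 {a b : ℝ} (ha : 0 ≤ a ∧ a ≤ 1) (hb : 0 ≤ b ∧ b ≤ 1) : 0 ≤ a * b ∧ a * b ≤ 1 :=
  ⟨mul_nonneg ha.1 hb.1, mul_le_one₀ ha.2 hb.1 hb.2⟩

lemma count_one (hD : ∀ y z, 0 ≤ D y z ∧ D y z ≤ 1) {Y : Finset V} (hY : Y.Nonempty) {ε : ℝ}
    (hH : Homog D Y ε) (J : Finset I) : ∀ g : (I → V) → ℝ, (∀ z, 0 ≤ g z ∧ g z ≤ 1) →
    ∑ z, g z * ∏ i ∈ J, fY D Y (z i) - J.card * ε * (Fintype.card V : ℝ) ^ Fintype.card I ≤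
      ∑ z, g z * ((∑ y ∈ Y, ∏ i ∈ J, D y (z i)) / Y.card) := by
  have hY0 : (0 : ℝ) < Y.card := by exact_mod_cast Finset.card_pos.2 hY
  have hn : (0 : ℝ) < Fintype.card V := by
    obtain ⟨y, _⟩ := hY
    exact_mod_cast Fintype.card_pos_iff.2 ⟨y⟩
  induction J using Finset.induction_on with
  | empty => intro g _; simp [hY0.ne']
  | insert i0 J hi ih =>
    intro g hg
    have h1 := ih (fun z => g z * fY D Y (z i0)) fun z => mul_mem01 (hg z) (fY_mem hD Y _)
    have h2 := resample1 i0 fun z : I → V =>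
      ∑ y ∈ Y, (∏ i ∈ J, D y (z i)) * g z * (D y (z i0) - fY D Y (z i0))
    have h3 : ∀ z : I → V, -(ε * Y.card * Fintype.card V) ≤ ∑ v, ∑ y ∈ Y,
        (∏ i ∈ J, D y (Function.update z i0 v i)) * g (Function.update z i0 v) *
          (D y (Function.update z i0 v i0) - fY D Y (Function.update z i0 v i0)) := by
      intro z
      have := hH (fun y => ∏ i ∈ J, D y (z i)) (fun v => g (Function.update z i0 v))
        (fun y => prod_mem01 J fun i => hD _ _) fun v => hg _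
      rw [Finset.sum_comm]
      refine this.trans (le_of_eq (Finset.sum_congr rfl fun y _ => Finset.sum_congr rfl
        fun v _ => ?_))
      rw [Function.update_self]
      congr 2
      exact Finset.prod_congr rfl fun i hi' => by
        rw [Function.update_of_ne (by rintro rfl; exact hi hi')]
    have h4 := Finset.sum_le_sum fun z (_ : z ∈ univ) => h3 z
    rw [← h2, Finset.sum_const, Finset.card_univ, Fintype.card_fun, nsmul_eq_mul] at h4
    push_cast at h4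
    have h5 : -(ε * Y.card * (Fintype.card V : ℝ) ^ Fintype.card I) ≤ ∑ z : I → V,
        ∑ y ∈ Y, (∏ i ∈ J, D y (z i)) * g z * (D y (z i0) - fY D Y (z i0)) := by
      refine le_of_mul_le_mul_left (le_trans (le_of_eq (by ring)) h4) hn
    have h6 : ∑ z : I → V, g z * ((∑ y ∈ Y, ∏ i ∈ insert i0 J, D y (z i)) / Y.card) =
        ∑ z : I → V, g z * fY D Y (z i0) * ((∑ y ∈ Y, ∏ i ∈ J, D y (z i)) / Y.card) +
        (∑ z : I → V, ∑ y ∈ Y, (∏ i ∈ J, D y (z i)) * g z *
          (D y (z i0) - fY D Y (z i0))) / Y.card := by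
      rw [Finset.sum_div, ← Finset.sum_add_distrib]
      refine Finset.sum_congr rfl fun z _ => ?_
      simp only [Finset.prod_insert hi]
      rw [mul_div_assoc', mul_div_assoc', ← add_div, Finset.mul_sum, Finset.mul_sum,
        ← Finset.sum_add_distrib]
      congr 1
      exact Finset.sum_congr rfl fun y _ => by ring
    have h7 : -(ε * (Fintype.card V : ℝ) ^ Fintype.card I) ≤ (∑ z : I → V,
        ∑ y ∈ Y, (∏ i ∈ J, D y (z i)) * g z * (D y (z i0) - fY D Y (z i0))) / Y.card := by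
      rw [le_div_iff₀ hY0]; linarith
    have h8 : ∑ z : I → V, g z * ∏ i ∈ insert i0 J, fY D Y (z i) =
        ∑ z : I → V, g z * fY D Y (z i0) * ∏ i ∈ J, fY D Y (z i) :=
      Finset.sum_congr rfl fun z _ => by rw [Finset.prod_insert hi, mul_assoc]
    rw [h6, h8, Finset.card_insert_of_notMem hi]
    push_cast
    linarith

lemma count_many (hD : ∀ y z, 0 ≤ D y z ∧ D y z ≤ 1) {Y : L → Finset V} (hY : ∀ l, (Y l).Nonempty)
    {ε : ℝ} (hε : 0 ≤ ε) (hH : ∀ l, Homog D (Y l) ε) (B : L → Finset I) (s : Finset L) :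
    ∀ g : (I → V) → ℝ, (∀ z, 0 ≤ g z ∧ g z ≤ 1) →
    ∑ z, g z * ∏ l ∈ s, ∏ i ∈ B l, fY D (Y l) (z i) -
        s.card * Fintype.card I * ε * (Fintype.card V : ℝ) ^ Fintype.card I ≤
      ∑ z, g z * ∏ l ∈ s, ((∑ y ∈ Y l, ∏ i ∈ B l, D y (z i)) / (Y l).card) := by
  induction s using Finset.induction_on with
  | empty => intro g _; simp
  | insert l s hl ih =>
    intro g hg
    have h1 := ih (fun z => g z * ∏ i ∈ B l, fY D (Y l) (z i)) fun z =>
      mul_mem01 (hg z) (prod_mem01 _ fun i => fY_mem hD _ _)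
    have h2 := count_one hD (hY l) (hH l) (B l)
      (fun z => g z * ∏ l ∈ s, ((∑ y ∈ Y l, ∏ i ∈ B l, D y (z i)) / (Y l).card)) fun z =>
      mul_mem01 (hg z) (prod_mem01 _ fun l => by
        have := fY_mem (D := fun y _ => ∏ i ∈ B l, D y (z i))
          (fun y _ => prod_mem01 _ fun i => hD _ _) (Y l) (hY l).choose
        exact this)
    have h3 : ((B l).card : ℝ) ≤ Fintype.card I := by exact_mod_cast Finset.card_le_univ _
    have h4 : (B l).card * ε * (Fintype.card V : ℝ) ^ Fintype.card I ≤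
        Fintype.card I * ε * (Fintype.card V : ℝ) ^ Fintype.card I := by gcongr
    simp only [Finset.prod_insert hl, Finset.card_insert_of_notMem hl]
    push_cast
    have e1 : ∑ z : I → V, g z * ((∏ i ∈ B l, fY D (Y l) (z i)) *
        ∏ l ∈ s, ∏ i ∈ B l, fY D (Y l) (z i)) = ∑ z : I → V, g z * (∏ i ∈ B l, fY D (Y l) (z i)) *
        ∏ l ∈ s, ∏ i ∈ B l, fY D (Y l) (z i) := Finset.sum_congr rfl fun _ _ => by ring
    have e2 : ∑ z : I → V, g z * (∏ i ∈ B l, fY D (Y l) (z i)) *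
        ∏ l ∈ s, ((∑ y ∈ Y l, ∏ i ∈ B l, D y (z i)) / (Y l).card) =
        ∑ z : I → V, g z * (∏ l ∈ s, ((∑ y ∈ Y l, ∏ i ∈ B l, D y (z i)) / (Y l).card)) *
        ∏ i ∈ B l, fY D (Y l) (z i) := Finset.sum_congr rfl fun _ _ => by ring
    have e3 : ∑ z : I → V, g z * (((∑ y ∈ Y l, ∏ i ∈ B l, D y (z i)) / (Y l).card) *
        ∏ l ∈ s, ((∑ y ∈ Y l, ∏ i ∈ B l, D y (z i)) / (Y l).card)) =
        ∑ z : I → V, g z * (∏ l ∈ s, ((∑ y ∈ Y l, ∏ i ∈ B l, D y (z i)) / (Y l).card)) *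
        ((∑ y ∈ Y l, ∏ i ∈ B l, D y (z i)) / (Y l).card) := Finset.sum_congr rfl fun _ _ => by ring
    rw [e1, e3]
    rw [e2] at h1
    linarith

theorem count_homog (hD : ∀ y z, 0 ≤ D y z ∧ D y z ≤ 1) {Y : L → Finset V}
    (hY : ∀ l, (Y l).Nonempty) {ε : ℝ} (hε : 0 ≤ ε) (hH : ∀ l, Homog D (Y l) ε)
    (B : L → Finset I) (g : (I → V) → ℝ) (hg : ∀ z, 0 ≤ g z ∧ g z ≤ 1) :
    (∏ l, ((Y l).card : ℝ)) * (∑ z, g z * ∏ l, ∏ i ∈ B l, fY D (Y l) (z i) -
        Fintype.card L * Fintype.card I * ε * (Fintype.card V : ℝ) ^ Fintype.card I) ≤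
      ∑ z, ∑ y ∈ Fintype.piFinset Y, g z * ∏ l, ∏ i ∈ B l, D (y l) (z i) := by
  have h1 := count_many hD hY hε hH B univ g hg
  rw [Finset.card_univ] at h1
  refine (mul_le_mul_of_nonneg_left h1 (Finset.prod_nonneg fun _ _ => by positivity)).trans
    (le_of_eq ?_)
  rw [Finset.mul_sum]
  refine Finset.sum_congr rfl fun z _ => ?_
  rw [← Finset.mul_sum, ← Finset.prod_univ_sum Y fun l y => ∏ i ∈ B l, D y (z i), mul_left_comm,
    ← Finset.prod_mul_distrib]
  congr 1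
  refine Finset.prod_congr rfl fun l _ => ?_
  have : ((Y l).card : ℝ) ≠ 0 := by exact_mod_cast (Finset.card_pos.2 (hY l)).ne'
  field_simp

end count

end Pool.Agent.Lib.MP_46505f_co
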