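import Pool.Agent.Lib.MP_46505f_co.Core
import Pool.Agent.Lib.MP_46505f_co.Sel

set_option autoImplicit false
set_option linter.unusedSectionVars false
open Finset
open Pool.Agent.Lib.MP_eaf82e_pr

namespace Pool.Agent.Lib.MP_46505f_co

/- A small sparse subgraph of large chromatic number, built layer by layer. -/

lemma blocks_bound {ι Y : Type*} [Fintype ι] [DecidableEq ι] {p : ℝ} (h0 : 0 ≤ p) (h1 : p ≤ 1)
    {b : ℕ} (hb0 : 0 < b) (hb : p * b ≤ 1) (Bl : Finset Y) (e : Y → Fin b → ι)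
    (he : ∀ y ∈ Bl, ∀ y' ∈ Bl, ∀ i i', e y i = e y' i' → y = y' ∧ i = i')
    (S : Y → Finset (Fin b)) :
    (p * b / 2) ^ Bl.card ≤ Pr (fun _ => p) (fun ω => ∀ y ∈ Bl, ∃ i, ω (e y i) = true) ∧
    Pr (fun _ => p) (fun ω => (∀ y ∈ Bl, ∃ i, ω (e y i) = true) ∧
      ∀ y ∈ Bl, ∀ i ∈ S y, ¬ ω (e y i) = true) ≤
      Real.exp (-((∑ y ∈ Bl, ((S y).card : ℝ)) / (2 * b))) *
        Pr (fun _ => p) (fun ω => ∀ y ∈ Bl, ∃ i, ω (e y i) = true) := by
  have hP := isP_const (ι := ι) h0 h1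
  have key : ∀ P : Y → (Fin b → Bool) → Prop,
      Pr (fun _ => p) (fun ω => ∀ y ∈ Bl, P y fun i => ω (e y i)) =
      ∏ y ∈ Bl, Pr (fun _ => p) fun ω => P y fun i => ω (e y i) := fun P => by
    unfold Pr
    simp only [one_forall]
    refine Ex_blocks _ Bl (fun y => univ.image (e y)) (fun y hy y' hy' hne =>
      Finset.disjoint_left.2 fun x a1 a2 => ?_) _ fun y _ ω ω' h => ?_
    · obtain ⟨i, -, rfl⟩ := Finset.mem_image.1 a1
      obtain ⟨i', -, a3⟩ := Finset.mem_image.1 a2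
      exact hne (he _ hy' _ hy _ _ a3).1.symm
    · rw [show (fun i => ω (e y i)) = fun i => ω' (e y i) from
        funext fun i => h _ (Finset.mem_image_of_mem _ (mem_univ i))]
  have a1 := key fun _ f => ∃ i, f i = true
  have a2 := key fun y f => (∃ i, f i = true) ∧ ∀ i ∈ S y, ¬ f i = true
  have a3 := fun y (hy : y ∈ Bl) => block_bound h0 h1 hb0 hb (e y)
    (fun i i' h => (he y hy y hy i i' h).2) (S y)
  simp only [forall₂_and] at a2
  rw [a2, a1, ← Finset.prod_const, Finset.sum_div, ← Finset.sum_neg_distrib, Real.exp_sum,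
    ← Finset.prod_mul_distrib]
  exact ⟨Finset.prod_le_prod (fun _ _ => by positivity) fun y hy => (a3 y hy).1,
    Finset.prod_le_prod (fun _ _ => Pr_nonneg hP _) fun y hy => (a3 y hy).2⟩

lemma one_add_pow_le' {x : ℝ} (h0 : 0 ≤ x) (h1 : x ≤ 1) : ∀ s : ℕ,
    (1 + x) ^ s ≤ 1 + x * (2 ^ s - 1)
  | 0 => by simp
  | s + 1 => by
    have a1 := one_add_pow_le' h0 h1 s
    have a2 : (1 : ℝ) ≤ 2 ^ s := one_le_pow₀ (by norm_num)
    rw [pow_succ, pow_succ]
    nlinarith only [a1, h0, h1, a2, mul_le_mul_of_nonneg_right a1 (by linarith : 0 ≤ 1 + x),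
      mul_nonneg (mul_nonneg h0 (sub_nonneg.2 h1)) (sub_nonneg.2 a2)]

lemma le_pow_four {K : ℝ} (hK : 1 ≤ K) : ∀ s : ℕ, 1 + 2 * K * (2 ^ s - 1) ≤ (1 + 4 * K) ^ s
  | 0 => by simp
  | s + 1 => by
    have a1 := le_pow_four hK s
    have a2 : (1 : ℝ) ≤ 2 ^ s := one_le_pow₀ (by norm_num)
    rw [pow_succ, pow_succ]
    nlinarith only [hK, a1, a2, mul_le_mul_of_nonneg_right a1 (by linarith : 0 ≤ 1 + 4 * K),
      mul_nonneg (mul_nonneg (by linarith : 0 ≤ K) (sub_nonneg.2 hK)) (sub_nonneg.2 a2),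
      mul_nonneg (by linarith : 0 ≤ K) (sub_nonneg.2 a2)]

lemma blocks_mgf {ι Y : Type*} [Fintype ι] [DecidableEq ι] {p K : ℝ} (h0 : 0 ≤ p) (h1 : p ≤ 1)
    {b : ℕ} (hb0 : 0 < b) (hK : 1 ≤ K) (hb : p * (K * b) ≤ 1) (Bl : Finset Y) (e : Y → Fin b → ι)
    (he : ∀ y ∈ Bl, ∀ y' ∈ Bl, ∀ i i', e y i = e y' i' → y = y' ∧ i = i')
    (S : Y → Finset (Fin b)) :
    Ex (fun _ => p) (fun ω => one (∀ y ∈ Bl, ∃ i, ω (e y i) = true) *
      ∏ y ∈ Bl, ∏ i ∈ S y, if ω (e y i) = true then 1 + K * b else 1) ≤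
      (1 + 4 * K) ^ (∑ y ∈ Bl, (S y).card) *
        Pr (fun _ => p) (fun ω => ∀ y ∈ Bl, ∃ i, ω (e y i) = true) := by
  have hP := isP_const (ι := ι) h0 h1
  have hb1 : (0 : ℝ) < b := by exact_mod_cast hb0
  have hpb : p * b ≤ 1 := le_trans (by gcongr; nlinarith only [hK]) hb
  have key : ∀ P : Y → (Fin b → Bool) → ℝ,
      Ex (fun _ => p) (fun ω => ∏ y ∈ Bl, P y fun i => ω (e y i)) =
      ∏ y ∈ Bl, Ex (fun _ => p) fun ω => P y fun i => ω (e y i) := fun P => by
    refine Ex_blocks _ Bl (fun y => univ.image (e y)) (fun y hy y' hy' hne =>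
      Finset.disjoint_left.2 fun x a1 a2 => ?_) _ fun y _ ω ω' h => ?_
    · obtain ⟨i, -, rfl⟩ := Finset.mem_image.1 a1
      obtain ⟨i', -, a3⟩ := Finset.mem_image.1 a2
      exact hne (he _ hy' _ hy _ _ a3).1.symm
    · rw [show (fun i => ω (e y i)) = fun i => ω' (e y i) from
        funext fun i => h _ (Finset.mem_image_of_mem _ (mem_univ i))]
  have a1 := key fun _ f => one (∃ i, f i = true)
  have a2 := key fun y f => one (∃ i, f i = true) * ∏ i ∈ S y, if f i = true then 1 + K * b else 1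
  unfold Pr
  simp only [one_forall, ← Finset.prod_mul_distrib]
  rw [a1, a2, ← Finset.prod_pow_eq_pow_sum, ← Finset.prod_mul_distrib]
  have hF : ∀ y (ω : ι → Bool), 0 ≤ ∏ i ∈ S y, if ω (e y i) = true then 1 + K * b else 1 :=
    fun y ω => Finset.prod_nonneg fun _ _ => by split_ifs <;> positivity
  refine Finset.prod_le_prod (fun y _ => Ex_nonneg hP fun ω => mul_nonneg (one_nonneg _) (hF y ω))
    fun y hy => ?_
  have inj : Function.Injective (e y) := fun i i' h => (he y hy y hy i i' h).2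
  have b1 := (block_bound h0 h1 hb0 hpb (e y) inj ∅).1
  have b2 := Ex_prod_inj p (S y) (e y) inj.injOn fun _ x => if x = true then 1 + K * b else 1
  simp only [if_true, Bool.false_eq_true, if_false, Finset.prod_const] at b2
  have b3 := one_add_pow_le' (x := p * (K * b)) (by positivity) hb (S y).card
  have b4 := le_pow_four hK (S y).card
  have b5 : (1 : ℝ) ≤ 2 ^ (S y).card := one_le_pow₀ (by norm_num)
  unfold Pr at b1
  calc _ ≤ Ex (fun _ => p) fun ω => one (∃ i, ω (e y i) = true) +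
          ((∏ i ∈ S y, if ω (e y i) = true then 1 + K * b else 1) - 1) := Ex_mono hP fun ω => by
        by_cases c : ∃ i, ω (e y i) = true
        · rw [one_pos' c]; linarith
        · rw [one_neg' c, Finset.prod_eq_one fun i _ => if_neg fun h => c ⟨i, h⟩]; norm_num
    _ ≤ _ := by
        rw [Ex_add, Ex_sub, Ex_const, b2, show p * (1 + K * b) + (1 - p) * 1 = 1 + p * (K * b) by ring]
        nlinarith only [b3, b4, h0, hb0, b1, b5, hK, mul_le_mul_of_nonneg_right b4 (le_trans (by positivity) b1),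
          mul_le_mul_of_nonneg_left b1 (by nlinarith only [b5, hK] : 0 ≤ 2 * K * (2 ^ (S y).card - 1))]

section
variable {g : ℕ} {T : Type} [Fintype T] [DecidableEq T]

def lay (T : Type) [Fintype T] (g j : ℕ) : Finset (Fin g × T) := univ.filter fun s => (s.1 : ℕ) < j

lemma mem_lay {j : ℕ} {s : Fin g × T} : s ∈ lay T g j ↔ (s.1 : ℕ) < j := by simp [lay]

noncomputable def wgt (m : ℝ) (ν : Fin g × T → Finset (Fin g × T)) (S : Finset (Fin g × T)) : ℝ :=
  ∏ s ∈ S, (1 + m) ^ (ν s ∩ S).card / m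

noncomputable def pot (m : ℝ) (h j : ℕ) (ν : Fin g × T → Finset (Fin g × T)) : ℝ :=
  ∑ S ∈ (lay T g j).powerset.filter fun S => S.card ≤ h, wgt m ν S

lemma wgt_nonneg {m : ℝ} (hm : 0 ≤ m) (ν : Fin g × T → Finset (Fin g × T))
    (S : Finset (Fin g × T)) : 0 ≤ wgt m ν S := Finset.prod_nonneg fun _ _ => by positivity

lemma pot_step {m : ℝ} (hm : 0 ≤ m) (h : ℕ) (J : Fin g) (ν : Fin g × T → Finset (Fin g × T))
    (hν : ∀ s ∈ lay T g J, ν s ⊆ lay T g J) (μ : T → Finset (Fin g × T))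
    (hμ : ∀ t, μ t ⊆ lay T g J) :
    pot m h (J + 1) (fun s => if s.1 = J then μ s.2 else ν s) ≤
      ∑ S ∈ (lay T g J).powerset.filter fun S => S.card ≤ h,
        wgt m ν S * ∏ t, (1 + (1 + m) ^ (μ t ∩ S).card / m) := by
  simp only [Finset.prod_one_add, Finset.mul_sum]
  rw [← Finset.sum_product']
  let φ : Finset (Fin g × T) → Finset (Fin g × T) × Finset T := fun S =>
    (S ∩ lay T g J, univ.filter fun t => (J, t) ∈ S)
  have key : ∀ S ∈ (lay T g (J + 1)).powerset.filter fun S => S.card ≤ h,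
      S = (φ S).1 ∪ (φ S).2.image fun t => (J, t) := fun S hS => by
    have hS := Finset.mem_powerset.1 (Finset.mem_filter.1 hS).1
    ext ⟨u, t⟩
    simp only [φ, Finset.mem_union, Finset.mem_inter, mem_lay, Finset.mem_image, Finset.mem_filter,
      Finset.mem_univ, true_and, Prod.mk.injEq]
    refine ⟨fun a => ?_, ?_⟩
    · rcases Nat.lt_succ_iff_lt_or_eq.1 (mem_lay.1 (hS a)) with c | c
      · exact Or.inl ⟨a, c⟩
      · obtain rfl : u = J := Fin.ext c
        exact Or.inr ⟨t, a, rfl, rfl⟩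
    · rintro (a | ⟨t, a, rfl, rfl⟩)
      exacts [a.1, a]
  have e : ∀ (A S : Finset (Fin g × T)), A ⊆ lay T g J → A ∩ S = A ∩ (φ S).1 := fun A S hA => by
    ext s; simp only [φ, Finset.mem_inter]; exact ⟨fun a => ⟨a.1, a.2, hA a.1⟩, fun a => ⟨a.1, a.2.1⟩⟩
  refine le_trans (le_of_eq ?_) (Finset.sum_le_sum_of_subset_of_nonneg (s := Finset.image φ
    ((lay T g (J + 1)).powerset.filter fun S => S.card ≤ h)) (fun z hz => ?_) fun z _ _ =>
    mul_nonneg (wgt_nonneg hm _ _) (Finset.prod_nonneg fun _ _ => by positivity))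
  · rw [Finset.sum_image fun S hS S' hS' e => by rw [key S hS, key S' hS', e]]
    refine Finset.sum_congr rfl fun S hS => ?_
    unfold wgt
    rw [Finset.prod_congr (key S hS) fun _ _ => rfl, Finset.prod_union (Finset.disjoint_left.2
      fun s a1 a2 => by
        obtain ⟨t, -, rfl⟩ := Finset.mem_image.1 a2
        exact lt_irrefl _ (mem_lay.1 (Finset.mem_inter.1 a1).2)),
      Finset.prod_image fun _ _ _ _ e => congrArg Prod.snd e]
    congr 1
    · refine Finset.prod_congr rfl fun s hs => ?_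
      have := (Finset.mem_inter.1 hs).2
      simp only [if_neg (Fin.ne_of_lt (mem_lay.1 this)), e _ S (hν s this)]
    · exact Finset.prod_congr rfl fun t _ => by simp only [if_true, e _ S (hμ t)]
  · obtain ⟨S, hS, rfl⟩ := Finset.mem_image.1 hz
    exact Finset.mem_product.2 ⟨Finset.mem_filter.2 ⟨Finset.mem_powerset.2 Finset.inter_subset_right,
      (Finset.card_le_card Finset.inter_subset_left).trans (Finset.mem_filter.1 hS).2⟩,
      Finset.mem_powerset.2 (subset_univ _)⟩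

variable {V : Type} [Fintype V] [DecidableEq V] {R : ℕ}

def pool (c : (Fin g × T) × Fin R → V) (j : ℕ) : Finset V := (lay T g j ×ˢ univ).image c

def Inv (c : (Fin g × T) × Fin R → V) (h C : ℕ) (A : ℝ) (j : ℕ) (E : Finset (Sym2 V)) : Prop :=
  ∃ (κ : Fin g × T → Fin R) (ν : Fin g × T → Finset (Fin g × T)),
    (∀ s ∈ lay T g j, ∀ s' ∈ ν s, s'.1 < s.1 ∧ s(c (s, κ s), c (s', κ s')) ∈ E) ∧
    pot (Fintype.card T) h j ν ≤ A ∧
    ∀ u u' : Fin g, u < u' → (u' : ℕ) < j → ∀ S S' : Finset T, Fintype.card T ≤ 2 * C * S.card →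
      Fintype.card T ≤ 2 * C * S'.card → ∃ t ∈ S, ∃ t' ∈ S', (u, t) ∈ ν (u', t')

end

variable {g K b R : ℕ} {V : Type} [Fintype V] [DecidableEq V]

lemma ko_step {p : ℝ} (h0 : 0 ≤ p) (h1 : p ≤ 1) (hb0 : 0 < b) (hK0 : 0 < K) (k0 : Fin R)
    (hm : p * (K * b : ℕ) ≤ 1) {c : (Fin g × Fin K × Fin b) × Fin R → V}
    (hc : Function.Injective c) {h C : ℕ} (hK : 24 * C ^ 2 ≤ K) {A π c1 η : ℝ} (hA : 0 < A)
    (hη : 0 < η) (hπ : π ≤ (p * b / 2) ^ (g * K)) (hc1 : (1 + 4 * (K : ℝ)) ^ h ≤ c1)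
    (J : Fin g) {E : Finset (Sym2 V)} (hE : E ⊆ btw (pool c J) (pool c J)) (hI : Inv c h C A J E) :
    Pr (fun _ => p) (fun ω => ¬ ∃ E' ⊆ rs ω, Disjoint E' (btw (pool c J) (pool c J)) ∧
      E ∪ E' ⊆ btw (pool c (J + 1)) (pool c (J + 1)) ∧
      Inv c h C (A * (Real.exp c1 / η)) (J + 1) (E ∪ E')) ≤
      η + (K * b : ℕ) * Real.exp (-(π * R)) + g * Real.exp (-(K * b : ℕ)) := by
  classical
  have hP := isP_const (ι := Sym2 V) h0 h1
  obtain ⟨κ, ν, a1, a2, a3⟩ := hI
  have hT : Fintype.card (Fin K × Fin b) = K * b := by simp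
  rw [hT] at a2 a3
  obtain ⟨m, hm'⟩ : ∃ x : ℝ, x = (K * b : ℕ) := ⟨_, rfl⟩
  have hb1 : (0 : ℝ) < b := by exact_mod_cast hb0
  have hK1 : (1 : ℝ) ≤ K := by exact_mod_cast hK0
  have hmb : m = K * b := by rw [hm']; push_cast; rfl
  have hm0 : 0 < m := by rw [hmb]; positivity
  rw [← hm'] at hm a2 ⊢
  have hpb : p * b ≤ 1 := le_trans (by rw [hmb]; gcongr; nlinarith only [hK1]) hm
  let ed : Fin K × Fin b → Fin R → Fin g × Fin K × Fin b → Sym2 V := fun t k s =>
    s(c ((J, t), k), c (s, κ s))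
  have hed : ∀ t k t' k', ∀ s ∈ lay _ g J, ∀ s' ∈ lay _ g J, ed t k s = ed t' k' s' →
      t = t' ∧ k = k' ∧ s = s' := fun t k t' k' s hs s' hs' e => by
    rcases Sym2.eq_iff.1 e with e | e
    · have e1 := hc e.1
      simp only [Prod.mk.injEq, true_and] at e1
      exact ⟨e1.1, e1.2, congrArg Prod.fst (hc e.2)⟩
    · have := mem_lay.1 hs'
      rw [← show J = s'.1 from congrArg (fun z => z.1.1) (hc e.1)] at this
      exact absurd this (lt_irrefl _)
  let B := fun t k => (lay _ g J).image (ed t k)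
  have hB : ∀ t k t' k', t ≠ t' ∨ k ≠ k' → Disjoint (B t k) (B t' k') := fun t k t' k' hne =>
    Finset.disjoint_left.2 fun x b1 b2 => by
      obtain ⟨s, hs, rfl⟩ := Finset.mem_image.1 b1
      obtain ⟨s', hs', e⟩ := Finset.mem_image.1 b2
      have := hed _ _ _ _ _ hs' _ hs e
      tauto
  let nbr := fun t k (ω : Sym2 V → Bool) => (lay _ g J).filter fun s => ω (ed t k s) = true
  have hnbr : ∀ t k, Dep (B t k) (nbr t k) := fun t k ω ω' e =>
    Finset.filter_congr fun s hs => by rw [e _ (Finset.mem_image_of_mem _ hs)]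
  let gd := fun t k (ω : Sym2 V → Bool) => ∀ y ∈ lay (Fin K) g J, ∃ i,
    ω (ed t k (y.1, y.2, i)) = true
  have hgd : ∀ t k, Dep (B t k) (gd t k) := fun t k ω ω' e => propext (forall₂_congr fun y hy =>
    exists_congr fun i => by rw [e _ (Finset.mem_image_of_mem _ (mem_lay.2 (mem_lay.1 hy :)))])
  have hinj : ∀ t k, ∀ y ∈ lay (Fin K) g J, ∀ y' ∈ lay (Fin K) g J, ∀ i i',
      ed t k (y.1, y.2, i) = ed t k (y'.1, y'.2, i') → y = y' ∧ i = i' :=
    fun t k y hy y' hy' i i' e => by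
      have := (hed _ _ _ _ _ (mem_lay.2 (mem_lay.1 hy :)) _ (mem_lay.2 (mem_lay.1 hy' :)) e).2.2
      simp only [Prod.mk.injEq] at this
      exact ⟨Prod.ext this.1 this.2.1, this.2.2⟩
  have hc0 : 0 ≤ c1 := le_trans (by positivity) hc1
  have hbl := fun t k => blocks_bound h0 h1 hb0 hpb (lay (Fin K) g J)
    (fun y i => ed t k (y.1, y.2, i)) (hinj t k)
  have hπ' : ∀ t k, π ≤ Pr (fun _ => p) (gd t k) := fun t k => hπ.trans (le_trans
    (pow_le_pow_of_le_one (by positivity) (by linarith)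
      ((Finset.card_le_univ _).trans_eq (by simp))) (hbl t k fun _ => ∅).1)
  let sl := fun t ω => sel k0 fun k => gd t k ω
  let 𝓟 := (lay (Fin K × Fin b) g J).powerset.filter fun S => S.card ≤ h
  let f := fun ω => ∑ S ∈ 𝓟, wgt m ν S *
    ∏ t, one (∃ k, gd t k ω) * (1 + (1 + m) ^ (nbr t (sl t ω) ω ∩ S).card / m)
  let 𝓠 := univ.filter fun z : Fin g × Finset (Fin K × Fin b) × Finset (Fin K × Fin b) =>
    z.1 < J ∧ K * b ≤ 2 * C * z.2.1.card ∧ K * b ≤ 2 * C * z.2.2.card
  refine (Pr_mono hP (F := fun ω => (A * (Real.exp c1 / η) ≤ f ω ∨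
    ∃ t ∈ univ, ∀ k ∈ univ, ¬ gd t k ω) ∨ ∃ z ∈ 𝓠, ∀ t' ∈ z.2.2, (∃ k, gd t' k ω) ∧
      ∀ t ∈ z.2.1, (z.1, t) ∉ nbr t' (sl t' ω) ω) fun ω hω => ?_).trans
    ((Pr_or_le hP _ _).trans (add_le_add ((Pr_or_le hP _ _).trans (add_le_add ?_ ?_)) ?_))
  · by_contra hcon
    simp only [not_or, not_exists, not_and, not_forall, not_not, not_le] at hcon
    obtain ⟨⟨b1, b2⟩, b3⟩ := hcon
    have b4 : ∀ t, ∃ k, gd t k ω := fun t => let ⟨k, _, h⟩ := b2 t (mem_univ _); ⟨k, h⟩
    have hmono : pool c J ⊆ pool c (J + 1) := Finset.image_subset_image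
      (Finset.product_subset_product_left fun s hs => mem_lay.2 ((mem_lay.1 hs).trans (by omega)))
    refine hω ⟨(rs ω ∩ btw (pool c (J + 1)) (pool c (J + 1))) \ btw (pool c J) (pool c J),
      Finset.sdiff_subset.trans Finset.inter_subset_left, Finset.sdiff_disjoint,
      Finset.union_subset (hE.trans (Finset.image_subset_image
        (Finset.product_subset_product hmono hmono)))
        (Finset.sdiff_subset.trans Finset.inter_subset_right),
      fun s => if s.1 = J then sl s.2 ω else κ s,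
      fun s => if s.1 = J then nbr s.2 (sl s.2 ω) ω else ν s, fun s hs s' hs' => ?_, ?_,
      fun u u' huu hu S S' c1 c2 => ?_⟩
    · by_cases e : s.1 = J
      · simp only [if_pos e] at hs' ⊢
        obtain ⟨d1, d2⟩ := Finset.mem_filter.1 hs'
        have d3 : s'.1 < J := mem_lay.1 d1
        rw [if_neg d3.ne, show s = (J, s.2) from Prod.ext e rfl]
        have d4 : ∀ s k, s ∈ lay _ g (J + 1) → c (s, k) ∈ pool c (J + 1) := fun s k hs =>
          Finset.mem_image_of_mem _ (Finset.mem_product.2 ⟨hs, mem_univ _⟩)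
        refine ⟨d3, Finset.mem_union_right _ (Finset.mem_sdiff.2 ⟨Finset.mem_inter.2 ⟨mem_rs.2 d2,
          mem_btw.2 ⟨_, d4 _ _ (mem_lay.2 (by simp)), _, d4 _ _ (mem_lay.2 (by
            have := mem_lay.1 d1; omega)), rfl⟩⟩, fun d5 => ?_⟩)⟩
        obtain ⟨x, e1, y, e2, e3⟩ := mem_btw.1 d5
        have : c ((J, s.2), sl s.2 ω) ∈ pool c J := by
          rcases Sym2.eq_iff.1 e3 with e4 | e4
          exacts [e4.1 ▸ e1, e4.1 ▸ e2]
        obtain ⟨z, e4, e5⟩ := Finset.mem_image.1 this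
        rw [hc e5] at e4
        exact lt_irrefl _ (mem_lay.1 (Finset.mem_product.1 e4).1)
      · have d1 : (s.1 : ℕ) < J := by
          have := mem_lay.1 hs
          have : (s.1 : ℕ) ≠ J := fun h => e (Fin.ext h)
          omega
        simp only [if_neg e] at hs' ⊢
        obtain ⟨d2, d3⟩ := a1 s (mem_lay.2 d1) s' hs'
        rw [if_neg (d2.trans d1).ne]
        exact ⟨d2, Finset.mem_union_left _ d3⟩
    · rw [hT, ← hm']
      refine (pot_step hm0.le h J ν (fun s hs s' hs' => mem_lay.2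
        (lt_trans (a1 s hs s' hs').1 (mem_lay.1 hs))) (fun t => nbr t (sl t ω) ω)
        fun t => Finset.filter_subset _ _).trans (le_trans (le_of_eq ?_) b1.le)
      simp only [f, one_pos' (b4 _), one_mul, 𝓟]
    · rw [hT] at c1 c2
      by_cases e : u' = J
      · subst e
        obtain ⟨t', d1, d2⟩ := b3 (u, S, S') (Finset.mem_filter.2 ⟨mem_univ _, huu, c1, c2⟩)
        obtain ⟨t, d3, d4⟩ := d2 (b4 t')
        exact ⟨t, d3, t', d1, by simpa using d4⟩
      · have : (u' : ℕ) ≠ J := fun h => e (Fin.ext h)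
        simpa only [if_neg e] using a3 u u' huu (by omega) S S' c1 c2
  · refine (Pr_markov hP (f := f) (by positivity) (fun ω => Finset.sum_nonneg fun S _ =>
      mul_nonneg (wgt_nonneg hm0.le _ _) (Finset.prod_nonneg fun t _ =>
        mul_nonneg (one_nonneg _) (by positivity))) fun _ h => h).trans ?_
    rw [div_le_iff₀ (by positivity), Ex_sum, mul_left_comm, mul_div_cancel₀ _ hη.ne']
    refine le_trans (Finset.sum_le_sum (g := fun S => wgt m ν S * Real.exp c1) fun S hS => ?_)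
      (by rw [← Finset.sum_mul]; exact mul_le_mul_of_nonneg_right a2 (Real.exp_pos _).le)
    rw [Ex_const_mul]
    refine mul_le_mul_of_nonneg_left ((sel_prod hP k0 B hB gd
      (fun t k ω => 1 + (1 + m) ^ (nbr t k ω ∩ S).card / m) hgd
      (fun t k => (hnbr t k).comp fun N => 1 + (1 + m) ^ (N ∩ S).card / m)
      (fun _ _ _ => by positivity) (l := 1 + c1 / m) (by positivity) (fun t k => ?_) univ).trans ?_)
      (wgt_nonneg hm0.le _ _)
    · rw [Finset.mem_filter, Finset.mem_powerset] at hS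
      have d1 := blocks_mgf h0 h1 hb0 hK1 (hmb ▸ hm) (lay (Fin K) g J)
        (fun y i => ed t k (y.1, y.2, i)) (hinj t k)
        fun y => univ.filter fun i => (y.1, y.2, i) ∈ S
      have d3 : ∀ F : Fin g × Fin K × Fin b → ℝ, ∏ y ∈ lay (Fin K) g J,
          ∏ i ∈ univ.filter fun i => (y.1, y.2, i) ∈ S, F (y.1, y.2, i) = ∏ s ∈ S, F s := fun F => by
        rw [← Finset.prod_fiberwise_of_maps_to (s := S) (t := lay (Fin K) g J)
          (g := fun s => (s.1, s.2.1)) fun s hs => mem_lay.2 (mem_lay.1 (hS.1 hs) :)]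
        refine Finset.prod_congr rfl fun y _ => Finset.prod_bij (fun i _ => (y.1, y.2, i))
          (fun i hi => Finset.mem_filter.2 ⟨(Finset.mem_filter.1 hi).2, rfl⟩)
          (fun i _ j _ e => by simpa using e) (fun s hs => ?_) fun _ _ => rfl
        obtain ⟨e1, rfl⟩ := Finset.mem_filter.1 hs
        exact ⟨s.2.2, Finset.mem_filter.2 ⟨mem_univ _, e1⟩, rfl⟩
      have d4 : (1 + 4 * (K : ℝ)) ^ (∑ y ∈ lay (Fin K) g J,
          (univ.filter fun i => (y.1, y.2, i) ∈ S).card) ≤ c1 := by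
        have := d3 fun _ => 1 + 4 * (K : ℝ)
        simp only [Finset.prod_const, Finset.prod_pow_eq_pow_sum] at this
        rw [this]
        exact (pow_le_pow_right₀ (by linarith) hS.2).trans hc1
      have d2 : Ex (fun _ => p) (fun ω => one (gd t k ω) * (1 + m) ^ (nbr t k ω ∩ S).card) ≤
          c1 * Pr (fun _ => p) (gd t k) := by
        refine le_trans (le_of_eq ?_) (d1.trans (mul_le_mul_of_nonneg_right d4 (Pr_nonneg hP _)))
        congr 1; funext ω
        rw [d3 fun s => if ω (ed t k s) = true then 1 + K * b else 1, Finset.prod_ite,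
          Finset.prod_const, Finset.prod_const_one, mul_one, hmb]
        congr 3; ext s
        simp only [nbr, Finset.mem_inter, Finset.mem_filter]
        exact ⟨fun h => ⟨h.2, h.1.2⟩, fun h => ⟨⟨hS.1 h.1, h.2⟩, h.1⟩⟩
      calc _ = Ex (fun _ => p) fun ω => one (gd t k ω) +
            m⁻¹ * (one (gd t k ω) * (1 + m) ^ (nbr t k ω ∩ S).card) := by
            congr 1; funext ω; ring
        _ ≤ Pr (fun _ => p) (gd t k) + m⁻¹ * (c1 * Pr (fun _ => p) (gd t k)) := by
            rw [Ex_add, Ex_const_mul]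
            exact add_le_add le_rfl (mul_le_mul_of_nonneg_left d2 (by positivity))
        _ = _ := by ring
    · rw [Finset.card_univ, hT]
      calc _ ≤ Real.exp (c1 / m) ^ (K * b) := by gcongr; linarith [Real.add_one_le_exp (c1 / m)]
        _ = _ := by rw [← Real.exp_nat_mul, ← hm', mul_div_cancel₀ _ hm0.ne']
  · refine (Pr_exists_le hP _ _).trans ((Finset.sum_le_card_nsmul _ _ _ fun t _ =>
      Pr_none hP (B t) (fun k j hne => hB t k t j (Or.inr hne)) (gd t) (hgd t) (hπ' t)).trans_eq ?_)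
    rw [Finset.card_univ, hT, nsmul_eq_mul, hm']
  · refine (Pr_exists_le hP _ _).trans ((Finset.sum_le_card_nsmul _ _ (Real.exp (-(3 * m)))
      fun z hz => ?_).trans ?_)
    · obtain ⟨u, S, S'⟩ := z
      obtain ⟨-, d1, d2, d3⟩ := Finset.mem_filter.1 hz
      dsimp only at d1 d2 d3 ⊢
      unfold Pr
      simp only [one_forall, one_and']
      simp only [← one_forall]
      refine (sel_prod hP k0 B hB gd (fun t' k ω => one (∀ t ∈ S, (u, t) ∉ nbr t' k ω)) hgd
        (fun t k => (hnbr t k).comp fun N => one (∀ t ∈ S, (u, t) ∉ N)) (fun _ _ _ => one_nonneg _)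
        (l := Real.exp (-(S.card / (2 * b)))) (Real.exp_pos _).le (fun t k => ?_) S').trans ?_
      · simp only [← one_and']
        refine le_trans (Pr_mono hP fun ω hω => ?_)
          ((hbl t k fun y => univ.filter fun i => y.1 = u ∧ (y.2, i) ∈ S).2.trans ?_)
        · refine ⟨hω.1, fun y hy i hi e => ?_⟩
          obtain ⟨-, rfl, e2⟩ := Finset.mem_filter.1 hi
          exact hω.2 _ e2 (Finset.mem_filter.2 ⟨mem_lay.2 d1, e⟩)
        · refine mul_le_mul_of_nonneg_right (Real.exp_le_exp.2 (neg_le_neg ?_)) (Pr_nonneg hP _)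
          gcongr
          rw [Finset.card_eq_sum_card_fiberwise (t := lay (Fin K) g J) (f := fun t => (u, t.1))
            fun t _ => mem_lay.2 d1, Nat.cast_sum]
          refine Finset.sum_le_sum fun y _ => Nat.cast_le.2 (Finset.card_le_card_of_injOn Prod.snd
            (fun t ht => ?_) fun t ht t' ht' e => Prod.ext ?_ e)
          · obtain ⟨e1, rfl⟩ := Finset.mem_filter.1 ht
            exact Finset.mem_filter.2 ⟨mem_univ _, rfl, e1⟩
          · exact congrArg Prod.snd ((Finset.mem_filter.1 ht).2.trans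
              (Finset.mem_filter.1 ht').2.symm)
      · rw [← Real.exp_nat_mul, Real.exp_le_exp, mul_neg, neg_le_neg_iff, mul_div_assoc',
          le_div_iff₀ (by positivity)]
        have e1 : m ≤ 2 * C * S.card := by rw [hm']; exact_mod_cast d2
        have e2 : m ≤ 2 * C * S'.card := by rw [hm']; exact_mod_cast d3
        have e3 : 24 * (C : ℝ) ^ 2 ≤ K := by exact_mod_cast hK
        have e4 := mul_le_mul e1 e2 hm0.le (by positivity)
        have e5 : (0 : ℝ) < C := by
          rcases Nat.eq_zero_or_pos C with rfl | e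
          · simp at e1; linarith
          · exact_mod_cast e
        refine le_of_mul_le_mul_left ?_ (by positivity : 0 < 4 * (C : ℝ) ^ 2)
        have := mul_le_mul_of_nonneg_right e3 (by positivity : 0 ≤ b * m)
        nlinarith only [e4, this, hmb, hm']
    · rw [nsmul_eq_mul]
      have e1 : ((2 ^ (K * b) : ℕ) : ℝ) ≤ Real.exp m := by
        rw [hm', ← mul_one ((K * b : ℕ) : ℝ), Real.exp_nat_mul, Nat.cast_pow]
        gcongr
        linarith only [Real.add_one_le_exp 1, Nat.cast_ofNat (R := ℝ) (n := 2)]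
      have e2 : (𝓠.card : ℝ) ≤ g * (Real.exp m * Real.exp m) := by
        refine (Nat.cast_le.2 (Finset.card_le_univ _)).trans ?_
        rw [Fintype.card_prod, Fintype.card_prod, Fintype.card_finset, hT, Fintype.card_fin,
          Nat.cast_mul, Nat.cast_mul]
        gcongr
      calc _ ≤ g * (Real.exp m * Real.exp m) * Real.exp (-(3 * m)) := by gcongr
        _ = _ := by rw [mul_assoc, ← Real.exp_add, ← Real.exp_add]; congr 2; ring

end Pool.Agent.Lib.MP_46505f_co
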