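import Pool.Agent.Lib.MP_46505f_co.Typ

set_option autoImplicit false
set_option linter.unusedSectionVars false
open Finset
open Pool.Agent.Lib.MP_eaf82e_pr

namespace Pool.Agent.Lib.MP_46505f_co

/- A container theorem for hypergraphs with labelled edges. -/

structure Tests (Λ O : Type) [Fintype O] where
  hit : O → Λ → Prop
  o0 : O
  κ : O → ℝ
  a : ℕ
  hit0 : ∀ l, hit o0 l
  pos : ∀ o, 0 < κ o
  card : ∀ l, cnt univ (fun o => hit o l) ≤ a

variable {ι Λ O : Type} [Fintype ι] [DecidableEq ι] [Fintype Λ] [Fintype O] (𝒯 : Tests Λ O)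

open Classical in
noncomputable def ldeg (w : Finset ι × Λ → ℝ) (T : Finset ι) (o : O) : ℝ :=
  ∑ x, if T ⊆ x.1 ∧ 𝒯.hit o x.2 then w x else 0

structure LHyp (w : Finset ι × Λ → ℝ) (k : ℕ) (K τ : ℝ) (D : Finset ι) : Prop where
  nonneg : ∀ x, 0 ≤ w x
  unif : ∀ x, w x ≠ 0 → x.1.card = k ∧ x.1 ⊆ D
  pos : 0 < ∑ x, w x
  deg : ∀ T o, T ≠ ∅ ∨ o ≠ 𝒯.o0 → ldeg 𝒯 w T o ≤ K * τ ^ T.card * 𝒯.κ o * ∑ x, w x

open Classical in
def Spr (P : Λ → Prop) (K : ℝ) : Prop := ∃ μ : Λ → ℝ, (∀ l, 0 ≤ μ l) ∧ 0 < ∑ l, μ l ∧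
  (∀ l, μ l ≠ 0 → P l) ∧ ∀ o ≠ 𝒯.o0, ∑ l, (if 𝒯.hit o l then μ l else 0) ≤ K * 𝒯.κ o * ∑ l, μ l

variable {𝒯}

lemma Spr.mono {P P' : Λ → Prop} {K K' : ℝ} (h : Spr 𝒯 P K) (hP : ∀ l, P l → P' l) (hK : K ≤ K') :
    Spr 𝒯 P' K' :=
  let ⟨μ, a1, a2, a3, a4⟩ := h
  ⟨μ, a1, a2, fun l h => hP l (a3 l h), fun o h => (a4 o h).trans (by
    have := 𝒯.pos o; gcongr)⟩

lemma LHyp.mono {w : Finset ι × Λ → ℝ} {k : ℕ} {K K' τ : ℝ} {D : Finset ι}
    (h : LHyp 𝒯 w k K τ D) (hK : K ≤ K') (hτ : 0 ≤ τ) : LHyp 𝒯 w k K' τ D :=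
  ⟨h.nonneg, h.unif, h.pos, fun T o e => (h.deg T o e).trans (by
    have := 𝒯.pos o; have := h.pos; gcongr)⟩

lemma Tests.one_le (𝒯 : Tests Λ O) (l : Λ) : 1 ≤ 𝒯.a := by
  classical
  refine le_trans (Finset.card_pos.2 ⟨𝒯.o0, ?_⟩) (𝒯.card l)
  simpa using 𝒯.hit0 l

lemma ldeg_nonneg {w : Finset ι × Λ → ℝ} (h : ∀ x, 0 ≤ w x) (T : Finset ι) (o : O) :
    0 ≤ ldeg 𝒯 w T o := Finset.sum_nonneg fun e _ => by split_ifs; exacts [h e, le_rfl]

lemma ldeg_add (w w' : Finset ι × Λ → ℝ) (T : Finset ι) (o : O) :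
    ldeg 𝒯 (w + w') T o = ldeg 𝒯 w T o + ldeg 𝒯 w' T o := by
  unfold ldeg
  rw [← Finset.sum_add_distrib]
  refine Finset.sum_congr rfl fun e _ => ?_
  split_ifs <;> simp

lemma ldeg_mono {w w' : Finset ι × Λ → ℝ} (h : ∀ e, w e ≤ w' e) (T : Finset ι) (o : O) :
    ldeg 𝒯 w T o ≤ ldeg 𝒯 w' T o :=
  Finset.sum_le_sum fun e _ => by split_ifs; exacts [h e, le_rfl]

lemma sum_insert_eq' (v : ι) (F : Finset ι × Λ → ℝ) :
    ∑ x : Finset ι × Λ, (if v ∉ x.1 then F (insert v x.1, x.2) else 0) =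
      ∑ x : Finset ι × Λ, if v ∈ x.1 then F x else 0 := by
  rw [Fintype.sum_prod_type_right, Fintype.sum_prod_type_right]
  exact Finset.sum_congr rfl fun l _ => sum_insert_eq v fun e => F (e, l)

lemma sum_ldeg_le {g : Finset ι × Λ → ℝ} {k : ℕ} (h0 : ∀ x, 0 ≤ g x)
    (h : ∀ x, g x ≠ 0 → x.1.card = k) :
    ∑ y : Finset ι × O, ldeg 𝒯 g y.1 y.2 ≤ 2 ^ k * 𝒯.a * ∑ x, g x := by
  classical
  unfold ldeg
  rw [Finset.sum_comm, Finset.mul_sum]
  refine Finset.sum_le_sum fun x _ => ?_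
  by_cases he : g x = 0
  · simp [he]
  · rw [← Finset.sum_filter, Finset.sum_const, nsmul_eq_mul]
    refine mul_le_mul_of_nonneg_right ?_ (h0 x)
    have : (univ.filter fun y : Finset ι × O => y.1 ⊆ x.1 ∧ 𝒯.hit y.2 x.2) =
        x.1.powerset ×ˢ univ.filter fun o => 𝒯.hit o x.2 := by ext; simp
    rw [this, Finset.card_product, Finset.card_powerset, h x he]
    exact_mod_cast Nat.mul_le_mul_left _ (𝒯.card x.2)

section step
variable (𝒯) (w : Finset ι × Λ → ℝ) (K τ θ : ℝ) (b : ℕ)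

def lavail (g : Finset ι × Λ → ℝ) (x : Finset ι × Λ) : Prop :=
  ∀ T ⊆ x.1, ∀ o, 𝒯.hit o x.2 → T ≠ ∅ ∨ o ≠ 𝒯.o0 →
    ldeg 𝒯 g T o < K * τ ^ (T.card + 1) * 𝒯.κ o * ∑ x, w x

open Classical in
noncomputable def law (g : Finset ι × Λ → ℝ) (x : Finset ι × Λ) : ℝ :=
  if lavail 𝒯 w K τ g x then w x else 0

noncomputable def ladeg (g : Finset ι × Λ → ℝ) (v : ι) : ℝ :=
  ∑ x, if v ∈ x.1 then law 𝒯 w K τ g x else 0

noncomputable def llink (g : Finset ι × Λ → ℝ) (v : ι) : Finset ι × Λ → ℝ := fun x =>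
  if v ∉ x.1 then law 𝒯 w K τ g (insert v x.1, x.2) else 0

open Classical in
noncomputable def lrun (I : Finset ι) : List ι → Finset ι × Finset ι × (Finset ι × Λ → ℝ)
  | [] => (∅, ∅, 0)
  | v :: l => if (lrun I l).1.card < b ∧ θ ≤ ladeg 𝒯 w K τ (lrun I l).2.2 v then
      (if v ∈ I then (insert v (lrun I l).1, (lrun I l).2.1,
        (lrun I l).2.2 + llink 𝒯 w K τ (lrun I l).2.2 v)
      else ((lrun I l).1, insert v (lrun I l).2.1, (lrun I l).2.2)) else lrun I l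

lemma lrun_cons (I J : Finset ι) (hJ : J ⊆ I) : ∀ l : List ι,
    (lrun 𝒯 w K τ θ b I l).1 ⊆ J → lrun 𝒯 w K τ θ b J l = lrun 𝒯 w K τ θ b I l
  | [], _ => rfl
  | v :: l, h => by
    simp only [lrun] at h ⊢
    have ih := lrun_cons I J hJ l (Subset.trans (by
      split_ifs; exacts [Finset.subset_insert _ _, Subset.rfl, Subset.rfl]) h)
    rw [ih]
    by_cases h1 : (lrun 𝒯 w K τ θ b I l).1.card < b ∧ θ ≤ ladeg 𝒯 w K τ (lrun 𝒯 w K τ θ b I l).2.2 v
    · rw [if_pos h1] at h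
      rw [if_pos h1, if_pos h1]
      by_cases h2 : v ∈ I
      · rw [if_pos h2] at h
        rw [if_pos h2, if_pos (h (Finset.mem_insert_self _ _))]
      · rw [if_neg h2, if_neg fun e => h2 (hJ e)]
    · rw [if_neg h1, if_neg h1]

variable {𝒯 w K τ θ b}

lemma law_le (h : ∀ x, 0 ≤ w x) (g : Finset ι × Λ → ℝ) (x : Finset ι × Λ) :
    0 ≤ law 𝒯 w K τ g x ∧ law 𝒯 w K τ g x ≤ w x := by
  unfold law; split_ifs; exacts [⟨h x, le_rfl⟩, ⟨le_rfl, h x⟩]

lemma llink_ne {g : Finset ι × Λ → ℝ} {v : ι} {x : Finset ι × Λ} (h : llink 𝒯 w K τ g v x ≠ 0) :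
    v ∉ x.1 ∧ lavail 𝒯 w K τ g (insert v x.1, x.2) ∧ w (insert v x.1, x.2) ≠ 0 := by
  unfold llink law at h
  split_ifs at h with h1 h2
  · exact absurd rfl h
  · exact ⟨h1, h2, h⟩
  · exact absurd rfl h

lemma ladeg_anti (h : ∀ e, 0 ≤ w e) {g g' : Finset ι × Λ → ℝ} (hg : ∀ e, g e ≤ g' e) (v : ι) :
    ladeg 𝒯 w K τ g' v ≤ ladeg 𝒯 w K τ g v := by
  refine Finset.sum_le_sum fun e _ => ?_
  split_ifs with hv
  · unfold law
    by_cases ha : lavail 𝒯 w K τ g' e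
    · have ha' : lavail 𝒯 w K τ g e := fun T hT o h1 h2 =>
        (ldeg_mono hg T o).trans_lt (ha T hT o h1 h2)
      rw [if_pos ha, if_pos ha']
    · rw [if_neg ha]; split_ifs; exacts [h e, le_rfl]
  · rfl

lemma llink_deg {k : ℕ} {D : Finset ι} (h : LHyp 𝒯 w k K τ D) (hK : 0 ≤ K) (hτ : 0 ≤ τ)
    (g : Finset ι × Λ → ℝ) (v : ι) (T : Finset ι) (o : O) :
    ldeg 𝒯 (llink 𝒯 w K τ g v) T o ≤ K * τ ^ (T.card + 1) * 𝒯.κ o * ∑ x, w x := by
  classical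
  by_cases hv : v ∈ T
  · refine le_trans (le_of_eq (Finset.sum_eq_zero fun e _ => ?_)) (by
      have := h.pos; have := 𝒯.pos o; positivity)
    split_ifs with hT
    · by_contra hne; exact (llink_ne hne).1 (hT.1 hv)
    · rfl
  · have h1 := h.deg (insert v T) o (.inl (Finset.insert_ne_empty _ _))
    rw [Finset.card_insert_of_notMem hv] at h1
    refine le_trans ?_ h1
    have h2 : ldeg 𝒯 w (insert v T) o = ∑ x : Finset ι × Λ, if v ∈ x.1 then
        (if T ⊆ x.1 ∧ 𝒯.hit o x.2 then w x else 0) else 0 := by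
      refine Finset.sum_congr rfl fun e _ => ?_
      by_cases h1 : v ∈ e.1 <;> simp [Finset.insert_subset_iff, h1]
    rw [h2, ← sum_insert_eq']
    refine Finset.sum_le_sum fun e _ => ?_
    unfold llink
    by_cases hT : T ⊆ e.1 ∧ 𝒯.hit o e.2
    · rw [if_pos hT, if_pos (show T ⊆ insert v e.1 ∧ 𝒯.hit o e.2 from
        ⟨hT.1.trans (Finset.subset_insert _ _), hT.2⟩)]
      split_ifs; exacts [le_rfl, (law_le h.nonneg g _).2]
    · rw [if_neg hT]
      split_ifs <;> first | exact h.nonneg _ | exact le_rfl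

structure LInv (𝒯 : Tests Λ O) (w : Finset ι × Λ → ℝ) (K τ θ : ℝ) (b : ℕ) (D I : Finset ι)
    (l : List ι) (st : Finset ι × Finset ι × (Finset ι × Λ → ℝ)) : Prop where
  sub : st.1 ⊆ I
  disj : ∀ x ∈ st.2.1, x ∉ I
  nonneg : ∀ e, 0 ≤ st.2.2 e
  src : ∀ x, st.2.2 x ≠ 0 → ∃ v ∈ I, v ∉ x.1 ∧ w (insert v x.1, x.2) ≠ 0
  total : st.1.card * θ ≤ ∑ x, st.2.2 x
  deg : ∀ T o, T ≠ ∅ ∨ o ≠ 𝒯.o0 →
    ldeg 𝒯 st.2.2 T o ≤ 2 * (K * τ ^ (T.card + 1) * 𝒯.κ o * ∑ x, w x)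
  light : st.1.card < b → ∀ v ∈ l, v ∈ st.1 ∨ v ∈ st.2.1 ∨ ladeg 𝒯 w K τ st.2.2 v < θ
  card : st.1.card ≤ b
  supp : ∀ x, x ∈ st.1 ∨ x ∈ st.2.1 → x ∈ D

lemma lrun_inv {k : ℕ} {D : Finset ι} (h : LHyp 𝒯 w k K τ D) (hK : 0 < K) (hτ : 0 < τ)
    (hθ : 0 < θ) (I : Finset ι) :
    ∀ l : List ι, LInv 𝒯 w K τ θ b D I l (lrun 𝒯 w K τ θ b I l) := by
  have hE := h.pos
  intro l
  induction l with
  | nil =>
    refine ⟨by simp [lrun], by simp [lrun], by simp [lrun], by simp [lrun], by simp [lrun],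
      fun T o _ => ?_, by simp, by simp [lrun], by simp [lrun]⟩
    have := 𝒯.pos o
    simp only [lrun, ldeg, Pi.zero_apply, ite_self, Finset.sum_const_zero]
    positivity
  | cons v l ih =>
    simp only [lrun]
    generalize lrun 𝒯 w K τ θ b I l = st at ih
    obtain ⟨S, W, g⟩ := st
    by_cases hc : S.card < b ∧ θ ≤ ladeg 𝒯 w K τ g v
    · have hvs : v ∈ D := by
        obtain ⟨x, -, hx⟩ := Finset.exists_ne_zero_of_sum_ne_zero (hθ.trans_le hc.2).ne'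
        rw [ne_eq, ite_eq_right_iff, not_forall] at hx
        obtain ⟨h1, h2⟩ := hx
        exact (h.unif x fun e => h2 (le_antisymm (e ▸ (law_le h.nonneg g x).2)
          (law_le h.nonneg g x).1)).2 h1
      rw [if_pos hc]
      by_cases hv : v ∈ I
      · rw [if_pos hv]
        have hle : ∀ e, g e ≤ (g + llink 𝒯 w K τ g v) e := fun e => by
          have : 0 ≤ llink 𝒯 w K τ g v e := by
            unfold llink; split_ifs; exacts [le_rfl, (law_le h.nonneg g _).1]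
          simp only [Pi.add_apply]; linarith
        refine ⟨Finset.insert_subset hv ih.sub, ih.disj, fun e => (ih.nonneg e).trans (hle e),
          fun e he => ?_, ?_, fun T o hT => ?_, fun hb u hu => ?_, ?_, fun x hx => ?_⟩
        · by_cases h1 : g e = 0
          · have : llink 𝒯 w K τ g v e ≠ 0 := by simpa [h1] using he
            exact ⟨v, hv, (llink_ne this).1, (llink_ne this).2.2⟩
          · exact ih.src e h1
        · have h0 : ∑ x, llink 𝒯 w K τ g v x = ladeg 𝒯 w K τ g v := sum_insert_eq' v _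
          simp only [Pi.add_apply, Finset.sum_add_distrib, h0]
          have h1 := ih.total
          have h2 : ((insert v S).card : ℝ) ≤ S.card + 1 := by
            exact_mod_cast Finset.card_insert_le _ _
          simp only at h1
          nlinarith only [hc, h1, hθ, h2, hc.2]
        · simp only [ldeg_add]
          by_cases h1 : ldeg 𝒯 g T o < K * τ ^ (T.card + 1) * 𝒯.κ o * ∑ x, w x
          · linarith [llink_deg h hK.le hτ.le g v T o]
          · have : ldeg 𝒯 (llink 𝒯 w K τ g v) T o = 0 := by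
              refine Finset.sum_eq_zero fun e _ => ?_
              split_ifs with hTe
              · by_contra hne
                exact h1 ((llink_ne hne).2.1 T (hTe.1.trans (Finset.subset_insert _ _)) o hTe.2 hT)
              · rfl
            rw [this, add_zero]; exact ih.deg T o hT
        · rcases List.mem_cons.1 hu with rfl | hu
          · exact Or.inl (Finset.mem_insert_self _ _)
          · rcases ih.light hc.1 u hu with h1 | h1 | h1
            · exact Or.inl (Finset.mem_insert_of_mem h1)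
            · exact Or.inr (Or.inl h1)
            · exact Or.inr (Or.inr ((ladeg_anti h.nonneg hle u).trans_lt h1))
        · exact (Finset.card_insert_le _ _).trans hc.1
        · rcases hx with hx | hx
          · rcases Finset.mem_insert.1 hx with rfl | hx
            · exact hvs
            · exact ih.supp x (Or.inl hx)
          · exact ih.supp x (Or.inr hx)
      · rw [if_neg hv]
        refine ⟨ih.sub, fun x hx => ?_, ih.nonneg, ih.src, ih.total, ih.deg, fun hb u hu => ?_,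
          ih.card, fun x hx => ?_⟩
        · rcases Finset.mem_insert.1 hx with rfl | hx
          · exact hv
          · exact ih.disj x hx
        · rcases List.mem_cons.1 hu with rfl | hu
          · exact Or.inr (Or.inl (Finset.mem_insert_self _ _))
          · rcases ih.light hc.1 u hu with h1 | h1 | h1
            · exact Or.inl h1
            · exact Or.inr (Or.inl (Finset.mem_insert_of_mem h1))
            · exact Or.inr (Or.inr h1)
        · rcases hx with hx | hx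
          · exact ih.supp x (Or.inl hx)
          · rcases Finset.mem_insert.1 hx with rfl | hx
            · exact hvs
            · exact ih.supp x (Or.inr hx)
    · rw [if_neg hc]
      refine ⟨ih.sub, ih.disj, ih.nonneg, ih.src, ih.total, ih.deg, fun hb u hu => ?_,
        ih.card, ih.supp⟩
      rcases List.mem_cons.1 hu with rfl | hu
      · exact Or.inr (Or.inr (not_le.1 fun h' => hc ⟨hb, h'⟩))
      · exact ih.light hb u hu

lemma linv_final {k : ℕ} {D : Finset ι} {N : ℝ} (h : LHyp 𝒯 w (k + 1) K τ D) (hK : 0 < K)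
    (hτ : 0 < τ) (hN : 0 < N) (hD : (D.card : ℝ) ≤ N) (hb : τ * N ≤ b) (ha : 1 ≤ 𝒯.a)
    {I : Finset ι} {l : List ι} (hl : ∀ v, v ∈ l) {st : Finset ι × Finset ι × (Finset ι × Λ → ℝ)}
    (hi : LInv 𝒯 w K τ ((∑ x, w x) / (4 * N)) b D I l st)
    (hs : ∑ x, st.2.2 x < τ * (∑ x, w x) / (2 ^ (k + 2) * 𝒯.a)) :
    1 / (2 * K * τ * 𝒯.κ 𝒯.o0) ≤ ((st.1 ∪ st.2.1).card : ℝ) := by
  classical
  obtain ⟨S, W, g⟩ := st
  have hE := h.pos
  have hκ := 𝒯.pos 𝒯.o0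
  have ha' : (1 : ℝ) ≤ 𝒯.a := by exact_mod_cast ha
  obtain ⟨E, hE'⟩ : ∃ x, x = ∑ x, w x := ⟨_, rfl⟩
  have hg : ∀ x, g x ≠ 0 → x.1.card = k := by
    intro e he
    obtain ⟨v, _, h1, h2⟩ := hi.src e he
    have := (h.unif _ h2).1
    rw [Finset.card_insert_of_notMem h1] at this
    omega
  have b0 := sum_ldeg_le (𝒯 := 𝒯) hi.nonneg hg
  have ht := hi.total
  have hli := hi.light
  simp only at hs ht hli
  rw [← hE'] at hs ht hli hE
  rw [lt_div_iff₀ (by positivity), pow_add] at hs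
  have g0 : 0 ≤ ∑ x, g x := Finset.sum_nonneg fun x _ => hi.nonneg x
  have hSb : S.card < b := by
    by_contra hcon
    have h1 : (b : ℝ) ≤ S.card := by exact_mod_cast not_lt.1 hcon
    have h5 : τ * E / 4 = τ * N * (E / (4 * N)) := by field_simp
    have h6 : τ * N * (E / (4 * N)) ≤ S.card * (E / (4 * N)) :=
      mul_le_mul_of_nonneg_right (hb.trans h1) (by positivity)
    have : (1 : ℝ) ≤ 2 ^ k * 𝒯.a := one_le_mul_of_one_le_of_one_le (one_le_pow₀ (by norm_num)) ha'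
    nlinarith only [hs, ht, h5, h6, g0, this]
  let 𝓢 := univ.filter fun y : Finset ι × O => (y.1 ≠ ∅ ∨ y.2 ≠ 𝒯.o0) ∧
    K * τ ^ (y.1.card + 1) * 𝒯.κ y.2 * E ≤ ldeg 𝒯 g y.1 y.2
  have hpt : ∀ x, w x ≤ (∑ v ∈ S ∪ W, if {v} ⊆ x.1 ∧ 𝒯.hit 𝒯.o0 x.2 then w x else 0) +
      (∑ v ∈ D \ (S ∪ W), if v ∈ x.1 then law 𝒯 w K τ g x else 0) +
      ∑ y ∈ 𝓢, if y.1 ⊆ x.1 ∧ 𝒯.hit y.2 x.2 then w x else 0 := fun x => by
    have n1 : ∀ v ∈ S ∪ W, 0 ≤ if {v} ⊆ x.1 ∧ 𝒯.hit 𝒯.o0 x.2 then w x else 0 :=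
      fun _ _ => by split_ifs; exacts [h.nonneg x, le_rfl]
    have n2 : ∀ v ∈ D \ (S ∪ W), 0 ≤ if v ∈ x.1 then law 𝒯 w K τ g x else 0 :=
      fun _ _ => by split_ifs; exacts [(law_le h.nonneg g x).1, le_rfl]
    have n3 : ∀ y ∈ 𝓢, 0 ≤ if y.1 ⊆ x.1 ∧ 𝒯.hit y.2 x.2 then w x else 0 :=
      fun _ _ => by split_ifs; exacts [h.nonneg x, le_rfl]
    have m1 := Finset.sum_nonneg n1
    have m2 := Finset.sum_nonneg n2
    have m3 := Finset.sum_nonneg n3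
    by_cases hw : w x = 0
    · linarith
    by_cases ha : lavail 𝒯 w K τ g x
    · obtain ⟨v, hv⟩ : x.1.Nonempty := by rw [← Finset.card_pos, (h.unif x hw).1]; omega
      by_cases hvs : v ∈ S ∪ W
      · have := Finset.single_le_sum n1 hvs
        rw [if_pos ⟨Finset.singleton_subset_iff.2 hv, 𝒯.hit0 _⟩] at this
        linarith
      · have := Finset.single_le_sum n2 (Finset.mem_sdiff.2 ⟨(h.unif x hw).2 hv, hvs⟩)
        rw [if_pos hv] at this
        have e : law 𝒯 w K τ g x = w x := if_pos ha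
        linarith
    · unfold lavail at ha
      simp only [not_forall, not_lt] at ha
      obtain ⟨T, h1, o, h2, h3, h4⟩ := ha
      have := Finset.single_le_sum n3 (a := (T, o))
        (Finset.mem_filter.2 ⟨mem_univ _, h3, hE' ▸ h4⟩)
      rw [if_pos ⟨h1, h2⟩] at this
      linarith
  have hsum := Finset.sum_le_sum fun e (_ : e ∈ univ) => hpt e
  rw [Finset.sum_add_distrib, Finset.sum_add_distrib, ← hE', Finset.sum_comm,
    Finset.sum_comm (s := univ) (t := D \ (S ∪ W)), Finset.sum_comm (s := univ) (t := 𝓢)] at hsum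
  have b1 := Finset.sum_le_card_nsmul (S ∪ W) (fun v => ldeg 𝒯 w {v} 𝒯.o0)
    (K * τ ^ 1 * 𝒯.κ 𝒯.o0 * ∑ x, w x) fun v _ => by
    simpa using h.deg {v} 𝒯.o0 (.inl (Finset.singleton_ne_empty v))
  have b2 := Finset.sum_le_card_nsmul (D \ (S ∪ W)) (fun v => ladeg 𝒯 w K τ g v) (E / (4 * N))
    fun v hv => by
      have hv' := (Finset.mem_sdiff.1 hv).2
      rcases hli hSb v (hl v) with h1 | h1 | h1
      · exact absurd (Finset.mem_union_left _ h1) hv'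
      · exact absurd (Finset.mem_union_right _ h1) hv'
      · exact h1.le
  have b3 : ((D \ (S ∪ W)).card : ℝ) * (E / (4 * N)) ≤ E / 4 := by
    have h1 : ((D \ (S ∪ W)).card : ℝ) ≤ N :=
      le_trans (by exact_mod_cast Finset.card_le_card Finset.sdiff_subset) hD
    calc _ ≤ N * (E / (4 * N)) := mul_le_mul_of_nonneg_right h1 (by positivity)
      _ = E / 4 := by field_simp
  have b4 : τ * ∑ y ∈ 𝓢, ldeg 𝒯 w y.1 y.2 ≤ ∑ y : Finset ι × O, ldeg 𝒯 g y.1 y.2 := by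
    rw [Finset.mul_sum]
    refine (Finset.sum_le_sum fun y hy => ?_).trans (Finset.sum_le_sum_of_subset_of_nonneg
      (subset_univ 𝓢) fun T _ _ => ldeg_nonneg hi.nonneg _ _)
    obtain ⟨_, h1, h2⟩ := Finset.mem_filter.1 hy
    refine (mul_le_mul_of_nonneg_left (h.deg _ _ h1) hτ.le).trans (le_trans (le_of_eq ?_) h2)
    rw [← hE']; ring
  have b5 : ∑ y ∈ 𝓢, ldeg 𝒯 w y.1 y.2 ≤ E / 4 := le_of_mul_le_mul_left (by linarith only [b0, hs, b4]) hτ
  simp only [pow_one, nsmul_eq_mul, ← hE'] at b1 b2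
  have h5 : E / 2 ≤ (S ∪ W).card * (K * τ * 𝒯.κ 𝒯.o0 * E) := by
    unfold ldeg at b1 b5; unfold ladeg at b2; linarith only [hsum, b3, b5, b1, b2]
  rw [div_le_iff₀ (by positivity)]
  exact le_of_mul_le_mul_right (by simp only; linarith) hE

end step

theorem lcontainer {τ N : ℝ} (hτ : 0 < τ) (hN : 0 < N) {D : Finset ι} (hD : (D.card : ℝ) ≤ N)
    {b : ℕ} (hb : τ * N ≤ b) (ha : 1 ≤ 𝒯.a) : ∀ (k : ℕ) (w : Finset ι × Λ → ℝ) (K : ℝ), 0 < K →
    LHyp 𝒯 w k K τ D → ∃ φ : Finset ι → Finset ι × Finset ι, Cons φ ∧ ∀ I,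
      ¬ Spr 𝒯 (fun l => ∃ e ⊆ I, w (e, l) ≠ 0) (cc k * 𝒯.a ^ k * K) → (φ I).1.card ≤ k * b ∧
      (∀ x ∈ (φ I).2, x ∈ I → x ∈ (φ I).1) ∧ (φ I).2 ⊆ D ∧
      1 / (cc k * 𝒯.a ^ k * K * τ * 𝒯.κ 𝒯.o0) ≤ (φ I).2.card := by
  classical
  have ha' : (1 : ℝ) ≤ 𝒯.a := by exact_mod_cast ha
  have hκ := 𝒯.pos 𝒯.o0
  intro k
  induction k with
  | zero =>
    intro w K hK h
    refine ⟨fun _ => (∅, ∅), fun I => ⟨by simp, fun _ _ _ => rfl⟩, fun I hI => (hI ?_).elim⟩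
    have hE := h.pos
    refine ⟨fun l => ∑ e, w (e, l), fun l => Finset.sum_nonneg fun _ _ => h.nonneg _, ?_,
      fun l hl => ?_, fun o ho => ?_⟩
    · rwa [← Fintype.sum_prod_type_right]
    · obtain ⟨e, -, he⟩ := Finset.exists_ne_zero_of_sum_ne_zero hl
      have := Finset.card_eq_zero.1 (h.unif _ he).1
      exact ⟨e, this.le.trans (Finset.empty_subset _), he⟩
    · have := h.deg ∅ o (.inr ho)
      have := 𝒯.pos o
      have h5 := mul_pos (mul_pos hK this) hE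
      rw [← Fintype.sum_prod_type_right]
      refine le_trans (le_of_eq ?_) ((h.deg ∅ o (.inr ho)).trans (by simp [cc]; nlinarith only [h5]))
      rw [ldeg, Fintype.sum_prod_type_right]
      exact Finset.sum_congr rfl fun l _ => by split_ifs with e <;> simp [e]
  | succ k ih =>
    intro w K hK h
    have hE := h.pos
    have hK' : 0 < 2 ^ (k + 3) * 𝒯.a * K := by positivity
    have e0 : cc (k + 1) * 𝒯.a ^ (k + 1) * K = cc k * 𝒯.a ^ k * (2 ^ (k + 3) * 𝒯.a * K) := by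
      simp only [cc]; ring
    have : ∀ g : Finset ι × Λ → ℝ, ∃ φ : Finset ι → Finset ι × Finset ι, Cons φ ∧
        (LHyp 𝒯 g k (2 ^ (k + 3) * 𝒯.a * K) τ D → ∀ I, ¬ Spr 𝒯 (fun l => ∃ e ⊆ I, g (e, l) ≠ 0)
        (cc k * 𝒯.a ^ k * (2 ^ (k + 3) * 𝒯.a * K)) → (φ I).1.card ≤ k * b ∧
        (∀ x ∈ (φ I).2, x ∈ I → x ∈ (φ I).1) ∧ (φ I).2 ⊆ D ∧
        1 / (cc k * 𝒯.a ^ k * (2 ^ (k + 3) * 𝒯.a * K) * τ * 𝒯.κ 𝒯.o0) ≤ (φ I).2.card) := fun g => by
      by_cases hg : LHyp 𝒯 g k (2 ^ (k + 3) * 𝒯.a * K) τ D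
      · exact (ih g _ hK' hg).imp fun φ h => ⟨h.1, fun _ => h.2⟩
      · exact ⟨fun _ => (∅, ∅), fun I => ⟨by simp, fun _ _ _ => rfl⟩, fun h => absurd h hg⟩
    choose Φ hΦ1 hΦ2 using this
    let l := (univ : Finset ι).toList
    let r := fun I => lrun 𝒯 w K τ ((∑ x, w x) / (4 * N)) b I l
    have hinv : ∀ I, LInv 𝒯 w K τ _ b D I l (r I) := fun I => lrun_inv h hK hτ (by positivity) I l
    refine ⟨fun I => if ∑ x, (r I).2.2 x < τ * (∑ x, w x) / (2 ^ (k + 2) * 𝒯.a) then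
      ((r I).1, (r I).1 ∪ (r I).2.1) else
      ((r I).1 ∪ (Φ (r I).2.2 I).1, (Φ (r I).2.2 I).2), fun I => ?_, fun I hI => ?_⟩
    · by_cases hc : ∑ x, (r I).2.2 x < τ * (∑ x, w x) / (2 ^ (k + 2) * 𝒯.a)
      · simp only [if_pos hc]
        refine ⟨(hinv I).sub, fun J h1 h2 => ?_⟩
        have : r J = r I := lrun_cons 𝒯 w K τ _ b I J h2 l h1
        rw [this, if_pos hc]
      · simp only [if_neg hc]
        refine ⟨Finset.union_subset (hinv I).sub (hΦ1 _ I).1, fun J h1 h2 => ?_⟩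
        have : r J = r I := lrun_cons 𝒯 w K τ _ b I J h2 l (Finset.subset_union_left.trans h1)
        rw [this, if_neg hc, (hΦ1 _ I).2 J (Finset.subset_union_right.trans h1) h2]
    · have hi := hinv I
      by_cases hc : ∑ x, (r I).2.2 x < τ * (∑ x, w x) / (2 ^ (k + 2) * 𝒯.a)
      · simp only [if_pos hc]
        refine ⟨hi.card.trans (by nlinarith only []), fun x hx hxI => ?_,
          fun x hx => hi.supp x (Finset.mem_union.1 hx), ?_⟩
        · exact (Finset.mem_union.1 hx).resolve_right fun h' => hi.disj x h' hxI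
        · refine le_trans ?_ (linv_final h hK hτ hN hD hb ha (fun v => by simp [l]) hi hc)
          have := mul_le_mul (two_le_cc (k + 1)) (one_le_pow₀ ha' (n := k + 1)) zero_le_one
            (by linarith [two_le_cc (k + 1)])
          gcongr; linarith
      · simp only [if_neg hc]
        push Not at hc
        have hpos : 0 < τ * (∑ x, w x) / (2 ^ (k + 2) * 𝒯.a) := by positivity
        have hg : LHyp 𝒯 (r I).2.2 k (2 ^ (k + 3) * 𝒯.a * K) τ D := by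
          refine ⟨hi.nonneg, fun e he => ?_, hpos.trans_le hc, fun T o hT =>
            (hi.deg T o hT).trans ?_⟩
          · obtain ⟨v, _, h1, h2⟩ := hi.src e he
            have := h.unif _ h2
            rw [Finset.card_insert_of_notMem h1] at this
            exact ⟨by omega, (Finset.subset_insert _ _).trans this.2⟩
          · have := 𝒯.pos o
            calc _ = 2 ^ (k + 3) * 𝒯.a * K * τ ^ T.card * 𝒯.κ o *
                (τ * (∑ x, w x) / (2 ^ (k + 2) * 𝒯.a)) := by field_simp; ring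
              _ ≤ _ := by gcongr
        rw [e0] at hI ⊢
        obtain ⟨a1, a2, a3, a4⟩ := hΦ2 _ hg I fun hs => hI (hs.mono (fun l ⟨e, h1, h2⟩ =>
          let ⟨v, h3, _, h4⟩ := hi.src _ h2
          ⟨_, Finset.insert_subset h3 h1, h4⟩) le_rfl)
        refine ⟨(Finset.card_union_le _ _).trans ?_,
          fun x hx hxI => Finset.mem_union_right _ (a2 x hx hxI), a3, a4⟩
        have := hi.card; nlinarith only [a1, this]

/-- a labelled hypergraph inside D whose edges satisfy P -/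
def LSat (𝒯 : Tests Λ O) (P : Finset ι → Λ → Prop) (k0 : ℕ) (K τ : ℝ) (D : Finset ι) : Prop :=
  ∃ k ≤ k0, ∃ w, LHyp 𝒯 w k K τ D ∧ ∀ x, w x ≠ 0 → P x.1 x.2

theorem lcontainer_iter {𝒞 : Type} {τ N K : ℝ} (hτ : 0 < τ) (hN : 0 < N) (hK : 0 < K) {b k0 : ℕ}
    (hb : τ * N ≤ b) (ha : 1 ≤ 𝒯.a) (P : 𝒞 → Finset ι → Λ → Prop) (Good : Finset ι → Prop)
    {D0 : Finset ι} (hD0 : (D0.card : ℝ) ≤ N) (r : ℕ) : ∀ D ⊆ D0,
    D.card * (cc k0 * 𝒯.a ^ k0 * K * τ * 𝒯.κ 𝒯.o0) < r →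
    ∃ φ : (Fin r → 𝒞) → Finset ι → Finset ι × Finset ι, (∀ c, Cons (φ c)) ∧ ∀ I, Nonempty 𝒞 →
      (∀ D ⊆ D0, Good D → ∃ c, LSat 𝒯 (P c) k0 K τ D ∧
        ¬ Spr 𝒯 (fun l => ∃ e ⊆ I, P c e l) (cc k0 * 𝒯.a ^ k0 * K)) →
      ∃ c, (φ c I).1.card ≤ k0 * b * r ∧ (φ c I).2 ⊆ D0 ∧ ¬ Good (φ c I).2 ∧
        ∀ x ∈ I, x ∈ D → x ∈ (φ c I).1 ∪ (φ c I).2 := by
  classical
  have ha' : (1 : ℝ) ≤ 𝒯.a := by exact_mod_cast ha
  have hκ := 𝒯.pos 𝒯.o0
  have hc0 : ∀ k, 0 < cc k := fun k => lt_of_lt_of_le two_pos (two_le_cc _)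
  have hc1 := hc0 k0
  have triv : ∀ D : Finset ι, Cons fun _ : Finset ι => ((∅ : Finset ι), D) :=
    fun D I => ⟨by simp, fun _ _ _ => rfl⟩
  induction r with
  | zero => intro D _ h; exact absurd h (not_lt.2 (by push_cast; positivity))
  | succ r ih =>
    intro D hD hcard
    by_cases hG : Good D
    swap
    · exact ⟨fun _ _ => (∅, D), fun _ => triv D, fun I ⟨c⟩ _ =>
        ⟨fun _ => c, by simp, hD, hG, fun x _ hx => by simpa using hx⟩⟩
    have h1 : ∀ c, ∃ φ : Finset ι → Finset ι × Finset ι, Cons φ ∧ ∀ I, LSat 𝒯 (P c) k0 K τ D →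
        ¬ Spr 𝒯 (fun l => ∃ e ⊆ I, P c e l) (cc k0 * 𝒯.a ^ k0 * K) → (φ I).1.card ≤ k0 * b ∧
        (∀ x ∈ (φ I).2, x ∈ I → x ∈ (φ I).1) ∧ (φ I).2 ⊆ D ∧
        1 ≤ (φ I).2.card * (cc k0 * 𝒯.a ^ k0 * K * τ * 𝒯.κ 𝒯.o0) := fun c => by
      by_cases e : LSat 𝒯 (P c) k0 K τ D
      swap
      · exact ⟨_, triv ∅, fun _ h => absurd h e⟩
      obtain ⟨k, hk, w, hw, hP⟩ := e
      obtain ⟨φ, a1, a2⟩ := lcontainer hτ hN (le_trans (Nat.cast_le.2 (Finset.card_le_card hD)) hD0)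
        hb ha k w K hK hw
      have a3 : cc k * 𝒯.a ^ k * K ≤ cc k0 * 𝒯.a ^ k0 * K := by
        have := cc_mono hk; gcongr
      refine ⟨φ, a1, fun I _ hI => ?_⟩
      obtain ⟨b1, b2, b3, b4⟩ := a2 I fun h => hI (h.mono (fun l ⟨e, h1, h2⟩ => ⟨e, h1, hP _ h2⟩) a3)
      have := hc0 k
      rw [div_le_iff₀ (by positivity)] at b4
      exact ⟨b1.trans (Nat.mul_le_mul_right _ hk), b2, b3, b4.trans (by gcongr)⟩
    choose φ hφ1 hφ2 using h1
    have h2 : ∀ D1 : Finset ι, ∃ φ : (Fin r → 𝒞) → Finset ι → Finset ι × Finset ι,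
        (∀ c, Cons (φ c)) ∧ ((D \ D1).card * (cc k0 * 𝒯.a ^ k0 * K * τ * 𝒯.κ 𝒯.o0) < r →
        ∀ I, Nonempty 𝒞 → (∀ D ⊆ D0, Good D → ∃ c, LSat 𝒯 (P c) k0 K τ D ∧
        ¬ Spr 𝒯 (fun l => ∃ e ⊆ I, P c e l) (cc k0 * 𝒯.a ^ k0 * K)) →
        ∃ c, (φ c I).1.card ≤ k0 * b * r ∧ (φ c I).2 ⊆ D0 ∧ ¬ Good (φ c I).2 ∧
        ∀ x ∈ I, x ∈ D \ D1 → x ∈ (φ c I).1 ∪ (φ c I).2) := fun D1 => by
      by_cases h : (D \ D1).card * (cc k0 * 𝒯.a ^ k0 * K * τ * 𝒯.κ 𝒯.o0) < r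
      · exact (ih _ (Finset.sdiff_subset.trans hD) h).imp fun φ h => ⟨h.1, fun _ => h.2⟩
      · exact ⟨fun _ _ => (∅, ∅), fun _ => triv ∅, fun h' => absurd h' h⟩
    choose Φ hΦ1 hΦ2 using h2
    refine ⟨fun c I => ((φ (c 0) I).1 ∪ (Φ (φ (c 0) I).2 (Fin.tail c) I).1,
      (Φ (φ (c 0) I).2 (Fin.tail c) I).2), fun c I =>
      ⟨Finset.union_subset (hφ1 _ I).1 (hΦ1 _ _ I).1, fun J h1 h2 => ?_⟩, fun I hne hI => ?_⟩
    · have := (hφ1 (c 0) I).2 J (Finset.subset_union_left.trans h1) h2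
      simp only [this]
      rw [(hΦ1 _ _ I).2 J (Finset.subset_union_right.trans h1) h2]
    · obtain ⟨c, c1, c2⟩ := hI D hD hG
      obtain ⟨a1, a2, a3, a4⟩ := hφ2 c I c1 c2
      obtain ⟨c', b1, b2, b3, b4⟩ := hΦ2 (φ c I).2 (by
        rw [Finset.card_sdiff_of_subset a3, Nat.cast_sub (Finset.card_le_card a3)]
        push_cast at hcard
        linarith) I hne hI
      refine ⟨Fin.cons c c', ?_⟩
      simp only [Fin.cons_zero, Fin.tail_cons]
      refine ⟨(Finset.card_union_le _ _).trans (by nlinarith only [a1, b1]), b2, b3, fun x hx hxD => ?_⟩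
      by_cases h : x ∈ (φ c I).2
      · exact Finset.mem_union_left _ (Finset.mem_union_left _ (a2 x h hx))
      · rcases Finset.mem_union.1 (b4 x hx (Finset.mem_sdiff.2 ⟨hxD, h⟩)) with h' | h'
        · exact Finset.mem_union_left _ (Finset.mem_union_right _ h')
        · exact Finset.mem_union_right _ h'

theorem lcore {𝒞 : Type} [Fintype 𝒞] [Nonempty 𝒞] {p τ N K x η m0 : ℝ} (h0 : 0 ≤ p) (h1 : p ≤ 1)
    (hτ : 0 < τ) (hN : 0 < N) (hK : 0 < K) {b k0 r : ℕ} (hb : τ * N ≤ b) (ha : 1 ≤ 𝒯.a)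
    (P : 𝒞 → Finset ι → Λ → Prop) (Good 𝓘 : Finset ι → Prop) {E0 D0 : Finset ι}
    (hd : Disjoint E0 D0) (hD0 : (D0.card : ℝ) ≤ N)
    (hr : N * (cc k0 * 𝒯.a ^ k0 * K * τ * 𝒯.κ 𝒯.o0) < r) (hx : 0 < x) (hx1 : x ≤ 1) (e0 : 0 ≤ η)
    (e1 : η ≤ 1) (htest : ∀ D ⊆ D0, ¬ Good D → ∃ (A : Finset ι) (m : ℝ), m0 ≤ m ∧
      (A ∩ D).card ≤ m ∧ ∀ I, 𝓘 I → (k0 * b * r : ℕ) + (1 + η) * (p * m) ≤ (A ∩ I).card) :
    Pr (fun _ => p) (fun ω => E0 ⊆ rs ω ∧ ∃ I, 𝓘 I ∧ I ⊆ D0 ∧ I ⊆ rs ω ∧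
      ∀ D ⊆ D0, Good D → ∃ c, LSat 𝒯 (P c) k0 K τ D ∧
        ¬ Spr 𝒯 (fun l => ∃ e ⊆ I, P c e l) (cc k0 * 𝒯.a ^ k0 * K)) ≤
      p ^ E0.card * (Fintype.card 𝒞 ^ r * Real.exp ((k0 * b * r : ℕ) * Real.log (1 / x) +
        p * x * N - η ^ 2 * (p * m0) / 4)) := by
  classical
  have hP := isP_const (ι := ι) h0 h1
  obtain ⟨φ, hφ1, hφ2⟩ := lcontainer_iter hτ hN hK hb ha P Good hD0 r D0 Subset.rfl
    (lt_of_le_of_lt (by
      have := 𝒯.pos 𝒯.o0
      have := two_le_cc k0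
      gcongr) hr)
  choose! A m a1 a2 a3 using htest
  let 𝓣 := D0.powerset.filter fun T => T.card ≤ k0 * b * r
  refine (Pr_mono hP (F := fun ω => ∃ c, ∃ T ∈ 𝓣, ((φ c T).2 ⊆ D0 ∧ ¬ Good (φ c T).2) ∧
    E0 ∪ T ⊆ rs ω ∧ (1 + η) * (p * m (φ c T).2) ≤
      ((((A (φ c T).2 ∩ (φ c T).2) \ T) ∩ rs ω).card : ℝ)) fun ω hω => ?_).trans
    ((Pr_all hP _ fun c => (Pr_exists_le hP _ _).trans (Finset.sum_le_sum (g := fun T : Finset ι =>
      p ^ E0.card * Real.exp (-(η ^ 2 * (p * m0) / 4)) * p ^ T.card) fun T hT =>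
      Pr_and_le _ _ hP (by positivity) fun h => ?_)).trans ?_)
  · obtain ⟨b1, I, b2, b3, b4, b5⟩ := hω
    obtain ⟨c, c1, c2, c3, c4⟩ := hφ2 I inferInstance b5
    have e := (hφ1 c I).2 _ Subset.rfl (hφ1 c I).1
    refine ⟨c, (φ c I).1, Finset.mem_filter.2 ⟨Finset.mem_powerset.2 ((hφ1 c I).1.trans b3), c1⟩, ?_⟩
    rw [e]
    refine ⟨⟨c2, c3⟩, Finset.union_subset b1 ((hφ1 c I).1.trans b4), ?_⟩
    have d1 := a3 _ c2 c3 I b2
    have d2 : (A (φ c I).2 ∩ I).card ≤ (φ c I).1.card +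
        (((A (φ c I).2 ∩ (φ c I).2) \ (φ c I).1) ∩ rs ω).card := by
      refine le_trans (Finset.card_le_card fun e he => ?_) (Finset.card_union_le _ _)
      rw [Finset.mem_inter] at he
      by_cases h : e ∈ (φ c I).1
      · exact Finset.mem_union_left _ h
      · exact Finset.mem_union_right _ (Finset.mem_inter.2 ⟨Finset.mem_sdiff.2 ⟨Finset.mem_inter.2
          ⟨he.1, (Finset.mem_union.1 (c4 e he.2 (b3 he.2))).resolve_left h⟩, h⟩, b4 he.2⟩)
    have d3 := (Nat.cast_le (α := ℝ)).2 (d2.trans (Nat.add_le_add_right c1 _))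
    rw [Nat.cast_add] at d3
    linarith
  · have b2 := Finset.mem_powerset.1 (Finset.mem_filter.1 hT).1
    rw [Pr_sub_and _ _ ((A (φ c T).2 ∩ (φ c T).2) \ T) (Finset.disjoint_union_left.2 ⟨hd.mono_right
      (Finset.sdiff_subset.trans (Finset.inter_subset_right.trans h.1)), Finset.disjoint_sdiff⟩)
      ((dep_inter _).comp fun S => (1 + η) * (p * m (φ c T).2) ≤ S.card),
      Finset.card_union_of_disjoint (hd.mono_right b2), pow_add, mul_right_comm]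
    gcongr
    refine (Pr_up' h0 h1 _ (le_trans (Nat.cast_le.2 (Finset.card_le_card Finset.sdiff_subset))
      (a2 _ h.1 h.2)) e0 e1).trans ?_
    have := a1 _ h.1 h.2
    gcongr
  · rw [← Finset.mul_sum, Fintype.card_fun, Fintype.card_fin, Nat.cast_pow, mul_assoc,
      mul_left_comm, sub_eq_add_neg, Real.exp_add, mul_comm (Real.exp _)]
    gcongr
    have b1 : ∀ T ∈ 𝓣, p ^ T.card ≤ (1 / x) ^ (k0 * b * r) * (p * x) ^ T.card := fun T hT => by
      have : (1 / x) ^ T.card ≤ (1 / x) ^ (k0 * b * r) :=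
        pow_le_pow_right₀ (by rw [le_div_iff₀ hx]; linarith) (Finset.mem_filter.1 hT).2
      calc p ^ T.card = (1 / x) ^ T.card * (p * x) ^ T.card := by
            rw [← mul_pow]; congr 1; field_simp
        _ ≤ _ := by gcongr
    refine (Finset.sum_le_sum b1).trans ((Finset.sum_le_sum_of_subset_of_nonneg
      (Finset.filter_subset _ _) fun _ _ _ => by positivity).trans ?_)
    rw [← Finset.mul_sum, Real.exp_add, ← Real.log_pow, Real.exp_log (by positivity)]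
    gcongr
    exact (sum_pow_card D0 (by positivity)).trans (Real.exp_le_exp.2 (by
      nlinarith only [hD0, h0, hx, mul_nonneg h0 hx.le]))

end Pool.Agent.Lib.MP_46505f_co
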