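import Pool.Agent.Lib.MP_46505f_co.Main

set_option autoImplicit false
set_option linter.unusedSectionVars false
open Finset Filter Topology

namespace Pool.Agent.Lib.MP_46505f_co
open MP_eaf82e_pr

/- The range of p up to a polylogarithm over n. -/

variable {ι : Type*} [Fintype ι] [DecidableEq ι]

lemma Pr_fam2 {p : ℝ} (h0 : 0 ≤ p) (h1 : p ≤ 1) (𝓔 : Finset (Finset ι)) {μ : ℝ}
    (hμ : ∑ e ∈ 𝓔, p ^ e.card ≤ μ) (t : ℕ) (L : ℝ) :
    Pr (fun _ => p) (fun ω => ∃ 𝓢 ∈ 𝓔.powersetCard t,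
      (∀ a ∈ 𝓢, ∀ b ∈ 𝓢, a ≠ b → Disjoint a b) ∧ ∀ a ∈ 𝓢, a ⊆ rs ω) ≤
      Real.exp (Real.exp L * μ - t * L) := by
  refine (Pr_exists_le (isP_const h0 h1) _ _).trans ((Finset.sum_le_sum (g := fun 𝓢 =>
    Real.exp (-(t * L)) * ∏ a ∈ 𝓢, (Real.exp L * p ^ a.card)) fun 𝓢 h𝓢 => ?_).trans ?_)
  · by_cases hd : ∀ a ∈ 𝓢, ∀ b ∈ 𝓢, a ≠ b → Disjoint a b
    · have e1 : Pr (fun _ => p) (fun ω : ι → Bool => ∀ a ∈ 𝓢, a ⊆ rs ω) = ∏ a ∈ 𝓢, p ^ a.card := by
        unfold Pr
        simp only [one_forall]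
        rw [Ex_blocks _ 𝓢 (fun a => a) hd]
        · exact Finset.prod_congr rfl fun a _ => Pr_sub a
        · exact fun a _ => (dep_sub a).comp one
      refine (Pr_mono (isP_const h0 h1) fun ω h => h.2).trans (le_of_eq ?_)
      rw [e1, Finset.prod_mul_distrib, Finset.prod_const, (Finset.mem_powersetCard.1 h𝓢).2,
        ← mul_assoc, ← Real.exp_nat_mul, ← Real.exp_add]
      simp
    · rw [Pr_false _ fun ω h => hd h.1]; positivity
  rw [← Finset.mul_sum, sub_eq_neg_add, Real.exp_add]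
  refine mul_le_mul_of_nonneg_left ((Finset.sum_le_sum_of_subset_of_nonneg
    (fun _ h => Finset.mem_powerset.2 (Finset.mem_powersetCard.1 h).1)
    fun _ _ _ => by positivity).trans ?_) (by positivity)
  rw [← Finset.prod_one_add]
  refine (Finset.prod_le_prod (fun _ _ => by positivity) fun a _ =>
    (add_comm _ _).trans_le (Real.add_one_le_exp _)).trans ?_
  rw [← Real.exp_sum, ← Finset.mul_sum]
  gcongr

lemma fact_le : ∀ k : ℕ, Real.log k.factorial ≤ (k + 1) * Real.log (k + 1) - k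
  | 0 => by simp
  | k + 1 => by
    have := Real.log_le_sub_one_of_pos (by positivity : (0 : ℝ) < (k + 1) / (k + 1 + 1))
    rw [Real.log_div (by positivity) (by positivity), div_sub_one (by positivity),
      le_div_iff₀ (by positivity)] at this
    rw [Nat.factorial_succ]
    push_cast
    rw [Real.log_mul (by positivity) (by positivity)]
    linarith [fact_le k]

lemma Pr_le_k {p : ℝ} (h0 : 0 ≤ p) (h1 : p ≤ 1) (A : Finset ι) (k : ℕ) :
    A.card.choose k * (p ^ k * (1 - p) ^ A.card) ≤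
      Pr (fun _ => p) fun ω => (A ∩ rs ω).card ≤ k := by
  rw [← Finset.card_powersetCard, ← nsmul_eq_mul]
  refine (Finset.card_nsmul_le_sum _ (fun T => Pr (fun _ => p) fun ω => T ⊆ rs ω ∧
    ∀ e ∈ A \ T, ¬ ω (id e) = true) _ fun T hT => ?_).trans ?_
  · rw [Pr_sub_and T _ (A \ T) Finset.disjoint_sdiff fun ω ω' h => by
      simp only [id]; exact propext (forall₂_congr fun e he => by rw [h e he]),
      Pr_miss p _ id (Set.injOn_id _), (Finset.mem_powersetCard.1 hT).2]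
    exact mul_le_mul_of_nonneg_left (pow_le_pow_of_le_one (by linarith) (by linarith)
      (Finset.card_le_card Finset.sdiff_subset)) (by positivity)
  · unfold Pr
    rw [← Ex_sum]
    refine Ex_mono (isP_const h0 h1) fun ω => ?_
    have e : ∀ T ∈ A.powersetCard k, (T ⊆ rs ω ∧ ∀ e ∈ A \ T, ¬ ω (id e) = true) → T = A ∩ rs ω :=
      fun T hT h => Subset.antisymm (Finset.subset_inter (Finset.mem_powersetCard.1 hT).1 h.1)
        fun e he => by_contra fun f => h.2 e (Finset.mem_sdiff.2 ⟨(Finset.mem_inter.1 he).1, f⟩)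
          (mem_rs.1 (Finset.mem_inter.1 he).2)
    by_cases f : A ∩ rs ω ∈ A.powersetCard k
    · rw [Finset.sum_eq_single_of_mem _ f fun T hT h => one_neg' fun g => h (e T hT g),
        one_pos' (Finset.mem_powersetCard.1 f).2.le]
      exact one_le _
    · rw [Finset.sum_eq_zero fun T hT => one_neg' fun g => f (e T hT g ▸ hT)]
      exact one_nonneg _

lemma bin_low {p n y δ : ℝ} (h0 : 0 < p) (h1 : 2 * p ≤ δ) (d1 : δ ≤ 1 / 2) (y0 : 0 < y) (y1 : y ≤ 1)
    (hμ : 1 ≤ p * n) (A : Finset ι) (hA : A.card ≤ n)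
    (hA' : (1 - δ) * n + ⌊y * (p * n)⌋₊ ≤ A.card) :
    Real.exp (Real.log δ - 1 - p * n * (1 - y + y * Real.log y + 4 * δ)) ≤
      Pr (fun _ => p) fun ω => (A ∩ rs ω).card ≤ ⌊y * (p * n)⌋₊ := by
  obtain ⟨k, hk⟩ : ∃ x, x = ⌊y * (p * n)⌋₊ := ⟨_, rfl⟩
  have k1 : k ≤ y * (p * n) := hk ▸ Nat.floor_le (by positivity)
  have k2 : y * (p * n) ≤ k + 1 := hk ▸ (Nat.lt_floor_add_one _).le
  rw [← hk] at hA' ⊢
  have n0 : 0 < n := (mul_pos_iff_of_pos_left h0).1 (by linarith)
  have d0 : 0 < δ := by linarith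
  have a0 : 0 < (1 - δ) * n := mul_pos (by linarith) n0
  have a1 : (1 - δ) * n ≤ (A.card + 1 - k : ℕ) := by
    rw [Nat.cast_sub (by exact_mod_cast (by linarith only [h0, h1, d1, hA', a0] : (k : ℝ) ≤ A.card + 1))]
    push_cast; linarith
  refine le_trans ?_ ((mul_le_mul_of_nonneg_right ((div_le_div_of_nonneg_right (pow_le_pow_left₀ a0.le
    a1 k) (by positivity)).trans (Nat.pow_le_choose k A.card))
    (mul_nonneg (by positivity) (pow_nonneg (by linarith) _))).trans (Pr_le_k h0.le (by linarith) A k))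
  have p1 : 0 < 1 - p := by linarith
  rw [← Real.le_log_iff_exp_le (by positivity), Real.log_mul (by positivity) (by positivity),
    Real.log_div (by positivity) (by positivity), Real.log_mul (by positivity) (by positivity),
    Real.log_pow, Real.log_pow, Real.log_pow, Real.log_mul (by linarith) n0.ne']
  obtain ⟨μ, hm⟩ : ∃ x, x = p * n := ⟨_, rfl⟩
  have b0 : Real.log μ = Real.log p + Real.log n := hm ▸ Real.log_mul h0.ne' n0.ne'
  have b1 : -(2 * δ) ≤ Real.log (1 - δ) := le_trans (by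
    rw [le_sub_comm, inv_le_iff_one_le_mul₀ (by linarith)]; nlinarith only [h0, d1, h1])
    (Real.one_sub_inv_le_log_of_pos (by linarith))
  have b2 : -((1 + δ) * p) ≤ Real.log (1 - p) := le_trans (by
    rw [le_sub_comm, inv_le_iff_one_le_mul₀ p1]; nlinarith only [h0, d0, d1, h1, mul_pos h0 d0, mul_pos h0 h0])
    (Real.one_sub_inv_le_log_of_pos p1)
  have b3 := mul_le_mul_of_nonneg_left b2 (A.card.cast_nonneg (α := ℝ))
  have b4 := mul_le_mul_of_nonneg_left hA (by positivity : 0 ≤ (1 + δ) * p)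
  rw [← hm] at hμ k1 k2 ⊢
  have b5 := Real.log_le_sub_one_of_pos (by positivity : 0 < δ * μ)
  have b6 := Real.log_le_sub_one_of_pos (by positivity : 0 < (k + 1) / (y * μ))
  have b7 := Real.log_le_sub_one_of_pos (by positivity : 0 < (k + 1) / μ)
  rw [Real.log_mul d0.ne' (by positivity)] at b5
  rw [Real.log_div (by positivity) (by positivity), Real.log_mul y0.ne' (by positivity),
    div_sub_one (by positivity), le_div_iff₀ (by positivity)] at b6
  have b8 : y * μ ≤ μ := by nlinarith only [y1, y0, k1]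
  have b9 : ((k : ℝ) + 1) / μ ≤ 2 := by rw [div_le_iff₀ (by positivity)]; linarith
  rw [Real.log_div (by positivity) (by positivity)] at b7
  have c1 := mul_le_mul_of_nonneg_right k2 (by linarith : 0 ≤ Real.log μ - Real.log (k + 1) + 1)
  have c2 := mul_le_mul_of_nonneg_left b1 (k.cast_nonneg (α := ℝ))
  have c3 := mul_le_mul_of_nonneg_left (k1.trans b8) d0.le
  have c4 : (k : ℝ) * Real.log μ = k * Real.log p + k * Real.log n := by rw [b0]; ring
  linarith only [k1, hm, b3, b4, b5, b6, c1, c2, c3, c4, fact_le k, congrArg (δ * ·) hm]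

lemma ent_lt {x y : ℝ} (x0 : 0 ≤ x) (h : x < y) (y1 : y < 1) : 0 ≤ 1 - y + y * Real.log y ∧
    1 - y + y * Real.log y < 1 - x + x * Real.log x ∧ 1 - x + x * Real.log x ≤ 1 := by
  have y0 := x0.trans_lt h
  have a1 := mul_le_mul_of_nonneg_left (Real.one_sub_inv_le_log_of_pos y0) y0.le
  have a2 := Real.log_neg y0 y1
  rw [mul_sub, mul_inv_cancel₀ y0.ne'] at a1
  refine ⟨by linarith, ?_, by
    linarith [mul_nonpos_of_nonneg_of_nonpos x0 (Real.log_nonpos x0 (by linarith))]⟩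
  rcases x0.eq_or_lt with rfl | x0
  · nlinarith
  have a3 := mul_le_mul_of_nonneg_left (Real.log_le_sub_one_of_pos (div_pos y0 x0)) x0.le
  rw [Real.log_div y0.ne' x0.ne', mul_sub, mul_sub, mul_div_cancel₀ _ x0.ne'] at a3
  nlinarith

variable {W : Type} [Fintype W] [DecidableEq W] {H : SimpleGraph W} {p : ℕ → unitInterval}
  {span : Prop} {d x y : ℝ} {l : Filter ℕ}

theorem low_log [l.NeBot] (hl : l ≤ atTop) (hH : ¬ H.IsAcyclic) (hB : BelowL l p (m2 H)) {κ : ℝ}
    (hκ : 0 < κ) (y0 : 0 < y) (y1 : y < 1) (hd : d < y)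
    (hL : ∀ᶠ n : ℕ in l, (1 + κ) * Real.log n ≤ p n * n * (1 - y + y * Real.log y)) :
    ¬ Adm H p span d := by
  classical
  refine not_adm_of hl fun C => ?_
  obtain ⟨S, a4, hS⟩ := hB.small' hH
  obtain ⟨ε, ⟨e1, e2⟩, e0⟩ := (((ev_small 1 (sub_pos.2 hd)).and (ev_small (8 * (C + 1) : ℝ)
    one_pos)).and self_mem_nhdsWithin).exists
  replace e0 : 0 < ε := e0
  have hC0 := C.cast_nonneg (α := ℝ)
  obtain ⟨k, hk⟩ : ∃ x, x = Fintype.card W ^ 2 := ⟨_, rfl⟩
  obtain ⟨L, hL'⟩ : ∃ x : ℝ, x = 6 * (k + 1) / ε := ⟨_, rfl⟩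
  have hT := Real.tendsto_log_atTop.comp tendsto_natCast_atTop_atTop
  filter_upwards [hS _ (Real.exp_pos (-L)), hL, hl ((hT.eventually_ge_atTop (12 / ε ^ 2)).and
    ((hT.eventually_ge_atTop (10 / κ)).and ((hT.eventually_ge_atTop (2 * k / ε)).and
    ((tend_log.eventually_le_const (by norm_num : (0 : ℝ) < 1 / 10)).and
    ((tend_neg.eventually_le_const (by norm_num : (0 : ℝ) < 1 / 10)).and
    ((tendsto_natCast_atTop_atTop.eventually (ev_large 1 e0)).and (eventually_gt_atTop 0)))))))]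
    with n b3 b0 ⟨b4, b5, b1, b2, b6, b7, b8⟩
  simp only [Function.comp] at b4 b5 b1
  rw [div_le_iff₀ (by positivity)] at b4 b5 b1
  have hn : (0 : ℝ) < n := by exact_mod_cast b8
  have hP := isP_p p n
  have p0 := (p n).2.1
  have pn := pn_nonneg p n
  have l0 := Real.log_natCast_nonneg n
  have l1 : Real.log n ≤ p n * n := by
    nlinarith only [y0, y1, b0, b5, pn, mul_le_mul_of_nonneg_left (ent_lt y0.le (by linarith only [y1] : y < (y + 1) / 2)
      (by linarith only [y1])).2.2 pn]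
  let EB := (eF H).filter fun e => ∀ a ∈ e, a ∈ S
  have hEB : ∀ e ∈ EB, ∀ a ∈ e, a ∈ S := fun e he => (Finset.mem_filter.1 he).2
  let 𝓔 := pats S EB id (fun _ _ : Fin n => False) ⟨0, b8⟩
  obtain ⟨s, hs⟩ : ∃ x, x = n / (2 * (C + 1)) := ⟨_, rfl⟩
  have s1 : (C + 1) * (2 * s) ≤ n := by
    rw [hs, ← mul_assoc, mul_comm (C + 1)]; exact Nat.mul_div_le _ _
  have s2 : 2 * ε * n ≤ s := by
    have : n < 2 * (C + 1) * (s + 1) := by rw [hs]; exact Nat.lt_mul_div_succ _ (by omega)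
    have : (n : ℝ) ≤ 2 * (C + 1) * (s + 1) := by exact_mod_cast this.le
    nlinarith only [e2, e0, b7, this, mul_le_mul_of_nonneg_left this e0.le, s.cast_nonneg (α := ℝ)]
  obtain ⟨t, ht⟩ : ∃ x, x = ⌈ε * (p n * n) / (2 * (k + 1))⌉₊ := ⟨_, rfl⟩
  have t1 : ε * (p n * n) ≤ t * (2 * (k + 1)) := (div_le_iff₀ (by positivity)).1 (ht ▸ Nat.le_ceil _)
  have t2 : ((t * k : ℕ) : ℝ) ≤ ε * (p n * n) := by
    have := (Nat.ceil_lt_add_one (by positivity : 0 ≤ ε * (p n * n) / (2 * (k + 1)))).le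
    rw [← ht, ← sub_le_iff_le_add, le_div_iff₀ (by positivity)] at this
    have h1 := mul_le_mul_of_nonneg_left l1 e0.le
    rcases Nat.eq_zero_or_pos t with rfl | h
    · simpa using mul_nonneg e0.le pn
    have t9 : (1 : ℝ) ≤ t := by exact_mod_cast h
    push_cast; nlinarith only [b1, this, h1, t9]
  have f1 : Pr (fun _ => (p n : ℝ)) (fun ω : Sym2 (Fin n) → Bool => ∃ v ∈ univ,
      (dg (gr (rs ω)) v univ : ℝ) ≤ y * (p n * n)) ≤ 1 / 10 := by
    refine (Pr_exists_le hP _ _).trans ((Finset.sum_le_card_nsmul _ _ _ fun v _ =>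
      (Pr_mono hP fun ω h => ?_).trans (chern_lo hP (btw {v} (univ.erase v)) (fun e => {e})
      (sing_disj _) (fun e ω => ω e = true) (fun e _ => dep_coord e) (μ := p n * (n - 1)) ?_
      (neg_nonneg.2 (Real.log_neg y0 y1).le) (y * (p n * n)))).trans ?_)
    · rwa [cnt_coord, ← dg_eq_card (Finset.notMem_erase v _), dg_erase]
    · simp only [Pr_coord, Finset.sum_const, nsmul_eq_mul]
      rw [card_btw_eq (by simp), Finset.card_erase_of_mem (mem_univ _), Finset.card_fin,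
        Nat.cast_sub b8]
      simp [mul_comm]
    · rw [Finset.card_fin, nsmul_eq_mul, neg_neg, Real.exp_log y0]
      nth_rewrite 1 [← Real.exp_log hn]
      rw [← Real.exp_add]
      refine (Real.exp_le_exp.2 (?_ : _ ≤ (-9 : ℝ))).trans ?_
      · nlinarith only [b0, b5, p0, y0, mul_nonneg p0 y0.le, (p n).2.2]
      · rw [Real.exp_neg, one_div]
        exact inv_anti₀ (by norm_num) (by linarith [Real.add_one_le_exp 9])
  have f2 : Pr (fun _ => (p n : ℝ)) (fun ω => Fam 𝓔 t (rs ω)) ≤ 1 / 10 := by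
    refine (Pr_exists_le hP _ _).trans ((Finset.sum_le_card_nsmul _ _ _ fun v _ =>
      Pr_fam2 p0 (p n).2.2 _ (μ := Real.exp (-L) * (p n * n)) ?_ t L).trans (le_trans ?_ b2))
    · have := weight_pats p0 hEB id (fun _ _ : Fin n => False) ⟨0, b8⟩ le_rfl (fun u B h => by
        rw [Finset.eq_empty_of_forall_notMem h]; simp) (k := 0) (by simp) v
      rw [Fintype.card_fin, Finset.image_id, ← eIn_eq, pow_zero, mul_one, mul_assoc] at this
      exact le_of_mul_le_mul_right (this.trans b3) hn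
    · rw [Finset.card_fin, nsmul_eq_mul, ← mul_assoc, ← Real.exp_add, add_neg_cancel, Real.exp_zero]
      have : 3 * (p n * n : ℝ) ≤ t * L := by
        rw [hL', ← mul_div_assoc, le_div_iff₀ e0]; linarith
      gcongr; linarith only [l1, this]
  have f3 := Pr_den (V := Fin n) p0 (p n).2.2 s
  rw [Fintype.card_fin] at f3
  refine (Pr_mono hP fun ω hω => ?_).trans ((Pr_or_le hP _ _).trans ((add_le_add
    ((Pr_or_le hP _ _).trans (add_le_add f1 f2))
    (f3.trans (le_trans (Real.exp_le_exp.2 ?_) b6))).trans (by norm_num)))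
  · by_contra hcon
    rw [not_or, not_or] at hcon
    obtain ⟨E, g1, g2, g3⟩ := del (k := k) (fun e he => by
      rw [← Finset.card_pos, card_pats hEB he]
      exact ⟨eIn_eq H S ▸ a4, hk ▸ card_sub_sq _⟩) Subset.rfl hcon.1.2
    have g4 : ∀ v Q, (dg (gr (rs ω)) v Q : ℝ) ≤ dg (gr E) v Q + ε * (p n * n) := fun v Q => by
      have h2 := (Nat.cast_le (α := ℝ)).2 (g3 v Q)
      rw [Nat.cast_add] at h2
      linarith
    refine hω ⟨E, g1, Finset.eq_empty_of_forall_notMem fun τ hτ => ?_, fun v => ?_, fun c => ?_⟩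
    · simp only [embs, Finset.mem_filter, mem_homs] at hτ
      refine g2 _ (mem_pats hEB _ hτ.2 fun a _ b _ h e => h e) fun e he => ?_
      obtain ⟨e', he', rfl⟩ := Finset.mem_image.1 he
      induction e' using Sym2.ind with
      | h a b => exact (gr_adj.1 (hτ.1.2 a b (mem_eF.1 (Finset.mem_filter.1 he').1))).1
    · linarith only [hcon, e1, pn, not_le.1 fun h => hcon.1.1 ⟨v, mem_univ _, h⟩, g4 v univ,
        mul_le_mul_of_nonneg_right e1 pn]
    · obtain ⟨U1, U2, h1, h2, h3, -, -, h4⟩ := two_sets c (s := s) (by simpa using s1)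
      refine hcon.2 ⟨(U1, U2), Finset.mem_filter.2 ⟨mem_univ _, h1, h2, h3⟩,
        (Finset.sum_le_sum fun u _ => g4 u U2).trans ?_⟩
      rw [Finset.sum_add_distrib, Finset.sum_const, h2, nsmul_eq_mul, show ∑ u ∈ U1,
        (dg (gr E) u U2 : ℝ) = 0 from h4]
      nlinarith only [s2, p0, mul_le_mul_of_nonneg_left s2 (mul_nonneg p0 (s.cast_nonneg (α := ℝ)))]
  · have h1 := mul_le_mul_of_nonneg_left (mul_self_le_mul_self (by positivity) s2) p0
    have h2 := mul_le_mul_of_nonneg_right (b4.trans (mul_le_mul_of_nonneg_right l1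
      (by positivity))) hn.le
    linarith

theorem adm_span (hs : span) (h : Tendsto (fun n : ℕ => Pr (fun _ => (p n : ℝ))
    fun ω : Sym2 (Fin n) → Bool => ∀ v, d * (p n * n) ≤ dg (gr (rs ω)) v univ) atTop (𝓝 0)) :
    Adm H p span d := by
  classical
  refine ⟨0, tendsto_of_tendsto_of_tendsto_of_le_of_le (by simpa using h.const_sub 1)
    tendsto_const_nhds (fun n => ?_) fun n => MeasureTheory.measureReal_le_one⟩
  simp only [real_eq_Pr, ← Pr_not]
  refine Pr_mono (isP_p p n) fun ω hω G' a0 _ a2 => (hω fun v => ?_).elim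
  obtain ⟨-, b2, -⟩ := conv H (⊤ : (gr (rs ω)).Subgraph) univ (rs ω) (by simp) (by simp) 0
  rw [← mul_assoc, ← b2 ⟨v, trivial⟩]
  refine (a2 ⟨v, a0 hs v⟩).trans (Nat.cast_le.2 (Set.ncard_le_ncard_of_injOn
    (fun u => ⟨u, trivial⟩) (fun u h => G'.adj_sub h) fun u _ w _ e => ?_))
  exact Subtype.ext (Subtype.ext_iff.1 e :)

theorem adm_log' (hs : span) (x0 : 0 ≤ x) (x1 : x < 1) (hd : x < d)
    (h : ∀ᶠ n : ℕ in atTop, 1 ≤ (p n : ℝ) * n ∧
      (p n : ℝ) * n * (1 - x + x * Real.log x) ≤ Real.log n) :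
    Adm H p span d := by
  obtain ⟨y, y1, y2⟩ := exists_between (lt_min hd x1)
  obtain ⟨y2, y3⟩ := lt_min_iff.1 y2
  obtain ⟨i1, i2, i3⟩ := ent_lt x0 y1 y3
  have y0 := x0.trans_lt y1
  obtain ⟨a, ha⟩ : ∃ z, z = 1 - x + x * Real.log x := ⟨_, rfl⟩
  obtain ⟨b, hb⟩ : ∃ z, z = 1 - y + y * Real.log y := ⟨_, rfl⟩
  rw [← ha] at h i2 i3
  rw [← hb] at i1 i2
  have a0 := i1.trans_lt i2
  obtain ⟨δ, hδ⟩ : ∃ z, z = (a - b) / 8 := ⟨_, rfl⟩
  have d0 : 0 < δ := by linarith
  obtain ⟨κ, hκ⟩ : ∃ z, z = 2 * δ / a := ⟨_, rfl⟩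
  have k0 : 0 < κ := by rw [hκ]; positivity
  have k1 : κ * a = 2 * δ := by rw [hκ]; field_simp
  have k2 : κ ≤ 1 / 4 := le_of_mul_le_mul_right (by linarith) a0
  have hT : Tendsto (fun n : ℕ => Real.exp (-(δ * Real.exp (-1) / 8 * (n : ℝ) ^ κ))) atTop (𝓝 0) :=
    Real.tendsto_exp_neg_atTop_nhds_zero.comp (((tendsto_rpow_atTop k0).comp
      tendsto_natCast_atTop_atTop).const_mul_atTop (by positivity))
  refine adm_span hs (squeeze_zero' (Eventually.of_forall fun n => Pr_nonneg (isP_p p n) _) ?_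
    (by simpa using hT.add hT))
  filter_upwards [h, ev_rpow le_rfl 32 1 k0 a0, ev_rpow le_rfl 4 0 k0 d0,
    ev_rpow le_rfl 2 1 one_pos (mul_pos d0 a0), eventually_ge_atTop 1] with n ⟨a1, a2⟩ a3 a4 a5 a6
  have hP := isP_p p n
  have n1 : (1 : ℝ) ≤ n := by exact_mod_cast a6
  have n0 : (0 : ℝ) < n := by linarith
  have p0 : (0 : ℝ) < p n := (mul_pos_iff_of_pos_right n0).1 (by linarith)
  obtain ⟨z, hz⟩ : ∃ z, z = (n : ℝ) ^ κ := ⟨_, rfl⟩
  have z0 : 0 < z := by rw [hz]; positivity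
  have z1 : z ≤ n := hz ▸ Real.rpow_le_self_of_one_le n1 (by linarith)
  have z2 : Real.log z = κ * Real.log n := hz ▸ Real.log_rpow n0 κ
  rw [← hz] at a3 a4 ⊢
  rw [pow_one] at a3 a5
  rw [Real.rpow_one] at a5
  obtain ⟨m, hm⟩ : ∃ m, m = ⌈n / z⌉₊ := ⟨_, rfl⟩
  have m1 : n ≤ m * z := (div_le_iff₀ z0).1 (hm ▸ Nat.le_ceil _)
  have m2 : m * z ≤ 2 * n := by
    have := (Nat.ceil_lt_add_one (by positivity : 0 ≤ n / z)).le
    rw [← hm, ← sub_le_iff_le_add, le_div_iff₀ z0] at this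
    linarith only [z1, this]
  have m0 := m.cast_nonneg (α := ℝ)
  have m3 : 2 * m ≤ δ * n := le_of_mul_le_mul_right (by nlinarith only [m2, a4]) z0
  have m4 : 16 * (p n * m : ℝ) ≤ 1 := le_of_mul_le_mul_right (by
    nlinarith only [a2, a3, m2, p0, a0, mul_le_mul_of_nonneg_left m2 (mul_pos p0 a0).le]) (mul_pos a0 z0)
  have m5 : 2 * (p n * n : ℝ) ≤ δ * n := le_of_mul_le_mul_right (by linarith) a0
  obtain ⟨S, -, hS⟩ := Finset.exists_subset_card_eq (s := (univ : Finset (Fin n))) (n := m)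
    (by rw [Finset.card_fin, ← Nat.cast_le (α := ℝ)]; nlinarith only [i3, i1, hδ, d0, n1, m3])
  obtain ⟨q, hq⟩ : ∃ q, q = Real.exp (Real.log δ - 1 - p n * n * (b + 4 * δ)) := ⟨_, rfl⟩
  have q0 : 0 < q := hq ▸ Real.exp_pos _
  have q1 : δ * Real.exp (-1) * z ≤ m * q := by
    have : δ * Real.exp (-1) * z * z ≤ n * q := by
      rw [← Real.log_le_log_iff (by positivity) (by positivity), hq]
      simp (disch := positivity) only [Real.log_mul, Real.log_exp]
      nlinarith only [hδ, k1, z2, a2, i3, i1, d0, k2, a1, mul_le_mul_of_nonneg_left a2 (by linarith : 0 ≤ 1 - 2 * κ)]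
    exact le_of_mul_le_mul_right (by nlinarith only [this, i3, i1, hδ, d0, m1, q0]) z0
  have q2 : ∀ v ∈ S, q ≤ Pr (fun _ => (p n : ℝ)) fun ω => (btw {v} (univ \ S) ∩ rs ω).card ≤
      ⌊y * (p n * n)⌋₊ := fun v hv => by
    have e : ((btw {v} (univ \ S)).card : ℝ) = n - m := by
      rw [card_btw_eq (by simpa using hv), Finset.card_univ_sdiff, hS, Fintype.card_fin,
        Nat.cast_sub (hS ▸ by simpa using S.card_le_univ)]
      simp
    have := Nat.floor_le (by positivity : 0 ≤ y * (p n * n : ℝ))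
    rw [hq, hb]
    exact bin_low p0 (le_of_mul_le_mul_right (by linarith) n0) (by linarith) y0 y3.le a1 _
      (by linarith) (by nlinarith only [m3, e, this, y3, x0, m5, y1])
  have q3 : q ≤ 1 := hq ▸ Real.exp_le_one_iff.2 (by
    have := Real.log_nonpos d0.le (by linarith)
    have : 0 ≤ (p n : ℝ) * n * (b + 4 * δ) := by positivity
    linarith)
  refine (Pr_cond hP (btw S S) _ (fun ω => (m : ℝ) / 4 ≤ (btw S S ∩ rs ω).card)
    (Real.exp_pos _).le fun ω hω => ?_).trans (add_le_add ((Pr_up p0.le (p n).2.2 _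
      (hS ▸ card_btw S S) zero_le_one _).trans (Real.exp_le_exp.2 ?_)) le_rfl)
  · obtain ⟨S', hS'⟩ : ∃ T, T = S \ vts (btw S S ∩ rs ω) := ⟨_, rfl⟩
    have s1 : S' ⊆ S := hS' ▸ Finset.sdiff_subset
    have s2 : (m : ℝ) / 2 ≤ S'.card := by
      have := (Nat.cast_le (α := ℝ)).2 ((Finset.le_card_sdiff (vts (btw S S ∩ rs ω)) S).trans'
        (Nat.sub_le_sub_left (card_vts _) _) |> Nat.sub_le_iff_le_add.1)
      rw [← hS', hS] at this
      push_cast at this
      linarith [not_le.1 hω]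
    refine (Pr_mono hP fun ω' h => ?_).trans ((chern_lo' hP S' (fun v => btw {v} (univ \ S))
      (fun u hu v hv e => Finset.disjoint_left.2 fun f h h' => ?_) _ (fun v _ =>
      (dep_inter _).comp fun T => T.card ≤ ⌊y * (p n * n)⌋₊) (μ := m / 2 * q) ?_ (by positivity)
      zero_le_one le_rfl).trans (Real.exp_le_exp.2 (by linarith)))
    · rw [sub_self, zero_mul, Nat.cast_nonpos, cnt_eq_card, Finset.card_eq_zero,
        Finset.filter_eq_empty_iff]
      intro v hv f
      have c1 := (h v).trans (dg_le_add _ v (A := univ \ S) (B := S) (by simp))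
      have c2 : dg (gr (rs (mrg (btw S S) ω ω'))) v S = 0 := Finset.card_eq_zero.2
        (Finset.eq_empty_of_forall_notMem fun u hu => by
          have e := mem_btw.2 ⟨v, s1 hv, u, (mem_nb.1 hu).1, rfl⟩
          have := mem_rs.1 (gr_adj.1 (mem_nb.1 hu).2).1
          rw [mrg, if_pos e] at this
          exact (Finset.mem_sdiff.1 (hS' ▸ hv)).2 (mem_vts.2 ⟨_, Finset.mem_inter.2
            ⟨e, mem_rs.2 this⟩, by simp⟩))
      rw [c2, dg_eq_card (by simpa using s1 hv)] at c1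
      have c3 := (Nat.cast_le (α := ℝ)).2 ((Finset.card_le_card (s := btw {v} (univ \ S) ∩
        rs (mrg (btw S S) ω ω')) fun e he => Finset.mem_inter.2 ⟨(Finset.mem_inter.1 he).1, ?_⟩).trans f)
      · have := Nat.floor_le (by positivity : 0 ≤ y * (p n * n : ℝ))
        rw [Nat.cast_zero] at c1
        linarith [mul_lt_mul_of_pos_right y2 (mul_pos p0 n0)]
      · obtain ⟨c4, c5⟩ := Finset.mem_inter.1 he
        obtain ⟨v', -, u, hu, rfl⟩ := mem_btw.1 c4
        rw [mem_rs, mrg, if_neg fun e => ?_] at c5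
        · exact mem_rs.2 c5
        obtain ⟨a, ha, b, hb, e⟩ := mem_btw.1 e
        rcases Sym2.eq_iff.1 e with e | e <;> simp_all
    · obtain ⟨a, ha, b, hb, rfl⟩ := mem_btw.1 h
      obtain ⟨a', ha', b', hb', f⟩ := mem_btw.1 h'
      have := s1 hu
      rcases Sym2.eq_iff.1 f with f | f <;> simp_all
    · refine le_trans ?_ (Finset.card_nsmul_le_sum _ _ _ fun v hv => q2 v (s1 hv))
      rw [nsmul_eq_mul]; gcongr
  · have := mul_le_mul_of_nonneg_left (by linarith [Real.exp_one_lt_d9] : Real.exp 1 - 1 ≤ 2)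
      (by positivity : 0 ≤ p n * (m * m : ℝ))
    nlinarith only [q1, this, m4, m0, q3, mul_le_mul_of_nonneg_left m4 m0, mul_le_mul_of_nonneg_left q3 m0]

theorem adm_log (hs : span) (x0 : 0 ≤ x) (hd : x < d)
    (h : ∀ᶠ n : ℕ in atTop, (p n : ℝ) * n * (1 - x + x * Real.log x) ≤ Real.log n) :
    Adm H p span d := by
  rcases le_or_gt 1 x with x1 | x1
  · exact adm_one' (x1.trans_lt hd)
  let u : ℕ → unitInterval := fun n => ⟨1 / n, by positivity, Nat.cast_inv_le_one n |>.trans_eq' (by simp)⟩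
  have hu : ∀ᶠ n : ℕ in atTop, (u n : ℝ) * n = 1 := (eventually_gt_atTop 0).mono fun n h =>
    one_div_mul_cancel (by positivity)
  refine Adm.split (p1 := fun n => max (p n) (u n)) (p2 := fun n => min (p n) (u n))
    (fun n => (le_total (u n) (p n)).imp (fun h => (max_eq_left h).symm)
      fun h => (min_eq_left h).symm) (adm_log' hs x0 x1 hd ?_) (adm_bdd (K := 1) (hu.mono fun n h =>
      h ▸ mul_le_mul_of_nonneg_right (min_le_right (p n) (u n)) n.cast_nonneg))
  filter_upwards [h, hu, (Real.tendsto_log_atTop.comp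
    tendsto_natCast_atTop_atTop).eventually_ge_atTop 1] with n a1 a2 a3
  refine ⟨a2 ▸ mul_le_mul_of_nonneg_right (le_max_right (p n) (u n)) n.cast_nonneg, ?_⟩
  rcases max_choice (p n) (u n) with e | e <;> simp only [e]
  · exact a1
  · rw [a2, one_mul]
    exact (ent_lt x0 (by linarith : x < (x + 1) / 2) (by linarith)).2.2.trans a3

lemma lo_eq {n : ℕ} (h : 0 < (lo p n : ℝ) * n) : lo p n = p n ∧ (p n : ℝ) * n ≤ Real.log n ^ 2 := by
  unfold lo at h ⊢
  split_ifs at h ⊢ with e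
  exacts [by simp at h, ⟨rfl, not_lt.1 e⟩]

lemma below_of (hl : l ≤ atTop) (h : ∀ᶠ n : ℕ in l, 0 < (lo p n : ℝ) * n) {m : ℝ} (hm : 1 < m) :
    BelowL l p m := by
  have e : 0 < 1 - 1 / m := by rw [sub_pos, div_lt_one (by linarith)]; exact hm
  refine tend_zero (fun n => mul_nonneg (p n).2.1 (by positivity)) fun c hc => ?_
  filter_upwards [h, ev_rpow hl 1 2 e hc, hl (eventually_gt_atTop 0)] with n a1 a2 a3
  have n0 : (0 : ℝ) < n := by exact_mod_cast a3
  rw [Real.rpow_sub n0, Real.rpow_one, ← mul_div_assoc, le_div_iff₀ (by positivity)] at a2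
  refine le_of_mul_le_mul_right ?_ n0
  linarith only [a2, a1, a3, mul_le_mul_of_nonneg_right (lo_eq a1).2 (by positivity : 0 ≤ (n : ℝ) ^ (1 / m))]

open Classical in
theorem low_lo (hH : ¬ H.IsAcyclic) (h : ¬ ∃ K : ℝ, ∀ᶠ n : ℕ in atTop, (lo p n : ℝ) * n ≤ K)
    (hd : d < if span then gam (lo p) else 1) : ¬ Adm H p span d := by
  have hm := one_lt_m2 hH
  obtain ⟨l, _, l1, l2⟩ := exists_filter (P := fun c n => 1 ≤ c * (lo p n * n))
    (fun c c' n e f => f.trans (mul_le_mul_of_nonneg_right e (pn_nonneg _ n))) fun c hc =>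
    (not_eventually.1 fun f => h ⟨1 / c, f⟩).mono fun n f => by
      rw [not_le, div_lt_iff₀' hc] at f; exact f.le
  have l3 : ∀ᶠ n : ℕ in l, 0 < (lo p n : ℝ) * n := (l2 1 one_pos).mono fun n h => by linarith
  have l4 : Tendsto (fun n : ℕ => (p n : ℝ) * n) l atTop := tendsto_atTop.2 fun b => by
    filter_upwards [l3, l2 _ (by positivity : 0 < 1 / (|b| + 1))] with n a1 a2
    rw [(lo_eq a1).1, one_div_mul_eq_div, one_le_div (by positivity)] at a2
    linarith [le_abs_self b]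
  split_ifs at hd with hs
  swap
  · exact low_one' l1 hH l4 (below_of l1 l3 hm) hs hd
  rcases le_or_gt d 0 with d0 | d0
  · exact low_neg l1 hH l4 (below_of l1 l3 hm) d0
  obtain ⟨x, x1, x2⟩ := exists_between hd
  obtain ⟨y, y1, y2⟩ := exists_between x1
  have hb : BddBelow {x : ℝ | 0 ≤ x ∧ x ≤ 1 ∧ ∀ᶠ n : ℕ in atTop,
    (lo p n : ℝ) * n * (1 - x + x * Real.log x) ≤ Real.log n} := ⟨0, fun _ h => h.1⟩
  have x3 : x < 1 := x2.trans_le (csInf_le hb ⟨zero_le_one, le_rfl, .of_forall fun n => by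
    simpa using Real.log_natCast_nonneg n⟩)
  have x4 := not_eventually.1 fun f => x2.not_ge (csInf_le hb ⟨by linarith, x3.le, f⟩)
  obtain ⟨-, i2, -⟩ := ent_lt (by linarith) y2 x3
  obtain ⟨i0, i1, -⟩ := ent_lt (by linarith : 0 ≤ x) (by linarith : x < (x + 1) / 2) (by linarith)
  replace i1 := i0.trans_lt i1
  have := frequently_iff_neBot.1 x4
  have k1 : ∀ᶠ n : ℕ in atTop ⊓ 𝓟 {n | ¬ (lo p n : ℝ) * n * (1 - x + x * Real.log x) ≤ Real.log n},
      0 < (lo p n : ℝ) * n ∧ Real.log n ≤ lo p n * n * (1 - x + x * Real.log x) :=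
    eventually_inf_principal.2 (.of_forall fun n f => ⟨(mul_pos_iff_of_pos_right i1).1
      ((Real.log_natCast_nonneg n).trans_lt (not_le.1 f)), (not_le.1 f).le⟩)
  refine low_log inf_le_left hH (below_of inf_le_left (k1.mono fun _ h => h.1) hm)
    (sub_pos.2 ((one_lt_div i1).2 i2)) (by linarith) (by linarith) y1 (k1.mono fun n f => ?_)
  rw [add_sub_cancel, div_mul_eq_mul_div, div_le_iff₀ i1, ← (lo_eq f.1).1]
  linarith [mul_le_mul_of_nonneg_left f.2 (i1.trans i2).le]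

lemma inf_eq {v : EReal} (h1 : ∀ d : ℝ, d < v → ¬ Adm H p span d)
    (h2 : ∀ d : ℝ, v < d → Adm H p span d) : ⨅ d ∈ {d : ℝ | Adm H p span d}, (d : EReal) = v :=
  le_antisymm (le_of_forall_gt_imp_ge_of_dense fun _ h =>
    (EReal.lt_iff_exists_real_btwn.1 h).elim fun d h => (iInf₂_le d (h2 d h.1)).trans h.2.le)
    (le_iInf₂ fun d hd => not_lt.1 fun h => h1 d h hd)

open Classical in
theorem exact (h : H.IsAcyclic ∨ Clear H (hi p)) :
    ⨅ d ∈ {d : ℝ | Adm H p span d}, (d : EReal) = thr H p span := by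
  unfold thr
  by_cases hH : H.IsAcyclic
  · rw [if_pos hH]
    exact inf_eq (by simp) fun d _ => adm_forest hH
  obtain ⟨w0, w1, w2⟩ := h.resolve_left hH
  have hT := Real.tendsto_log_atTop.comp tendsto_natCast_atTop_atTop
  have key := (full (p := hi p) span).2 hH (tendsto_atTop_mono' _ ?_ hT) w0 w1 w2
  swap
  · obtain ⟨u, -, -, hu⟩ := ex_u
    filter_upwards [hu, hT.eventually_ge_atTop 1] with n a1 a2
    have : Real.log n ^ 2 ≤ hi p n * n := by
      unfold hi
      split_ifs with e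
      exacts [e.le, a1 ▸ mul_le_mul_of_nonneg_right (u n).2.2 n.cast_nonneg]
    simp only [Function.comp] at a2 ⊢
    split_ifs
    · rw [le_div_iff₀ (by linarith)]; linarith
    · nlinarith
  rw [if_neg hH]
  refine inf_eq (fun d hd ha => ?_) fun d hd => ?_
  · rcases lt_max_iff.1 hd with hd | hd
    · by_cases e : ∃ K : ℝ, ∀ᶠ n : ℕ in atTop, (lo p n : ℝ) * n ≤ K
      · exact not_lt_bot (if_pos e ▸ hd :)
      · exact low_lo hH e (EReal.coe_lt_coe_iff.1 (by rwa [if_neg e] at hd)) ha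
    split_ifs at hd with e
    swap
    · exact not_lt_bot hd
    have := frequently_iff_neBot.1 e
    rcases lt_or_ge d (dense H H.chromaticNumber.toNat) with f | f
    · exact (dense_two (a := 1) hH).1 _ this inf_le_left
        (eventually_inf_principal.2 (.of_forall fun n h => le_of_lt h)) f ha
    obtain ⟨d', d1, d2⟩ := exists_between (EReal.coe_lt_coe_iff.1 hd)
    refine d2.not_ge (key.1 (Adm.split (p2 := fun _ => 1) (fun n => ?_) (ha.mono d1.le)
      ((dense_two hH).2 one_pos (by simp) (f.trans_lt d1))))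
    unfold hi
    split_ifs <;> simp
  · obtain ⟨h1, h2⟩ := max_lt_iff.1 hd
    have a1 : Adm H (lo p) span d := by
      split_ifs at h1 with e f
      · exact adm_bdd e.choose_spec
      · rw [EReal.coe_lt_coe_iff, gam] at h1
        obtain ⟨x, x1, x2⟩ := exists_lt_of_csInf_lt (by
          exact ⟨1, zero_le_one, le_rfl, .of_forall fun n => by
            simpa using Real.log_natCast_nonneg n⟩) h1
        exact adm_log f x1.1 x2 x1.2.2
      · exact adm_one' (by exact_mod_cast h1)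
    split_ifs at h2 with e
    · obtain ⟨d', d1, d2⟩ := (isGLB_lt_iff key).1 (EReal.coe_lt_coe_iff.1 h2)
      refine Adm.split (fun n => ?_) a1 (Adm.mono d1 d2.le)
      unfold lo hi
      split_ifs <;> simp
    · refine Adm.split (p2 := fun n => if Real.log n ^ 2 < p n * n then p n else 0) (fun n => ?_) a1
        (adm_bdd (K := 0) ((not_frequently.1 e).mono fun n h => by simp [h]))
      unfold lo
      split_ifs <;> simp

end Pool.Agent.Lib.MP_46505f_co
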