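import Pool.Agent.Lib.MP_46505f_co.Dense4

set_option autoImplicit false
open Filter Topology

namespace Pool.Agent.Lib.MP_46505f_co

/- The chromatic thresholds of random graphs. -/

variable {W : Type} [Fintype W] [DecidableEq W] {H : SimpleGraph W} {p : ℕ → unitInterval}

open Classical in
theorem full (span : Prop) :
    ((H.IsAcyclic ∨ ∃ K : ℝ, ∀ᶠ n : ℕ in atTop, (p n : ℝ) * n ≤ K) → ∀ d, Adm H p span d) ∧
    (¬ H.IsAcyclic →
      Tendsto (fun n : ℕ => (p n : ℝ) * n / if span then Real.log n else 1) atTop atTop →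
      (Above p (m2 H) ∨ Dips p (m2 H)) →
      ((∃ I, IsCloud H I ∧ On H p I) ∨ ∀ I, IsCloud H I → ¬ Soft H I → Dips p (mI H I)) →
      ((∃ I, IsThunder H I ∧ On H p I) ∨ ∀ I, IsThunder H I → ¬ Soft H I → Dips p (mI H I)) →
      IsGLB {d | Adm H p span d} (val H p)) := by
  refine ⟨fun h d => h.elim adm_forest fun ⟨_, h⟩ => adm_bdd h, fun hH h1 w0 w1 w2 => ?_⟩
  by_cases h0 : ∃ a > 0, ∀ᶠ n : ℕ in atTop, a ≤ (p n : ℝ)
  · rw [val, if_pos h0]
    obtain ⟨a, ha, hp⟩ := h0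
    exact dense_glb hH ha hp
  · exact sparse hH h0 h1 w0 w1 w2

end Pool.Agent.Lib.MP_46505f_co
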