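import Pool.Agent.Lib.MP_46505f_co.Typ

set_option autoImplicit false
set_option linter.unusedSectionVars false
open Finset

namespace Pool.Agent.Lib.MP_46505f_co

/- Lower regular pairs, embedding counts and greedy selections. -/

variable {V : Type} [Fintype V] [DecidableEq V]

noncomputable abbrev eb (G : SimpleGraph V) (U W : Finset V) : ℝ := ∑ u ∈ U, (dg G u W : ℝ)

def LR (G : SimpleGraph V) (α e1 e2 : ℝ) (Y U : Finset V) : Prop :=
  ∀ Y' ⊆ Y, ∀ U' ⊆ U, e1 ≤ Y'.card → e2 ≤ U'.card → α * (Y'.card * U'.card) ≤ eb G Y' U'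

lemma LR.mono {G G' : SimpleGraph V} {α α' e1 e1' e2 e2' : ℝ} {Y Y' U U' : Finset V}
    (h : LR G α e1 e2 Y U) (hG : ∀ y ∈ Y', ∀ u ∈ U', G.Adj y u → G'.Adj y u) (hα : α' ≤ α)
    (h1 : e1 ≤ e1') (h2 : e2 ≤ e2') (hY : Y' ⊆ Y) (hU : U' ⊆ U) : LR G' α' e1' e2' Y' U' :=
  fun A hA B hB a b => (mul_le_mul_of_nonneg_right hα (by positivity)).trans
    ((h A (hA.trans hY) B (hB.trans hU) (h1.trans a) (h2.trans b)).trans
    (Finset.sum_le_sum fun y hy => Nat.cast_le.2 (Finset.card_le_card fun u hu =>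
      mem_nb.2 ⟨(mem_nb.1 hu).1, hG y (hA hy) u (hB (mem_nb.1 hu).1) (mem_nb.1 hu).2⟩)))

lemma LR.symm {G : SimpleGraph V} {α e1 e2 : ℝ} {Y U : Finset V} (h : LR G α e1 e2 Y U) :
    LR G α e2 e1 U Y := fun A hA B hB a b => by
  rw [mul_comm (A.card : ℝ), eb, sum_dg_comm]; exact h B hB A hA b a

lemma card_filter_ge {κ : Type*} (s : Finset κ) (f : κ → ℝ) {x y : ℝ} (hx : 0 ≤ x)
    (h : ∀ k ∈ s, f k ≤ y) [DecidablePred fun k => x ≤ f k] :
    ∑ k ∈ s, f k ≤ s.card * x + (s.filter fun k => x ≤ f k).card * y := by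
  rw [← Finset.sum_filter_add_sum_filter_not s fun k => x ≤ f k, add_comm]
  have a1 := Finset.sum_le_card_nsmul (s.filter fun k => x ≤ f k) f y
    fun k hk => h k (Finset.mem_filter.1 hk).1
  have a2 := Finset.sum_le_card_nsmul (s.filter fun k => ¬ x ≤ f k) f x
    fun k hk => (not_le.1 (Finset.mem_filter.1 hk).2).le
  rw [nsmul_eq_mul] at a1 a2
  have a3 : ((s.filter fun k => ¬ x ≤ f k).card : ℝ) * x ≤ s.card * x := by
    gcongr; exact Finset.filter_subset _ _
  linarith

lemma dg_le_add (G : SimpleGraph V) (v : V) {Q A B : Finset V} (h : Q ⊆ A ∪ B) :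
    (dg G v Q : ℝ) ≤ dg G v A + dg G v B := by
  exact_mod_cast (dg_mono le_rfl v h).trans (dg_union_le G v A B)

lemma lr_aux (G : SimpleGraph V) {α ε e : ℝ} (hα : 0 ≤ α) (hε : 0 < ε) (hε1 : ε ≤ 1) :
    ∀ (s : ℕ) (Y0 B : Finset V), (B.card : ℝ) < (s + 1) * e → ∃ Y ⊆ Y0, ∃ U ⊆ B,
      (ε / 2) ^ s * Y0.card ≤ Y.card ∧ LR G α (ε * Y.card) e Y U ∧
      ∀ y ∈ Y, (dg G y (B \ U) : ℝ) ≤ 2 * α * (B \ U).card := by
  classical
  intro s
  induction s with
  | zero =>
    intro Y0 B hB
    refine ⟨Y0, Subset.rfl, B, Subset.rfl, by simp, fun _ _ U' hU _ h => ?_, fun y _ => by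
      simp [dg, nb]⟩
    have : (U'.card : ℝ) ≤ B.card := Nat.cast_le.2 (Finset.card_le_card hU)
    push_cast at hB; linarith
  | succ s ih =>
    intro Y0 B hB
    by_cases h : LR G α (ε * Y0.card) e Y0 B
    · refine ⟨Y0, Subset.rfl, B, Subset.rfl, ?_, h, fun y _ => by simp [dg, nb]⟩
      exact mul_le_of_le_one_left (by positivity) (pow_le_one₀ (by positivity) (by linarith))
    unfold LR at h
    push Not at h
    obtain ⟨Y', a1, U', a2, a3, a4, a5⟩ := h
    have hU : ((B \ U').card : ℝ) = B.card - U'.card := by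
      rw [Finset.card_sdiff_of_subset a2, Nat.cast_sub (Finset.card_le_card a2)]
    let Y1 := Y'.filter fun y => (dg G y U' : ℝ) ≤ 2 * α * U'.card
    have b1 : (Y'.card : ℝ) ≤ 2 * Y1.card := by
      have c1 := Finset.card_nsmul_le_sum (Y'.filter fun y => ¬ (dg G y U' : ℝ) ≤ 2 * α * U'.card)
        (fun y => (dg G y U' : ℝ)) _ fun y hy => (not_le.1 (Finset.mem_filter.1 hy).2).le
      have c2 := Finset.sum_le_sum_of_subset_of_nonneg (f := fun y => (dg G y U' : ℝ))
        (Finset.filter_subset (fun y => ¬ (dg G y U' : ℝ) ≤ 2 * α * U'.card) Y')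
        fun _ _ _ => by positivity
      have c3 := (Nat.cast_inj (R := ℝ)).2 (Finset.card_filter_add_card_filter_not (s := Y')
        fun y => (dg G y U' : ℝ) ≤ 2 * α * U'.card)
      rw [nsmul_eq_mul] at c1
      push_cast at c3
      by_contra c
      have : 0 ≤ α * U'.card := by positivity
      nlinarith
    obtain ⟨Y, b2, U, b3, b4, b5, b6⟩ := ih Y1 (B \ U') (by push_cast at hB; linarith)
    refine ⟨Y, b2.trans ((Finset.filter_subset _ _).trans a1), U, b3.trans Finset.sdiff_subset,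
      le_trans ?_ b4, b5, fun y hy => ?_⟩
    · rw [pow_succ, mul_assoc]; gcongr; linarith
    · have c1 : B \ U = (B \ U') \ U ∪ U' := by
        ext v
        have := @b3 v
        have := @a2 v
        simp only [Finset.mem_sdiff, Finset.mem_union] at *
        tauto
      have c2 : ((B \ U).card : ℝ) = ((B \ U') \ U).card + U'.card := by
        rw [c1, Finset.card_union_of_disjoint (Finset.sdiff_disjoint.mono_left
          Finset.sdiff_subset), Nat.cast_add]
      rw [c2]
      linarith [dg_le_add G y c1.le, b6 y hy, (Finset.mem_filter.1 (b2 hy)).2]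

theorem lr (G : SimpleGraph V) {α ε : ℝ} (hα : 0 ≤ α) (hε : 0 < ε) (hε1 : ε ≤ 1) {s : ℕ}
    (hs : 1 ≤ s * ε) [Nonempty V] (Y0 B : Finset V) : ∃ Y ⊆ Y0, ∃ U ⊆ B,
      (ε / 2) ^ s * Y0.card ≤ Y.card ∧ LR G α (ε * Y.card) (ε * Fintype.card V) Y U ∧
      ∀ y ∈ Y, (dg G y (B \ U) : ℝ) ≤ 2 * α * Fintype.card V := by
  have hn : (0 : ℝ) < Fintype.card V := by exact_mod_cast Fintype.card_pos
  have hc : ∀ A : Finset V, (A.card : ℝ) ≤ Fintype.card V := fun A =>
    Nat.cast_le.2 (Finset.card_le_univ _)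
  obtain ⟨Y, a1, U, a2, a3, a4, a5⟩ := lr_aux G hα hε hε1 (e := ε * Fintype.card V) s Y0 B
    ((hc B).trans_lt (by nlinarith [mul_pos hε hn]))
  exact ⟨Y, a1, U, a2, a3, a4, fun y hy => (a5 y hy).trans (mul_le_mul_of_nonneg_left (hc _) (by positivity))⟩

lemma uu_size {G : SimpleGraph V} {ρ η M x y : ℝ} (h : UU G ρ η M) (hρ : 0 < ρ) (hη : 0 ≤ η)
    {Y U : Finset V} (hd : Disjoint Y U) (hY : 0 < (Y.card : ℝ)) (hM : M ≤ y * Y.card)
    (hx : ∀ v ∈ Y, x * ρ ≤ dg G v U) : x ≤ (1 + η) * (U.card + y) := by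
  have a1 := (Finset.card_nsmul_le_sum _ _ _ hx).trans (h Y U hd)
  rw [nsmul_eq_mul] at a1
  have a2 : (1 + η) * (ρ * (Y.card * U.card + M)) ≤ (1 + η) * (ρ * (Y.card * U.card + y * Y.card)) := by
    gcongr
  exact le_of_mul_le_mul_left (by linarith) (mul_pos hY hρ)

section count
variable {W : Type} [Fintype W] [DecidableEq W]

open Classical in
noncomputable def cand (G : SimpleGraph V) (R : SimpleGraph W) (C : W → Finset V) (J : Finset W)
    (ψ : W → V) (l : W) : Finset V := (C l).filter fun v => ∀ a ∈ J, R.Adj a l → G.Adj (ψ a) v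

lemma mem_cand {G : SimpleGraph V} {R : SimpleGraph W} {C : W → Finset V} {J : Finset W}
    {ψ : W → V} {l : W} {v : V} :
    v ∈ cand G R C J ψ l ↔ v ∈ C l ∧ ∀ a ∈ J, R.Adj a l → G.Adj (ψ a) v := by simp [cand]

def Emb (G : SimpleGraph V) (R : SimpleGraph W) (C : W → Finset V) (α : ℝ) (J : Finset W)
    (ψ : W → V) : Prop :=
  (∀ a ∈ J, ψ a ∈ cand G R C J ψ a) ∧ Set.InjOn ψ J ∧
    ∀ l ∉ J, α ^ J.card * (C l).card ≤ (cand G R C J ψ l).card

lemma cnt_update (a : W) (P P' : (W → V) → Prop) {c : ℝ}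
    (h : ∀ ψ, P ψ → c ≤ cnt univ fun v => P' (Function.update ψ a v)) :
    c * cnt univ P ≤ Fintype.card V * cnt univ P' := by
  rw [cnt_eq_sum, cnt_eq_sum, resample1 a, Finset.mul_sum]
  refine Finset.sum_le_sum fun ψ _ => ?_
  rw [← cnt_eq_sum]
  by_cases e : P ψ
  · simpa [MP_eaf82e_pr.one, e] using h ψ e
  · simp [MP_eaf82e_pr.one, e]

theorem lr_count {G : SimpleGraph V} {R : SimpleGraph W} {C : W → Finset V} {α : ℝ} (h0 : 0 ≤ α)
    (h1 : α ≤ 1) {e c : W → ℝ} (J0 : Finset W)
    (hreg : ∀ a ∈ J0, ∀ l, R.Adj a l → LR G α (e a) (α ^ Fintype.card W * (C l).card) (C a) (C l))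
    (hc : ∀ a ∈ J0, 0 ≤ c a ∧ 0 ≤ e a ∧
      c a + Fintype.card W * (e a + 1) ≤ α ^ Fintype.card W * (C a).card) :
    (∏ a ∈ J0, c a) * (Fintype.card V : ℝ) ^ Fintype.card W ≤
      (Fintype.card V : ℝ) ^ J0.card * cnt univ (Emb G R C α J0) := by
  classical
  induction J0 using Finset.induction with
  | empty => simp [cnt, Emb, cand]
  | insert a J ha ih =>
    obtain ⟨c0, c1, c2⟩ := hc a (Finset.mem_insert_self _ _)
    have hp : α ^ Fintype.card W ≤ α ^ J.card :=
      pow_le_pow_of_le_one h0 h1 (Finset.card_le_univ _)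
    have key := cnt_update a (Emb G R C α J) (Emb G R C α (insert a J)) (c := c a) fun ψ hψ => by
      obtain ⟨b1, b2, b3⟩ := hψ
      let A := cand G R C J ψ a
      let Bd := fun l => A.filter fun v => l ∉ J ∧ R.Adj a l ∧
        (dg G v (cand G R C J ψ l) : ℝ) < α * (cand G R C J ψ l).card
      have d1 : ∀ l, ((Bd l).card : ℝ) ≤ e a := fun l => by
        by_contra f
        push Not at f
        obtain ⟨v, hv⟩ := Finset.card_pos.1 (Nat.cast_pos.1 (c1.trans_lt f))
        obtain ⟨-, f1, f2, -⟩ := Finset.mem_filter.1 hv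
        have f3 := hreg a (Finset.mem_insert_self _ _) l f2 (Bd l) ((Finset.filter_subset _ _).trans
          (Finset.filter_subset _ _)) (cand G R C J ψ l) (Finset.filter_subset _ _) f.le
          (le_trans (by gcongr) (b3 l f1))
        have f4 := Finset.sum_lt_sum_of_nonempty ⟨v, hv⟩
          fun u (hu : u ∈ Bd l) => (Finset.mem_filter.1 hu).2.2.2
        rw [Finset.sum_const, nsmul_eq_mul] at f4
        linarith
      have d2 : A ⊆ (univ.filter fun v => Emb G R C α (insert a J) (Function.update ψ a v)) ∪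
          (univ.biUnion Bd ∪ J.image ψ) := fun v hv => by
        by_contra f
        simp only [Finset.mem_union, not_or, Finset.mem_filter, mem_univ, true_and,
          Finset.mem_biUnion, not_exists, Finset.mem_image, not_and] at f
        obtain ⟨f1, f2, f3⟩ := f
        have hu : ∀ b ∈ J, Function.update ψ a v b = ψ b := fun b hb =>
          Function.update_of_ne (by rintro rfl; exact ha hb) _ _
        have hm : ∀ l u, u ∈ cand G R C (insert a J) (Function.update ψ a v) l ↔
            u ∈ cand G R C J ψ l ∧ (R.Adj a l → G.Adj v u) := fun l u => by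
          simp only [mem_cand, Finset.forall_mem_insert, Function.update_self]
          have : (∀ b ∈ J, R.Adj b l → G.Adj (Function.update ψ a v b) u) ↔
              ∀ b ∈ J, R.Adj b l → G.Adj (ψ b) u :=
            forall₂_congr fun b hb => by rw [hu b hb]
          tauto
        refine f1 ⟨fun b hb => ?_, ?_, fun l hl => ?_⟩
        · rw [hm]
          rcases Finset.mem_insert.1 hb with rfl | hb
          · rw [Function.update_self]; exact ⟨hv, fun f => (R.irrefl f).elim⟩
          · rw [hu b hb]; exact ⟨b1 b hb, fun f => ((mem_cand.1 hv).2 b hb f.symm).symm⟩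
        · rw [Finset.coe_insert, Set.injOn_insert (by simpa using ha)]
          refine ⟨b2.congr fun b hb => (hu b hb).symm, ?_⟩
          rintro ⟨b, hb, f⟩
          rw [hu b hb, Function.update_self] at f
          exact f3 b hb f
        · rw [Finset.mem_insert, not_or] at hl
          have f4 := b3 l hl.2
          rw [Finset.card_insert_of_notMem ha, pow_succ', mul_assoc]
          by_cases f : R.Adj a l
          · refine le_trans (le_trans (by gcongr) (not_lt.1 fun g => f2 l
              (Finset.mem_filter.2 ⟨hv, hl.2, f, g⟩)))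
              (Nat.cast_le.2 (Finset.card_le_card fun u hu => ?_))
            exact (hm l u).2 ⟨(mem_nb.1 hu).1, fun _ => (mem_nb.1 hu).2⟩
          · refine (mul_le_of_le_one_left (by positivity) h1).trans (f4.trans
              (Nat.cast_le.2 (Finset.card_le_card fun u hu => (hm l u).2 ⟨hu, fun g => (f g).elim⟩)))
      have d3 := (Nat.cast_le (α := ℝ)).2 ((Finset.card_le_card d2).trans
        ((Finset.card_union_le _ _).trans (Nat.add_le_add_left ((Finset.card_union_le _ _).trans
        (Nat.add_le_add Finset.card_biUnion_le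
        (Finset.card_image_le.trans (Finset.card_le_univ _)))) _)))
      have d4 := Finset.sum_le_card_nsmul univ _ _ fun l _ => d1 l
      have d5 := (mul_le_mul_of_nonneg_right hp (C a).card.cast_nonneg).trans (b3 a ha)
      rw [nsmul_eq_mul, Finset.card_univ] at d4
      push_cast at d3
      unfold cnt
      linarith
    have := ih (fun b hb => hreg b (Finset.mem_insert_of_mem hb))
      fun b hb => hc b (Finset.mem_insert_of_mem hb)
    rw [Finset.prod_insert ha, Finset.card_insert_of_notMem ha, pow_succ, mul_assoc, mul_assoc]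
    exact (mul_le_mul_of_nonneg_left this c0).trans (by rw [mul_left_comm]; gcongr)

end count

end Pool.Agent.Lib.MP_46505f_co
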