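import Pool.Agent.Lib.MP_46505f_co.Cloud
import Pool.Agent.Lib.MP_46505f_co.Homog

set_option autoImplicit false
set_option linter.unusedSectionVars false
open Finset

namespace Pool.Agent.Lib.MP_46505f_co

/- The hypergraph of cloud embeddings through a sparse structure. -/

variable {V : Type*} [Fintype V] [DecidableEq V]

open Classical in
noncomputable def Dm (D : Finset (Sym2 V)) (y z : V) : ℝ := if (gr D).Adj y z then 1 else 0

lemma Dm_mem (D : Finset (Sym2 V)) (y z : V) : 0 ≤ Dm D y z ∧ Dm D y z ≤ 1 := by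
  unfold Dm; split_ifs <;> norm_num

lemma prod_ite_div {W : Type*} [Fintype W] [DecidableEq W] (C : Finset W) (x : ℝ) {y : ℝ}
    (hy : y ≠ 0) : ∏ a, (if a ∈ C then x else y) = (x / y) ^ C.card * y ^ Fintype.card W := by
  have : ∀ a, (if a ∈ C then x else y) = (if a ∈ C then x / y else 1) * y := fun a => by
    split_ifs
    · field_simp
    · simp
  simp only [this]
  rw [Finset.prod_mul_distrib, Finset.prod_ite_mem, Finset.univ_inter, Finset.prod_const,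
    Finset.prod_const, Finset.card_univ]

open Classical in
lemma fibre_lower [Nonempty V] {L I : Type*} [Fintype L] [DecidableEq L] [Fintype I]
    [DecidableEq I] (D : Finset (Sym2 V)) (Y : L → Finset V) (B : L → Finset I)
    (Zs : Finset (I → V)) (G : Finset (L ⊕ I → V)) {m ε γ ρ : ℝ} (hm : 0 < m) (hmn : m ≤ Fintype.card V) (hε : 0 ≤ ε) (hγ : 0 ≤ γ) (hγ1 : γ ≤ 1)
    (hY : ∀ l, m ≤ (Y l).card ∧ Homog (Dm D) (Y l) ε)
    (hg : ρ * (Fintype.card V : ℝ) ^ Fintype.card I ≤ Zs.card)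
    (hf : ∀ z ∈ Zs, ∀ l, ∀ i ∈ B l, γ ≤ fY (Dm D) (Y l) (z i))
    (h1 : Fintype.card L * Fintype.card I * ε ≤ ρ * γ ^ (Fintype.card L * Fintype.card I) / 4)
    (h2 : ((Fintype.card L + Fintype.card I : ℕ) : ℝ) ^ 2 ≤
      ρ * γ ^ (Fintype.card L * Fintype.card I) / 4 * m)
    (hG : ∀ u : L ⊕ I → V, (∀ l, u (.inl l) ∈ Y l) → (fun i => u (.inr i)) ∈ Zs →
      Function.Injective u → (∀ l, ∀ i ∈ B l, (gr D).Adj (u (.inl l)) (u (.inr i))) → u ∈ G) :
    ρ * γ ^ (Fintype.card L * Fintype.card I) / 2 * (m ^ Fintype.card L *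
      (Fintype.card V : ℝ) ^ Fintype.card I) ≤ G.card := by
  set n : ℝ := (Fintype.card V : ℝ) with hn'
  have hn : 0 < n := by rw [hn']; exact_mod_cast Fintype.card_pos
  set c := ρ * γ ^ (Fintype.card L * Fintype.card I) with hc
  have hne : ∀ l, (Y l).Nonempty := fun l =>
    Finset.card_pos.1 (Nat.cast_pos.1 (hm.trans_le (hY l).1))
  have a1 := count_homog (Dm_mem D) hne hε (fun l => (hY l).2) B
    (fun z => if z ∈ Zs then 1 else 0) fun z => by split_ifs <;> norm_num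
  have a2 : c * n ^ Fintype.card I ≤ ∑ z, (if z ∈ Zs then (1 : ℝ) else 0) *
      ∏ l, ∏ i ∈ B l, fY (Dm D) (Y l) (z i) := by
    calc _ ≤ Zs.card * γ ^ (Fintype.card L * Fintype.card I) := by
          rw [hc, mul_right_comm]; gcongr
      _ = ∑ z, (if z ∈ Zs then (1 : ℝ) else 0) * γ ^ (Fintype.card L * Fintype.card I) := by
          rw [← Finset.sum_mul, Finset.sum_ite_mem, Finset.univ_inter]; simp
      _ ≤ _ := Finset.sum_le_sum fun z _ => by
          split_ifs with h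
          · rw [one_mul, one_mul, mul_comm, pow_mul, ← Finset.card_univ (α := L),
              ← Finset.prod_const]
            refine Finset.prod_le_prod (fun _ _ => by positivity) fun l _ => ?_
            refine le_trans (pow_le_pow_of_le_one hγ hγ1 (Finset.card_le_univ (B l))) ?_
            rw [← Finset.prod_const]
            exact Finset.prod_le_prod (fun _ _ => hγ) (hf z h l)
          · simp
  have a3 := card_noninj (W := L ⊕ I) (Sum.elim Y fun _ => univ) hm (by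
    rintro (l | i)
    · exact (hY l).1
    · simpa using hmn)
  rw [Fintype.prod_sum_type, Fintype.card_sum] at a3
  simp only [Sum.elim_inl, Sum.elim_inr, Finset.card_univ, Finset.prod_const] at a3
  set NI := (Fintype.piFinset (Sum.elim Y fun _ : I => (univ : Finset V))).filter
    fun y => ¬ Function.Injective y
  have a4 : ∑ z, ∑ y ∈ Fintype.piFinset Y, (if z ∈ Zs then (1 : ℝ) else 0) *
      ∏ l, ∏ i ∈ B l, Dm D (y l) (z i) ≤ (G ∪ NI).card := by
    have e : ∀ z, ∑ y ∈ Fintype.piFinset Y, (if z ∈ Zs then (1 : ℝ) else 0) *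
        ∏ l, ∏ i ∈ B l, Dm D (y l) (z i) = ∑ y, if y ∈ Fintype.piFinset Y then
        (if z ∈ Zs then (1 : ℝ) else 0) * ∏ l, ∏ i ∈ B l, Dm D (y l) (z i) else 0 := fun z => by
      rw [Finset.sum_ite_mem, Finset.univ_inter]
    simp only [e]
    rw [Finset.sum_comm, ← Fintype.sum_prod_type', ← (Equiv.sumArrowEquivProdArrow L I V).sum_comp]
    refine sum_le_card_of _ _ fun u => ?_
    simp only [Equiv.sumArrowEquivProdArrow_apply_fst, Equiv.sumArrowEquivProdArrow_apply_snd]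
    split_ifs with b1 b2
    · by_cases b3 : ∀ l, ∀ i ∈ B l, (gr D).Adj (u (.inl l)) (u (.inr i))
      · refine Or.inr ⟨by
          rw [one_mul]
          exact (prod_mem01 _ fun l => prod_mem01 _ fun i => Dm_mem _ _ _).2, ?_⟩
        rw [Fintype.mem_piFinset] at b1
        by_cases b4 : Function.Injective u
        · exact Finset.mem_union_left _ (hG u b1 b2 b4 b3)
        · refine Finset.mem_union_right _ (Finset.mem_filter.2 ⟨Fintype.mem_piFinset.2 ?_, b4⟩)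
          rintro (l | i)
          · exact b1 l
          · simp
      · push Not at b3
        obtain ⟨l, i, hi, b3⟩ := b3
        refine Or.inl ?_
        rw [Finset.prod_eq_zero (mem_univ l) (Finset.prod_eq_zero hi (if_neg b3)), mul_zero]
    · exact Or.inl (by simp)
    · exact Or.inl le_rfl
  have a5 : ((G ∪ NI).card : ℝ) ≤ G.card + NI.card := by exact_mod_cast Finset.card_union_le _ _
  set PY := ∏ l, ((Y l).card : ℝ)
  have a6 : m ^ Fintype.card L ≤ PY := by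
    rw [← Finset.card_univ, ← Finset.prod_const]
    exact Finset.prod_le_prod (fun _ _ => hm.le) fun l _ => (hY l).1
  have a7 : ((Fintype.card L + Fintype.card I : ℕ) : ℝ) ^ 2 / m ≤ c / 4 := by
    rwa [div_le_iff₀ hm]
  have hc0 : 0 ≤ c := by
    have : (0 : ℝ) ≤ Fintype.card L * Fintype.card I * ε := by positivity
    linarith only [h1, this]
  have hP : 0 ≤ PY := le_trans (by positivity) a6
  have a8 := mul_le_mul_of_nonneg_right a7 (by positivity : 0 ≤ PY * n ^ Fintype.card I)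
  have a9 := mul_le_mul_of_nonneg_left (sub_le_sub a2
    (mul_le_mul_of_nonneg_right h1 (by positivity : 0 ≤ n ^ Fintype.card I))) hP
  have a10 : c / 2 * (m ^ Fintype.card L * n ^ Fintype.card I) ≤
      c / 2 * (PY * n ^ Fintype.card I) := by gcongr
  linarith only [a4, a5, a1, a3, a8, a9, a10]

variable {W : Type} [Fintype W] [DecidableEq W] {H : SimpleGraph W} {I : Finset W}

noncomputable def rpt (H : SimpleGraph W) (I : Finset W) (θ : W → W → V) (l : W) : V :=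
  θ (cl H I l) (par H I l)

open Classical in
noncomputable def rmap (H : SimpleGraph W) (I : Finset W) (σ : Σ _ : W → W → V, W ⊕ W → V)
    (a : W) : V :=
  if a ∈ I then σ.2 (.inr a) else if Lf H I a then σ.2 (.inl a) else σ.1 (cl H I a) a

lemma rmap_I {σ : Σ _ : W → W → V, W ⊕ W → V} {a : W} (h : a ∈ I) :
    rmap H I σ a = σ.2 (.inr a) := if_pos h

lemma rmap_L {σ : Σ _ : W → W → V, W ⊕ W → V} {a : W} (h : a ∉ I) (h' : Lf H I a) :
    rmap H I σ a = σ.2 (.inl a) := (if_neg h).trans (if_pos h')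

lemma rmap_X {σ : Σ _ : W → W → V, W ⊕ W → V} {a : W} (h : ¬ (a ∈ I ∨ Lf H I a)) :
    rmap H I σ a = σ.1 (cl H I a) a :=
  (if_neg fun h' => h (Or.inl h')).trans (if_neg fun h' => h (Or.inr h'))

lemma rep_upper [Nonempty V] [Nonempty W] {r : ℕ}
    (hr : ∀ a0, ∃ R : Rooting (outside H I) r, R.pr a0 = a0) {X : Finset V} (hX : X.Nonempty)
    {F : SimpleGraph V} {Y : V → Finset V} {y k Δ b : ℝ} (hy : 0 < y) (hk : 0 ≤ k) (hΔ0 : 0 < Δ)
    (hΔ : ∀ v ∈ X, (dg F v X : ℝ) ≤ Δ) (hY : ∀ x ∈ X, (Y x).card ≤ y)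
    (hκ : ∀ v, ((X.filter fun x => v ∈ Y x).card : ℝ) ≤ k * X.card)
    {Θ : Finset (W → W → V)} (hΘ : ∀ θ ∈ Θ, ∀ j, θ j ∈ homs (outside H I) F X)
    {G : (W → W → V) → Finset (W ⊕ W → V)}
    (hG : ∀ θ ∈ Θ, ∀ u ∈ G θ, ∀ l, u (.inl l) ∈ Y (rpt H I θ l))
    {S : Finset W} (hS : ∀ a ∈ S, a ∈ I ∨ Lf H I a) {B : Finset V} (hB : (B.card : ℝ) ≤ b) :
    ((((Θ.sigma G).filter fun σ => ∀ a ∈ S, rmap H I σ a ∈ B).card : ℕ) : ℝ) ≤
      (b * k) ^ comps H I S * ((X.card : ℝ) ^ r * Δ ^ (Fintype.card W - r)) ^ Fintype.card W *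
      ((b / y) ^ (S \ I).card * y ^ Fintype.card W * ((b / Fintype.card V) ^ (S ∩ I).card *
        (Fintype.card V : ℝ) ^ Fintype.card W)) := by
  classical
  have hn : (0 : ℝ) < Fintype.card V := by exact_mod_cast Fintype.card_pos
  have hXc : (0 : ℝ) < X.card := by exact_mod_cast hX.card_pos
  have hb : 0 ≤ b := le_trans (by positivity) hB
  have hθX : ∀ θ ∈ Θ, ∀ j a, θ j a ∈ X := fun θ hθ j a => (mem_homs.1 (hΘ θ hθ j)).1 a
  obtain ⟨Hm, hHm'⟩ : ∃ x, x = (X.card : ℝ) ^ r * Δ ^ (Fintype.card W - r) := ⟨_, rfl⟩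
  have hHm : 0 < Hm := by rw [hHm']; positivity
  obtain ⟨Bs, hBs'⟩ : ∃ x, x = X.filter fun x => ∃ y ∈ B, y ∈ Y x := ⟨_, rfl⟩
  have hBs : (Bs.card : ℝ) / X.card ≤ b * k := by
    have h1 : Bs ⊆ B.biUnion fun y => X.filter fun x => y ∈ Y x := fun x hx => by
      obtain ⟨a1, y, a2, a3⟩ := Finset.mem_filter.1 (hBs' ▸ hx)
      exact Finset.mem_biUnion.2 ⟨y, a2, Finset.mem_filter.2 ⟨a1, a3⟩⟩
    have h2 := (Nat.cast_le (α := ℝ)).2 ((Finset.card_le_card h1).trans Finset.card_biUnion_le)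
    rw [Nat.cast_sum] at h2
    have h3 := h2.trans (Finset.sum_le_card_nsmul _ _ _ fun y _ => hκ y)
    rw [nsmul_eq_mul] at h3
    rw [div_le_iff₀ hXc, mul_assoc]
    exact h3.trans (by gcongr)
  obtain ⟨Θs, hΘs'⟩ : ∃ x, x = Fintype.piFinset fun j => if h : ∃ l ∈ S \ I, cl H I l = j then
    (homs (outside H I) F X).filter fun τ => τ (par H I h.choose) ∈ Bs
    else homs (outside H I) F X := ⟨_, rfl⟩
  have hΘs : (Θs.card : ℝ) ≤ (b * k) ^ comps H I S * Hm ^ Fintype.card W := by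
    have := prod_ite_div ((S \ I).image (cl H I)) (b * k * Hm) hHm.ne'
    rw [mul_div_assoc, div_self hHm.ne', mul_one, ← comps_eq'] at this
    rw [hΘs', Fintype.card_piFinset, Nat.cast_prod, ← this]
    refine Finset.prod_le_prod (fun _ _ => by positivity) fun j _ => ?_
    simp only [Finset.mem_image]
    split_ifs with h'
    · obtain ⟨R, hR⟩ := hr (par H I h'.choose)
      refine (card_homs_anchor R hR hX hΔ0.le hΔ Bs).trans ?_
      rw [← hHm']; gcongr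
    · obtain ⟨R, -⟩ := hr (Classical.arbitrary W)
      exact hHm' ▸ card_homs_le' R hΔ0.le hΔ
  rw [← hHm', ← prod_ite_div _ _ hy.ne', ← prod_ite_div _ _ hn.ne']
  obtain ⟨u0, hu0⟩ : ∃ x, x = (∏ a, if a ∈ S \ I then b else y) *
    ∏ a, if a ∈ S ∩ I then b else (Fintype.card V : ℝ) := ⟨_, rfl⟩
  have hp1 : 0 ≤ ∏ a, if a ∈ S \ I then b else y :=
    Finset.prod_nonneg fun _ _ => by split_ifs <;> positivity
  have hu : 0 ≤ u0 := hu0 ▸ mul_nonneg hp1
    (Finset.prod_nonneg fun _ _ => by split_ifs <;> positivity)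
  rw [← hu0]
  refine le_trans ?_ (mul_le_mul_of_nonneg_right hΘs hu)
  rw [Finset.filter_sigma, Finset.card_sigma, Nat.cast_sum]
  have e : (Θs.card : ℝ) * u0 = ∑ θ, if θ ∈ Θs then u0 else 0 := by
    rw [Finset.sum_ite_mem, Finset.univ_inter, Finset.sum_const, nsmul_eq_mul]
  rw [e]
  refine le_trans (Finset.sum_le_sum fun θ hθ => ?_) (Finset.sum_le_univ_sum_of_nonneg
    fun _ => by split_ifs <;> positivity)
  have key : ∀ u ∈ (G θ).filter fun u => ∀ a ∈ S, rmap H I ⟨θ, u⟩ a ∈ B,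
      (∀ l, u (.inl l) ∈ Y (rpt H I θ l)) ∧ (∀ l ∈ S \ I, u (.inl l) ∈ B) ∧
      ∀ l ∈ S ∩ I, u (.inr l) ∈ B := fun u hu => by
    rw [Finset.mem_filter] at hu
    refine ⟨hG θ hθ u hu.1, fun l hl => ?_, fun l hl => ?_⟩
    · rw [Finset.mem_sdiff] at hl
      have := hu.2 l hl.1
      rwa [rmap_L hl.2 ((hS l hl.1).resolve_left hl.2)] at this
    · rw [Finset.mem_inter] at hl
      have := hu.2 l hl.1
      rwa [rmap_I hl.2] at this
  split_ifs with h'
  · have : ((G θ).filter fun u => ∀ a ∈ S, rmap H I ⟨θ, u⟩ a ∈ B) ⊆ Fintype.piFinset (Sum.elim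
        (fun l => if l ∈ S \ I then B else Y (rpt H I θ l))
        fun l => if l ∈ S ∩ I then B else univ) := fun u hu => by
      obtain ⟨a1, a2, a3⟩ := key u hu
      rw [Fintype.mem_piFinset]
      rintro (l | l) <;> simp only [Sum.elim_inl, Sum.elim_inr] <;> split_ifs with a4
      exacts [a2 l a4, a1 l, a3 l a4, mem_univ _]
    refine (Nat.cast_le.2 (Finset.card_le_card this)).trans ?_
    rw [Fintype.card_piFinset, Nat.cast_prod, Fintype.prod_sum_type, hu0]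
    refine mul_le_mul (Finset.prod_le_prod (fun _ _ => by positivity) fun l _ => ?_)
      (Finset.prod_le_prod (fun _ _ => by positivity) fun l _ => ?_) (by positivity) hp1
    · simp only [Sum.elim_inl]
      split_ifs
      exacts [hB, hY _ (hθX θ hθ _ _)]
    · simp only [Sum.elim_inr]
      split_ifs
      exacts [hB, le_rfl]
  · refine le_of_eq ?_
    rw [Nat.cast_eq_zero, Finset.card_eq_zero]
    refine Finset.eq_empty_of_forall_notMem fun u hu => h' ?_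
    obtain ⟨a1, a2, -⟩ := key u hu
    rw [hΘs', Fintype.mem_piFinset]
    intro j
    split_ifs with a4
    · refine Finset.mem_filter.2 ⟨hΘ θ hθ j, hBs' ▸ Finset.mem_filter.2
        ⟨hθX θ hθ _ _, _, a2 _ a4.choose_spec.1, ?_⟩⟩
      have := a1 a4.choose
      unfold rpt at this
      rwa [a4.choose_spec.2] at this
    · exact hΘ θ hθ j

lemma rep_num {n p τ Q b c c1 y0 Hm cnt tot : ℝ} {h t x cm k i : ℕ} (hn : 0 < n) (hp1 : p ≤ 1)
    (hτ : 0 < τ) (hτp : τ ≤ p) (hQ : 1 ≤ Q) (hb : 1 ≤ b) (hc : 0 < c) (hc1 : 0 < c1) (hy0 : 0 < y0)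
    (hHm : 0 < Hm) (htx : t ≤ x) (hh : cm + k + i ≤ h)
    (h1 : n ^ 2 ≤ τ ^ (x - 1 + k) * n ^ (cm + k + i))
    (h2 : cnt ≤ (b * (Q * p)) ^ cm * Hm ^ h * ((b / (p * n)) ^ (cm + k) * (p * n) ^ h *
      ((b / n) ^ i * n ^ h)))
    (h3 : c * Hm ^ h * (c1 * ((y0 * (p * n)) ^ h * n ^ h)) ≤ tot) :
    cnt ≤ (Q * b ^ 2) ^ h / (c * (c1 * y0 ^ h)) * τ ^ (t - 1) * tot / n ^ 2 := by
  have hp : 0 < p := hτ.trans_le hτp
  have a1 : n ^ 2 ≤ τ ^ (t - 1) * p ^ k * n ^ (cm + k + i) := by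
    refine h1.trans ?_
    rw [pow_add]
    have := pow_le_pow_of_le_one hτ.le (hτp.trans hp1) (by omega : t - 1 ≤ x - 1)
    gcongr
  have a2 : (b * Q) ^ cm * b ^ (cm + k + i) ≤ (Q * b ^ 2) ^ h := by
    rw [show Q * b ^ 2 = b * Q * b by ring, mul_pow (b * Q)]
    exact mul_le_mul (pow_le_pow_right₀ (one_le_mul_of_one_le_of_one_le hb hQ) (by omega))
      (pow_le_pow_right₀ hb hh) (by positivity) (by positivity)
  rw [le_div_iff₀ (by positivity)]
  calc _ ≤ (b * (Q * p)) ^ cm * Hm ^ h * ((b / (p * n)) ^ (cm + k) * (p * n) ^ h *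
        ((b / n) ^ i * n ^ h)) * (τ ^ (t - 1) * p ^ k * n ^ (cm + k + i)) :=
        mul_le_mul h2 a1 (by positivity) (by positivity)
    _ = (b * Q) ^ cm * b ^ (cm + k + i) * τ ^ (t - 1) * (Hm ^ h * ((p * n) ^ h * n ^ h)) := by
        simp only [div_pow, mul_pow, pow_add]
        field_simp
    _ ≤ (Q * b ^ 2) ^ h * τ ^ (t - 1) * (Hm ^ h * ((p * n) ^ h * n ^ h)) := by gcongr
    _ = (Q * b ^ 2) ^ h / (c * (c1 * y0 ^ h)) * τ ^ (t - 1) *
        (c * Hm ^ h * (c1 * ((y0 * (p * n)) ^ h * n ^ h))) := by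
        rw [mul_pow y0]; field_simp
    _ ≤ _ := by gcongr

theorem rep_hyp [Nonempty V] (hC : IsCloud H I) {r : ℕ}
    (hr : ∀ a0, ∃ R : Rooting (outside H I) r, R.pr a0 = a0) [Nonempty W]
    {V' X Z : Finset V} (hXV : X ⊆ V') (hZV : Z ⊆ V') (hXZ : Disjoint X Z) (hX : X.Nonempty)
    {F : SimpleGraph V} {E0 D : Finset (Sym2 V)} {Y U : V → Finset V}
    {p τ Q Δ c β γ ε y0 : ℝ} (hp1 : p ≤ 1) (hτ : 0 < τ) (hτp : τ ≤ p) (hQ : 1 ≤ Q) (hΔ0 : 0 < Δ)
    (hc : 0 < c) (hβ : 0 < β) (hγ : 0 < γ) (hγ1 : γ ≤ 1) (hε : 0 ≤ ε) (hy0 : 0 < y0)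
    (hF : ∀ u ∈ X, ∀ v ∈ X, F.Adj u v → s(u, v) ∈ E0) (hΔ : ∀ v ∈ X, (dg F v X : ℝ) ≤ Δ)
    (hY : ∀ x ∈ X, Y x ⊆ Z ∧ (∀ y ∈ Y x, s(x, y) ∈ E0) ∧
      y0 * (p * Fintype.card V) ≤ (Y x).card ∧ (Y x).card ≤ p * Fintype.card V ∧
      Homog (Dm D) (Y x) ε)
    (hU : ∀ x ∈ X, U x ⊆ Z ∧ ∀ z ∈ U x, γ ≤ fY (Dm D) (Y x) z)
    (hκ : ∀ y, ((X.filter fun x => y ∈ Y x).card : ℝ) ≤ Q * p * X.card)
    {Rl : W → W → W → Prop} (hRl : ∀ j a z, Req H I j a z → Rl j a z)
    (hΘ : c * ((X.card : ℝ) ^ r * Δ ^ (Fintype.card W - r)) ^ Fintype.card W ≤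
      (zgood (outside H I) F X U Rl β).card)
    (h1 : Fintype.card W * Fintype.card W * ε ≤
      β ^ Fintype.card W * γ ^ (Fintype.card W * Fintype.card W) / 4)
    (h2 : ((Fintype.card W + Fintype.card W : ℕ) : ℝ) ^ 2 ≤ β ^ Fintype.card W *
      γ ^ (Fintype.card W * Fintype.card W) / 4 * (y0 * (p * Fintype.card V)))
    (hS : ∀ S : Finset W, 1 ≤ cross H I S → (Fintype.card V : ℝ) ^ 2 ≤
      τ ^ (cross H I S - 1 + ((S \ I).card - comps H I S)) * (Fintype.card V : ℝ) ^ S.card) :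
    ∃ w : Finset (Sym2 V) → ℝ, Hyp w (cE H I).card (2 ^ Fintype.card W *
      ((Q * (2 * (cE H I).card + 1) ^ 2) ^ Fintype.card W / (c * (β ^ Fintype.card W *
        γ ^ (Fintype.card W * Fintype.card W) / 2 * y0 ^ Fintype.card W)))) τ
      ((Fintype.card V : ℝ) ^ 2) ∧ (∀ e, w e ≠ 0 → e ⊆ D) ∧
      ∀ I', embs H (gr (E0 ∪ I')) V' = ∅ → Indep w I' := by
  classical
  have hn : (0 : ℝ) < Fintype.card V := by exact_mod_cast Fintype.card_pos
  have hp : 0 < p := hτ.trans_le hτp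
  obtain ⟨Θ, hΘ'⟩ : ∃ x, x = zgood (outside H I) F X U Rl β := ⟨_, rfl⟩
  have hmem : ∀ θ ∈ Θ, (∀ j, θ j ∈ homs (outside H I) F X) ∧
      Function.Injective (Function.uncurry θ) ∧
      ∀ z, β * Fintype.card V ≤ (cap U Rl θ z).card := fun θ hθ => mem_zgood.1 (hΘ' ▸ hθ)
  rw [← hΘ'] at hΘ
  have hXc : (0 : ℝ) < X.card := by exact_mod_cast hX.card_pos
  obtain ⟨G, hG'⟩ : ∃ G : (W → W → V) → Finset (W ⊕ W → V), ∀ θ u, u ∈ G θ ↔
      (∀ l, u (.inl l) ∈ Y (rpt H I θ l)) ∧ (∀ i, u (.inr i) ∈ cap U Rl θ i) ∧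
      Function.Injective u ∧ ∀ l, ∀ i ∈ I, H.Adj l i → (gr D).Adj (u (.inl l)) (u (.inr i)) :=
    ⟨fun θ => univ.filter _, fun θ u => Finset.mem_filter.trans (and_iff_right (mem_univ _))⟩
  have hθX : ∀ θ ∈ Θ, ∀ j a, θ j a ∈ X := fun θ hθ j a => (mem_homs.1 ((hmem θ hθ).1 j)).1 a
  obtain ⟨x0, hx0⟩ := id hX
  have hy1 : y0 * (p * Fintype.card V) ≤ Fintype.card V := (hY x0 hx0).2.2.1.trans
    (by exact_mod_cast Finset.card_le_univ _)
  have hG : ∀ θ ∈ Θ, _ ≤ ((G θ).card : ℝ) := fun θ hθ => by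
    refine fibre_lower D (fun l => Y (rpt H I θ l)) (fun l => I.filter (H.Adj l))
      (Fintype.piFinset (cap U Rl θ)) (G θ) (by positivity) hy1 hε hγ.le hγ1
      (fun l => ⟨(hY _ (hθX θ hθ _ _)).2.2.1, (hY _ (hθX θ hθ _ _)).2.2.2.2⟩) ?_
      (fun z hz l i hi => ?_) h1 h2 fun u a1 a2 a3 a4 => (hG' θ u).2
        ⟨a1, Fintype.mem_piFinset.1 a2, a3, fun l i b1 b2 => a4 l i (Finset.mem_filter.2 ⟨b1, b2⟩)⟩
    · rw [Fintype.card_piFinset, Nat.cast_prod, ← mul_pow, ← Finset.card_univ (α := W),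
        ← Finset.prod_const]
      exact Finset.prod_le_prod (fun _ _ => by positivity) fun i _ => (hmem θ hθ).2.2 i
    · rw [Finset.mem_filter] at hi
      exact (hU _ (hθX θ hθ _ _)).2 _ (mem_cap.1 (Fintype.mem_piFinset.1 hz i) _ _
        (hRl _ _ _ ⟨cl_par l, Or.inr ⟨hi.1, l, hi.2, rfl⟩⟩))
  have htot := (mul_le_mul_of_nonneg_right hΘ (by positivity)).trans
    ((nsmul_eq_mul _ _).symm.trans_le (Finset.card_nsmul_le_sum _ _ _ hG))
  rw [← Nat.cast_sum, ← Finset.card_sigma] at htot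
  have hψZ : ∀ σ ∈ Θ.sigma G, ∀ a, a ∈ I ∨ Lf H I a → rmap H I σ a ∈ Z := fun σ hσ a ha => by
    rw [Finset.mem_sigma] at hσ
    have b := (hG' _ _).1 hσ.2
    by_cases b1 : a ∈ I
    · rw [rmap_I b1]
      exact (hU _ (hθX _ hσ.1 _ _)).1 (mem_cap.1 (b.2.1 a) _ _ (hRl _ _ _ ⟨rfl, Or.inl rfl⟩))
    · rw [rmap_L b1 (ha.resolve_left b1)]
      exact (hY _ (hθX _ hσ.1 _ _)).1 (b.1 a)
  have hinj : ∀ σ ∈ Θ.sigma G, Function.Injective (rmap H I σ) := fun σ hσ a b e => by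
    have ha := hψZ σ hσ a
    have hb := hψZ σ hσ b
    rw [Finset.mem_sigma] at hσ
    have hu := ((hG' _ _).1 hσ.2).2.2.1
    by_cases a1 : a ∈ I ∨ Lf H I a <;> by_cases b1 : b ∈ I ∨ Lf H I b
    · by_cases a2 : a ∈ I <;> by_cases b2 : b ∈ I
      · rw [rmap_I a2, rmap_I b2] at e; exact Sum.inr_injective (hu e)
      · rw [rmap_I a2, rmap_L b2 (b1.resolve_left b2)] at e; exact absurd (hu e) (by simp)
      · rw [rmap_I b2, rmap_L a2 (a1.resolve_left a2)] at e; exact absurd (hu e) (by simp)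
      · rw [rmap_L a2 (a1.resolve_left a2), rmap_L b2 (b1.resolve_left b2)] at e
        exact Sum.inl_injective (hu e)
    · refine absurd (ha a1) ?_
      rw [e, rmap_X b1]; exact Finset.disjoint_left.1 hXZ (hθX _ hσ.1 _ _)
    · refine absurd (hb b1) ?_
      rw [← e, rmap_X a1]; exact Finset.disjoint_left.1 hXZ (hθX _ hσ.1 _ _)
    · rw [rmap_X a1, rmap_X b1] at e
      exact congrArg Prod.snd (@(hmem _ hσ.1).2.1 (cl H I a, a) (cl H I b, b) e)
  have hb1 : (1 : ℝ) ≤ 2 * (cE H I).card + 1 := by linarith only [(cE H I).card.cast_nonneg (α := ℝ)]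
  obtain ⟨w, hw, hw'⟩ := hyp_pattern (Θ.sigma G)
    (Finset.card_pos.1 (Nat.cast_pos.1 (lt_of_lt_of_le (by positivity) htot))) (rmap H I) hinj
    (cE H I) (univ.filter fun a => a ∈ I ∨ Lf H I a) (fun e he a ha => by
      obtain ⟨l, z, a1, a2, a3, rfl⟩ := cE_rep hC he
      rcases Sym2.mem_iff.1 ha with rfl | rfl
      · exact Finset.mem_filter.2 ⟨mem_univ _, Or.inr ⟨z, a2, a3⟩⟩
      · exact Finset.mem_filter.2 ⟨mem_univ _, Or.inl a2⟩)
    (K := (Q * (2 * (cE H I).card + 1) ^ 2) ^ Fintype.card W / (c * (β ^ Fintype.card W *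
        γ ^ (Fintype.card W * Fintype.card W) / 2 * y0 ^ Fintype.card W))) (τ := τ)
    (N := (Fintype.card V : ℝ) ^ 2) (by positivity) hτ.le (by positivity)
    fun S hSW t ht htS B hB => by
      rw [← cross_eq hC] at htS
      have a1 := rep_upper hr hX (y := p * Fintype.card V) (k := Q * p) (b := 2 * (cE H I).card + 1)
        (by positivity) (by positivity) hΔ0 hΔ (fun x hx => (hY x hx).2.2.2.1) hκ
        (fun θ hθ => (hmem θ hθ).1) (fun θ _ u hu => ((hG' θ u).1 hu).1)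
        (fun a ha => (Finset.mem_filter.1 (hSW ha)).2) (B := B)
        (by exact_mod_cast hB.trans (Nat.le_succ _))
      obtain ⟨k, hk⟩ := Nat.exists_eq_add_of_le (comps_le (H := H) (I := I) S)
      have hSc : (S \ I).card + (S ∩ I).card = S.card := Finset.card_sdiff_add_card_inter _ _
      have a2 := hS S (ht.trans htS)
      rw [← hSc, hk, Nat.add_sub_cancel_left] at a2
      rw [hk] at a1
      have := Finset.card_le_univ S
      exact rep_num hn hp1 hτ hτp hQ hb1 hc (by positivity) hy0 (by positivity) htS (by omega)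
        a2 a1 htot
  refine ⟨w, hw, fun e he => ?_, fun I' hI e he hsub => ?_⟩
  · obtain ⟨σ, hσ, rfl⟩ := hw' e he
    intro x hx
    obtain ⟨e', he', rfl⟩ := Finset.mem_image.1 hx
    obtain ⟨l, z, a1, a2, a3, rfl⟩ := cE_rep hC he'
    have := ((hG' _ _).1 (Finset.mem_sigma.1 hσ).2).2.2.2 l z a2 a3
    rw [Sym2.map_mk, rmap_L a1 ⟨z, a2, a3⟩, rmap_I a2]
    exact (gr_adj.1 this).1
  · obtain ⟨σ, hσ, rfl⟩ := hw' e he
    have hZ := hψZ σ hσ
    have hi := hinj σ hσ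
    rw [Finset.mem_sigma] at hσ
    have key : ∀ a b, (outside H I).Adj a b → Lf H I a →
        s(rmap H I σ b, rmap H I σ a) ∈ E0 := fun a b hab ha => by
      have b1 : ¬ (b ∈ I ∨ Lf H I b) := fun h => h.elim hab.2.2 (hC.2.2.2 a b hab ha)
      have := ((hG' _ _).1 hσ.2).1 a
      unfold rpt at this
      rw [par_eq hC ha hab, cl_adj hab] at this
      rw [rmap_X b1, rmap_L hab.2.1 ha]
      exact (hY _ (hθX _ hσ.1 _ _)).2.1 _ this
    refine Finset.notMem_empty (rmap H I σ) (hI ▸ Finset.mem_filter.2 ⟨mem_homs.2 ⟨fun a => ?_,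
      fun a b hab => gr_adj.2 ⟨?_, fun e => hab.ne (hi e)⟩⟩, hi⟩)
    · by_cases a1 : a ∈ I ∨ Lf H I a
      · exact hZV (hZ a a1)
      · rw [rmap_X a1]; exact hXV (hθX _ hσ.1 _ _)
    by_cases a0 : a ∈ I ∨ b ∈ I
    · refine Finset.mem_union_right _ (hsub (Finset.mem_image.2 ⟨s(a, b), mem_cE.2 ⟨hab, ?_⟩, rfl⟩))
      exact a0.elim (fun h => ⟨a, h, by simp⟩) fun h => ⟨b, h, by simp⟩
    rw [not_or] at a0
    have hab' : (outside H I).Adj a b := ⟨hab, a0⟩
    refine Finset.mem_union_left _ ?_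
    by_cases a1 : Lf H I a
    · rw [Sym2.eq_swap]; exact key a b hab' a1
    by_cases b1 : Lf H I b
    · exact key b a hab'.symm b1
    rw [rmap_X fun h => h.elim a0.1 a1, rmap_X fun h => h.elim a0.2 b1, ← cl_adj hab']
    exact hF _ (hθX _ hσ.1 _ _) _ (hθX _ hσ.1 _ _)
      ((mem_homs.1 ((hmem _ hσ.1).1 _)).2 a b hab')

end Pool.Agent.Lib.MP_46505f_co
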