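import Pool.Agent.Lib.MP_46505f_co.Del

set_option autoImplicit false
set_option linter.unusedSectionVars false
open Finset
open Pool.Agent.Lib.MP_eaf82e_pr

namespace Pool.Agent.Lib.MP_46505f_co

/- More typical properties of the random graph. -/

variable {V : Type} [Fintype V] [DecidableEq V] {p : ℝ}

lemma card_finset_le : (Fintype.card (Finset V) : ℝ) ≤ Real.exp (Fintype.card V) := by
  rw [Fintype.card_finset, ← mul_one (Fintype.card V : ℝ), Real.exp_nat_mul]
  push_cast
  gcongr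
  linarith [Real.add_one_le_exp 1]

lemma Pr_all {ι κ : Type*} [Fintype ι] [DecidableEq ι] [Fintype κ] {q : ι → ℝ} (hq : IsP q)
    (E : κ → (ι → Bool) → Prop) {y : ℝ} (h : ∀ k, Pr q (E k) ≤ y) :
    Pr q (fun ω => ∃ k, E k ω) ≤ Fintype.card κ * y := by
  refine (Pr_mono hq fun ω ⟨k, hk⟩ => ⟨k, mem_univ _, hk⟩).trans ((Pr_exists_le hq univ E).trans ?_)
  rw [← nsmul_eq_mul]
  exact Finset.sum_le_card_nsmul _ _ _ fun k _ => h k

lemma Pr_and_le {ι : Type*} [Fintype ι] [DecidableEq ι] {q : ι → ℝ} (P : Prop)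
    (E : (ι → Bool) → Prop) {y : ℝ} (hq : IsP q) (hy : 0 ≤ y) (h : P → Pr q E ≤ y) :
    Pr q (fun ω => P ∧ E ω) ≤ y := by
  by_cases e : P
  · exact (Pr_mono hq fun _ => And.right).trans (h e)
  · rwa [Pr_false _ fun ω h => e h.1]

lemma Pr_pairs (h0 : 0 ≤ p) (h1 : p ≤ 1) (E : Finset V → Finset V → (Sym2 V → Bool) → Prop)
    {y : ℝ} (h : ∀ U W, Pr (fun _ => p) (E U W) ≤ Real.exp (-y)) :
    Pr (fun _ => p) (fun ω => ∃ U W, E U W ω) ≤ Real.exp (2 * Fintype.card V - y) := by
  refine (Pr_mono (isP_const h0 h1) fun ω ⟨U, W, h⟩ => ⟨(U, W), h⟩).trans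
    ((Pr_all (isP_const h0 h1) (fun z : Finset V × Finset V => E z.1 z.2) fun z => h _ _).trans ?_)
  rw [Fintype.card_prod, Nat.cast_mul, sub_eq_add_neg, two_mul, Real.exp_add, Real.exp_add]
  have := card_finset_le (V := V)
  gcongr

def UU (G : SimpleGraph V) (p η M : ℝ) : Prop := ∀ U W : Finset V, Disjoint U W →
  ∑ u ∈ U, (dg G u W : ℝ) ≤ (1 + η) * (p * (U.card * W.card + M))

def LU (G : SimpleGraph V) (p η M : ℝ) : Prop := ∀ U W : Finset V, Disjoint U W →
  M ≤ U.card * W.card → (1 - η) * (p * (U.card * W.card)) ≤ ∑ u ∈ U, (dg G u W : ℝ)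

lemma Pr_UU (h0 : 0 ≤ p) (h1 : p ≤ 1) {η M : ℝ} (e0 : 0 ≤ η) (e1 : η ≤ 1) (hM : 0 ≤ M) :
    Pr (fun _ => p) (fun ω : Sym2 V → Bool => ¬ UU (gr (rs ω)) p η M) ≤
      Real.exp (2 * Fintype.card V - η ^ 2 * (p * M) / 4) := by
  refine (Pr_mono (isP_const h0 h1) fun ω h => ?_).trans (Pr_pairs h0 h1 (fun U W ω =>
    (1 + η) * (p * (U.card * W.card + M)) ≤ (btw U W ∩ rs ω).card) fun U W =>
    (Pr_up' h0 h1 _ ((card_btw U W).trans (by linarith)) e0 e1).trans (by gcongr; simp; positivity))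
  unfold UU at h
  push Not at h
  obtain ⟨U, W, a1, a2⟩ := h
  exact ⟨U, W, sum_dg_eq a1 _ ▸ a2.le⟩

lemma Pr_LU (h0 : 0 ≤ p) (h1 : p ≤ 1) {η M : ℝ} (e0 : 0 ≤ η) (e1 : η ≤ 1) :
    Pr (fun _ => p) (fun ω : Sym2 V → Bool => ¬ LU (gr (rs ω)) p η M) ≤
      Real.exp (2 * Fintype.card V - η ^ 2 * (p * M) / 4) := by
  refine (Pr_mono (isP_const h0 h1) fun ω h => ?_).trans (Pr_pairs h0 h1 (fun U W ω =>
    (Disjoint U W ∧ M ≤ U.card * W.card) ∧ ((btw U W ∩ rs ω).card : ℝ) ≤
      (1 - η) * (p * (U.card * W.card))) fun U W => Pr_and_le _ _ (isP_const h0 h1)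
      (Real.exp_pos _).le fun h => (Pr_lo' h0 h1 _ (card_btw_eq h.1).ge (by positivity) e0
        e1).trans (by have := h.2; gcongr))
  unfold LU at h
  push Not at h
  obtain ⟨U, W, a1, a2, a3⟩ := h
  exact ⟨U, W, ⟨a1, a2⟩, sum_dg_eq a1 _ ▸ a3.le⟩

lemma Pr_parts (h0 : 0 ≤ p) (h1 : p ≤ 1) {κ : Type} [Fintype κ] (A : κ → Finset V) {M : ℝ}
    (hM : ∀ k, (A k).card ≤ M) :
    Pr (fun _ => p) (fun ω : Sym2 V → Bool => ∃ v k, 2 * (p * M) ≤ dg (gr (rs ω)) v (A k)) ≤
      Fintype.card V * (Fintype.card κ * Real.exp (-(p * M / 4))) := by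
  have hP := isP_const (ι := Sym2 V) h0 h1
  refine Pr_all hP _ fun v => Pr_all hP _ fun k => (Pr_mono hP fun ω h => ?_).trans
    ((Pr_up' h0 h1 (btw {v} ((A k).erase v)) (M := M) ((card_btw _ _).trans ?_) zero_le_one
      le_rfl).trans_eq (by congr 2; ring))
  · rw [← dg_eq_card (Finset.notMem_erase _ _), dg_erase]; linarith
  · rw [Finset.card_singleton, Nat.cast_one, one_mul]
    exact le_trans (Nat.cast_le.2 Finset.card_erase_le) (hM k)

/-- few vertices have two neighbours in a small set -/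
def Mu (G : SimpleGraph V) (s : ℕ) (b : ℝ) : Prop := ∀ X : Finset V, X.card ≤ s →
  (((univ \ X).filter fun y => 2 ≤ dg G y X).card : ℝ) ≤ b

lemma Pr_Mu [Nonempty V] (h0 : 0 ≤ p) (h1 : p ≤ 1) (s : ℕ) (b : ℝ) :
    Pr (fun _ => p) (fun ω : Sym2 V → Bool => ¬ Mu (gr (rs ω)) s b) ≤
      (Fintype.card V + 1 : ℝ) ^ s * Real.exp (2 * Fintype.card V * (p * s) ^ 2 - b) := by
  classical
  have hP := isP_const (ι := Sym2 V) h0 h1
  let im : (Fin s → Option V) → Finset V := fun f => univ.filter fun v => ∃ i, f i = some v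
  have him : ∀ f, (im f).card ≤ s := fun f => by
    refine le_trans (Finset.card_le_card_of_injOn some (t := univ.image f) (fun v hv => ?_)
      (Option.some_injective _).injOn) (Finset.card_image_le.trans (by simp))
    simpa [im] using hv
  refine (Pr_mono hP fun ω h => ?_).trans ((Pr_all hP (fun (f : Fin s → Option V) ω =>
    b ≤ cnt (univ \ im f) fun y => 2 ≤ (btw {y} (im f) ∩ rs ω).card) fun f => chern_up hP _
      (fun y => btw {y} (im f)) (fun y hy y' hy' hne => Finset.disjoint_left.2 fun e a1 a2 => ?_) _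
      (fun y _ => (dep_inter _).comp fun S => 2 ≤ S.card) (μ := Fintype.card V * (p * s) ^ 2) ?_
      zero_le_one b).trans ?_)
  · unfold Mu at h
    push Not at h
    obtain ⟨X, a1, a2⟩ := h
    obtain ⟨ι⟩ := Function.Embedding.nonempty_of_card_le (α := X) (β := Fin s) (by simpa using a1)
    refine ⟨Function.extend ι (fun x => some x.1) fun _ => none, ?_⟩
    have e : im (Function.extend ι (fun x => some x.1) fun _ => none) = X := by
      ext v
      simp only [im, Finset.mem_filter, mem_univ, true_and]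
      refine ⟨fun ⟨i, hi⟩ => ?_, fun hv => ⟨ι ⟨v, hv⟩, ι.injective.extend_apply _ _ _⟩⟩
      by_cases e : ∃ x, ι x = i
      · obtain ⟨x, rfl⟩ := e
        rw [ι.injective.extend_apply] at hi
        exact Option.some_injective _ hi ▸ x.2
      · rw [Function.extend_apply' _ _ _ e] at hi; exact absurd hi (by simp)
    rw [e]
    refine a2.le.trans (Nat.cast_le.2 (Finset.card_le_card fun y hy => ?_))
    simp only [Finset.mem_filter] at hy ⊢
    exact ⟨hy.1, by exact_mod_cast dg_eq_card (Finset.mem_sdiff.1 hy.1).2 (rs ω) ▸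
      (Nat.cast_le (α := ℝ)).2 hy.2⟩
  · obtain ⟨u, b1, x, b2, rfl⟩ := mem_btw.1 a1
    obtain ⟨u', b3, x', b4, e⟩ := mem_btw.1 a2
    rw [Finset.mem_singleton] at b1 b3
    subst b1 b3
    rcases Sym2.eq_iff.1 e with e | e
    · exact hne e.1
    · exact (Finset.mem_sdiff.1 hy).2 (e.1 ▸ b4)
  · refine (Finset.sum_le_card_nsmul _ _ ((p * s) ^ 2) fun y _ => ?_).trans ?_
    · refine (Pr_mono hP (F := fun ω => ∃ T ∈ (btw {y} (im f)).powersetCard 2, T ⊆ rs ω)
        fun ω h => ?_).trans ((Pr_exists_le hP _ _).trans ?_)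
      · obtain ⟨T, b1, b2⟩ := Finset.exists_subset_card_eq h
        exact ⟨T, Finset.mem_powersetCard.2 ⟨b1.trans Finset.inter_subset_left, b2⟩,
          b1.trans Finset.inter_subset_right⟩
      · rw [Finset.sum_congr rfl fun T hT => by
          rw [Pr_sub, (Finset.mem_powersetCard.1 hT).2], Finset.sum_const, nsmul_eq_mul,
          Finset.card_powersetCard, mul_pow, mul_comm]
        have b1 := card_btw {y} (im f)
        rw [Finset.card_singleton, Nat.cast_one, one_mul, Nat.cast_le] at b1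
        have b2 := (Nat.choose_le_pow _ 2).trans (Nat.pow_le_pow_left (b1.trans (him f)) 2)
        gcongr
        exact_mod_cast b2
    · rw [nsmul_eq_mul]
      gcongr
      exact Finset.card_le_univ _
  · rw [Fintype.card_fun, Fintype.card_option, Fintype.card_fin]
    push_cast
    refine mul_le_mul_of_nonneg_left (Real.exp_le_exp.2 ?_) (by positivity)
    have : 0 ≤ Fintype.card V * (p * s) ^ 2 := by positivity
    nlinarith [mul_le_mul_of_nonneg_left Real.exp_one_lt_d9.le this]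

lemma card_btw_self (Q : Finset V) : 2 * ((btw Q Q).card : ℝ) ≤ Q.card * (Q.card + 1) := by
  have h1 : btw Q Q ⊆ Q.sym2 := fun e he => by
    obtain ⟨u, hu, w, hw, rfl⟩ := mem_btw.1 he
    exact Finset.mk_mem_sym2_iff.2 ⟨hu, hw⟩
  have h2 := Finset.card_le_card h1
  rw [Finset.card_sym2, Nat.choose_two_right, Nat.add_sub_cancel] at h2
  have h3 := Nat.mul_div_le ((Q.card + 1) * Q.card) 2
  have : 2 * (btw Q Q).card ≤ Q.card * (Q.card + 1) := by rw [mul_comm Q.card]; omega
  exact_mod_cast this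

lemma Pr_core (h0 : 0 ≤ p) (h1 : p ≤ 1) {ε : ℝ} (e0 : 0 < ε) (e1 : ε ≤ 1)
    (hn : 16 * Real.log (Fintype.card V) ≤ Fintype.card V) :
    Pr (fun _ => p) (fun ω : Sym2 V → Bool => ¬ NoCore (gr (rs ω)) univ
      ((1 + ε) * (p * Fintype.card V) + (2 + 20 / ε))) ≤ 1 / Fintype.card V := by
  have hP := isP_const (ι := Sym2 V) h0 h1
  obtain ⟨n, hn'⟩ : ∃ x : ℝ, x = Fintype.card V := ⟨_, rfl⟩
  rw [← hn'] at hn ⊢
  have e2 : 20 ≤ 20 / ε := by rw [le_div_iff₀ e0]; linarith
  have key : ∀ Q : Finset V, Q.Nonempty → Pr (fun _ => p) (fun ω : Sym2 V → Bool =>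
      Q.card * ((1 + ε) * (p * n) + (2 + 20 / ε)) / 2 ≤ (btw Q Q ∩ rs ω).card) ≤
      (Q.card / (Real.exp 1 * n)) ^ Q.card / n ^ 2 := fun Q hQ => by
    obtain ⟨s, hs⟩ : ∃ x : ℝ, x = Q.card := ⟨_, rfl⟩
    have s1 : 1 ≤ s := by rw [hs]; exact_mod_cast hQ.card_pos
    have s2 : s ≤ n := by rw [hs, hn']; exact_mod_cast Finset.card_le_univ _
    have n0 : 0 < n := by linarith
    obtain ⟨l, hl⟩ : ∃ x, x = Real.log (n / s) := ⟨_, rfl⟩
    have l0 : 0 ≤ l := hl ▸ Real.log_nonneg ((one_le_div (by linarith)).2 s2)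
    have l1 : Real.exp l = n / s := hl ▸ Real.exp_log (by positivity)
    have e : (Q.card / (Real.exp 1 * n)) ^ Q.card / n ^ 2 =
        Real.exp (-(s * (1 + l)) - 2 * Real.log n) := by
      rw [Real.exp_sub, Real.exp_neg, two_mul, Real.exp_add, Real.exp_log n0, hs, Real.exp_nat_mul,
        Real.exp_add, l1, ← hs, ← inv_pow, sq]
      congr 2; field_simp
    have b0 := card_btw_self Q
    rw [e, ← hs]
    rw [← hs] at b0
    have ps : 0 ≤ p * s := by positivity
    by_cases c : n ≤ 8 * s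
    · refine (Pr_up h0 h1 _ (M := s * (s + 1) / 2) (by linarith) e0.le _).trans
        (Real.exp_le_exp.2 ?_)
      have b1 := exp_le_quad (x := ε) (by rw [abs_le]; constructor <;> linarith)
      have b2 : l ≤ 7 := by
        have := Real.log_le_sub_one_of_pos (by positivity : 0 < n / s)
        have : n / s ≤ 8 := by rwa [div_le_iff₀ (by linarith)]
        linarith
      have b3 : p * (s * (s + 1) / 2) ≤ s * (p * n + 1) / 2 := by
        nlinarith only [hs, s2, ps, h1, h0, mul_le_mul_of_nonneg_left s2 ps]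
      have b4 : p * (s * (s + 1) / 2) * (Real.exp ε - 1) ≤ s * (p * n + 1) / 2 * (ε * (1 + ε)) :=
        mul_le_mul b3 (by linarith) (by linarith [Real.add_one_le_exp ε]) (by positivity)
      have b5 : ε * (20 / ε) = 20 := by field_simp
      have b6 : ε * (s * ((1 + ε) * (p * n) + (2 + 20 / ε)) / 2) =
          s * (p * n) / 2 * (ε * (1 + ε)) + ε * s + s * (ε * (20 / ε)) / 2 := by ring
      rw [b6, b5]
      nlinarith only [hn, s1, c, b4, b2, e1, e0, mul_le_mul_of_nonneg_left b2 (by linarith : 0 ≤ s),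
        mul_le_mul_of_nonneg_left e1 (by positivity : 0 ≤ ε * s)]
    · refine (Pr_up h0 h1 _ (M := s * s) (by nlinarith only [hs, b0, s1]) l0 _).trans (Real.exp_le_exp.2 ?_)
      have b1 : 8 ≤ n / s := by rw [le_div_iff₀ (by linarith)]; linarith
      have b2 : 2 ≤ l := by
        rw [hl, Real.le_log_iff_exp_le (by linarith), show (2 : ℝ) = 1 + 1 by norm_num,
          Real.exp_add]
        nlinarith only [b1, Real.exp_one_lt_d9, Real.exp_pos 1]
      have b3 : Real.log n ≤ s * l := by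
        have d1 := Real.log_le_sub_one_of_pos (by linarith : 0 < s)
        have d2 : l = Real.log n - Real.log s := by rw [hl, Real.log_div n0.ne' (by linarith)]
        nlinarith only [d1, d2, s1, l0, b2]
      have b4 : p * (s * s) * (n / s - 1) ≤ p * s * n := by
        have : p * (s * s) * (n / s) = p * s * n := by field_simp
        nlinarith only [this, h0]
      have b5 : 2 * (p * s * n) ≤ l * (s * ((1 + ε) * (p * n))) := by
        have : 0 ≤ p * s * n := by positivity
        nlinarith only [l0, e0, this, b2, mul_nonneg l0 (mul_nonneg e0.le this)]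
      have b6 : 22 * (s * l) ≤ l * (s * (2 + 20 / ε)) := by
        nlinarith only [e2, l0, s1, mul_nonneg l0 (by linarith : 0 ≤ s)]
      rw [l1]
      nlinarith only [hs, s1, b3, b4, b5, b6, b2, l0]
  refine (Pr_mono hP (F := fun ω => ∃ Q ∈ univ.filter Finset.Nonempty, _) fun ω h => ?_).trans
    ((Pr_exists_le hP _ _).trans ((Finset.sum_le_sum fun Q hQ =>
      key Q (Finset.mem_filter.1 hQ).2).trans ?_))
  · unfold NoCore at h
    push Not at h
    obtain ⟨Q, -, a1, a2⟩ := h
    have a3 := Finset.card_nsmul_le_sum _ _ _ a2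
    rw [nsmul_eq_mul] at a3
    exact ⟨Q, Finset.mem_filter.2 ⟨mem_univ _, a1⟩, by linarith [sum_dg_le_two (rs ω) Q Q]⟩
  · rcases (Fintype.card V).eq_zero_or_pos with e | e
    · simp [hn', e]
    have n0 : 0 < n := by rw [hn']; exact_mod_cast e
    rw [← Finset.sum_fiberwise_of_maps_to (t := Finset.Icc 1 (Fintype.card V))
      (g := Finset.card) fun Q hQ => Finset.mem_Icc.2
        ⟨(Finset.mem_filter.1 hQ).2.card_pos, Finset.card_le_univ _⟩]
    refine (Finset.sum_le_card_nsmul _ _ (1 / n ^ 2) fun s _ => ?_).trans_eq ?_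
    · rw [Finset.sum_congr rfl fun Q hQ => by rw [(Finset.mem_filter.1 hQ).2], Finset.sum_const,
        nsmul_eq_mul, mul_div_assoc']
      gcongr
      have b1 : ((univ.filter Finset.Nonempty).filter fun Q : Finset V => Q.card = s).card ≤
          (Fintype.card V).choose s := by
        rw [← Finset.card_univ, ← Finset.card_powersetCard]
        exact Finset.card_le_card fun Q hQ => Finset.mem_powersetCard.2
          ⟨subset_univ _, (Finset.mem_filter.1 hQ).2⟩
      have b2 := (Nat.cast_le.2 b1).trans (Nat.choose_le_pow_div (α := ℝ) s (Fintype.card V))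
      have b3 := Real.pow_div_factorial_le_exp (s : ℝ) s.cast_nonneg s
      rw [← hn'] at b2
      calc _ ≤ n ^ s / s.factorial * (s / (Real.exp 1 * n)) ^ s := by gcongr
        _ = s ^ s / s.factorial / Real.exp s := by
          rw [div_pow, mul_pow, ← Real.exp_nat_mul, mul_one]; field_simp
        _ ≤ 1 := by rwa [div_le_one (Real.exp_pos _)]
    · rw [Nat.card_Icc, Nat.add_sub_cancel, nsmul_eq_mul, ← hn']; field_simp

end Pool.Agent.Lib.MP_46505f_co
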