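import Pool.Agent.Lib.MP_46505f_co.Str

set_option autoImplicit false
set_option linter.unusedSectionVars false
open Finset Filter Topology

namespace Pool.Agent.Lib.MP_46505f_co

/- Zykov type configurations with conditions on vertices and on edges. -/

variable {V I : Type} [Fintype V] [DecidableEq V] [Fintype I] [DecidableEq I]

def egr (F : SimpleGraph V) (P : V → V → Prop) : SimpleGraph V where
  Adj x y := F.Adj x y ∧ P x y ∧ P y x
  symm := ⟨fun _ _ h => ⟨h.1.symm, h.2.2, h.2.1⟩⟩
  loopless := ⟨fun _ h => F.irrefl h.1⟩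

lemma col_bad {F : SimpleGraph V} {P : V → V → Prop} {X : Finset V} {s : ℕ}
    (hP : (∀ x y y', P x y → P x y') ∨ ∀ x y, P x y → P y x) (h : Col (egr F P) X s) :
    Col (F \ egr F fun x y => ¬ P x y) X (s + 1) := by
  classical
  have key : ∀ x y, (F \ egr F fun x y => ¬ P x y).Adj x y → F.Adj x y ∧ (P x y ∨ P y x) :=
    fun x y e => ⟨e.1, by_contra fun c => e.2 ⟨e.1, not_or.1 c⟩⟩
  rcases hP with hP | hP
  · obtain ⟨c, h1, h2⟩ := h
    refine ⟨fun x => if P x x then c x else s, fun v hv => ?_, fun x hx y hy e => ?_⟩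
    · have := h1 v hv
      dsimp only; split_ifs <;> omega
    · have := h1 x hx
      have := h1 y hy
      dsimp only
      split_ifs with a b b
      · exact h2 x hx y hy ⟨e.1, hP _ _ _ a, hP _ _ _ b⟩
      · omega
      · omega
      · exact absurd ((key x y e).2.imp (hP _ _ _) (hP _ _ _)) (not_or.2 ⟨a, b⟩)
  · exact h.mono (fun x y e => ⟨e.1, (key x y e).2.elim id (hP _ _), (key x y e).2.elim (hP _ _) id⟩)
      Subset.rfl s.le_succ

lemma exists_edge {F : SimpleGraph V} {X : Finset V} {t : ℕ} (h : ¬ Col F X t) (ht : 1 ≤ t) :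
    ∃ x ∈ X, ∃ y ∈ X, F.Adj x y := by
  by_contra c
  exact h ⟨fun _ => 0, fun _ _ => ht, fun x hx y hy e _ => c ⟨x, hx, y, hy, e⟩⟩

theorem boost2 {α β : ℝ} (hα : 0 < α) (hβ : 0 < β) (t : ℕ) (u : I → V → V → Finset V)
    (hu : ∀ z, (∀ x y y', u z x y = u z x y') ∨ ∀ x y, u z x y = u z y x) (X : Finset V) :
    ∀ (M : ℕ) (F : SimpleGraph V) (Z0 : I → Finset V) (a : I → ℝ), (∀ z, (Z0 z).Nonempty) →
    (∀ z, α ≤ a z) → Fintype.card I - M * (α * β / 2) < ∑ z, a z →
    ¬ Col F X ((fun s => (t + 1) * (s + 1) ^ Fintype.card I)^[M] 1) →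
    (∀ x ∈ X, ∀ y ∈ X, F.Adj x y → ∀ z, a z * (Z0 z).card ≤ (Z0 z ∩ u z x y).card) →
    ∃ F' ≤ F, ∃ Z : I → Finset V, (∀ z, Z z ⊆ Z0 z ∧ (α / 2) ^ M * (Z0 z).card ≤ (Z z).card) ∧
      ∀ S : I → Finset V, (∀ z, S z ⊆ Z z ∧ β * (Z z).card ≤ (S z).card) →
        ¬ Col (egr F' fun x y => ∀ z, α / 2 * (S z).card ≤ (S z ∩ u z x y).card) X t := by
  have pos : ∀ M, 1 ≤ (fun s => (t + 1) * (s + 1) ^ Fintype.card I)^[M] 1 := fun M => by
    cases M
    · exact le_rfl
    · rw [Function.iterate_succ_apply']; exact Nat.succ_le_of_lt (by positivity)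
  intro M
  induction M with
  | zero => ?_
  | succ M ih => ?_
  all_goals
    intro F Z a hZ ha hs hc hd
    have Z0 : ∀ z, (0 : ℝ) < (Z z).card := fun z => by exact_mod_cast (hZ z).card_pos
    obtain ⟨x, hx, y, hy, e⟩ := exists_edge hc (pos _)
    have a1 : ∀ z, a z ≤ 1 := fun z => le_of_mul_le_mul_right ((hd x hx y hy e z).trans (by
      rw [one_mul]; exact_mod_cast Finset.card_le_card Finset.inter_subset_left)) (Z0 z)
  · have := Finset.sum_le_card_nsmul univ a 1 fun z _ => a1 z
    simp at this hs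
    linarith
  by_cases hst : ∀ S : I → Finset V, (∀ z, S z ⊆ Z z ∧ β * (Z z).card ≤ (S z).card) →
      ¬ Col (egr F fun x y => ∀ z, α / 2 * (S z).card ≤ (S z ∩ u z x y).card) X t
  · exact ⟨F, le_rfl, Z, fun z => ⟨Subset.rfl, mul_le_of_le_one_left (Z0 z).le
      (pow_le_one₀ (by positivity) (by linarith [ha z, a1 z]))⟩, hst⟩
  push Not at hst
  obtain ⟨S, hS, hcol⟩ := hst
  obtain ⟨z0, hz0⟩ : ∃ z, ¬ Col (egr F fun x y => ((S z ∩ u z x y).card : ℝ) < α / 2 * (S z).card) X
      ((fun s => (t + 1) * (s + 1) ^ Fintype.card I)^[M] 1) := by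
    by_contra c
    push Not at c
    rw [Function.iterate_succ_apply'] at hc
    refine hc ((hcol.sup (col_sup_fin univ fun z _ => col_bad ((hu z).imp (fun h x y y' => by
      rw [h x y y']; exact id) fun h x y => by rw [h x y]; exact id) (c z))).mono
      (fun x y e => or_iff_not_imp_left.2 fun f => ?_) Subset.rfl (by
        rw [Finset.card_univ]; gcongr; omega))
    obtain ⟨z, hz⟩ : ∃ z, ¬ (α / 2 * (S z).card ≤ (S z ∩ u z x y).card ∧
        α / 2 * (S z).card ≤ (S z ∩ u z y x).card) := by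
      by_contra g
      push Not at g
      exact f ⟨e, fun z => (g z).1, fun z => (g z).2⟩
    exact Finset.le_sup (f := fun z => F \ egr F fun x y => ¬ ((S z ∩ u z x y).card : ℝ) <
      α / 2 * (S z).card) (mem_univ z) ⟨e, fun g => hz ⟨not_lt.1 g.2.1, not_lt.1 g.2.2⟩⟩
  have hcard : ((Z z0 \ S z0).card : ℝ) = (Z z0).card - (S z0).card := by
    rw [Finset.card_sdiff_of_subset (hS z0).1, Nat.cast_sub (Finset.card_le_card (hS z0).1)]
  have hSZ : ((S z0).card : ℝ) ≤ (Z z0).card := by exact_mod_cast Finset.card_le_card (hS z0).1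
  have hS0 : (0 : ℝ) ≤ (S z0).card := by positivity
  have hnew : ∀ x ∈ X, ∀ y ∈ X, (egr F fun x y => ((S z0 ∩ u z0 x y).card : ℝ) <
      α / 2 * (S z0).card).Adj x y →
      a z0 * (Z z0).card - α / 2 * (S z0).card ≤ ((Z z0 \ S z0) ∩ u z0 x y).card :=
    fun x hx y hy e => by
    have h1 : (Z z0 ∩ u z0 x y).card ≤ ((Z z0 \ S z0) ∩ u z0 x y).card + (S z0 ∩ u z0 x y).card := by
      refine le_trans (Finset.card_le_card fun v hv => ?_) (Finset.card_union_le _ _)
      simp only [Finset.mem_inter, Finset.mem_union, Finset.mem_sdiff] at hv ⊢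
      tauto
    have := (Nat.cast_le (α := ℝ)).2 h1
    push_cast at this
    linarith [hd x hx y hy e.1 z0, e.2.1]
  have hbig : α / 2 * (Z z0).card ≤ (Z z0 \ S z0).card := by
    obtain ⟨x, hx, y, hy, e⟩ := exists_edge hz0 (pos _)
    have h1 := (hnew x hx y hy e).trans (Nat.cast_le.2
      (Finset.card_le_card Finset.inter_subset_left))
    nlinarith only [h1, hα, hcard, mul_le_mul_of_nonneg_right (ha z0) (Z0 z0).le]
  have main := ih _ (Function.update Z z0 (Z z0 \ S z0))
    (Function.update a z0 (a z0 + α * β / 2)) (fun z => ?_) (fun z => ?_) ?_ hz0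
    fun x hx y hy e z => ?_
  · obtain ⟨F', b1, Z', b2, b3⟩ := main
    refine ⟨F', b1.trans fun _ _ h => h.1, Z', fun z => ?_, b3⟩
    obtain ⟨c1, c2⟩ := b2 z
    rw [pow_succ, mul_assoc]
    by_cases h : z = z0
    · subst h
      rw [Function.update_self] at c1 c2
      exact ⟨c1.trans Finset.sdiff_subset, le_trans (by gcongr) c2⟩
    · rw [Function.update_of_ne h] at c1 c2
      exact ⟨c1, le_trans (by
        gcongr; exact mul_le_of_le_one_left (Z0 z).le (by linarith [ha z, a1 z])) c2⟩
  · by_cases h : z = z0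
    · subst h
      rw [Function.update_self]
      exact Finset.card_pos.1 (Nat.cast_pos.1 (lt_of_lt_of_le (mul_pos (half_pos hα) (Z0 z)) hbig))
    · rw [Function.update_of_ne h]; exact hZ z
  · by_cases h : z = z0
    · subst h
      rw [Function.update_self]
      linarith [ha z, mul_pos hα hβ]
    · rw [Function.update_of_ne h]; exact ha z
  · rw [Finset.sum_update_of_mem (mem_univ z0)]
    rw [← Finset.add_sum_erase _ _ (mem_univ z0), ← Finset.sdiff_singleton_eq_erase] at hs
    push_cast at hs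
    linarith
  · by_cases h : z = z0
    · subst h
      rw [Function.update_self, Function.update_self, hcard]
      refine le_trans ?_ (hnew x hx y hy e)
      have h1 := mul_le_mul_of_nonneg_right (ha z) hS0
      have h2 := mul_le_mul_of_nonneg_left (hS z).2 hα.le
      have h3 : 0 ≤ α * β * (S z).card := by positivity
      nlinarith only [h1, h2, h3]
    · rw [Function.update_of_ne h, Function.update_of_ne h]
      exact hd x hx y hy e.1 z

variable {A J : Type} [Fintype A] [DecidableEq A] [Fintype J] [DecidableEq J] {T : SimpleGraph A}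
  {r : ℕ}

open Classical in
theorem zyk2 (R : Rooting T r) (side : A → Bool) (hside : ∀ a b, T.Adj a b → side a ≠ side b)
    (σ : J → I → Bool) (Vt : I → Prop) {α : ℝ} (hα : 0 < α) (hα1 : α ≤ 1) : ∃ β > (0 : ℝ), ∃ C,
    ∀ (V : Type) [Fintype V] [DecidableEq V] (F : SimpleGraph V) (X : Finset V)
    (U : I → V → Finset V) (Z0 : I → Finset V), ¬ Col F X C → (∀ z, (Z0 z).Nonempty) →
    (∀ x ∈ X, ∀ y ∈ X, F.Adj x y → ∀ z, α * (Z0 z).card ≤
      (Z0 z ∩ (U z x ∩ if Vt z then univ else U z y)).card) → ∃ θ : J → A → V,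
      (∀ j, θ j ∈ homs T F X) ∧ Function.Injective (Function.uncurry θ) ∧ ∀ z, β * (Z0 z).card ≤
      ((Z0 z).filter fun v => ∀ j a, (Vt z → side a = σ j z) → v ∈ U z (θ j a)).card := by
  obtain ⟨b, hb⟩ : ∃ x, x = zc α (Fintype.card I) (Fintype.card A) := ⟨_, rfl⟩
  have b0 : 0 < b := hb ▸ zc_pos hα _ _
  have b1 : b ≤ 1 := hb ▸ zc_le_one hα hα1 _ _
  obtain ⟨M, hM⟩ := (tendsto_natCast_atTop_atTop.eventually (ev_large (Fintype.card I + 1 : ℝ)
    (by positivity : 0 < α * b ^ Fintype.card J / 2))).exists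
  obtain ⟨t, t1, t2⟩ := ((tendsto_natCast_atTop_atTop.eventually
    (ev_large ((Fintype.card A : ℝ) ^ 2) b0)).and (eventually_gt_atTop 0)).exists
  refine ⟨b ^ Fintype.card J * (α / 2) ^ M, by positivity, (fun s => (t + Fintype.card (J × A) + 1) *
    (s + 1) ^ Fintype.card I)^[M] 1, fun V _ _ F X U Z0 hc hZ h => ?_⟩
  obtain ⟨F', a1, Z, a2, a3⟩ := boost2 hα (β := b ^ Fintype.card J) (by positivity)
    (t + Fintype.card (J × A)) (fun z x y => U z x ∩ if Vt z then univ else U z y) (fun z => by
      by_cases e : Vt z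
      · simp [e]
      · simp [e, Finset.inter_comm]) X M F Z0 (fun _ => α) hZ (fun _ => le_rfl) (by
      linarith [Finset.sum_nonneg fun (_ : I) (_ : _ ∈ univ) => hα.le]) hc h
  have : Nonempty V := ⟨(nonempty_of_not_col hc).choose⟩
  have Z1 : ∀ z, (0 : ℝ) < (Z z).card := fun z => lt_of_lt_of_le (mul_pos (by positivity)
    (by exact_mod_cast (hZ z).card_pos)) (a2 z).2
  have key : ∀ s : Finset J, ∃ θ : J → A → V, (∀ j ∈ s, θ j ∈ homs T F X) ∧
      (∀ j ∈ s, ∀ j' ∈ s, ∀ a a', θ j a = θ j' a' → (j, a) = (j', a')) ∧ ∀ z, b ^ s.card *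
      (Z z).card ≤ ((Z z).filter fun v => ∀ j ∈ s, ∀ a, (Vt z → side a = σ j z) →
        v ∈ U z (θ j a)).card := fun s => by
    induction s using Finset.induction with
    | empty => exact ⟨Classical.arbitrary _, by simp, by simp, by simp⟩
    | insert j s hj ih =>
      obtain ⟨θ, c1, c2, c3⟩ := ih
      obtain ⟨S, hS⟩ : ∃ S : I → Finset V, S = fun z => (Z z).filter fun v => ∀ j ∈ s, ∀ a,
        (Vt z → side a = σ j z) → v ∈ U z (θ j a) := ⟨_, rfl⟩
      replace c3 : ∀ z, b ^ s.card * (Z z).card ≤ (S z).card := hS ▸ c3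
      have S0 : ∀ z, (0 : ℝ) < (S z).card := fun z =>
        lt_of_lt_of_le (mul_pos (by positivity) (Z1 z)) (c3 z)
      have d1 := Col.sdiff (R := univ.image (Function.uncurry θ)) (a3 S fun z => ⟨hS ▸
        Finset.filter_subset _ _, le_trans (mul_le_mul_of_nonneg_right (pow_le_pow_of_le_one b0.le
        b1 (Finset.card_le_univ _)) (Z1 z).le) (c3 z)⟩) ((col_card _ _).mono le_rfl
        Finset.inter_subset_right Finset.card_image_le)
      have d2 := mt (col_of_noCore _) d1
      unfold NoCore at d2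
      push Not at d2
      obtain ⟨Q, q1, q2, q3⟩ := d2
      have d3 := forest_count R side hside (δ := t) (Δ := Fintype.card V) (by exact_mod_cast t2) q3
        q2 (fun v hv => Nat.cast_le.2 ((dg_lt hv).le.trans (Finset.card_le_univ _)))
        (Fintype.piFinset S) (Fintype.piFinset_nonempty.2 fun z => Finset.card_pos.1
        (by exact_mod_cast S0 z)) (fun w c => univ.filter fun x => ∀ z, (Vt z → σ j z = c) →
        w z ∈ U z x) (a := (α / 2) ^ Fintype.card I) (by positivity) (fun x hx y hy e => ?_)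
        (by rw [hb, zc] at t1; linarith)
      · obtain ⟨ϑ, hϑ⟩ := Finset.card_pos.1 (Nat.cast_pos.1 (lt_of_lt_of_le (by
          have : (0 : ℝ) < Q.card := by exact_mod_cast q2.card_pos
          have : (0 : ℝ) < Fintype.card V := by exact_mod_cast Fintype.card_pos
          positivity) d3))
        obtain ⟨e1, e2, e3⟩ := Finset.mem_filter.1 hϑ
        have e4 : ∀ i ∈ s, Function.update θ j ϑ i = θ i := fun i hi =>
          Function.update_of_ne (by rintro rfl; exact hj hi) _ _
        have e5 : ∀ i a a', θ i a ≠ ϑ a' := fun i a a' e => (Finset.mem_sdiff.1 (q1 ((mem_homs.1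
          e1).1 a'))).2 (Finset.mem_image.2 ⟨(i, a), mem_univ _, e⟩)
        refine ⟨Function.update θ j ϑ, ?_, ?_, fun z => ?_⟩
        · simp only [Finset.forall_mem_insert, Function.update_self]
          exact ⟨mem_homs.2 ⟨fun a => (Finset.mem_sdiff.1 (q1 ((mem_homs.1 e1).1 a))).1,
            fun a b h => a1 ((mem_homs.1 e1).2 a b h).1⟩, fun i hi => (e4 i hi).symm ▸ c1 i hi⟩
        · simp only [Finset.forall_mem_insert, Function.update_self]
          refine ⟨⟨fun a a' e => by rw [e2 e], fun i hi a a' e => ?_⟩, fun i hi =>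
            ⟨fun a a' e => ?_, fun i' hi' => by rw [e4 i hi, e4 i' hi']; exact c2 i hi i' hi'⟩⟩
          · exact absurd (e4 i hi ▸ e).symm (e5 _ _ _)
          · exact absurd (e4 i hi ▸ e) (e5 _ _ _)
        · have f1 := prod_factor (β := b) (f := fun z => (((S z).filter fun v => ∀ a,
            (Vt z → side a = σ j z) → v ∈ U z (ϑ a)).card : ℝ)) (fun _ => by positivity)
            (fun z => Nat.cast_le.2 (Finset.card_filter_le _ _)) S0 (by
              rw [Fintype.card_piFinset, Nat.cast_prod] at e3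
              rw [hb, zc]
              refine e3.trans ?_
              rw [← Nat.cast_prod, ← Fintype.card_piFinset]
              refine Nat.cast_le.2 (Finset.card_le_card fun w hw => ?_)
              simp only [Finset.mem_filter, Fintype.mem_piFinset, Finset.mem_univ, true_and] at hw ⊢
              exact fun z => ⟨hw.1 z, fun a ha => hw.2 a z fun e => (ha e).symm⟩) z
          rw [Finset.card_insert_of_notMem hj, pow_succ', mul_assoc]
          refine le_trans (by gcongr; exact c3 z) (f1.trans (Nat.cast_le.2 (Finset.card_le_card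
            fun v hv => ?_)))
          simp only [hS, Finset.mem_filter, Finset.forall_mem_insert, Function.update_self] at hv ⊢
          exact ⟨hv.1.1, hv.2, fun i hi => (e4 i hi).symm ▸ hv.1.2 i hi⟩
      · calc _ = ∏ z, (α / 2 * (S z).card) := by
              rw [Finset.prod_mul_distrib, Fintype.card_piFinset, Finset.prod_const,
                Finset.card_univ, Nat.cast_prod]
          _ ≤ ∏ z, ((S z ∩ if σ j z then U z y ∩ if Vt z then univ else U z x else
                U z x ∩ if Vt z then univ else U z y).card : ℝ) := by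
              refine Finset.prod_le_prod (fun z _ => by positivity) fun z _ => ?_
              cases σ j z
              exacts [e.2.1 z, e.2.2 z]
          _ ≤ _ := by
              rw [← Nat.cast_prod, ← Fintype.card_piFinset]
              refine Nat.cast_le.2 (Finset.card_le_card fun w hw => ?_)
              simp only [Finset.mem_filter, Fintype.mem_piFinset, Finset.mem_univ, true_and,
                Finset.mem_inter] at hw ⊢
              refine ⟨fun z => (hw z).1, fun z hz => ?_, fun z hz => ?_⟩ <;>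
                have := (hw z).2 <;> by_cases f : Vt z <;> cases g : σ j z <;> simp_all
  obtain ⟨θ, c1, c2, c3⟩ := key univ
  refine ⟨θ, fun j => c1 j (mem_univ _), fun x y e => c2 _ (mem_univ _) _ (mem_univ _) _ _ e,
    fun z => le_trans ?_ ((c3 z).trans (Nat.cast_le.2 (Finset.card_le_card fun v hv => ?_)))⟩
  · rw [mul_assoc, Finset.card_univ]; gcongr; exact (a2 z).2
  · rw [Finset.mem_filter] at hv ⊢
    exact ⟨(a2 z).1 hv.1, fun j => hv.2 j (mem_univ _)⟩

end Pool.Agent.Lib.MP_46505f_co
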